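import Mathlib
import Pool.Agent.TH278.DX.Defs

/-!
# A bound for all representations (helper480, job 4451, for helper278)

If every representation of `G` with `‖π(g)‖ ≤ c` has an invariant operator `1 ≤ A ≤ M`, then one `M`
serves all of them: otherwise take the Hilbert sum of a sequence of counterexamples.
-/

set_option autoImplicit false

noncomputable section

namespace Pool.Agent.TH480.J4451

open Pool.Agent.TH278.DX
open scoped ENNReal

section DS
/-! Diagonal operators on direct sums (copied from `Pool.Agent.TH698.Dix2`). -/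

variable {I : Type} {K : I → Type} [∀ i, NormedAddCommGroup (K i)]
  [∀ i, InnerProductSpace ℂ (K i)]

theorem sum_le (T : ∀ i, K i →L[ℂ] K i) {r : ℝ} (hr0 : 0 ≤ r) (hr : ∀ i, ‖T i‖ ≤ r) (f : lp K 2)
    (s : Finset I) :
    ∑ i ∈ s, ‖T i (f i)‖ ^ (2 : ℝ≥0∞).toReal ≤ (r * ‖f‖) ^ (2 : ℝ≥0∞).toReal := by
  have h2 : 0 < (2 : ℝ≥0∞).toReal := by norm_num
  have h1 := lp.sum_rpow_le_norm_rpow h2 f s
  calc ∑ i ∈ s, ‖T i (f i)‖ ^ (2 : ℝ≥0∞).toReal
      ≤ ∑ i ∈ s, r ^ (2 : ℝ≥0∞).toReal * ‖f i‖ ^ (2 : ℝ≥0∞).toReal := by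
        apply Finset.sum_le_sum
        intro i _
        rw [← Real.mul_rpow hr0 (norm_nonneg _)]
        apply Real.rpow_le_rpow (norm_nonneg _) _ h2.le
        exact ((T i).le_opNorm _).trans (mul_le_mul_of_nonneg_right (hr i) (norm_nonneg _))
    _ = r ^ (2 : ℝ≥0∞).toReal * ∑ i ∈ s, ‖f i‖ ^ (2 : ℝ≥0∞).toReal := by rw [Finset.mul_sum]
    _ ≤ r ^ (2 : ℝ≥0∞).toReal * ‖f‖ ^ (2 : ℝ≥0∞).toReal :=
        mul_le_mul_of_nonneg_left h1 (Real.rpow_nonneg hr0 _)
    _ = (r * ‖f‖) ^ (2 : ℝ≥0∞).toReal := by rw [Real.mul_rpow hr0 (norm_nonneg _)]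

/-- diagonal operator, as a linear map -/
def dgL (T : ∀ i, K i →L[ℂ] K i) {r : ℝ} (hr0 : 0 ≤ r) (hr : ∀ i, ‖T i‖ ≤ r) :
    lp K 2 →ₗ[ℂ] lp K 2 where
  toFun f := ⟨fun i => T i (f i), memℓp_gen' (sum_le T hr0 hr f)⟩
  map_add' f g := by
    apply lp.ext
    funext i
    show T i ((f + g) i) = T i (f i) + T i (g i)
    rw [← map_add]; rfl
  map_smul' c f := by
    apply lp.ext
    funext i
    show T i ((c • f) i) = c • T i (f i)
    rw [← map_smul]; rfl

/-- diagonal operator -/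
def dgC (T : ∀ i, K i →L[ℂ] K i) {r : ℝ} (hr0 : 0 ≤ r) (hr : ∀ i, ‖T i‖ ≤ r) :
    lp K 2 →L[ℂ] lp K 2 :=
  (dgL T hr0 hr).mkContinuous r fun f => by
    have h2 : 0 < (2 : ℝ≥0∞).toReal := by norm_num
    apply lp.norm_le_of_forall_sum_le h2 (mul_nonneg hr0 (norm_nonneg _))
    exact sum_le T hr0 hr f

theorem dgC_apply (T : ∀ i, K i →L[ℂ] K i) {r : ℝ} (hr0 : 0 ≤ r) (hr : ∀ i, ‖T i‖ ≤ r)
    (f : lp K 2) (i : I) : dgC T hr0 hr f i = T i (f i) := rfl

theorem dgC_norm (T : ∀ i, K i →L[ℂ] K i) {r : ℝ} (hr0 : 0 ≤ r) (hr : ∀ i, ‖T i‖ ≤ r) :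
    ‖dgC T hr0 hr‖ ≤ r :=
  LinearMap.mkContinuous_norm_le _ hr0 _

/-- the embedding of a summand -/
def emb (I : Type) [DecidableEq I] (K : I → Type) [∀ i, NormedAddCommGroup (K i)]
    [∀ i, InnerProductSpace ℂ (K i)] (i : I) : K i →L[ℂ] lp K 2 :=
  (lp.lsingle (𝕜 := ℂ) (E := K) 2 i).mkContinuous 1 fun x => by
    rw [one_mul]
    exact (lp.norm_single (by norm_num) i x).le

theorem emb_apply (I : Type) [DecidableEq I] (K : I → Type) [∀ i, NormedAddCommGroup (K i)]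
    [∀ i, InnerProductSpace ℂ (K i)] (i : I) (x : K i) : emb I K i x = lp.single 2 i x := rfl

theorem dgC_emb [DecidableEq I] (T : ∀ i, K i →L[ℂ] K i) {r : ℝ} (hr0 : 0 ≤ r)
    (hr : ∀ i, ‖T i‖ ≤ r) (i : I) (x : K i) : dgC T hr0 hr (emb I K i x) = emb I K i (T i x) := by
  apply lp.ext
  funext j
  rw [dgC_apply, emb_apply, emb_apply]
  by_cases hj : j = i
  · subst hj
    rw [lp.single_apply_self, lp.single_apply_self]
  · rw [lp.single_apply_ne _ _ _ hj, lp.single_apply_ne _ _ _ hj, map_zero]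

end DS

variable {G : Type} [Group G]

/-- a counterexample to the bound `M`, bundled -/
structure Bad (G : Type) [Group G] (c M : ℝ) where
  E : Type
  i1 : NormedAddCommGroup E
  i2 : InnerProductSpace ℂ E
  i3 : CompleteSpace E
  π : G →* (E →L[ℂ] E)ˣ
  bdd : Bdd π c
  bad : ¬ Inv π 1 M

attribute [instance] Bad.i1 Bad.i2 Bad.i3

theorem uniform {G : Type} [Group G] (c : ℝ)
    (h : ∀ (H : Type) [NormedAddCommGroup H] [InnerProductSpace ℂ H] [CompleteSpace H]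
      (π : G →* (H →L[ℂ] H)ˣ), Bdd π c → ∃ M : ℝ, Inv π 1 M) :
    ∃ M : ℝ, ∀ (H : Type) [NormedAddCommGroup H] [InnerProductSpace ℂ H] [CompleteSpace H]
      (π : G →* (H →L[ℂ] H)ˣ), Bdd π c → Inv π 1 M := by
  classical
  by_contra hcon
  have hbad : ∀ M : ℝ, Nonempty (Bad G c M) := by
    intro M
    by_contra hM
    apply hcon
    refine ⟨M, fun H _ _ _ π hπ => ?_⟩
    by_contra hI
    exact hM ⟨⟨H, inferInstance, inferInstance, inferInstance, π, hπ, hI⟩⟩
  choose R' hR' using fun n : ℕ => (⟨(hbad (n : ℝ)).some, trivial⟩ : ∃ _ : Bad G c (n : ℝ), True)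
  let R : (n : ℕ) → Bad G c (n : ℝ) := R'
  have hc : 0 ≤ c := (norm_nonneg _).trans ((R 0).bdd 1)
  let K : ℕ → Type := fun n => (R n).E
  let f : G →* (lp K 2 →L[ℂ] lp K 2) :=
    { toFun := fun g => dgC (fun n => (((R n).π g : ((K n) →L[ℂ] (K n))ˣ) : (K n) →L[ℂ] (K n))) hc
        (fun n => (R n).bdd g)
      map_one' := by
        apply ContinuousLinearMap.ext
        intro x
        apply lp.ext
        funext n
        rw [dgC_apply, map_one]
        rfl
      map_mul' := fun g g' => by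
        apply ContinuousLinearMap.ext
        intro x
        apply lp.ext
        funext n
        rw [dgC_apply, map_mul]
        rfl }
  have hf : ∀ (g : G) (n : ℕ) (x : K n), f g (emb ℕ K n x) =
      emb ℕ K n ((((R n).π g : ((K n) →L[ℂ] (K n))ˣ) : (K n) →L[ℂ] (K n)) x) := by
    intro g n x
    exact dgC_emb _ hc _ n x
  obtain ⟨M, A, hA1, hA2, hA3, hA4⟩ := h (lp K 2) f.toHomUnits (fun g => by
    rw [MonoidHom.coe_toHomUnits]
    exact dgC_norm _ hc _)
  obtain ⟨n, hn⟩ := exists_nat_ge M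
  apply (R n).bad
  have hnorm : ∀ x : K n, ‖emb ℕ K n x‖ = ‖x‖ := fun x => lp.norm_single (by norm_num) n x
  have hin : ∀ x y : K n, inner ℂ ((ContinuousLinearMap.adjoint (emb ℕ K n) ∘L A ∘L emb ℕ K n) x) y =
      inner ℂ (A (emb ℕ K n x)) (emb ℕ K n y) := by
    intro x y
    show inner ℂ (ContinuousLinearMap.adjoint (emb ℕ K n) (A (emb ℕ K n x))) y = _
    exact ContinuousLinearMap.adjoint_inner_left _ _ _
  refine ⟨ContinuousLinearMap.adjoint (emb ℕ K n) ∘L A ∘L emb ℕ K n, ?_, ?_, ?_, ?_⟩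
  · intro x y
    rw [hin, hA1, ← inner_conj_symm x, hin, inner_conj_symm]
  · intro x
    rw [hin, ← hnorm x]
    exact hA2 _
  · intro x
    rw [hin]
    refine (hA3 _).trans ?_
    rw [hnorm]
    exact mul_le_mul_of_nonneg_right hn (by positivity)
  · intro g x y
    rw [hin, hin, ← hf, ← hf]
    exact hA4 g _ _

end Pool.Agent.TH480.J4451
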