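import Pool.Agent.TH716.C3.Stmts

set_option autoImplicit false

open unitInterval Topology CategoryTheory

namespace Pool.Agent.TH480.J518

open Pool.Agent.TH716.C3 Pool.Agent.Helper281.Sc

/-- The map on fundamental groups induced by a map homotopic to the identity is bijective. -/
theorem bijective_of_homotopic_id {X : Type} [TopologicalSpace X] (f : C(X, X))
    (hf : f.Homotopic (ContinuousMap.id X)) (x : X) :
    Function.Bijective (FundamentalGroup.map f x) := by
  obtain ⟨H⟩ := hf
  have e : FundamentalGroupoid.map f ≅ 𝟭 (FundamentalGroupoid X) := by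
    have e1 := asIso (FundamentalGroupoidFunctor.homotopicMapsNatIso H)
    rw [FundamentalGroupoid.map_id] at e1
    exact e1
  have h1 : (FundamentalGroupoid.map f).Faithful := Functor.Faithful.of_iso e.symm
  have h2 : (FundamentalGroupoid.map f).Full := Functor.Full.of_iso e.symm
  exact ⟨(FundamentalGroupoid.map f).map_injective, (FundamentalGroupoid.map f).map_surjective⟩

section

variable {Y : Type} [TopologicalSpace Y] {y0 y1 : Y}

/-- Families of paths. -/
def fam {Z : Type} [TopologicalSpace Z] (T : Z → ℝ → Y)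
    (hT : Continuous fun p : Z × ℝ => T p.1 p.2) (h0 : ∀ z, T z 0 = y0) (h1 : ∀ z, T z 1 = y1) :
    C(Z, Path y0 y1) where
  toFun z :=
    { toFun := fun t => T z t
      continuous_toFun := hT.comp (by fun_prop : Continuous fun t : I => (z, (t : ℝ)))
      source' := h0 z
      target' := h1 z }
  continuous_toFun := by
    rw [← Path.continuous_uncurry_iff]
    exact hT.comp (by fun_prop : Continuous fun p : Z × I => (p.1, (p.2 : ℝ)))

lemma fam_apply {Z : Type} [TopologicalSpace Z] (T : Z → ℝ → Y)
    (hT : Continuous fun p : Z × ℝ => T p.1 p.2) (h0 : ∀ z, T z 0 = y0) (h1 : ∀ z, T z 1 = y1)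
    (z : Z) (t : I) : fam T hT h0 h1 z t = T z t := rfl

lemma continuous_ext {Z : Type} [TopologicalSpace Z] (a : Z → Path y0 y1) (ha : Continuous a)
    (f : Z → ℝ) (hf : Continuous f) : Continuous fun z => (a z).extend (f z) := by
  have : (fun z => (a z).extend (f z)) = fun z => a z (Set.projIcc 0 1 zero_le_one (f z)) := rfl
  rw [this]
  fun_prop

lemma continuous_three {Z : Type} [TopologicalSpace Z] (A B C : Z → ℝ → Y)
    (hA : Continuous fun p : Z × ℝ => A p.1 p.2) (hB : Continuous fun p : Z × ℝ => B p.1 p.2)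
    (hC : Continuous fun p : Z × ℝ => C p.1 p.2) (hAB : ∀ z, A z (1 / 3) = B z (1 / 3))
    (hBC : ∀ z, B z (2 / 3) = C z (2 / 3)) :
    Continuous fun p : Z × ℝ => if p.2 ≤ 1 / 3 then A p.1 p.2 else
      if p.2 ≤ 2 / 3 then B p.1 p.2 else C p.1 p.2 := by
  refine Continuous.if_le hA (Continuous.if_le hB hC continuous_snd continuous_const ?_)
    continuous_snd continuous_const ?_
  · rintro ⟨z, t⟩ ht
    simp only at ht
    subst ht
    exact hBC z
  · rintro ⟨z, t⟩ ht
    simp only at ht
    subst ht
    simp only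
    rw [if_pos (by norm_num)]
    exact hAB z

variable (ω : Path y0 y1)

/-- The H-space structure on the path space. -/
noncomputable def mu : C(Path y0 y1 × Path y0 y1, Path y0 y1) :=
  fam (fun z t => if t ≤ 1 / 3 then z.1.extend (3 * t) else
      if t ≤ 2 / 3 then ω.extend (2 - 3 * t) else z.2.extend (3 * t - 2))
    (by
      refine continuous_three (Z := Path y0 y1 × Path y0 y1) (fun z t => z.1.extend (3 * t))
        (fun z t => ω.extend (2 - 3 * t)) (fun z t => z.2.extend (3 * t - 2)) ?_ ?_ ?_ ?_ ?_
      · exact continuous_ext _ (by fun_prop) _ (by fun_prop)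
      · exact continuous_ext _ (by fun_prop) _ (by fun_prop)
      · exact continuous_ext _ (by fun_prop) _ (by fun_prop)
      · intro z
        norm_num
      · intro z
        norm_num)
    (by intro z; norm_num)
    (by intro z; norm_num)

/-- Right multiplication by the base point. -/
noncomputable def f1 : C(Path y0 y1, Path y0 y1) :=
  (mu ω).comp ((ContinuousMap.id _).prodMk (ContinuousMap.const _ ω))

/-- Left multiplication by the base point. -/
noncomputable def f2 : C(Path y0 y1, Path y0 y1) :=
  (mu ω).comp ((ContinuousMap.const _ ω).prodMk (ContinuousMap.id _))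

lemma f1_homotopic : (f1 ω).Homotopic (ContinuousMap.id _) := by
  have h1 : (f1 ω).Homotopic (fam (fun a t => a.extend (3 * t))
      (continuous_ext _ (by fun_prop) _ (by fun_prop)) (by simp)
      (by
        intro z
        exact Path.extend_of_one_le _ (by norm_num)) : C(Path y0 y1, Path y0 y1)) := by
    refine ⟨⟨fam (Z := I × Path y0 y1) (fun z t => if t ≤ 1 / 3 then z.2.extend (3 * t) else
      if t ≤ 2 / 3 then ω.extend (1 - (1 - z.1) * (3 * t - 1)) else
        ω.extend (z.1 + (1 - z.1) * (3 * t - 2))) ?_ ?_ ?_, ?_, ?_⟩⟩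
    · refine continuous_three (Z := I × Path y0 y1) (fun z t => z.2.extend (3 * t))
        (fun z t => ω.extend (1 - (1 - z.1) * (3 * t - 1)))
        (fun z t => ω.extend (z.1 + (1 - z.1) * (3 * t - 2))) ?_ ?_ ?_ ?_ ?_
      · exact continuous_ext _ (by fun_prop) _ (by fun_prop)
      · exact continuous_ext _ (by fun_prop) _ (by fun_prop)
      · exact continuous_ext _ (by fun_prop) _ (by fun_prop)
      · intro z
        norm_num
      · intro z
        norm_num
    · intro z
      norm_num
    · intro z
      norm_num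
    · intro a
      ext t
      change (if (t : ℝ) ≤ 1 / 3 then a.extend (3 * t) else if (t : ℝ) ≤ 2 / 3 then
        ω.extend (1 - (1 - ((0 : I) : ℝ)) * (3 * t - 1)) else
        ω.extend (((0 : I) : ℝ) + (1 - ((0 : I) : ℝ)) * (3 * t - 2))) =
        (if (t : ℝ) ≤ 1 / 3 then a.extend (3 * t) else
        if (t : ℝ) ≤ 2 / 3 then ω.extend (2 - 3 * t) else ω.extend (3 * t - 2))
      have e1 : 1 - (1 - ((0 : I) : ℝ)) * (3 * t - 1) = 2 - 3 * t := by
        rw [Set.Icc.coe_zero]; ring
      have e2 : ((0 : I) : ℝ) + (1 - ((0 : I) : ℝ)) * (3 * t - 2) = 3 * t - 2 := by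
        rw [Set.Icc.coe_zero]; ring
      rw [e1, e2]
    · intro a
      ext t
      change (if (t : ℝ) ≤ 1 / 3 then a.extend (3 * t) else if (t : ℝ) ≤ 2 / 3 then
        ω.extend (1 - (1 - ((1 : I) : ℝ)) * (3 * t - 1)) else
        ω.extend (((1 : I) : ℝ) + (1 - ((1 : I) : ℝ)) * (3 * t - 2))) = a.extend (3 * t)
      have e1 : 1 - (1 - ((1 : I) : ℝ)) * (3 * t - 1) = 1 := by
        rw [Set.Icc.coe_one]; ring
      have e2 : ((1 : I) : ℝ) + (1 - ((1 : I) : ℝ)) * (3 * t - 2) = 1 := by
        rw [Set.Icc.coe_one]; ring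
      rw [e1, e2, ite_self]
      split_ifs with h
      · rfl
      · rw [Path.extend_one]
        exact (Path.extend_of_one_le a (by linarith)).symm
  have h2 : (fam (fun a t => a.extend (3 * t))
      (continuous_ext _ (by fun_prop) _ (by fun_prop)) (by simp)
      (by
        intro z
        exact Path.extend_of_one_le _ (by norm_num)) : C(Path y0 y1, Path y0 y1)).Homotopic
        (ContinuousMap.id _) := by
    refine ⟨⟨fam (Z := I × Path y0 y1) (fun z t => z.2.extend ((1 - z.1) * (3 * t) + z.1 * t))
      ?_ ?_ ?_, ?_, ?_⟩⟩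
    · exact continuous_ext _ (by fun_prop) _ (by fun_prop)
    · intro z
      simp
    · intro z
      refine Path.extend_of_one_le _ ?_
      have := z.1.2.2
      linarith
    · intro a
      ext t
      change a.extend ((1 - ((0 : I) : ℝ)) * (3 * t) + ((0 : I) : ℝ) * t) = a.extend (3 * t)
      congr 1
      rw [Set.Icc.coe_zero]; ring
    · intro a
      ext t
      change a.extend ((1 - ((1 : I) : ℝ)) * (3 * t) + ((1 : I) : ℝ) * t) = a t
      have e1 : (1 - ((1 : I) : ℝ)) * (3 * t) + ((1 : I) : ℝ) * t = t := by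
        rw [Set.Icc.coe_one]; ring
      rw [e1, Path.extend_apply a t.2]
  exact h1.trans h2

lemma f2_homotopic : (f2 ω).Homotopic (ContinuousMap.id _) := by
  have h1 : (f2 ω).Homotopic (fam (fun a t => a.extend (3 * t - 2))
      (continuous_ext _ (by fun_prop) _ (by fun_prop))
      (by
        intro z
        exact Path.extend_of_le_zero _ (by norm_num))
      (by
        intro z
        norm_num) : C(Path y0 y1, Path y0 y1)) := by
    refine ⟨⟨fam (Z := I × Path y0 y1) (fun z t => if t ≤ 1 / 3 then
      ω.extend ((1 - z.1) * (3 * t)) else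
      if t ≤ 2 / 3 then ω.extend ((1 - z.1) * (2 - 3 * t)) else
        z.2.extend (3 * t - 2)) ?_ ?_ ?_, ?_, ?_⟩⟩
    · refine continuous_three (Z := I × Path y0 y1) (fun z t => ω.extend ((1 - z.1) * (3 * t)))
        (fun z t => ω.extend ((1 - z.1) * (2 - 3 * t)))
        (fun z t => z.2.extend (3 * t - 2)) ?_ ?_ ?_ ?_ ?_
      · exact continuous_ext _ (by fun_prop) _ (by fun_prop)
      · exact continuous_ext _ (by fun_prop) _ (by fun_prop)
      · exact continuous_ext _ (by fun_prop) _ (by fun_prop)
      · intro z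
        norm_num
      · intro z
        norm_num
    · intro z
      norm_num
    · intro z
      norm_num
    · intro a
      ext t
      change (if (t : ℝ) ≤ 1 / 3 then ω.extend ((1 - ((0 : I) : ℝ)) * (3 * t)) else
        if (t : ℝ) ≤ 2 / 3 then
        ω.extend ((1 - ((0 : I) : ℝ)) * (2 - 3 * t)) else
        a.extend (3 * t - 2)) =
        (if (t : ℝ) ≤ 1 / 3 then ω.extend (3 * t) else
        if (t : ℝ) ≤ 2 / 3 then ω.extend (2 - 3 * t) else a.extend (3 * t - 2))
      have e1 : (1 - ((0 : I) : ℝ)) * (3 * t) = 3 * t := by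
        rw [Set.Icc.coe_zero]; ring
      have e2 : (1 - ((0 : I) : ℝ)) * (2 - 3 * t) = 2 - 3 * t := by
        rw [Set.Icc.coe_zero]; ring
      rw [e1, e2]
    · intro a
      ext t
      change (if (t : ℝ) ≤ 1 / 3 then ω.extend ((1 - ((1 : I) : ℝ)) * (3 * t)) else
        if (t : ℝ) ≤ 2 / 3 then
        ω.extend ((1 - ((1 : I) : ℝ)) * (2 - 3 * t)) else
        a.extend (3 * t - 2)) = a.extend (3 * t - 2)
      have e1 : (1 - ((1 : I) : ℝ)) * (3 * t) = 0 := by
        rw [Set.Icc.coe_one]; ring
      have e2 : (1 - ((1 : I) : ℝ)) * (2 - 3 * t) = 0 := by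
        rw [Set.Icc.coe_one]; ring
      rw [e1, e2]
      split_ifs with h h'
      · rw [Path.extend_zero]
        exact (Path.extend_of_le_zero a (by linarith)).symm
      · rw [Path.extend_zero]
        exact (Path.extend_of_le_zero a (by linarith)).symm
      · rfl
  have h2 : (fam (fun a t => a.extend (3 * t - 2))
      (continuous_ext _ (by fun_prop) _ (by fun_prop))
      (by
        intro z
        exact Path.extend_of_le_zero _ (by norm_num))
      (by
        intro z
        norm_num) : C(Path y0 y1, Path y0 y1)).Homotopic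
        (ContinuousMap.id _) := by
    refine ⟨⟨fam (Z := I × Path y0 y1) (fun z t => z.2.extend ((1 - z.1) * (3 * t - 2) + z.1 * t))
      ?_ ?_ ?_, ?_, ?_⟩⟩
    · exact continuous_ext _ (by fun_prop) _ (by fun_prop)
    · intro z
      refine Path.extend_of_le_zero _ ?_
      have := z.1.2.2
      linarith
    · intro z
      refine Path.extend_of_one_le _ ?_
      linarith
    · intro a
      ext t
      change a.extend ((1 - ((0 : I) : ℝ)) * (3 * t - 2) + ((0 : I) : ℝ) * t) = a.extend (3 * t - 2)
      congr 1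
      rw [Set.Icc.coe_zero]; ring
    · intro a
      ext t
      change a.extend ((1 - ((1 : I) : ℝ)) * (3 * t - 2) + ((1 : I) : ℝ) * t) = a t
      have e1 : (1 - ((1 : I) : ℝ)) * (3 * t - 2) + ((1 : I) : ℝ) * t = t := by
        rw [Set.Icc.coe_one]; ring
      rw [e1, Path.extend_apply a t.2]
  exact h1.trans h2

end

section

variable {Y : Type} [TopologicalSpace Y] {y0 y1 : Y} (ω : Path y0 y1)

/-- The image of a class in the first factor. -/
noncomputable def E1 (a : Path.Homotopic.Quotient ω ω) :
    Path.Homotopic.Quotient (mu ω (ω, ω)) (mu ω (ω, ω)) :=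
  Path.Homotopic.Quotient.map (Path.Homotopic.prod a (Path.Homotopic.Quotient.refl ω)) (mu ω)

/-- The image of a class in the second factor. -/
noncomputable def E2 (b : Path.Homotopic.Quotient ω ω) :
    Path.Homotopic.Quotient (mu ω (ω, ω)) (mu ω (ω, ω)) :=
  Path.Homotopic.Quotient.map (Path.Homotopic.prod (Path.Homotopic.Quotient.refl ω) b) (mu ω)

lemma map_trans' {X Z : Type} [TopologicalSpace X] [TopologicalSpace Z] {x0 x1 x2 : X}
    (p : Path.Homotopic.Quotient x0 x1) (q : Path.Homotopic.Quotient x1 x2) (f : C(X, Z)) :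
    (p.trans q).map f = (p.map f).trans (q.map f) := by
  obtain ⟨p, rfl⟩ := Path.Homotopic.Quotient.mk_surjective p
  obtain ⟨q, rfl⟩ := Path.Homotopic.Quotient.mk_surjective q
  rw [← Path.Homotopic.Quotient.mk_trans, ← Path.Homotopic.Quotient.mk_map,
    ← Path.Homotopic.Quotient.mk_map, ← Path.Homotopic.Quotient.mk_map,
    ← Path.Homotopic.Quotient.mk_trans, Path.map_trans]

lemma E_comm (a b : Path.Homotopic.Quotient ω ω) :
    (E1 ω a).trans (E2 ω b) = (E2 ω b).trans (E1 ω a) := by
  rw [E1, E2, ← map_trans', ← map_trans', Path.Homotopic.comp_prod_eq_prod_comp,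
    Path.Homotopic.comp_prod_eq_prod_comp, Path.Homotopic.Quotient.trans_refl,
    Path.Homotopic.Quotient.trans_refl, Path.Homotopic.Quotient.refl_trans,
    Path.Homotopic.Quotient.refl_trans]

lemma E1_eq (a : Path.Homotopic.Quotient ω ω) :
    E1 ω a = Path.Homotopic.Quotient.map a (f1 ω) := by
  obtain ⟨p, rfl⟩ := Path.Homotopic.Quotient.mk_surjective a
  rfl

lemma E2_eq (a : Path.Homotopic.Quotient ω ω) :
    E2 ω a = Path.Homotopic.Quotient.map a (f2 ω) := by
  obtain ⟨p, rfl⟩ := Path.Homotopic.Quotient.mk_surjective a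
  rfl

end

theorem result : S_comm := by
  intro Y _ y0 y1 ω a b
  obtain ⟨b', hb'⟩ := (bijective_of_homotopic_id (f2 ω) (f2_homotopic ω) ω).2
    (show FundamentalGroup (Path y0 y1) (f2 ω ω) from E1 ω b)
  have hb : E2 ω b' = E1 ω b := by
    rw [E2_eq]
    exact hb'
  have h := E_comm ω a b'
  rw [hb, E1_eq, E1_eq] at h
  have h2 : Path.Homotopic.Quotient.map (Path.Homotopic.Quotient.trans a b) (f1 ω) =
      Path.Homotopic.Quotient.map (Path.Homotopic.Quotient.trans b a) (f1 ω) := by
    rw [map_trans', map_trans']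
    exact h
  exact ((bijective_of_homotopic_id (f1 ω) (f1_homotopic ω) ω).1 h2).symm

end Pool.Agent.TH480.J518
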