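import Pool.Agent.TH716.C3.Stmts

set_option autoImplicit false

namespace Pool.Agent.TH480.J526

open Pool.Agent.TH716.C3 Pool.Agent.Helper281.Sc Topology

/-- The inverse of `code`. -/
def dec (n : ℕ) : (ℕ × ℕ) ⊕ (ℕ × ℕ) :=
  if n % 2 = 0 then Sum.inl (Nat.unpair (n / 2)) else Sum.inr (Nat.unpair (n / 2))

lemma dec_code (v : (ℕ × ℕ) ⊕ (ℕ × ℕ)) : dec (code v) = v := by
  rcases v with ⟨a, b⟩ | ⟨a, b⟩
  · have h1 : (2 * Nat.pair a b) % 2 = 0 := by omega
    have h2 : (2 * Nat.pair a b) / 2 = Nat.pair a b := by omega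
    simp only [code, dec, h1, h2, if_true, Nat.unpair_pair]
  · have h1 : (2 * Nat.pair a b + 1) % 2 = 1 := by omega
    have h2 : (2 * Nat.pair a b + 1) / 2 = Nat.pair a b := by omega
    simp only [code, dec, h1, h2, Nat.unpair_pair, one_ne_zero, if_false]

lemma code_dec (n : ℕ) : code (dec n) = n := by
  unfold dec
  split_ifs with h
  · simp only [code, Nat.pair_unpair]
    omega
  · simp only [code, Nat.pair_unpair]
    omega

lemma code_injective : Function.Injective code := fun a b h => by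
  rw [← dec_code a, ← dec_code b, h]

theorem isCompact_Simp {V : Type} (s : Finset V) : IsCompact (Simp s) := by
  refine IsCompact.of_isClosed_subset (isCompact_univ_pi (fun _ : V => isCompact_Icc (a := (0:ℝ))
    (b := 1))) (isClosed_Simp s) ?_
  rintro x ⟨h0, h1, h2⟩ v -
  refine ⟨h0 v, ?_⟩
  by_cases hv : v ∈ s
  · rw [← h2]
    exact Finset.single_le_sum (fun w _ => h0 w) hv
  · rw [h1 v hv]
    exact zero_le_one

theorem compactSpace_Rlz {V : Type} {K : Set (Finset V)} (hK : K.Finite) :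
    CompactSpace (Rlz K) := by
  have h : (Set.univ : Set (Rlz K)) = ⋃ s ∈ K, {x : Rlz K | x.1 ∈ Simp s} := by
    ext x
    simp only [Set.mem_univ, Set.mem_iUnion, true_iff]
    obtain ⟨s, hs, hx⟩ := x.2
    exact ⟨s, hs, hx⟩
  refine ⟨?_⟩
  rw [h]
  refine hK.isCompact_biUnion fun s hs => ?_
  have h2 : {x : Rlz K | x.1 ∈ Simp s} = Set.range (Rlz.inc (K := K) s hs) := by
    ext x
    constructor
    · intro hx
      exact ⟨⟨x.1, hx⟩, rfl⟩
    · rintro ⟨y, rfl⟩
      exact y.2
  rw [h2]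
  have : CompactSpace (Simp s) := isCompact_iff_compactSpace.1 (isCompact_Simp s)
  exact isCompact_range (Rlz.continuous_inc s hs)

section

variable {L : List (List ℕ)} {K : Set (Finset ((ℕ × ℕ) ⊕ (ℕ × ℕ)))}
  (h : ∀ t : Finset ℕ, (t.Nonempty ∧ ∃ s ∈ L, t ⊆ s.toFinset) ↔ ∃ s ∈ K, t = s.image code)

include h in
lemma phi_mem (x : Rlz K) : ∃ s ∈ L, (∀ i, 0 ≤ x.1 (dec i)) ∧ (∀ i, i ∉ s → x.1 (dec i) = 0) ∧
    ∑ i ∈ s.toFinset, x.1 (dec i) = 1 := by
  obtain ⟨s, hs, h0, h1, h2⟩ := x.2
  obtain ⟨-, s', hs', hss⟩ := (h (s.image code)).2 ⟨s, hs, rfl⟩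
  have h3 : ∀ i, i ∉ s.image code → x.1 (dec i) = 0 := by
    intro i hi
    apply h1
    intro hd
    apply hi
    rw [← code_dec i]
    exact Finset.mem_image_of_mem _ hd
  refine ⟨s', hs', fun i => h0 _, fun i hi => h3 i fun hi2 => ?_, ?_⟩
  · exact hi (List.mem_toFinset.1 (hss hi2))
  · rw [← Finset.sum_subset hss fun i _ hi => h3 i hi, Finset.sum_image
      (fun a _ b _ hab => code_injective hab), ← h2]
    refine Finset.sum_congr rfl fun v _ => ?_
    rw [dec_code]

/-- The comparison map. -/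
def phi (x : Rlz K) : Real L := ⟨fun i => x.1 (dec i), phi_mem h x⟩

lemma phi_continuous : Continuous (phi h) := by
  rw [Rlz.continuous_iff]
  intro s hs
  refine Continuous.subtype_mk ?_ _
  exact continuous_pi fun i => (continuous_apply (dec i)).comp continuous_subtype_val

lemma phi_injective : Function.Injective (phi h) := by
  intro x y hxy
  apply Subtype.ext
  funext v
  have := congrFun (congrArg Subtype.val hxy) (code v)
  change x.1 (dec (code v)) = y.1 (dec (code v)) at this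
  rwa [dec_code] at this

lemma phi_surjective : Function.Surjective (phi h) := by
  rintro ⟨y, s', hs', h0, h1, h2⟩
  have hsum : ∑ i ∈ s'.toFinset.filter (fun i => y i ≠ 0), y i = 1 := by
    rw [Finset.sum_filter_ne_zero, h2]
  have hne : (s'.toFinset.filter (fun i => y i ≠ 0)).Nonempty := by
    rw [Finset.nonempty_iff_ne_empty]
    intro he
    rw [he, Finset.sum_empty] at hsum
    exact zero_ne_one hsum
  obtain ⟨s, hs, hss⟩ := (h _).1 ⟨hne, s', hs', Finset.filter_subset _ _⟩
  refine ⟨⟨fun v => y (code v), s, hs, fun v => h0 _, ?_, ?_⟩, ?_⟩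
  · intro v hv
    by_contra hy
    have hc : code v ∈ s'.toFinset.filter (fun i => y i ≠ 0) := by
      rw [Finset.mem_filter]
      refine ⟨?_, hy⟩
      rw [List.mem_toFinset]
      by_contra hn
      exact hy (h1 _ hn)
    rw [hss, Finset.mem_image] at hc
    obtain ⟨w, hw, hwv⟩ := hc
    exact hv (code_injective hwv ▸ hw)
  · rw [← hsum, hss, Finset.sum_image (fun a _ b _ hab => code_injective hab)]
  · apply Subtype.ext
    funext i
    change y (code (dec i)) = y i
    rw [code_dec]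

end

theorem result : S_real := by
  intro L K hK hfin h
  have : CompactSpace (Rlz K) := compactSpace_Rlz hfin
  have : T2Space (Real L) := inferInstanceAs (T2Space {x : ℕ → ℝ //
    ∃ s ∈ L, (∀ i, 0 ≤ x i) ∧ (∀ i, i ∉ s → x i = 0) ∧ ∑ i ∈ s.toFinset, x i = 1})
  let e : Rlz K ≃ₜ Real L := Continuous.homeoOfEquivCompactToT2
    (f := Equiv.ofBijective (phi h) ⟨phi_injective h, phi_surjective h⟩) (phi_continuous h)
  rw [ctr_iff]
  exact ⟨fun _ => e.contractibleSpace, fun _ => e.symm.contractibleSpace⟩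

end Pool.Agent.TH480.J526
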