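import Pool.Agent.TH37.RZ.Defs

/-!
# Job 749 (RZ-SMALL, for MP_8983b8_al)

A finitely generated ring has a finite quotient through which all homomorphisms to rings with at
most `N` elements factor.
-/

set_option autoImplicit false

namespace Pool.Agent.TH480.J749

open Pool.Agent.TH37.RZ
open Pool.Agent.TH37.RF (commIdeal NilpId TT zword wd)

/-- A synonym of `Fin k` without structure. -/
def Fn (k : ℕ) : Type := Fin k

instance (k : ℕ) : Finite (Fn k) := inferInstanceAs (Finite (Fin k))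

/-- There are finitely many ring structures on a finite type. -/
theorem finite_ring (k : ℕ) : Finite (Ring (Fn k)) := by
  apply Finite.of_injective
    (fun s : Ring (Fn k) => ((fun x y => s.add x y, fun x y => s.mul x y) :
      (Fn k → Fn k → Fn k) × (Fn k → Fn k → Fn k)))
  intro s t h
  rw [Prod.mk.injEq] at h
  apply Ring.ext
  · exact h.1
  · exact h.2

/-- the index type: small rings with a homomorphism from `C` -/
structure Idx (C : Type) [Ring C] (N : ℕ) : Type where
  k : Fin (N + 1)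
  s : Ring (Fn k)
  f : C →+* Fn k

theorem finite_Idx (C : Type) [Ring C] (ε : C →+* ℤ) (hfg : FGen ε) (N : ℕ) :
    Finite (Idx C N) := by
  obtain ⟨r, b, _, hb⟩ := hfg
  have h1 : ∀ k : Fin (N + 1), Finite (Ring (Fn k)) := fun k => finite_ring _
  apply Finite.of_injective
    (fun i : Idx C N => ((⟨i.k, (i.s, fun j => i.f (b j))⟩ :
      (k : Fin (N + 1)) × (Ring (Fn k) × (Fin r → Fn k)))))
  rintro ⟨k, s, f⟩ ⟨k', s', f'⟩ h
  simp only [Sigma.mk.injEq] at h
  obtain ⟨h1, h2⟩ := h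
  subst h1
  rw [heq_eq_eq, Prod.mk.injEq] at h2
  obtain ⟨h2, h3⟩ := h2
  subst h2
  congr 1
  apply RingHom.eq_of_eqOn_set_dense hb
  rintro _ ⟨j, rfl⟩
  exact congrFun h3 j

/-- transport of a ring structure to `Fn k` -/
theorem transport {C E : Type} [Ring C] [Ring E] [Finite E] (ψ : C →+* E) :
    ∃ (s : Ring (Fn (Nat.card E))) (f : C →+* Fn (Nat.card E)), ∀ c, f c = 0 → ψ c = 0 := by
  let e : Fn (Nat.card E) ≃ E := (Finite.equivFin E).symm
  let s : Ring (Fn (Nat.card E)) := e.ring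
  let e' : Fn (Nat.card E) ≃+* E := e.ringEquiv
  refine ⟨s, (e'.symm : E →+* Fn (Nat.card E)).comp ψ, ?_⟩
  intro c hc
  have h2 : e'.symm (ψ c) = 0 := hc
  exact (map_eq_zero_iff e'.symm e'.symm.injective).1 h2

/-- JOB Z-SMALL -/
theorem small_all {C : Type} [Ring C] (ε : C →+* ℤ) (hfg : FGen ε) (N : ℕ) :
    ∃ (Q : Type) (_ : Ring Q) (_ : Finite Q) (φ : C →+* Q),
      ∀ (E : Type) [Ring E] [Finite E] (ψ : C →+* E), Nat.card E ≤ N →
        ∀ c, φ c = 0 → ψ c = 0 := by
  have hfin := finite_Idx C ε hfg N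
  let inst : ∀ i : Idx C N, Ring (Fn i.k) := fun i => i.s
  refine ⟨∀ i : Idx C N, Fn i.k, Pi.ring, inferInstance, RingHom.pi (fun i => i.f), ?_⟩
  intro E _ _ ψ hE c hc
  obtain ⟨s, f, hf⟩ := transport ψ
  let i : Idx C N := ⟨⟨Nat.card E, Nat.lt_succ_of_le hE⟩, s, f⟩
  have h1 : (RingHom.pi (fun i : Idx C N => i.f) c) i = 0 := by
    rw [hc]; rfl
  exact hf c h1

end Pool.Agent.TH480.J749
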