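import Pool.Agent.Helper775.Tight.Compare
import Pool.Agent.Helper775.Tight.SingDefs

set_option autoImplicit false
namespace Pool.Agent.TH480.J186
open Set Topology Pool.Agent.Helper775.Tight SoftCx

theorem two_smul_zero {X : Type*} (c : X →₀ ZMod 2) : (2 : ℤ) • c = 0 := by
  ext σ
  rw [Finsupp.smul_apply, zsmul_eq_mul]
  have : ((2 : ℤ) : ZMod 2) = 0 := by decide
  rw [this, zero_mul]
  rfl

theorem even_of_sbPhi {X : Type*} [TopologicalSpace X] (V : Set X) (k : ℕ)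
    (w : Sc.Sing V k →₀ ℤ) (h : sbPhi V k w = 0) : ∃ y : Sc.Sing V k →₀ ℤ, w = (2 : ℤ) • y := by
  classical
  refine ⟨w.mapRange (fun m => m / 2) (by simp), ?_⟩
  ext σ
  rw [Finsupp.smul_apply, Finsupp.mapRange_apply]
  have h0 : ((w σ : ℤ) : ZMod 2) = 0 := by rw [← sbPhi_apply, h]; rfl
  have h2 : (2 : ℤ) ∣ w σ := by
    have := (ZMod.intCast_zmod_eq_zero_iff_dvd (w σ) 2).1 h0
    exact_mod_cast this
  rw [smul_eq_mul]
  omega

/-- subdivision of a cycle of a subspace -/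
theorem subdiv {X : Type*} [TopologicalSpace X] (𝒞 : Set (Set X)) (V : Set X)
    (hopen : ∀ C ∈ 𝒞, IsOpen C) (hcov : ∀ x ∈ V, ∃ C ∈ 𝒞, x ∈ C) (n : ℕ)
    (c : Sing X n →₀ ZMod 2) (hc : ChainIn V c) (hcyc : IsCycle n c) :
    ∃ (c' : Sing X n →₀ ZMod 2) (T : Sing X (n + 1) →₀ ZMod 2),
      (∀ σ ∈ c'.support, range σ ⊆ V ∧ ∃ C ∈ 𝒞, range σ ⊆ C) ∧ ChainIn V T ∧
      c - c' = bdry X n T ∧ IsCycle n c' := by
  classical
  have hopen' : ∀ D ∈ sbCov 𝒞 V, IsOpen D := by
    rintro D ⟨C, hC, rfl⟩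
    exact (hopen C hC).preimage continuous_subtype_val
  have hcov' : ∀ x : V, ∃ D ∈ sbCov 𝒞 V, x ∈ D := by
    intro x
    obtain ⟨C, hC, hx⟩ := hcov x x.2
    exact ⟨_, ⟨C, hC, rfl⟩, hx⟩
  have hchain : ∀ (k : ℕ) (z : Sc.Sing V k →₀ ℤ), ChainIn V (sbPhi V k z) := by
    intro k z
    have h := Sc.supported_map (Set.univ : Set (Sc.Sing V k)) (sbPhi V k)
      ((Finsupp.supported (ZMod 2) (ZMod 2) {σ : Sing X k | range σ ⊆ V}).restrictScalars ℤ) (by
        intro σ _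
        rw [sbPhi_single, Submodule.restrictScalars_mem]
        exact Finsupp.single_mem_supported _ _ (sbIota_range V k σ)) z (by simp)
    rw [Submodule.restrictScalars_mem, Finsupp.mem_supported] at h
    intro σ hσ
    exact h hσ
  obtain ⟨z, hz⟩ := sb_lift V n c hc
  refine ⟨sbPhi V n (Sc.rho (sbCov 𝒞 V) n z), ?_⟩
  have hsmall := sbPhi_small 𝒞 V n _ (Sc.rho_small _ hopen' hcov' n z)
  cases n with
  | zero =>
    refine ⟨0, hsmall, by simp [ChainIn], ?_, trivial⟩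
    have : Sc.rho (sbCov 𝒞 V) 0 z = z := rfl
    rw [this, hz, sub_self, map_zero]
  | succ k =>
    have h0 : sbPhi V k (Sc.sbd V k z) = 0 := by
      rw [← sbPhi_bdry, hz]; exact hcyc
    obtain ⟨y, hy⟩ := even_of_sbPhi V k _ h0
    refine ⟨sbPhi V (k + 2) (Sc.DD (sbCov 𝒞 V) (k + 1) z), hsmall, hchain _ _, ?_, ?_⟩
    · rw [Sc.rho_succ, map_sub, map_sub, hz, hy, map_smul, map_smul, two_smul_zero, sub_zero,
        ← sbPhi_bdry]
      abel
    · change bdry X k _ = 0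
      rw [sbPhi_bdry, Sc.sbd_rho, hy, map_smul, map_smul, two_smul_zero]

/-- surjectivity in Alexander-Spanier cohomology on a cofinal family of compact subsets of an open
set gives injectivity in singular homology mod 2 -/
theorem sing_of_cech {P : Type} [MetricSpace P] [CompactSpace P] {m : ℕ}
    [ChartedSpace (EuclideanSpace ℝ (Fin m)) P] {U : Set P} (hU : IsOpen U)
    (h : ∀ K : Set P, IsCompact K → K ⊆ U → ∃ K', IsCompact K' ∧ K ⊆ K' ∧ K' ⊆ U ∧
      ∀ n k, (AS P).Coc K' n k → ∃ k', (AS P).Coc univ n k' ∧ (AS P).Cob K' n (k - k')) :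
    HomologyInjective U := by
  classical
  intro n c hcU hcyc ⟨b₀, hb₀⟩
  by_contra hno
  set BU : Submodule (ZMod 2) (Sing P n →₀ ZMod 2) :=
    (Finsupp.supported (ZMod 2) (ZMod 2) {σ : Sing P (n + 1) | range σ ⊆ U}).map (bdry P n)
    with hBU
  have hcB : c ∉ BU := by
    rintro ⟨b, hb, hbc⟩
    exact hno ⟨b, fun σ hσ => hb hσ, hbc⟩
  obtain ⟨g, hgc, hgB⟩ : ∃ g : (Sing P n →₀ ZMod 2) →ₗ[ZMod 2] ZMod 2, g c ≠ 0 ∧
      ∀ x ∈ BU, g x = 0 := by
    obtain ⟨f, hf, hfB⟩ := Submodule.exists_le_ker_of_notMem hcB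
    exact ⟨f, hf, fun x hx => hfB hx⟩
  -- the support of c
  set K : Set P := ⋃ σ ∈ c.support, range (σ : Sing P n) with hK
  have hKc : IsCompact K := by
    apply c.support.finite_toSet.isCompact_biUnion
    intro σ _
    exact isCompact_range σ.continuous
  have hKU : K ⊆ U := by
    intro x hx
    simp only [hK, mem_iUnion] at hx
    obtain ⟨σ, hσ, hxσ⟩ := hx
    exact hcU σ hσ hxσ
  have hcK : ChainIn K c := by
    intro σ hσ x hx
    simp only [hK, mem_iUnion]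
    exact ⟨σ, hσ, hx⟩
  obtain ⟨K', hK'c, hKK', hK'U, hsurj⟩ := h K hKc hKU
  -- the singular cochain
  set s : SCh P := Function.update 0 n (fun σ => g (Finsupp.single σ 1)) with hs
  have hsn : ∀ σ : Sing P n, s n σ = g (Finsupp.single σ 1) := by
    intro σ; rw [hs, Function.update_self]
  have hscoc : (Sg P).Coc K' (n + 1) s := by
    intro z hz
    refine ⟨U, hU.mem_nhds (hK'U hz), fun σ hσ => ?_⟩
    change ∑ i : Fin (n + 2), s n (sface n i σ) = 0
    have h1 : bdry P n (Finsupp.single σ 1) ∈ BU :=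
      Submodule.mem_map_of_mem (Finsupp.single_mem_supported _ _ hσ)
    have h2 := hgB _ h1
    rw [sx_bdry_single, map_sum] at h2
    simp only [hsn]
    exact h2
  obtain ⟨k, hk, hsk⟩ := theta_surj (m := m) hK'c hscoc
  obtain ⟨k', hk', b, hb⟩ := hsurj (n + 1) k hk
  set s' : SCh P := theta k' with hs'
  have hs'coc : (Sg P).Coc univ (n + 1) s' := by
    intro z hz
    have h2 := Theta.comm z (n + 2) k'
    have h3 := Theta.mem z (n + 2) _ (hk' z hz)
    simpa using add_mem h2 h3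
  have hcob : (Sg P).Cob K' (n + 1) (s - s') := by
    have h1 : (Sg P).Cob K' (n + 1) (theta k - theta k') := by
      refine ⟨theta b, fun z hz => ?_⟩
      have h2 := Theta.mem z (n + 1) _ (hb z hz)
      have h3 := Theta.comm z (n + 1) b
      simp only [map_sub, Theta_f] at h2 h3
      have h4 := sub_mem h2 h3
      convert h4 using 1
      abel
    have := hsk.add h1
    convert this using 1
    abel
  obtain ⟨t, ht⟩ := hcob
  -- the cover
  set 𝒞 : Set (Set P) := {W | IsOpen W ∧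
    (∀ σ : Sing P (n + 1), range σ ⊆ W → ∑ i : Fin (n + 2), s' n (sface n i σ) = 0) ∧
    ((W ∩ K').Nonempty → ∀ σ : Sing P n, range σ ⊆ W → s n σ - s' n σ - sdf t n σ = 0)} with h𝒞
  have hCo : ∀ C ∈ 𝒞, IsOpen C := fun C hC => hC.1
  have hCcov : ∀ x : P, ∃ C ∈ 𝒞, x ∈ C := by
    intro x
    obtain ⟨W, hW, hWs⟩ := hs'coc x (mem_univ x)
    obtain ⟨W₁, hW₁W, hW₁, hxW₁⟩ := mem_nhds_iff.1 hW
    by_cases hx : x ∈ K'
    · obtain ⟨W', hW', hWs'⟩ := ht x hx
      obtain ⟨W₂, hW₂W, hW₂, hxW₂⟩ := mem_nhds_iff.1 hW'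
      refine ⟨W₁ ∩ W₂, ⟨hW₁.inter hW₂, ?_, ?_⟩, hxW₁, hxW₂⟩
      · intro σ hσ
        exact hWs σ ((hσ.trans inter_subset_left).trans hW₁W)
      · intro _ σ hσ
        exact hWs' σ ((hσ.trans inter_subset_right).trans hW₂W)
    · refine ⟨W₁ ∩ K'ᶜ, ⟨hW₁.inter hK'c.isClosed.isOpen_compl, ?_, ?_⟩, hxW₁, hx⟩
      · intro σ hσ
        exact hWs σ ((hσ.trans inter_subset_left).trans hW₁W)
      · rintro ⟨y, ⟨_, hy⟩, hy'⟩
        exact absurd hy' hy
  obtain ⟨c', T, hc', hT, hcT, hcyc'⟩ := subdiv 𝒞 K hCo (fun x _ => hCcov x) n c hcK hcyc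
  -- g c' ≠ 0
  have hgc' : g c' ≠ 0 := by
    have h1 : bdry P n T ∈ BU :=
      Submodule.mem_map_of_mem ((Finsupp.mem_supported _ _).2 fun σ hσ => (hT σ hσ).trans hKU)
    have h2 := hgB _ h1
    rw [← hcT, map_sub, sub_eq_zero] at h2
    rwa [← h2]
  -- c' bounds a small chain
  have hc'b : bdry P n (b₀ - T) = c' := by
    rw [map_sub, hb₀, ← hcT]; abel
  obtain ⟨b', hb', hbc'⟩ := small_bound 𝒞 univ hCo (fun x _ => hCcov x) n c'
    (fun σ hσ => ⟨subset_univ _, (hc' σ hσ).2⟩) (b₀ - T) (fun _ _ => subset_univ _) hc'b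
  -- evaluate
  set ev : ((σ : Sing P n) → ZMod 2) → (Sing P n →₀ ZMod 2) →ₗ[ZMod 2] ZMod 2 := fun f =>
    Finsupp.linearCombination (ZMod 2) f with hev
  have hev1 : ∀ f τ, ev f (Finsupp.single τ 1) = f τ := by
    intro f τ; simp [hev, Finsupp.linearCombination_single]
  have hs'0 : ev (s' n) c' = 0 := by
    rw [← hbc']
    apply sx_bdry_zero
    intro σ hσ
    simp only [hev1]
    obtain ⟨C, hC, hσC⟩ := (hb' σ hσ).2
    exact hC.2.1 σ hσC
  have ht0 : ev (fun σ => sdf t n σ) c' = 0 := by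
    rcases n with _ | k
    · have : (fun σ : Sing P 0 => sdf t 0 σ) = 0 := by funext σ; rfl
      rw [this]
      simp [hev]
    · set et : (Sing P k →₀ ZMod 2) →ₗ[ZMod 2] ZMod 2 :=
        Finsupp.linearCombination (ZMod 2) (t k) with het
      have h1 : ev (fun σ => sdf t (k + 1) σ) = et ∘ₗ bdry P k := by
        apply Finsupp.lhom_ext'
        intro σ
        apply LinearMap.ext_ring
        simp only [LinearMap.comp_apply, Finsupp.lsingle_apply]
        rw [hev1, sx_bdry_single, map_sum]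
        change ∑ i : Fin (k + 2), t k (sface k i σ) = _
        refine Finset.sum_congr rfl fun i _ => ?_
        rw [het, Finsupp.linearCombination_single, one_smul]
      rw [h1, LinearMap.comp_apply]
      have : bdry P k c' = 0 := hcyc'
      rw [this, map_zero]
  have hsum : g c' = ev (s' n) c' + ev (fun σ => sdf t n σ) c' := by
    rw [← LinearMap.add_apply]
    have hc'2 : c' = ∑ σ ∈ c'.support, Finsupp.single σ (c' σ) := by
      conv_lhs => rw [← Finsupp.sum_single c']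
      rfl
    rw [hc'2, map_sum, map_sum]
    refine Finset.sum_congr rfl fun σ hσ => ?_
    have e1 : (Finsupp.single σ (c' σ) : Sing P n →₀ ZMod 2) = c' σ • Finsupp.single σ 1 := by
      rw [Finsupp.smul_single, smul_eq_mul, mul_one]
    rw [e1, map_smul, map_smul, LinearMap.add_apply, hev1, hev1]
    congr 1
    obtain ⟨hσK, C, hC, hσC⟩ := hc' σ hσ
    have hne : (C ∩ K').Nonempty :=
      ⟨σ (stdSimplex.vertex 0), hσC ⟨_, rfl⟩, hKK' (hσK ⟨_, rfl⟩)⟩
    have h1 := hC.2.2 hne σ hσC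
    rw [hsn] at h1
    rw [sub_sub, sub_eq_zero] at h1
    exact h1
  rw [hs'0, ht0, add_zero] at hsum
  exact hgc' hsum

end Pool.Agent.TH480.J186
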