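import Pool.Agent.TH215.TM.Defs

set_option autoImplicit false

namespace Pool.Agent.TH480.J295

open Pool.Agent.TH215.TM

/-- A derivation maps the square of an ideal into the ideal. -/
lemma deriv_sq {k S : Type*} [CommRing k] [CommRing S] [Algebra k S] (D : Derivation k S S)
    (P : Ideal S) {a : S} (ha : a ∈ P ^ 2) : D a ∈ P := by
  rw [pow_two] at ha
  refine Submodule.mul_induction_on ha ?_ ?_
  · intro x hx y hy
    rw [Derivation.leibniz, smul_eq_mul, smul_eq_mul]
    exact P.add_mem (P.mul_mem_right _ hx) (P.mul_mem_right _ hy)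
  · intro x y hx hy
    rw [map_add]
    exact P.add_mem hx hy

/-- Eisenstein for `T ^ n + h`. -/
theorem irreducible_X_pow_add_C {k S T : Type*} [CommRing k] [CommRing S] [IsDomain S]
    [Algebra k S] [CommRing T] [IsDomain T] (φ : S →+* T) (D : Derivation k S S) (h : S)
    (h0 : φ h = 0) (h1 : φ (D h) ≠ 0) (n : ℕ) (hn : 0 < n) :
    Irreducible (Polynomial.X ^ n + Polynomial.C h : Polynomial S) := by
  have hmon : (Polynomial.X ^ n + Polynomial.C h : Polynomial S).Monic :=
    Polynomial.monic_X_pow_add_C h hn.ne'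
  have hdeg : (Polynomial.X ^ n + Polynomial.C h : Polynomial S).natDegree = n :=
    Polynomial.natDegree_X_pow_add_C
  have hP : (RingHom.ker φ).IsPrime := RingHom.ker_isPrime φ
  refine Polynomial.irreducible_of_eisenstein_criterion hP ?_ ?_ ?_ ?_ hmon.isPrimitive
  · rw [hmon.leadingCoeff]
    exact fun h => hP.ne_top ((Ideal.eq_top_iff_one _).2 h)
  · intro m hm
    rw [Polynomial.degree_eq_natDegree hmon.ne_zero, hdeg, Nat.cast_lt] at hm
    rw [Polynomial.coeff_add, Polynomial.coeff_X_pow, if_neg hm.ne, zero_add,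
      Polynomial.coeff_C]
    split_ifs with hm0
    · exact h0
    · exact (RingHom.ker φ).zero_mem
  · rw [Polynomial.degree_eq_natDegree hmon.ne_zero, hdeg]
    exact_mod_cast hn
  · rw [Polynomial.coeff_add, Polynomial.coeff_X_pow, if_neg hn.ne, zero_add,
      Polynomial.coeff_C_zero]
    intro hmem
    exact h1 (deriv_sq D _ hmem)

theorem irreducible_RR : Irreducible (Polynomial.X ^ 4 + Polynomial.C g3 : Polynomial S3) := by
  refine irreducible_X_pow_add_C (k := ℂ) (T := Polynomial ℂ)
    (MvPolynomial.eval₂Hom (Polynomial.C : ℂ →+* Polynomial ℂ)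
      ![0, - Polynomial.X, Polynomial.X]) (MvPolynomial.pderiv 1) g3 ?_ ?_ 4 (by norm_num)
  · simp [g3]
    ring
  · have : (MvPolynomial.pderiv (1 : Fin 3)) g3 = 3 * MvPolynomial.X 1 ^ 2 := by
      simp [g3, MvPolynomial.pderiv_X, Pi.single_apply]
    rw [this]
    simp

theorem irreducible_BB : Irreducible (Polynomial.X ^ 3 + Polynomial.C h3 : Polynomial S3) := by
  refine irreducible_X_pow_add_C (k := ℂ) (T := Polynomial ℂ)
    (MvPolynomial.eval₂Hom (Polynomial.C : ℂ →+* Polynomial ℂ)
      ![0, -1, Polynomial.X]) (MvPolynomial.pderiv 1) h3 ?_ ?_ 3 (by norm_num)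
  · simp [h3]
    ring
  · have : (MvPolynomial.pderiv (1 : Fin 3)) h3 = 3 * MvPolynomial.X 1 ^ 2 := by
      simp [h3, MvPolynomial.pderiv_X, Pi.single_apply]
    rw [this]
    simp

theorem isDomain_RR : IsDomain RR :=
  AdjoinRoot.isDomain_of_prime irreducible_RR.prime

theorem isDomain_BB : IsDomain BB :=
  AdjoinRoot.isDomain_of_prime irreducible_BB.prime

end Pool.Agent.TH480.J295
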