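import Pool.Agent.TH215.TM.Defs
import Pool.Agent.TH480.J295

set_option autoImplicit false

namespace Pool.Agent.TH480.J296

open Pool.Agent.TH215.TM

/-- An integral extension has the same Krull dimension. -/
theorem ringKrullDim_eq_of_isIntegral (A B : Type*) [CommRing A] [CommRing B] [Algebra A B]
    [Algebra.IsIntegral A B] (hinj : Function.Injective (algebraMap A B)) :
    ringKrullDim B = ringKrullDim A := by
  apply le_antisymm
  · refine Order.krullDim_le_of_strictMono (PrimeSpectrum.comap (algebraMap A B)) ?_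
    intro P Q hPQ
    exact Ideal.IsIntegral.comap_lt_comap (I := P.asIdeal) (J := Q.asIdeal) hPQ
  · refine iSup_le fun l => ?_
    have : FaithfulSMul A B := (faithfulSMul_iff_algebraMap_injective A B).2 hinj
    obtain ⟨P, hP⟩ := Algebra.IsIntegral.comap_surjective A B l.head
    have : P.asIdeal.LiesOver l.head.asIdeal := ⟨by rw [← hP]; rfl⟩
    obtain ⟨L, hL, -, -⟩ := Ideal.exists_ltSeries_of_hasGoingUp l P.asIdeal
    rw [← hL]
    exact Order.LTSeries.length_le_krullDim L

theorem dim_RR : ringKrullDim RR = 3 := by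
  have hmon : (Polynomial.X ^ 4 + Polynomial.C g3 : Polynomial S3).Monic :=
    Polynomial.monic_X_pow_add_C g3 (by norm_num)
  have : Module.Finite S3 RR := hmon.finite_adjoinRoot
  have hinj : Function.Injective (algebraMap S3 RR) := by
    apply AdjoinRoot.of.injective_of_degree_ne_zero
    rw [Polynomial.degree_X_pow_add_C (by norm_num)]
    norm_num
  rw [ringKrullDim_eq_of_isIntegral S3 RR hinj, MvPolynomial.ringKrullDim_of_isNoetherianRing,
    ringKrullDim_eq_zero_of_field]
  simp

theorem dvd_of_pow_dvd {S : Type*} [CommRing S] [IsDomain S] [UniqueFactorizationMonoid S] {h : S}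
    (hh : Squarefree h) {n i : ℕ} (hi : i < n) (s : S) (hs : s ≠ 0) :
    ∀ a : S, s ^ n ∣ a ^ n * h ^ i → s ∣ a := by
  induction s using UniqueFactorizationMonoid.induction_on_prime with
  | h₁ => exact absurd rfl hs
  | h₂ x hx => intro a _; exact hx.dvd
  | h₃ s p hs' hp ih =>
    intro a hdvd
    have hpn : p ^ n ∣ a ^ n * h ^ i := (pow_dvd_pow_of_dvd (dvd_mul_right p s) n).trans hdvd
    have hpa : p ∣ a := by
      by_contra hpa
      have h1 : p ^ n ∣ h ^ i := hp.pow_dvd_of_dvd_mul_left n (mt hp.dvd_of_dvd_pow hpa) hpn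
      have h2 : p ∣ h := hp.dvd_of_dvd_pow ((dvd_pow_self p (by omega)).trans h1)
      obtain ⟨h', rfl⟩ := h2
      have h3 : ¬ p ∣ h' := fun ⟨c, hc⟩ => hp.not_isUnit (hh p ⟨c, by rw [hc]; ring⟩)
      rw [mul_pow] at h1
      have h4 : p ^ n ∣ p ^ i := hp.pow_dvd_of_dvd_mul_right n (mt hp.dvd_of_dvd_pow h3) h1
      exact absurd ((pow_dvd_pow_iff hp.ne_zero hp.not_isUnit).1 h4) (by omega)
    obtain ⟨a', rfl⟩ := hpa
    rw [mul_pow, mul_pow, mul_assoc] at hdvd
    have := (mul_dvd_mul_iff_left (pow_ne_zero n hp.ne_zero)).1 hdvd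
    exact mul_dvd_mul_left p (ih hs' a' this)

/-- If `u / v` (in some field containing the integrally closed domain `S`) is integral over
`S`, then `v` divides `u`. -/
theorem dvd_of_isIntegral_div {S L : Type*} [CommRing S] [IsDomain S] [IsIntegrallyClosed S]
    [Field L] [Algebra S L] (hinj : Function.Injective (algebraMap S L)) (u v : S) (hv : v ≠ 0)
    (hint : IsIntegral S (algebraMap S L u / algebraMap S L v)) : v ∣ u := by
  have hφ : Function.Injective (Algebra.ofId S L) := hinj
  let φ : FractionRing S →ₐ[S] L := IsFractionRing.liftAlgHom hφ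
  have h1 : φ (algebraMap S (FractionRing S) u / algebraMap S (FractionRing S) v) =
      algebraMap S L u / algebraMap S L v := by
    rw [map_div₀, AlgHom.commutes, AlgHom.commutes]
  rw [← h1, isIntegral_algHom_iff φ φ.toRingHom.injective] at hint
  obtain ⟨c, hc⟩ := (IsIntegrallyClosed.isIntegral_iff).1 hint
  refine ⟨c, ?_⟩
  have hv' : algebraMap S (FractionRing S) v ≠ 0 := by
    rwa [Ne, map_eq_zero_iff _ (IsFractionRing.injective S (FractionRing S))]
  rw [eq_div_iff hv', ← map_mul] at hc
  rw [mul_comm]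
  exact (IsFractionRing.injective S (FractionRing S) hc).symm

section main

variable {k S : Type*} [Field k] [CommRing S] [IsDomain S] [Algebra k S] (n : ℕ) (h : S)

/-- The polynomial `T ^ n + h`. -/
noncomputable abbrev pp : Polynomial S := Polynomial.X ^ n + Polynomial.C h

omit [IsDomain S] in
lemma root_pow : (AdjoinRoot.root (pp n h)) ^ n = - algebraMap S (AdjoinRoot (pp n h)) h := by
  have h1 := AdjoinRoot.eval₂_root (pp n h)
  rw [Polynomial.eval₂_add, Polynomial.eval₂_pow, Polynomial.eval₂_X, Polynomial.eval₂_C] at h1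
  exact eq_neg_of_add_eq_zero_left h1

/-- The endomorphism `w ↦ η w`. -/
noncomputable def sig (η : k) (hη : η ^ n = 1) : (AdjoinRoot (pp n h)) →ₐ[S] (AdjoinRoot (pp n h)) :=
  AdjoinRoot.liftAlgHom (pp n h) (Algebra.ofId S (AdjoinRoot (pp n h)))
    (algebraMap S (AdjoinRoot (pp n h)) (algebraMap k S η) * AdjoinRoot.root (pp n h)) (by
      rw [Polynomial.eval₂_add, Polynomial.eval₂_pow, Polynomial.eval₂_X, Polynomial.eval₂_C,
        mul_pow, ← map_pow, ← map_pow, hη, map_one, map_one, one_mul, root_pow]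
      exact neg_add_cancel _)

omit [IsDomain S] in
lemma sig_root (η : k) (hη : η ^ n = 1) : sig n h η hη (AdjoinRoot.root (pp n h)) =
    algebraMap S (AdjoinRoot (pp n h)) (algebraMap k S η) * AdjoinRoot.root (pp n h) :=
  AdjoinRoot.liftAlgHom_root _ _ _ _

omit [IsDomain S] in
lemma sig_injective (hn : n ≠ 0) (η : k) (hη : η ^ n = 1) :
    Function.Injective (sig n h η hη) := by
  have hη0 : η ≠ 0 := by
    rintro rfl
    rw [zero_pow hn] at hη
    exact zero_ne_one hη
  have hη' : η⁻¹ ^ n = 1 := by rw [inv_pow, hη, inv_one]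
  have h1 : (sig n h η⁻¹ hη').comp (sig n h η hη) = AlgHom.id S (AdjoinRoot (pp n h)) := by
    apply AdjoinRoot.algHom_ext
    rw [AlgHom.comp_apply, sig_root, map_mul, AlgHom.commutes, sig_root, ← mul_assoc, ← map_mul,
      ← map_mul, mul_inv_cancel₀ hη0, map_one, map_one, one_mul]
    rfl
  intro x y hxy
  have h2 := congrArg (sig n h η⁻¹ hη') hxy
  rw [← AlgHom.comp_apply, ← AlgHom.comp_apply, h1] at h2
  exact h2

lemma exists_sum (hn : n ≠ 0) (a : (AdjoinRoot (pp n h))) : ∃ c : ℕ → S, a = ∑ i ∈ Finset.range n,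
    algebraMap S (AdjoinRoot (pp n h)) (c i) * AdjoinRoot.root (pp n h) ^ i := by
  have hmon : ((pp n h)).Monic := Polynomial.monic_X_pow_add_C h hn
  obtain ⟨p, rfl⟩ := AdjoinRoot.mk_surjective a
  have h1 : AdjoinRoot.mk (pp n h) p = AdjoinRoot.mk (pp n h) (p %ₘ (pp n h)) := by
    rw [AdjoinRoot.mk_eq_mk]
    refine ⟨p /ₘ (pp n h), ?_⟩
    have := Polynomial.modByMonic_add_div p (pp n h)
    linear_combination this.symm
  refine ⟨(p %ₘ (pp n h)).coeff, ?_⟩
  have hdeg : (p %ₘ (pp n h)).natDegree < n := by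
    have := Polynomial.natDegree_modByMonic_lt p hmon (by
      intro h1
      have := congrArg Polynomial.natDegree h1
      rw [Polynomial.natDegree_X_pow_add_C, Polynomial.natDegree_one] at this
      exact hn this)
    rwa [Polynomial.natDegree_X_pow_add_C] at this
  rw [h1]
  conv_lhs => rw [(p %ₘ (pp n h)).as_sum_range' n hdeg]
  rw [map_sum]
  refine Finset.sum_congr rfl fun i _ => ?_
  rw [← Polynomial.C_mul_X_pow_eq_monomial, map_mul, map_pow, AdjoinRoot.mk_X]
  rfl

variable {n}

lemma sum_root {ζ : k} (hζ : IsPrimitiveRoot ζ n) (i l : ℕ) (hi : i < n) (hl : l < n) :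
    ∑ j ∈ Finset.range n, (ζ ^ ((n - i) * j) * ζ ^ (j * l)) = if l = i then (n : k) else 0 := by
  have h1 : ∀ j, ζ ^ ((n - i) * j) * ζ ^ (j * l) = (ζ ^ (n - i + l)) ^ j := by
    intro j
    rw [← pow_add, ← pow_mul]
    congr 1
    ring
  simp_rw [h1]
  split_ifs with hli
  · subst hli
    have : n - l + l = n := by omega
    rw [this, hζ.pow_eq_one]
    simp
  · have h2 : ζ ^ (n - i + l) ≠ 1 := by
      intro h3
      have h4 := hζ.dvd_of_pow_eq_one _ h3
      obtain ⟨c, hc⟩ := h4
      have h5 : c = 0 ∨ c = 1 ∨ 2 ≤ c := by omega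
      rcases h5 with rfl | rfl | h5
      · omega
      · omega
      · have : n * 2 ≤ n * c := Nat.mul_le_mul_left n h5
        omega
    have h3 := mul_geom_sum (ζ ^ (n - i + l)) n
    rw [← pow_mul, mul_comm (n - i + l) n, pow_mul, hζ.pow_eq_one, one_pow, sub_self] at h3
    exact (mul_eq_zero.1 h3).resolve_left (sub_ne_zero.2 h2)

set_option maxHeartbeats 2000000 in
theorem isIntegrallyClosed_aux [UniqueFactorizationMonoid S] [IsDomain (AdjoinRoot (pp n h))] (hn : 0 < n)
    (hk : (n : k) ≠ 0) {ζ : k} (hζ : IsPrimitiveRoot ζ n) (hh : Squarefree h)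
    (L : Type*) [Field L] [Algebra (AdjoinRoot (pp n h)) L] [IsFractionRing (AdjoinRoot (pp n h)) L] [Algebra S L]
    [IsScalarTower S (AdjoinRoot (pp n h)) L] (x : L) (hx : IsIntegral (AdjoinRoot (pp n h)) x) : ∃ y, algebraMap (AdjoinRoot (pp n h)) L y = x := by
  have hmon : ((pp n h)).Monic := Polynomial.monic_X_pow_add_C h hn.ne'
  have hfin : Module.Finite S (AdjoinRoot (pp n h)) := hmon.finite_adjoinRoot
  have hint : Algebra.IsIntegral S (AdjoinRoot (pp n h)) := inferInstance
  have hinjS : Function.Injective (algebraMap S (AdjoinRoot (pp n h))) := by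
    apply AdjoinRoot.of.injective_of_degree_ne_zero
    rw [Polynomial.degree_X_pow_add_C hn]
    exact_mod_cast hn.ne'
  have hinjL : Function.Injective (algebraMap S L) := by
    rw [IsScalarTower.algebraMap_eq S (AdjoinRoot (pp n h)) L]
    exact (IsFractionRing.injective (AdjoinRoot (pp n h)) L).comp hinjS
  have hxS : IsIntegral S x := isIntegral_trans x hx
  -- write `x = a / s` with `s ∈ S`
  obtain ⟨a, s, hs, hxas⟩ : ∃ (a : (AdjoinRoot (pp n h))) (s : S), s ≠ 0 ∧
      x = algebraMap (AdjoinRoot (pp n h)) L a / algebraMap S L s := by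
    obtain ⟨a, b, hb, rfl⟩ := IsFractionRing.div_surjective (A := (AdjoinRoot (pp n h))) x
    have hb0 : b ≠ 0 := nonZeroDivisors.ne_zero hb
    have h1 := Ideal.comap_ne_bot_of_integral_mem (R := S) (I := Ideal.span {b}) hb0
      (Ideal.mem_span_singleton_self b) (hint.isIntegral b)
    obtain ⟨s, hs, hs0⟩ := Submodule.exists_mem_ne_zero_of_ne_bot h1
    rw [Ideal.mem_comap, Ideal.mem_span_singleton] at hs
    obtain ⟨c, hc⟩ := hs
    refine ⟨a * c, s, hs0, ?_⟩
    have hb' : algebraMap (AdjoinRoot (pp n h)) L b ≠ 0 := by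
      rwa [Ne, map_eq_zero_iff _ (IsFractionRing.injective (AdjoinRoot (pp n h)) L)]
    have hs' : algebraMap S L s ≠ 0 := by
      rwa [Ne, map_eq_zero_iff _ hinjL]
    rw [div_eq_div_iff hb' hs', IsScalarTower.algebraMap_apply S (AdjoinRoot (pp n h)) L, hc, map_mul,
      map_mul]
    ring
  have hs' : algebraMap S L s ≠ 0 := by
    rwa [Ne, map_eq_zero_iff _ hinjL]
  obtain ⟨c, hc⟩ := exists_sum n h hn.ne' a
  -- the automorphisms on the fraction field
  have hpow : ∀ j : ℕ, (ζ ^ j) ^ n = 1 := fun j => by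
    rw [← pow_mul, mul_comm, pow_mul, hζ.pow_eq_one, one_pow]
  let W : L := algebraMap (AdjoinRoot (pp n h)) L (AdjoinRoot.root (pp n h))
  have hW : W ^ n = - algebraMap S L h := by
    rw [IsScalarTower.algebraMap_apply S (AdjoinRoot (pp n h)) L, ← map_pow, root_pow, map_neg]
  have hinjφ : ∀ j : ℕ, Function.Injective
      ((IsScalarTower.toAlgHom S (AdjoinRoot (pp n h)) L).comp (sig n h (ζ ^ j) (hpow j))) := fun j => by
    rw [AlgHom.coe_comp]
    exact (IsFractionRing.injective (AdjoinRoot (pp n h)) L).comp (sig_injective n h hn.ne' _ _)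
  let φ : ℕ → (L →ₐ[S] L) := fun j =>
    IsFractionRing.liftAlgHom (hinjφ j)
  have hφW : ∀ j, φ j W = algebraMap S L (algebraMap k S (ζ ^ j)) * W := by
    intro j
    have h1 : φ j W = ((IsScalarTower.toAlgHom S (AdjoinRoot (pp n h)) L).comp
        (sig n h (ζ ^ j) (hpow j))) (AdjoinRoot.root (pp n h)) :=
      IsFractionRing.lift_algebraMap (g := ((IsScalarTower.toAlgHom S (AdjoinRoot (pp n h)) L).comp
        (sig n h (ζ ^ j) (hpow j))).toRingHom) (hinjφ j) _
    rw [h1, AlgHom.comp_apply, sig_root, map_mul, AlgHom.commutes]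
    rfl
  have hx1 : x = (∑ i ∈ Finset.range n, algebraMap S L (c i) * W ^ i) /
      algebraMap S L s := by
    rw [hxas, hc, map_sum]
    congr 1
    refine Finset.sum_congr rfl fun i _ => ?_
    rw [map_mul, map_pow, ← IsScalarTower.algebraMap_apply]
  have hφx : ∀ j, φ j x = (∑ i ∈ Finset.range n, algebraMap S L (c i) *
      (algebraMap S L (algebraMap k S (ζ ^ (j * i))) * W ^ i)) /
      algebraMap S L s := by
    intro j
    rw [hx1, map_div₀, AlgHom.commutes, map_sum]
    congr 1
    refine Finset.sum_congr rfl fun i _ => ?_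
    rw [map_mul, map_pow, AlgHom.commutes, hφW, mul_pow, ← map_pow, ← map_pow, ← pow_mul]
  have hφint : ∀ j, IsIntegral S (φ j x) := fun j => hxS.map (φ j)
  -- the homogeneous components of `x` are integral
  have hcomp : ∀ i < n, IsIntegral S (algebraMap S L (c i) * W ^ i /
      algebraMap S L s) := by
    intro i hi
    have h1 : ∑ j ∈ Finset.range n, algebraMap S L
        (algebraMap k S (ζ ^ ((n - i) * j))) * φ j x =
        algebraMap S L (algebraMap k S n) *
          (algebraMap S L (c i) * W ^ i / algebraMap S L s) := by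
      calc _ = ∑ j ∈ Finset.range n, ∑ l ∈ Finset.range n,
            algebraMap S L (algebraMap k S (ζ ^ ((n - i) * j) * ζ ^ (j * l))) *
              (algebraMap S L (c l) * W ^ l /
                algebraMap S L s) := by
            refine Finset.sum_congr rfl fun j _ => ?_
            rw [hφx, Finset.sum_div, Finset.mul_sum]
            refine Finset.sum_congr rfl fun l _ => ?_
            rw [map_mul, map_mul]
            ring
        _ = ∑ l ∈ Finset.range n, algebraMap S L (algebraMap k S
              (∑ j ∈ Finset.range n, ζ ^ ((n - i) * j) * ζ ^ (j * l))) *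
              (algebraMap S L (c l) * W ^ l /
                algebraMap S L s) := by
            rw [Finset.sum_comm]
            refine Finset.sum_congr rfl fun l _ => ?_
            rw [map_sum, map_sum, Finset.sum_mul]
        _ = ∑ l ∈ Finset.range n, if l = i then algebraMap S L (algebraMap k S n) *
              (algebraMap S L (c l) * W ^ l /
                algebraMap S L s) else 0 := by
            refine Finset.sum_congr rfl fun l hl => ?_
            rw [sum_root hζ i l hi (Finset.mem_range.1 hl)]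
            split_ifs with hli
            · rfl
            · rw [map_zero, map_zero, zero_mul]
        _ = _ := by
            rw [Finset.sum_ite_eq' (Finset.range n) i, if_pos (Finset.mem_range.2 hi)]
    have h2 : algebraMap S L (c i) * W ^ i /
        algebraMap S L s = algebraMap S L (algebraMap k S (n : k)⁻¹) *
        ∑ j ∈ Finset.range n, algebraMap S L
        (algebraMap k S (ζ ^ ((n - i) * j))) * φ j x := by
      rw [h1, ← mul_assoc, ← map_mul, ← map_mul, inv_mul_cancel₀ hk, map_one, map_one, one_mul]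
    rw [h2]
    refine IsIntegral.mul isIntegral_algebraMap (IsIntegral.sum _ fun j _ => ?_)
    exact IsIntegral.mul isIntegral_algebraMap (hφint j)
  have hdvd : ∀ i < n, s ∣ c i := by
    intro i hi
    apply dvd_of_pow_dvd hh hi s hs
    have h1 := (hcomp i hi).pow n
    have h2 : (algebraMap S L (c i) * W ^ i /
        algebraMap S L s) ^ n =
        algebraMap S L (c i ^ n * (- h) ^ i) /
          algebraMap S L (s ^ n) := by
      rw [div_pow, mul_pow, ← pow_mul, mul_comm i n, pow_mul, hW, map_mul, map_pow, map_pow,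
        map_pow, map_neg]
    rw [h2] at h1
    have h3 := dvd_of_isIntegral_div hinjL _ _ (pow_ne_zero n hs) h1
    rw [neg_pow] at h3
    have h4 : c i ^ n * ((-1) ^ i * h ^ i) = (-1) ^ i * (c i ^ n * h ^ i) := by ring
    rw [h4] at h3
    exact (IsUnit.dvd_mul_left ((isUnit_one.neg).pow i)).1 h3
  choose! d hd using hdvd
  refine ⟨∑ i ∈ Finset.range n, algebraMap S (AdjoinRoot (pp n h)) (d i) * AdjoinRoot.root (pp n h) ^ i, ?_⟩
  rw [hx1, eq_div_iff hs', map_sum, Finset.sum_mul]
  refine Finset.sum_congr rfl fun i hi => ?_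
  rw [map_mul, map_pow, ← IsScalarTower.algebraMap_apply, hd i (Finset.mem_range.1 hi), map_mul]
  ring

theorem isIntegrallyClosed_adjoinRoot [UniqueFactorizationMonoid S] [IsDomain (AdjoinRoot (pp n h))] (hn : 0 < n)
    (hk : (n : k) ≠ 0) {ζ : k} (hζ : IsPrimitiveRoot ζ n) (hh : Squarefree h) :
    IsIntegrallyClosed (AdjoinRoot (pp n h)) := by
  rw [isIntegrallyClosed_iff (FractionRing (AdjoinRoot (pp n h)))]
  intro x hx
  exact isIntegrallyClosed_aux h hn hk hζ hh (FractionRing (AdjoinRoot (pp n h))) x hx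

end main

theorem squarefree_g3 : Squarefree g3 := by
  intro p ⟨q, hq⟩
  have h0 : ∀ i : Fin 3, p ∣ MvPolynomial.X i ^ 2 := by
    intro i
    have h1 : (MvPolynomial.pderiv i) g3 = 3 * MvPolynomial.X i ^ 2 := by
      fin_cases i <;> simp [g3, MvPolynomial.pderiv_X]
    have h2 : p ∣ (MvPolynomial.pderiv i) g3 := by
      rw [hq]
      simp only [Derivation.leibniz, smul_eq_mul]
      exact ⟨p * (MvPolynomial.pderiv i) q + q * ((MvPolynomial.pderiv i) p +
        (MvPolynomial.pderiv i) p), by ring⟩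
    rw [h1] at h2
    have h3 : IsUnit (3 : S3) := by
      have : (3 : S3) = MvPolynomial.C 3 := (map_ofNat MvPolynomial.C 3).symm
      rw [this]
      exact (isUnit_iff_ne_zero.2 (by norm_num : (3 : ℂ) ≠ 0)).map MvPolynomial.C
    exact (IsUnit.dvd_mul_left h3).1 h2
  have h4 : IsRelPrime (MvPolynomial.X 0 : S3) (MvPolynomial.X 1) := by
    have hirr : Irreducible (MvPolynomial.X 0 : S3) := MvPolynomial.X_prime.irreducible
    rw [hirr.isRelPrime_iff_not_dvd]
    rintro ⟨c, hc⟩
    have := congrArg (MvPolynomial.eval (![0, 1, 0] : Fin 3 → ℂ)) hc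
    simp at this
  exact (h4.pow (m := 2) (n := 2)) (h0 0) (h0 1)

theorem integrallyClosed_RR [IsDomain RR] : IsIntegrallyClosed RR :=
  isIntegrallyClosed_adjoinRoot (k := ℂ) (n := 4) g3 (by norm_num) (by norm_num)
    (Complex.isPrimitiveRoot_exp 4 (by norm_num)) squarefree_g3

end Pool.Agent.TH480.J296
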