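import Pool.Agent.TH215.TM.Defs2

set_option autoImplicit false

open CategoryTheory Limits AlgebraicGeometry
open MvPolynomial

namespace Pool.Agent.TH480.J298

open Pool.Agent.TH215.TM

/-- The localization at the Jacobian of a finite presentation is standard smooth. -/
theorem isStandardSmooth_localizationAway {R S ι σ : Type} [CommRing R] [CommRing S] [Algebra R S]
    [Finite ι] [Finite σ] (P : Algebra.PreSubmersivePresentation R S ι σ) (g : S)
    (hg : P.jacobian ∣ g) (T : Type) [CommRing T] [Algebra S T] [Algebra R T]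
    [IsScalarTower R S T] [IsLocalization.Away g T] (n : ℕ) (hn : P.dimension = n) :
    Algebra.IsStandardSmoothOfRelativeDimension n R T := by
  have hu : IsUnit (algebraMap S T g) := IsLocalization.Away.algebraMap_isUnit g
  let Q : Algebra.PreSubmersivePresentation S T Unit Unit :=
    Algebra.PreSubmersivePresentation.localizationAway T g
  let P' : Algebra.SubmersivePresentation R T (Unit ⊕ ι) (Unit ⊕ σ) :=
  { __ := Q.comp P
    jacobian_isUnit := by
      rw [Algebra.PreSubmersivePresentation.comp_jacobian_eq_jacobian_smul_jacobian,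
        Algebra.PreSubmersivePresentation.localizationAway_jacobian, Algebra.smul_def]
      refine IsUnit.mul ?_ hu
      exact isUnit_of_dvd_unit (map_dvd _ hg) hu }
  refine P'.isStandardSmoothOfRelativeDimension ?_
  have h1 : P.dimension = Nat.card ι - Nat.card σ := rfl
  have h2 : P'.dimension = Nat.card (Unit ⊕ ι) - Nat.card (Unit ⊕ σ) := rfl
  rw [h2, ← hn, h1, Nat.card_sum, Nat.card_sum, Nat.card_unique]
  omega

/-- The polynomial `t³ + 1 + y³ + x w⁴` (variables `t, x, y, w`). -/
noncomputable def FB : MvPolynomial (Fin 4) ℂ := X 0 ^ 3 + (1 + X 2 ^ 3 + X 1 * X 3 ^ 4)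

/-- The generators of `B`. -/
noncomputable def vB : Fin 4 → BB := Fin.cons bT bV

lemma aeval_vB (p : MvPolynomial (Fin 4) ℂ) : aeval vB p =
    AdjoinRoot.mk (Polynomial.X ^ 3 + Polynomial.C h3 : Polynomial S3)
      (finSuccEquiv ℂ 3 p) := by
  induction p using MvPolynomial.induction_on with
  | C a => 
    rw [← algebraMap_eq, AlgHom.commutes, AlgEquiv.commutes]
    rfl
  | add p q hp hq => rw [map_add, map_add, map_add, hp, hq]
  | mul_X p i hp =>
    rw [map_mul, map_mul, map_mul, hp, aeval_X]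
    congr 1
    refine Fin.cases ?_ (fun j => ?_) i
    · rw [finSuccEquiv_X_zero]
      rfl
    · rw [finSuccEquiv_X_succ]
      rfl

lemma finSuccEquiv_FB : finSuccEquiv ℂ 3 FB =
    (Polynomial.X ^ 3 + Polynomial.C h3 : Polynomial S3) := by
  have h1 : finSuccEquiv ℂ 3 (X 1) = Polynomial.C (X 0) := finSuccEquiv_X_succ (j := 0)
  have h2 : finSuccEquiv ℂ 3 (X 2) = Polynomial.C (X 1) := finSuccEquiv_X_succ (j := 1)
  have h3' : finSuccEquiv ℂ 3 (X 3) = Polynomial.C (X 2) := finSuccEquiv_X_succ (j := 2)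
  simp only [FB, h3, map_add, map_mul, map_pow, map_one, finSuccEquiv_X_zero, h1, h2, h3']

lemma vB_surjective : Function.Surjective (aeval vB : MvPolynomial (Fin 4) ℂ →ₐ[ℂ] BB) := by
  intro z
  obtain ⟨q, rfl⟩ := AdjoinRoot.mk_surjective z
  refine ⟨(finSuccEquiv ℂ 3).symm q, ?_⟩
  rw [aeval_vB, AlgEquiv.apply_symm_apply]

lemma mem_ker (p : MvPolynomial (Fin 4) ℂ) : aeval vB p = 0 ↔ FB ∣ p := by
  rw [aeval_vB, AdjoinRoot.mk_eq_zero, ← finSuccEquiv_FB]
  constructor
  · rintro ⟨q, hq⟩
    refine ⟨(finSuccEquiv ℂ 3).symm q, ?_⟩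
    apply (finSuccEquiv ℂ 3).injective
    rw [map_mul, AlgEquiv.apply_symm_apply, hq]
  · rintro ⟨q, rfl⟩
    exact ⟨finSuccEquiv ℂ 3 q, map_mul _ _ _⟩

/-- The presentation of `B` by one relation. -/
noncomputable def PB (i : Fin 4) : Algebra.PreSubmersivePresentation ℂ BB (Fin 4) Unit :=
  { toGenerators := .ofSurjective vB vB_surjective
    relation := fun _ => FB
    span_range_relation_eq_ker := by
      rw [Set.range_const]
      ext z
      rw [Ideal.mem_span_singleton]
      exact (mem_ker z).symm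
    map := fun _ => i
    map_inj := Function.injective_of_subsingleton _ }

lemma PB_jacobian (i : Fin 4) : (PB i).jacobian = aeval vB (pderiv i FB) := by
  rw [Algebra.PreSubmersivePresentation.jacobian_eq_jacobiMatrix_det, Matrix.det_unique,
    Algebra.PreSubmersivePresentation.jacobiMatrix_apply]
  rfl

lemma PB_dimension (i : Fin 4) : (PB i).dimension = 3 := by
  have h1 : (PB i).dimension = Nat.card (Fin 4) - Nat.card Unit := rfl
  rw [h1]
  simp

theorem BB_smooth :
    RingHom.Locally (RingHom.IsStandardSmoothOfRelativeDimension 3) (algebraMap ℂ BB) := by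
  refine ⟨{z | ∃ i : Fin 4, (PB i).jacobian ∣ z}, ?_, ?_⟩
  · rw [Ideal.eq_top_iff_one]
    have h0 : (3 * bT ^ 2 : BB) ∈ Ideal.span {z : BB | ∃ i : Fin 4, (PB i).jacobian ∣ z} := by
      apply Ideal.subset_span
      refine ⟨0, ?_⟩
      rw [PB_jacobian]
      have : pderiv (0 : Fin 4) FB = 3 * X 0 ^ 2 := by
        simp [FB, pderiv_X]
      rw [this]
      simp [vB]
    have h1 : (3 * bV 1 ^ 2 : BB) ∈ Ideal.span {z : BB | ∃ i : Fin 4, (PB i).jacobian ∣ z} := by
      apply Ideal.subset_span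
      refine ⟨2, ?_⟩
      rw [PB_jacobian]
      have : pderiv (2 : Fin 4) FB = 3 * X 2 ^ 2 := by
        simp [FB, pderiv_X]
      have h4 : vB 2 = bV 1 := rfl
      rw [this]
      simp [h4]
    have h2 : (bV 2 ^ 4 : BB) ∈ Ideal.span {z : BB | ∃ i : Fin 4, (PB i).jacobian ∣ z} := by
      apply Ideal.subset_span
      refine ⟨1, ?_⟩
      rw [PB_jacobian]
      have : pderiv (1 : Fin 4) FB = X 3 ^ 4 := by
        simp [FB, pderiv_X]
      have h4 : vB 3 = bV 2 := rfl
      rw [this]
      simp [h4]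
    obtain ⟨c, hc⟩ : ∃ c : BB, c * 3 = 1 := by
      refine ⟨algebraMap ℂ BB 3⁻¹, ?_⟩
      have h3 : (3 : BB) = algebraMap ℂ BB 3 := (map_ofNat (algebraMap ℂ BB) 3).symm
      rw [h3, ← map_mul, inv_mul_cancel₀ (by norm_num), map_one]
    have h3 : (1 : BB) = (-(c * bT)) * (3 * bT ^ 2) + (-(c * bV 1)) * (3 * bV 1 ^ 2) +
        (- bV 0) * (bV 2 ^ 4) := by
      linear_combination bT_rel + (bT ^ 3 + bV 1 ^ 3) * hc
    rw [h3]
    exact Ideal.add_mem _ (Ideal.add_mem _ (Ideal.mul_mem_left _ _ h0)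
      (Ideal.mul_mem_left _ _ h1)) (Ideal.mul_mem_left _ _ h2)
  · rintro g ⟨i, hi⟩
    rw [← IsScalarTower.algebraMap_eq, RingHom.isStandardSmoothOfRelativeDimension_algebraMap]
    exact isStandardSmooth_localizationAway (PB i) g hi (Localization.Away g) 3 (PB_dimension i)

end Pool.Agent.TH480.J298
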