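import Pool.Agent.TH215.TM.Defs2
import Pool.Agent.TH480.J295
import Pool.Agent.TH480.J298

set_option autoImplicit false

open CategoryTheory Limits AlgebraicGeometry Abelian HomogeneousLocalization
open Pool.Agent.Helper165

namespace Pool.Agent.TH480.J297

open Pool.Agent.TH215.TM

section general

variable {A B : Type} [CommRing A] [CommRing B] (J : Ideal A) (a : A) (ha : a ∈ J) (c : A →+* B)

lemma pow_dvd_of_mem (hJ : ∀ b ∈ J, c a ∣ c b) (n : ℕ) (b : A) (hb : b ∈ J ^ n) :
    c a ^ n ∣ c b := by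
  have h1 : J.map c ≤ Ideal.span {c a} := by
    rw [Ideal.map_le_iff_le_comap]
    intro x hx
    rw [Ideal.mem_comap, Ideal.mem_span_singleton]
    exact hJ x hx
  have h2 : c b ∈ (J.map c) ^ n := by
    rw [← Ideal.map_pow]
    exact Ideal.mem_map_of_mem c hb
  have h3 := Ideal.pow_right_mono h1 n h2
  rwa [Ideal.span_singleton_pow, Ideal.mem_span_singleton] at h3

lemma exists_ringEquiv_chart_aux {L : Type} [Field L] (f : B →+* L) (hinj : Function.Injective f)
    (hc : Function.Injective c) (ha0 : c a ≠ 0)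
    (hJ : ∀ b ∈ J, c a ∣ c b) (hsurj : ∀ b : B, ∃ n, ∃ r ∈ J ^ n, c r = c a ^ n * b) :
    ∃ e : Away (reesPiece J) (tElt J a ha) ≃+* B, ∀ r, e (chartMap J a ha r) = c r := by
  have hg : Function.Injective (f.comp c) := hinj.comp hc
  have hga : (f.comp c) a ≠ 0 := by
    rwa [RingHom.comp_apply, Ne, map_eq_zero_iff _ hinj]
  have hψ : Function.Injective (psi J (f.comp c) a ha hga) := psi_injective J _ a ha hga hg
  have hrange : ∀ z, ∃ b, f b = psi J (f.comp c) a ha hga z := by
    intro z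
    obtain ⟨n, b, hb, rfl⟩ := exists_frac J a ha z
    obtain ⟨q, hq⟩ := pow_dvd_of_mem J a c hJ n b hb
    refine ⟨q, ?_⟩
    rw [psi_frac, eq_div_iff (pow_ne_zero _ hga), RingHom.comp_apply, RingHom.comp_apply, hq,
      map_mul, map_pow, mul_comm]
  have hrange2 : ∀ b, ∃ z, psi J (f.comp c) a ha hga z = f b := by
    intro b
    obtain ⟨n, r, hr, hrb⟩ := hsurj b
    refine ⟨frac J a ha n r hr, ?_⟩
    rw [psi_frac, div_eq_iff (pow_ne_zero _ hga), RingHom.comp_apply, RingHom.comp_apply, hrb,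
      map_mul, map_pow, mul_comm]
  choose e he using hrange
  let E : Away (reesPiece J) (tElt J a ha) →+* B :=
    { toFun := e
      map_one' := hinj (by rw [he, map_one, map_one])
      map_zero' := hinj (by rw [he, map_zero, map_zero])
      map_mul' := fun x y => hinj (by rw [he, map_mul, map_mul, he, he])
      map_add' := fun x y => hinj (by rw [he, map_add, map_add, he, he]) }
  have hE : ∀ z, f (E z) = psi J (f.comp c) a ha hga z := he
  have hbij : Function.Bijective E := by
    constructor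
    · intro x y hxy
      apply hψ
      rw [← hE, ← hE, hxy]
    · intro b
      obtain ⟨z, hz⟩ := hrange2 b
      exact ⟨z, hinj (by rw [hE, hz])⟩
  refine ⟨RingEquiv.ofBijective E hbij, fun r => hinj ?_⟩
  rw [RingEquiv.ofBijective_apply, hE, psi_chartMap, RingHom.comp_apply]

/-- General criterion for a chart of the blow-up. -/
theorem exists_ringEquiv_chart [IsDomain B] (hc : Function.Injective c) (ha0 : c a ≠ 0)
    (hJ : ∀ b ∈ J, c a ∣ c b) (hsurj : ∀ b : B, ∃ n, ∃ r ∈ J ^ n, c r = c a ^ n * b) :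
    ∃ e : Away (reesPiece J) (tElt J a ha) ≃+* B, ∀ r, e (chartMap J a ha r) = c r :=
  exists_ringEquiv_chart_aux J a ha c (algebraMap B (FractionRing B))
    (IsFractionRing.injective B (FractionRing B)) hc ha0 hJ hsurj

lemma surj_of_generators [Algebra ℂ A] [Algebra ℂ B] (ha : a ∈ J)
    (hcalg : ∀ z : ℂ, c (algebraMap ℂ A z) = algebraMap ℂ B z) {σ : Type} (v : σ → B)
    (hv : ∀ i, ∃ n, ∃ r ∈ J ^ n, c r = c a ^ n * v i) (p : MvPolynomial σ ℂ) :
    ∃ n, ∃ r ∈ J ^ n, c r = c a ^ n * MvPolynomial.aeval v p := by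
  induction p using MvPolynomial.induction_on with
  | C z =>
    refine ⟨0, algebraMap ℂ A z, by simp, ?_⟩
    rw [hcalg, pow_zero, one_mul, ← MvPolynomial.algebraMap_eq, AlgHom.commutes]
  | add p q hp hq =>
    obtain ⟨n, r, hr, hnr⟩ := hp
    obtain ⟨m, s, hs, hms⟩ := hq
    refine ⟨n + m, a ^ m * r + a ^ n * s, ?_, ?_⟩
    · refine Ideal.add_mem _ ?_ ?_
      · rw [add_comm, pow_add]
        exact Ideal.mul_mem_mul (Ideal.pow_mem_pow ha m) hr
      · rw [pow_add]
        exact Ideal.mul_mem_mul (Ideal.pow_mem_pow ha n) hs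
    · rw [map_add, map_mul, map_mul, hnr, hms, map_pow, map_pow, map_add]
      ring
  | mul_X p i hp =>
    obtain ⟨n, r, hr, hnr⟩ := hp
    obtain ⟨m, s, hs, hms⟩ := hv i
    refine ⟨n + m, r * s, ?_, ?_⟩
    · rw [pow_add]
      exact Ideal.mul_mem_mul hr hs
    · rw [map_mul, hnr, hms, map_mul, MvPolynomial.aeval_X]
      ring

end general

lemma xR_ne_zero (i : Fin 3) : xR i ≠ 0 := by
  have hinj : Function.Injective
      (AdjoinRoot.of (Polynomial.X ^ 4 + Polynomial.C g3 : Polynomial S3)) := by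
    apply AdjoinRoot.of.injective_of_degree_ne_zero
    rw [Polynomial.degree_X_pow_add_C (by norm_num)]
    norm_num
  intro h
  exact MvPolynomial.X_ne_zero i ((map_eq_zero_iff _ hinj).1 h)

lemma wR_ne_zero : wR ≠ 0 := by
  have hmon : (Polynomial.X ^ 4 + Polynomial.C g3 : Polynomial S3).Monic :=
    Polynomial.monic_X_pow_add_C g3 (by norm_num)
  have := AdjoinRoot.mk_ne_zero_of_natDegree_lt hmon (Polynomial.X_ne_zero (R := S3)) (by
    rw [Polynomial.natDegree_X, Polynomial.natDegree_X_pow_add_C]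
    norm_num)
  rwa [AdjoinRoot.mk_X] at this

/-- Two ring homomorphisms from `R` agree if they agree on constants and on `x_i`, `w`. -/
lemma ringHom_ext_RR {T : Type} [CommRing T] (f g : RR →+* T)
    (h0 : ∀ z : ℂ, f (algebraMap ℂ RR z) = g (algebraMap ℂ RR z))
    (h1 : ∀ i, f (xR i) = g (xR i)) (h2 : f wR = g wR) : f = g := by
  apply AdjoinRoot.ringHom_ext
  · apply MvPolynomial.ringHom_ext
    · intro z
      exact h0 z
    · intro i
      exact h1 i
  · exact h2

lemma cW_const (z : ℂ) : cW (algebraMap ℂ RR z) = algebraMap ℂ S3 z := by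
  have h : algebraMap ℂ RR z = AdjoinRoot.of _ (MvPolynomial.C z) := rfl
  rw [h, cW, AdjoinRoot.lift_of, MvPolynomial.coe_eval₂Hom, MvPolynomial.eval₂_C]

lemma cW_xR (i : Fin 3) : cW (xR i) = MvPolynomial.X i * wS := by
  rw [xR, cW, AdjoinRoot.lift_of, MvPolynomial.coe_eval₂Hom, MvPolynomial.eval₂_X]

lemma cW_wR : cW wR = wS := by
  rw [wR, cW, AdjoinRoot.lift_root]

lemma cX_const (i : Fin 3) (z : ℂ) : cX i (algebraMap ℂ RR z) = algebraMap ℂ BB z := by
  have h : algebraMap ℂ RR z = AdjoinRoot.of _ (MvPolynomial.C z) := rfl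
  rw [h, cX, AdjoinRoot.lift_of, MvPolynomial.coe_eval₂Hom, MvPolynomial.eval₂_C]

lemma cX_xR (i j : Fin 3) : cX i (xR j) = cV i j := by
  rw [xR, cX, AdjoinRoot.lift_of, MvPolynomial.coe_eval₂Hom, MvPolynomial.eval₂_X]

lemma cX_wR (i : Fin 3) : cX i wR = bV 0 * bV 2 := by
  rw [wR, cX, AdjoinRoot.lift_root]

lemma sum_L {L : Type} [Field L] (g : RR →+* L) (i : Fin 3) :
    g (xR i) ^ 3 + g (xR (i + 1)) ^ 3 + g (xR (i + 2)) ^ 3 = - g wR ^ 4 := by
  have h := congrArg g wR_rel
  rw [map_add, map_add, map_add, map_pow, map_pow, map_pow, map_pow, map_zero] at h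
  have h2 : g (xR i) ^ 3 + g (xR (i + 1)) ^ 3 + g (xR (i + 2)) ^ 3 =
      g (xR 0) ^ 3 + g (xR 1) ^ 3 + g (xR 2) ^ 3 := by
    fin_cases i
    · rfl
    · change g (xR 1) ^ 3 + g (xR 2) ^ 3 + g (xR 0) ^ 3 = _
      ring
    · change g (xR 2) ^ 3 + g (xR 0) ^ 3 + g (xR 1) ^ 3 = _
      ring
  rw [h2]
  linear_combination h

lemma cW_injective_aux {L : Type} [Field L] (g : RR →+* L) (hg : Function.Injective g) :
    Function.Injective cW := by
  have hw : g wR ≠ 0 := by
    rw [Ne, map_eq_zero_iff _ hg]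
    exact wR_ne_zero
  let d : S3 →+* L := MvPolynomial.eval₂Hom (g.comp (algebraMap ℂ RR)) (fun i => g (xR i) / g wR)
  have hdX : ∀ i, d (MvPolynomial.X i) = g (xR i) / g wR := fun i => MvPolynomial.eval₂_X _ _ _
  have hdC : ∀ z, d (algebraMap ℂ S3 z) = g (algebraMap ℂ RR z) := fun z =>
    MvPolynomial.eval₂_C _ _ _
  have hdw : d wS = g wR := by
    have h := sum_L g 0
    have h01 : (0 : Fin 3) + 1 = 1 := rfl
    have h02 : (0 : Fin 3) + 2 = 2 := rfl
    rw [h01, h02] at h
    have h3 : d wS = - ((g (xR 0) / g wR) ^ 3 + (g (xR 1) / g wR) ^ 3 + (g (xR 2) / g wR) ^ 3) := by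
      simp only [wS, g3, map_neg, map_add, map_pow, hdX]
    rw [h3]
    field_simp
    linear_combination (-1 : L) * h
  have hcomp : d.comp cW = g := by
    apply ringHom_ext_RR
    · intro z
      rw [RingHom.comp_apply, cW_const]
      exact hdC z
    · intro i
      rw [RingHom.comp_apply, cW_xR, map_mul, hdX, hdw]
      field_simp
    · rw [RingHom.comp_apply, cW_wR]
      exact hdw
  have h2 : Function.Injective (d.comp cW) := by
    rw [hcomp]
    exact hg
  rw [RingHom.coe_comp] at h2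
  exact Function.Injective.of_comp h2

lemma cW_injective [IsDomain RR] : Function.Injective cW :=
  cW_injective_aux (algebraMap RR (FractionRing RR)) (IsFractionRing.injective RR (FractionRing RR))

theorem chartW [IsDomain RR] : ∃ e : Away (reesPiece J3) (tElt J3 wR wR_mem) ≃+* S3,
    ∀ r, e (chartMap J3 wR wR_mem r) = cW r := by
  have hw0 : cW wR ≠ 0 := by
    rw [Ne, map_eq_zero_iff _ cW_injective]
    exact wR_ne_zero
  refine exists_ringEquiv_chart J3 wR wR_mem cW cW_injective hw0 ?_ ?_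
  · intro b hb
    have h1 : J3 ≤ (Ideal.span {cW wR}).comap cW := by
      rw [J3, Ideal.span_le]
      rintro _ (⟨i, rfl⟩ | rfl)
      · rw [SetLike.mem_coe, Ideal.mem_comap, Ideal.mem_span_singleton, cW_xR, cW_wR]
        exact dvd_mul_left _ _
      · rw [SetLike.mem_coe, Ideal.mem_comap, Ideal.mem_span_singleton]
    have h2 := h1 hb
    rw [Ideal.mem_comap, Ideal.mem_span_singleton] at h2
    exact h2
  · intro b
    obtain ⟨n, r, hr, h⟩ := surj_of_generators J3 wR cW wR_mem cW_const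
      (MvPolynomial.X : Fin 3 → S3) (fun i => ⟨1, xR i, by rw [pow_one]; exact xR_mem i, by
        rw [cW_xR, cW_wR, pow_one, mul_comm]⟩) b
    refine ⟨n, r, hr, ?_⟩
    rw [h, MvPolynomial.aeval_X_left_apply]

lemma cX_injective_aux {L : Type} [Field L] (g : RR →+* L) (hg : Function.Injective g)
    (i : Fin 3) : Function.Injective (cX i) := by
  have hx : g (xR i) ≠ 0 := by
    rw [Ne, map_eq_zero_iff _ hg]
    exact xR_ne_zero i
  let v : Fin 3 → L := ![g (xR i), g (xR (i + 1)) / g (xR i), g wR / g (xR i)]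
  have e0 : v 0 = g (xR i) := rfl
  have e1 : v 1 = g (xR (i + 1)) / g (xR i) := rfl
  have e2 : v 2 = g wR / g (xR i) := rfl
  let d0 : S3 →+* L := MvPolynomial.eval₂Hom (g.comp (algebraMap ℂ RR)) v
  have hd0X : ∀ j, d0 (MvPolynomial.X j) = v j := fun i => MvPolynomial.eval₂_X _ _ _
  have hd0C : ∀ z, d0 (MvPolynomial.C z) = g (algebraMap ℂ RR z) := fun z =>
    MvPolynomial.eval₂_C _ _ _
  have hd0h : d0 h3 = 1 + (v 1) ^ 3 + v 0 * v 2 ^ 4 := by
    simp only [h3, map_add, map_mul, map_one, map_pow, hd0X]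
  let d : BB →+* L := AdjoinRoot.lift d0 (g (xR (i + 2)) / g (xR i)) (by
      rw [Polynomial.eval₂_add, Polynomial.eval₂_pow, Polynomial.eval₂_X,
        Polynomial.eval₂_C, hd0h]
      have h := sum_L g i
      rw [e0, e1, e2]
      field_simp
      linear_combination h)
  have hd0 : ∀ z, d (algebraMap ℂ BB z) = g (algebraMap ℂ RR z) := by
    intro z
    have h : algebraMap ℂ BB z = AdjoinRoot.of _ (MvPolynomial.C z) := rfl
    simp only [d]
    rw [h, AdjoinRoot.lift_of, hd0C]
  have hdV : ∀ j, d (bV j) = v j := by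
    intro j
    simp only [d]
    rw [bV, AdjoinRoot.lift_of, hd0X]
  have hdT : d bT = g (xR (i + 2)) / g (xR i) := AdjoinRoot.lift_root _
  have hcomp : d.comp (cX i) = g := by
    apply ringHom_ext_RR
    · intro z
      rw [RingHom.comp_apply, cX_const, hd0]
    · intro j
      rw [RingHom.comp_apply, cX_xR, cV]
      split_ifs with h1 h2
      · rw [hdV, h1, e0]
      · rw [map_mul, hdV, hdV, h2, e0, e1]
        field_simp
      · have h3 : j = i + 2 := by
          clear * - h1 h2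
          revert i j
          decide
        rw [map_mul, hdV, hdT, h3, e0]
        field_simp
    · rw [RingHom.comp_apply, cX_wR, map_mul, hdV, hdV, e0, e2]
      field_simp
  have h2 : Function.Injective (d.comp (cX i)) := by
    rw [hcomp]
    exact hg
  rw [RingHom.coe_comp] at h2
  exact Function.Injective.of_comp h2

lemma cX_injective [IsDomain RR] (i : Fin 3) : Function.Injective (cX i) :=
  cX_injective_aux (algebraMap RR (FractionRing RR))
    (IsFractionRing.injective RR (FractionRing RR)) i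

theorem chartX [IsDomain RR] [IsDomain BB] (i : Fin 3) :
    ∃ e : Away (reesPiece J3) (tElt J3 (xR i) (xR_mem i)) ≃+* BB,
      ∀ r, e (chartMap J3 (xR i) (xR_mem i) r) = cX i r := by
  have hx0 : cX i (xR i) ≠ 0 := by
    rw [Ne, map_eq_zero_iff _ (cX_injective i)]
    exact xR_ne_zero i
  have hcxi : cX i (xR i) = bV 0 := by
    rw [cX_xR, cV, if_pos rfl]
  have hi1 : i + 1 ≠ i := by
    clear * -
    revert i
    decide
  have hi2 : i + 2 ≠ i := by
    clear * -
    revert i
    decide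
  have hi3 : i + 2 ≠ i + 1 := by
    clear * -
    revert i
    decide
  refine exists_ringEquiv_chart J3 (xR i) (xR_mem i) (cX i) (cX_injective i) hx0 ?_ ?_
  · intro b hb
    have h1 : J3 ≤ (Ideal.span {cX i (xR i)}).comap (cX i) := by
      rw [J3, Ideal.span_le]
      rintro _ (⟨j, rfl⟩ | rfl)
      · rw [SetLike.mem_coe, Ideal.mem_comap, Ideal.mem_span_singleton, hcxi, cX_xR, cV]
        split_ifs
        · exact dvd_rfl
        · exact dvd_mul_right _ _
        · exact dvd_mul_right _ _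
      · rw [SetLike.mem_coe, Ideal.mem_comap, Ideal.mem_span_singleton, hcxi, cX_wR]
        exact dvd_mul_right _ _
    have h2 := h1 hb
    rw [Ideal.mem_comap, Ideal.mem_span_singleton] at h2
    exact h2
  · have f0 : ∃ n, ∃ r ∈ J3 ^ n, cX i r = cX i (xR i) ^ n * bV 0 :=
      ⟨0, xR i, by simp, by rw [hcxi, pow_zero, one_mul]⟩
    have f1 : ∃ n, ∃ r ∈ J3 ^ n, cX i r = cX i (xR i) ^ n * bV 1 :=
      ⟨1, xR (i + 1), by rw [pow_one]; exact xR_mem _, by
        rw [hcxi, cX_xR, cV, if_neg hi1, if_pos rfl, pow_one]⟩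
    have f2 : ∃ n, ∃ r ∈ J3 ^ n, cX i r = cX i (xR i) ^ n * bV 2 :=
      ⟨1, wR, by rw [pow_one]; exact wR_mem, by
        rw [hcxi, cX_wR, pow_one]⟩
    have f3 : ∃ n, ∃ r ∈ J3 ^ n, cX i r = cX i (xR i) ^ n * bT :=
      ⟨1, xR (i + 2), by rw [pow_one]; exact xR_mem _, by
        rw [hcxi, cX_xR, cV, if_neg hi2, if_neg hi3, pow_one]⟩
    have fV : ∀ k, ∃ n, ∃ r ∈ J3 ^ n, cX i r = cX i (xR i) ^ n * bV k := by
      intro k
      fin_cases k
      · exact f0
      · exact f1
      · exact f2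
    have fB : ∀ j, ∃ n, ∃ r ∈ J3 ^ n, cX i r = cX i (xR i) ^ n * J298.vB j := by
      intro j
      refine Fin.cases ?_ (fun k => ?_) j
      · rw [J298.vB, Fin.cons_zero]
        exact f3
      · rw [J298.vB, Fin.cons_succ]
        exact fV k
    intro b
    obtain ⟨p, hp⟩ := J298.vB_surjective b
    obtain ⟨n, r, hr, h⟩ := surj_of_generators J3 (xR i) (cX i) (xR_mem i) (cX_const i)
      J298.vB fB p
    exact ⟨n, r, hr, by rw [h, ← hp]⟩

end Pool.Agent.TH480.J297
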