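import Pool.Agent.TH215.TM.Defs2
import Pool.Agent.Helper165.Geom3
import Pool.Agent.TH480.J297

set_option autoImplicit false

open CategoryTheory Limits AlgebraicGeometry Abelian HomogeneousLocalization
open Pool.Agent.Helper165

namespace Pool.Agent.TH480.J303

open Pool.Agent.TH215.TM TopologicalSpace

theorem exists_chart_mem (y : YY) : y ∈ (blowChart J3 wR wR_mem).opensRange ∨
    ∃ i : Fin 3, y ∈ (blowChart J3 (xR i) (xR_mem i)).opensRange := by
  by_contra hcon
  rw [not_or, not_exists] at hcon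
  obtain ⟨h1, h2⟩ := hcon
  rw [blowChart_opensRange] at h1
  refine false_of_span J3 y _ rfl ?_
  rintro s (⟨i, rfl⟩ | hs) hsJ
  · by_contra h3
    apply h2 i
    rw [blowChart_opensRange]
    exact h3
  · by_contra h3
    apply h1
    have : s = wR := hs
    subst this
    exact h3

theorem ff_proper : IsProper ff := by
  refine blowMap_isProper J3 ?_
  rw [J3]
  exact Submodule.fg_span ((Set.finite_range _).union (Set.finite_singleton _))

theorem YY_integral [IsDomain RR] : IsIntegral YY :=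
  blow_integral J3 wR wR_mem J297.wR_ne_zero

/-- The open subset `w ≠ 0` of `X`. -/
noncomputable def opW : XX.Opens :=
  (PrimeSpectrum.basicOpen wR : (Spec (CommRingCat.of RR)).Opens)

lemma ff_isIso [IsDomain RR] : IsIso (ff ∣_ opW) :=
  isIso_blowMap_restrict J3 wR wR_mem J297.wR_ne_zero

lemma XX_integral [IsDomain RR] : IsIntegral XX :=
  inferInstanceAs (IsIntegral (Spec (CommRingCat.of RR)))

lemma opW_nonempty [IsDomain RR] : (opW : Set XX).Nonempty := by
  refine ⟨(⊥ : PrimeSpectrum RR), ?_⟩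
  change wR ∉ (⊥ : PrimeSpectrum RR).asIdeal
  intro h
  have h2 : wR ∈ (⊥ : Ideal RR) := h
  exact J297.wR_ne_zero h2

theorem ff_birational [IsDomain RR] : ∃ U : XX.Opens, Dense (U : Set XX) ∧
    Dense ((ff ⁻¹ᵁ U : YY.Opens) : Set YY) ∧ IsIso (ff ∣_ U) := by
  have h1 := XX_integral
  have h2 := YY_integral
  refine ⟨opW, ?_, ?_, ff_isIso⟩
  · exact opW.isOpen.dense opW_nonempty
  · apply (ff ⁻¹ᵁ opW).isOpen.dense
    obtain ⟨z, hz⟩ := opW_nonempty
    have h3 := ff_isIso
    obtain ⟨w, -⟩ := (ff ∣_ opW).surjective ⟨z, hz⟩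
    exact ⟨w.1, w.2⟩

/-- A chart of `Y`. -/
noncomputable def chY (a : RR) (ha : a ∈ J3) :
    Spec (CommRingCat.of (Away (reesPiece J3) (tElt J3 a ha))) ⟶ YY :=
  blowChart J3 a ha

instance (a : RR) (ha : a ∈ J3) : IsOpenImmersion (chY a ha) :=
  inferInstanceAs (IsOpenImmersion (blowChart J3 a ha))

lemma chY_ff (a : RR) (ha : a ∈ J3) :
    chY a ha ≫ ff = Spec.map (CommRingCat.ofHom (chartMap J3 a ha)) :=
  blowChart_blowMap J3 a ha

lemma chart_structure (a : RR) (ha : a ∈ J3) :
    chY a ha ≫ ff ≫ piX =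
      Spec.map (CommRingCat.ofHom ((chartMap J3 a ha).comp (algebraMap ℂ RR))) := by
  rw [← Category.assoc, chY_ff]
  exact (Spec.map_comp _ _).symm

lemma smooth_S3 : RingHom.Locally (RingHom.IsStandardSmoothOfRelativeDimension 3)
    (algebraMap ℂ S3) := by
  apply RingHom.locally_of RingHom.isStandardSmoothOfRelativeDimension_respectsIso
  rw [RingHom.isStandardSmoothOfRelativeDimension_algebraMap]
  have h := isStandardSmooth_of_bijective (R := ℂ) (S := S3) (MvPolynomial.X : Fin 3 → S3) (by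
    rw [MvPolynomial.aeval_X_left]
    exact Function.bijective_id)
  simpa using h

lemma transfer {A' B : Type} [CommRing A'] [CommRing B] [Algebra ℂ B] (f : ℂ →+* A')
    (e : A' ≃+* B) (he : ∀ z, e (f z) = algebraMap ℂ B z)
    (hB : RingHom.Locally (RingHom.IsStandardSmoothOfRelativeDimension 3) (algebraMap ℂ B)) :
    RingHom.Locally (RingHom.IsStandardSmoothOfRelativeDimension 3) f := by
  have h1 : f = e.symm.toRingHom.comp (algebraMap ℂ B) := by
    refine RingHom.ext fun z => ?_
    rw [RingHom.comp_apply, ← he]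
    exact (e.symm_apply_apply _).symm
  rw [h1]
  exact (RingHom.locally_respectsIso
    RingHom.isStandardSmoothOfRelativeDimension_respectsIso).1 _ e.symm hB

lemma smooth_transfer (a : RR) (ha : a ∈ J3) {B : Type} [CommRing B] [Algebra ℂ B]
    (hB : RingHom.Locally (RingHom.IsStandardSmoothOfRelativeDimension 3) (algebraMap ℂ B))
    (c : RR →+* B) (hc : ∀ z, c (algebraMap ℂ RR z) = algebraMap ℂ B z)
    (h : ∃ e : Away (reesPiece J3) (tElt J3 a ha) ≃+* B, ∀ r, e (chartMap J3 a ha r) = c r) :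
    RingHom.Locally (RingHom.IsStandardSmoothOfRelativeDimension 3)
      ((chartMap J3 a ha).comp (algebraMap ℂ RR)) := by
  obtain ⟨e, he⟩ := h
  refine transfer _ e (fun z => ?_) hB
  rw [RingHom.comp_apply, he, hc]

/-- The charts. -/
noncomputable def chartU : Option (Fin 3) → YY.Opens
  | none => (chY wR wR_mem).opensRange
  | some i => (chY (xR i) (xR_mem i)).opensRange

lemma iSup_chartU : ⨆ i, chartU i = ⊤ := by
  rw [eq_top_iff]
  intro y _
  rw [Opens.mem_iSup]
  rcases exists_chart_mem y with h | ⟨i, h⟩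
  · exact ⟨none, h⟩
  · exact ⟨some i, h⟩

lemma smooth_on_chart (a : RR) (ha : a ∈ J3)
    (h : RingHom.Locally (RingHom.IsStandardSmoothOfRelativeDimension 3)
      ((chartMap J3 a ha).comp (algebraMap ℂ RR))) :
    SmoothOfRelativeDimension 3 ((chY a ha).opensRange.ι ≫ (ff ≫ piX)) := by
  rw [← MorphismProperty.cancel_left_of_respectsIso (P := @SmoothOfRelativeDimension 3)
    (chY a ha).isoOpensRange.hom]
  rw [← Category.assoc, Scheme.Hom.isoOpensRange_hom_ι, chart_structure,
    HasRingHomProperty.Spec_iff (P := @SmoothOfRelativeDimension 3)]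
  exact h

theorem ff_smooth
    (hB : RingHom.Locally (RingHom.IsStandardSmoothOfRelativeDimension 3) (algebraMap ℂ BB))
    (hW : ∃ e : Away (reesPiece J3) (tElt J3 wR wR_mem) ≃+* S3,
      ∀ r, e (chartMap J3 wR wR_mem r) = cW r)
    (hX : ∀ i : Fin 3, ∃ e : Away (reesPiece J3) (tElt J3 (xR i) (xR_mem i)) ≃+* BB,
      ∀ r, e (chartMap J3 (xR i) (xR_mem i) r) = cX i r) :
    SmoothOfRelativeDimension 3 (ff ≫ piX) := by
  rw [IsZariskiLocalAtSource.iff_of_iSup_eq_top (P := @SmoothOfRelativeDimension 3)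
    chartU iSup_chartU]
  rintro (_ | i)
  · exact smooth_on_chart wR wR_mem (smooth_transfer wR wR_mem smooth_S3 cW J297.cW_const hW)
  · exact smooth_on_chart (xR i) (xR_mem i)
      (smooth_transfer (xR i) (xR_mem i) hB (cX i) (J297.cX_const i) (hX i))

end Pool.Agent.TH480.J303
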