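import Pool.Agent.TH37.SD.Defs
import Pool.Agent.TH54.BU.Iter

/-!
# The iteration with prescribed exponents and lifting of conjugacy (SD-A2)
-/

set_option autoImplicit false

namespace Pool.Agent.TH480.SDA2

open Pool.Agent.TH54.BU Pool.Agent.TH37.SD

section

variable {A0 F0 : Type} [Group A0] [Group F0] (π : A0 →* F0) (z0 : A0) (E : F0 → ℤ → Prop)
  (p K B T : ℕ)

/-- a stage of the construction -/
structure Sg where
  N : Subgroup A0
  hN : N.Normal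
  M : Subgroup F0
  hM : M.Normal
  map : N.map π = M
  inj : ∀ a ∈ N, π a = 1 → a = 1
  le : M ≤ powSub F0 p
  tz : ∀ a : A0, (∃ m : ℕ, 0 < m ∧ π a ^ m ∈ M) → π a ∉ M →
    ∃ k : ℤ, a ^ p * z0 ^ (-k) ∈ N ∧ E (π a) k
  H : GH (F0 ⧸ M)
  hD : H.D = 4
  stab : H.Stab T
  acy : H.Acy K B

variable {π z0 E p K B T}

instance (s : Sg π z0 E p K B T) : s.M.Normal := s.hM

instance (s : Sg π z0 E p K B T) : s.N.Normal := s.hN

/-- the length of an element at a stage -/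
def Sg.ln (s : Sg π z0 E p K B T) (g : F0) : ℕ := s.H.len (g : F0 ⧸ s.M)

/-- the relation between successive stages -/
structure Nx (s s' : Sg π z0 E p K B T) : Prop where
  leN : s.N ≤ s'.N
  leM : s.M ≤ s'.M
  len : ∀ g, s'.ln g ≤ (s.ln g + 1) / 2
  small : ∀ g, s.ln g ≤ 4 → g ∈ s'.M → g ∈ s.M
  kill : ∀ g, s.ln g ≤ 1 → ∃ m : ℕ, 0 < m ∧ g ^ m ∈ s'.M
  lift : ∀ x x' y : F0, (∃ m : ℕ, 0 < m ∧ x' ^ m ∈ s.M) → x' ∉ s.M → s.ln x ≤ 1 → s.ln x' ≤ 1 →
    y * x * y⁻¹ * x'⁻¹ ∈ s'.M → ∃ m ∈ s'.M, (m * y) * x * (m * y)⁻¹ * x'⁻¹ ∈ s.M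

/-- the p-th powers in a quotient -/
theorem powSub_quot (M : Subgroup F0) [M.Normal] {m : F0 ⧸ M} (hm : m ∈ powSub (F0 ⧸ M) p) :
    ∃ w ∈ powSub F0 p, (w : F0 ⧸ M) = m := by
  have h2 : powSub (F0 ⧸ M) p ≤ (powSub F0 p).map (QuotientGroup.mk' M) := by
    unfold powSub
    rw [Subgroup.map_normalClosure _ _ (QuotientGroup.mk'_surjective M)]
    apply Subgroup.normalClosure_mono
    rintro _ ⟨x, rfl⟩
    obtain ⟨x, rfl⟩ := QuotientGroup.mk_surjective x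
    exact ⟨x ^ p, ⟨x, rfl⟩, rfl⟩
  obtain ⟨w, hw, hwg⟩ := h2 hm
  exact ⟨w, hw, hwg⟩

/-- the prescribed exponents in a quotient -/
theorem cls_quot (hE : Cls p E) (M : Subgroup F0) [M.Normal] :
    Cls p (fun (q : F0 ⧸ M) (k : ℤ) => ∃ g : F0, (g : F0 ⧸ M) = q ∧ E g k) where
  ex := by
    intro q
    obtain ⟨g, rfl⟩ := QuotientGroup.mk_surjective q
    obtain ⟨k, hk⟩ := hE.ex g
    exact ⟨k, g, rfl, hk⟩
  pw := by
    rintro q u k j hj ⟨g, rfl, hg⟩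
    obtain ⟨u, rfl⟩ := QuotientGroup.mk_surjective u
    exact ⟨u * g ^ j * u⁻¹, rfl, hE.pw g u k j hj hg⟩
  md := by
    rintro q m k hm ⟨g, rfl, hg⟩
    obtain ⟨w, hw, rfl⟩ := powSub_quot M hm
    exact ⟨g * w, rfl, hE.md g w k hw hg⟩

/-- the exponents of an element and of its class -/
theorem cls_mk (hE : Cls p E) (M : Subgroup F0) [M.Normal] (hM : M ≤ powSub F0 p) {g : F0}
    {k : ℤ} (h : ∃ g' : F0, (g' : F0 ⧸ M) = (g : F0 ⧸ M) ∧ E g' k) : E g k := by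
  obtain ⟨g', h1, h2⟩ := h
  have h3 := hE.md g' (g'⁻¹ * g) k (hM (QuotientGroup.eq.1 h1)) h2
  rwa [mul_inv_cancel_left] at h3

theorem exists_next (hπ : Function.Surjective π) (hz : ∀ a, a * z0 = z0 * a) (hzp : z0 ^ p = 1)
    (hker : π.ker = Subgroup.zpowers z0) (hE : Cls p E)
    (hstep : ∀ (A G : Type) [Group A] [Group G] (φ : A →* G), Function.Surjective φ →
    ∀ z : A, (∀ a, a * z = z * a) → z ^ p = 1 → φ.ker = Subgroup.zpowers z →
    ∀ E : G → ℤ → Prop, Cls p E →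
    (∀ a : A, IsOfFinOrder (φ a) → φ a ≠ 1 → ∃ k : ℤ, a ^ p = z ^ k ∧ E (φ a) k) →
    ∀ H : GH G, H.D = 4 → H.Stab T → H.Acy K B →
    ∃ (N : Subgroup A) (_ : N.Normal) (M : Subgroup G) (_ : M.Normal),
      StepF φ z E p K B T H N M) (s : Sg π z0 E p K B T) : ∃ s' : Sg π z0 E p K B T, Nx s s' := by
  have hNn := s.hN
  have hMn := s.hM
  have hle : s.N ≤ s.M.comap π := by
    rw [← Subgroup.map_le_iff_le_comap, s.map]
  let φ : A0 ⧸ s.N →* F0 ⧸ s.M := QuotientGroup.map s.N s.M π hle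
  have hφ : ∀ a : A0, φ (a : A0 ⧸ s.N) = ((π a : F0) : F0 ⧸ s.M) := fun a => rfl
  have hsurj : Function.Surjective φ := by
    intro g
    obtain ⟨g, rfl⟩ := QuotientGroup.mk_surjective g
    obtain ⟨a, rfl⟩ := hπ g
    exact ⟨a, rfl⟩
  have hlift : ∀ a : A0, π a ∈ s.M → ∃ n ∈ s.N, ∃ k : ℤ, a = n * z0 ^ k := by
    intro a ha
    rw [← s.map] at ha
    obtain ⟨n, hn, hna⟩ := ha
    have h1 : n⁻¹ * a ∈ π.ker := by
      rw [MonoidHom.mem_ker, map_mul, map_inv, ← hna, inv_mul_cancel]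
    rw [hker] at h1
    obtain ⟨k, hk⟩ := h1
    exact ⟨n, hn, k, by rw [show z0 ^ k = n⁻¹ * a from hk, mul_inv_cancel_left]⟩
  have hπz : π z0 = 1 := by
    have : z0 ∈ π.ker := by rw [hker]; exact Subgroup.mem_zpowers z0
    exact this
  have hkerφ : φ.ker = Subgroup.zpowers (z0 : A0 ⧸ s.N) := by
    ext a
    obtain ⟨a, rfl⟩ := QuotientGroup.mk_surjective a
    rw [MonoidHom.mem_ker]
    constructor
    · intro h
      have h1 : π a ∈ s.M := (QuotientGroup.eq_one_iff _).1 h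
      obtain ⟨n, hn, k, rfl⟩ := hlift a h1
      refine ⟨k, ?_⟩
      show ((z0 : A0) : A0 ⧸ s.N) ^ k = ((n * z0 ^ k : A0) : A0 ⧸ s.N)
      rw [QuotientGroup.mk_mul, (QuotientGroup.eq_one_iff n).2 hn, one_mul,
        QuotientGroup.mk_zpow]
    · rintro ⟨k, hk⟩
      have hk' : ((z0 : A0) : A0 ⧸ s.N) ^ k = (a : A0 ⧸ s.N) := hk
      show φ (a : A0 ⧸ s.N) = 1
      rw [← hk', map_zpow, hφ, hπz]
      simp
  have htz : ∀ a : A0 ⧸ s.N, IsOfFinOrder (φ a) → φ a ≠ 1 →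
      ∃ k : ℤ, a ^ p = (z0 : A0 ⧸ s.N) ^ k ∧ ∃ g : F0, (g : F0 ⧸ s.M) = φ a ∧ E g k := by
    intro a h1 h2
    obtain ⟨a, rfl⟩ := QuotientGroup.mk_surjective a
    have h3 := (fin_mk s.M (π a)).1 h1
    have h4 : π a ∉ s.M := fun h => h2 ((QuotientGroup.eq_one_iff _).2 h)
    obtain ⟨k, hk, hk2⟩ := s.tz a h3 h4
    refine ⟨k, ?_, π a, rfl, hk2⟩
    have h5 := (QuotientGroup.eq_one_iff (N := s.N) _).2 hk
    rw [QuotientGroup.mk_mul, QuotientGroup.mk_pow, QuotientGroup.mk_zpow, zpow_neg] at h5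
    exact mul_inv_eq_one.1 h5
  have hzq : ∀ a : A0 ⧸ s.N, a * (z0 : A0 ⧸ s.N) = (z0 : A0 ⧸ s.N) * a := by
    intro a
    obtain ⟨a, rfl⟩ := QuotientGroup.mk_surjective a
    show (a : A0 ⧸ s.N) * (z0 : A0 ⧸ s.N) = (z0 : A0 ⧸ s.N) * (a : A0 ⧸ s.N)
    rw [← QuotientGroup.mk_mul, ← QuotientGroup.mk_mul, hz]
  have hzpq : (z0 : A0 ⧸ s.N) ^ p = 1 := by
    rw [← QuotientGroup.mk_pow, hzp]
    rfl
  obtain ⟨N1, hN1, M1, hM1, S⟩ := hstep (A0 ⧸ s.N) (F0 ⧸ s.M) φ hsurj (z0 : A0 ⧸ s.N) hzq hzpq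
    hkerφ _ (cls_quot hE s.M) htz s.H s.hD s.stab s.acy
  obtain ⟨F, hFD, hFS, hFA, hFlen⟩ := S.len
  -- the new subgroups
  let N' : Subgroup A0 := N1.comap (QuotientGroup.mk' s.N)
  let M' : Subgroup F0 := M1.comap (QuotientGroup.mk' s.M)
  have hN'n : N'.Normal := hN1.comap _
  have hM'n : M'.Normal := hM1.comap _
  have memN : ∀ a : A0, a ∈ N' ↔ (a : A0 ⧸ s.N) ∈ N1 := fun a => Iff.rfl
  have memM : ∀ g : F0, g ∈ M' ↔ (g : F0 ⧸ s.M) ∈ M1 := fun g => Iff.rfl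
  let ψ : F0 →* (F0 ⧸ s.M) ⧸ M1 := (QuotientGroup.mk' M1).comp (QuotientGroup.mk' s.M)
  have hψker : ∀ g, ψ g = 1 ↔ g ∈ M' := by
    intro g
    show (((g : F0 ⧸ s.M) : (F0 ⧸ s.M)) : (F0 ⧸ s.M) ⧸ M1) = 1 ↔ _
    rw [QuotientGroup.eq_one_iff, memM]
  let e0 : F0 ⧸ M' →* (F0 ⧸ s.M) ⧸ M1 := QuotientGroup.lift M' ψ (fun g hg => (hψker g).2 hg)
  have he0 : Function.Bijective e0 := by
    constructor
    · rw [injective_iff_map_eq_one]
      intro g hg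
      obtain ⟨g, rfl⟩ := QuotientGroup.mk_surjective g
      exact (QuotientGroup.eq_one_iff _).2 ((hψker g).1 hg)
    · intro g
      obtain ⟨g, rfl⟩ := QuotientGroup.mk_surjective g
      obtain ⟨g, rfl⟩ := QuotientGroup.mk_surjective g
      exact ⟨(g : F0 ⧸ M'), rfl⟩
  let e : F0 ⧸ M' ≃* (F0 ⧸ s.M) ⧸ M1 := MulEquiv.ofBijective e0 he0
  have finM : ∀ g : F0, (∃ m : ℕ, 0 < m ∧ g ^ m ∈ M') ↔
      IsOfFinOrder ((g : F0 ⧸ s.M) : (F0 ⧸ s.M) ⧸ M1) := by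
    intro g
    rw [fin_mk]
    constructor
    · rintro ⟨m, hm, h⟩
      exact ⟨m, hm, by rw [← QuotientGroup.mk_pow]; exact h⟩
    · rintro ⟨m, hm, h⟩
      refine ⟨m, hm, ?_⟩
      rw [memM, QuotientGroup.mk_pow]
      exact h
  refine ⟨⟨N', hN'n, M', hM'n, ?_, ?_, ?_, ?_, F.comapE e, hFD, F.comapE_stab e hFS,
    F.comapE_acy e hFA⟩, ?_⟩
  · ext g
    constructor
    · rintro ⟨a, ha, rfl⟩
      rw [memM, ← S.map]
      exact ⟨_, (memN a).1 ha, rfl⟩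
    · intro hg
      rw [memM, ← S.map] at hg
      obtain ⟨n, hn, hng⟩ := hg
      obtain ⟨a, rfl⟩ := QuotientGroup.mk_surjective n
      have h1 : ((π a : F0) : F0 ⧸ s.M) = g := hng
      have h2 := QuotientGroup.eq.1 h1
      rw [← s.map] at h2
      obtain ⟨m, hm, hmg⟩ := h2
      refine ⟨a * m, ?_, ?_⟩
      · show ((a * m : A0) : A0 ⧸ s.N) ∈ N1
        rw [QuotientGroup.mk_mul, (QuotientGroup.eq_one_iff m).2 hm, mul_one]
        exact hn
      · rw [map_mul, hmg, mul_inv_cancel_left]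
  · intro a ha h1
    have h2 : (a : A0 ⧸ s.N) = 1 := by
      apply S.inj _ ((memN a).1 ha)
      rw [hφ, h1]
      rfl
    exact s.inj a ((QuotientGroup.eq_one_iff a).1 h2) h1
  · intro g hg
    have h1 := S.le ((memM g).1 hg)
    obtain ⟨w, hw, h3⟩ := powSub_quot s.M h1
    have h4 := s.le (QuotientGroup.eq.1 h3)
    have := (powSub F0 p).mul_mem hw h4
    rwa [mul_inv_cancel_left] at this
  · intro a h1 h2
    have h3 := (finM (π a)).1 h1
    obtain ⟨k, hk, hk2⟩ := S.tz (a : A0 ⧸ s.N) h3 h2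
    refine ⟨k, ?_, ?_⟩
    · rw [memN, QuotientGroup.mk_mul, QuotientGroup.mk_pow, QuotientGroup.mk_zpow]
      exact hk
    · exact cls_mk hE s.M s.le hk2
  · refine ⟨?_, ?_, ?_, ?_, ?_, ?_⟩
    · intro a ha
      show ((a : A0) : A0 ⧸ s.N) ∈ N1
      rw [(QuotientGroup.eq_one_iff a).2 ha]
      exact N1.one_mem
    · intro a ha
      show ((a : F0) : F0 ⧸ s.M) ∈ M1
      rw [(QuotientGroup.eq_one_iff a).2 ha]
      exact M1.one_mem
    · intro g
      exact hFlen (g : F0 ⧸ s.M)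
    · intro g h1 h2
      exact (QuotientGroup.eq_one_iff g).1 (S.small (g : F0 ⧸ s.M) h1 h2)
    · intro g h1
      exact (finM g).2 (S.kill (g : F0 ⧸ s.M) h1)
    · intro x x' y h1 h2 h3 h4 h5
      obtain ⟨m, hm, hmy⟩ := S.lift (x : F0 ⧸ s.M) (x' : F0 ⧸ s.M) (y : F0 ⧸ s.M)
        ((fin_mk s.M x').2 h1) (fun h => h2 ((QuotientGroup.eq_one_iff x').1 h)) h3 h4 h5
      obtain ⟨w, rfl⟩ := QuotientGroup.mk_surjective m
      refine ⟨w, hm, ?_⟩
      rw [← QuotientGroup.eq_one_iff (N := s.M)]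
      have h6 : (((w * y) * x * (w * y)⁻¹ * x'⁻¹ : F0) : F0 ⧸ s.M) =
          ((w : F0 ⧸ s.M) * (y : F0 ⧸ s.M)) * (x : F0 ⧸ s.M) *
            ((w : F0 ⧸ s.M) * (y : F0 ⧸ s.M))⁻¹ * (x' : F0 ⧸ s.M)⁻¹ := rfl
      rw [h6, hmy, mul_inv_cancel]

end

end Pool.Agent.TH480.SDA2

namespace Pool.Agent.TH37.SD

open Pool.Agent.TH54.BU Pool.Agent.TH480.SDA2

theorem bq (hS : StepFStmt) : BqStmt := by
  obtain ⟨K, B, T, hK, hB, hT, p0, hstep⟩ := hS
  refine ⟨K, B, T, hK, hB, hT, p0, ?_⟩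
  intro p hp hpp A0 F0 _ _ π hπ z0 hz hzp hker E hE htz0 H0 hD0 hS0 hA0
  have hst := hstep p hp hpp
  have hπz : π z0 = 1 := by
    have : z0 ∈ π.ker := by rw [hker]; exact Subgroup.mem_zpowers z0
    exact this
  -- the first stage
  let e0 : F0 ⧸ (⊥ : Subgroup F0) ≃* F0 := QuotientGroup.quotientBot
  let s0 : Sg π z0 E p K B T :=
    { N := ⊥
      hN := inferInstance
      M := ⊥
      hM := inferInstance
      map := Subgroup.map_bot π
      inj := fun a ha _ => Subgroup.mem_bot.1 ha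
      le := bot_le
      tz := by
        rintro a ⟨m, hm, h1⟩ h2
        have h3 : π a ^ m = 1 := Subgroup.mem_bot.1 h1
        have h4 : π a ≠ 1 := fun h => h2 (Subgroup.mem_bot.2 h)
        obtain ⟨k, hk, hk2⟩ := htz0 a (isOfFinOrder_iff_pow_eq_one.2 ⟨m, hm, h3⟩) h4
        refine ⟨k, ?_, hk2⟩
        rw [Subgroup.mem_bot, hk, zpow_neg, mul_inv_cancel]
      H := H0.comapE e0
      hD := hD0
      stab := H0.comapE_stab e0 hS0
      acy := H0.comapE_acy e0 hA0 }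
  have hnext := Pool.Agent.TH480.SDA2.exists_next (K := K) (B := B) (T := T) (p := p) (E := E)
    hπ hz hzp hker hE
    (fun A G _ _ φ h1 z h2 h3 h4 E' h5 h6 H h7 h8 h9 =>
      hst A G φ h1 z h2 h3 h4 E' h5 h6 H h7 h8 h9)
  choose nx hnx using hnext
  let s : ℕ → Sg π z0 E p K B T := fun n => nx^[n] s0
  have hs : ∀ n, Nx (s n) (s (n + 1)) := by
    intro n
    have : s (n + 1) = nx (s n) := Function.iterate_succ_apply' nx n s0
    rw [this]
    exact hnx _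
  have hNmono : Monotone fun n => (s n).N := monotone_nat_of_le_succ fun n => (hs n).leN
  have hMmono : Monotone fun n => (s n).M := monotone_nat_of_le_succ fun n => (hs n).leM
  -- lengths decrease
  have hdec : ∀ g : F0, ∀ k n : ℕ, (s n).ln g ≤ k + 1 → ∃ n', (s n').ln g ≤ 1 := by
    intro g k
    induction k with
    | zero => exact fun n h => ⟨n, h⟩
    | succ k ih =>
      intro n h
      have := (hs n).len g
      exact ih (n + 1) (by omega)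
  have htors : ∀ g : F0, ∃ n, ∃ m : ℕ, 0 < m ∧ g ^ m ∈ (s n).M := by
    intro g
    obtain ⟨n, hn⟩ := hdec g ((s 0).ln g) 0 (by omega)
    exact ⟨n + 1, (hs n).kill g hn⟩
  have hpow : ∀ g : F0, ∃ n, g ^ p ∈ (s n).M := by
    intro g
    obtain ⟨n, hn⟩ := htors g
    refine ⟨n, ?_⟩
    by_cases hg : g ∈ (s n).M
    · exact (s n).M.pow_mem hg p
    · obtain ⟨a, rfl⟩ := hπ g
      obtain ⟨k, hk, _⟩ := (s n).tz a hn hg
      rw [← (s n).map]
      refine ⟨_, hk, ?_⟩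
      rw [map_mul, map_pow, map_zpow, hπz, one_zpow, mul_one]
  have hlen0 : ∀ g : F0, (s 0).ln g = H0.len g := fun g => rfl
  -- short elements
  have hln : ∀ g : F0, ∀ l : ℕ, 1 ≤ l → H0.len g ≤ l → ∀ n, (s n).ln g ≤ l := by
    intro g l hl h n
    induction n with
    | zero => exact h
    | succ n ih =>
      have := (hs n).len g
      omega
  have hsm : ∀ g : F0, H0.len g ≤ 4 → ∀ n, g ∈ (s n).M → g = 1 := by
    intro g hg n
    induction n with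
    | zero => exact fun h0 => Subgroup.mem_bot.1 h0
    | succ n ih => exact fun h1 => ih ((hs n).small g (hln g 4 (by omega) hg n) h1)
  -- the limit
  let Ninf : Subgroup A0 := ⨆ n, (s n).N
  let Minf : Subgroup F0 := ⨆ n, (s n).M
  have memN : ∀ a : A0, a ∈ Ninf ↔ ∃ n, a ∈ (s n).N := fun a =>
    Subgroup.mem_iSup_of_directed hNmono.directed_le
  have memM : ∀ g : F0, g ∈ Minf ↔ ∃ n, g ∈ (s n).M := fun g =>
    Subgroup.mem_iSup_of_directed hMmono.directed_le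
  have hNn : Ninf.Normal := by
    constructor
    intro a ha g
    obtain ⟨n, hn⟩ := (memN a).1 ha
    exact (memN _).2 ⟨n, (s n).hN.conj_mem a hn g⟩
  have hMn : Minf.Normal := by
    constructor
    intro a ha g
    obtain ⟨n, hn⟩ := (memM a).1 ha
    exact (memM _).2 ⟨n, (s n).hM.conj_mem a hn g⟩
  have hMinf : Minf = powSub F0 p := by
    apply le_antisymm
    · exact iSup_le fun n => (s n).le
    · unfold powSub
      apply Subgroup.normalClosure_le_normal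
      rintro _ ⟨g, rfl⟩
      exact (memM _).2 (hpow g)
  refine ⟨Ninf, hNn, ?_, ?_, ?_, ?_, ?_⟩
  · rw [← hMinf]
    ext g
    constructor
    · rintro ⟨a, ha, rfl⟩
      obtain ⟨n, hn⟩ := (memN a).1 ha
      refine (memM _).2 ⟨n, ?_⟩
      rw [← (s n).map]
      exact ⟨a, hn, rfl⟩
    · intro hg
      obtain ⟨n, hn⟩ := (memM g).1 hg
      rw [← (s n).map] at hn
      obtain ⟨a, ha, rfl⟩ := hn
      exact ⟨a, (memN a).2 ⟨n, ha⟩, rfl⟩
  · intro a ha h1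
    obtain ⟨n, hn⟩ := (memN a).1 ha
    exact (s n).inj a hn h1
  · intro a ha
    obtain ⟨n, hn⟩ := htors (π a)
    have h1 : π a ∉ (s n).M := by
      intro h
      apply ha
      rw [← hMinf, memM]
      exact ⟨n, h⟩
    obtain ⟨k, hk, hk2⟩ := (s n).tz a hn h1
    exact ⟨k, (memN _).2 ⟨n, hk⟩, hk2⟩
  · intro g hg h1
    rw [← hMinf, memM] at h1
    obtain ⟨n, hn⟩ := h1
    exact hsm g hg n hn
  · intro x x' y hx' hx1 hlx hlx' h1
    rw [← hMinf, memM] at h1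
    obtain ⟨n, hn⟩ := h1
    obtain ⟨m0, hm0, hm0'⟩ := isOfFinOrder_iff_pow_eq_one.1 hx'
    have key : ∀ n, ∀ y : F0, y * x * y⁻¹ * x'⁻¹ ∈ (s n).M →
        ∃ m ∈ powSub F0 p, (m * y) * x * (m * y)⁻¹ = x' := by
      intro n
      induction n with
      | zero =>
        intro y hy
        have h2 : y * x * y⁻¹ * x'⁻¹ = 1 := Subgroup.mem_bot.1 hy
        refine ⟨1, Subgroup.one_mem _, ?_⟩
        rw [one_mul]
        exact mul_inv_eq_one.1 h2
      | succ n ih =>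
        intro y hy
        obtain ⟨m, hm, h2⟩ := (hs n).lift x x' y
          ⟨m0, hm0, by rw [hm0']; exact Subgroup.one_mem _⟩
          (fun h => hx1 (hsm x' (by omega) n h)) (hln x 1 le_rfl hlx n) (hln x' 1 le_rfl hlx' n) hy
        obtain ⟨m', hm', h3⟩ := ih (m * y) h2
        refine ⟨m' * m, Subgroup.mul_mem _ hm' ((s (n + 1)).le hm), ?_⟩
        rw [mul_assoc m' m y]
        exact h3
    exact key n y hn

end Pool.Agent.TH37.SD
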