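import Mathlib

/-!
# Job 775 (FC-2, for MP_f40e16_al)
-/

set_option autoImplicit false

namespace Pool.Agent.TH480.J775

open scoped BigOperators symmDiff ComplexConjugate

/-- Plancherel from orthogonality. -/
theorem plancherel {K X : Type} [Fintype K] [Fintype X] [DecidableEq X] (χ : K → X → ℂ) (M : ℝ)
    (hχ : ∀ a a', ∑ k, χ k a * conj (χ k a') = if a = a' then (M : ℂ) else 0) (φ : X → ℂ) :
    ∑ k, ‖∑ a, χ k a * φ a‖ ^ 2 = M * ∑ a, ‖φ a‖ ^ 2 := by
  apply Complex.ofReal_injective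
  push_cast
  calc ∑ k, (‖∑ a, χ k a * φ a‖ : ℂ) ^ 2
      = ∑ k, ∑ a, ∑ a', (χ k a * conj (χ k a')) * (φ a * conj (φ a')) := by
        apply Finset.sum_congr rfl
        intro k _
        rw [← Complex.mul_conj', map_sum, Finset.sum_mul_sum]
        apply Finset.sum_congr rfl
        intro a _
        apply Finset.sum_congr rfl
        intro a' _
        rw [map_mul]
        ring
    _ = ∑ a, ∑ a', (∑ k, χ k a * conj (χ k a')) * (φ a * conj (φ a')) := by
        rw [Finset.sum_comm]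
        apply Finset.sum_congr rfl
        intro a _
        rw [Finset.sum_comm]
        apply Finset.sum_congr rfl
        intro a' _
        rw [Finset.sum_mul]
    _ = ∑ a, (M : ℂ) * (φ a * conj (φ a)) := by
        apply Finset.sum_congr rfl
        intro a _
        rw [Finset.sum_eq_single a]
        · rw [hχ, if_pos rfl]
        · intro a' _ ha'
          rw [hχ, if_neg (Ne.symm ha'), zero_mul]
        · intro h
          exact absurd (Finset.mem_univ a) h
    _ = (M : ℂ) * ∑ a, (‖φ a‖ : ℂ) ^ 2 := by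
        rw [Finset.mul_sum]
        apply Finset.sum_congr rfl
        intro a _
        rw [Complex.mul_conj']

section subsets

variable {E : Type} [Fintype E] [DecidableEq E]

/-- the sign function of a subset -/
noncomputable def sg (S : Finset E) (e : E) : ℂ := if e ∈ S then -1 else 1

omit [Fintype E] in
theorem sg_sq (S : Finset E) (e : E) : sg S e * sg S e = 1 := by
  unfold sg
  split_ifs <;> norm_num

/-- the pairing of two subsets -/
noncomputable def PP (S A : Finset E) : ℂ := ∏ e ∈ A, sg S e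

theorem PP_comm (S A : Finset E) : PP S A = PP A S := by
  have h : ∀ S A : Finset E, PP S A = ∏ e : E, if e ∈ A then (if e ∈ S then (-1 : ℂ) else 1) else 1 := by
    intro S A
    have h0 := Finset.prod_ite_mem Finset.univ A (fun e => sg S e)
    rw [Finset.univ_inter] at h0
    exact h0.symm
  rw [h S A, h A S]
  apply Finset.prod_congr rfl
  intro e _
  split_ifs <;> rfl

omit [Fintype E] in
theorem PP_symmDiff (S A : Finset E) (x : E) : PP S (A ∆ {x}) = sg S x * PP S A := by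
  unfold PP
  by_cases hx : x ∈ A
  · have h1 : A ∆ {x} = A.erase x := by
      ext y
      rw [Finset.mem_symmDiff, Finset.mem_singleton, Finset.mem_erase]
      constructor
      · rintro (⟨h1, h2⟩ | ⟨h1, h2⟩)
        · exact ⟨h2, h1⟩
        · exact absurd (h1 ▸ hx) h2
      · rintro ⟨h1, h2⟩
        exact Or.inl ⟨h2, h1⟩
    rw [h1, ← Finset.mul_prod_erase A _ hx, ← mul_assoc, sg_sq, one_mul]
  · have h1 : A ∆ {x} = insert x A := by
      ext y
      rw [Finset.mem_symmDiff, Finset.mem_singleton, Finset.mem_insert]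
      constructor
      · rintro (⟨h1, h2⟩ | ⟨h1, h2⟩)
        · exact Or.inr h1
        · exact Or.inl h1
      · rintro (h1 | h1)
        · exact Or.inr ⟨h1, h1 ▸ hx⟩
        · exact Or.inl ⟨h1, fun h2 => hx (h2 ▸ h1)⟩
    rw [h1, Finset.prod_insert hx]

omit [Fintype E] in
theorem conj_PP (S A : Finset E) : conj (PP S A) = PP S A := by
  unfold PP sg
  rw [map_prod]
  apply Finset.prod_congr rfl
  intro e _
  split_ifs <;> simp

theorem PP_orth (A A' : Finset E) :
    ∑ S : Finset E, PP S A * PP S A' = if A = A' then (2 : ℂ) ^ Fintype.card E else 0 := by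
  have h1 : ∑ S : Finset E, PP S A * PP S A' = ∏ e : E, (sg A e * sg A' e + 1) := by
    rw [Finset.prod_add_one, Finset.powerset_univ]
    apply Finset.sum_congr rfl
    intro S _
    rw [PP_comm S A, PP_comm S A']
    unfold PP
    rw [Finset.prod_mul_distrib]
  rw [h1]
  split_ifs with h
  · subst h
    have h2 : ∀ e : E, sg A e * sg A e + 1 = 2 := by
      intro e
      rw [sg_sq]
      norm_num
    rw [Finset.prod_congr rfl fun e _ => h2 e, Finset.prod_const, Finset.card_univ]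
  · have h2 : ∃ e, ¬ (e ∈ A ↔ e ∈ A') := by
      by_contra hcon
      push Not at hcon
      exact h (Finset.ext hcon)
    obtain ⟨e, he⟩ := h2
    apply Finset.prod_eq_zero (Finset.mem_univ e)
    unfold sg
    by_cases h3 : e ∈ A
    · have h4 : e ∉ A' := fun h4 => he ⟨fun _ => h4, fun _ => h3⟩
      rw [if_pos h3, if_neg h4]
      norm_num
    · have h4 : e ∈ A' := by
        by_contra h4
        exact he ⟨fun h5 => absurd h5 h3, fun h5 => absurd h5 h4⟩
      rw [if_neg h3, if_pos h4]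
      norm_num

end subsets

section chars

variable {E : Type} [Fintype E] [DecidableEq E] (N : ℕ) [NeZero N]

/-- the characters -/
noncomputable def chi (k : Finset E × ZMod N) (a : Finset E × ZMod N) : ℂ :=
  PP k.1 a.1 * (ZMod.stdAddChar (k.2 * a.2) : ℂ)

theorem chi_orth (a a' : Finset E × ZMod N) :
    ∑ k, chi N k a * conj (chi N k a') =
      if a = a' then (((2 : ℝ) ^ Fintype.card E * N : ℝ) : ℂ) else 0 := by
  obtain ⟨A, j⟩ := a
  obtain ⟨A', j'⟩ := a'
  rw [Fintype.sum_prod_type]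
  have h1 : ∀ (S : Finset E) (m : ZMod N),
      chi N (S, m) (A, j) * conj (chi N (S, m) (A', j')) =
      (PP S A * PP S A') * (ZMod.stdAddChar (m * (j - j')) : ℂ) := by
    intro S m
    unfold chi
    rw [map_mul (starRingEnd ℂ), conj_PP, ← AddChar.map_neg_eq_conj]
    have h2 : (ZMod.stdAddChar (m * (j - j')) : ℂ) =
        (ZMod.stdAddChar (m * j) : ℂ) * (ZMod.stdAddChar (-(m * j')) : ℂ) := by
      rw [← AddChar.map_add_eq_mul]
      congr 1
      ring
    rw [h2]
    ring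
  simp_rw [h1]
  simp_rw [← Finset.mul_sum]
  rw [← Finset.sum_mul, PP_orth,
    AddChar.sum_mulShift _ (ZMod.isPrimitive_stdAddChar N)]
  by_cases h2 : A = A'
  · by_cases h3 : j = j'
    · have h4 : (A, j) = (A', j') := by rw [h2, h3]
      rw [if_pos h2, if_pos h4, if_pos (sub_eq_zero.2 h3), ZMod.card]
      push_cast
      rfl
    · have h4 : (A, j) ≠ (A', j') := fun h => h3 (congrArg Prod.snd h)
      rw [if_neg h4, if_neg (fun h => h3 (sub_eq_zero.1 h))]
      simp
  · have h4 : (A, j) ≠ (A', j') := fun h => h2 (congrArg Prod.fst h)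
    rw [if_neg h2, if_neg h4, zero_mul]

/-- the transform -/
noncomputable def tr (k : Finset E × ZMod N) (φ : Finset E × ZMod N → ℂ) : ℂ :=
  ∑ a, chi N k a * φ a

theorem tr_sub (k : Finset E × ZMod N) (φ φ' : Finset E × ZMod N → ℂ) :
    tr N k (fun a => φ a - φ' a) = tr N k φ - tr N k φ' := by
  unfold tr
  rw [← Finset.sum_sub_distrib]
  apply Finset.sum_congr rfl
  intro a _
  ring

theorem tr_shift (k : Finset E × ZMod N) (φ : Finset E × ZMod N → ℂ) (x : E) (t : ZMod N) :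
    tr N k (fun a => φ (a.1 ∆ {x}, a.2 + t)) =
      sg k.1 x * (ZMod.stdAddChar (-(k.2 * t)) : ℂ) * tr N k φ := by
  unfold tr
  rw [Finset.mul_sum]
  let e : Finset E × ZMod N ≃ Finset E × ZMod N :=
    { toFun := fun a => (a.1 ∆ {x}, a.2 + t)
      invFun := fun a => (a.1 ∆ {x}, a.2 - t)
      left_inv := by
        rintro ⟨A, j⟩
        simp
      right_inv := by
        rintro ⟨A, j⟩
        simp }
  rw [← Equiv.sum_comp e (fun a => sg k.1 x * (ZMod.stdAddChar (-(k.2 * t)) : ℂ) *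
    (chi N k a * φ a))]
  apply Finset.sum_congr rfl
  rintro ⟨A, j⟩ _
  show chi N k (A, j) * φ (A ∆ {x}, j + t) = sg k.1 x * (ZMod.stdAddChar (-(k.2 * t)) : ℂ) *
    (chi N k (A ∆ {x}, j + t) * φ (A ∆ {x}, j + t))
  unfold chi
  simp only
  rw [PP_symmDiff]
  have h2 : (ZMod.stdAddChar (k.2 * j) : ℂ) =
      (ZMod.stdAddChar (-(k.2 * t)) : ℂ) * (ZMod.stdAddChar (k.2 * (j + t)) : ℂ) := by
    rw [← AddChar.map_add_eq_mul]
    congr 1
    ring
  rw [h2]
  have h3 := sg_sq k.1 x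
  linear_combination (-(PP k.1 A * (ZMod.stdAddChar (-(k.2 * t)) : ℂ) *
    (ZMod.stdAddChar (k.2 * (j + t)) : ℂ) * φ (A ∆ {x}, j + t))) * h3

theorem tr_shift' (k : Finset E × ZMod N) (φ : Finset E × ZMod N → ℂ) (t : ZMod N) :
    tr N k (fun a => φ (a.1, a.2 + t)) =
      (ZMod.stdAddChar (-(k.2 * t)) : ℂ) * tr N k φ := by
  unfold tr
  rw [Finset.mul_sum]
  let e : Finset E × ZMod N ≃ Finset E × ZMod N :=
    { toFun := fun a => (a.1, a.2 + t)
      invFun := fun a => (a.1, a.2 - t)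
      left_inv := by
        rintro ⟨A, j⟩
        simp
      right_inv := by
        rintro ⟨A, j⟩
        simp }
  rw [← Equiv.sum_comp e (fun a => (ZMod.stdAddChar (-(k.2 * t)) : ℂ) *
    (chi N k a * φ a))]
  apply Finset.sum_congr rfl
  rintro ⟨A, j⟩ _
  show chi N k (A, j) * φ (A, j + t) = (ZMod.stdAddChar (-(k.2 * t)) : ℂ) *
    (chi N k (A, j + t) * φ (A, j + t))
  unfold chi
  simp only
  have h2 : (ZMod.stdAddChar (k.2 * j) : ℂ) =
      (ZMod.stdAddChar (-(k.2 * t)) : ℂ) * (ZMod.stdAddChar (k.2 * (j + t)) : ℂ) := by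
    rw [← AddChar.map_add_eq_mul]
    congr 1
    ring
  rw [h2]
  ring

theorem tr_plancherel (φ : Finset E × ZMod N → ℂ) :
    ∑ k, ‖tr N k φ‖ ^ 2 = ((2 : ℝ) ^ Fintype.card E * N) * ∑ a, ‖φ a‖ ^ 2 :=
  plancherel (chi N) _ (chi_orth N) φ

end chars

theorem poincare_of_twisted {V : Type} [Fintype V] [DecidableEq V] (G : SimpleGraph V)
    [DecidableRel G.Adj] (h : V → V → ℤ) (hh : ∀ u v, h v u = - h u v) (c : ℝ)
    (H : ∀ (σ : Sym2 V → ℂ) (b : ℂ), (∀ e, σ e = 1 ∨ σ e = -1) → ‖b‖ = 1 → ∀ f : V → ℂ,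
      c * (‖b ^ 2 - 1‖ ^ 2 - 1) * ∑ v, ‖f v‖ ^ 2 ≤
        ∑ u, ∑ v, if G.Adj u v then ‖f u - σ s(u, v) * b ^ (h u v) * f v‖ ^ 2 else 0)
    (N : ℕ) [NeZero N] (F : V → Finset (Sym2 V) → ZMod N → ℝ) :
    c * ((∑ v, ∑ A, ∑ j, (F v A (j + 2) - F v A j) ^ 2) - ∑ v, ∑ A, ∑ j, (F v A j) ^ 2) ≤
      ∑ u, ∑ A, ∑ j, ∑ v, if G.Adj u v then
        (F u A j - F v (A ∆ {s(u, v)}) (j + (h u v : ZMod N))) ^ 2 else 0 := by
  let Φ : V → Finset (Sym2 V) × ZMod N → ℂ := fun v a => (F v a.1 a.2 : ℂ)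
  set M : ℝ := (2 : ℝ) ^ Fintype.card (Sym2 V) * N with hM
  have hM0 : 0 < M := by
    have : 0 < N := Nat.pos_of_ne_zero (NeZero.ne N)
    positivity
  let b : Finset (Sym2 V) × ZMod N → ℂ := fun k => (ZMod.stdAddChar (-k.2) : ℂ)
  have hb : ∀ k, ‖b k‖ = 1 := fun k => AddChar.norm_apply _ _
  have hbz : ∀ k (t : ℤ), b k ^ t = (ZMod.stdAddChar (-(k.2 * (t : ZMod N))) : ℂ) := by
    intro k t
    show (ZMod.stdAddChar (-k.2) : ℂ) ^ t = _
    rw [← AddChar.map_zsmul_eq_zpow]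
    congr 1
    rw [zsmul_eq_mul]
    ring
  have hb2 : ∀ k, b k ^ 2 = (ZMod.stdAddChar (-(k.2 * 2)) : ℂ) := by
    intro k
    have h1 := hbz k 2
    rw [zpow_ofNat] at h1
    rw [h1]
    norm_num
  have key : ∀ k : Finset (Sym2 V) × ZMod N,
      c * ((∑ v, ‖tr N k (fun a => Φ v (a.1, a.2 + 2) - Φ v a)‖ ^ 2) -
        ∑ v, ‖tr N k (Φ v)‖ ^ 2) ≤
      ∑ u, ∑ v, if G.Adj u v then ‖tr N k (fun a => Φ u a -
        Φ v (a.1 ∆ {s(u, v)}, a.2 + (h u v : ZMod N)))‖ ^ 2 else 0 := by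
    intro k
    have h1 := H (sg k.1) (b k) (by
      intro e
      unfold sg
      split_ifs
      · exact Or.inr rfl
      · exact Or.inl rfl) (hb k) (fun v => tr N k (Φ v))
    have h2 : c * ((∑ v, ‖tr N k (fun a => Φ v (a.1, a.2 + 2) - Φ v a)‖ ^ 2) -
        ∑ v, ‖tr N k (Φ v)‖ ^ 2) = c * (‖b k ^ 2 - 1‖ ^ 2 - 1) * ∑ v, ‖tr N k (Φ v)‖ ^ 2 := by
      have h3 : ∀ v, ‖tr N k (fun a => Φ v (a.1, a.2 + 2) - Φ v a)‖ ^ 2 =
          ‖b k ^ 2 - 1‖ ^ 2 * ‖tr N k (Φ v)‖ ^ 2 := by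
        intro v
        rw [tr_sub N k (fun a => Φ v (a.1, a.2 + 2)) (Φ v), tr_shift' N k (Φ v) 2, ← hb2,
          ← mul_pow, ← norm_mul]
        congr 2
        ring
      rw [Finset.sum_congr rfl fun v _ => h3 v, ← Finset.mul_sum]
      ring
    rw [h2]
    apply h1.trans (le_of_eq _)
    apply Finset.sum_congr rfl
    intro u _
    apply Finset.sum_congr rfl
    intro v _
    by_cases huv : G.Adj u v
    · rw [if_pos huv, if_pos huv,
        tr_sub N k (Φ u) (fun a => Φ v (a.1 ∆ {s(u, v)}, a.2 + (h u v : ZMod N))),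
        tr_shift N k (Φ v), ← hbz]
    · rw [if_neg huv, if_neg huv]
  have hsum := Finset.sum_le_sum fun k (_ : k ∈ Finset.univ) => key k
  rw [← Finset.mul_sum, Finset.sum_sub_distrib, Finset.sum_comm,
    Finset.sum_comm (s := Finset.univ) (t := Finset.univ)
      (f := fun (k : Finset (Sym2 V) × ZMod N) v => ‖tr N k (Φ v)‖ ^ 2)] at hsum
  have hL1 : ∀ v, ∑ k, ‖tr N k (fun a => Φ v (a.1, a.2 + 2) - Φ v a)‖ ^ 2 =
      M * ∑ A, ∑ j, (F v A (j + 2) - F v A j) ^ 2 := by
    intro v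
    rw [tr_plancherel, ← hM, Fintype.sum_prod_type]
    congr 1
    apply Finset.sum_congr rfl
    intro A _
    apply Finset.sum_congr rfl
    intro j _
    show ‖(F v A (j + 2) : ℂ) - (F v A j : ℂ)‖ ^ 2 = _
    rw [← Complex.ofReal_sub, Complex.norm_real, Real.norm_eq_abs, sq_abs]
  have hL2 : ∀ v, ∑ k, ‖tr N k (Φ v)‖ ^ 2 = M * ∑ A, ∑ j, (F v A j) ^ 2 := by
    intro v
    rw [tr_plancherel, ← hM, Fintype.sum_prod_type]
    congr 1
    apply Finset.sum_congr rfl
    intro A _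
    apply Finset.sum_congr rfl
    intro j _
    show ‖(F v A j : ℂ)‖ ^ 2 = _
    rw [Complex.norm_real, Real.norm_eq_abs, sq_abs]
  have hR : ∑ k, ∑ u, ∑ v, (if G.Adj u v then ‖tr N k (fun a => Φ u a -
        Φ v (a.1 ∆ {s(u, v)}, a.2 + (h u v : ZMod N)))‖ ^ 2 else 0) =
      M * ∑ u, ∑ A, ∑ j, ∑ v, if G.Adj u v then
        (F u A j - F v (A ∆ {s(u, v)}) (j + (h u v : ZMod N))) ^ 2 else 0 := by
    rw [Finset.sum_comm, Finset.mul_sum]
    apply Finset.sum_congr rfl
    intro u _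
    rw [Finset.sum_comm]
    have h1 : ∀ v, ∑ k, (if G.Adj u v then ‖tr N k (fun a => Φ u a -
        Φ v (a.1 ∆ {s(u, v)}, a.2 + (h u v : ZMod N)))‖ ^ 2 else 0) =
        M * ∑ a : Finset (Sym2 V) × ZMod N, if G.Adj u v then
          (F u a.1 a.2 - F v (a.1 ∆ {s(u, v)}) (a.2 + (h u v : ZMod N))) ^ 2 else 0 := by
      intro v
      by_cases huv : G.Adj u v
      · simp only [huv, if_true]
        rw [tr_plancherel, ← hM]
        congr 1
        apply Finset.sum_congr rfl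
        rintro ⟨A, j⟩ _
        show ‖(F u A j : ℂ) - (F v (A ∆ {s(u, v)}) (j + (h u v : ZMod N)) : ℂ)‖ ^ 2 = _
        rw [← Complex.ofReal_sub, Complex.norm_real, Real.norm_eq_abs, sq_abs]
      · simp only [huv, if_false]
        simp
    rw [Finset.sum_congr rfl fun v _ => h1 v, ← Finset.mul_sum]
    congr 1
    rw [Finset.sum_comm, Fintype.sum_prod_type]
  rw [Finset.sum_congr rfl fun v _ => hL1 v, Finset.sum_congr rfl fun v _ => hL2 v, hR,
    ← Finset.mul_sum, ← Finset.mul_sum, ← mul_sub, mul_left_comm] at hsum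
  exact le_of_mul_le_mul_left hsum hM0

end Pool.Agent.TH480.J775
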