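import Mathlib

/-!
# Job 776 (FC-3, for MP_f40e16_al)
-/

set_option autoImplicit false

namespace Pool.Agent.TH480.J776

open scoped BigOperators

/-- the projection to a ball does not increase distances -/
theorem proj_le (z w : ℂ) (hz : z ≠ 0) (h : ‖w‖ ≤ ‖z‖) :
    ‖(‖w‖ / ‖z‖ : ℝ) • z - w‖ ≤ ‖z - w‖ := by
  have hr : 0 < ‖z‖ := norm_pos_iff.2 hz
  have hs : 0 ≤ ‖w‖ := norm_nonneg w
  rw [← pow_le_pow_iff_left₀ (norm_nonneg _) (norm_nonneg _) (two_ne_zero),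
    norm_sub_sq_real, norm_sub_sq_real, real_inner_smul_left, norm_smul, Real.norm_eq_abs,
    abs_of_nonneg (by positivity), div_mul_cancel₀ _ hr.ne']
  have hi : inner ℝ z w ≤ ‖z‖ * ‖w‖ := real_inner_le_norm z w
  set t : ℝ := ‖w‖ / ‖z‖ with ht
  have ht1 : t ≤ 1 := (div_le_one hr).2 h
  have htr : t * ‖z‖ = ‖w‖ := div_mul_cancel₀ _ hr.ne'
  have h1 : (1 - t) * inner ℝ z w ≤ (1 - t) * (‖z‖ * ‖w‖) :=
    mul_le_mul_of_nonneg_left hi (by linarith)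
  have h2 : (1 - t) * (‖z‖ * ‖w‖) = ‖z‖ * ‖w‖ - ‖w‖ ^ 2 := by
    calc (1 - t) * (‖z‖ * ‖w‖) = ‖z‖ * ‖w‖ - (t * ‖z‖) * ‖w‖ := by ring
      _ = _ := by rw [htr]; ring
  nlinarith [sq_nonneg (‖z‖ - ‖w‖)]

/-- `z ^ 2 / |z|` -/
noncomputable def dbl (z : ℂ) : ℂ := z ^ 2 / (‖z‖ : ℂ)

theorem norm_dbl (z : ℂ) : ‖dbl z‖ = ‖z‖ := by
  unfold dbl
  by_cases hz : z = 0
  · simp [hz]
  · have hr : ‖z‖ ≠ 0 := norm_ne_zero_iff.2 hz
    rw [norm_div, norm_pow, Complex.norm_real, norm_norm]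
    field_simp

theorem dbl_lip_aux (z w : ℂ) (hz : z ≠ 0) (hw : w ≠ 0) (h : ‖w‖ ≤ ‖z‖) :
    ‖dbl z - dbl w‖ ≤ 2 * ‖z - w‖ := by
  have hr : (‖z‖ : ℂ) ≠ 0 := by exact_mod_cast norm_ne_zero_iff.2 hz
  have hs : (‖w‖ : ℂ) ≠ 0 := by exact_mod_cast norm_ne_zero_iff.2 hw
  have h1 : dbl z - dbl w = z / (‖z‖ : ℂ) * (z - w) +
      w / (‖w‖ : ℂ) * ((‖w‖ / ‖z‖ : ℝ) • z - w) := by
    unfold dbl
    rw [Complex.real_smul]
    push_cast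
    field_simp
    ring
  have hn : ∀ x : ℂ, x ≠ 0 → ‖x / (‖x‖ : ℂ)‖ = 1 := by
    intro x hx
    rw [norm_div, Complex.norm_real, norm_norm, div_self (norm_ne_zero_iff.2 hx)]
  rw [h1]
  calc _ ≤ ‖z / (‖z‖ : ℂ) * (z - w)‖ + ‖w / (‖w‖ : ℂ) * ((‖w‖ / ‖z‖ : ℝ) • z - w)‖ :=
        norm_add_le _ _
    _ = ‖z - w‖ + ‖(‖w‖ / ‖z‖ : ℝ) • z - w‖ := by
        rw [norm_mul, norm_mul, hn z hz, hn w hw, one_mul, one_mul]
    _ ≤ ‖z - w‖ + ‖z - w‖ := by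
        have := proj_le z w hz h
        linarith
    _ = 2 * ‖z - w‖ := by ring

theorem dbl_lip (z w : ℂ) : ‖dbl z - dbl w‖ ≤ 2 * ‖z - w‖ := by
  by_cases hz : z = 0
  · subst hz
    have h0 : dbl 0 = 0 := by simp [dbl]
    rw [h0, zero_sub, zero_sub, norm_neg, norm_neg, norm_dbl]
    have := norm_nonneg w
    linarith
  by_cases hw : w = 0
  · subst hw
    have h0 : dbl 0 = 0 := by simp [dbl]
    rw [h0, sub_zero, sub_zero, norm_dbl]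
    have := norm_nonneg z
    linarith
  rcases le_total ‖w‖ ‖z‖ with h | h
  · exact dbl_lip_aux z w hz hw h
  · rw [norm_sub_rev, norm_sub_rev z w]
    exact dbl_lip_aux w z hw hz h

theorem twisted_of_untwisted {V : Type} [Fintype V] [DecidableEq V] (G : SimpleGraph V)
    [DecidableRel G.Adj] (h : V → V → ℤ) (c : ℝ) (hc : 0 ≤ c)
    (H : ∀ (B : ℂ), ‖B‖ = 1 → 1 ≤ ‖B - 1‖ → ∀ f : V → ℂ,
      c * ∑ v, ‖f v‖ ^ 2 ≤
        ∑ u, ∑ v, if G.Adj u v then ‖f u - B ^ (h u v) * f v‖ ^ 2 else 0)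
    (σ : Sym2 V → ℂ) (b : ℂ) (hσ : ∀ e, σ e = 1 ∨ σ e = -1) (hb : ‖b‖ = 1) (f : V → ℂ) :
    c / 12 * (‖b ^ 2 - 1‖ ^ 2 - 1) * ∑ v, ‖f v‖ ^ 2 ≤
      ∑ u, ∑ v, if G.Adj u v then ‖f u - σ s(u, v) * b ^ (h u v) * f v‖ ^ 2 else 0 := by
  have hE : 0 ≤ ∑ u, ∑ v, if G.Adj u v then
      ‖f u - σ s(u, v) * b ^ (h u v) * f v‖ ^ 2 else 0 := by
    apply Finset.sum_nonneg
    intro u _
    apply Finset.sum_nonneg
    intro v _
    split_ifs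
    · positivity
    · exact le_refl _
  have hS : 0 ≤ ∑ v, ‖f v‖ ^ 2 := Finset.sum_nonneg fun v _ => by positivity
  by_cases h1 : ‖b ^ 2 - 1‖ < 1
  · have h2 : ‖b ^ 2 - 1‖ ^ 2 - 1 ≤ 0 := by
      have := norm_nonneg (b ^ 2 - 1)
      nlinarith
    have h3 : c / 12 * (‖b ^ 2 - 1‖ ^ 2 - 1) ≤ 0 :=
      mul_nonpos_of_nonneg_of_nonpos (by positivity) h2
    have h4 : c / 12 * (‖b ^ 2 - 1‖ ^ 2 - 1) * ∑ v, ‖f v‖ ^ 2 ≤ 0 :=
      mul_nonpos_of_nonpos_of_nonneg h3 hS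
    linarith
  · push Not at h1
    have hb2 : ‖b ^ 2‖ = 1 := by rw [norm_pow, hb, one_pow]
    have h2 := H (b ^ 2) hb2 h1 (fun v => dbl (f v))
    have h3 : ∑ v, ‖dbl (f v)‖ ^ 2 = ∑ v, ‖f v‖ ^ 2 := by
      apply Finset.sum_congr rfl
      intro v _
      rw [norm_dbl]
    have h4 : ∑ u, ∑ v, (if G.Adj u v then ‖dbl (f u) - (b ^ 2) ^ (h u v) * dbl (f v)‖ ^ 2 else 0)
        ≤ 4 * ∑ u, ∑ v, if G.Adj u v then
          ‖f u - σ s(u, v) * b ^ (h u v) * f v‖ ^ 2 else 0 := by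
      rw [Finset.mul_sum]
      apply Finset.sum_le_sum
      intro u _
      rw [Finset.mul_sum]
      apply Finset.sum_le_sum
      intro v _
      split_ifs with huv
      · have h5 : (b ^ 2) ^ (h u v) * dbl (f v) = dbl (σ s(u, v) * b ^ (h u v) * f v) := by
          have hσ1 : σ s(u, v) ^ 2 = 1 := by
            rcases hσ s(u, v) with h6 | h6 <;> rw [h6] <;> norm_num
          have hσ2 : ‖σ s(u, v)‖ = 1 := by
            rcases hσ s(u, v) with h6 | h6 <;> rw [h6] <;> norm_num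
          have h7 : ‖σ s(u, v) * b ^ (h u v) * f v‖ = ‖f v‖ := by
            rw [norm_mul, norm_mul, hσ2, norm_zpow, hb, one_zpow, one_mul, one_mul]
          have h8 : (b ^ 2) ^ (h u v) = (b ^ (h u v)) ^ 2 := by
            rw [← zpow_natCast b 2, ← zpow_natCast (b ^ (h u v)) 2, ← zpow_mul, ← zpow_mul,
              mul_comm]
          unfold dbl
          rw [h7, mul_pow, mul_pow, hσ1, one_mul, h8, mul_div_assoc]
        rw [h5]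
        have h6 := dbl_lip (f u) (σ s(u, v) * b ^ (h u v) * f v)
        calc ‖dbl (f u) - dbl (σ s(u, v) * b ^ (h u v) * f v)‖ ^ 2
            ≤ (2 * ‖f u - σ s(u, v) * b ^ (h u v) * f v‖) ^ 2 :=
              pow_le_pow_left₀ (norm_nonneg _) h6 2
          _ = _ := by ring
      · simp
    rw [h3] at h2
    have h5 : ‖b ^ 2 - 1‖ ≤ 2 := by
      calc ‖b ^ 2 - 1‖ ≤ ‖b ^ 2‖ + ‖(1 : ℂ)‖ := norm_sub_le _ _
        _ = 2 := by rw [hb2, norm_one]; norm_num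
    have h6 : ‖b ^ 2 - 1‖ ^ 2 - 1 ≤ 3 := by
      have := norm_nonneg (b ^ 2 - 1)
      nlinarith
    have h7 : c / 12 * (‖b ^ 2 - 1‖ ^ 2 - 1) * ∑ v, ‖f v‖ ^ 2 ≤ c / 12 * 3 * ∑ v, ‖f v‖ ^ 2 := by
      apply mul_le_mul_of_nonneg_right _ hS
      exact mul_le_mul_of_nonneg_left h6 (by positivity)
    calc _ ≤ c / 12 * 3 * ∑ v, ‖f v‖ ^ 2 := h7
      _ = (c * ∑ v, ‖f v‖ ^ 2) / 4 := by ring
      _ ≤ _ := by linarith [h2.trans h4]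

end Pool.Agent.TH480.J776
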