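import Mathlib

/-!
# Job 777 (FC-4, for MP_f40e16_al)
-/

set_option autoImplicit false

namespace Pool.Agent.TH480.J777

open scoped BigOperators

/-- the projection to a ball does not increase distances -/
theorem proj_le (z w : ℂ) (hz : z ≠ 0) (h : ‖w‖ ≤ ‖z‖) :
    ‖(‖w‖ / ‖z‖ : ℝ) • z - w‖ ≤ ‖z - w‖ := by
  have hr : 0 < ‖z‖ := norm_pos_iff.2 hz
  have hs : 0 ≤ ‖w‖ := norm_nonneg w
  rw [← pow_le_pow_iff_left₀ (norm_nonneg _) (norm_nonneg _) (two_ne_zero),
    norm_sub_sq_real, norm_sub_sq_real, real_inner_smul_left, norm_smul, Real.norm_eq_abs,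
    abs_of_nonneg (by positivity), div_mul_cancel₀ _ hr.ne']
  have hi : inner ℝ z w ≤ ‖z‖ * ‖w‖ := real_inner_le_norm z w
  set t : ℝ := ‖w‖ / ‖z‖ with ht
  have ht1 : t ≤ 1 := (div_le_one hr).2 h
  have htr : t * ‖z‖ = ‖w‖ := div_mul_cancel₀ _ hr.ne'
  have h1 : (1 - t) * inner ℝ z w ≤ (1 - t) * (‖z‖ * ‖w‖) :=
    mul_le_mul_of_nonneg_left hi (by linarith)
  have h2 : (1 - t) * (‖z‖ * ‖w‖) = ‖z‖ * ‖w‖ - ‖w‖ ^ 2 := by
    calc (1 - t) * (‖z‖ * ‖w‖) = ‖z‖ * ‖w‖ - (t * ‖z‖) * ‖w‖ := by ring
      _ = _ := by rw [htr]; ring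
  nlinarith [sq_nonneg (‖z‖ - ‖w‖)]

theorem unit_aux (z w : ℂ) (hz : z ≠ 0) (hw : w ≠ 0) (h : ‖w‖ ≤ ‖z‖) :
    min ‖z‖ ‖w‖ * ‖z / (‖z‖ : ℂ) - w / (‖w‖ : ℂ)‖ ≤ ‖z - w‖ := by
  have hr : (‖z‖ : ℂ) ≠ 0 := by exact_mod_cast norm_ne_zero_iff.2 hz
  have hs : (‖w‖ : ℂ) ≠ 0 := by exact_mod_cast norm_ne_zero_iff.2 hw
  rw [min_eq_right h]
  have h1 : ‖w‖ * ‖z / (‖z‖ : ℂ) - w / (‖w‖ : ℂ)‖ = ‖(‖w‖ / ‖z‖ : ℝ) • z - w‖ := by
    have h2 : (‖w‖ / ‖z‖ : ℝ) • z - w = (‖w‖ : ℂ) * (z / (‖z‖ : ℂ) - w / (‖w‖ : ℂ)) := by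
      rw [Complex.real_smul]
      push_cast
      field_simp
    rw [h2, norm_mul, Complex.norm_real, norm_norm]
  rw [h1]
  exact proj_le z w hz h

theorem unit_le (z w : ℂ) (hz : z ≠ 0) (hw : w ≠ 0) :
    min ‖z‖ ‖w‖ * ‖z / (‖z‖ : ℂ) - w / (‖w‖ : ℂ)‖ ≤ ‖z - w‖ := by
  rcases le_total ‖w‖ ‖z‖ with h | h
  · exact unit_aux z w hz hw h
  · rw [min_comm, norm_sub_rev, norm_sub_rev z w]
    exact unit_aux w z hw hz h

section coarea

variable {V : Type} [Fintype V] [DecidableEq V] (G : SimpleGraph V) [DecidableRel G.Adj]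

theorem coarea (D : V → V → ℝ) (δ : ℝ)
    (H : ∀ U : Finset V, U.Nonempty →
      δ * U.card ≤ ∑ u ∈ U, ∑ v, if G.Adj u v then (if v ∈ U then D u v else 1) else 0) :
    ∀ (n : ℕ) (q : V → ℝ), (∀ v, 0 ≤ q v) → (Finset.univ.filter fun v => q v ≠ 0).card = n →
      δ * ∑ v, q v ≤ ∑ u, ∑ v, if G.Adj u v then
        (min (q u) (q v) * D u v + max (q u - q v) 0) else 0 := by
  intro n
  induction n using Nat.strong_induction_on with
  | _ n ih =>
    intro q hq hn
    set U : Finset V := Finset.univ.filter fun v => q v ≠ 0 with hU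
    have hmemU : ∀ v, v ∈ U ↔ q v ≠ 0 := by
      intro v
      simp [hU]
    by_cases hne : U.Nonempty
    · obtain ⟨v0, hv0, hmin⟩ := Finset.exists_min_image U q hne
      set m : ℝ := q v0 with hm
      have hm0 : 0 < m := lt_of_le_of_ne (hq v0) (Ne.symm ((hmemU v0).1 hv0))
      let q' : V → ℝ := fun v => if v ∈ U then q v - m else 0
      have hq' : ∀ v, 0 ≤ q' v := by
        intro v
        show 0 ≤ if v ∈ U then q v - m else 0
        split_ifs with h1
        · linarith [hmin v h1]
        · exact le_refl _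
      have hlt : (Finset.univ.filter fun v => q' v ≠ 0).card < n := by
        rw [← hn]
        apply Finset.card_lt_card
        rw [Finset.ssubset_iff_of_subset]
        · refine ⟨v0, hv0, ?_⟩
          simp [q', hm]
        · intro v hv
          by_contra hvU
          rw [Finset.mem_filter] at hv
          apply hv.2
          simp [q', hvU]
      have hih := ih _ hlt q' hq' rfl
      have hHU := H U hne
      have h1 : ∑ v, q v = ∑ v, q' v + m * U.card := by
        have h2 : ∀ v, q v = q' v + if v ∈ U then m else 0 := by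
          intro v
          show q v = (if v ∈ U then q v - m else 0) + if v ∈ U then m else 0
          split_ifs with h3
          · ring
          · rw [hmemU] at h3
            push Not at h3
            rw [h3]; ring
        rw [Finset.sum_congr rfl fun v _ => h2 v, Finset.sum_add_distrib]
        congr 1
        rw [Finset.sum_ite_mem, Finset.univ_inter, Finset.sum_const, nsmul_eq_mul, mul_comm]
      have h2 : ∑ u, ∑ v, (if G.Adj u v then
          (min (q u) (q v) * D u v + max (q u - q v) 0) else 0) =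
          (∑ u, ∑ v, if G.Adj u v then
            (min (q' u) (q' v) * D u v + max (q' u - q' v) 0) else 0) +
          m * ∑ u ∈ U, ∑ v, if G.Adj u v then (if v ∈ U then D u v else 1) else 0 := by
        have h3 : ∑ u ∈ U, ∑ v, (if G.Adj u v then (if v ∈ U then D u v else 1) else 0) =
            ∑ u, ∑ v, if u ∈ U then
              (if G.Adj u v then (if v ∈ U then D u v else 1) else 0) else 0 := by
          rw [← Finset.univ_inter U, ← Finset.sum_ite_mem]
          apply Finset.sum_congr rfl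
          intro u _
          simp only [Finset.univ_inter]
          split_ifs with h4
          · rfl
          · simp
        rw [h3, Finset.mul_sum, ← Finset.sum_add_distrib]
        apply Finset.sum_congr rfl
        intro u _
        rw [Finset.mul_sum, ← Finset.sum_add_distrib]
        apply Finset.sum_congr rfl
        intro v _
        by_cases huv : G.Adj u v
        · simp only [huv, if_true, q']
          by_cases hu : u ∈ U
          · by_cases hv : v ∈ U
            · simp only [hu, hv, if_true]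
              have h4 : min (q u - m) (q v - m) = min (q u) (q v) - m := by
                rw [min_sub_sub_right]
              rw [h4]
              have h5 : q u - m - (q v - m) = q u - q v := by ring
              rw [h5]
              ring
            · simp only [hu, hv, if_true, if_false]
              have h4 : q v = 0 := by
                rw [hmemU] at hv
                push Not at hv
                exact hv
              have h5 : m ≤ q u := hmin u hu
              rw [h4, min_eq_right (hq u), min_eq_right (by linarith), sub_zero, sub_zero,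
                max_eq_left (hq u), max_eq_left (by linarith)]
              ring
          · have h4 : q u = 0 := by
              rw [hmemU] at hu
              push Not at hu
              exact hu
            by_cases hv : v ∈ U
            · simp only [hu, hv, if_true, if_false]
              have h5 : m ≤ q v := hmin v hv
              rw [h4, min_eq_left (hq v), min_eq_left (by linarith), zero_sub, zero_sub,
                max_eq_right (by linarith [hq v]), max_eq_right (by linarith)]
              ring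
            · simp only [hu, hv, if_false]
              have h5 : q v = 0 := by
                rw [hmemU] at hv
                push Not at hv
                exact hv
              rw [h4, h5]
              simp
        · simp [huv]
      rw [h1, h2, mul_add]
      have h3 : δ * (m * (U.card : ℝ)) = m * (δ * U.card) := by ring
      rw [h3]
      exact add_le_add hih (mul_le_mul_of_nonneg_left hHU hm0.le)
    · have h0 : ∀ v, q v = 0 := by
        intro v
        by_contra h
        exact hne ⟨v, (hmemU v).2 h⟩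
      simp [h0]

end coarea

theorem gap_of_isoperimetry {V : Type} [Fintype V] [DecidableEq V] (G : SimpleGraph V)
    [DecidableRel G.Adj] (h : V → V → ℤ) (d : ℕ) (hd : ∀ v, G.degree v ≤ d) (hd0 : 0 < d)
    (δ : ℝ) (hδ : 0 ≤ δ) (B : ℂ) (hB : ‖B‖ = 1)
    (H : ∀ U : Finset V, U.Nonempty → ∀ φ : V → ℂ, (∀ v, ‖φ v‖ = 1) →
      δ * U.card ≤ ∑ u ∈ U, ∑ v, if G.Adj u v then
        (if v ∈ U then ‖φ u - B ^ (h u v) * φ v‖ else 1) else 0)
    (f : V → ℂ) :
    δ ^ 2 / (4 * d) * ∑ v, ‖f v‖ ^ 2 ≤
      ∑ u, ∑ v, if G.Adj u v then ‖f u - B ^ (h u v) * f v‖ ^ 2 else 0 := by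
  classical
  have hd' : (0 : ℝ) < d := by exact_mod_cast hd0
  let φ : V → ℂ := fun v => if f v = 0 then 1 else f v / (‖f v‖ : ℂ)
  have hφ : ∀ v, ‖φ v‖ = 1 := by
    intro v
    show ‖if f v = 0 then 1 else f v / (‖f v‖ : ℂ)‖ = 1
    split_ifs with h1
    · exact norm_one
    · rw [norm_div, Complex.norm_real, norm_norm, div_self (norm_ne_zero_iff.2 h1)]
  let D : V → V → ℝ := fun u v => ‖φ u - B ^ (h u v) * φ v‖
  let q : V → ℝ := fun v => ‖f v‖ ^ 2
  have hq : ∀ v, 0 ≤ q v := fun v => by positivity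
  let a : V → V → ℝ := fun u v => ‖f u - B ^ (h u v) * f v‖
  have ha : ∀ u v, 0 ≤ a u v := fun u v => norm_nonneg _
  have hBn : ∀ n : ℤ, ‖B ^ n‖ = 1 := by
    intro n
    rw [norm_zpow, hB, one_zpow]
  have hcoarea := coarea G D δ (fun U hU => H U hU φ hφ) _ q hq rfl
  -- first estimate
  have hD : ∀ u v, min ‖f u‖ ‖f v‖ * D u v ≤ a u v := by
    intro u v
    by_cases hu : f u = 0
    · rw [hu, norm_zero, min_eq_left (norm_nonneg _), zero_mul]
      exact ha u v
    by_cases hv : f v = 0
    · rw [hv, norm_zero, min_eq_right (norm_nonneg _), zero_mul]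
      exact ha u v
    have h1 : φ u = f u / (‖f u‖ : ℂ) := if_neg hu
    have h2 : φ v = f v / (‖f v‖ : ℂ) := if_neg hv
    have hBne : B ^ (h u v) ≠ 0 := by
      rw [← norm_ne_zero_iff, hBn]
      exact one_ne_zero
    have h3 := unit_le (f u) (B ^ (h u v) * f v) hu (mul_ne_zero hBne hv)
    have h4 : ‖B ^ (h u v) * f v‖ = ‖f v‖ := by rw [norm_mul, hBn, one_mul]
    rw [h4] at h3
    show min ‖f u‖ ‖f v‖ * ‖φ u - B ^ (h u v) * φ v‖ ≤ a u v
    rw [h1, h2, ← mul_div_assoc]
    exact h3
  have hE1 : ∀ u v, min (q u) (q v) * D u v ≤ (‖f u‖ + ‖f v‖) / 2 * a u v := by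
    intro u v
    have h1 : min (q u) (q v) = min ‖f u‖ ‖f v‖ * min ‖f u‖ ‖f v‖ := by
      show min (‖f u‖ ^ 2) (‖f v‖ ^ 2) = _
      rcases le_total ‖f u‖ ‖f v‖ with h2 | h2
      · rw [min_eq_left h2, min_eq_left (pow_le_pow_left₀ (norm_nonneg _) h2 2), sq]
      · rw [min_eq_right h2, min_eq_right (pow_le_pow_left₀ (norm_nonneg _) h2 2), sq]
    have h2 : 0 ≤ min ‖f u‖ ‖f v‖ := le_min (norm_nonneg _) (norm_nonneg _)
    have h3 : min ‖f u‖ ‖f v‖ ≤ (‖f u‖ + ‖f v‖) / 2 := by
      have h4 := min_le_left ‖f u‖ ‖f v‖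
      have h5 := min_le_right ‖f u‖ ‖f v‖
      linarith
    rw [h1, mul_assoc]
    exact mul_le_mul h3 (hD u v) (mul_nonneg h2 (norm_nonneg _)) (h2.trans h3)
  have hE2 : ∀ u v, |q u - q v| ≤ (‖f u‖ + ‖f v‖) * a u v := by
    intro u v
    have h1 : q u - q v = (‖f u‖ + ‖f v‖) * (‖f u‖ - ‖f v‖) := by
      show ‖f u‖ ^ 2 - ‖f v‖ ^ 2 = _
      ring
    have h4 : ‖B ^ (h u v) * f v‖ = ‖f v‖ := by rw [norm_mul, hBn, one_mul]
    have h5 : |‖f u‖ - ‖f v‖| ≤ a u v := by
      have h6 := abs_norm_sub_norm_le (f u) (B ^ (h u v) * f v)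
      rwa [h4] at h6
    have h7 : 0 ≤ ‖f u‖ + ‖f v‖ := by positivity
    rw [h1, abs_mul, abs_of_nonneg h7]
    exact mul_le_mul_of_nonneg_left h5 h7
  -- antisymmetric sum vanishes
  have hanti : ∑ u, ∑ v, (if G.Adj u v then (q u - q v) else 0) = 0 := by
    have h1 : ∑ u, ∑ v, (if G.Adj u v then (q u - q v) else 0) =
        - ∑ u, ∑ v, (if G.Adj u v then (q u - q v) else 0) := by
      conv_lhs => rw [Finset.sum_comm]
      rw [← Finset.sum_neg_distrib]
      apply Finset.sum_congr rfl
      intro u _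
      rw [← Finset.sum_neg_distrib]
      apply Finset.sum_congr rfl
      intro v _
      by_cases huv : G.Adj u v
      · rw [if_pos huv, if_pos huv.symm]
        ring
      · rw [if_neg huv, if_neg (fun h' => huv h'.symm), neg_zero]
    linarith
  have hsum : δ * ∑ v, q v ≤ ∑ u, ∑ v, if G.Adj u v then (‖f u‖ + ‖f v‖) * a u v else 0 := by
    have h1 : ∑ u, ∑ v, (if G.Adj u v then
        (min (q u) (q v) * D u v + max (q u - q v) 0) else 0) =
        ∑ u, ∑ v, (if G.Adj u v then
        (min (q u) (q v) * D u v + |q u - q v| / 2) else 0) := by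
      have h2 : ∑ u, ∑ v, (if G.Adj u v then
        (min (q u) (q v) * D u v + max (q u - q v) 0) else 0) =
        ∑ u, ∑ v, (if G.Adj u v then
        (min (q u) (q v) * D u v + |q u - q v| / 2) else 0) +
        (∑ u, ∑ v, (if G.Adj u v then (q u - q v) else 0)) / 2 := by
        rw [Finset.sum_div, ← Finset.sum_add_distrib]
        apply Finset.sum_congr rfl
        intro u _
        rw [Finset.sum_div, ← Finset.sum_add_distrib]
        apply Finset.sum_congr rfl
        intro v _
        split_ifs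
        · have h3 : max (q u - q v) 0 = |q u - q v| / 2 + (q u - q v) / 2 := by
            rcases le_total 0 (q u - q v) with h4 | h4
            · rw [max_eq_left h4, abs_of_nonneg h4]; ring
            · rw [max_eq_right h4, abs_of_nonpos h4]; ring
          rw [h3]
          ring
        · simp
      rw [h2, hanti]
      ring
    rw [h1] at hcoarea
    apply hcoarea.trans
    apply Finset.sum_le_sum
    intro u _
    apply Finset.sum_le_sum
    intro v _
    split_ifs
    · have h2 := hE1 u v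
      have h3 := hE2 u v
      nlinarith
    · exact le_refl _
  -- Cauchy-Schwarz
  set E : ℝ := ∑ u, ∑ v, if G.Adj u v then ‖f u - B ^ (h u v) * f v‖ ^ 2 else 0 with hE
  have hE0 : 0 ≤ E := by
    apply Finset.sum_nonneg
    intro u _
    apply Finset.sum_nonneg
    intro v _
    split_ifs
    · positivity
    · exact le_refl _
  let A : V × V → ℝ := fun p => if G.Adj p.1 p.2 then a p.1 p.2 else 0
  let S : V × V → ℝ := fun p => if G.Adj p.1 p.2 then ‖f p.1‖ + ‖f p.2‖ else 0
  have hA : ∑ p : V × V, A p ^ 2 = E := by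
    rw [Fintype.sum_prod_type, hE]
    apply Finset.sum_congr rfl
    intro u _
    apply Finset.sum_congr rfl
    intro v _
    show (if G.Adj u v then a u v else 0) ^ 2 = _
    split_ifs
    · rfl
    · simp
  have hdeg : ∀ u, ∑ v, (if G.Adj u v then q u else 0) ≤ d * q u := by
    intro u
    rw [← Finset.sum_filter, Finset.sum_const, nsmul_eq_mul]
    apply mul_le_mul_of_nonneg_right _ (hq u)
    rw [← SimpleGraph.neighborFinset_eq_filter, SimpleGraph.card_neighborFinset_eq_degree]
    exact_mod_cast hd u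
  have hS : ∑ p : V × V, S p ^ 2 ≤ 4 * d * ∑ v, q v := by
    rw [Fintype.sum_prod_type]
    have h1 : ∀ u v, S (u, v) ^ 2 ≤ (if G.Adj u v then 2 * q u else 0) +
        (if G.Adj u v then 2 * q v else 0) := by
      intro u v
      show (if G.Adj u v then ‖f u‖ + ‖f v‖ else 0) ^ 2 ≤ _
      split_ifs
      · show _ ≤ 2 * ‖f u‖ ^ 2 + 2 * ‖f v‖ ^ 2
        nlinarith [sq_nonneg (‖f u‖ - ‖f v‖)]
      · simp
    have h2 : ∑ u, ∑ v, (if G.Adj u v then 2 * q v else 0) =
        ∑ u, ∑ v, (if G.Adj u v then 2 * q u else 0) := by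
      rw [Finset.sum_comm]
      apply Finset.sum_congr rfl
      intro u _
      apply Finset.sum_congr rfl
      intro v _
      by_cases huv : G.Adj u v
      · rw [if_pos huv, if_pos huv.symm]
      · rw [if_neg huv, if_neg (fun h' => huv h'.symm)]
    have h3 : ∑ u, ∑ v, (if G.Adj u v then 2 * q u else 0) ≤ 2 * d * ∑ v, q v := by
      rw [Finset.mul_sum]
      apply Finset.sum_le_sum
      intro u _
      have h4 : ∑ v, (if G.Adj u v then 2 * q u else 0) =
          2 * ∑ v, (if G.Adj u v then q u else 0) := by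
        rw [Finset.mul_sum]
        apply Finset.sum_congr rfl
        intro v _
        split_ifs <;> simp
      rw [h4]
      have h5 := hdeg u
      linarith
    calc ∑ u, ∑ v, S (u, v) ^ 2 ≤ ∑ u, ∑ v, ((if G.Adj u v then 2 * q u else 0) +
        (if G.Adj u v then 2 * q v else 0)) :=
          Finset.sum_le_sum fun u _ => Finset.sum_le_sum fun v _ => h1 u v
      _ = ∑ u, ∑ v, (if G.Adj u v then 2 * q u else 0) +
          ∑ u, ∑ v, (if G.Adj u v then 2 * q v else 0) := by
          rw [← Finset.sum_add_distrib]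
          apply Finset.sum_congr rfl
          intro u _
          rw [Finset.sum_add_distrib]
      _ ≤ _ := by
          rw [h2]
          linarith
  have hSA : ∑ p : V × V, S p * A p =
      ∑ u, ∑ v, if G.Adj u v then (‖f u‖ + ‖f v‖) * a u v else 0 := by
    rw [Fintype.sum_prod_type]
    apply Finset.sum_congr rfl
    intro u _
    apply Finset.sum_congr rfl
    intro v _
    show (if G.Adj u v then ‖f u‖ + ‖f v‖ else 0) * (if G.Adj u v then a u v else 0) = _
    split_ifs
    · rfl
    · simp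
  have hCS : (∑ p : V × V, S p * A p) ^ 2 ≤ (∑ p : V × V, S p ^ 2) * ∑ p : V × V, A p ^ 2 :=
    Finset.sum_mul_sq_le_sq_mul_sq _ _ _
  rw [hA, hSA] at hCS
  have hQ0 : 0 ≤ ∑ v, q v := Finset.sum_nonneg fun v _ => hq v
  have h1 : (δ * ∑ v, q v) ^ 2 ≤ 4 * d * (∑ v, q v) * E := by
    calc (δ * ∑ v, q v) ^ 2 ≤ (∑ u, ∑ v, if G.Adj u v then (‖f u‖ + ‖f v‖) * a u v else 0) ^ 2 :=
          pow_le_pow_left₀ (mul_nonneg hδ hQ0) hsum 2
      _ ≤ (∑ p : V × V, S p ^ 2) * E := hCS
      _ ≤ _ := mul_le_mul_of_nonneg_right hS hE0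
  show δ ^ 2 / (4 * d) * ∑ v, q v ≤ E
  rcases eq_or_lt_of_le hQ0 with h2 | h2
  · rw [← h2, mul_zero]
    exact hE0
  · rw [div_mul_eq_mul_div, div_le_iff₀ (by positivity)]
    have h3 : (∑ v, q v) * (δ ^ 2 * ∑ v, q v) ≤ (∑ v, q v) * (E * (4 * d)) := by
      calc (∑ v, q v) * (δ ^ 2 * ∑ v, q v) = (δ * ∑ v, q v) ^ 2 := by ring
        _ ≤ 4 * d * (∑ v, q v) * E := h1
        _ = _ := by ring
    exact le_of_mul_le_mul_left h3 h2

end Pool.Agent.TH480.J777
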