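import Pool.Agent.TH950.FC.Defs

/-!
# Job 865 (FC-10, for MP_f40e16_al)
-/

set_option autoImplicit false

namespace Pool.Agent.TH480.J865

open Pool.Agent.TH950.FC
open scoped symmDiff BigOperators

theorem kform {I A : Type} [Fintype I] [DecidableEq I] [Fintype A] (p q : A → I) (w : A → ℝ)
    (v : I → ℝ)
    (h : ∀ a : I → ℝ, 0 ≤ ∑ i, w i * (a (p i) - a (q i)) ^ 2 + ∑ x, v x * a x ^ 2)
    (K : I → I → ℝ) (hK1 : ∀ x, K x x = 1) (hKs : ∀ x y, K x y = K y x)
    (hG : ∀ Q : I → I → ℝ, (∀ a : I → ℝ, 0 ≤ ∑ x, ∑ y, Q x y * a x * a y) →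
      0 ≤ ∑ x, ∑ y, Q x y * K x y) :
    0 ≤ ∑ i, w i * (2 - 2 * K (p i) (q i)) + ∑ x, v x := by
  let δ : A → I → ℝ := fun i y => (if y = p i then (1 : ℝ) else 0) - (if y = q i then 1 else 0)
  have hδ : ∀ (i : A) (g : I → ℝ), ∑ y, δ i y * g y = g (p i) - g (q i) := by
    intro i g
    simp [δ, sub_mul, Finset.sum_sub_distrib]
  let Qm : I → I → ℝ := fun x y => ∑ i, w i * δ i x * δ i y + if x = y then v x else 0
  have hL : ∀ L : I → I → ℝ, ∑ x, ∑ y, Qm x y * L x y =
      ∑ i, w i * ((L (p i) (p i) - L (p i) (q i)) - (L (q i) (p i) - L (q i) (q i))) +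
        ∑ x, v x * L x x := by
    intro L
    have h1 : ∀ x, ∑ y, Qm x y * L x y =
        ∑ i, w i * (δ i x * (L x (p i) - L x (q i))) + v x * L x x := by
      intro x
      have h2 : ∀ y, Qm x y * L x y = ∑ i, w i * (δ i x * (δ i y * L x y)) +
          if x = y then v x * L x y else 0 := by
        intro y
        show (∑ i, w i * δ i x * δ i y + if x = y then v x else 0) * L x y = _
        rw [add_mul, Finset.sum_mul, ite_mul, zero_mul]
        congr 1
        apply Finset.sum_congr rfl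
        intro i _
        ring
      rw [Finset.sum_congr rfl fun y _ => h2 y, Finset.sum_add_distrib, Finset.sum_comm]
      congr 1
      · apply Finset.sum_congr rfl
        intro i _
        rw [← Finset.mul_sum, ← Finset.mul_sum, hδ]
      · rw [Finset.sum_ite_eq, if_pos (Finset.mem_univ x)]
    rw [Finset.sum_congr rfl fun x _ => h1 x, Finset.sum_add_distrib, Finset.sum_comm]
    congr 1
    apply Finset.sum_congr rfl
    intro i _
    rw [← Finset.mul_sum, hδ i (fun x => L x (p i) - L x (q i))]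
  have h1 := hG Qm (by
    intro a
    have h2 := hL (fun x y => a x * a y)
    have h3 : ∑ x, ∑ y, Qm x y * a x * a y = ∑ x, ∑ y, Qm x y * (a x * a y) := by
      apply Finset.sum_congr rfl
      intro x _
      apply Finset.sum_congr rfl
      intro y _
      ring
    rw [h3, h2]
    apply (h a).trans (le_of_eq _)
    congr 1
    · apply Finset.sum_congr rfl
      intro i _
      ring
    · apply Finset.sum_congr rfl
      intro i _
      ring)
  rw [hL K] at h1
  apply h1.trans (le_of_eq _)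
  congr 1
  · apply Finset.sum_congr rfl
    intro i _
    rw [hK1, hK1, hKs (q i) (p i)]
    ring
  · apply Finset.sum_congr rfl
    intro x _
    rw [hK1, mul_one]

/-- the value of `r + e` in `ZMod N` without wrapping -/
theorem val_add_int {N : ℕ} [NeZero N] (r : ZMod N) (e : ℤ) (h0 : 0 ≤ (r.val : ℤ) + e)
    (h1 : (r.val : ℤ) + e < N) : ((r + (e : ZMod N)).val : ℤ) = r.val + e := by
  have h2 : r + (e : ZMod N) = (((r.val : ℤ) + e : ℤ) : ZMod N) := by
    push_cast
    rw [ZMod.natCast_zmod_val]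
  obtain ⟨m, hm⟩ := Int.eq_ofNat_of_zero_le h0
  rw [h2, hm]
  have h3 : m < N := by
    rw [hm] at h1
    exact_mod_cast h1
  rw [Int.cast_natCast, ZMod.val_natCast, Nat.mod_eq_of_lt h3]

theorem one_sub_exp_le (u : ℝ) : 2 - 2 * Real.exp (-u) ≤ 2 * u := by
  have := Real.add_one_le_exp (-u)
  linarith

theorem no_embedding
    (gauss : ∀ {I : Type} [Fintype I] (Q : I → I → ℝ),
      (∀ a : I → ℝ, 0 ≤ ∑ x, ∑ y, Q x y * a x * a y) →
      ∀ {H : Type} [NormedAddCommGroup H] [InnerProductSpace ℝ H] (f : I → H) (t : ℝ), 0 ≤ t →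
      0 ≤ ∑ x, ∑ y, Q x y * Real.exp (-t * ‖f x - f y‖ ^ 2))
    {S Q V W : Type} [DecidableEq Q] [DecidableEq W] [Fintype S] (T : Theta S Q)
    (c₀ : ℝ) (hc₀ : 0 < c₀) (hexp : ∀ n : ℤ, ∃ q k, n ≤ k ∧ Expand T c₀ q k)
    (X : LG S V) (β : V → Finset W) (ω : S → V → ℤ) (x₀ : V)
    (hch : ∀ q, Charted T X β ω x₀ q)
    {H : Type} [NormedAddCommGroup H] [InnerProductSpace ℝ H] (F : V × ℤ → H) (C : ℝ)
    (hC : ∀ s x y j, X.E s x y → ‖F (y, j + ω s x) - F (x, j)‖ ≤ C)
    (hfar : ∀ R : ℝ, ∃ k₀ : ℤ, ∀ k ≥ k₀, ∀ x j, R < ‖F (x, j + k) - F (x, j)‖) : False := by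
  classical
  -- parameters
  set σ : ℝ := (Fintype.card S : ℝ) with hσ
  have hσ0 : 0 ≤ σ := by positivity
  obtain ⟨t, ht0, htC⟩ : ∃ t : ℝ, 0 < t ∧ σ * (2 * (t * C ^ 2)) ≤ c₀ / 4 := by
    refine ⟨c₀ / (8 * ((σ + 1) * (C ^ 2 + 1))), by positivity, ?_⟩
    have h1 : σ * C ^ 2 ≤ (σ + 1) * (C ^ 2 + 1) := by nlinarith [sq_nonneg C]
    have h2 : (0 : ℝ) < (σ + 1) * (C ^ 2 + 1) := by positivity
    have h3 : σ * (2 * (c₀ / (8 * ((σ + 1) * (C ^ 2 + 1))) * C ^ 2)) =
        (c₀ / 4) * ((σ * C ^ 2) / ((σ + 1) * (C ^ 2 + 1))) := by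
      field_simp
      ring
    rw [h3]
    have h4 : (σ * C ^ 2) / ((σ + 1) * (C ^ 2 + 1)) ≤ 1 := (div_le_one h2).2 h1
    nlinarith
  obtain ⟨R, hR0, htR⟩ : ∃ R : ℝ, 0 ≤ R ∧ t * R ^ 2 = 4 := by
    refine ⟨Real.sqrt (4 / t), Real.sqrt_nonneg _, ?_⟩
    rw [Real.sq_sqrt (by positivity)]
    field_simp
  obtain ⟨k₀, hk₀⟩ := hfar R
  obtain ⟨q, k, hk, B, h', hB, hh', hh1, hineq⟩ := hexp (max k₀ 0)
  have hk1 : k₀ ≤ k := (le_max_left _ _).trans hk
  have hk2 : 0 ≤ k := (le_max_right _ _).trans hk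
  obtain ⟨ι, jj, ψ, -, hι0, hι⟩ := hch q
  -- the number of copies
  obtain ⟨N, hN⟩ := exists_nat_gt ((16 * σ + 12 * c₀) / c₀ + 4)
  have hN4 : (4 : ℝ) < N := by
    have : 0 ≤ (16 * σ + 12 * c₀) / c₀ := by positivity
    linarith
  have hN4' : 4 < N := by exact_mod_cast hN4
  have hNz : NeZero N := ⟨by omega⟩
  -- base block
  have hqB : (q, (∅ : Finset (Sym2 Q))) ∈ B := (hB _).2 ⟨[], rfl⟩
  have hB0 : (0 : ℝ) < B.card := by
    exact_mod_cast Finset.card_pos.2 ⟨_, hqB⟩
  let f : B × ZMod N → H := fun x => F (ι x.1, k * (x.2.val : ℤ) + ψ x.1)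
  let K : B × ZMod N → B × ZMod N → ℝ := fun x y => Real.exp (-t * ‖f x - f y‖ ^ 2)
  have hK1 : ∀ x, K x x = 1 := by
    intro x
    show Real.exp (-t * ‖f x - f x‖ ^ 2) = 1
    simp
  have hKs : ∀ x y, K x y = K y x := by
    intro x y
    show Real.exp (-t * ‖f x - f y‖ ^ 2) = Real.exp (-t * ‖f y - f x‖ ^ 2)
    rw [norm_sub_rev]
  have hG : ∀ Qm : B × ZMod N → B × ZMod N → ℝ, (∀ a : B × ZMod N → ℝ,
      0 ≤ ∑ x, ∑ y, Qm x y * a x * a y) → 0 ≤ ∑ x, ∑ y, Qm x y * K x y := by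
    intro Qm hQm
    exact gauss Qm hQm f t ht0.le
  let A : Type := ((B × ZMod N) × (S × B)) ⊕ (B × ZMod N)
  let pp : A → B × ZMod N := Sum.elim (fun i => i.1) (fun i => (i.1, i.2 + 2))
  let qq : A → B × ZMod N := Sum.elim
    (fun i => (i.2.2, i.1.2 + (h' i.2.1 (i.1.1 : Q × Finset (Sym2 Q)).1 : ZMod N)))
    (fun i => i)
  let w : A → ℝ := Sum.elim
    (fun i => if T.cov.E i.2.1 (i.1.1 : Q × Finset (Sym2 Q)) i.2.2 then 1 else 0)
    (fun _ => -c₀)
  have hform := kform pp qq w (fun _ => c₀) (by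
    intro a
    let F' : Q × Finset (Sym2 Q) → ZMod N → ℝ := fun c j =>
      if hc : c ∈ B then a (⟨c, hc⟩, j) else 0
    have hF' : ∀ (c : B) (j : ZMod N), F' (c : Q × Finset (Sym2 Q)) j = a (c, j) := by
      intro c j
      show (if hc : (c : Q × Finset (Sym2 Q)) ∈ B then a (⟨c, hc⟩, j) else 0) = _
      rw [dif_pos c.2]
    have h1 := hineq N F'
    rw [Fintype.sum_sum_type]
    have e1 : ∑ c ∈ B, ∑ j, (F' c (j + 2) - F' c j) ^ 2 =
        ∑ x : B × ZMod N, (a (x.1, x.2 + 2) - a x) ^ 2 := by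
      rw [Fintype.sum_prod_type, ← Finset.sum_coe_sort B]
      apply Finset.sum_congr rfl
      intro c _
      apply Finset.sum_congr rfl
      intro j _
      rw [hF', hF']
    have e2 : ∑ c ∈ B, ∑ j, (F' c j) ^ 2 = ∑ x : B × ZMod N, (a x) ^ 2 := by
      rw [Fintype.sum_prod_type, ← Finset.sum_coe_sort B]
      apply Finset.sum_congr rfl
      intro c _
      apply Finset.sum_congr rfl
      intro j _
      rw [hF']
    have e3 : ∑ c ∈ B, ∑ j, ∑ s, ∑ c' ∈ B, (if T.cov.E s c c' then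
        (F' c j - F' c' (j + (h' s c.1 : ZMod N))) ^ 2 else 0) =
        ∑ i : (B × ZMod N) × (S × B),
          (if T.cov.E i.2.1 (i.1.1 : Q × Finset (Sym2 Q)) i.2.2 then (1 : ℝ) else 0) *
          (a i.1 - a (i.2.2, i.1.2 + (h' i.2.1 (i.1.1 : Q × Finset (Sym2 Q)).1 : ZMod N))) ^ 2 := by
      rw [Fintype.sum_prod_type, Fintype.sum_prod_type, ← Finset.sum_coe_sort B]
      apply Finset.sum_congr rfl
      intro c _
      apply Finset.sum_congr rfl
      intro j _
      rw [Fintype.sum_prod_type]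
      apply Finset.sum_congr rfl
      intro s _
      rw [← Finset.sum_coe_sort B]
      apply Finset.sum_congr rfl
      intro c' _
      simp only [hF']
      rw [ite_mul, one_mul, zero_mul]
    rw [e1, e2, e3] at h1
    have e4 : ∑ i : B × ZMod N, w (Sum.inr i) * (a (pp (Sum.inr i)) - a (qq (Sum.inr i))) ^ 2 =
        -c₀ * ∑ x : B × ZMod N, (a (x.1, x.2 + 2) - a x) ^ 2 := by
      rw [Finset.mul_sum]
      rfl
    have e5 : ∑ x : B × ZMod N, (fun _ => c₀) x * a x ^ 2 =
        c₀ * ∑ x : B × ZMod N, (a x) ^ 2 := by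
      rw [Finset.mul_sum]
    rw [e4, e5]
    have e6 : ∑ i : (B × ZMod N) × (S × B),
        w (Sum.inl i) * (a (pp (Sum.inl i)) - a (qq (Sum.inl i))) ^ 2 =
        ∑ i : (B × ZMod N) × (S × B),
          (if T.cov.E i.2.1 (i.1.1 : Q × Finset (Sym2 Q)) i.2.2 then (1 : ℝ) else 0) *
          (a i.1 - a (i.2.2, i.1.2 + (h' i.2.1 (i.1.1 : Q × Finset (Sym2 Q)).1 : ZMod N))) ^ 2 :=
      rfl
    rw [e6]
    linarith) K hK1 hKs hG
  rw [Fintype.sum_sum_type] at hform
  -- upper bound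
  have hval : ∀ m : ℕ, (Finset.univ.filter fun r : ZMod N => r.val = m).card ≤ 1 := by
    intro m
    rw [Finset.card_le_one]
    intro r hr r' hr'
    rw [Finset.mem_filter] at hr hr'
    exact ZMod.val_injective N (hr.2.trans hr'.2.symm)
  have hup1 : ∀ (c : B) (s : S) (c' : B), T.cov.E s (c : Q × Finset (Sym2 Q)) c' →
      ∀ r : ZMod N, 2 - 2 * K (c, r) (c', r + (h' s (c : Q × Finset (Sym2 Q)).1 : ZMod N)) ≤
        2 * (t * C ^ 2) + (if r.val = 0 then 2 else 0) + (if r.val = N - 1 then 2 else 0) := by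
    intro c s c' hE r
    have htC0 : 0 ≤ t * C ^ 2 := by positivity
    have hle2 : 2 - 2 * K (c, r) (c', r + (h' s (c : Q × Finset (Sym2 Q)).1 : ZMod N)) ≤ 2 := by
      have : 0 ≤ K (c, r) (c', r + (h' s (c : Q × Finset (Sym2 Q)).1 : ZMod N)) :=
        (Real.exp_pos _).le
      linarith
    by_cases h0 : r.val = 0
    · rw [if_pos h0]
      have : (0 : ℝ) ≤ if r.val = N - 1 then 2 else 0 := by split_ifs <;> norm_num
      linarith
    by_cases h1 : r.val = N - 1
    · rw [if_pos h1, if_neg h0]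
      linarith
    rw [if_neg h0, if_neg h1, add_zero, add_zero]
    have hrlt := ZMod.val_lt r
    have habs := abs_le.1 (hh1 s (c : Q × Finset (Sym2 Q)).1)
    have hv := val_add_int r (h' s (c : Q × Finset (Sym2 Q)).1) (by omega) (by omega)
    obtain ⟨hX, hω⟩ := (hι c ((hB _).1 c.2)).2 s c' hE
    have hreach : T.Reach q (c : Q × Finset (Sym2 Q)).1 := by
      obtain ⟨u, hu⟩ := (hB _).1 c.2
      refine ⟨u, ?_⟩
      have hgen : ∀ (u : List S) (a b : Q × Finset (Sym2 Q)), T.cov.Path a u b →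
          T.Path a.1 u b.1 := by
        intro u
        induction u with
        | nil =>
          intro a b hab
          have : a = b := hab
          show a.1 = b.1
          rw [this]
        | cons x u ih =>
          rintro a b ⟨z, hz, hzb⟩
          exact ⟨z.1, hz.1, ih z b hzb⟩
      exact hgen u _ _ hu
    rw [hh' s _ hreach] at hω
    have hCb := hC s _ _ (k * (r.val : ℤ) + ψ c) hX
    have hfe : f (c', r + (h' s (c : Q × Finset (Sym2 Q)).1 : ZMod N)) =
        F (ι c', k * (r.val : ℤ) + ψ c + ω s (ι c)) := by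
      show F (ι c', k * ((r + (h' s (c : Q × Finset (Sym2 Q)).1 : ZMod N)).val : ℤ) + ψ c') = _
      rw [hv, hω]
      congr 2
      ring
    have hnorm : ‖f (c, r) - f (c', r + (h' s (c : Q × Finset (Sym2 Q)).1 : ZMod N))‖ ≤ C := by
      rw [hfe, norm_sub_rev]
      exact hCb
    show 2 - 2 * Real.exp (-t * ‖f (c, r) -
      f (c', r + (h' s (c : Q × Finset (Sym2 Q)).1 : ZMod N))‖ ^ 2) ≤ _
    rw [neg_mul]
    apply (one_sub_exp_le _).trans
    have h5 := pow_le_pow_left₀ (norm_nonneg _) hnorm 2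
    have h6 := mul_le_mul_of_nonneg_left h5 ht0.le
    linarith
  have hup : ∑ i : (B × ZMod N) × (S × B), w (Sum.inl i) *
      (2 - 2 * K (pp (Sum.inl i)) (qq (Sum.inl i))) ≤
      B.card * (σ * (2 * (t * C ^ 2) * N + 4)) := by
    have h1 : ∀ (c : B) (s : S), ∑ r : ZMod N, ∑ c' : B,
        (if T.cov.E s (c : Q × Finset (Sym2 Q)) c' then (1 : ℝ) else 0) *
          (2 - 2 * K (c, r) (c', r + (h' s (c : Q × Finset (Sym2 Q)).1 : ZMod N))) ≤
        2 * (t * C ^ 2) * N + 4 := by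
      intro c s
      have h2 : ∀ r : ZMod N, ∑ c' : B,
        (if T.cov.E s (c : Q × Finset (Sym2 Q)) c' then (1 : ℝ) else 0) *
          (2 - 2 * K (c, r) (c', r + (h' s (c : Q × Finset (Sym2 Q)).1 : ZMod N))) ≤
        2 * (t * C ^ 2) + (if r.val = 0 then 2 else 0) + (if r.val = N - 1 then 2 else 0) := by
        intro r
        have hnn : (0 : ℝ) ≤ 2 * (t * C ^ 2) + (if r.val = 0 then 2 else 0) +
            (if r.val = N - 1 then 2 else 0) := by
          have h3 : (0 : ℝ) ≤ if r.val = 0 then 2 else 0 := by split_ifs <;> norm_num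
          have h4 : (0 : ℝ) ≤ if r.val = N - 1 then 2 else 0 := by split_ifs <;> norm_num
          positivity
        by_cases hex : ∃ c' : B, T.cov.E s (c : Q × Finset (Sym2 Q)) c'
        · obtain ⟨c', hc'⟩ := hex
          rw [Finset.sum_eq_single c']
          · rw [if_pos hc', one_mul]
            exact hup1 c s c' hc' r
          · intro c'' _ hne
            rw [if_neg, zero_mul]
            intro hE
            exact hne (Subtype.ext (T.cov.func hE hc'))
          · intro h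
            exact absurd (Finset.mem_univ _) h
        · rw [Finset.sum_eq_zero]
          · exact hnn
          · intro c' _
            rw [if_neg (fun hE => hex ⟨c', hE⟩), zero_mul]
      calc _ ≤ ∑ r : ZMod N, (2 * (t * C ^ 2) + (if r.val = 0 then 2 else 0) +
            (if r.val = N - 1 then 2 else 0)) := Finset.sum_le_sum fun r _ => h2 r
        _ ≤ _ := by
          rw [Finset.sum_add_distrib, Finset.sum_add_distrib, Finset.sum_const, Finset.card_univ,
            ZMod.card, ← Finset.sum_filter, ← Finset.sum_filter, Finset.sum_const,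
            Finset.sum_const]
          have h3 : ((Finset.univ.filter fun r : ZMod N => r.val = 0).card : ℝ) ≤ 1 := by
            exact_mod_cast hval 0
          have h4 : ((Finset.univ.filter fun r : ZMod N => r.val = N - 1).card : ℝ) ≤ 1 := by
            exact_mod_cast hval (N - 1)
          rw [nsmul_eq_mul, nsmul_eq_mul, nsmul_eq_mul]
          nlinarith
    have h2 : ∑ i : (B × ZMod N) × (S × B), w (Sum.inl i) *
      (2 - 2 * K (pp (Sum.inl i)) (qq (Sum.inl i))) = ∑ c : B, ∑ s : S, ∑ r : ZMod N, ∑ c' : B,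
        (if T.cov.E s (c : Q × Finset (Sym2 Q)) c' then (1 : ℝ) else 0) *
          (2 - 2 * K (c, r) (c', r + (h' s (c : Q × Finset (Sym2 Q)).1 : ZMod N))) := by
      rw [Fintype.sum_prod_type, Fintype.sum_prod_type]
      apply Finset.sum_congr rfl
      intro c _
      rw [Finset.sum_comm]
      have h3 : ∀ r : ZMod N, ∑ y : S × B, w (Sum.inl ((c, r), y)) *
          (2 - 2 * K (pp (Sum.inl ((c, r), y))) (qq (Sum.inl ((c, r), y)))) =
          ∑ s : S, ∑ c' : B, (if T.cov.E s (c : Q × Finset (Sym2 Q)) c' then (1 : ℝ) else 0) *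
          (2 - 2 * K (c, r) (c', r + (h' s (c : Q × Finset (Sym2 Q)).1 : ZMod N))) := by
        intro r
        rw [Fintype.sum_prod_type]
        rfl
      rw [Finset.sum_comm, Finset.sum_congr rfl fun r _ => h3 r, Finset.sum_comm]
    rw [h2]
    calc _ ≤ ∑ c : B, ∑ s : S, (2 * (t * C ^ 2) * N + 4) :=
          Finset.sum_le_sum fun c _ => Finset.sum_le_sum fun s _ => h1 c s
      _ = _ := by
          rw [Finset.sum_const, Finset.sum_const, Finset.card_univ, Finset.card_univ,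
            Fintype.card_coe, nsmul_eq_mul, nsmul_eq_mul]
  -- lower bound for the shifts by two
  have hexp4 : Real.exp (-4) ≤ 1 / 4 := by
    rw [Real.exp_neg]
    have h1 : (4 : ℝ) ≤ Real.exp 4 := by
      have := Real.add_one_le_exp (4 : ℝ)
      linarith
    rw [one_div]
    exact inv_anti₀ (by norm_num) h1
  have hlow1 : ∀ (c : B) (r : ZMod N), 3 / 2 - (if r.val = N - 1 then 3 / 2 else 0) -
      (if r.val = N - 2 then 3 / 2 else 0) ≤ 2 - 2 * K (c, r + 2) (c, r) := by
    intro c r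
    have hKle : K (c, r + 2) (c, r) ≤ 1 := by
      show Real.exp (-t * ‖f (c, r + 2) - f (c, r)‖ ^ 2) ≤ 1
      rw [Real.exp_le_one_iff, neg_mul]
      have : 0 ≤ t * ‖f (c, r + 2) - f (c, r)‖ ^ 2 := by positivity
      linarith
    by_cases h0 : r.val = N - 1
    · rw [if_pos h0]
      have : (0 : ℝ) ≤ if r.val = N - 2 then 3 / 2 else 0 := by split_ifs <;> norm_num
      linarith
    by_cases h1 : r.val = N - 2
    · rw [if_pos h1, if_neg h0]
      linarith
    rw [if_neg h0, if_neg h1, sub_zero, sub_zero]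
    have hrlt := ZMod.val_lt r
    have hv := val_add_int r 2 (by omega) (by omega)
    have h2c : ((2 : ℤ) : ZMod N) = 2 := by norm_num
    rw [h2c] at hv
    have hfe : f (c, r + 2) = F (ι c, (k * (r.val : ℤ) + ψ c) + 2 * k) := by
      show F (ι c, k * ((r + 2 : ZMod N).val : ℤ) + ψ c) = _
      rw [hv]
      congr 2
      ring
    have h5 := hk₀ (2 * k) (by linarith) (ι c) (k * (r.val : ℤ) + ψ c)
    rw [← hfe] at h5
    have h6 : R < ‖f (c, r + 2) - f (c, r)‖ := h5
    have h7 : K (c, r + 2) (c, r) ≤ Real.exp (-4) := by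
      show Real.exp (-t * ‖f (c, r + 2) - f (c, r)‖ ^ 2) ≤ _
      rw [Real.exp_le_exp, neg_mul, neg_le_neg_iff, ← htR]
      apply mul_le_mul_of_nonneg_left _ ht0.le
      exact pow_le_pow_left₀ hR0 h6.le 2
    linarith
  have hlow : (B.card : ℝ) * (3 / 2 * (N - 2)) ≤
      ∑ x : B × ZMod N, (2 - 2 * K (x.1, x.2 + 2) x) := by
    rw [Fintype.sum_prod_type]
    have h1 : ∀ c : B, 3 / 2 * ((N : ℝ) - 2) ≤ ∑ r : ZMod N, (2 - 2 * K (c, r + 2) (c, r)) := by
      intro c
      calc 3 / 2 * ((N : ℝ) - 2) ≤ ∑ r : ZMod N, (3 / 2 - (if r.val = N - 1 then 3 / 2 else 0) -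
          (if r.val = N - 2 then 3 / 2 else 0)) := by
            rw [Finset.sum_sub_distrib, Finset.sum_sub_distrib, Finset.sum_const,
              Finset.card_univ, ZMod.card, ← Finset.sum_filter, ← Finset.sum_filter,
              Finset.sum_const, Finset.sum_const]
            have h3 : ((Finset.univ.filter fun r : ZMod N => r.val = N - 2).card : ℝ) ≤ 1 := by
              exact_mod_cast hval (N - 2)
            have h4 : ((Finset.univ.filter fun r : ZMod N => r.val = N - 1).card : ℝ) ≤ 1 := by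
              exact_mod_cast hval (N - 1)
            rw [nsmul_eq_mul, nsmul_eq_mul, nsmul_eq_mul]
            nlinarith
        _ ≤ _ := Finset.sum_le_sum fun r _ => hlow1 c r
    calc (B.card : ℝ) * (3 / 2 * (N - 2)) = ∑ c : B, (3 / 2 * ((N : ℝ) - 2)) := by
          rw [Finset.sum_const, Finset.card_univ, Fintype.card_coe, nsmul_eq_mul]
      _ ≤ _ := Finset.sum_le_sum fun c _ => h1 c
  have e1 : ∑ i : B × ZMod N, w (Sum.inr i) * (2 - 2 * K (pp (Sum.inr i)) (qq (Sum.inr i))) =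
      -c₀ * ∑ x : B × ZMod N, (2 - 2 * K (x.1, x.2 + 2) x) := by
    rw [Finset.mul_sum]
    rfl
  have e2 : ∑ x : B × ZMod N, c₀ = B.card * (N * c₀) := by
    rw [Finset.sum_const, Finset.card_univ, Fintype.card_prod, Fintype.card_coe, ZMod.card,
      nsmul_eq_mul]
    push_cast
    ring
  rw [e1, e2] at hform
  have h7 : c₀ * ((B.card : ℝ) * (3 / 2 * (N - 2))) ≤
      c₀ * ∑ x : B × ZMod N, (2 - 2 * K (x.1, x.2 + 2) x) :=
    mul_le_mul_of_nonneg_left hlow hc₀.le
  have h8 : 0 ≤ (B.card : ℝ) * (σ * (2 * (t * C ^ 2) * N + 4) - c₀ * (3 / 2 * (N - 2)) +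
      N * c₀) := by
    have h9 : (B.card : ℝ) * (σ * (2 * (t * C ^ 2) * N + 4) - c₀ * (3 / 2 * (N - 2)) +
      N * c₀) = B.card * (σ * (2 * (t * C ^ 2) * N + 4)) -
        c₀ * ((B.card : ℝ) * (3 / 2 * (N - 2))) + B.card * (N * c₀) := by ring
    rw [h9]
    linarith
  have h9 : 0 ≤ σ * (2 * (t * C ^ 2) * N + 4) - c₀ * (3 / 2 * (N - 2)) + N * c₀ :=
    nonneg_of_mul_nonneg_right h8 hB0
  have h10 : σ * (2 * (t * C ^ 2) * N) ≤ c₀ / 4 * N := by
    calc σ * (2 * (t * C ^ 2) * N) = (σ * (2 * (t * C ^ 2))) * N := by ring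
      _ ≤ _ := mul_le_mul_of_nonneg_right htC (by positivity)
  have h11 : (16 * σ + 12 * c₀) / c₀ < N := by linarith
  rw [div_lt_iff₀ hc₀] at h11
  nlinarith

end Pool.Agent.TH480.J865
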