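import Pool.Agent.TH950.FC.Defs

/-!
# Job 869 (FC-14, for MP_f40e16_al)
-/

set_option autoImplicit false

namespace Pool.Agent.TH480.J869

open Pool.Agent.TH950.FC
open scoped symmDiff

section basics

variable {S Q H : Type} [DecidableEq Q]

omit [DecidableEq Q] in
theorem ext_refl (st : St S Q H) : Ext st st :=
  ⟨fun _ h => h, fun h => h, fun _ => rfl, fun _ => rfl, fun _ => rfl, le_refl _⟩

omit [DecidableEq Q] in
theorem ext_trans {a b c : St S Q H} (hab : Ext a b) (hbc : Ext b c) : Ext a c :=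
  ⟨fun _ h => hbc.dom (hab.dom h), fun h => hbc.E (hab.E h),
    fun h => (hbc.β (hab.dom h)).trans (hab.β h),
    fun h => (hbc.ω (hab.E h)).trans (hab.ω h),
    fun h => (hbc.p (hab.dom h)).trans (hab.p h), hab.t.trans hbc.t⟩

/-- the initial state -/
def initSt (S Q H : Type) [DecidableEq Q] [Group H] (q₀ : Q) : St S Q H where
  dom := {(0, (q₀, ∅))}
  X := ⟨fun _ _ _ => False, fun h => h, fun h => h.elim⟩
  β := fun _ => ∅
  ω := fun _ _ => 0
  p := fun _ => 1
  t := 1

theorem init_path {S Q H : Type} [DecidableEq Q] [Group H] {q₀ : Q} {x y : Vt Q} {w : List S}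
    (h : (initSt S Q H q₀).X.Path x w y) : w = [] ∧ x = y := by
  cases w with
  | nil => exact ⟨rfl, h⟩
  | cons s w =>
    obtain ⟨z, hz, _⟩ := h
    exact hz.elim

theorem init_good {S Q H : Type} [DecidableEq Q] [Group H] (T : Theta S Q) (a : S → H) (q₀ : Q) :
    Good T a 4 (initSt S Q H q₀) := by
  refine ⟨⟨?_, ?_, ?_, ?_, ?_, ?_, ?_, ?_, ?_⟩, ?_, ?_, ?_⟩
  · exact Set.finite_singleton _
  · exact Set.singleton_nonempty _
  · intro s x y h
    exact h.elim
  · intro x hx
    have : x = (0, (q₀, ∅)) := hx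
    rw [this]
    exact Nat.zero_lt_one
  · intro x _ k hk
    exact absurd hk (Finset.notMem_empty _)
  · intro x y hx hy
    have h1 : x = (0, (q₀, ∅)) := hx
    have h2 : y = (0, (q₀, ∅)) := hy
    exact ⟨[], h1.trans h2.symm⟩
  · intro s x y h
    exact h.elim
  · intro s x y h
    exact h.elim
  · intro s x y h
    exact h.elim
  · intro x _ q _ w y hw
    obtain ⟨h1, h2⟩ := init_path hw.2.1
    subst h1
    refine ⟨?_, ?_⟩
    · simp
    · simp [initSt]
  · intro x _ q q' _ _ w w' y hw hw'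
    rw [(init_path hw.2.1).1, (init_path hw'.2.1).1]
  · intro x hx x' hx' q q' _ _
    have h1 : x = (0, (q₀, ∅)) := hx
    have h2 : x' = (0, (q₀, ∅)) := hx'
    have hov : ∀ (x : Vt Q) (q : Option Q), x ∈ (initSt S Q H q₀).Ov T x q := by
      intro x q
      cases q with
      | none => exact Set.mem_singleton _
      | some q => exact ⟨[], List.isChain_nil, rfl, ⟨q, rfl⟩⟩
    refine ⟨x, hov x q, x', hov x' q', 0, ?_, Nat.zero_le _⟩
    rw [h1, h2]
    exact Conn.refl _

end basics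

section limit

variable {S Q H : Type} [DecidableEq Q] [Group H] {T : Theta S Q} {a : S → H}
  (st : ℕ → St S Q H)

omit [DecidableEq Q] [Group H] in
theorem ext_le (hext : ∀ n, Ext (st n) (st (n + 1))) {i j : ℕ} (hij : i ≤ j) :
    Ext (st i) (st j) := by
  induction j, hij using Nat.le_induction with
  | base => exact ext_refl _
  | succ j _ ih => exact ext_trans ih (hext j)

/-- the limit vertices -/
abbrev LV : Type := {x : Vt Q // ∃ i, x ∈ (st i).dom}

/-- the limit graph -/
def LX (hext : ∀ n, Ext (st n) (st (n + 1))) : LG S (LV st) where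
  E s x y := ∃ i, (st i).X.E s x.1 y.1
  symm := by
    rintro s x y ⟨i, h⟩
    exact ⟨i, (st i).X.symm h⟩
  func := by
    rintro s x y z ⟨i, h⟩ ⟨j, h'⟩
    apply Subtype.ext
    exact (st (max i j)).X.func ((ext_le st hext (le_max_left i j)).E h)
      ((ext_le st hext (le_max_right i j)).E h')

open Classical in
/-- the limit walls -/
noncomputable def Lβ (x : LV st) : Finset (Wt Q) := (st (Classical.choose x.2)).β x.1

open Classical in
/-- the limit potential -/
noncomputable def Lp (x : LV st) : H := (st (Classical.choose x.2)).p x.1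

open Classical in
/-- the limit cochain -/
noncomputable def Lω (s : S) (x : LV st) : ℤ :=
  if h : ∃ i, ∃ y, (st i).X.E s x.1 y then (st (Classical.choose h)).ω s x.1 else 0

variable {st}

omit [DecidableEq Q] [Group H] in
theorem Lβ_eq (hext : ∀ n, Ext (st n) (st (n + 1))) (x : LV st) {i : ℕ}
    (hi : x.1 ∈ (st i).dom) : Lβ st x = (st i).β x.1 := by
  have h0 := Classical.choose_spec x.2
  have h1 := (ext_le st hext (le_max_left i (Classical.choose x.2))).β hi
  have h2 := (ext_le st hext (le_max_right i (Classical.choose x.2))).β h0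
  exact h2.symm.trans h1

omit [DecidableEq Q] [Group H] in
theorem Lp_eq (hext : ∀ n, Ext (st n) (st (n + 1))) (x : LV st) {i : ℕ}
    (hi : x.1 ∈ (st i).dom) : Lp st x = (st i).p x.1 := by
  have h0 := Classical.choose_spec x.2
  have h1 := (ext_le st hext (le_max_left i (Classical.choose x.2))).p hi
  have h2 := (ext_le st hext (le_max_right i (Classical.choose x.2))).p h0
  exact h2.symm.trans h1

omit [DecidableEq Q] [Group H] in
theorem Lω_eq (hext : ∀ n, Ext (st n) (st (n + 1))) (s : S) (x : LV st) {i : ℕ} {y : Vt Q}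
    (hi : (st i).X.E s x.1 y) : Lω st s x = (st i).ω s x.1 := by
  have hex : ∃ i, ∃ y, (st i).X.E s x.1 y := ⟨i, y, hi⟩
  unfold Lω
  rw [dif_pos hex]
  obtain ⟨z, hz⟩ := Classical.choose_spec hex
  have h1 := (ext_le st hext (le_max_left i (Classical.choose hex))).ω hi
  have h2 := (ext_le st hext (le_max_right i (Classical.choose hex))).ω hz
  exact h2.symm.trans h1

theorem path_dom (hgood : ∀ n, Good T a 4 (st n)) {i : ℕ} {x y : Vt Q} {w : List S}
    (hx : x ∈ (st i).dom) (h : (st i).X.Path x w y) : y ∈ (st i).dom := by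
  induction w generalizing x with
  | nil =>
    have : x = y := h
    rwa [← this]
  | cons s w ih =>
    obtain ⟨z, hz, hzy⟩ := h
    exact ih ((hgood i).edge_dom ((st i).X.symm hz)) hzy

theorem path_lim (hext : ∀ n, Ext (st n) (st (n + 1))) (hgood : ∀ n, Good T a 4 (st n)) {i : ℕ}
    {w : List S} : ∀ (x y : LV st), x.1 ∈ (st i).dom → (st i).X.Path x.1 w y.1 →
    (LX st hext).Path x w y := by
  induction w with
  | nil =>
    intro x y _ h
    exact Subtype.ext h
  | cons s w ih =>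
    rintro x y hx ⟨z, hz, hzy⟩
    have hzd : z ∈ (st i).dom := (hgood i).edge_dom ((st i).X.symm hz)
    exact ⟨⟨z, i, hzd⟩, ⟨i, hz⟩, ih ⟨z, i, hzd⟩ y hzd hzy⟩

omit [DecidableEq Q] [Group H] in
theorem path_stage (hext : ∀ n, Ext (st n) (st (n + 1))) {w : List S} :
    ∀ (x y : LV st), (LX st hext).Path x w y → ∃ i, (st i).X.Path x.1 w y.1 ∧ x.1 ∈ (st i).dom := by
  have mono : ∀ {w : List S} {i j : ℕ} {x y : Vt Q}, i ≤ j → (st i).X.Path x w y →
      (st j).X.Path x w y := by
    intro w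
    induction w with
    | nil => intro i j x y _ h; exact h
    | cons s w ih =>
      rintro i j x y hij ⟨z, hz, hzy⟩
      exact ⟨z, (ext_le st hext hij).E hz, ih hij hzy⟩
  induction w with
  | nil =>
    intro x y h
    obtain ⟨i, hi⟩ := x.2
    exact ⟨i, congrArg Subtype.val h, hi⟩
  | cons s w ih =>
    rintro x y ⟨z, ⟨i, hi⟩, hzy⟩
    obtain ⟨j, hj, _⟩ := ih z y hzy
    obtain ⟨k, hk⟩ := x.2
    refine ⟨max (max i j) k, ⟨z.1, ?_, ?_⟩, ?_⟩
    · exact (ext_le st hext ((le_max_left i j).trans (le_max_left _ _))).E hi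
    · exact mono ((le_max_right i j).trans (le_max_left _ _)) hj
    · exact (ext_le st hext (le_max_right _ _)).dom hk

open Classical in
theorem charted_lim (hext : ∀ n, Ext (st n) (st (n + 1))) (hgood : ∀ n, Good T a 4 (st n))
    {i : ℕ} (x : LV st) (hx : x.1 ∈ (st i).dom) {q : Q} (h : (st i).Ch T x.1 q) :
    Charted T (LX st hext) (Lβ st) (Lω st) x q := by
  obtain ⟨ι, j, ψ, hj, hι0, hι⟩ := h
  have hdom : ∀ c, T.cov.Reach (q, ∅) c → ι c ∈ (st i).dom := by
    have hgen : ∀ (w : List S) (c c' : Q × Finset (Sym2 Q)), T.cov.Reach (q, ∅) c →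
        ι c ∈ (st i).dom → T.cov.Path c w c' → ι c' ∈ (st i).dom := by
      intro w
      induction w with
      | nil =>
        intro c c' _ hc h
        have : c = c' := h
        rwa [← this]
      | cons s w ih =>
        rintro c c' hr hc ⟨z, hz, hzc⟩
        have hE := ((hι c hr).2 s z hz).1
        apply ih z c' _ ((hgood i).edge_dom ((st i).X.symm hE)) hzc
        obtain ⟨u, hu⟩ := hr
        refine ⟨u ++ [s], ?_⟩
        have happ : ∀ (u : List S) (b c : Q × Finset (Sym2 Q)), T.cov.Path b u c →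
            T.cov.E s c z → T.cov.Path b (u ++ [s]) z := by
          intro u
          induction u with
          | nil =>
            intro b c hb hc
            have : b = c := hb
            rw [this]
            exact ⟨z, hc, rfl⟩
          | cons r u ih =>
            rintro b c ⟨d, hd, hdc⟩ hc
            exact ⟨d, hd, ih d c hdc hc⟩
        exact happ u _ _ hu hz
    rintro c ⟨w, hw⟩
    exact hgen w _ _ ⟨[], rfl⟩ (hι0 ▸ hx) hw
  let ι' : Q × Finset (Sym2 Q) → LV st := fun c =>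
    if h : ∃ i, ι c ∈ (st i).dom then ⟨ι c, h⟩ else x
  have hι' : ∀ c, T.cov.Reach (q, ∅) c → (ι' c).1 = ι c := by
    intro c hc
    have h1 : ∃ i, ι c ∈ (st i).dom := ⟨i, hdom c hc⟩
    show (if h : ∃ i, ι c ∈ (st i).dom then (⟨ι c, h⟩ : LV st) else x).1 = ι c
    rw [dif_pos h1]
  have hd' : ∀ c, T.cov.Reach (q, ∅) c → (ι' c).1 ∈ (st i).dom := by
    intro c hc
    rw [hι' c hc]
    exact hdom c hc
  refine ⟨ι', j, ψ, hj, ?_, ?_⟩
  · apply Subtype.ext
    rw [hι' _ ⟨[], rfl⟩, hι0]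
  · intro c hc
    refine ⟨?_, ?_⟩
    · rw [Lβ_eq hext _ (hd' c hc), Lβ_eq hext x hx, hι' c hc]
      exact (hι c hc).1
    · intro s c' hcc'
      have hc' : T.cov.Reach (q, ∅) c' := by
        obtain ⟨u, hu⟩ := hc
        refine ⟨u ++ [s], ?_⟩
        have happ : ∀ (u : List S) (b c : Q × Finset (Sym2 Q)), T.cov.Path b u c →
            T.cov.E s c c' → T.cov.Path b (u ++ [s]) c' := by
          intro u
          induction u with
          | nil =>
            intro b c hb hc
            have : b = c := hb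
            rw [this]
            exact ⟨c', hc, rfl⟩
          | cons r u ih =>
            rintro b c ⟨d, hd, hdc⟩ hc
            exact ⟨d, hd, ih d c hdc hc⟩
        exact happ u _ _ hu hcc'
      obtain ⟨h1, h2⟩ := (hι c hc).2 s c' hcc'
      have h3 : (st i).X.E s (ι' c).1 (ι' c').1 := by
        rw [hι' c hc, hι' c' hc']
        exact h1
      refine ⟨⟨i, h3⟩, ?_⟩
      rw [Lω_eq hext s _ h3, hι' c hc]
      exact h2

theorem conn_lim (hext : ∀ n, Ext (st n) (st (n + 1))) (hgood : ∀ n, Good T a 4 (st n))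
    {i : ℕ} {x y : Vt Q} {n : ℕ} (h : Conn T (st i).X (st i).β (st i).ω x y n) :
    ∀ (hx : x ∈ (st i).dom), ∃ hy : y ∈ (st i).dom,
      Conn T (LX st hext) (Lβ st) (Lω st) ⟨x, i, hx⟩ ⟨y, i, hy⟩ n := by
  induction h with
  | refl =>
    intro hx
    exact ⟨hx, Conn.refl _⟩
  | step _ hch hq hp ih =>
    intro hx
    obtain ⟨hy, hc⟩ := ih hx
    have hz := path_dom hgood hy hp
    refine ⟨hz, Conn.step hc (charted_lim hext hgood _ hy hch) hq ?_⟩
    exact path_lim hext hgood _ _ hy hp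

end limit

/-- Passage to the limit of the inductive construction. -/
theorem limit_of_stage {S Q H : Type} [DecidableEq Q] [Group H] [Countable Q] [Nonempty Q]
    (T : Theta S Q) (a : S → H)
    (stage : ∀ st : St S Q H, Good T a 4 st → ∃ st' : St S Q H, Ext st st' ∧ Good T a 4 st' ∧
      ∀ x ∈ st.dom, ∀ q, (T.g q = 100 ∨ ∃ w y, st.Common T x q w y ∧ 2 * T.g q < 100 * w.length) →
        st'.Ch T x q) :
    ∃ (V : Type) (_ : Countable V) (X : LG S V) (β : V → Finset (Wt Q)) (ω : S → V → ℤ)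
      (p : V → H) (base : V), Limit T a X β ω p base := by
  classical
  obtain ⟨q₀⟩ := (inferInstance : Nonempty Q)
  choose! nxt hn1 hn2 hn3 using stage
  obtain ⟨st, hgood, hext, hch, h0⟩ : ∃ st : ℕ → St S Q H, (∀ n, Good T a 4 (st n)) ∧
      (∀ n, Ext (st n) (st (n + 1))) ∧
      (∀ n, ∀ x ∈ (st n).dom, ∀ q, (T.g q = 100 ∨ ∃ w y, (st n).Common T x q w y ∧
        2 * T.g q < 100 * w.length) → (st (n + 1)).Ch T x q) ∧
      ((0, (q₀, ∅)) : Vt Q) ∈ (st 0).dom := by
    let seq : ℕ → {st : St S Q H // Good T a 4 st} := fun n =>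
      Nat.rec ⟨initSt S Q H q₀, init_good T a q₀⟩ (fun _ s => ⟨nxt s.1, hn2 s.1 s.2⟩) n
    exact ⟨fun n => (seq n).1, fun n => (seq n).2, fun n => hn1 (seq n).1 (seq n).2,
      fun n => hn3 (seq n).1 (seq n).2, Set.mem_singleton _⟩
  have hsub : ∀ {i j : ℕ}, i ≤ j → (st i).dom ⊆ (st j).dom := fun h => (ext_le st hext h).dom
  have htotal : ∀ s (x : LV st), ∃ y, (LX st hext).E s x y := by
    intro s x
    obtain ⟨i, hi⟩ := x.2
    obtain ⟨q, hq, ⟨r, ⟨r', hr, _⟩⟩, _⟩ := T.edgeType s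
    obtain ⟨ι, j, ψ, _, hι0, hι⟩ := hch i x.1 hi q (Or.inl hq)
    have h1 := ((hι (q, ∅) ⟨[], rfl⟩).2 s (r', ∅ ∆ {s(q, r')}) ⟨hr, rfl⟩).1
    rw [hι0] at h1
    refine ⟨⟨ι (r', ∅ ∆ {s(q, r')}), i + 1, (hgood (i + 1)).edge_dom ((st (i + 1)).X.symm h1)⟩,
      i + 1, h1⟩
  have hread : ∀ (w : List S) (x : LV st), ∃ y, (LX st hext).Path x w y := by
    intro w
    induction w with
    | nil => intro x; exact ⟨x, rfl⟩
    | cons s w ih =>
      intro x
      obtain ⟨z, hz⟩ := htotal s x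
      obtain ⟨y, hy⟩ := ih z
      exact ⟨y, z, hz, hy⟩
  refine ⟨LV st, inferInstance, LX st hext, Lβ st, Lω st, Lp st, ⟨_, 0, h0⟩, ?_⟩
  refine ⟨htotal, ?_, ?_, ?_, ?_, ?_, ?_⟩
  · intro x
    obtain ⟨i, hi⟩ := x.2
    obtain ⟨w, hw⟩ := (hgood i).conn (hsub (Nat.zero_le i) h0) hi
    exact ⟨w, path_lim hext hgood _ _ (hsub (Nat.zero_le i) h0) hw⟩
  · rintro s x y ⟨i, hi⟩
    rw [Lβ_eq hext x ((hgood i).edge_dom hi), Lβ_eq hext y ((hgood i).edge_dom
      ((st i).X.symm hi))]
    exact (hgood i).color hi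
  · rintro s x y ⟨i, hi⟩
    rw [Lω_eq hext s x hi, Lω_eq hext s y ((st i).X.symm hi)]
    exact (hgood i).anti hi
  · rintro s x y ⟨i, hi⟩
    rw [Lp_eq hext x ((hgood i).edge_dom hi), Lp_eq hext y ((hgood i).edge_dom
      ((st i).X.symm hi))]
    exact (hgood i).pot hi
  · intro x q
    obtain ⟨i, hi⟩ := x.2
    rcases eq_or_lt_of_le (T.hundred_le q) with hq | hq
    · exact charted_lim hext hgood x (hsub (Nat.le_succ i) hi) (hch i x.1 hi q (Or.inl hq.symm))
    · obtain ⟨w, hw1, hw2, hw3⟩ := T.long q hq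
      obtain ⟨y, hy⟩ := hread w x
      obtain ⟨j, hj, hxj⟩ := path_stage hext x y hy
      exact charted_lim hext hgood x (hsub (Nat.le_succ j) hxj)
        (hch j x.1 hxj q (Or.inr ⟨w, y.1, ⟨hw1, hj, hw2⟩, hw3⟩))
  · intro x y
    obtain ⟨i, hi⟩ := x.2
    obtain ⟨j, hj⟩ := y.2
    have hx := hsub (le_max_left i j) hi
    have hy := hsub (le_max_right i j) hj
    obtain ⟨x', hx', y', hy', n, hc, hn⟩ := (hgood (max i j)).q2 x.1 hx y.1 hy none none
      trivial trivial
    have e1 : x' = x.1 := hx'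
    have e2 : y' = y.1 := hy'
    subst e1 e2
    obtain ⟨_, hc'⟩ := conn_lim hext hgood hc hx
    refine ⟨n, hc', hn.trans (le_of_eq ?_)⟩
    congr 1
    rw [Lβ_eq hext x hx, Lβ_eq hext y hy]
    have e3 : (st (max i j)).OvWalls T x.1 none ∪ (st (max i j)).OvWalls T y.1 none = ∅ := by
      show (∅ : Set (Wt Q)) ∪ ∅ = ∅
      exact Set.union_empty _
    rw [e3, Set.sdiff_empty, Set.ncard_coe_finset]

end Pool.Agent.TH480.J869
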