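import Pool.Agent.TH480.MP325_SMAIN

/-!
MP_325b7c_co, job FINAL: from the two regimes to the theorem.
-/

set_option autoImplicit false

namespace Pool.Agent.TH480.FIN

open Finset Classical Pool.Agent.TH490
open Pool.Agent.TH480.SM (col_iff sum_deg card_pairs)

noncomputable section

lemma toZ_apply {N : ℕ} (x : Pos N) (i : Fin 3) : Pool.Agent.TH490.toZ x i = ((x i : ℕ) : ℤ) := rfl

/-! ### the moment curve -/

/-- positions on the moment curve -/
def mom (n M : ℕ) (h : n ^ 3 < M) (hM : 1 ≤ n) (i : Fin n) : Pos M :=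
  ![⟨i.1, by
      have := i.2
      nlinarith [Nat.pow_le_pow_right hM (show 1 ≤ 3 by norm_num)]⟩,
    ⟨i.1 ^ 2, by
      have h1 := i.2
      have h2 : i.1 ^ 2 ≤ n ^ 2 := Nat.pow_le_pow_left h1.le 2
      have h3 : n ^ 2 ≤ n ^ 3 := Nat.pow_le_pow_right hM (by norm_num)
      omega⟩,
    ⟨i.1 ^ 3, by
      have h1 := i.2
      have h2 : i.1 ^ 3 ≤ n ^ 3 := Nat.pow_le_pow_left h1.le 3
      omega⟩]

lemma mom0 (n M : ℕ) (h : n ^ 3 < M) (hM : 1 ≤ n) (i : Fin n) :
    toZ (mom n M h hM i) 0 = ((i : ℕ) : ℤ) := by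
  rw [toZ_apply]; simp [mom]

lemma mom1 (n M : ℕ) (h : n ^ 3 < M) (hM : 1 ≤ n) (i : Fin n) :
    toZ (mom n M h hM i) 1 = ((i : ℕ) : ℤ) ^ 2 := by
  rw [toZ_apply]; simp [mom]

lemma mom2 (n M : ℕ) (h : n ^ 3 < M) (hM : 1 ≤ n) (i : Fin n) :
    toZ (mom n M h hM i) 2 = ((i : ℕ) : ℤ) ^ 3 := by
  rw [toZ_apply]; simp [mom]

lemma fin_ne {n : ℕ} {i j : Fin n} (h : i ≠ j) : ((i : ℕ) : ℤ) - ((j : ℕ) : ℤ) ≠ 0 := by
  intro h'
  apply h
  have : ((i : ℕ) : ℤ) = ((j : ℕ) : ℤ) := by linarith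
  exact Fin.ext (by exact_mod_cast this)

lemma mom_real (n M : ℕ) (G : SimpleGraph (Fin n)) (h : n ^ 3 < M) (hM : 1 ≤ n) :
    Realz M G := by
  refine ⟨mom n M h hM, ?_, ?_, ?_⟩
  · intro i j hij
    by_contra hne
    have h1 : toZ (mom n M h hM i) 0 = toZ (mom n M h hM j) 0 := by rw [hij]
    rw [mom0, mom0] at h1
    exact fin_ne hne (by linarith)
  · intro u v w huv hwu hwv hc
    rw [col_iff] at hc
    obtain ⟨-, -, h2⟩ := hc
    simp only [mom0, mom1] at h2
    have h3 : (((v : ℕ) : ℤ) - ((u : ℕ) : ℤ)) * (((w : ℕ) : ℤ) - ((u : ℕ) : ℤ)) *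
        (((w : ℕ) : ℤ) - ((v : ℕ) : ℤ)) = 0 := by linear_combination h2
    exact mul_ne_zero (mul_ne_zero (fin_ne huv.ne') (fin_ne hwu)) (fin_ne hwv) h3
  · intro u v x y huv hxy hxu hxv hyu hyv hc
    unfold Cop dot cr at hc
    simp only [Pi.sub_apply, Matrix.cons_val_zero, Matrix.cons_val_one, Matrix.cons_val,
      mom0, mom1, mom2] at hc
    have h3 : (((v : ℕ) : ℤ) - ((u : ℕ) : ℤ)) * (((x : ℕ) : ℤ) - ((u : ℕ) : ℤ)) *
        (((x : ℕ) : ℤ) - ((v : ℕ) : ℤ)) * ((((y : ℕ) : ℤ) - ((u : ℕ) : ℤ)) *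
        (((y : ℕ) : ℤ) - ((v : ℕ) : ℤ)) * (((y : ℕ) : ℤ) - ((x : ℕ) : ℤ))) = 0 := by
      linear_combination hc
    exact mul_ne_zero (mul_ne_zero (mul_ne_zero (fin_ne huv.ne') (fin_ne hxu)) (fin_ne hxv))
      (mul_ne_zero (mul_ne_zero (fin_ne hyu) (fin_ne hyv)) (fin_ne hxy.ne')) h3

/-! ### graphs without isolated vertices -/

lemma n_le_2k {n k : ℕ} (G : SimpleGraph (Fin n)) (hk : G.edgeFinset.card = k)
    (hiso : ∀ v, ∃ w, G.Adj v w) : n ≤ 2 * k := by
  rw [← hk, ← sum_deg G]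
  calc n = ∑ _a : Fin n, 1 := by simp
    _ ≤ ∑ a : Fin n, (univ.filter (fun b => G.Adj a b)).card := by
      refine Finset.sum_le_sum (fun a _ => ?_)
      obtain ⟨w, hw⟩ := hiso a
      exact Finset.card_pos.2 ⟨w, by rw [mem_filter]; exact ⟨mem_univ _, hw⟩⟩

lemma n_pos {n k : ℕ} (G : SimpleGraph (Fin n)) (hk : G.edgeFinset.card = k) (hk1 : 1 ≤ k) :
    1 ≤ n := by
  by_contra h
  have h0 : n = 0 := by omega
  subst h0
  have h1 := sum_deg G
  rw [hk] at h1
  simp at h1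
  omega

theorem realize (hS : S_main) (hD : D_main) : ∃ K : ℝ, 0 < K ∧ ∀ (n : ℕ)
    (G : SimpleGraph (Fin n)) (k : ℕ), G.edgeFinset.card = k → 1 ≤ k →
    (∀ v, ∃ w, G.Adj v w) → ∃ N : ℕ, 1 ≤ N ∧ (N : ℝ) ^ 3 ≤ K * k * n ∧ Realz N G := by
  obtain ⟨C1, hC1, hS⟩ := hS
  obtain ⟨C2, hC2, hD⟩ := hD
  set C0 : ℝ := max (max C1 C2) 1 with hC0
  have hC01 : C1 ≤ C0 := (le_max_left _ _).trans (le_max_left _ _)
  have hC02 : C2 ≤ C0 := (le_max_right _ _).trans (le_max_left _ _)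
  have hC0' : 1 ≤ C0 := le_max_right _ _
  obtain ⟨N1, hN1⟩ := hS C0 hC01
  obtain ⟨N2, hN2⟩ := hD C0 hC02
  set N0 : ℕ := max N1 N2 + 10 with hN0
  set M : ℕ := (N0 ^ 3) ^ 3 + 1 with hM
  refine ⟨2 * C0 + (M : ℝ) ^ 3, by positivity, ?_⟩
  intro n G k hk hk1 hiso
  have hn2k := n_le_2k G hk hiso
  have hn1 := n_pos G hk hk1
  have hn1' : (1 : ℝ) ≤ (n : ℝ) := by exact_mod_cast hn1
  have hk1' : (1 : ℝ) ≤ (k : ℝ) := by exact_mod_cast hk1
  by_cases hbig : (N0 : ℝ) ^ 3 ≤ C0 * k * n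
  · -- large graphs
    have hex : ∃ N : ℕ, C0 * k * n ≤ (N : ℝ) ^ 3 := by
      obtain ⟨N, hN⟩ := exists_nat_ge (C0 * k * n)
      refine ⟨N + 1, hN.trans ?_⟩
      have h1 : (1 : ℝ) ≤ ((N + 1 : ℕ) : ℝ) := by exact_mod_cast Nat.le_add_left 1 N
      have h2 : (N : ℝ) ≤ ((N + 1 : ℕ) : ℝ) := by push_cast; linarith
      calc (N : ℝ) ≤ ((N + 1 : ℕ) : ℝ) := h2
        _ = ((N + 1 : ℕ) : ℝ) ^ 1 := by ring
        _ ≤ ((N + 1 : ℕ) : ℝ) ^ 3 := pow_le_pow_right₀ h1 (by norm_num)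
    set N := Nat.find hex with hNdef
    have hNspec : C0 * k * n ≤ (N : ℝ) ^ 3 := Nat.find_spec hex
    have hNN0 : N0 ≤ N := by
      by_contra h
      push Not at h
      have h1 : (N : ℝ) ^ 3 < (N0 : ℝ) ^ 3 := by
        have : (N : ℝ) < (N0 : ℝ) := by exact_mod_cast h
        gcongr
      linarith
    have hN10 : 10 ≤ N := by omega
    have hmin : ¬ C0 * k * n ≤ ((N - 1 : ℕ) : ℝ) ^ 3 := Nat.find_min hex (by omega)
    push Not at hmin
    have hupper : (N : ℝ) ^ 3 ≤ 2 * C0 * k * n := by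
      have h1 : ((N - 1 : ℕ) : ℝ) = (N : ℝ) - 1 := by
        rw [Nat.cast_sub (by omega)]; simp
      rw [h1] at hmin
      have h2 : (10 : ℝ) ≤ (N : ℝ) := by exact_mod_cast hN10
      have h3 : (N : ℝ) ≤ (10 / 9) * ((N : ℝ) - 1) := by linarith
      have h4 : (N : ℝ) ^ 3 ≤ ((10 / 9) * ((N : ℝ) - 1)) ^ 3 :=
        pow_le_pow_left₀ (by positivity) h3 3
      have h5 : ((10 / 9) * ((N : ℝ) - 1)) ^ 3 ≤ 2 * ((N : ℝ) - 1) ^ 3 := by
        have h6 : 0 ≤ ((N : ℝ) - 1) ^ 3 := by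
          apply pow_nonneg; linarith
        nlinarith
      nlinarith
    refine ⟨N, by omega, ?_, ?_⟩
    · have : 0 ≤ (M : ℝ) ^ 3 * k * n := by positivity
      nlinarith
    · rcases le_total (k * Real.log N ^ 3) ((n : ℝ) ^ 2) with hc | hc
      · exact hN1 N (by omega) n G k hk hk1 hiso hNspec hc
      · exact hN2 N (by omega) n G k hk hk1 hiso hNspec hupper hc
  · -- bounded graphs
    push Not at hbig
    have hn3 : n < N0 ^ 3 := by
      have h1 : (n : ℝ) < (N0 : ℝ) ^ 3 := by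
        calc (n : ℝ) = 1 * 1 * n := by ring
          _ ≤ C0 * k * n := by gcongr
          _ < (N0 : ℝ) ^ 3 := hbig
      exact_mod_cast h1
    have hn9 : n ^ 3 < M := by
      have : n ^ 3 ≤ (N0 ^ 3) ^ 3 := Nat.pow_le_pow_left hn3.le 3
      omega
    refine ⟨M, by omega, ?_, mom_real n M G hn9 hn1⟩
    have h1 : (1 : ℝ) ≤ k * n := by nlinarith
    have h2 : 0 ≤ 2 * C0 * (k * n) := by positivity
    have h3 : (M : ℝ) ^ 3 * 1 ≤ (M : ℝ) ^ 3 * (k * n) := by gcongr
    nlinarith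

/-! ### drawings -/

section Draw

variable {n : ℕ}

/-- the real point of an integer vector -/
def rl (a : V3) : Fin 3 → ℝ := fun i => (a i : ℝ)

lemma seg_iff (a b : V3) (z : Fin 3 → ℝ) : z ∈ segment ℝ (rl a) (rl b) ↔
    ∃ t : ℝ, 0 ≤ t ∧ t ≤ 1 ∧ ∀ i, z i = (a i : ℝ) + t * ((b i : ℝ) - (a i : ℝ)) := by
  rw [segment_eq_image']
  constructor
  · rintro ⟨t, ⟨h0, h1⟩, rfl⟩
    exact ⟨t, h0, h1, fun i => by simp [rl]⟩
  · rintro ⟨t, h0, h1, h⟩
    refine ⟨t, ⟨h0, h1⟩, ?_⟩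
    funext i
    rw [h i]
    simp [rl]

/-- collinearity of integer vectors -/
def ColZ (a b c : V3) : Prop := cr (b - a) (c - a) = 0

lemma colZ_iff (a b c : V3) : ColZ a b c ↔
    (b 1 - a 1) * (c 2 - a 2) - (b 2 - a 2) * (c 1 - a 1) = 0 ∧
    (b 2 - a 2) * (c 0 - a 0) - (b 0 - a 0) * (c 2 - a 2) = 0 ∧
    (b 0 - a 0) * (c 1 - a 1) - (b 1 - a 1) * (c 0 - a 0) = 0 := by
  unfold ColZ cr
  constructor
  · intro h
    have h0 := congrFun h 0
    have h1 := congrFun h 1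
    have h2 := congrFun h 2
    simp only [Pi.sub_apply, Matrix.cons_val_zero, Matrix.cons_val_one, Matrix.cons_val,
      Pi.zero_apply] at h0 h1 h2
    exact ⟨h0, h1, h2⟩
  · rintro ⟨h0, h1, h2⟩
    funext i
    fin_cases i
    · exact h0
    · exact h1
    · exact h2

/-- a real relation `b - a = r (c - a)` gives collinearity -/
lemma colZ_of (a b c : V3) (r s : ℝ) (hrs : r ≠ 0)
    (h : ∀ i, r * ((b i : ℝ) - a i) = s * ((c i : ℝ) - a i)) : ColZ a b c := by
  rw [colZ_iff]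
  have h0 := h 0
  have h1 := h 1
  have h2 := h 2
  refine ⟨?_, ?_, ?_⟩
  · have : ((((b 1 - a 1) * (c 2 - a 2) - (b 2 - a 2) * (c 1 - a 1) : ℤ)) : ℝ) = 0 := by
      push_cast
      have h3 : r * (((b 1 : ℝ) - a 1) * ((c 2 : ℝ) - a 2) -
          ((b 2 : ℝ) - a 2) * ((c 1 : ℝ) - a 1)) = 0 := by
        linear_combination ((c 2 : ℝ) - a 2) * h1 - ((c 1 : ℝ) - a 1) * h2
      exact (mul_eq_zero.1 h3).resolve_left hrs
    exact_mod_cast this
  · have : ((((b 2 - a 2) * (c 0 - a 0) - (b 0 - a 0) * (c 2 - a 2) : ℤ)) : ℝ) = 0 := by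
      push_cast
      have h3 : r * (((b 2 : ℝ) - a 2) * ((c 0 : ℝ) - a 0) -
          ((b 0 : ℝ) - a 0) * ((c 2 : ℝ) - a 2)) = 0 := by
        linear_combination ((c 0 : ℝ) - a 0) * h2 - ((c 2 : ℝ) - a 2) * h0
      exact (mul_eq_zero.1 h3).resolve_left hrs
    exact_mod_cast this
  · have : ((((b 0 - a 0) * (c 1 - a 1) - (b 1 - a 1) * (c 0 - a 0) : ℤ)) : ℝ) = 0 := by
      push_cast
      have h3 : r * (((b 0 : ℝ) - a 0) * ((c 1 : ℝ) - a 1) -
          ((b 1 : ℝ) - a 1) * ((c 0 : ℝ) - a 0)) = 0 := by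
        linear_combination ((c 1 : ℝ) - a 1) * h0 - ((c 0 : ℝ) - a 0) * h1
      exact (mul_eq_zero.1 h3).resolve_left hrs
    exact_mod_cast this

/-- coplanarity of integer vectors -/
def CopZ (a b c d : V3) : Prop := dot (cr (b - a) (c - a)) (d - a) = 0

lemma copZ_of (a b c d : V3) (t s : ℝ)
    (h : ∀ i, (a i : ℝ) + t * ((b i : ℝ) - a i) = (c i : ℝ) + s * ((d i : ℝ) - c i)) :
    CopZ a b c d := by
  unfold CopZ dot cr
  simp only [Pi.sub_apply, Matrix.cons_val_zero, Matrix.cons_val_one, Matrix.cons_val]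
  have h0 := h 0
  have h1 := h 1
  have h2 := h 2
  have key : ((((b 1 - a 1) * (c 2 - a 2) - (b 2 - a 2) * (c 1 - a 1)) * (d 0 - a 0) +
      ((b 2 - a 2) * (c 0 - a 0) - (b 0 - a 0) * (c 2 - a 2)) * (d 1 - a 1) +
      ((b 0 - a 0) * (c 1 - a 1) - (b 1 - a 1) * (c 0 - a 0)) * (d 2 - a 2) : ℤ) : ℝ) = 0 := by
    push_cast
    set a0 : ℝ := (a 0 : ℝ)
    set a1 : ℝ := (a 1 : ℝ)
    set a2 : ℝ := (a 2 : ℝ)
    set b0 : ℝ := (b 0 : ℝ) - a0 with hb0
    set b1 : ℝ := (b 1 : ℝ) - a1 with hb1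
    set b2 : ℝ := (b 2 : ℝ) - a2 with hb2
    set c0 : ℝ := (c 0 : ℝ) - a0 with hc0
    set c1 : ℝ := (c 1 : ℝ) - a1 with hc1
    set c2 : ℝ := (c 2 : ℝ) - a2 with hc2
    set d0 : ℝ := (d 0 : ℝ) - a0 with hd0
    set d1 : ℝ := (d 1 : ℝ) - a1 with hd1
    set d2 : ℝ := (d 2 : ℝ) - a2 with hd2
    have e0 : t * b0 = (1 - s) * c0 + s * d0 := by
      rw [hb0, hc0, hd0]; linear_combination h0
    have e1 : t * b1 = (1 - s) * c1 + s * d1 := by
      rw [hb1, hc1, hd1]; linear_combination h1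
    have e2 : t * b2 = (1 - s) * c2 + s * d2 := by
      rw [hb2, hc2, hd2]; linear_combination h2
    clear_value b0 b1 b2 c0 c1 c2 d0 d1 d2
    have f1 : s * ((b1 * c2 - b2 * c1) * d0 + (b2 * c0 - b0 * c2) * d1 +
        (b0 * c1 - b1 * c0) * d2) = 0 := by
      linear_combination (-(b1 * c2 - b2 * c1)) * e0 - (b2 * c0 - b0 * c2) * e1 -
        (b0 * c1 - b1 * c0) * e2
    have f2 : (1 - s) * ((b1 * c2 - b2 * c1) * d0 + (b2 * c0 - b0 * c2) * d1 +
        (b0 * c1 - b1 * c0) * d2) = 0 := by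
      linear_combination (-(d1 * b2 - d2 * b1)) * e0 - (d2 * b0 - d0 * b2) * e1 -
        (d0 * b1 - d1 * b0) * e2
    linear_combination f1 + f2
  exact_mod_cast key

/-- the conditions of a drawing -/
theorem drawing (G : SimpleGraph (Fin n)) (f : Fin n → V3) (N : ℤ)
    (hlow : ∀ v, (∃ w, G.Adj v w) → f v 2 < N)
    (hhigh : ∀ v, (¬ ∃ w, G.Adj v w) → N ≤ f v 2)
    (hcol : ∀ u v w, G.Adj u v → (∃ x, G.Adj w x) → w ≠ u → w ≠ v → ¬ ColZ (f u) (f v) (f w))
    (hcop : ∀ u v x y, G.Adj u v → G.Adj x y → x ≠ u → x ≠ v → y ≠ u → y ≠ v →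
      ¬ CopZ (f u) (f v) (f x) (f y)) :
    (∀ u v w : Fin n, G.Adj u v → w ≠ u → w ≠ v →
          rl (f w) ∉ segment ℝ (rl (f u)) (rl (f v))) ∧
    (∀ u v x y : Fin n, G.Adj u v → G.Adj x y → s(u, v) ≠ s(x, y) →
          ∀ z ∈ segment ℝ (rl (f u)) (rl (f v)),
            z ∈ segment ℝ (rl (f x)) (rl (f y)) →
              (z = rl (f u) ∨ z = rl (f v)) ∧ (z = rl (f x) ∨ z = rl (f y))) := by
  constructor
  · intro u v w huv hwu hwv hz
    rw [seg_iff] at hz
    obtain ⟨t, ht0, ht1, h⟩ := hz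
    by_cases hw : ∃ x, G.Adj w x
    · refine hcol u v w huv hw hwu hwv ?_
      have : ColZ (f u) (f w) (f v) := by
        refine colZ_of _ _ _ 1 t one_ne_zero (fun i => ?_)
        have := h i
        simp only [rl] at this
        linear_combination this
      rw [colZ_iff] at this ⊢
      obtain ⟨h0, h1, h2⟩ := this
      exact ⟨by linear_combination (-1 : ℤ) * h0, by linear_combination (-1 : ℤ) * h1,
        by linear_combination (-1 : ℤ) * h2⟩
    · have h2 := h 2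
      simp only [rl] at h2
      have hu : (f u 2 : ℝ) < (N : ℝ) := by exact_mod_cast hlow u ⟨v, huv⟩
      have hv : (f v 2 : ℝ) < (N : ℝ) := by exact_mod_cast hlow v ⟨u, huv.symm⟩
      have hw' : (N : ℝ) ≤ (f w 2 : ℝ) := by exact_mod_cast hhigh w hw
      rw [h2] at hw'
      have e1 : (f u 2 : ℝ) + t * ((f v 2 : ℝ) - f u 2) =
          (1 - t) * (f u 2 : ℝ) + t * (f v 2 : ℝ) := by ring
      rw [e1] at hw'
      rcases eq_or_lt_of_le ht0 with h0 | h0
      · rw [← h0] at hw'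
        linarith
      · have g1 : t * (f v 2 : ℝ) < t * N := mul_lt_mul_of_pos_left hv h0
        have g2 : (1 - t) * (f u 2 : ℝ) ≤ (1 - t) * N :=
          mul_le_mul_of_nonneg_left hu.le (by linarith)
        linarith
  · -- two edges with a common end
    have key : ∀ u v y, G.Adj u v → G.Adj u y → v ≠ y →
        ∀ z ∈ segment ℝ (rl (f u)) (rl (f v)), z ∈ segment ℝ (rl (f u)) (rl (f y)) →
        z = rl (f u) := by
      intro u v y huv huy hvy z hz hz'
      rw [seg_iff] at hz hz'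
      obtain ⟨t, ht0, ht1, h⟩ := hz
      obtain ⟨s, hs0, hs1, h'⟩ := hz'
      by_cases ht : t = 0
      · funext i
        rw [h i, ht]
        simp [rl]
      · exfalso
        refine hcol u v y huv ⟨u, huy.symm⟩ huy.ne' hvy.symm ?_
        refine colZ_of _ _ _ t s ht (fun i => ?_)
        have e1 := h i
        have e2 := h' i
        linear_combination e2 - e1
    intro u v x y huv hxy hne z hz hz'
    have hne1 : ¬ (u = x ∧ v = y) := by
      rintro ⟨rfl, rfl⟩; exact hne rfl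
    have hne2 : ¬ (u = y ∧ v = x) := by
      rintro ⟨rfl, rfl⟩; exact hne (Sym2.eq_swap)
    by_cases h1 : x = u
    · subst h1
      have := key x v y huv hxy (fun h => hne1 ⟨rfl, h⟩) z hz hz'
      exact ⟨Or.inl this, Or.inl this⟩
    · by_cases h2 : y = u
      · subst h2
        rw [segment_symm ℝ (rl (f x))] at hz'
        have := key y v x huv hxy.symm (fun h => hne2 ⟨rfl, h⟩) z hz hz'
        exact ⟨Or.inl this, Or.inr this⟩
      · by_cases h3 : x = v
        · subst h3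
          rw [segment_symm ℝ (rl (f u))] at hz
          have := key x u y huv.symm hxy (fun h => hne2 ⟨h, rfl⟩) z hz hz'
          exact ⟨Or.inr this, Or.inl this⟩
        · by_cases h4 : y = v
          · subst h4
            rw [segment_symm ℝ (rl (f u))] at hz
            rw [segment_symm ℝ (rl (f x))] at hz'
            have := key y u x huv.symm hxy.symm (fun h => hne1 ⟨h, rfl⟩) z hz hz'
            exact ⟨Or.inr this, Or.inr this⟩
          · exfalso
            refine hcop u v x y huv hxy h1 h3 h2 h4 ?_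
            rw [seg_iff] at hz hz'
            obtain ⟨t, ht0, ht1, h⟩ := hz
            obtain ⟨s, hs0, hs1, h'⟩ := hz'
            refine copZ_of _ _ _ _ t s (fun i => ?_)
            rw [← h i, ← h' i]

end Draw

/-! ### the theorem -/

/-- position of the isolated vertex of index `i` -/
def isoPos (N i : ℕ) : V3 := ![((i % N : ℕ) : ℤ), (((i / N) % N : ℕ) : ℤ),
  ((N + i / (N * N) : ℕ) : ℤ)]

lemma isoPos_inj (N i j : ℕ) (h : isoPos N i = isoPos N j) : i = j := by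
  have h0 := congrFun h 0
  have h1 := congrFun h 1
  have h2 := congrFun h 2
  simp only [isoPos, Matrix.cons_val_zero, Matrix.cons_val_one, Matrix.cons_val] at h0 h1 h2
  have g0 : i % N = j % N := by exact_mod_cast h0
  have g1 : i / N % N = j / N % N := by exact_mod_cast h1
  have g2 : N + i / (N * N) = N + j / (N * N) := by exact_mod_cast h2
  rw [← Nat.div_div_eq_div_mul, ← Nat.div_div_eq_div_mul] at g2
  have g3 : i / N / N = j / N / N := by omega
  have g4 : i / N = j / N := by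
    rw [← Nat.div_add_mod (i / N) N, ← Nat.div_add_mod (j / N) N, g1, g3]
  rw [← Nat.div_add_mod i N, ← Nat.div_add_mod j N, g0, g4]

lemma edges_eq {n m : ℕ} (G : SimpleGraph (Fin n)) (G' : SimpleGraph (Fin m))
    (σ : Fin m → Fin n) (hσ : Function.Injective σ)
    (hadj : ∀ i j, G'.Adj i j ↔ G.Adj (σ i) (σ j))
    (hr : ∀ u, (∃ w, G.Adj u w) → ∃ i, σ i = u) : G'.edgeFinset.card = G.edgeFinset.card := by
  have h1 := card_pairs G
  have h2 := card_pairs G'
  have h3 : (univ.filter (fun t : Fin m × Fin m => G'.Adj t.1 t.2)).card =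
      (univ.filter (fun t : Fin n × Fin n => G.Adj t.1 t.2)).card := by
    refine Finset.card_bij (fun t _ => (σ t.1, σ t.2)) ?_ ?_ ?_
    · intro t ht
      rw [mem_filter] at ht ⊢
      exact ⟨mem_univ _, (hadj _ _).1 ht.2⟩
    · intro s _ t _ hst
      simp only [Prod.mk.injEq] at hst
      exact Prod.ext (hσ hst.1) (hσ hst.2)
    · rintro ⟨u, v⟩ huv
      rw [mem_filter] at huv
      obtain ⟨i, rfl⟩ := hr u ⟨v, huv.2⟩
      obtain ⟨j, rfl⟩ := hr v ⟨_, huv.2.symm⟩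
      refine ⟨(i, j), ?_, rfl⟩
      rw [mem_filter]
      exact ⟨mem_univ _, (hadj _ _).2 huv.2⟩
  omega

theorem ffinal : S_main → D_main → F_final := by
  intro hS hD
  obtain ⟨K, hK, hreal⟩ := realize hS hD
  refine ⟨2 * K + 1, ?_⟩
  intro n G
  by_cases hk0 : G.edgeFinset.card = 0
  · -- no edges
    have hno : ∀ u v, ¬ G.Adj u v := by
      intro u v h
      have : s(u, v) ∈ G.edgeFinset := by
        rw [SimpleGraph.mem_edgeFinset]; exact h
      rw [Finset.card_eq_zero] at hk0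
      rw [hk0] at this
      exact absurd this (Finset.notMem_empty _)
    refine ⟨fun v => ![((v : ℕ) : ℤ), 0, 0], ![n, 1, 1], ?_, ?_, ?_, ?_, ?_⟩
    · intro v i
      fin_cases i
      · simp
      · simp
      · simp
    · intro u v h
      have h0 := congrFun h 0
      simp only [Matrix.cons_val_zero] at h0
      exact Fin.ext (by exact_mod_cast h0)
    · intro u v w h
      exact absurd h (hno u v)
    · intro u v x y h
      exact absurd h (hno u v)
    · rw [Fin.prod_univ_three]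
      simp only [Matrix.cons_val_zero, Matrix.cons_val_one, Matrix.cons_val, mul_one]
      have h1 : (0 : ℝ) ≤ (G.edgeSet.ncard : ℝ) := by positivity
      have h2 : (0 : ℝ) ≤ (n : ℝ) := by positivity
      have h3 : (1 : ℝ) ≤ (2 * K + 1) * ((G.edgeSet.ncard : ℝ) + 1) := by nlinarith
      nlinarith
  · -- at least one edge
    have hk1 : 1 ≤ G.edgeFinset.card := Nat.one_le_iff_ne_zero.2 hk0
    let V' := {v : Fin n // ∃ w, G.Adj v w}
    let V0 := {v : Fin n // ¬ ∃ w, G.Adj v w}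
    let e : V' ≃ Fin (Fintype.card V') := Fintype.equivFin V'
    let e0 : V0 ≃ Fin (Fintype.card V0) := Fintype.equivFin V0
    let G' : SimpleGraph (Fin (Fintype.card V')) := G.comap (fun i => (e.symm i).1)
    have hadj : ∀ i j, G'.Adj i j ↔ G.Adj (e.symm i).1 (e.symm j).1 := fun i j => Iff.rfl
    have hadj' : ∀ (u v : V'), G.Adj u.1 v.1 → G'.Adj (e u) (e v) := by
      intro u v h
      rw [hadj, e.symm_apply_apply, e.symm_apply_apply]
      exact h
    -- the number of edges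
    have hedge := edges_eq G G' (fun i => (e.symm i).1)
      (fun i j h => e.symm.injective (Subtype.ext h)) hadj
      (fun u hu => ⟨e ⟨u, hu⟩, by simp⟩)
    have hiso' : ∀ i, ∃ j, G'.Adj i j := by
      intro i
      obtain ⟨w, hw⟩ := (e.symm i).2
      refine ⟨e ⟨w, ⟨_, hw.symm⟩⟩, ?_⟩
      rw [hadj, e.symm_apply_apply]
      exact hw
    obtain ⟨N, hN1, hNvol, p, hpinj, hpcol, hpcop⟩ :=
      hreal (Fintype.card V') G' G.edgeFinset.card hedge hk1 hiso'
    let f : Fin n → V3 := fun v => if h : ∃ w, G.Adj v w then toZ (p (e ⟨v, h⟩)) else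
      isoPos N (e0 ⟨v, h⟩).1
    have hf : ∀ v (h : ∃ w, G.Adj v w), f v = toZ (p (e ⟨v, h⟩)) := fun v h => dif_pos h
    have hf0 : ∀ v (h : ¬ ∃ w, G.Adj v w), f v = isoPos N (e0 ⟨v, h⟩).1 := fun v h => dif_neg h
    have htoZ : ∀ x y : Pos N, toZ x = toZ y → x = y := by
      intro x y h
      funext i
      have := congrFun h i
      rw [toZ_apply, toZ_apply] at this
      exact Fin.ext (by exact_mod_cast this)
    have hlow : ∀ v, (∃ w, G.Adj v w) → f v 2 < (N : ℤ) := by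
      intro v h
      rw [hf v h, toZ_apply]
      exact_mod_cast (p (e ⟨v, h⟩) 2).2
    have hhigh : ∀ v, (¬ ∃ w, G.Adj v w) → (N : ℤ) ≤ f v 2 := by
      intro v h
      rw [hf0 v h]
      simp only [isoPos, Matrix.cons_val]
      push_cast
      have : (0 : ℤ) ≤ (((e0 ⟨v, h⟩).1 : ℕ) : ℤ) / ((N : ℤ) * (N : ℤ)) := by positivity
      linarith
    have hne : ∀ u v (hu : ∃ w, G.Adj u w) (hv : ∃ w, G.Adj v w), u ≠ v →
        e ⟨u, hu⟩ ≠ e ⟨v, hv⟩ := by
      intro u v hu hv h h'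
      exact h (congrArg Subtype.val (e.injective h'))
    obtain ⟨hdraw1, hdraw2⟩ := drawing G f (N : ℤ) hlow hhigh
      (by
        intro u v w huv hw hwu hwv hc
        have hu : ∃ w, G.Adj u w := ⟨v, huv⟩
        have hv : ∃ w, G.Adj v w := ⟨u, huv.symm⟩
        rw [hf u hu, hf v hv, hf w hw] at hc
        exact hpcol _ _ _ (hadj' ⟨u, hu⟩ ⟨v, hv⟩ huv) (hne w u hw hu hwu) (hne w v hw hv hwv) hc)
      (by
        intro u v x y huv hxy hxu hxv hyu hyv hc
        have hu : ∃ w, G.Adj u w := ⟨v, huv⟩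
        have hv : ∃ w, G.Adj v w := ⟨u, huv.symm⟩
        have hx : ∃ w, G.Adj x w := ⟨y, hxy⟩
        have hy : ∃ w, G.Adj y w := ⟨x, hxy.symm⟩
        rw [hf u hu, hf v hv, hf x hx, hf y hy] at hc
        exact hpcop _ _ _ _ (hadj' ⟨u, hu⟩ ⟨v, hv⟩ huv) (hadj' ⟨x, hx⟩ ⟨y, hy⟩ hxy)
          (hne x u hx hu hxu) (hne x v hx hv hxv) (hne y u hy hu hyu) (hne y v hy hv hyv) hc)
    have hN0 : 0 < N := hN1
    refine ⟨f, ![N, N, N + Fintype.card V0 / (N * N) + 1], ?_, ?_, hdraw1, hdraw2, ?_⟩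
    · intro v i
      by_cases h : ∃ w, G.Adj v w
      · rw [hf v h, toZ_apply]
        refine ⟨by positivity, ?_⟩
        fin_cases i
        · change ((p (e ⟨v, h⟩) 0 : ℕ) : ℤ) < ((N : ℕ) : ℤ)
          exact_mod_cast (p (e ⟨v, h⟩) 0).2
        · change ((p (e ⟨v, h⟩) 1 : ℕ) : ℤ) < ((N : ℕ) : ℤ)
          exact_mod_cast (p (e ⟨v, h⟩) 1).2
        · change ((p (e ⟨v, h⟩) 2 : ℕ) : ℤ) < ((N + Fintype.card V0 / (N * N) + 1 : ℕ) : ℤ)
          have := (p (e ⟨v, h⟩) 2).2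
          have h3 : (p (e ⟨v, h⟩) 2 : ℕ) < N + Fintype.card V0 / (N * N) + 1 := by
            have h4 := Nat.zero_le (Fintype.card V0 / (N * N))
            omega
          exact_mod_cast h3
      · rw [hf0 v h]
        have hlt := (e0 ⟨v, h⟩).2
        have hdiv : (e0 ⟨v, h⟩).1 / (N * N) ≤ Fintype.card V0 / (N * N) :=
          Nat.div_le_div_right hlt.le
        fin_cases i
        · change 0 ≤ (((e0 ⟨v, h⟩).1 % N : ℕ) : ℤ) ∧ (((e0 ⟨v, h⟩).1 % N : ℕ) : ℤ) < ((N : ℕ) : ℤ)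
          exact ⟨Int.natCast_nonneg _, by exact_mod_cast Nat.mod_lt _ hN0⟩
        · change 0 ≤ (((e0 ⟨v, h⟩).1 / N % N : ℕ) : ℤ) ∧
            (((e0 ⟨v, h⟩).1 / N % N : ℕ) : ℤ) < ((N : ℕ) : ℤ)
          exact ⟨Int.natCast_nonneg _, by exact_mod_cast Nat.mod_lt _ hN0⟩
        · change 0 ≤ ((N + (e0 ⟨v, h⟩).1 / (N * N) : ℕ) : ℤ) ∧
            ((N + (e0 ⟨v, h⟩).1 / (N * N) : ℕ) : ℤ) <
              ((N + Fintype.card V0 / (N * N) + 1 : ℕ) : ℤ)
          have h3 : N + (e0 ⟨v, h⟩).1 / (N * N) < N + Fintype.card V0 / (N * N) + 1 := by omega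
          exact ⟨Int.natCast_nonneg _, by exact_mod_cast h3⟩
    · intro u v huv
      by_cases hu : ∃ w, G.Adj u w
      · by_cases hv : ∃ w, G.Adj v w
        · rw [hf u hu, hf v hv] at huv
          have := e.injective (hpinj (htoZ _ _ huv))
          exact congrArg Subtype.val this
        · have h1 := hlow u hu
          have h2 := hhigh v hv
          rw [huv] at h1
          omega
      · by_cases hv : ∃ w, G.Adj v w
        · have h1 := hlow v hv
          have h2 := hhigh u hu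
          rw [huv] at h2
          omega
        · rw [hf0 u hu, hf0 v hv] at huv
          have h1 := isoPos_inj _ _ _ huv
          have := e0.injective (Fin.ext h1)
          exact congrArg Subtype.val this
    · rw [Fin.prod_univ_three]
      simp only [Matrix.cons_val_zero, Matrix.cons_val_one, Matrix.cons_val]
      have hcardk : G.edgeSet.ncard = G.edgeFinset.card := by
        rw [← SimpleGraph.coe_edgeFinset, Set.ncard_coe_finset]
      rw [hcardk]
      have hV' : Fintype.card V' ≤ n := by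
        have := Fintype.card_subtype_le (fun v : Fin n => ∃ w, G.Adj v w)
        rw [Fintype.card_fin] at this
        exact this
      have hV0 : Fintype.card V0 ≤ n := by
        have := Fintype.card_subtype_le (fun v : Fin n => ¬ ∃ w, G.Adj v w)
        rw [Fintype.card_fin] at this
        exact this
      have h1 : N * N * (N + Fintype.card V0 / (N * N) + 1) ≤ 2 * N ^ 3 + n := by
        have h2 : N * N * (Fintype.card V0 / (N * N)) ≤ Fintype.card V0 := Nat.mul_div_le _ _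
        have h3 : N * N ≤ N ^ 3 := by
          calc N * N = N * N * 1 := by ring
            _ ≤ N * N * N := Nat.mul_le_mul_left _ hN1
            _ = N ^ 3 := by ring
        calc N * N * (N + Fintype.card V0 / (N * N) + 1)
            = N ^ 3 + N * N * (Fintype.card V0 / (N * N)) + N * N := by ring
          _ ≤ N ^ 3 + n + N ^ 3 := by omega
          _ = 2 * N ^ 3 + n := by ring
      have h1' : ((N * N * (N + Fintype.card V0 / (N * N) + 1) : ℕ) : ℝ) ≤
          2 * (N : ℝ) ^ 3 + n := by exact_mod_cast h1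
      have hV'' : (Fintype.card V' : ℝ) ≤ (n : ℝ) := by exact_mod_cast hV'
      have hkk : (0 : ℝ) ≤ (G.edgeFinset.card : ℝ) := by positivity
      have hnn : (0 : ℝ) ≤ (n : ℝ) := by positivity
      have h2 : (N : ℝ) ^ 3 ≤ K * (G.edgeFinset.card : ℝ) * n := by
        refine hNvol.trans ?_
        gcongr
      refine h1'.trans ?_
      have h3 : 0 ≤ K * n := by positivity
      have h4 : 0 ≤ (G.edgeFinset.card : ℝ) * n := by positivity
      nlinarith

end

end Pool.Agent.TH480.FIN
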