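import Pool.Agent.TH477.PA.Hall
set_option autoImplicit false
open Finset Pool.Agent.TH477.PA

namespace Pool.Agent.TH480.J677

lemma log_pow_lt {a b m n : ℕ} (ha : 1 ≤ a) (h : a ^ m < b ^ n) :
    (m : ℝ) * Real.log a < n * Real.log b := by
  rw [← Real.log_pow, ← Real.log_pow]
  have h1 : (0 : ℝ) < (a : ℝ) ^ m := by
    have : (0 : ℝ) < a := by exact_mod_cast ha
    positivity
  exact Real.log_lt_log h1 (by exact_mod_cast h)

lemma log_pow_le {a b m n : ℕ} (ha : 1 ≤ a) (h : a ^ m ≤ b ^ n) :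
    (m : ℝ) * Real.log a ≤ n * Real.log b := by
  rw [← Real.log_pow, ← Real.log_pow]
  have h1 : (0 : ℝ) < (a : ℝ) ^ m := by
    have : (0 : ℝ) < a := by exact_mod_cast ha
    positivity
  exact Real.log_le_log h1 (by exact_mod_cast h)

/-- The condition that there is a structure (other than Turan) at least as good. -/
def KW (k s r : ℕ) : Prop :=
  r < s ∨ r ^ (k - 2) < (s - 1) ^ (k - 1) ∨
    ∃ p c, k ≤ 2 * p ∧ p + c + (k.choose 2 + 1 - s) = k ∧ 2 ≤ c ∧ r ^ (k - 1 - p) ≤ c ^ (k - 1)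

lemma KW_mono {k s r r' : ℕ} (h : KW k s r) (hr : r' ≤ r) : KW k s r' := by
  rcases h with h | h | ⟨p, c, h1, h2, h3, h4⟩
  · exact Or.inl (by omega)
  · exact Or.inr (Or.inl ((Nat.pow_le_pow_left hr _).trans_lt h))
  · exact Or.inr (Or.inr ⟨p, c, h1, h2, h3, (Nat.pow_le_pow_left hr _).trans h4⟩)

lemma exists_not_KW {k s : ℕ} (hk : 3 ≤ k) (hsk : s ≤ k.choose 2) : ∃ r, ¬ KW k s r := by
  refine ⟨s + (s - 1) ^ (k - 1) + k ^ (k - 1) + 1, ?_⟩
  generalize hR : s + (s - 1) ^ (k - 1) + k ^ (k - 1) + 1 = R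
  rintro (h | h | ⟨p, c, h1, h2, h3, h4⟩)
  · omega
  · have h5 : R ≤ R ^ (k - 2) := Nat.le_self_pow (by omega) R
    omega
  · have h5 : R ≤ R ^ (k - 1 - p) := Nat.le_self_pow (by omega) R
    have h6 : c ^ (k - 1) ≤ k ^ (k - 1) := Nat.pow_le_pow_left (by omega) _
    omega

section

variable (k D r : ℕ)

/-- The admissible numbers of classes. -/
noncomputable def Adm : Finset ℕ := by
  classical
  exact (Finset.range k).filter (fun p => 1 ≤ p ∧ (p = 1 ∨ (k ≤ 2 * p ∧ (p = k - 1 ∨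
    2 ≤ ct k D p))))

/-- The loss of a structure. -/
noncomputable def w (p : ℕ) : ℝ := (Real.log r - Real.log ((ct k D p : ℕ) : ℝ)) / p

variable {k D r}

lemma mem_Adm {p : ℕ} : p ∈ Adm k D ↔ p < k ∧ 1 ≤ p ∧ (p = 1 ∨ (k ≤ 2 * p ∧ (p = k - 1 ∨
    2 ≤ ct k D p))) := by
  classical
  unfold Adm
  rw [Finset.mem_filter, Finset.mem_range]

lemma isType_iff {ℓ : ℝ} {p : ℕ} : IsType k D r ℓ p ↔ p ∈ Adm k D ∧ w k D r p = ℓ := by
  rw [mem_Adm, IsType]
  constructor
  · rintro ⟨h1, h2, h3, h4⟩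
    refine ⟨⟨by omega, h1, h3⟩, ?_⟩
    have hp : (0 : ℝ) < p := by exact_mod_cast h1
    rw [w, div_eq_iff hp.ne', ← h4, mul_comm]
  · rintro ⟨⟨h0, h1, h3⟩, h4⟩
    refine ⟨h1, by omega, h3, ?_⟩
    have hp : (0 : ℝ) < p := by exact_mod_cast h1
    rw [w, div_eq_iff hp.ne'] at h4
    rw [h4, mul_comm]

lemma ct_one : ct k D 1 = k.choose 2 - D := by
  unfold ct
  rw [if_pos rfl]

lemma ct_top (hk : 3 ≤ k) (hD : 1 ≤ D) : ct k D (k - 1) = 0 := by
  unfold ct
  rw [if_neg (by omega)]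
  omega

lemma w_top (hk : 3 ≤ k) (hD : 1 ≤ D) : ((k - 1 : ℕ) : ℝ) * w k D r (k - 1) = Real.log r := by
  have hp : (0 : ℝ) < ((k - 1 : ℕ) : ℝ) := by exact_mod_cast (by omega : 0 < k - 1)
  rw [w, ct_top hk hD, mul_div_cancel₀ _ hp.ne']
  simp

lemma le_choose (hk : 3 ≤ k) : k ≤ k.choose 2 := by
  rw [Nat.choose_two_right]
  obtain ⟨m, rfl⟩ : ∃ m, k = m + 3 := ⟨k - 3, by omega⟩
  rw [Nat.le_div_iff_mul_le (by norm_num)]
  have : m + 3 - 1 = m + 2 := rfl
  rw [this]
  nlinarith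

lemma w_pos (hk : 3 ≤ k) (hD : 1 ≤ D) (hr : k.choose 2 < r + D) (hr3 : 3 ≤ r) {p : ℕ}
    (hp : p ∈ Adm k D) : 0 < w k D r p := by
  rw [mem_Adm] at hp
  have hp0 : (0 : ℝ) < p := by exact_mod_cast hp.2.1
  refine div_pos ?_ hp0
  have hlt : ct k D p < r := by
    unfold ct
    have := le_choose hk
    split_ifs with h
    · omega
    · omega
  rcases Nat.eq_zero_or_pos (ct k D p) with h0 | h0
  · rw [h0]
    simp only [Nat.cast_zero, Real.log_zero, sub_zero]
    exact Real.log_pos (by exact_mod_cast (by omega : 1 < r))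
  · have := log_lt h0 hlt
    linarith

/-- The optimal loss. -/
theorem exists_min (hk : 3 ≤ k) : ∃ p ∈ Adm k D, ∀ q ∈ Adm k D, w k D r p ≤ w k D r q := by
  refine Finset.exists_min_image _ _ ⟨1, ?_⟩
  rw [mem_Adm]
  exact ⟨by omega, le_rfl, Or.inl rfl⟩

lemma opt_of (hk : 3 ≤ k) (hD : 1 ≤ D) (hDC : D + 2 ≤ k.choose 2) (hr : k.choose 2 < r + D)
    {ℓ : ℝ} (hpos : 0 < ℓ) (h : ∀ q ∈ Adm k D, ℓ ≤ w k D r q) : Opt k D r ℓ := by
  refine ⟨hk, hD, hDC, hr, hpos, ?_, ?_, ?_⟩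
  · rw [← w_top (r := r) hk hD]
    exact mul_le_mul_of_nonneg_left (h _ (mem_Adm.2 ⟨by omega, by omega, Or.inr ⟨by omega,
      Or.inl rfl⟩⟩)) (Nat.cast_nonneg _)
  · have h1 := h 1 (mem_Adm.2 ⟨by omega, le_rfl, Or.inl rfl⟩)
    rwa [w, ct_one, Nat.cast_one, div_one] at h1
  · intro p c h1 h2 h3
    have hp1 : p ≠ 1 := by omega
    have hct : ct k D p = c := by
      unfold ct
      rw [if_neg hp1]
      omega
    have h4 := h p (mem_Adm.2 ⟨by omega, by omega, Or.inr ⟨h1, Or.inr (by omega)⟩⟩)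
    have hp : (0 : ℝ) < p := by exact_mod_cast (by omega : 0 < p)
    rw [w, hct, le_div_iff₀ hp] at h4
    linarith

end

theorem J18_cases (k s : ℕ) (hk : 3 ≤ k) (hs : 3 ≤ s) (hsk : s ≤ k.choose 2) :
    ∃ rstar : ℕ, (∀ r, r < s → r < rstar) ∧ ∀ r, s ≤ r →
      (r < rstar → ∃ (ℓ : ℝ) (p : ℕ), Opt k (k.choose 2 + 1 - s) r ℓ ∧
        IsType k (k.choose 2 + 1 - s) r ℓ p ∧ p ≠ k - 1 ∧
        (((k - 1 : ℕ) : ℝ) * ℓ < Real.log r ∨ (((k - 1 : ℕ) : ℝ) * ℓ = Real.log r ∧ 2 ≤ p))) ∧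
      (rstar ≤ r → ∃ ℓ : ℝ, Opt k (k.choose 2 + 1 - s) r ℓ ∧
        ((k - 1 : ℕ) : ℝ) * ℓ = Real.log r ∧
        ∀ p, IsType k (k.choose 2 + 1 - s) r ℓ p → p = 1 ∨ p = k - 1) := by
  classical
  have hex := exists_not_KW hk hsk
  have hfind := Nat.find_spec hex
  have hlt : ∀ r, r < Nat.find hex → KW k s r := fun r hr => by
    by_contra h
    exact Nat.find_min hex hr h
  have hge : ∀ r, Nat.find hex ≤ r → ¬ KW k s r := fun r hr h => hfind (KW_mono h hr)
  refine ⟨Nat.find hex, ?_, ?_⟩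
  · intro r hr
    by_contra h
    exact hge r (not_lt.1 h) (Or.inl hr)
  · intro r hr
    obtain ⟨D, hD⟩ : ∃ D, D = k.choose 2 + 1 - s := ⟨_, rfl⟩
    rw [← hD]
    have hD1 : 1 ≤ D := by omega
    have hDC : D + 2 ≤ k.choose 2 := by omega
    have hrD : k.choose 2 < r + D := by omega
    have hr3 : 3 ≤ r := by omega
    have hk1 : (0 : ℝ) < ((k - 1 : ℕ) : ℝ) := by exact_mod_cast (by omega : 0 < k - 1)
    have hcts : ct k D 1 = s - 1 := by rw [ct_one]; omega
    have h1mem : 1 ∈ Adm k D := mem_Adm.2 ⟨by omega, le_rfl, Or.inl rfl⟩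
    have htmem : k - 1 ∈ Adm k D := mem_Adm.2 ⟨by omega, by omega, Or.inr ⟨by omega, Or.inl rfl⟩⟩
    have hwt := w_top (r := r) hk hD1
    obtain ⟨p0, hp0, hmin⟩ := exists_min (D := D) (r := r) hk
    have hopt : Opt k D r (w k D r p0) := opt_of hk hD1 hDC hrD (w_pos hk hD1 hrD hr3 hp0) hmin
    have hw1 : w k D r 1 = Real.log r - Real.log ((s - 1 : ℕ) : ℝ) := by
      rw [w, hcts, Nat.cast_one, div_one]
    -- cast of `k - 1` and `k - 2`
    have hk2 : ((k - 2 : ℕ) : ℝ) = ((k - 1 : ℕ) : ℝ) - 1 := by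
      have : k - 1 = (k - 2) + 1 := by omega
      rw [this]
      push_cast
      ring
    constructor
    · intro hr1
      have hmain : w k D r p0 < w k D r (k - 1) → ∃ (ℓ : ℝ) (p : ℕ), Opt k D r ℓ ∧
          IsType k D r ℓ p ∧ p ≠ k - 1 ∧
          (((k - 1 : ℕ) : ℝ) * ℓ < Real.log r ∨ (((k - 1 : ℕ) : ℝ) * ℓ = Real.log r ∧ 2 ≤ p)) := by
        intro h
        refine ⟨w k D r p0, p0, hopt, isType_iff.2 ⟨hp0, rfl⟩, ?_, Or.inl ?_⟩
        · rintro rfl
          exact lt_irrefl _ h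
        · rw [← hwt]
          exact mul_lt_mul_of_pos_left h hk1
      rcases hlt r hr1 with h | h | ⟨p, c, h1, h2, h3, h4⟩
      · omega
      · apply hmain
        refine lt_of_le_of_lt (hmin 1 h1mem) ?_
        have h5 := log_pow_lt (by omega : 1 ≤ r) h
        rw [hk2] at h5
        have h6 : ((k - 1 : ℕ) : ℝ) * w k D r 1 < ((k - 1 : ℕ) : ℝ) * w k D r (k - 1) := by
          rw [hwt, hw1]
          nlinarith
        exact lt_of_mul_lt_mul_left h6 hk1.le
      · have hp1 : p ≠ 1 := by omega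
        have hct : ct k D p = c := by
          unfold ct
          rw [if_neg hp1]
          omega
        have hpm : p ∈ Adm k D := mem_Adm.2 ⟨by omega, by omega, Or.inr ⟨h1, Or.inr (by omega)⟩⟩
        have hpp : (0 : ℝ) < p := by exact_mod_cast (by omega : 0 < p)
        have h5 := log_pow_le (by omega : 1 ≤ r) h4
        have hkp : ((k - 1 - p : ℕ) : ℝ) = ((k - 1 : ℕ) : ℝ) - p := by
          rw [Nat.cast_sub (by omega)]
        rw [hkp] at h5
        have h6 : w k D r p ≤ w k D r (k - 1) := by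
          have h7 : (p : ℝ) * w k D r p = Real.log r - Real.log c := by
            rw [w, hct, mul_div_cancel₀ _ hpp.ne']
          have h8 : ((k - 1 : ℕ) : ℝ) * (p * w k D r p) ≤
              ((k - 1 : ℕ) : ℝ) * (p * w k D r (k - 1)) := by
            calc ((k - 1 : ℕ) : ℝ) * (p * w k D r p)
                = ((k - 1 : ℕ) : ℝ) * (Real.log r - Real.log c) := by rw [h7]
              _ ≤ p * Real.log r := by nlinarith
              _ = ((k - 1 : ℕ) : ℝ) * (p * w k D r (k - 1)) := by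
                  rw [← hwt]; ring
          exact le_of_mul_le_mul_left (le_of_mul_le_mul_left h8 hk1) hpp
        rcases ((hmin p hpm).trans h6).lt_or_eq with h7 | h7
        · exact hmain h7
        · have h8 : w k D r p = w k D r p0 := le_antisymm (h6.trans h7.ge) (hmin p hpm)
          refine ⟨w k D r p0, p, hopt, isType_iff.2 ⟨hpm, h8⟩, by omega, Or.inr ⟨?_, by omega⟩⟩
          rw [h7, hwt]
    · intro hr1
      have hK := hge r hr1
      unfold KW at hK
      push Not at hK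
      obtain ⟨-, hK1, hK2⟩ := hK
      have hq : ∀ q ∈ Adm k D, q ≠ 1 → q ≠ k - 1 → w k D r (k - 1) < w k D r q := by
        intro q hq hq1 hqk
        have hq' := mem_Adm.1 hq
        have h1 : k ≤ 2 * q := by omega
        have h2 : 2 ≤ ct k D q := by
          rcases hq'.2.2 with h | ⟨_, h | h⟩
          · exact absurd h hq1
          · exact absurd h hqk
          · exact h
        have hct : ct k D q = k - q - D := by
          unfold ct
          rw [if_neg hq1]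
        have h3 := hK2 q (k - q - D) h1 (by omega) (by omega)
        have hpp : (0 : ℝ) < q := by exact_mod_cast (by omega : 0 < q)
        have h5 := log_pow_lt (by omega : 1 ≤ k - q - D) h3
        have hkp : ((k - 1 - q : ℕ) : ℝ) = ((k - 1 : ℕ) : ℝ) - q := by
          rw [Nat.cast_sub (by omega)]
        rw [hkp] at h5
        have h7 : (q : ℝ) * w k D r q = Real.log r - Real.log ((k - q - D : ℕ) : ℝ) := by
          rw [w, hct, mul_div_cancel₀ _ hpp.ne']
        have h8 : ((k - 1 : ℕ) : ℝ) * (q * w k D r (k - 1)) <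
            ((k - 1 : ℕ) : ℝ) * (q * w k D r q) := by
          calc ((k - 1 : ℕ) : ℝ) * (q * w k D r (k - 1)) = q * Real.log r := by
                  rw [← hwt]; ring
            _ < ((k - 1 : ℕ) : ℝ) * (Real.log r - Real.log ((k - q - D : ℕ) : ℝ)) := by
                  nlinarith
            _ = ((k - 1 : ℕ) : ℝ) * (q * w k D r q) := by rw [h7]
        exact lt_of_mul_lt_mul_left (lt_of_mul_lt_mul_left h8 hk1.le) hpp.le
      have h1w : w k D r (k - 1) ≤ w k D r 1 := by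
        have h5 := log_pow_le (by omega : 1 ≤ s - 1) hK1
        rw [hk2] at h5
        have h6 : ((k - 1 : ℕ) : ℝ) * w k D r (k - 1) ≤ ((k - 1 : ℕ) : ℝ) * w k D r 1 := by
          rw [hwt, hw1]
          nlinarith
        exact le_of_mul_le_mul_left h6 hk1
      have hmin' : ∀ q ∈ Adm k D, w k D r (k - 1) ≤ w k D r q := by
        intro q hqm
        by_cases hq1 : q = 1
        · rw [hq1]; exact h1w
        · by_cases hqk : q = k - 1
          · rw [hqk]
          · exact (hq q hqm hq1 hqk).le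
      refine ⟨w k D r (k - 1), opt_of hk hD1 hDC hrD (w_pos hk hD1 hrD hr3 htmem) hmin', hwt, ?_⟩
      intro p hp
      rw [isType_iff] at hp
      by_contra hcon
      rw [not_or] at hcon
      have := hq p hp.1 hcon.1 hcon.2
      rw [hp.2] at this
      exact lt_irrefl _ this

end Pool.Agent.TH480.J677
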