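import Pool.Agent.TH477.PA.Defs
import Pool.Agent.TH477.RB.Cont1
set_option autoImplicit false
open Finset Pool.Agent.TH477.PA

namespace Pool.Agent.TH480.J650

open Classical in
/-- The palette of the pair `y v`. -/
noncomputable def pal {n r : ℕ} (G : SimpleGraph (Fin n)) (y : Fin n) (cls : Fin n → ℕ)
    (B : ℕ → Finset (Fin r)) (Z : Finset (Fin n)) (a : Fin r) (v : Fin n) : Finset (Fin r) :=
  if G.Adj y v then (if v ∈ Z then (B (cls v)).erase a else B (cls v)) else univ

lemma log_nat_nonneg (m : ℕ) : 0 ≤ Real.log (m : ℝ) := Real.log_natCast_nonneg m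

lemma log_pred_le {m : ℕ} (hm : 2 ≤ m) :
    Real.log ((m - 1 : ℕ) : ℝ) ≤ Real.log (m : ℝ) - 1 / m := by
  have h0 : (0 : ℝ) < m := by exact_mod_cast (by omega : 0 < m)
  have h1 : (0 : ℝ) < ((m - 1 : ℕ) : ℝ) := by exact_mod_cast (by omega : 0 < m - 1)
  have h2 : Real.log (((m - 1 : ℕ) : ℝ) / m) ≤ ((m - 1 : ℕ) : ℝ) / m - 1 :=
    Real.log_le_sub_one_of_pos (div_pos h1 h0)
  rw [Real.log_div h1.ne' h0.ne'] at h2
  have h3 : ((m - 1 : ℕ) : ℝ) / m - 1 = - (1 / m) := by
    rw [Nat.cast_sub (by omega), Nat.cast_one]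
    field_simp
    ring
  rw [h3] at h2
  linarith

lemma pal_log {n r : ℕ} (hr : 2 ≤ r) (G : SimpleGraph (Fin n)) (y : Fin n) (cls : Fin n → ℕ)
    (B : ℕ → Finset (Fin r)) (Z : Finset (Fin n)) (a : Fin r)
    (hZ : ∀ v ∈ Z, a ∈ B (cls v) ∧ 2 ≤ (B (cls v)).card) (v : Fin n) :
    Real.log ((pal G y cls B Z a v).card : ℝ) ≤ ind (¬ G.Adj y v) * Real.log r +
      Real.log ((B (cls v)).card : ℝ) - ind (v ∈ Z) * (1 / r) := by
  have hr0 : (0 : ℝ) < r := by exact_mod_cast (by omega : 0 < r)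
  have hBr : (B (cls v)).card ≤ r := by
    have := Finset.card_le_univ (B (cls v))
    rwa [Fintype.card_fin] at this
  by_cases hadj : G.Adj y v
  · rw [ind_neg (not_not.2 hadj), zero_mul, zero_add]
    by_cases hv : v ∈ Z
    · rw [pal, if_pos hadj, if_pos hv, ind_pos hv, one_mul, Finset.card_erase_of_mem (hZ v hv).1]
      have h1 := log_pred_le (hZ v hv).2
      have h2 : (1 : ℝ) / r ≤ 1 / (B (cls v)).card := by
        apply one_div_le_one_div_of_le
        · exact_mod_cast (by have := (hZ v hv).2; omega : 0 < (B (cls v)).card)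
        · exact_mod_cast hBr
      linarith
    · rw [pal, if_pos hadj, if_neg hv, ind_neg hv, zero_mul, sub_zero]
  · rw [pal, if_neg hadj, ind_pos hadj, one_mul, Finset.card_univ, Fintype.card_fin]
    by_cases hv : v ∈ Z
    · rw [ind_pos hv, one_mul]
      have h1 : Real.log 2 ≤ Real.log ((B (cls v)).card : ℝ) :=
        Real.log_le_log (by norm_num) (by exact_mod_cast (hZ v hv).2)
      have h2 : (1 : ℝ) / r ≤ 1 / 2 := by
        apply one_div_le_one_div_of_le (by norm_num)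
        exact_mod_cast hr
      have h3 := Real.log_two_gt_d9
      linarith
    · rw [ind_neg hv, zero_mul, sub_zero]
      have := log_nat_nonneg (B (cls v)).card
      linarith

lemma exceptions {n r p : ℕ} (G : SimpleGraph (Fin n)) (y : Fin n) (cls : Fin n → ℕ)
    (B : ℕ → Finset (Fin r)) (Z : Finset (Fin n)) (a : Fin r) (hcls : ∀ v, cls v < p)
    (b : Fin n → Fin r) (M : ℝ) (hM : 0 ≤ M)
    (h1 : ∀ i, i < p → ∀ a', a' ∉ B i → ∑ v, ind (cls v = i ∧ G.Adj y v ∧ b v = a') ≤ M)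
    (h2 : ∑ v ∈ Z, ind (G.Adj y v ∧ b v = a) ≤ M) :
    (Nat.card {v : Fin n // b v ∉ pal G y cls B Z a v} : ℝ) ≤ (p * r + 1) * M := by
  classical
  rw [natCard_ind]
  have hpt : ∀ v, ind (b v ∉ pal G y cls B Z a v) ≤
      (∑ i ∈ Finset.range p, ∑ a' ∈ (B i)ᶜ, ind (cls v = i ∧ G.Adj y v ∧ b v = a')) +
        (if v ∈ Z then ind (G.Adj y v ∧ b v = a) else 0) := by
    intro v
    have hn1 : 0 ≤ ∑ i ∈ Finset.range p, ∑ a' ∈ (B i)ᶜ, ind (cls v = i ∧ G.Adj y v ∧ b v = a') :=
      Finset.sum_nonneg fun i _ => Finset.sum_nonneg fun a' _ => ind_nonneg _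
    have hn2 : 0 ≤ (if v ∈ Z then ind (G.Adj y v ∧ b v = a) else 0) := by
      split_ifs
      · exact ind_nonneg _
      · exact le_rfl
    by_cases hv : b v ∈ pal G y cls B Z a v
    · rw [ind_neg (not_not.2 hv)]
      linarith
    · rw [ind_pos hv]
      have hadj : G.Adj y v := by
        by_contra h
        rw [pal, if_neg h] at hv
        exact hv (Finset.mem_univ _)
      by_cases hB : b v ∈ B (cls v)
      · rw [pal, if_pos hadj] at hv
        have hvZ : v ∈ Z := by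
          by_contra h
          rw [if_neg h] at hv
          exact hv hB
        rw [if_pos hvZ] at hv
        have hba : b v = a := by
          by_contra h
          exact hv (Finset.mem_erase.2 ⟨h, hB⟩)
        rw [if_pos hvZ, ind_pos ⟨hadj, hba⟩]
        linarith
      · have h3 : (1 : ℝ) ≤ ∑ i ∈ Finset.range p, ∑ a' ∈ (B i)ᶜ,
            ind (cls v = i ∧ G.Adj y v ∧ b v = a') := by
          calc (1 : ℝ) = ind (cls v = cls v ∧ G.Adj y v ∧ b v = b v) :=
                (ind_pos ⟨rfl, hadj, rfl⟩).symm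
            _ ≤ ∑ a' ∈ (B (cls v))ᶜ, ind (cls v = cls v ∧ G.Adj y v ∧ b v = a') :=
                Finset.single_le_sum (f := fun a' => ind (cls v = cls v ∧ G.Adj y v ∧ b v = a'))
                  (fun _ _ => ind_nonneg _) (Finset.mem_compl.2 hB)
            _ ≤ _ := Finset.single_le_sum (f := fun i => ∑ a' ∈ (B i)ᶜ,
                  ind (cls v = i ∧ G.Adj y v ∧ b v = a'))
                  (fun _ _ => Finset.sum_nonneg fun _ _ => ind_nonneg _)
                  (Finset.mem_range.2 (hcls v))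
        linarith
  refine (Finset.sum_le_sum fun v _ => hpt v).trans ?_
  rw [Finset.sum_add_distrib]
  have h3 : ∑ v, ∑ i ∈ Finset.range p, ∑ a' ∈ (B i)ᶜ, ind (cls v = i ∧ G.Adj y v ∧ b v = a') ≤
      p * r * M := by
    rw [Finset.sum_comm]
    calc ∑ i ∈ Finset.range p, ∑ v, ∑ a' ∈ (B i)ᶜ, ind (cls v = i ∧ G.Adj y v ∧ b v = a')
        ≤ ∑ i ∈ Finset.range p, r * M := by
          refine Finset.sum_le_sum fun i hi => ?_
          rw [Finset.sum_comm]
          calc ∑ a' ∈ (B i)ᶜ, ∑ v, ind (cls v = i ∧ G.Adj y v ∧ b v = a')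
              ≤ ∑ a' ∈ (B i)ᶜ, M := Finset.sum_le_sum fun a' ha' =>
                h1 i (Finset.mem_range.1 hi) a' (Finset.mem_compl.1 ha')
            _ = ((B i)ᶜ.card : ℝ) * M := by rw [Finset.sum_const, nsmul_eq_mul]
            _ ≤ r * M := by
                apply mul_le_mul_of_nonneg_right _ hM
                have := Finset.card_le_univ (B i)ᶜ
                rw [Fintype.card_fin] at this
                exact_mod_cast this
      _ = p * r * M := by rw [Finset.sum_const, Finset.card_range, nsmul_eq_mul]; ring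
  have h4 : ∑ v, (if v ∈ Z then ind (G.Adj y v ∧ b v = a) else 0) ≤ M := by
    rw [Finset.sum_ite_mem, Finset.univ_inter]
    exact h2
  linarith

theorem J11_star_count (r p : ℕ) (hr : 2 ≤ r) (ε : ℝ) (hε : 0 < ε) :
    ∃ τ : ℝ, 0 < τ ∧ ∀ (n : ℕ) (G : SimpleGraph (Fin n)) (y : Fin n) (cls : Fin n → ℕ)
      (B : ℕ → Finset (Fin r)) (Z : Finset (Fin n)) (a : Fin r), (∀ v, cls v < p) →
      (∀ v ∈ Z, a ∈ B (cls v) ∧ 2 ≤ (B (cls v)).card) →
      ∑ b : Fin n → Fin r, ind ((∀ i, i < p → ∀ a', a' ∉ B i →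
          ∑ v, ind (cls v = i ∧ G.Adj y v ∧ b v = a') ≤ τ * n) ∧
        ∑ v ∈ Z, ind (G.Adj y v ∧ b v = a) ≤ τ * n) ≤
      (r : ℝ) ^ (n - Nat.card {v // G.Adj y v}) *
        Real.exp (∑ v, Real.log ((B (cls v)).card : ℝ) + ε * n - (Z.card : ℝ) / r) := by
  classical
  have hr0 : (0 : ℝ) < r := by exact_mod_cast (by omega : 0 < r)
  obtain ⟨s, hs0, hs⟩ : ∃ s : ℝ, 0 ≤ s ∧ r * Real.exp (-s) ≤ ε / 2 := by
    refine ⟨max 0 (Real.log (2 * r / ε)), le_max_left _ _, ?_⟩
    have h1 : Real.exp (- max 0 (Real.log (2 * r / ε))) ≤ Real.exp (- Real.log (2 * r / ε)) :=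
      Real.exp_le_exp.2 (neg_le_neg (le_max_right _ _))
    rw [Real.exp_neg (Real.log (2 * r / ε)), Real.exp_log (by positivity)] at h1
    calc r * Real.exp (- max 0 (Real.log (2 * r / ε))) ≤ r * (2 * r / ε)⁻¹ :=
          mul_le_mul_of_nonneg_left h1 hr0.le
      _ = ε / 2 := by field_simp
  have hpr : (0 : ℝ) < p * r + 1 := by positivity
  refine ⟨ε / (2 * ((s + 1) * (p * r + 1))), by positivity, ?_⟩
  intro n G y cls B Z a hcls hZ
  set τ : ℝ := ε / (2 * ((s + 1) * (p * r + 1))) with hτ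
  have hτ0 : 0 < τ := by positivity
  set m : ℝ := (p * r + 1) * (τ * n) with hm
  have hn0 : (0 : ℝ) ≤ n := Nat.cast_nonneg n
  have h1 : ∑ b : Fin n → Fin r, ind ((∀ i, i < p → ∀ a', a' ∉ B i →
          ∑ v, ind (cls v = i ∧ G.Adj y v ∧ b v = a') ≤ τ * n) ∧
        ∑ v ∈ Z, ind (G.Adj y v ∧ b v = a) ≤ τ * n) ≤
      (Nat.card {c : Fin n → Fin r //
        (Nat.card {v : Fin n // c v ∉ pal G y cls B Z a v} : ℝ) ≤ m} : ℝ) := by
    rw [natCard_ind]
    refine Finset.sum_le_sum fun b _ => ind_mono ?_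
    rintro ⟨h1, h2⟩
    exact exceptions G y cls B Z a hcls b (τ * n) (by positivity) h1 h2
  refine h1.trans ((Pool.Agent.TH477.RB.weighted_count r (pal G y cls B Z a) s m hs0).trans ?_)
  have h2 : ((1 : ℝ) + r * Real.exp (-s)) ^ Fintype.card (Fin n) ≤ Real.exp (ε / 2 * n) := by
    rw [Fintype.card_fin]
    have h3 : (1 : ℝ) + r * Real.exp (-s) ≤ Real.exp (ε / 2) := by
      have := Real.add_one_le_exp (ε / 2)
      linarith
    calc ((1 : ℝ) + r * Real.exp (-s)) ^ n ≤ Real.exp (ε / 2) ^ n :=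
          pow_le_pow_left₀ (by positivity) h3 n
      _ = Real.exp (ε / 2 * n) := by rw [← Real.exp_nat_mul, mul_comm]
  have h3 : s * m ≤ ε / 2 * n := by
    have h4 : s * ((p * r + 1) * τ) ≤ ε / 2 := by
      have h5 : (s + 1) * ((p * r + 1) * τ) = ε / 2 := by
        rw [hτ]
        field_simp
      have h6 : 0 < (p * r + 1 : ℝ) * τ := by positivity
      nlinarith
    calc s * m = s * ((p * r + 1) * τ) * n := by rw [hm]; ring
      _ ≤ ε / 2 * n := mul_le_mul_of_nonneg_right h4 hn0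
  have hd : Nat.card {v // G.Adj y v} ≤ n := by
    rw [Nat.card_eq_fintype_card]
    have := Fintype.card_subtype_le (fun v => G.Adj y v)
    rwa [Fintype.card_fin] at this
  have hnotadj : ∑ v, ind (¬ G.Adj y v) = ((n - Nat.card {v // G.Adj y v} : ℕ) : ℝ) := by
    rw [Nat.cast_sub hd, natCard_ind]
    simp_rw [ind_not]
    rw [Finset.sum_sub_distrib]
    simp
  have hZsum : ∑ v, ind (v ∈ Z) * (1 / r : ℝ) = (Z.card : ℝ) / r := by
    rw [← Finset.sum_mul, ← card_filter_ind, Finset.filter_mem_eq_inter, Finset.univ_inter]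
    ring
  have h5 : ∑ v, Real.log ((pal G y cls B Z a v).card : ℝ) ≤
      ((n - Nat.card {v // G.Adj y v} : ℕ) : ℝ) * Real.log r +
        ∑ v, Real.log ((B (cls v)).card : ℝ) - (Z.card : ℝ) / r := by
    refine (Finset.sum_le_sum fun v _ => pal_log hr G y cls B Z a hZ v).trans ?_
    rw [Finset.sum_sub_distrib, Finset.sum_add_distrib, ← Finset.sum_mul, hnotadj, hZsum]
  have h6 : (r : ℝ) ^ (n - Nat.card {v // G.Adj y v}) =
      Real.exp (((n - Nat.card {v // G.Adj y v} : ℕ) : ℝ) * Real.log r) := by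
    rw [Real.exp_nat_mul, Real.exp_log hr0]
  rw [h6, ← Real.exp_add]
  calc Real.exp (s * m) * (1 + r * Real.exp (-s)) ^ Fintype.card (Fin n) *
        Real.exp (∑ e, Real.log ((pal G y cls B Z a e).card : ℝ))
      ≤ Real.exp (ε / 2 * n) * Real.exp (ε / 2 * n) *
        Real.exp (∑ e, Real.log ((pal G y cls B Z a e).card : ℝ)) := by
        apply mul_le_mul_of_nonneg_right _ (Real.exp_pos _).le
        exact mul_le_mul (Real.exp_le_exp.2 h3) h2 (by positivity) (Real.exp_pos _).le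
    _ = Real.exp (ε * n + ∑ e, Real.log ((pal G y cls B Z a e).card : ℝ)) := by
        rw [← Real.exp_add, ← Real.exp_add]
        congr 1
        ring
    _ ≤ _ := by
        apply Real.exp_le_exp.2
        linarith

end Pool.Agent.TH480.J650
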