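import Pool.Agent.TH144.AE.Form

/-!
# Job 852 (AE-6, for MP_879098_ag)
-/

set_option autoImplicit false

open MvPolynomial

namespace Pool.Agent.TH480.J852

open Pool.Agent.TH144.AE

theorem eval_smul_hom {P : MvPolynomial (Fin 2) ℂ} {d : ℕ} (hP : P.IsHomogeneous d) (a : ℂ)
    (s : Fin 2 → ℂ) : eval (a • s) P = a ^ d * eval s P := by
  rw [MvPolynomial.eval_eq', MvPolynomial.eval_eq', Finset.mul_sum]
  apply Finset.sum_congr rfl
  intro m hm
  have h0 : Finsupp.weight (fun _ : Fin 2 => (1 : ℕ)) m = d :=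
    hP (MvPolynomial.mem_support_iff.1 hm)
  have h1 : ∑ i, m i = d := by
    rw [← Finsupp.degree_eq_sum, Finsupp.degree_eq_weight_one]
    exact h0
  have h2 : ∏ i, (a • s) i ^ m i = a ^ d * ∏ i, s i ^ m i := by
    rw [← h1, ← Finset.prod_pow_eq_pow_sum, ← Finset.prod_mul_distrib]
    apply Finset.prod_congr rfl
    intro i _
    rw [Pi.smul_apply, smul_eq_mul, mul_pow]
  rw [h2]
  ring

theorem evalT_smul_hom {κ : Type} {G : κ → MvPolynomial (Fin 2) ℂ} {d : ℕ}
    (hG : ∀ k, (G k).IsHomogeneous d) (a : ℂ) (s : Fin 2 → ℂ) :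
    evalT (a • s) G = a ^ d • evalT s G := by
  funext k
  exact eval_smul_hom (hG k) a s

theorem form_smul {κ : Type} (α : ℕ) (f : ℕ → κ → ℂ) (a s t : ℂ) :
    form α f (a * s) (a * t) = a ^ α • form α f s t := by
  unfold form
  rw [Finset.smul_sum]
  apply Finset.sum_congr rfl
  intro i hi
  have hi' : i ≤ α := by simpa [Nat.lt_succ_iff] using hi
  rw [smul_smul]
  congr 1
  rw [mul_pow, mul_pow]
  have h1 : a ^ α = a ^ (α - i) * a ^ i := by
    rw [← pow_add]
    congr 1
    omega
  rw [h1]
  ring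

theorem coord_cross {κ : Type} {x : PS κ} {v w : κ → ℂ} (hv : IsCoord x v) (hw : w ≠ 0)
    (h : ∀ i j, v i * w j = v j * w i) : IsCoord x w := by
  obtain ⟨i, hi⟩ : ∃ i, v i ≠ 0 := by
    by_contra hcon
    push Not at hcon
    exact hv.ne_zero (funext hcon)
  have h1 : w = (w i / v i) • v := by
    funext j
    rw [Pi.smul_apply, smul_eq_mul, div_mul_eq_mul_div, eq_div_iff hi]
    rw [mul_comm, h i j, mul_comm]
  have h2 : w i / v i ≠ 0 := by
    intro h0
    apply hw
    rw [h1, h0, zero_smul]
  rw [h1]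
  exact hv.smul h2

theorem eval_aeval (P : MvPolynomial (Fin 2) ℂ) (t : ℂ) :
    Polynomial.eval t (MvPolynomial.aeval ![(1 : Polynomial ℂ), Polynomial.X] P) =
      eval ![1, t] P := by
  have h : (Polynomial.aeval t : Polynomial ℂ →ₐ[ℂ] ℂ).comp
      (MvPolynomial.aeval ![(1 : Polynomial ℂ), Polynomial.X]) =
      MvPolynomial.aeval ![1, t] := by
    apply MvPolynomial.algHom_ext
    intro i
    fin_cases i <;> simp
  have h1 := DFunLike.congr_fun h P
  rw [AlgHom.comp_apply, Polynomial.coe_aeval_eq_eval] at h1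
  rw [h1, MvPolynomial.aeval_eq_eval]

theorem global_form {κ : Type} [Finite κ] (g : (Fin 2 → ℂ) → PS κ)
    (hg : ∀ s : Fin 2 → ℂ, s ≠ 0 → ∃ (d : ℕ) (G : κ → MvPolynomial (Fin 2) ℂ),
      (∀ k, (G k).IsHomogeneous d) ∧ evalT s G ≠ 0 ∧
      ∀ s' : Fin 2 → ℂ, s' ≠ 0 → evalT s' G ≠ 0 → IsCoord (g s') (evalT s' G)) :
    ∃ (α : ℕ) (f : ℕ → κ → ℂ), ∀ s : Fin 2 → ℂ, s ≠ 0 → IsCoord (g s) (form α f (s 0) (s 1)) := by
  classical
  have := Fintype.ofFinite κ
  have hne1 : ∀ t : ℂ, (![1, t] : Fin 2 → ℂ) ≠ 0 := by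
    intro t h
    have := congrFun h 0
    simp at this
  have hne2 : (![0, 1] : Fin 2 → ℂ) ≠ 0 := by
    intro h
    have := congrFun h 1
    simp at this
  -- invariance
  have hinv : ∀ (s : Fin 2 → ℂ) (a : ℂ), s ≠ 0 → a ≠ 0 → g (a • s) = g s := by
    intro s a hs ha
    obtain ⟨d, G, hG, hGs, hrep⟩ := hg s hs
    have h1 := hrep s hs hGs
    have h2 := hrep (a • s) (smul_ne_zero ha hs) (by
      rw [evalT_smul_hom hG]
      exact smul_ne_zero (pow_ne_zero _ ha) hGs)
    exact (h1.eq_of_smul h2 (evalT_smul_hom hG a s)).symm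
  -- a local representation
  obtain ⟨d₀, G₀, hG₀, hG₀s, hrep₀⟩ := hg ![1, 0] (hne1 0)
  let deh : (κ → MvPolynomial (Fin 2) ℂ) → κ → Polynomial ℂ := fun G k =>
    MvPolynomial.aeval ![(1 : Polynomial ℂ), Polynomial.X] (G k)
  have hdeh : ∀ (G : κ → MvPolynomial (Fin 2) ℂ) (t : ℂ) (k : κ),
      (deh G k).eval t = evalT ![1, t] G k := fun G t k => eval_aeval (G k) t
  -- the principal ideal
  let I : Ideal (Polynomial ℂ) := Ideal.span (Set.range (deh G₀))
  obtain ⟨D, hD⟩ : ∃ D, I = Ideal.span {D} := (inferInstance : I.IsPrincipal).principal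
  have hmem : ∀ k, ∃ q, deh G₀ k = D * q := by
    intro k
    have h1 : deh G₀ k ∈ I := Ideal.subset_span ⟨k, rfl⟩
    rw [hD, Ideal.mem_span_singleton] at h1
    exact h1
  choose q hq using hmem
  obtain ⟨k₀, hk₀⟩ : ∃ k, evalT ![1, 0] G₀ k ≠ 0 := by
    by_contra hcon
    push Not at hcon
    exact hG₀s (funext hcon)
  have hD0 : D ≠ 0 := by
    rintro rfl
    apply hk₀
    rw [← hdeh, hq, zero_mul, Polynomial.eval_zero]
  obtain ⟨c, hc⟩ : ∃ c : κ → Polynomial ℂ, ∑ k, c k * q k = 1 := by
    have h1 : D ∈ I := by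
      rw [hD]
      exact Ideal.mem_span_singleton_self D
    obtain ⟨c, hc⟩ := (Ideal.mem_span_range_iff_exists_fun).1 h1
    refine ⟨c, mul_left_cancel₀ hD0 ?_⟩
    rw [mul_one, Finset.mul_sum]
    rw [← hc]
    apply Finset.sum_congr rfl
    intro k _
    rw [hq k, ← hc]
    ring
  have hqne : ∀ t : ℂ, (fun k => (q k).eval t) ≠ 0 := by
    intro t h
    have h1 := congrArg (Polynomial.eval t) hc
    rw [Polynomial.eval_finsetSum, Polynomial.eval_one] at h1
    rw [Finset.sum_eq_zero] at h1
    · exact zero_ne_one h1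
    · intro k _
      rw [Polynomial.eval_mul, show (q k).eval t = 0 from congrFun h k, mul_zero]
  -- cross relations
  have hcross : ∀ (d : ℕ) (G : κ → MvPolynomial (Fin 2) ℂ),
      (∀ s' : Fin 2 → ℂ, s' ≠ 0 → evalT s' G ≠ 0 → IsCoord (g s') (evalT s' G)) →
      ∀ i j, deh G i * q j = deh G j * q i := by
    intro d G hG i j
    have h1 : D * (deh G i * q j - deh G j * q i) = 0 := by
      apply Polynomial.funext
      intro t
      rw [Polynomial.eval_zero, Polynomial.eval_mul]
      by_cases hDt : D.eval t = 0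
      · rw [hDt, zero_mul]
      · by_cases hGt : evalT ![1, t] G = 0
        · rw [Polynomial.eval_sub, Polynomial.eval_mul, Polynomial.eval_mul, hdeh, hdeh, hGt]
          simp
        · have hG₀t : evalT ![1, t] G₀ = D.eval t • (fun k => (q k).eval t) := by
            funext k
            rw [← hdeh, hq, Polynomial.eval_mul]
            rfl
          have hne : evalT ![1, t] G₀ ≠ 0 := by
            rw [hG₀t]
            exact smul_ne_zero hDt (hqne t)
          have h2 := hrep₀ _ (hne1 t) hne
          have h3 := hG _ (hne1 t) hGt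
          obtain ⟨a, _, ha⟩ := h2.exists_smul h3
          rw [Polynomial.eval_sub, Polynomial.eval_mul, Polynomial.eval_mul, hdeh, hdeh, ha, hG₀t]
          simp only [Pi.smul_apply, smul_eq_mul]
          ring
    rcases mul_eq_zero.1 h1 with h | h
    · exact absurd h hD0
    · exact sub_eq_zero.1 h
  -- the form
  set α : ℕ := Finset.univ.sup fun k => (q k).natDegree with hα
  let f : ℕ → κ → ℂ := fun i k => (q k).coeff i
  have hform1 : ∀ t, form α f 1 t = fun k => (q k).eval t := by
    intro t
    funext k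
    have h1 : (q k).natDegree < α + 1 := by
      have : (q k).natDegree ≤ α := Finset.le_sup (f := fun k => (q k).natDegree)
        (Finset.mem_univ k)
      omega
    rw [Polynomial.eval_eq_sum_range' h1]
    unfold form
    rw [Finset.sum_apply]
    apply Finset.sum_congr rfl
    intro i _
    rw [Pi.smul_apply, smul_eq_mul, one_pow, one_mul, mul_comm]
  have hA : ∀ t, IsCoord (g ![1, t]) (form α f 1 t) := by
    intro t
    obtain ⟨d, G, hG, hGs, hrep⟩ := hg ![1, t] (hne1 t)
    rw [hform1]
    apply coord_cross (hrep _ (hne1 t) hGs) (hqne t)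
    intro i j
    have h1 := congrArg (Polynomial.eval t) (hcross d G hrep i j)
    rw [Polynomial.eval_mul, Polynomial.eval_mul, hdeh, hdeh] at h1
    exact h1
  have hB : ∀ s : Fin 2 → ℂ, s 0 ≠ 0 → IsCoord (g s) (form α f (s 0) (s 1)) := by
    intro s hs0
    have h1 : s = s 0 • ![1, s 1 / s 0] := by
      funext i
      fin_cases i
      · simp
      · simp [mul_div_cancel₀ _ hs0]
    have h2 : g s = g ![1, s 1 / s 0] := by
      conv_lhs => rw [h1]
      exact hinv _ _ (hne1 _) hs0
    have h3 : form α f (s 0) (s 1) = (s 0) ^ α • form α f 1 (s 1 / s 0) := by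
      rw [← form_smul, mul_one, mul_div_cancel₀ _ hs0]
    rw [h2, h3]
    exact (hA _).smul (pow_ne_zero _ hs0)
  -- the point at infinity
  have hlead : form α f 0 1 ≠ 0 := by
    have h1 : ∃ k, (q k).coeff α ≠ 0 := by
      have hex : ∃ k, q k ≠ 0 := by
        by_contra hcon
        push Not at hcon
        apply hqne 0
        funext k
        rw [hcon k]
        simp
      obtain ⟨k1, hk1⟩ := hex
      obtain ⟨k2, _, hk2⟩ := Finset.exists_mem_eq_sup Finset.univ ⟨k1, Finset.mem_univ k1⟩
        (fun k => (q k).natDegree)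
      by_cases hα0 : α = 0
      · refine ⟨k1, ?_⟩
        have h2 : (q k1).natDegree ≤ α := Finset.le_sup (f := fun k => (q k).natDegree)
          (Finset.mem_univ k1)
        have h3 : α = (q k1).natDegree := by omega
        rw [h3]
        exact fun h => hk1 (Polynomial.leadingCoeff_eq_zero.1 h)
      · refine ⟨k2, ?_⟩
        have h3 : α = (q k2).natDegree := by rw [hα]; exact hk2
        have h4 : q k2 ≠ 0 := by
          intro h
          rw [h, Polynomial.natDegree_zero] at h3
          exact hα0 h3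
        rw [h3]
        exact fun h => h4 (Polynomial.leadingCoeff_eq_zero.1 h)
    obtain ⟨k, hk⟩ := h1
    intro h
    apply hk
    have h2 := congrFun h k
    unfold form at h2
    rw [Finset.sum_apply, Finset.sum_range_succ, Finset.sum_eq_zero] at h2
    · simpa [f] using h2
    · intro i hi
      rw [Finset.mem_range] at hi
      rw [Pi.smul_apply, zero_pow (by omega), zero_mul, zero_smul]
  have hC : IsCoord (g ![0, 1]) (form α f 0 1) := by
    obtain ⟨d, G, hG, hGs, hrep⟩ := hg ![0, 1] hne2
    apply coord_cross (hrep _ hne2 hGs) hlead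
    intro i j
    -- continuity
    have hfc : ∀ k, Continuous fun z : ℂ => form α f z 1 k := by
      intro k
      unfold form
      simp only [Finset.sum_apply, Pi.smul_apply, smul_eq_mul]
      fun_prop
    have hGc : ∀ k, Continuous fun z : ℂ => evalT ![z, 1] G k := by
      intro k
      show Continuous fun z : ℂ => eval ![z, 1] (G k)
      apply (MvPolynomial.continuous_eval (G k)).comp
      apply continuous_pi
      intro i
      fin_cases i
      · exact continuous_id
      · exact continuous_const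
    have h1 : Continuous fun z : ℂ => evalT ![z, 1] G i * form α f z 1 j -
        evalT ![z, 1] G j * form α f z 1 i :=
      ((hGc i).mul (hfc j)).sub ((hGc j).mul (hfc i))
    have h2 : (fun z : ℂ => evalT ![z, 1] G i * form α f z 1 j -
        evalT ![z, 1] G j * form α f z 1 i) = fun _ => 0 := by
      apply Continuous.ext_on (dense_compl_singleton (0 : ℂ)) h1 continuous_const
      intro z hz
      have hz0 : z ≠ 0 := hz
      have hzn : (![z, 1] : Fin 2 → ℂ) ≠ 0 := by
        intro h
        exact hz0 (congrFun h 0)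
      show evalT ![z, 1] G i * form α f z 1 j - evalT ![z, 1] G j * form α f z 1 i = 0
      by_cases hGz : evalT ![z, 1] G = 0
      · rw [hGz]
        simp
      · have h3 := hrep _ hzn hGz
        have h4 := hB ![z, 1] hz0
        obtain ⟨a, _, ha⟩ := h3.exists_smul h4
        have h5 : form α f z 1 = a • evalT ![z, 1] G := ha
        rw [h5]
        simp only [Pi.smul_apply, smul_eq_mul]
        ring
    have h3 := congrFun h2 0
    exact sub_eq_zero.1 h3
  refine ⟨α, f, ?_⟩
  intro s hs
  by_cases hs0 : s 0 = 0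
  · have hs1 : s 1 ≠ 0 := by
      intro h
      apply hs
      funext i
      fin_cases i
      · exact hs0
      · exact h
    have h1 : s = s 1 • ![0, 1] := by
      funext i
      fin_cases i
      · simp [hs0]
      · simp
    have h2 : g s = g ![0, 1] := by
      conv_lhs => rw [h1]
      exact hinv _ _ hne2 hs1
    have h3 : form α f (s 0) (s 1) = (s 1) ^ α • form α f 0 1 := by
      rw [← form_smul, mul_one, mul_zero, hs0]
    rw [h2, h3]
    exact hC.smul (pow_ne_zero _ hs1)
  · exact hB s hs0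

end Pool.Agent.TH480.J852
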