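import Pool.Agent.TH144.AE.Form

/-!
# Job 851 (AE-5, for MP_879098_ag)
-/

set_option autoImplicit false

open Module

namespace Pool.Agent.TH480.J851

open Pool.Agent.TH144.AE

/-- A point outside the ranges of two smooth maps from a space of smaller dimension. -/
theorem avoid {P E : Type} [NormedAddCommGroup P] [NormedSpace ℝ P] [FiniteDimensional ℝ P]
    [NormedAddCommGroup E] [NormedSpace ℝ E] [FiniteDimensional ℝ E] (Φ Ψ : P → E)
    (h1 : ContDiff ℝ 1 Φ) (h2 : ContDiff ℝ 1 Ψ) (h : finrank ℝ P < finrank ℝ E) :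
    ∃ e, e ∉ Set.range Φ ∧ e ∉ Set.range Ψ := by
  have h3 : dimH (Set.range Φ ∪ Set.range Ψ) < finrank ℝ E := by
    rw [dimH_union]
    apply lt_of_le_of_lt (max_le h1.dimH_range_le h2.dimH_range_le)
    exact_mod_cast h
  obtain ⟨e, he⟩ := (dense_compl_of_dimH_lt_finrank h3).nonempty
  rw [Set.mem_compl_iff, Set.mem_union, not_or] at he
  exact ⟨e, he.1, he.2⟩

/-- a family of coefficients, extended by zero -/
def ext {a : ℕ} {κ : Type} (K : Fin a → κ → ℂ) : ℕ → κ → ℂ :=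
  fun i => if h : i < a then K ⟨i, h⟩ else 0

theorem form_ext {a : ℕ} {κ : Type} (K : Fin (a + 1) → κ → ℂ) (t : ℂ) :
    form a (ext K) 1 t = ∑ i : Fin (a + 1), t ^ (i : ℕ) • K i := by
  unfold form
  rw [Finset.sum_range]
  apply Finset.sum_congr rfl
  intro i _
  have h1 : ext K (i : ℕ) = K i := by
    unfold ext
    rw [dif_pos i.2]
  rw [h1, one_pow, one_mul]

theorem form_ext_rev {a : ℕ} {κ : Type} (K : Fin (a + 1) → κ → ℂ) (t : ℂ) :
    form a (rev a (ext K)) 1 t = ∑ i : Fin (a + 1), t ^ (i : ℕ) • K (Fin.rev i) := by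
  unfold form
  rw [Finset.sum_range]
  apply Finset.sum_congr rfl
  intro i _
  have h1 : rev a (ext K) (i : ℕ) = K (Fin.rev i) := by
    unfold rev ext
    have h2 : a - (i : ℕ) < a + 1 := by omega
    rw [dif_pos h2]
    congr 1
    apply Fin.ext
    rw [Fin.val_rev]
    show a - (i : ℕ) = a + 1 - (i + 1)
    omega
  rw [h1, one_pow, one_mul]

theorem trans_aux {κ μ : Type} {D₁ F v : κ → ℂ} {D₂ G w : μ → ℂ}
    (hI : LinearIndependent ℂ (![(D₁, D₂), (F, 0), (0, G)] : Fin 3 → (κ → ℂ) × (μ → ℂ)))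
    (hv : ¬ ∃ x y z : ℂ, v = x • D₁ + y • F ∧ w = x • D₂ + z • G) :
    LinearIndependent ℂ (![(D₁, D₂), (v, w), (F, 0), (0, G)] :
      Fin 4 → (κ → ℂ) × (μ → ℂ)) := by
  rw [Fintype.linearIndependent_iff] at hI ⊢
  intro c hc
  rw [Fin.sum_univ_four] at hc
  have hc1 : c 0 • D₁ + c 1 • v + c 2 • F = 0 := by
    have := congrArg Prod.fst hc
    simpa using this
  have hc2 : c 0 • D₂ + c 1 • w + c 3 • G = 0 := by
    have := congrArg Prod.snd hc
    simpa using this
  by_cases h1 : c 1 = 0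
  · rw [h1, zero_smul, add_zero] at hc1 hc2
    have h2 := hI ![c 0, c 2, c 3] (by
      rw [Fin.sum_univ_three]
      apply Prod.ext
      · simpa using hc1
      · simpa using hc2)
    intro i
    fin_cases i
    · exact h2 0
    · exact h1
    · exact h2 1
    · exact h2 2
  · exfalso
    apply hv
    refine ⟨-(c 0 / c 1), -(c 2 / c 1), -(c 3 / c 1), ?_, ?_⟩
    · funext i
      have h2 := congrFun hc1 i
      simp only [Pi.add_apply, Pi.smul_apply, smul_eq_mul, Pi.zero_apply] at h2 ⊢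
      field_simp
      linear_combination h2
    · funext i
      have h2 := congrFun hc2 i
      simp only [Pi.add_apply, Pi.smul_apply, smul_eq_mul, Pi.zero_apply] at h2 ⊢
      field_simp
      linear_combination h2

section smooth

variable {m : ℕ}

theorem contDiff_form (α : ℕ) (f : ℕ → Fin m → ℂ) : ContDiff ℝ 1 fun t : ℂ => form α f 1 t := by
  unfold form
  apply ContDiff.sum
  intro i _
  fun_prop

theorem contDiff_dform (α : ℕ) (f : ℕ → Fin m → ℂ) : ContDiff ℝ 1 fun t : ℂ => dform α f t := by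
  unfold dform
  apply ContDiff.sum
  intro i _
  fun_prop

/-- the first component of the map whose range contains the bad directions -/
noncomputable def comp1 {a : ℕ} (α : ℕ) (f : ℕ → Fin m → ℂ) (t x y : ℂ) (K : Fin a → Fin m → ℂ) :
    Fin (a + 1) → Fin m → ℂ :=
  Fin.cons (x • dform α f t + y • form α f 1 t - ∑ i : Fin a, t ^ ((i : ℕ) + 1) • K i) K

theorem comp1_spec {a : ℕ} (α : ℕ) (f : ℕ → Fin m → ℂ) (t x y : ℂ)
    (K : Fin (a + 1) → Fin m → ℂ)
    (h : ∑ i : Fin (a + 1), t ^ (i : ℕ) • K i = x • dform α f t + y • form α f 1 t) :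
    K = comp1 α f t x y (Fin.tail K) := by
  unfold comp1
  rw [Fin.sum_univ_succ] at h
  funext i
  refine Fin.cases ?_ ?_ i
  · rw [Fin.cons_zero, ← h]
    simp only [Fin.val_zero, pow_zero, one_smul, Fin.val_succ]
    unfold Fin.tail
    abel
  · intro j
    rw [Fin.cons_succ]
    rfl

theorem contDiff_comp1 {a : ℕ} (α : ℕ) (f : ℕ → Fin m → ℂ) {P : Type} [NormedAddCommGroup P]
    [NormedSpace ℝ P] {t x y : P → ℂ} {K : P → Fin a → Fin m → ℂ} (ht : ContDiff ℝ 1 t)
    (hx : ContDiff ℝ 1 x) (hy : ContDiff ℝ 1 y) (hK : ContDiff ℝ 1 K) :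
    ContDiff ℝ 1 fun p => comp1 α f (t p) (x p) (y p) (K p) := by
  unfold comp1
  rw [contDiff_pi]
  intro i
  have hKi : ∀ i, ContDiff ℝ 1 fun p => K p i := fun i => (contDiff_pi.1 hK) i
  refine Fin.cases ?_ ?_ i
  · simp only [Fin.cons_zero]
    apply ContDiff.sub
    · apply ContDiff.add
      · exact hx.smul ((contDiff_dform α f).comp ht)
      · exact hy.smul ((contDiff_form α f).comp ht)
    · apply ContDiff.sum
      intro i _
      exact (ht.pow _).smul (hKi i)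
  · intro j
    simp only [Fin.cons_succ]
    exact hKi j

end smooth

theorem formw_ext {a : ℕ} {κ : Type} (K : Fin (a + 1) → κ → ℂ) (t : ℂ) :
    formw (a + 1) (ext K) 1 t = ∑ i : Fin (a + 1), t ^ (i : ℕ) • K i := by
  unfold formw
  rw [if_neg (Nat.succ_ne_zero a), Nat.add_sub_cancel]
  exact form_ext K t

theorem formw_ext_rev {a : ℕ} {κ : Type} (K : Fin (a + 1) → κ → ℂ) (t : ℂ) :
    formw (a + 1) (rev (a + 1 - 1) (ext K)) 1 t =
      ∑ i : Fin (a + 1), t ^ (i : ℕ) • K (Fin.rev i) := by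
  unfold formw
  rw [if_neg (Nat.succ_ne_zero a), Nat.add_sub_cancel]
  exact form_ext_rev K t

theorem contDiff_rev {a m : ℕ} {P : Type} [NormedAddCommGroup P] [NormedSpace ℝ P]
    {K : P → Fin a → Fin m → ℂ} (hK : ContDiff ℝ 1 K) :
    ContDiff ℝ 1 fun p => (fun i => K p (Fin.rev i)) := by
  rw [contDiff_pi]
  intro i
  exact (contDiff_pi.1 hK) (Fin.rev i)

theorem finrank_pp (a m : ℕ) : finrank ℝ (Fin a → Fin m → ℂ) = 2 * (a * m) := by
  rw [finrank_real_of_complex, Module.finrank_pi_fintype]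
  simp

theorem case_pos {m n : ℕ} (a b : ℕ) (f : ℕ → Fin m → ℂ) (g : ℕ → Fin n → ℂ)
    (h1 : Imm (a + 1) (b + 1) f g) (h2 : Imm (a + 1) (b + 1) (rev (a + 1) f) (rev (b + 1) g))
    (hd : 5 ≤ m + n) :
    ∃ (k : ℕ → Fin m → ℂ) (l : ℕ → Fin n → ℂ), Trans (a + 1) (b + 1) f g k l ∧
      Trans (a + 1) (b + 1) (rev (a + 1) f) (rev (b + 1) g) (rev (a + 1 - 1) k)
        (rev (b + 1 - 1) l) := by
  let P : Type := (ℂ × ℂ × ℂ × ℂ) × (Fin a → Fin m → ℂ) × (Fin b → Fin n → ℂ)
  let E : Type := (Fin (a + 1) → Fin m → ℂ) × (Fin (b + 1) → Fin n → ℂ)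
  let Φ : (ℕ → Fin m → ℂ) → (ℕ → Fin n → ℂ) → P → E := fun f g p =>
    (comp1 (a + 1) f p.1.1 p.1.2.1 p.1.2.2.1 p.2.1, comp1 (b + 1) g p.1.1 p.1.2.1 p.1.2.2.2 p.2.2)
  have hΦ : ∀ f g, ContDiff ℝ 1 (Φ f g) := by
    intro f g
    apply ContDiff.prodMk
    · apply contDiff_comp1 <;> fun_prop
    · apply contDiff_comp1 <;> fun_prop
  have hfin : finrank ℝ P < finrank ℝ E := by
    show finrank ℝ ((ℂ × ℂ × ℂ × ℂ) × (Fin a → Fin m → ℂ) × (Fin b → Fin n → ℂ)) <
      finrank ℝ ((Fin (a + 1) → Fin m → ℂ) × (Fin (b + 1) → Fin n → ℂ))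
    rw [Module.finrank_prod, Module.finrank_prod, Module.finrank_prod, Module.finrank_prod,
      Module.finrank_prod, Module.finrank_prod, finrank_pp, finrank_pp, finrank_pp, finrank_pp,
      Complex.finrank_real_complex]
    nlinarith
  obtain ⟨e, he1, he2⟩ := avoid (Φ f g)
    (fun p => ((fun i => (Φ (rev (a + 1) f) (rev (b + 1) g) p).1 (Fin.rev i),
      fun i => (Φ (rev (a + 1) f) (rev (b + 1) g) p).2 (Fin.rev i)) : E)) (hΦ f g) (by
      apply ContDiff.prodMk
      · exact contDiff_rev (contDiff_fst.comp (hΦ _ _))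
      · exact contDiff_rev (contDiff_snd.comp (hΦ _ _))) hfin
  refine ⟨ext e.1, ext e.2, ?_, ?_⟩
  · intro t
    apply trans_aux (h1 t)
    rintro ⟨x, y, z, hx, hy⟩
    apply he1
    rw [formw_ext] at hx hy
    refine ⟨((t, x, y, z), Fin.tail e.1, Fin.tail e.2), ?_⟩
    apply Prod.ext
    · exact (comp1_spec _ f t x y e.1 hx).symm
    · exact (comp1_spec _ g t x z e.2 hy).symm
  · intro t
    apply trans_aux (h2 t)
    rintro ⟨x, y, z, hx, hy⟩
    apply he2
    rw [formw_ext_rev] at hx hy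
    refine ⟨((t, x, y, z), Fin.tail (fun i => e.1 (Fin.rev i)),
      Fin.tail (fun i => e.2 (Fin.rev i))), ?_⟩
    have e1 := comp1_spec _ (rev (a + 1) f) t x y (fun i => e.1 (Fin.rev i)) hx
    have e2 := comp1_spec _ (rev (b + 1) g) t x z (fun i => e.2 (Fin.rev i)) hy
    apply Prod.ext
    · funext i
      show (comp1 (a + 1) (rev (a + 1) f) t x y (Fin.tail (fun i => e.1 (Fin.rev i))))
        (Fin.rev i) = e.1 i
      rw [← e1]
      show e.1 (Fin.rev (Fin.rev i)) = e.1 i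
      rw [Fin.rev_rev]
    · funext i
      show (comp1 (b + 1) (rev (b + 1) g) t x z (Fin.tail (fun i => e.2 (Fin.rev i))))
        (Fin.rev i) = e.2 i
      rw [← e2]
      show e.2 (Fin.rev (Fin.rev i)) = e.2 i
      rw [Fin.rev_rev]

/-- the case where one of the two degrees is zero, one factor -/
theorem case_one {m : ℕ} (a : ℕ) (f : ℕ → Fin m → ℂ) (hm : 4 ≤ m) :
    ∃ K : Fin (a + 1) → Fin m → ℂ,
      (∀ t, ¬ ∃ x y : ℂ, ∑ i : Fin (a + 1), t ^ (i : ℕ) • K i =
        x • dform (a + 1) f t + y • form (a + 1) f 1 t) ∧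
      (∀ t, ¬ ∃ x y : ℂ, ∑ i : Fin (a + 1), t ^ (i : ℕ) • K (Fin.rev i) =
        x • dform (a + 1) (rev (a + 1) f) t + y • form (a + 1) (rev (a + 1) f) 1 t) := by
  let P : Type := (ℂ × ℂ × ℂ) × (Fin a → Fin m → ℂ)
  let E : Type := (Fin (a + 1) → Fin m → ℂ)
  let Φ : (ℕ → Fin m → ℂ) → P → E := fun f p =>
    comp1 (a + 1) f p.1.1 p.1.2.1 p.1.2.2 p.2
  have hΦ : ∀ f, ContDiff ℝ 1 (Φ f) := by
    intro f
    apply contDiff_comp1 <;> fun_prop
  have hfin : finrank ℝ P < finrank ℝ E := by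
    show finrank ℝ ((ℂ × ℂ × ℂ) × (Fin a → Fin m → ℂ)) < finrank ℝ (Fin (a + 1) → Fin m → ℂ)
    rw [Module.finrank_prod, Module.finrank_prod, Module.finrank_prod, finrank_pp, finrank_pp,
      Complex.finrank_real_complex]
    nlinarith
  obtain ⟨e, he1, he2⟩ := avoid (Φ f)
    (fun p => ((fun i => (Φ (rev (a + 1) f) p) (Fin.rev i)) : E)) (hΦ f)
      (contDiff_rev (hΦ _)) hfin
  refine ⟨e, ?_, ?_⟩
  · rintro t ⟨x, y, hx⟩
    apply he1
    exact ⟨((t, x, y), Fin.tail e), (comp1_spec _ f t x y e hx).symm⟩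
  · rintro t ⟨x, y, hx⟩
    apply he2
    have e1 := comp1_spec _ (rev (a + 1) f) t x y (fun i => e (Fin.rev i)) hx
    refine ⟨((t, x, y), Fin.tail (fun i => e (Fin.rev i))), ?_⟩
    funext i
    show (comp1 (a + 1) (rev (a + 1) f) t x y (Fin.tail (fun i => e (Fin.rev i))))
      (Fin.rev i) = e i
    rw [← e1]
    show e (Fin.rev (Fin.rev i)) = e i
    rw [Fin.rev_rev]

theorem exists_trans {m n : ℕ} (α β : ℕ) (f : ℕ → Fin m → ℂ) (g : ℕ → Fin n → ℂ)
    (h1 : Imm α β f g) (h2 : Imm α β (rev α f) (rev β g)) (hd : 5 ≤ m + n)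
    (hα : α = 0 → 4 ≤ n) (hβ : β = 0 → 4 ≤ m) :
    ∃ (k : ℕ → Fin m → ℂ) (l : ℕ → Fin n → ℂ), Trans α β f g k l ∧
      Trans α β (rev α f) (rev β g) (rev (α - 1) k) (rev (β - 1) l) := by
  rcases Nat.eq_zero_or_eq_succ_pred α with ha | ha
  · rcases Nat.eq_zero_or_eq_succ_pred β with hb | hb
    · exfalso
      have h3 := (h1 0).ne_zero 0
      apply h3
      rw [ha, hb]
      show ((dform 0 f 0, dform 0 g 0) : (Fin m → ℂ) × (Fin n → ℂ)) = 0
      unfold dform
      simp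
    · set b := β.pred with hbdef
      have hn := hα ha
      subst ha
      rw [hb] at h1 h2 ⊢
      obtain ⟨L, hL1, hL2⟩ := case_one b g hn
      refine ⟨fun _ => 0, ext L, ?_, ?_⟩
      · intro t
        apply trans_aux (h1 t)
        rintro ⟨x, y, z, _, hy⟩
        apply hL1 t
        refine ⟨x, z, ?_⟩
        rw [← formw_ext]
        exact hy
      · intro t
        apply trans_aux (h2 t)
        rintro ⟨x, y, z, _, hy⟩
        apply hL2 t
        refine ⟨x, z, ?_⟩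
        rw [← formw_ext_rev]
        exact hy
  · rcases Nat.eq_zero_or_eq_succ_pred β with hb | hb
    · set a := α.pred with hadef
      have hm := hβ hb
      subst hb
      rw [ha] at h1 h2 ⊢
      obtain ⟨K, hK1, hK2⟩ := case_one a f hm
      refine ⟨ext K, fun _ => 0, ?_, ?_⟩
      · intro t
        apply trans_aux (h1 t)
        rintro ⟨x, y, z, hx, _⟩
        apply hK1 t
        refine ⟨x, y, ?_⟩
        rw [← formw_ext]
        exact hx
      · intro t
        apply trans_aux (h2 t)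
        rintro ⟨x, y, z, hx, _⟩
        apply hK2 t
        refine ⟨x, y, ?_⟩
        rw [← formw_ext_rev]
        exact hx
    · rw [ha, hb] at h1 h2 ⊢
      exact case_pos α.pred β.pred f g h1 h2 hd

end Pool.Agent.TH480.J851
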