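import Pool.Agent.TH171.EN.Defs

set_option autoImplicit false

namespace Pool.Agent.TH480.J603

open Matrix

/-- Unit regular rings. -/
def UR (B : Type) [Ring B] : Prop := ∀ a : B, ∃ u : Bˣ, a * u * a = a

theorem exists_equiv {D V : Type} [DivisionRing D] [AddCommGroup V] [Module D V]
    [FiniteDimensional D V] (f : V →ₗ[D] V) : ∃ u : V ≃ₗ[D] V, ∀ v, f (u (f v)) = f v := by
  obtain ⟨C, hC⟩ := Submodule.exists_isCompl (LinearMap.ker f)
  obtain ⟨W, hW⟩ := Submodule.exists_isCompl (LinearMap.range f)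
  have h1 := Submodule.finrank_add_eq_of_isCompl hW
  have h2 := f.finrank_range_add_finrank_ker
  have h3 : Module.finrank D W = Module.finrank D (LinearMap.ker f) := by omega
  let g : W ≃ₗ[D] LinearMap.ker f := LinearEquiv.ofFinrankEq _ _ h3
  let k : C ≃ₗ[D] LinearMap.range f := f.kerComplementEquivRange hC.symm
  let u : V ≃ₗ[D] V := (Submodule.prodEquivOfIsCompl _ _ hW).symm ≪≫ₗ
    (k.symm.prodCongr g) ≪≫ₗ Submodule.prodEquivOfIsCompl _ _ hC.symm
  refine ⟨u, fun v => ?_⟩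
  have h4 : (Submodule.prodEquivOfIsCompl _ _ hW).symm (f v) =
      (⟨f v, LinearMap.mem_range_self f v⟩, 0) :=
    Submodule.prodEquivOfIsCompl_symm_apply_left _ _ hW ⟨f v, LinearMap.mem_range_self f v⟩
  have h5 : u (f v) = (k.symm ⟨f v, LinearMap.mem_range_self f v⟩ : V) := by
    simp only [u, LinearEquiv.trans_apply, h4]
    simp
  rw [h5]
  have h6 := congrArg Subtype.val (k.apply_symm_apply ⟨f v, LinearMap.mem_range_self f v⟩)
  exact h6

theorem UR_matrix (n : ℕ) (D : Type) [DivisionRing D] : UR (Matrix (Fin n) (Fin n) D) := by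
  intro M
  obtain ⟨u, hu⟩ := exists_equiv (Matrix.toLinearMapRight' M)
  let U : Matrix (Fin n) (Fin n) D := Matrix.toLinearMapRight'.symm u.toLinearMap
  let U' : Matrix (Fin n) (Fin n) D := Matrix.toLinearMapRight'.symm u.symm.toLinearMap
  have hU : Matrix.toLinearMapRight' U = u.toLinearMap := LinearEquiv.apply_symm_apply _ _
  have hU' : Matrix.toLinearMapRight' U' = u.symm.toLinearMap := LinearEquiv.apply_symm_apply _ _
  have h1 : U * U' = 1 := by
    apply Matrix.toLinearMapRight'.injective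
    rw [Matrix.toLinearMapRight'_mul, hU, hU', Matrix.toLinearMapRight'_one]
    ext v
    simp
  have h2 : U' * U = 1 := by
    apply Matrix.toLinearMapRight'.injective
    rw [Matrix.toLinearMapRight'_mul, hU, hU', Matrix.toLinearMapRight'_one]
    ext v
    simp
  refine ⟨⟨U, U', h1, h2⟩, ?_⟩
  apply Matrix.toLinearMapRight'.injective
  refine LinearMap.ext fun v => ?_
  rw [Matrix.toLinearMapRight'_mul_apply, Matrix.toLinearMapRight'_mul_apply, hU]
  exact hu v

theorem UR_pi {ι : Type} (B : ι → Type) [∀ i, Ring (B i)] (h : ∀ i, UR (B i)) :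
    UR (∀ i, B i) := by
  intro a
  choose u hu using fun i => h i (a i)
  refine ⟨⟨fun i => u i, fun i => ((u i)⁻¹ : (B i)ˣ), ?_, ?_⟩, ?_⟩
  · funext i
    exact (u i).mul_inv
  · funext i
    exact (u i).inv_mul
  · funext i
    exact hu i

theorem UR_equiv {B C : Type} [Ring B] [Ring C] (e : B ≃+* C) (h : UR C) : UR B := by
  intro a
  obtain ⟨u, hu⟩ := h (e a)
  refine ⟨Units.map e.symm.toMonoidHom u, ?_⟩
  apply e.injective
  rw [map_mul, map_mul]
  have : e ((Units.map e.symm.toMonoidHom u : Bˣ) : B) = u := e.apply_symm_apply _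
  rw [this]
  exact hu

theorem UR_semisimple (B : Type) [Ring B] [IsSemisimpleRing B] : UR B := by
  obtain ⟨n, D, d, _, _, ⟨e⟩⟩ := IsSemisimpleRing.exists_ringEquiv_pi_matrix_divisionRing B
  exact UR_equiv e (UR_pi _ fun i => UR_matrix _ _)

theorem sr_of_UR {B : Type} [Ring B] (hB : UR B) (a b x : B) (h : x * a + b = 1) :
    ∃ t : B, IsUnit (a + t * b) := by
  obtain ⟨u, hu⟩ := hB a
  have hb : b = 1 - x * a := eq_sub_of_add_eq' h
  have hv : (↑u⁻¹ : B) * (u * a) = a := by rw [← mul_assoc, u.inv_mul, one_mul]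
  have he : (u * a) * (u * a) = (u : B) * a := by
    rw [mul_assoc, ← mul_assoc a, hu]
  refine ⟨↑u⁻¹ * (1 - u * a), ?_⟩
  have h1 : a + ↑u⁻¹ * (1 - u * a) * b = ↑u⁻¹ * (1 - (1 - u * a) * x * a) := by
    rw [hb]
    calc a + ↑u⁻¹ * (1 - u * a) * (1 - x * a)
        = ↑u⁻¹ * (u * a) + ↑u⁻¹ * (1 - u * a) * (1 - x * a) := by rw [hv]
      _ = _ := by noncomm_ring
  rw [h1]
  refine IsUnit.mul (Units.isUnit _) ?_
  have h2 : ((1 - u * a) * x * a) * ((1 - u * a) * x * a) = 0 := by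
    have h3 : a * (1 - u * a) = 0 := by
      rw [mul_sub, mul_one, ← mul_assoc, hu, sub_self]
    calc ((1 - u * a) * x * a) * ((1 - u * a) * x * a)
        = ((1 - u * a) * x) * (a * (1 - u * a)) * (x * a) := by noncomm_ring
      _ = 0 := by rw [h3, mul_zero, zero_mul]
  refine ⟨⟨1 - (1 - u * a) * x * a, 1 + (1 - u * a) * x * a, ?_, ?_⟩, rfl⟩
  · rw [sub_mul, mul_add, mul_add, h2]
    simp
  · rw [add_mul, mul_sub, mul_sub, h2]
    simp

theorem isUnit_of_isUnit_mk {B : Type} [Ring B] (J : Ideal B) [J.IsTwoSided]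
    (hJ : IsNilpotent J) (a : B) (ha : IsUnit (Ideal.Quotient.mk J a)) : IsUnit a := by
  obtain ⟨n, hn⟩ := hJ
  have key : ∀ y : B, Ideal.Quotient.mk J y = 1 → IsUnit y := by
    intro y hy
    have h1 : y - 1 ∈ J := by
      rw [← Ideal.Quotient.eq_zero_iff_mem, map_sub, hy, map_one, sub_self]
    have h2 : IsNilpotent (y - 1) := by
      refine ⟨n, ?_⟩
      have := Ideal.pow_mem_pow h1 n
      rw [hn] at this
      exact this
    have h3 := h2.isUnit_one_add
    rwa [add_sub_cancel] at h3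
  obtain ⟨c, hc⟩ := Ideal.Quotient.mk_surjective (↑ha.unit⁻¹ : B ⧸ J)
  have h1 : IsUnit (a * c) := key _ (by rw [map_mul, hc]; exact ha.mul_val_inv)
  have h2 : IsUnit (c * a) := key _ (by rw [map_mul, hc]; exact ha.val_inv_mul)
  obtain ⟨u, hu⟩ := h1
  obtain ⟨v, hv⟩ := h2
  refine isUnit_iff_exists_and_exists.2 ⟨⟨c * ↑u⁻¹, ?_⟩, ⟨↑v⁻¹ * c, ?_⟩⟩
  · rw [← mul_assoc, ← hu, u.mul_inv]
  · rw [mul_assoc, ← hv, v.inv_mul]

theorem exists_isUnit_add_mul {B : Type} [Ring B] [IsArtinianRing B] (a b x : B)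
    (h : x * a + b = 1) : ∃ t : B, IsUnit (a + t * b) := by
  have : IsSemisimpleRing (B ⧸ Ring.jacobson B) := IsSemiprimaryRing.isSemisimpleRing
  obtain ⟨t, ht⟩ := sr_of_UR (UR_semisimple (B ⧸ Ring.jacobson B))
    (Ideal.Quotient.mk _ a) (Ideal.Quotient.mk _ b) (Ideal.Quotient.mk _ x) (by
      rw [← map_mul, ← map_add, h, map_one])
  obtain ⟨t, rfl⟩ := Ideal.Quotient.mk_surjective t
  refine ⟨t, isUnit_of_isUnit_mk (Ring.jacobson B) IsSemiprimaryRing.isNilpotent _ ?_⟩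
  rwa [map_add, map_mul]

end Pool.Agent.TH480.J603
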