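import Pool.Agent.TH171.EN.Defs

set_option autoImplicit false

namespace Pool.Agent.TH480.J604

open Matrix

section

variable {Z D : Type} [CommRing Z] [Ring D] [Algebra Z D]

/-- The two-sided ideal `m D`. -/
def mD (m : Ideal Z) : Ideal D where
  carrier := ((m • (⊤ : Submodule Z D) : Submodule Z D) : Set D)
  add_mem' := fun hx hy => (m • (⊤ : Submodule Z D)).add_mem hx hy
  zero_mem' := (m • (⊤ : Submodule Z D)).zero_mem
  smul_mem' := by
    intro d x hx
    change d * x ∈ m • (⊤ : Submodule Z D)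
    refine Submodule.smul_induction_on (p := fun x => d * x ∈ m • (⊤ : Submodule Z D)) hx ?_ ?_
    · intro r hr y _
      rw [mul_smul_comm]
      exact Submodule.smul_mem_smul hr trivial
    · intro x y hx hy
      rw [mul_add]
      exact Submodule.add_mem _ hx hy

lemma mem_mD {m : Ideal Z} {x : D} : x ∈ mD m ↔ x ∈ m • (⊤ : Submodule Z D) := Iff.rfl

instance (m : Ideal Z) : (mD m : Ideal D).IsTwoSided := by
  refine ⟨fun {x} d hx => ?_⟩
  rw [mem_mD] at hx ⊢
  refine Submodule.smul_induction_on (p := fun x => x * d ∈ m • (⊤ : Submodule Z D)) hx ?_ ?_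
  · intro r hr y _
    rw [smul_mul_assoc]
    exact Submodule.smul_mem_smul hr trivial
  · intro x y hx hy
    rw [add_mul]
    exact Submodule.add_mem _ hx hy

lemma le_comap_mD (m : Ideal Z) : m ≤ (mD m : Ideal D).comap (algebraMap Z D) := by
  intro r hr
  rw [Ideal.mem_comap, mem_mD, Algebra.algebraMap_eq_smul_one]
  exact Submodule.smul_mem_smul hr trivial

theorem isArtinianRing_quot [Module.Finite Z D] (m : Ideal Z) (hm : m.IsMaximal) :
    IsArtinianRing (D ⧸ (mD m : Ideal D)) := by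
  let _ : Algebra (Z ⧸ m) (D ⧸ (mD m : Ideal D)) :=
    Ideal.Quotient.algebraQuotientOfLEComap (le_comap_mD m)
  let _ : Field (Z ⧸ m) := Ideal.Quotient.field m
  have h1 : IsScalarTower Z (Z ⧸ m) (D ⧸ (mD m : Ideal D)) :=
    IsScalarTower.of_algebraMap_eq fun _ => rfl
  have h2 : Module.Finite Z (D ⧸ (mD m : Ideal D)) :=
    Module.Finite.of_surjective (Ideal.Quotient.mkₐ Z (mD m : Ideal D)).toLinearMap
      Ideal.Quotient.mk_surjective
  have h3 : Module.Finite (Z ⧸ m) (D ⧸ (mD m : Ideal D)) :=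
    Module.Finite.of_restrictScalars_finite Z (Z ⧸ m) _
  exact IsArtinianRing.of_finite (Z ⧸ m) _

/-- Nakayama, left. -/
theorem nak_left [Module.Finite Z D] (m : Ideal Z) (c y : D) (h : c * y - 1 ∈ (mD m : Ideal D)) :
    ∃ s : Z, s - 1 ∈ m ∧ ∃ b : D, b * y = algebraMap Z D s := by
  obtain ⟨s, hs, hs2⟩ := Submodule.exists_sub_one_mem_and_smul_le_of_fg_of_le_sup (I := m)
    (N := LinearMap.range (LinearMap.mulRight Z y)) (N' := ⊤) (P := ⊤) (M := D)
    Module.Finite.fg_top le_top (by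
      intro d _
      have e : d = d * c * y + (- (d * (c * y - 1))) := by noncomm_ring
      rw [e]
      refine Submodule.add_mem_sup ⟨d * c, by simp⟩ ?_
      exact Submodule.neg_mem _ (mem_mD.1 ((mD m).mul_mem_left d h)))
  refine ⟨s, hs, ?_⟩
  obtain ⟨b, hb⟩ := hs2 (Submodule.smul_mem_pointwise_smul (1 : D) s ⊤ trivial)
  refine ⟨b, ?_⟩
  rw [LinearMap.mulRight_apply] at hb
  rw [hb, Algebra.algebraMap_eq_smul_one]

/-- Nakayama, right. -/
theorem nak_right [Module.Finite Z D] (m : Ideal Z) (c y : D)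
    (h : y * c - 1 ∈ (mD m : Ideal D)) :
    ∃ s : Z, s - 1 ∈ m ∧ ∃ b : D, y * b = algebraMap Z D s := by
  obtain ⟨s, hs, hs2⟩ := Submodule.exists_sub_one_mem_and_smul_le_of_fg_of_le_sup (I := m)
    (N := LinearMap.range (LinearMap.mulLeft Z y)) (N' := ⊤) (P := ⊤) (M := D)
    Module.Finite.fg_top le_top (by
      intro d _
      have e : d = y * (c * d) + (- ((y * c - 1) * d)) := by noncomm_ring
      rw [e]
      refine Submodule.add_mem_sup ⟨c * d, by simp⟩ ?_
      exact Submodule.neg_mem _ (mem_mD.1 ((mD m).mul_mem_right d h)))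
  refine ⟨s, hs, ?_⟩
  obtain ⟨b, hb⟩ := hs2 (Submodule.smul_mem_pointwise_smul (1 : D) s ⊤ trivial)
  refine ⟨b, ?_⟩
  rw [LinearMap.mulLeft_apply] at hb
  rw [hb, Algebra.algebraMap_eq_smul_one]

end

theorem exists_central_multiple {Z D : Type} [CommRing Z] [Ring D] [Algebra Z D]
    [Module.Finite Z D]
    (hsr : ∀ (B : Type) [Ring B] [IsArtinianRing B] (a b x : B), x * a + b = 1 →
      ∃ t : B, IsUnit (a + t * b))
    (m : Ideal Z) (hm : m.IsMaximal) {n : ℕ} (p : Fin n) (u w : Fin n → D) (h : w ⬝ᵥ u = 1) :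
    ∃ (t : Fin n → D) (y : D) (s : Z), s ∉ m ∧
      (u p + ∑ q ∈ Finset.univ.erase p, t q * u q) * y = algebraMap Z D s ∧
      y * (u p + ∑ q ∈ Finset.univ.erase p, t q * u q) = algebraMap Z D s := by
  have hart := isArtinianRing_quot (D := D) m hm
  have hsum : w p * u p + ∑ q ∈ Finset.univ.erase p, w q * u q = 1 := by
    rw [← h, dotProduct]
    exact Finset.add_sum_erase Finset.univ (fun q => w q * u q) (Finset.mem_univ p)
  obtain ⟨t0, ht0⟩ := hsr (D ⧸ (mD m : Ideal D)) (Ideal.Quotient.mk _ (u p))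
    (Ideal.Quotient.mk _ (∑ q ∈ Finset.univ.erase p, w q * u q)) (Ideal.Quotient.mk _ (w p)) (by
      rw [← map_mul, ← map_add, hsum, map_one])
  obtain ⟨t0, rfl⟩ := Ideal.Quotient.mk_surjective t0
  rw [← map_mul, ← map_add, Finset.mul_sum] at ht0
  have e1 : ∑ q ∈ Finset.univ.erase p, t0 * (w q * u q) =
      ∑ q ∈ Finset.univ.erase p, (t0 * w q) * u q :=
    Finset.sum_congr rfl fun q _ => (mul_assoc _ _ _).symm
  rw [e1] at ht0
  refine ⟨fun q => t0 * w q, ?_⟩
  generalize hy0 : u p + ∑ q ∈ Finset.univ.erase p, (t0 * w q) * u q = y0 at ht0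
  obtain ⟨c, hc⟩ := Ideal.Quotient.mk_surjective (↑ht0.unit⁻¹ : D ⧸ (mD m : Ideal D))
  have h1 : c * y0 - 1 ∈ (mD m : Ideal D) := by
    rw [← Ideal.Quotient.eq_zero_iff_mem, map_sub, map_mul, hc, map_one]
    exact sub_eq_zero.2 ht0.val_inv_mul
  have h2 : y0 * c - 1 ∈ (mD m : Ideal D) := by
    rw [← Ideal.Quotient.eq_zero_iff_mem, map_sub, map_mul, hc, map_one]
    exact sub_eq_zero.2 ht0.mul_val_inv
  obtain ⟨s1, hs1, b1, hb1⟩ := nak_left m c y0 h1
  obtain ⟨s2, hs2, b2, hb2⟩ := nak_right m c y0 h2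
  have hs1' : s1 ∉ m := fun hmem => hm.ne_top ((Ideal.eq_top_iff_one _).2 (by
    have := m.sub_mem hmem hs1
    rwa [sub_sub_cancel] at this))
  have hs2' : s2 ∉ m := fun hmem => hm.ne_top ((Ideal.eq_top_iff_one _).2 (by
    have := m.sub_mem hmem hs2
    rwa [sub_sub_cancel] at this))
  have hprime : m.IsPrime := hm.isPrime
  -- `s1 b2 = b1 y0 b2 = b1 s2`
  have hkey : algebraMap Z D s1 * b2 = b1 * algebraMap Z D s2 := by
    rw [← hb1, ← hb2, mul_assoc]
  refine ⟨algebraMap Z D s1 * b2, s1 * s2, ?_, ?_, ?_⟩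
  · intro hmem
    rcases hprime.mem_or_mem hmem with hh | hh
    · exact hs1' hh
    · exact hs2' hh
  · rw [← mul_assoc, ← Algebra.commutes s1 y0, mul_assoc, hb2, map_mul]
  · rw [hkey, mul_assoc, Algebra.commutes s2 y0, ← mul_assoc, hb1, map_mul]

end Pool.Agent.TH480.J604
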