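import Pool.Agent.TH171.EN.Defs

set_option autoImplicit false

namespace Pool.Agent.TH480.J608

open Matrix Pool.Agent.TH171.EN

section

variable {L A : Type} [Field L] [Ring A] [Algebra L A] {k : ℕ}

/-- The Capelli expression as an alternating map. -/
noncomputable def capA (L : Type) [Field L] [Algebra L A] (y : Fin (k + 1) → A) :
    A [⋀^Fin k]→ₗ[L] A :=
  MultilinearMap.alternatization ((LinearMap.mulLeft L (y 0)).compMultilinearMap
    ((MultilinearMap.mkPiAlgebraFin L k A).compLinearMap
      (fun i => LinearMap.mulRight L (y i.succ))))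

lemma capA_apply (y : Fin (k + 1) → A) (z : Fin k → A) : capA L y z = cap z y := by
  rw [capA, MultilinearMap.alternatization_apply, cap]
  refine Finset.sum_congr rfl fun σ _ => ?_
  rw [Units.smul_def]
  congr 1

/-- An alternating map in top degree is multiplied by the determinant. -/
lemma alt_det {M : Type} [AddCommGroup M] [Module L M] (e : Module.Basis (Fin k) L M)
    (f : M [⋀^Fin k]→ₗ[L] L) (T : M →ₗ[L] M) (v : Fin k → M) :
    f (fun i => T (v i)) = LinearMap.det T * f v := by
  have h := f.eq_smul_basis_det e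
  have h1 : f (fun i => T (v i)) = f e * e.det (T ∘ v) := by
    conv_lhs => rw [h]
    rfl
  have h2 : f v = f e * e.det v := by
    conv_lhs => rw [h]
    rfl
  rw [h1, h2, Module.Basis.det_comp]
  ring

lemma alt_expand {M : Type} [AddCommGroup M] [Module L M]
    (f : M [⋀^Fin k]→ₗ[L] L) (X : M →ₗ[L] M) (v : Fin k → M) (r : L) :
    f (fun i => r • v i - X (v i)) = ∑ S : Finset (Fin k),
      ((-1) ^ S.card * r ^ (k - S.card)) * f (fun i => if i ∈ S then X (v i) else v i) := by
  have h1 : (fun i => r • v i - X (v i)) = (fun i => (-1 : L) • X (v i)) + (fun i => r • v i) := by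
    funext i
    simp only [Pi.add_apply, neg_smul, one_smul]
    abel
  rw [h1, AlternatingMap.map_add_univ]
  refine Finset.sum_congr rfl fun S _ => ?_
  have h2 : S.piecewise (fun i => (-1 : L) • X (v i)) (fun i => r • v i) =
      fun i => (if i ∈ S then (-1 : L) else r) • (if i ∈ S then X (v i) else v i) := by
    funext i
    by_cases hi : i ∈ S
    · rw [Finset.piecewise_eq_of_mem _ _ _ hi, if_pos hi, if_pos hi]
    · rw [Finset.piecewise_eq_of_notMem _ _ _ hi, if_neg hi, if_neg hi]
  rw [h2, AlternatingMap.map_smul_univ, smul_eq_mul]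
  congr 1
  rw [Finset.prod_ite, Finset.prod_const, Finset.prod_const]
  congr 2
  · rw [Finset.filter_mem_eq_inter, Finset.univ_inter]
  · rw [Finset.filter_not, Finset.filter_mem_eq_inter, Finset.univ_inter,
      Finset.card_sdiff_of_subset (Finset.subset_univ S), Finset.card_univ, Fintype.card_fin]

open Polynomial in
lemma alt_charpoly [Infinite L] {M : Type} [AddCommGroup M] [Module L M] [Module.Finite L M]
    (e : Module.Basis (Fin k) L M)
    (f : M [⋀^Fin k]→ₗ[L] L) (T : M →ₗ[L] M) (v : Fin k → M) (j : ℕ) (hj : j ≤ k) :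
    T.charpoly.coeff j * f v = (-1) ^ (k - j) *
      ∑ S ∈ Finset.powersetCard (k - j) (Finset.univ : Finset (Fin k)),
        f (fun i => if i ∈ S then T (v i) else v i) := by
  have hpoly : T.charpoly * C (f v) = ∑ S : Finset (Fin k),
      X ^ (k - S.card) * C ((-1) ^ S.card * f (fun i => if i ∈ S then T (v i) else v i)) := by
    apply Polynomial.funext
    intro r
    have h1 := alt_expand f T v r
    have h2 : (fun i => r • v i - T (v i)) = fun i => (algebraMap L (Module.End L M) r - T) (v i) :=
      rfl
    rw [h2, alt_det e] at h1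
    rw [eval_mul, eval_C, LinearMap.eval_charpoly, h1, eval_finsetSum]
    refine Finset.sum_congr rfl fun S _ => ?_
    rw [eval_mul, eval_pow, eval_X, eval_C]
    ring
  have hcoeff := congrArg (fun p => Polynomial.coeff p j) hpoly
  simp only [coeff_mul_C, finsetSum_coeff, coeff_X_pow] at hcoeff
  rw [hcoeff, Finset.mul_sum]
  have h3 : Finset.powersetCard (k - j) (Finset.univ : Finset (Fin k)) =
      Finset.univ.filter (fun S : Finset (Fin k) => S.card = k - j) := by
    ext S
    simp [Finset.mem_powersetCard]
  rw [h3, Finset.sum_filter]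
  refine Finset.sum_congr rfl fun S _ => ?_
  have hS : S.card ≤ k := by
    have := Finset.card_le_univ S
    rwa [Fintype.card_fin] at this
  by_cases hSj : S.card = k - j
  · have : j = k - S.card := by omega
    rw [if_pos hSj, if_pos this, one_mul, hSj]
  · have : j ≠ k - S.card := by omega
    rw [if_neg hSj, if_neg this, zero_mul]

end

theorem cap_charpoly {L : Type} [Field L] [Infinite L] {s k : ℕ} (hk : s ^ 2 ≤ k)
    (x : Matrix (Fin s) (Fin s) L) (z : Fin k → Matrix (Fin s) (Fin s) L)
    (y : Fin (k + 1) → Matrix (Fin s) (Fin s) L) (j : ℕ) (hj : j ≤ k) :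
    ((LinearMap.mulLeft L x).charpoly * Polynomial.X ^ (k - s ^ 2)).coeff j • cap z y =
      (-1 : ℤ) ^ (k - j) • ∑ S ∈ Finset.powersetCard (k - j) (Finset.univ : Finset (Fin k)),
        cap (fun i => if i ∈ S then x * z i else z i) y := by
  have hdim : Module.finrank L (Matrix (Fin s) (Fin s) L) = s ^ 2 := by
    rw [Module.finrank_matrix, Fintype.card_fin, Module.finrank_self, mul_one, pow_two]
  rcases hk.lt_or_eq with hlt | heq
  · have h0 : ∀ z : Fin k → Matrix (Fin s) (Fin s) L, cap z y = 0 := by
      intro z
      rw [← capA_apply (L := L)]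
      apply AlternatingMap.map_linearDependent
      intro hli
      have := hli.fintype_card_le_finrank
      rw [Fintype.card_fin, hdim] at this
      omega
    rw [h0, smul_zero, Finset.sum_eq_zero (fun S _ => h0 _), smul_zero]
  · subst heq
    rw [Nat.sub_self, pow_zero, mul_one]
    ext a b
    let e : Module.Basis (Fin (s ^ 2)) L (Matrix (Fin s) (Fin s) L) :=
      Module.finBasisOfFinrankEq L _ hdim
    let f : (Matrix (Fin s) (Fin s) L) [⋀^Fin (s ^ 2)]→ₗ[L] L :=
      (Matrix.entryLinearMap L L a b).compAlternatingMap (capA L y)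
    have hf : ∀ z, f z = cap z y a b := by
      intro z
      rw [← capA_apply (L := L)]
      rfl
    have h := alt_charpoly e f (LinearMap.mulLeft L x) z j hj
    simp only [LinearMap.mulLeft_apply, hf] at h
    rw [Matrix.smul_apply, smul_eq_mul, h, Matrix.smul_apply, Matrix.sum_apply, zsmul_eq_mul]
    congr 1
    push_cast
    rfl

end Pool.Agent.TH480.J608
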