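import Pool.Agent.H314.BK.C3
import Pool.Agent.Helper853.LogSum
import Pool.Agent.Helper540.Holo

set_option autoImplicit false

open MeasureTheory Complex Filter Topology
open scoped ContDiff ComplexConjugate

namespace Pool.Agent.TH480.J216

open BK

variable {n : ℕ}

noncomputable def rh {n : ℕ} (z : En n) : ℝ := Real.sqrt (1 + ∑ j, ‖z j‖ ^ 2)

/-- second derivative along a vector -/
noncomputable def Hv (f : En n → ℝ) (x v : En n) : ℝ :=
  fderiv ℝ (fun y => fderiv ℝ f y v) x v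

noncomputable def gr (f g : En n → ℝ) (x a : En n) : ℝ :=
  (1 / 4) * (fderiv ℝ f x a * fderiv ℝ g x a + fderiv ℝ f x (I • a) * fderiv ℝ g x (I • a))

theorem Lv_eq (f : En n → ℝ) (x a : En n) :
    Lv f x a = (1 / 4) * (Hv f x a + Hv f x (I • a)) := rfl

theorem gr_nonneg (f : En n → ℝ) (x a : En n) : 0 ≤ gr f f x a := by
  unfold gr
  nlinarith [mul_self_nonneg (fderiv ℝ f x a), mul_self_nonneg (fderiv ℝ f x (I • a))]

theorem gr_cs (f g : En n → ℝ) (x a : En n) :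
    gr f g x a ^ 2 ≤ gr f f x a * gr g g x a := by
  unfold gr
  nlinarith [sq_nonneg (fderiv ℝ f x a * fderiv ℝ g x (I • a) -
    fderiv ℝ f x (I • a) * fderiv ℝ g x a)]

theorem sm_diff {f : En n → ℝ} (hf : ContDiff ℝ ∞ f) (x : En n) : DifferentiableAt ℝ f x :=
  (hf.differentiable (by simp)).differentiableAt

theorem fd_mul {f g : En n → ℝ} (hf : ContDiff ℝ ∞ f) (hg : ContDiff ℝ ∞ g) (x v : En n) :
    fderiv ℝ (fun y => f y * g y) x v = f x * fderiv ℝ g x v + g x * fderiv ℝ f x v := by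
  rw [fderiv_fun_mul (sm_diff hf x) (sm_diff hg x)]
  simp

theorem Hv_mul {f g : En n → ℝ} (hf : ContDiff ℝ ∞ f) (hg : ContDiff ℝ ∞ g) (x v : En n) :
    Hv (fun y => f y * g y) x v = f x * Hv g x v + g x * Hv f x v +
      2 * (fderiv ℝ f x v * fderiv ℝ g x v) := by
  unfold Hv
  have e1 : (fun y => fderiv ℝ (fun z => f z * g z) y v) =
      fun y => f y * fderiv ℝ g y v + g y * fderiv ℝ f y v := by
    funext y; exact fd_mul hf hg y v
  rw [e1]
  have h1 := (sm_diff hf x).hasFDerivAt.mul (JC3.C3x.hasFD_apply hg x v)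
  have h2 := (sm_diff hg x).hasFDerivAt.mul (JC3.C3x.hasFD_apply hf x v)
  have h3 := (h1.add h2).fderiv
  have h4 : fderiv ℝ (fun y => f y * fderiv ℝ g y v + g y * fderiv ℝ f y v) x = _ := h3
  rw [h4, JC3.C3x.H_eq hg, JC3.C3x.H_eq hf]
  simp only [add_apply, smul_apply, smul_eq_mul, ContinuousLinearMap.comp_apply,
    ContinuousLinearMap.apply_apply]
  ring

theorem Lv_mul {f g : En n → ℝ} (hf : ContDiff ℝ ∞ f) (hg : ContDiff ℝ ∞ g) (x a : En n) :
    Lv (fun y => f y * g y) x a = f x * Lv g x a + g x * Lv f x a + 2 * gr f g x a := by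
  rw [Lv_eq, Lv_eq, Lv_eq, Hv_mul hf hg, Hv_mul hf hg, gr]
  ring

theorem fd_exp {f : En n → ℝ} (hf : ContDiff ℝ ∞ f) (x v : En n) :
    fderiv ℝ (fun y => Real.exp (f y)) x v = Real.exp (f x) * fderiv ℝ f x v := by
  rw [((sm_diff hf x).hasFDerivAt.exp).fderiv]
  simp

theorem Lv_exp {f : En n → ℝ} (hf : ContDiff ℝ ∞ f) (x a : En n) :
    Lv (fun y => Real.exp (f y)) x a = Real.exp (f x) * (Lv f x a + gr f f x a) := by
  rw [JC3.C3x.Lv_comp hf Real.contDiff_exp]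
  simp only [Real.deriv_exp]
  rw [gr]
  ring

theorem fd_const_mul {f : En n → ℝ} (hf : ContDiff ℝ ∞ f) (c : ℝ) (x v : En n) :
    fderiv ℝ (fun y => c * f y) x v = c * fderiv ℝ f x v := by
  rw [fderiv_const_mul (sm_diff hf x)]
  rfl

theorem fd_add {f g : En n → ℝ} (hf : ContDiff ℝ ∞ f) (hg : ContDiff ℝ ∞ g) (x v : En n) :
    fderiv ℝ (fun y => f y + g y) x v = fderiv ℝ f x v + fderiv ℝ g x v := by
  rw [fderiv_fun_add (sm_diff hf x) (sm_diff hg x)]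
  rfl

/-- `1 + c |z|^2` -/
noncomputable def Sc (c : ℝ) (y : En n) : ℝ := 1 + c * ∑ j, ‖y j‖ ^ 2

theorem Sc_smooth (c : ℝ) : ContDiff ℝ ∞ (Sc c : En n → ℝ) := by
  unfold Sc
  refine contDiff_const.add (contDiff_const.mul (ContDiff.sum fun j _ => ?_))
  exact (contDiff_apply ℝ ℂ j).norm_sq ℝ

theorem Sc_fd (c : ℝ) (x v : En n) :
    fderiv ℝ (Sc c) x v = 2 * c * ∑ j, inner ℝ (v j) (x j) := by
  have : fderiv ℝ (Sc c) x = fderiv ℝ (fun y : En n => c * ∑ j, ‖y j‖ ^ 2) x := by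
    unfold Sc
    exact fderiv_const_add _
  rw [this]
  exact JC3.C3x.Lv_sq_fd c x v

theorem Sc_Lv (c : ℝ) (x a : En n) : Lv (Sc c) x a = c * ∑ j, ‖a j‖ ^ 2 := by
  have h1 : ∀ v, Hv (Sc c) x v = 2 * c * ∑ j, ‖v j‖ ^ 2 := by
    intro v
    unfold Hv
    have : (fun y => fderiv ℝ (Sc c) y v) =
        fun y => fderiv ℝ (fun y : En n => c * ∑ j, ‖y j‖ ^ 2) y v := by
      funext y
      rw [Sc_fd]
      exact (JC3.C3x.Lv_sq_fd c y v).symm
    rw [this]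
    exact JC3.C3x.Lv_sq_fd2 c x v
  rw [Lv_eq, h1, h1]
  have h2 : ∀ j, ‖(I • a) j‖ = ‖a j‖ := by
    intro j
    rw [Pi.smul_apply, norm_smul, Complex.norm_I, one_mul]
  simp only [h2]
  ring

theorem Sc_gr (c : ℝ) (x a : En n) :
    gr (Sc c) (Sc c) x a ≤ c ^ 2 * ((∑ j, ‖x j‖ ^ 2) * ∑ j, ‖a j‖ ^ 2) := by
  unfold gr
  rw [Sc_fd, Sc_fd]
  set Z : ℂ := ∑ j, conj (a j) * x j with hZ
  have h1 : ∑ j, inner ℝ (a j) (x j) = Z.re := by
    rw [hZ, Complex.re_sum]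
    refine Finset.sum_congr rfl fun j _ => ?_
    rw [Complex.inner]
    congr 1
    ring
  have h2 : ∑ j, inner ℝ ((I • a) j) (x j) = Z.im := by
    rw [hZ, Complex.im_sum]
    refine Finset.sum_congr rfl fun j _ => ?_
    rw [Complex.inner, Pi.smul_apply, smul_eq_mul]
    simp
    ring
  rw [h1, h2]
  have h3 := Pool.Agent.Helper853.cauchy_sumSq (fun j => a j) (fun j => x j)
  rw [← hZ, Complex.sq_norm, Complex.normSq_apply] at h3
  have h4 : 0 ≤ c ^ 2 := sq_nonneg c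
  have h5 := mul_le_mul_of_nonneg_left h3 h4
  nlinarith

theorem real_ineq {A ε η N r Q q2 g gQS gSS LQ : ℝ} (hA : 1 ≤ A) (hε : 0 < ε) (hε1 : ε ≤ 1)
    (hη : η = ε ^ 4 / (32 * A ^ 4)) (hN : 0 ≤ N) (hr : 1 ≤ r) (hQ : 0 ≤ Q) (hQA : Q ≤ A * r)
    (hq2 : 0 ≤ q2) (hg : g ^ 2 * r ^ 2 ≤ N * q2) (hQS : gQS ^ 2 ≤ q2 * (r ^ 2 * N))
    (hSS : gSS ≤ r ^ 2 * N)
    (hLQ : -(η * (Q * (N / r ^ 2))) - η * |g| ≤ LQ) :
    ε ^ 4 * r ^ 2 * N / 2 ≤ 2 * (Q ^ 2 + ε ^ 2 * r ^ 2) * (2 * Q * LQ + 2 * q2 + ε ^ 2 * N) -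
      (4 * Q ^ 2 * q2 + 4 * Q * ε ^ 2 * gQS + ε ^ 4 * gSS) := by
  have hA0 : 0 < A := by linarith
  have hr0 : 0 < r := by linarith
  have hη0 : 0 < η := by rw [hη]; positivity
  set X := Q ^ 2 + ε ^ 2 * r ^ 2 with hX
  have hX0 : 0 ≤ X := by positivity
  have hXle : X ≤ 2 * A ^ 2 * r ^ 2 := by
    have h1 : Q ^ 2 ≤ (A * r) ^ 2 := pow_le_pow_left₀ hQ hQA 2
    have h2 : ε ^ 2 ≤ A ^ 2 := pow_le_pow_left₀ hε.le (hε1.trans hA) 2
    have h3 : ε ^ 2 * r ^ 2 ≤ A ^ 2 * r ^ 2 := by gcongr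
    nlinarith
  -- (a)
  have ha : 2 * Q * gQS ≤ r ^ 2 * q2 + Q ^ 2 * N := by
    have h0 : 0 ≤ r ^ 2 * q2 + Q ^ 2 * N := by positivity
    have h1 : (2 * Q * gQS) ^ 2 ≤ (r ^ 2 * q2 + Q ^ 2 * N) ^ 2 := by
      have h2 : (2 * Q * gQS) ^ 2 ≤ 4 * Q ^ 2 * (q2 * (r ^ 2 * N)) := by
        have := mul_le_mul_of_nonneg_left hQS (by positivity : 0 ≤ 4 * Q ^ 2)
        linarith
      nlinarith [sq_nonneg (r ^ 2 * q2 - Q ^ 2 * N)]
    exact (le_abs_self _).trans (abs_le_of_sq_le_sq h1 h0)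
  -- (b)
  set t := r * |g| with ht
  have ht2 : t ^ 2 ≤ N * q2 := by
    rw [ht, mul_pow, sq_abs]; linarith
  have hb : 8 * A ^ 3 * η * t ≤ 2 * ε ^ 2 * q2 + 8 * A ^ 6 * η ^ 2 * N / ε ^ 2 := by
    have h0 : 0 ≤ 2 * ε ^ 2 * q2 + 8 * A ^ 6 * η ^ 2 * N / ε ^ 2 := by positivity
    have h1 : (8 * A ^ 3 * η * t) ^ 2 ≤
        (2 * ε ^ 2 * q2 + 8 * A ^ 6 * η ^ 2 * N / ε ^ 2) ^ 2 := by
      have h2 : (8 * A ^ 3 * η * t) ^ 2 ≤ 64 * A ^ 6 * η ^ 2 * (N * q2) := by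
        have := mul_le_mul_of_nonneg_left ht2 (by positivity : 0 ≤ 64 * A ^ 6 * η ^ 2)
        nlinarith
      have h3 : 64 * A ^ 6 * η ^ 2 * (N * q2) =
          4 * (2 * ε ^ 2 * q2) * (8 * A ^ 6 * η ^ 2 * N / ε ^ 2) := by
        field_simp
        ring
      nlinarith [sq_nonneg (2 * ε ^ 2 * q2 - 8 * A ^ 6 * η ^ 2 * N / ε ^ 2)]
    exact (le_abs_self _).trans (abs_le_of_sq_le_sq h1 h0)
  have hb2 : 8 * A ^ 6 * η ^ 2 * N / ε ^ 2 ≤ ε ^ 4 * N / 128 := by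
    have h1 : 8 * A ^ 6 * η ^ 2 * N / ε ^ 2 = ε ^ 6 * N / (128 * A ^ 2) := by
      rw [hη]
      field_simp
      ring
    rw [h1, div_le_div_iff₀ (by positivity) (by norm_num)]
    have h2 : ε ^ 6 ≤ ε ^ 4 := pow_le_pow_of_le_one hε.le hε1 (by norm_num)
    have h3 : 1 ≤ A ^ 2 := one_le_pow₀ hA
    have h4 : ε ^ 6 * N ≤ ε ^ 4 * N := by gcongr
    have h5 : ε ^ 4 * N * 1 ≤ ε ^ 4 * N * A ^ 2 := by gcongr
    nlinarith
  -- (c)
  have hXQ : X * Q ≤ 2 * A ^ 3 * r ^ 3 := by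
    calc X * Q ≤ (2 * A ^ 2 * r ^ 2) * (A * r) := by gcongr
      _ = 2 * A ^ 3 * r ^ 3 := by ring
  have hc1 : 4 * (X * Q) * (η * |g|) ≤ r ^ 2 * (2 * ε ^ 2 * q2 + ε ^ 4 * N / 128) := by
    calc 4 * (X * Q) * (η * |g|) ≤ 4 * (2 * A ^ 3 * r ^ 3) * (η * |g|) := by gcongr
      _ = r ^ 2 * (8 * A ^ 3 * η * t) := by rw [ht]; ring
      _ ≤ r ^ 2 * (2 * ε ^ 2 * q2 + ε ^ 4 * N / 128) := by
          gcongr
          linarith
  have hc2 : 4 * (X * Q) * (η * (Q * (N / r ^ 2))) ≤ ε ^ 4 * r ^ 2 * N / 4 := by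
    calc 4 * (X * Q) * (η * (Q * (N / r ^ 2))) ≤
          4 * (2 * A ^ 3 * r ^ 3) * (η * ((A * r) * (N / r ^ 2))) := by gcongr
      _ = 8 * A ^ 4 * η * r ^ 2 * N := by field_simp; ring
      _ = ε ^ 4 * r ^ 2 * N / 4 := by rw [hη]; field_simp; ring
  have hXQ0 : 0 ≤ 4 * (X * Q) := by positivity
  have hd := mul_le_mul_of_nonneg_left hLQ hXQ0
  have he : ε ^ 4 * gSS ≤ ε ^ 4 * (r ^ 2 * N) := by gcongr
  have hf : 2 * ε ^ 2 * (2 * Q * gQS) ≤ 2 * ε ^ 2 * (r ^ 2 * q2 + Q ^ 2 * N) := by gcongr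
  have hkey : 2 * X * (2 * Q * LQ + 2 * q2 + ε ^ 2 * N) -
      (4 * Q ^ 2 * q2 + 4 * Q * ε ^ 2 * gQS + ε ^ 4 * gSS) =
      4 * (X * Q) * LQ + 4 * ε ^ 2 * r ^ 2 * q2 + 2 * Q ^ 2 * ε ^ 2 * N + 2 * ε ^ 4 * r ^ 2 * N -
        2 * ε ^ 2 * (2 * Q * gQS) - ε ^ 4 * gSS := by
    rw [hX]; ring
  rw [hkey]
  have hpos : 0 ≤ ε ^ 4 * r ^ 2 * N := by positivity
  nlinarith

section main

variable {W : En n → ℝ} {A ε R : ℝ}

theorem rh_sq (x : En n) : rh x ^ 2 = Sc 1 x := by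
  unfold rh Sc
  rw [Real.sq_sqrt (by positivity), one_mul]

theorem one_le_rh (x : En n) : 1 ≤ rh x := by
  unfold rh
  rw [Real.one_le_sqrt]
  have : 0 ≤ ∑ j, ‖x j‖ ^ 2 := Finset.sum_nonneg fun j _ => by positivity
  linarith

theorem Sc_pos {c : ℝ} (hc : 0 ≤ c) (x : En n) : 1 ≤ Sc c x := by
  unfold Sc
  have : 0 ≤ ∑ j, ‖x j‖ ^ 2 := Finset.sum_nonneg fun j _ => by positivity
  have := mul_nonneg hc this
  linarith

/-- estimates for `log (1 + |z|²/R²)` -/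
theorem log_est (hR : 1 ≤ R) (x a : En n) :
    gr (fun y => Real.log (Sc (1 / R ^ 2) y)) (fun y => Real.log (Sc (1 / R ^ 2) y)) x a *
      rh x ^ 2 ≤ ∑ j, ‖a j‖ ^ 2 ∧
    Lv (fun y => Real.log (Sc (1 / R ^ 2) y)) x a * rh x ^ 2 ≤ ∑ j, ‖a j‖ ^ 2 := by
  set c : ℝ := 1 / R ^ 2 with hc
  have hR0 : 0 < R := by linarith
  have hc0 : 0 < c := by positivity
  set l : En n → ℝ := fun y => Real.log (Sc c y) with hl
  have hmpos : ∀ y : En n, 0 < Sc c y := fun y => lt_of_lt_of_le one_pos (Sc_pos hc0.le y)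
  have hls : ContDiff ℝ ∞ l := (Sc_smooth c).log fun y => (hmpos y).ne'
  have hexp : (fun y => Real.exp (l y)) = Sc c := by
    funext y; exact Real.exp_log (hmpos y)
  have hexpx : Real.exp (l x) = Sc c x := Real.exp_log (hmpos x)
  have hLv := Lv_exp hls x a
  rw [hexp, hexpx, Sc_Lv] at hLv
  have hfd : ∀ v, fderiv ℝ (Sc c) x v = Sc c x * fderiv ℝ l x v := by
    intro v
    have := fd_exp hls x v
    rwa [hexp, hexpx] at this
  have hgr : gr (Sc c) (Sc c) x a = Sc c x ^ 2 * gr l l x a := by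
    unfold gr
    rw [hfd, hfd]
    ring
  have hle := Sc_gr c x a
  rw [hgr] at hle
  set N := ∑ j, ‖a j‖ ^ 2 with hN
  set n2 := ∑ j, ‖x j‖ ^ 2 with hn2
  have hN0 : 0 ≤ N := Finset.sum_nonneg fun j _ => by positivity
  have hn20 : 0 ≤ n2 := Finset.sum_nonneg fun j _ => by positivity
  set g := gr l l x a with hg
  have hg0 : 0 ≤ g := gr_nonneg l x a
  have hm : Sc c x = 1 + c * n2 := rfl
  have hmx := hmpos x
  have hcR : c * R ^ 2 = 1 := by rw [hc]; field_simp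
  have hS : rh x ^ 2 = 1 + n2 := by rw [rh_sq]; unfold Sc; rw [one_mul]
  have hSm : rh x ^ 2 ≤ R ^ 2 * Sc c x := by
    rw [hS, hm]
    have h1 : R ^ 2 * (1 + c * n2) = R ^ 2 + n2 := by
      rw [mul_add, ← mul_assoc, mul_comm (R ^ 2) c, hcR]; ring
    rw [h1]
    have : 1 ≤ R ^ 2 := one_le_pow₀ hR
    linarith
  -- g bound
  have h1 : Sc c x * g ≤ c * N := by
    have h2 : Sc c x ^ 2 * g ≤ c * Sc c x * N := by
      refine hle.trans ?_
      have h3 : c * n2 ≤ Sc c x := by rw [hm]; linarith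
      calc c ^ 2 * (n2 * N) = c * (c * n2) * N := by ring
        _ ≤ c * Sc c x * N := by gcongr
    have h4 : Sc c x * (Sc c x * g) ≤ Sc c x * (c * N) := by linarith
    exact le_of_mul_le_mul_left h4 hmx
  have h5 : R ^ 2 * Sc c x * g ≤ N := by
    calc R ^ 2 * Sc c x * g = R ^ 2 * (Sc c x * g) := by ring
      _ ≤ R ^ 2 * (c * N) := by gcongr
      _ = N := by rw [← mul_assoc, mul_comm (R ^ 2) c, hcR, one_mul]
  have h6 : g * rh x ^ 2 ≤ N := by
    calc g * rh x ^ 2 ≤ g * (R ^ 2 * Sc c x) := by gcongr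
      _ ≤ N := by linarith
  refine ⟨h6, ?_⟩
  have h7 : R ^ 2 * Sc c x * (Lv l x a + g) = N := by
    calc R ^ 2 * Sc c x * (Lv l x a + g) = R ^ 2 * (Sc c x * (Lv l x a + g)) := by ring
      _ = R ^ 2 * (c * N) := by rw [← hLv]
      _ = N := by rw [← mul_assoc, mul_comm (R ^ 2) c, hcR, one_mul]
  have h8 : 0 ≤ Lv l x a + g := by
    by_contra hneg
    push Not at hneg
    have : R ^ 2 * Sc c x * (Lv l x a + g) < 0 := mul_neg_of_pos_of_neg (by positivity) hneg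
    linarith
  have h9 : (Lv l x a + g) * rh x ^ 2 ≤ N := by
    calc (Lv l x a + g) * rh x ^ 2 ≤ (Lv l x a + g) * (R ^ 2 * Sc c x) := by gcongr
      _ = N := by linarith
  have h10 : 0 ≤ g * rh x ^ 2 := by positivity
  linarith

theorem weight_aux (hWs : ContDiff ℝ ∞ W) (hW0 : ∀ x, 0 ≤ W x) (hA : 1 ≤ A)
    (hWA : ∀ x, W x ≤ A * rh x) (hWp : ∀ x a, 0 ≤ Lv W x a) (hε : 0 < ε) (hε1 : ε ≤ 1) :
    ∃ c : ℝ, 0 < c ∧ ∀ R : ℝ, 1 ≤ R → ∃ p : En n → ℝ, ContDiff ℝ ∞ p ∧ (∀ x, 0 ≤ p x) ∧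
      (∀ x a, c * (∑ j, ‖a j‖ ^ 2) ≤ rh x * Lv p x a) ∧
      (∀ x, rh x ≤ R → W x + c * rh x ≤ p x) ∧
      (∀ x, p x ≤ W x + ε * rh x) ∧
      ∃ M : ℝ, ∀ x, p x ≤ M + 2 * ε * rh x := by
  have hA0 : 0 < A := by linarith
  refine ⟨min (ε ^ 4 / (64 * A ^ 3)) (ε ^ 2 / (6 * A)), lt_min (by positivity) (by positivity),
    fun R hR => ?_⟩
  set c₀ := min (ε ^ 4 / (64 * A ^ 3)) (ε ^ 2 / (6 * A)) with hc₀
  have hc₀0 : 0 < c₀ := lt_min (by positivity) (by positivity)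
  have hR0 : 0 < R := by linarith
  set η := ε ^ 4 / (32 * A ^ 4) with hη
  have hη0 : 0 < η := by positivity
  have hη1 : η ≤ 1 := by
    rw [hη, div_le_one (by positivity)]
    have h1 : ε ^ 4 ≤ 1 := pow_le_one₀ hε.le hε1
    have h2 : 1 ≤ A ^ 4 := one_le_pow₀ hA
    linarith
  set c : ℝ := 1 / R ^ 2 with hc
  have hcpos : 0 < c := by positivity
  set l : En n → ℝ := fun y => Real.log (Sc c y) with hl
  have hmpos : ∀ y : En n, 0 < Sc c y := fun y => lt_of_lt_of_le one_pos (Sc_pos hcpos.le y)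
  have hls : ContDiff ℝ ∞ l := (Sc_smooth c).log fun y => (hmpos y).ne'
  have hl0 : ∀ y, 0 ≤ l y := fun y => Real.log_nonneg (Sc_pos hcpos.le y)
  set κ : ℝ := -(η / 2) with hκ
  set L : En n → ℝ := fun y => κ * l y with hL
  have hLs : ContDiff ℝ ∞ L := contDiff_const.mul hls
  set lam : En n → ℝ := fun y => Real.exp (L y) with hlam
  have hlams : ContDiff ℝ ∞ lam := Real.contDiff_exp.comp hLs
  have hlampos : ∀ y, 0 < lam y := fun y => Real.exp_pos _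
  have hlam1 : ∀ y, lam y ≤ 1 := by
    intro y
    rw [hlam]
    simp only [Real.exp_le_one_iff, hL, hκ]
    have := mul_nonneg hη0.le (hl0 y)
    linarith
  set Q : En n → ℝ := fun y => lam y * W y with hQ
  have hQs : ContDiff ℝ ∞ Q := hlams.mul hWs
  have hQ0 : ∀ y, 0 ≤ Q y := fun y => mul_nonneg (hlampos y).le (hW0 y)
  have hQW : ∀ y, Q y ≤ W y := fun y => by
    have := mul_le_mul_of_nonneg_right (hlam1 y) (hW0 y)
    rwa [one_mul] at this
  set X : En n → ℝ := fun y => Q y * Q y + ε ^ 2 * Sc 1 y with hX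
  have hXs : ContDiff ℝ ∞ X := (hQs.mul hQs).add (contDiff_const.mul (Sc_smooth 1))
  have hXpos : ∀ y, 0 < X y := by
    intro y
    have h1 : 1 ≤ Sc 1 y := Sc_pos zero_le_one y
    have h2 : 0 ≤ Q y * Q y := mul_self_nonneg _
    have h3 : 0 < ε ^ 2 * Sc 1 y := by positivity
    show 0 < Q y * Q y + ε ^ 2 * Sc 1 y
    linarith
  set p : En n → ℝ := fun y => Real.sqrt (X y) with hp
  have hps : ContDiff ℝ ∞ p := hXs.sqrt fun y => (hXpos y).ne'
  have hppos : ∀ y, 0 < p y := fun y => Real.sqrt_pos.2 (hXpos y)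
  have hpp : (fun y => p y * p y) = X := by
    funext y; exact Real.mul_self_sqrt (hXpos y).le
  have hpX : ∀ y, p y ^ 2 = X y := fun y => Real.sq_sqrt (hXpos y).le
  have hXe : ∀ y, X y = Q y ^ 2 + ε ^ 2 * rh y ^ 2 := by
    intro y
    rw [rh_sq]
    show Q y * Q y + ε ^ 2 * Sc 1 y = _
    ring
  have hrh0 : ∀ y : En n, 0 < rh y := fun y => lt_of_lt_of_le one_pos (one_le_rh y)
  have hpQ : ∀ y, p y ≤ Q y + ε * rh y := by
    intro y
    have h1 : 0 ≤ Q y := hQ0 y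
    have h2 := hrh0 y
    refine abs_le_of_sq_le_sq' ?_ (by positivity) |>.2
    rw [hpX, hXe]
    nlinarith [mul_nonneg h1 (mul_nonneg hε.le h2.le)]
  refine ⟨p, hps, fun y => (hppos y).le, ?_, ?_, ?_, ?_⟩
  · -- Levi form
    intro x a
    set N := ∑ j, ‖a j‖ ^ 2 with hN
    have hN0 : 0 ≤ N := Finset.sum_nonneg fun j _ => by positivity
    obtain ⟨hg1, hg2⟩ := log_est hR x a
    rw [← hc] at hg1 hg2
    set g := gr l l x a with hgdef
    have hg0 : 0 ≤ g := gr_nonneg l x a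
    have hr0 := hrh0 x
    -- derivatives of lam
    have fL : ∀ v, fderiv ℝ L x v = κ * fderiv ℝ l x v := fun v => fd_const_mul hls κ x v
    have flam : ∀ v, fderiv ℝ lam x v = lam x * (κ * fderiv ℝ l x v) := by
      intro v
      rw [← fL]
      exact fd_exp hLs x v
    have hLvlam : Lv lam x a = lam x * (κ * Lv l x a + κ ^ 2 * g) := by
      have h1 := Lv_exp hLs x a
      have h2 : Lv L x a = κ * Lv l x a := JC3.C3x.Lv_const_mul hls κ x a
      have h3 : gr L L x a = κ ^ 2 * g := by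
        rw [hgdef, gr, gr, fL, fL]; ring
      rw [h2, h3] at h1
      exact h1
    have fQ : ∀ v, fderiv ℝ Q x v = lam x * fderiv ℝ W x v + W x * fderiv ℝ lam x v :=
      fun v => fd_mul hlams hWs x v
    have hLvQ : Lv Q x a = lam x * Lv W x a + Q x * κ * Lv l x a - Q x * κ ^ 2 * g +
        2 * κ * gr l Q x a := by
      have h1 : Lv Q x a = lam x * Lv W x a + W x * Lv lam x a + 2 * gr lam W x a :=
        Lv_mul hlams hWs x a
      have h2 : gr lam W x a = lam x * κ * gr l W x a := by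
        unfold gr; rw [flam, flam]; ring
      have h3 : gr l Q x a = lam x * gr l W x a + Q x * κ * g := by
        rw [hgdef]
        unfold gr
        rw [fQ, fQ, flam, flam]
        show _ = lam x * (1 / 4 * _) + lam x * W x * κ * (1 / 4 * _)
        ring
      rw [h1, hLvlam, h2, h3]
      show _ = lam x * Lv W x a + lam x * W x * κ * Lv l x a - lam x * W x * κ ^ 2 * g +
        2 * κ * (lam x * gr l W x a + lam x * W x * κ * g)
      ring
    -- the lower bound of Lv Q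
    have hLQ : -(η * (Q x * (N / rh x ^ 2))) - η * |gr l Q x a| ≤ Lv Q x a := by
      rw [hLvQ]
      have h1 : 0 ≤ lam x * Lv W x a := mul_nonneg (hlampos x).le (hWp x a)
      have hr2 : 0 < rh x ^ 2 := by positivity
      have h2 : Lv l x a ≤ N / rh x ^ 2 := by rw [le_div_iff₀ hr2]; exact hg2
      have h3 : g ≤ N / rh x ^ 2 := by rw [le_div_iff₀ hr2]; exact hg1
      have h4 : -(η / 2 * (Q x * (N / rh x ^ 2))) ≤ Q x * κ * Lv l x a := by
        rw [hκ]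
        have := mul_le_mul_of_nonneg_left h2 (mul_nonneg (half_pos hη0).le (hQ0 x))
        linarith
      have h5 : Q x * κ ^ 2 * g ≤ η / 2 * (Q x * (N / rh x ^ 2)) := by
        have h6 : κ ^ 2 ≤ η / 2 := by
          rw [hκ]
          nlinarith
        calc Q x * κ ^ 2 * g ≤ Q x * (η / 2) * (N / rh x ^ 2) := by
              have := hQ0 x
              gcongr
          _ = η / 2 * (Q x * (N / rh x ^ 2)) := by ring
      have h7 : -(η * |gr l Q x a|) ≤ 2 * κ * gr l Q x a := by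
        rw [hκ]
        have := le_abs_self (gr l Q x a)
        have := mul_le_mul_of_nonneg_left this hη0.le
        linarith
      linarith
    -- X
    have hLvX : Lv X x a = 2 * Q x * Lv Q x a + 2 * gr Q Q x a + ε ^ 2 * N := by
      have h1 : Lv X x a = Lv (fun y => Q y * Q y) x a + Lv (fun y => ε ^ 2 * Sc 1 y) x a :=
        JC3.C3x.Lv_add (hQs.mul hQs) (contDiff_const.mul (Sc_smooth 1)) x a
      rw [h1, Lv_mul hQs hQs, JC3.C3x.Lv_const_mul (Sc_smooth 1), Sc_Lv]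
      ring
    have fX : ∀ v, fderiv ℝ X x v = 2 * Q x * fderiv ℝ Q x v + ε ^ 2 * fderiv ℝ (Sc 1) x v := by
      intro v
      have h1 : fderiv ℝ X x v = fderiv ℝ (fun y => Q y * Q y) x v +
          fderiv ℝ (fun y => ε ^ 2 * Sc 1 y) x v :=
        fd_add (hQs.mul hQs) (contDiff_const.mul (Sc_smooth 1)) x v
      rw [h1, fd_mul hQs hQs, fd_const_mul (Sc_smooth 1)]
      ring
    have hgX : gr X X x a = 4 * Q x ^ 2 * gr Q Q x a + 4 * Q x * ε ^ 2 * gr Q (Sc 1) x a +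
        ε ^ 4 * gr (Sc 1) (Sc 1) x a := by
      unfold gr
      rw [fX, fX]
      ring
    -- p
    have hLvp : Lv X x a = 2 * p x * Lv p x a + 2 * gr p p x a := by
      rw [← hpp, Lv_mul hps hps]; ring
    have hgp : gr X X x a = 4 * p x ^ 2 * gr p p x a := by
      rw [← hpp]
      unfold gr
      rw [fd_mul hps hps, fd_mul hps hps]
      ring
    have hmain : 2 * X x * Lv X x a - gr X X x a = 4 * p x ^ 3 * Lv p x a := by
      rw [hLvp, hgp, ← hpX]; ring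
    have hSS : gr (Sc 1) (Sc 1) x a ≤ rh x ^ 2 * N := by
      have h1 := Sc_gr 1 x a
      rw [rh_sq]
      have h2 : (∑ j, ‖x j‖ ^ 2) ≤ Sc 1 x := by unfold Sc; linarith
      have h3 : (∑ j, ‖x j‖ ^ 2) * N ≤ Sc 1 x * N := by gcongr
      linarith
    have hQS : gr Q (Sc 1) x a ^ 2 ≤ gr Q Q x a * (rh x ^ 2 * N) := by
      refine (gr_cs Q (Sc 1) x a).trans ?_
      have := gr_nonneg Q x a
      gcongr
    have hgl : gr l Q x a ^ 2 * rh x ^ 2 ≤ N * gr Q Q x a := by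
      have h1 := gr_cs l Q x a
      have h2 := gr_nonneg Q x a
      calc gr l Q x a ^ 2 * rh x ^ 2 ≤ (g * gr Q Q x a) * rh x ^ 2 := by gcongr
        _ = (g * rh x ^ 2) * gr Q Q x a := by ring
        _ ≤ N * gr Q Q x a := by gcongr
    have hQA : Q x ≤ A * rh x := (hQW x).trans (hWA x)
    have hfin := real_ineq hA hε hε1 hη hN0 (one_le_rh x) (hQ0 x) hQA (gr_nonneg Q x a) hgl hQS
      hSS hLQ
    rw [← hXe, ← hLvX, ← hgX, hmain] at hfin
    have hp0 := hppos x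
    have hpA : p x ≤ 2 * A * rh x := by
      refine abs_le_of_sq_le_sq' ?_ (by positivity) |>.2
      rw [hpX, hXe]
      have h1 : Q x ^ 2 ≤ (A * rh x) ^ 2 := pow_le_pow_left₀ (hQ0 x) hQA 2
      have h2 : ε ^ 2 ≤ A ^ 2 := pow_le_pow_left₀ hε.le (hε1.trans hA) 2
      have h3 : ε ^ 2 * rh x ^ 2 ≤ A ^ 2 * rh x ^ 2 := by gcongr
      have h4 : 0 ≤ A ^ 2 * rh x ^ 2 := by positivity
      nlinarith
    have hLvp0 : 0 ≤ Lv p x a := by
      by_contra hneg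
      push Not at hneg
      have h1 : 4 * p x ^ 3 * Lv p x a < 0 := mul_neg_of_pos_of_neg (by positivity) hneg
      have h2 : 0 ≤ ε ^ 4 * rh x ^ 2 * N / 2 := by positivity
      linarith
    have h1 : 4 * p x ^ 3 * Lv p x a ≤ 4 * (2 * A * rh x) ^ 3 * Lv p x a := by gcongr
    have h2 : (32 * A ^ 3 * rh x ^ 2) * (ε ^ 4 / (64 * A ^ 3) * N) ≤
        (32 * A ^ 3 * rh x ^ 2) * (rh x * Lv p x a) := by
      have e1 : (32 * A ^ 3 * rh x ^ 2) * (ε ^ 4 / (64 * A ^ 3) * N) =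
          ε ^ 4 * rh x ^ 2 * N / 2 := by field_simp; ring
      rw [e1]
      refine (hfin.trans h1).trans (le_of_eq ?_)
      ring
    have h3 := le_of_mul_le_mul_left h2 (by positivity)
    have h4 : c₀ * N ≤ ε ^ 4 / (64 * A ^ 3) * N := by
      gcongr
      exact min_le_left _ _
    exact h4.trans h3
  · -- lower bound on the ball
    intro x hx
    have hr0 := hrh0 x
    have hWx := hW0 x
    refine Real.le_sqrt_of_sq_le ?_
    rw [hXe]
    -- lam ^ 2 ≥ 1 - η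
    have hlx : l x ≤ 1 := by
      have h1 : Sc c x ≤ 2 := by
        have h2 : Sc c x = 1 + c * ∑ j, ‖x j‖ ^ 2 := rfl
        have h3 : rh x ^ 2 ≤ R ^ 2 := by gcongr
        rw [rh_sq] at h3
        have h4 : (∑ j, ‖x j‖ ^ 2) ≤ R ^ 2 := by
          have : Sc 1 x = 1 + 1 * ∑ j, ‖x j‖ ^ 2 := rfl
          linarith
        have h5 : c * ∑ j, ‖x j‖ ^ 2 ≤ c * R ^ 2 := by gcongr
        have h6 : c * R ^ 2 = 1 := by rw [hc]; field_simp
        linarith
      have h2 := Real.log_le_sub_one_of_pos (hmpos x)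
      show Real.log (Sc c x) ≤ 1
      linarith
    have hlam2 : 1 - η ≤ lam x ^ 2 := by
      have h1 : lam x ^ 2 = Real.exp (-(η * l x)) := by
        rw [hlam]
        simp only [hL, hκ]
        rw [sq, ← Real.exp_add]
        congr 1
        ring
      rw [h1]
      have h2 := Real.add_one_le_exp (-(η * l x))
      have h3 : η * l x ≤ η * 1 := by gcongr
      linarith
    have hQ2 : (1 - η) * W x ^ 2 ≤ Q x ^ 2 := by
      show (1 - η) * W x ^ 2 ≤ (lam x * W x) ^ 2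
      rw [mul_pow]
      gcongr
    have hW2 : W x ^ 2 ≤ (A * rh x) ^ 2 := pow_le_pow_left₀ hWx (hWA x) 2
    have hc1 : c₀ * (6 * A) ≤ ε ^ 2 := by
      have := min_le_right (ε ^ 4 / (64 * A ^ 3)) (ε ^ 2 / (6 * A))
      rw [← hc₀, le_div_iff₀ (by positivity)] at this
      exact this
    have hc2 : c₀ * 6 ≤ ε ^ 2 := by nlinarith
    have hηA : η * (A * rh x) ^ 2 ≤ ε ^ 2 / 32 * rh x ^ 2 := by
      have e1 : η * (A * rh x) ^ 2 = ε ^ 4 / (32 * A ^ 2) * rh x ^ 2 := by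
        rw [hη]; field_simp
      rw [e1]
      have h1 : ε ^ 4 / (32 * A ^ 2) ≤ ε ^ 2 / 32 := by
        rw [div_le_div_iff₀ (by positivity) (by norm_num)]
        have h2 : ε ^ 4 ≤ ε ^ 2 := pow_le_pow_of_le_one hε.le hε1 (by norm_num)
        have h3 : 1 ≤ A ^ 2 := one_le_pow₀ hA
        have h4 : ε ^ 2 * 1 ≤ ε ^ 2 * A ^ 2 := by gcongr
        nlinarith
      gcongr
    have hcross : 2 * W x * (c₀ * rh x) ≤ ε ^ 2 / 3 * rh x ^ 2 := by
      calc 2 * W x * (c₀ * rh x) ≤ 2 * (A * rh x) * (c₀ * rh x) := by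
            gcongr
            exact hWA x
        _ = (c₀ * (6 * A)) / 3 * rh x ^ 2 := by ring
        _ ≤ ε ^ 2 / 3 * rh x ^ 2 := by gcongr
    have hcc : (c₀ * rh x) ^ 2 ≤ ε ^ 2 / 36 * rh x ^ 2 := by
      have h1 : c₀ ^ 2 ≤ ε ^ 2 / 36 := by
        have h2 : c₀ ≤ ε ^ 2 / 6 := by linarith
        have h3 : ε ^ 2 ≤ 1 := pow_le_one₀ hε.le hε1
        have h4 : c₀ ^ 2 ≤ (ε ^ 2 / 6) ^ 2 := by gcongr
        nlinarith [sq_nonneg ε]
      rw [mul_pow]
      gcongr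
    have hpos2 : 0 ≤ ε ^ 2 * rh x ^ 2 := by positivity
    have h10 : (W x + c₀ * rh x) ^ 2 = W x ^ 2 + 2 * W x * (c₀ * rh x) + (c₀ * rh x) ^ 2 := by ring
    have h11 : η * W x ^ 2 ≤ η * (A * rh x) ^ 2 := by gcongr
    rw [h10]
    nlinarith
  · intro x
    have := hpQ x
    have := hQW x
    linarith
  · -- growth at infinity
    set Λ := 2 / η * Real.log (A / ε) with hΛ
    refine ⟨A * Real.sqrt (1 + R ^ 2 * Real.exp Λ), fun x => ?_⟩
    have h1 := hpQ x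
    have hr0 := hrh0 x
    suffices h : Q x ≤ A * Real.sqrt (1 + R ^ 2 * Real.exp Λ) + ε * rh x by linarith
    rcases le_total Λ (l x) with h | h
    · have h2 : lam x ≤ ε / A := by
        have h3 : L x ≤ Real.log (ε / A) := by
          have h4 : η / 2 * Λ ≤ η / 2 * l x := by gcongr
          have h5 : η / 2 * Λ = Real.log (A / ε) := by rw [hΛ]; field_simp
          have h6 : Real.log (ε / A) = -Real.log (A / ε) := by
            rw [← Real.log_inv, inv_div]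
          show κ * l x ≤ _
          rw [hκ, h6]
          linarith
        calc lam x = Real.exp (L x) := rfl
          _ ≤ Real.exp (Real.log (ε / A)) := Real.exp_le_exp.2 h3
          _ = ε / A := Real.exp_log (by positivity)
      have h3 : Q x ≤ ε * rh x := by
        calc Q x = lam x * W x := rfl
          _ ≤ ε / A * (A * rh x) := by
              have := hW0 x
              gcongr
              exact hWA x
          _ = ε * rh x := by field_simp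
      have h4 : 0 ≤ A * Real.sqrt (1 + R ^ 2 * Real.exp Λ) := by positivity
      linarith
    · have h2 : Sc c x ≤ Real.exp Λ := by
        rw [← Real.exp_log (hmpos x)]
        exact Real.exp_le_exp.2 h
      have h3 : (∑ j, ‖x j‖ ^ 2) ≤ R ^ 2 * Real.exp Λ := by
        have h4 : Sc c x = 1 + c * ∑ j, ‖x j‖ ^ 2 := rfl
        have h5 : c * ∑ j, ‖x j‖ ^ 2 ≤ Real.exp Λ := by linarith
        have h6 : R ^ 2 * (c * ∑ j, ‖x j‖ ^ 2) ≤ R ^ 2 * Real.exp Λ := by gcongr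
        have h7 : R ^ 2 * (c * ∑ j, ‖x j‖ ^ 2) = ∑ j, ‖x j‖ ^ 2 := by
          rw [hc]; field_simp
        linarith
      have h4 : rh x ≤ Real.sqrt (1 + R ^ 2 * Real.exp Λ) := by
        unfold rh
        exact Real.sqrt_le_sqrt (by linarith)
      have h5 : Q x ≤ A * Real.sqrt (1 + R ^ 2 * Real.exp Λ) := by
        calc Q x ≤ A * rh x := (hQW x).trans (hWA x)
          _ ≤ A * Real.sqrt (1 + R ^ 2 * Real.exp Λ) := by gcongr
      have h6 : 0 ≤ ε * rh x := by positivity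
      linarith

end main

theorem weight {n : ℕ} (χ : En n → ℂ) (hχ : Differentiable ℂ χ) (A : ℝ) (hA : 1 ≤ A)
    (hχA : ∀ z, 1 / 2 * Real.log (1 + ‖χ z‖ ^ 2) ≤ A * rh z) (ε : ℝ) (h0 : 0 < ε) (h1 : ε ≤ 1) :
    ∃ c : ℝ, 0 < c ∧ ∀ R : ℝ, 1 ≤ R → ∃ p : En n → ℝ, ContDiff ℝ ∞ p ∧ (∀ x, 0 ≤ p x) ∧
      (∀ x a, c * (∑ j, ‖a j‖ ^ 2) ≤ rh x * Lv p x a) ∧
      (∀ x, rh x ≤ R → 1 / 2 * Real.log (1 + ‖χ x‖ ^ 2) + c * rh x ≤ p x) ∧
      (∀ x, p x ≤ 1 / 2 * Real.log (1 + ‖χ x‖ ^ 2) + ε * rh x) ∧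
      ∃ M : ℝ, ∀ x, p x ≤ M + 2 * ε * rh x := by
  have hχs : ContDiff ℂ ∞ χ := by
    rw [contDiff_infty]
    intro k
    have := Pool.Agent.Helper540.contDiffOn_of_differentiableOn isOpen_univ
      (hχ.differentiableOn (s := Set.univ)) k
    exact contDiffOn_univ.1 this
  set F : Fin 2 → En n → ℂ := ![fun _ => 1, χ] with hF
  have hFs : ∀ j, ContDiff ℂ ∞ (F j) := by
    intro j
    fin_cases j
    · exact contDiff_const
    · exact hχs
  have hsum : ∀ y, Pool.Agent.Helper853.sumSq F y = 1 + ‖χ y‖ ^ 2 := by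
    intro y
    unfold Pool.Agent.Helper853.sumSq
    rw [Fin.sum_univ_two]
    simp [hF]
  have hpos : ∀ y, 0 < 1 + ‖χ y‖ ^ 2 := fun y => by positivity
  have hp := Pool.Agent.Helper853.sPsh_log_sumSq hFs (Ω := Set.univ)
    (fun x _ => by rw [hsum]; exact hpos x) isOpen_univ (c := 1 / 2) (by norm_num)
  have heq : (fun y => 1 / 2 * Real.log (Pool.Agent.Helper853.sumSq F y)) =
      fun y => 1 / 2 * Real.log (1 + ‖χ y‖ ^ 2) := by
    funext y; rw [hsum]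
  rw [heq] at hp
  have hWs : ContDiff ℝ ∞ (fun y => 1 / 2 * Real.log (1 + ‖χ y‖ ^ 2)) :=
    contDiffOn_univ.1 hp.1
  refine weight_aux hWs (fun x => ?_) hA hχA (fun x a => ?_) h0 h1
  · have : 0 ≤ Real.log (1 + ‖χ x‖ ^ 2) := Real.log_nonneg (by nlinarith [sq_nonneg ‖χ x‖])
    positivity
  · have h2 := hp.2 x (Set.mem_univ x) a
    unfold Pool.Agent.Helper853.lap2 at h2
    unfold Lv
    rw [JC3.C3x.H_eq hWs, JC3.C3x.H_eq hWs]
    linarith

end Pool.Agent.TH480.J216
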