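import Pool.Agent.H314.BK.C3
import Pool.Agent.H314.BK.B1

set_option autoImplicit false

open MeasureTheory Complex Filter Topology
open scoped ContDiff ComplexConjugate

namespace Pool.Agent.TH480.J217

open BK BK.JB1.JKI

variable {n : ℕ}

/-- matrix of the Wirtinger derivatives -/
noncomputable def JM {n : ℕ} (Q : En n → En n) (w : En n) : Matrix (Fin n) (Fin n) ℂ :=
  Matrix.of fun j k => dbar k (fun v => Q v j) w

theorem dbar_comm {v : En n → ℂ} (hv : ContDiff ℝ ∞ v) (j k : Fin n) (x : En n) :
    dbar k (dbar j v) x = dbar j (dbar k v) x := by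
  have h1 : dbar k (dbar j v) x = (1 / 2) * (Dv (Pi.single k 1) (dbar j v) x
      + I * Dv (Pi.single k I) (dbar j v) x) := rfl
  have h2 : dbar j (dbar k v) x = (1 / 2) * (Dv (Pi.single j 1) (dbar k v) x
      + I * Dv (Pi.single j I) (dbar k v) x) := rfl
  rw [h1, h2, dbar_eq, dbar_eq]
  rw [Dv_lin (Dv_smooth hv _) (Dv_smooth hv _), Dv_lin (Dv_smooth hv _) (Dv_smooth hv _),
    Dv_lin (Dv_smooth hv _) (Dv_smooth hv _), Dv_lin (Dv_smooth hv _) (Dv_smooth hv _)]
  rw [Dv_comm hv (Pi.single k 1) (Pi.single j 1), Dv_comm hv (Pi.single k 1) (Pi.single j I),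
    Dv_comm hv (Pi.single k I) (Pi.single j 1), Dv_comm hv (Pi.single k I) (Pi.single j I)]
  ring

theorem dbar_zero (k : Fin n) (c : ℂ) (w : En n) : dbar k (fun _ => c) w = 0 := by
  simp [dbar]

theorem dbar_add {a b : En n → ℂ} (ha : ContDiff ℝ ∞ a) (hb : ContDiff ℝ ∞ b) (k : Fin n)
    (w : En n) : dbar k (fun v => a v + b v) w = dbar k a w + dbar k b w := by
  have := dbar_lin ha hb 1 1 k w
  simpa using this

theorem dbar_sum {ι : Type*} (s : Finset ι) {f : ι → En n → ℂ} (hf : ∀ i, ContDiff ℝ ∞ (f i))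
    (k : Fin n) (w : En n) :
    dbar k (fun v => ∑ i ∈ s, f i v) w = ∑ i ∈ s, dbar k (f i) w := by
  classical
  induction s using Finset.induction_on with
  | empty => simpa using dbar_zero k 0 w
  | insert a s ha ih =>
    simp only [Finset.sum_insert ha]
    rw [dbar_add (hf a) (ContDiff.sum fun i _ => hf i), ih]

theorem dbar_prod {ι : Type*} [DecidableEq ι] (s : Finset ι) {f : ι → En n → ℂ}
    (hf : ∀ i, ContDiff ℝ ∞ (f i)) (k : Fin n) (w : En n) :
    dbar k (fun v => ∏ i ∈ s, f i v) w =
      ∑ i ∈ s, (∏ l ∈ s.erase i, f l w) * dbar k (f i) w := by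
  induction s using Finset.induction_on with
  | empty => simpa using dbar_zero k 1 w
  | insert a s ha ih =>
    simp only [Finset.prod_insert ha]
    rw [dbar_mul (hf a) (contDiff_prod fun i _ => hf i), ih, Finset.sum_insert ha,
      Finset.erase_insert ha, Finset.mul_sum]
    congr 1
    · ring
    · refine Finset.sum_congr rfl fun i hi => ?_
      have hne : a ≠ i := fun h => ha (h ▸ hi)
      rw [Finset.erase_insert_of_ne hne, Finset.prod_insert (by simp [ha])]
      ring

theorem det_smooth {N : En n → Matrix (Fin n) (Fin n) ℂ}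
    (hN : ∀ i j, ContDiff ℝ ∞ (fun v => N v i j)) : ContDiff ℝ ∞ (fun v => (N v).det) := by
  simp only [Matrix.det_apply']
  exact ContDiff.sum fun σ _ => contDiff_const.mul (contDiff_prod fun i _ => hN _ _)

theorem dbar_det {N : En n → Matrix (Fin n) (Fin n) ℂ}
    (hN : ∀ i j, ContDiff ℝ ∞ (fun v => N v i j)) (k : Fin n) (w : En n) :
    dbar k (fun v => (N v).det) w =
      ∑ l, ((N w).updateRow l (fun m => dbar k (fun v => N v l m) w)).det := by
  have e1 : (fun v => (N v).det) = fun v => ∑ σ : Equiv.Perm (Fin n),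
      ((Equiv.Perm.sign σ : ℤ) : ℂ) * ∏ i, N v i (σ i) := by
    funext v
    rw [← Matrix.det_transpose, Matrix.det_apply']
    rfl
  rw [e1, dbar_sum _ (fun σ => contDiff_const.mul (contDiff_prod fun i _ => hN _ _))]
  have e2 : ∀ l, ((N w).updateRow l (fun m => dbar k (fun v => N v l m) w)).det =
      ∑ σ : Equiv.Perm (Fin n), ((Equiv.Perm.sign σ : ℤ) : ℂ) *
        ((∏ i ∈ Finset.univ.erase l, N w i (σ i)) * dbar k (fun v => N v l (σ l)) w) := by
    intro l
    rw [← Matrix.det_transpose, Matrix.det_apply']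
    refine Finset.sum_congr rfl fun σ _ => ?_
    congr 1
    rw [← Finset.prod_erase_mul _ _ (Finset.mem_univ l)]
    congr 1
    · refine Finset.prod_congr rfl fun i hi => ?_
      rw [Matrix.transpose_apply, Matrix.updateRow_ne (Finset.ne_of_mem_erase hi)]
    · rw [Matrix.transpose_apply, Matrix.updateRow_self]
  simp only [e2]
  rw [Finset.sum_comm]
  refine Finset.sum_congr rfl fun σ _ => ?_
  rw [dbar_mul contDiff_const (contDiff_prod fun i _ => hN _ _), dbar_zero, zero_mul, zero_add,
    dbar_prod _ (fun i => hN _ _), Finset.mul_sum]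

theorem JM_smooth {Q : En n → En n} (hQ : ContDiff ℝ ∞ Q) (i j : Fin n) :
    ContDiff ℝ ∞ (fun v => JM Q v i j) := by
  have h : ContDiff ℝ ∞ (fun v => Q v i) := (contDiff_apply ℝ ℂ i).comp hQ
  exact dbar_smooth h j

theorem updR_smooth {Q : En n → En n} (hQ : ContDiff ℝ ∞ Q) (j k : Fin n) (a b : Fin n) :
    ContDiff ℝ ∞ (fun v => ((JM Q v).updateRow j (Pi.single k 1)) a b) := by
  rcases eq_or_ne a j with h | h
  · subst h
    simp only [Matrix.updateRow_self]
    exact contDiff_const
  · simp only [Matrix.updateRow_ne h]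
    exact JM_smooth hQ a b

theorem adj_smooth {Q : En n → En n} (hQ : ContDiff ℝ ∞ Q) (k j : Fin n) :
    ContDiff ℝ ∞ (fun v => (JM Q v).adjugate k j) := by
  simp only [Matrix.adjugate_apply]
  exact det_smooth (updR_smooth hQ j k)

/-- antisymmetry -/
theorem antisym (M : Matrix (Fin n) (Fin n) ℂ) {j l : Fin n} (hjl : l ≠ j) (k m : Fin n) :
    ((M.updateRow j (Pi.single m 1)).updateRow l (Pi.single k 1)).det =
      -((M.updateRow j (Pi.single k 1)).updateRow l (Pi.single m 1)).det := by
  have h := Matrix.det_permute (Equiv.swap j l)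
    ((M.updateRow j (Pi.single k 1)).updateRow l (Pi.single m 1))
  rw [Equiv.Perm.sign_swap hjl.symm] at h
  have e : ((M.updateRow j (Pi.single k 1)).updateRow l (Pi.single m 1)).submatrix
      (Equiv.swap j l) id = (M.updateRow j (Pi.single m 1)).updateRow l (Pi.single k 1) := by
    ext a b
    rw [Matrix.submatrix_apply, id]
    rcases eq_or_ne a j with h1 | h1
    · rw [h1, Equiv.swap_apply_left, Matrix.updateRow_self, Matrix.updateRow_ne hjl.symm,
        Matrix.updateRow_self]
    · rcases eq_or_ne a l with h2 | h2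
      · rw [h2, Equiv.swap_apply_right, Matrix.updateRow_ne hjl.symm, Matrix.updateRow_self,
          Matrix.updateRow_self]
      · rw [Equiv.swap_apply_of_ne_of_ne h1 h2, Matrix.updateRow_ne h2, Matrix.updateRow_ne h1,
          Matrix.updateRow_ne h2, Matrix.updateRow_ne h1]
  rw [e] at h
  rw [h]
  simp

theorem det_updateRow_expand (A : Matrix (Fin n) (Fin n) ℂ) (l : Fin n) (b : Fin n → ℂ) :
    (A.updateRow l b).det = ∑ m, (A.updateRow l (Pi.single m 1)).det * b m := by
  rw [← Matrix.cramer_transpose_apply, Matrix.cramer_eq_adjugate_mulVec, Matrix.mulVec,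
    dotProduct]
  refine Finset.sum_congr rfl fun m _ => ?_
  rw [← Matrix.adjugate_transpose, Matrix.transpose_apply, Matrix.adjugate_apply]

/-- the adjugate is divergence free -/
theorem div_adj {Q : En n → En n} (hQ : ContDiff ℝ ∞ Q) (j : Fin n) (w : En n) :
    ∑ k, dbar k (fun v => (JM Q v).adjugate k j) w = 0 := by
  simp only [Matrix.adjugate_apply]
  have h1 : ∀ k, dbar k (fun v => ((JM Q v).updateRow j (Pi.single k 1)).det) w =
      ∑ l, (((JM Q w).updateRow j (Pi.single k 1)).updateRow l
        (fun m => dbar k (fun v => ((JM Q v).updateRow j (Pi.single k 1)) l m) w)).det :=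
    fun k => dbar_det (updR_smooth hQ j k) k w
  simp only [h1]
  rw [Finset.sum_comm]
  refine Finset.sum_eq_zero fun l _ => ?_
  rcases eq_or_ne l j with hl | hl
  · subst hl
    refine Finset.sum_eq_zero fun k _ => ?_
    simp only [Matrix.updateRow_self, dbar_zero]
    exact Matrix.det_eq_zero_of_row_eq_zero l (fun m => by rw [Matrix.updateRow_self])
  · have hs : ContDiff ℝ ∞ (fun v => Q v l) := (contDiff_apply ℝ ℂ l).comp hQ
    set h : Fin n → Fin n → ℂ := fun k m => dbar k (dbar m (fun v => Q v l)) w with hh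
    have hsym : ∀ k m, h k m = h m k := fun k m => dbar_comm hs m k w
    have h2 : ∀ k, (((JM Q w).updateRow j (Pi.single k 1)).updateRow l
        (fun m => dbar k (fun v => ((JM Q v).updateRow j (Pi.single k 1)) l m) w)).det =
        ∑ m, (((JM Q w).updateRow j (Pi.single k 1)).updateRow l (Pi.single m 1)).det * h k m := by
      intro k
      have e : (fun m => dbar k (fun v => ((JM Q v).updateRow j (Pi.single k 1)) l m) w) =
          fun m => h k m := by
        funext m
        simp only [Matrix.updateRow_ne hl]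
        rfl
      rw [e, det_updateRow_expand]
    simp only [h2]
    set X := ∑ k, ∑ m, (((JM Q w).updateRow j (Pi.single k 1)).updateRow l
      (Pi.single m 1)).det * h k m with hX
    have h3 : X = -X := by
      conv_lhs => rw [hX, Finset.sum_comm]
      rw [hX, ← Finset.sum_neg_distrib]
      refine Finset.sum_congr rfl fun k _ => ?_
      rw [← Finset.sum_neg_distrib]
      refine Finset.sum_congr rfl fun m _ => ?_
      rw [antisym (JM Q w) hl k m, hsym m k]
      ring
    exact self_eq_neg.1 h3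

theorem piola {n : ℕ} (Q : En n → En n) (hQ : ContDiff ℝ ∞ Q) (u : En n → En n) (hu : ContDiff ℝ ∞ u)
    (E : En n → ℂ) (hE : ContDiff ℝ ∞ E) (w : En n) :
    ∑ k, dbar k (fun v => E v * ∑ j, (JM Q v).adjugate k j * u v j) w =
      ∑ k, dbar k E w * (∑ j, (JM Q w).adjugate k j * u w j) +
        E w * ((JM Q w).adjugate * JM u w).trace := by
  have hus : ∀ j, ContDiff ℝ ∞ (fun v => u v j) := fun j => (contDiff_apply ℝ ℂ j).comp hu
  have hprod : ∀ k j, ContDiff ℝ ∞ (fun v => (JM Q v).adjugate k j * u v j) := fun k j =>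
    (adj_smooth hQ k j).mul (hus j)
  have h1 : ∀ k, dbar k (fun v => E v * ∑ j, (JM Q v).adjugate k j * u v j) w =
      dbar k E w * (∑ j, (JM Q w).adjugate k j * u w j) +
        E w * ∑ j, (dbar k (fun v => (JM Q v).adjugate k j) w * u w j +
          (JM Q w).adjugate k j * dbar k (fun v => u v j) w) := by
    intro k
    rw [dbar_mul hE (ContDiff.sum fun j _ => hprod k j), dbar_sum _ (hprod k)]
    congr 2
    refine Finset.sum_congr rfl fun j _ => ?_
    exact dbar_mul (adj_smooth hQ k j) (hus j) k w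
  simp only [h1]
  rw [Finset.sum_add_distrib, ← Finset.mul_sum]
  congr 2
  simp only [Finset.sum_add_distrib]
  have h2 : ∑ k, ∑ j, dbar k (fun v => (JM Q v).adjugate k j) w * u w j = 0 := by
    rw [Finset.sum_comm]
    refine Finset.sum_eq_zero fun j _ => ?_
    rw [← Finset.sum_mul, div_adj hQ, zero_mul]
  rw [h2, zero_add, Matrix.trace]
  refine Finset.sum_congr rfl fun k _ => ?_
  rw [Matrix.diag_apply, Matrix.mul_apply]
  rfl

end Pool.Agent.TH480.J217
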