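import Pool.Agent.TH281.DW.Stmts

set_option autoImplicit false

namespace Pool.Agent.TH480.J2105

open Pool.Agent.TH281.DW

open Classical in
theorem main : TaskSchur := by
  intro a F G c c' P η ha hH
  have hη : 0 ≤ η := by
    have := hH ∅ (by simp)
    simpa using this
  set w : Z2 → Z2 → ℝ := fun k l => if P k l then a (k - l) else 0 with hw
  have hw0 : ∀ k l, 0 ≤ w k l := by
    intro k l
    simp only [hw]
    split_ifs
    · exact ha _
    · exact le_rfl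
  have hrow : ∀ k ∈ F, ∑ l ∈ G, w k l ≤ η := by
    intro k hk
    have h1 : ∑ l ∈ G, w k l = ∑ n ∈ (G.filter (P k)).image (fun l => k - l), a n := by
      rw [Finset.sum_image, Finset.sum_filter]
      intro l _ l' _ h
      exact sub_right_injective h
    rw [h1]
    refine hH _ ?_
    intro n hn
    rw [Finset.mem_image] at hn
    obtain ⟨l, hl, hln⟩ := hn
    rw [Finset.mem_filter] at hl
    exact ⟨k, hk, l, hl.1, hl.2, hln.symm⟩
  have hcol : ∀ l ∈ G, ∑ k ∈ F, w k l ≤ η := by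
    intro l hl
    have h1 : ∑ k ∈ F, w k l = ∑ n ∈ (F.filter (fun k => P k l)).image (fun k => k - l), a n := by
      rw [Finset.sum_image, Finset.sum_filter]
      intro k _ k' _ h
      exact sub_left_injective h
    rw [h1]
    refine hH _ ?_
    intro n hn
    rw [Finset.mem_image] at hn
    obtain ⟨k, hk, hkn⟩ := hn
    rw [Finset.mem_filter] at hk
    exact ⟨k, hk.1, l, hl, hk.2, hkn.symm⟩
  have hcs := Real.sum_mul_le_sqrt_mul_sqrt (F ×ˢ G)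
    (fun q => ‖c q.1‖ * Real.sqrt (w q.1 q.2)) (fun q => ‖c' q.2‖ * Real.sqrt (w q.1 q.2))
  have e1 : ∑ q ∈ F ×ˢ G, (‖c q.1‖ * Real.sqrt (w q.1 q.2)) * (‖c' q.2‖ * Real.sqrt (w q.1 q.2)) =
      ∑ k ∈ F, ∑ l ∈ G, (if P k l then ‖c k‖ * ‖c' l‖ * a (k - l) else 0) := by
    rw [Finset.sum_product]
    refine Finset.sum_congr rfl fun k _ => Finset.sum_congr rfl fun l _ => ?_
    have h2 := Real.mul_self_sqrt (hw0 k l)
    have h3 : (if P k l then ‖c k‖ * ‖c' l‖ * a (k - l) else 0) = ‖c k‖ * ‖c' l‖ * w k l := by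
      simp only [hw]
      split_ifs <;> simp
    rw [h3]
    linear_combination (‖c k‖ * ‖c' l‖) * h2
  have e2 : ∑ q ∈ F ×ˢ G, (‖c q.1‖ * Real.sqrt (w q.1 q.2)) ^ 2 ≤ η * ∑ k ∈ F, ‖c k‖ ^ 2 := by
    rw [Finset.sum_product, Finset.mul_sum]
    refine Finset.sum_le_sum fun k hk => ?_
    have h2 : ∑ l ∈ G, (‖c k‖ * Real.sqrt (w k l)) ^ 2 = ‖c k‖ ^ 2 * ∑ l ∈ G, w k l := by
      rw [Finset.mul_sum]
      refine Finset.sum_congr rfl fun l _ => ?_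
      rw [mul_pow, Real.sq_sqrt (hw0 k l)]
    simp only at h2 ⊢
    rw [h2, mul_comm]
    exact mul_le_mul_of_nonneg_right (hrow k hk) (by positivity)
  have e3 : ∑ q ∈ F ×ˢ G, (‖c' q.2‖ * Real.sqrt (w q.1 q.2)) ^ 2 ≤ η * ∑ l ∈ G, ‖c' l‖ ^ 2 := by
    rw [Finset.sum_product_right, Finset.mul_sum]
    refine Finset.sum_le_sum fun l hl => ?_
    have h2 : ∑ k ∈ F, (‖c' l‖ * Real.sqrt (w k l)) ^ 2 = ‖c' l‖ ^ 2 * ∑ k ∈ F, w k l := by
      rw [Finset.mul_sum]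
      refine Finset.sum_congr rfl fun k _ => ?_
      rw [mul_pow, Real.sq_sqrt (hw0 k l)]
    simp only at h2 ⊢
    rw [h2, mul_comm]
    exact mul_le_mul_of_nonneg_right (hcol l hl) (by positivity)
  rw [e1] at hcs
  refine hcs.trans ?_
  calc Real.sqrt (∑ q ∈ F ×ˢ G, (‖c q.1‖ * Real.sqrt (w q.1 q.2)) ^ 2) *
        Real.sqrt (∑ q ∈ F ×ˢ G, (‖c' q.2‖ * Real.sqrt (w q.1 q.2)) ^ 2)
      ≤ Real.sqrt (η * ∑ k ∈ F, ‖c k‖ ^ 2) * Real.sqrt (η * ∑ l ∈ G, ‖c' l‖ ^ 2) :=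
        mul_le_mul (Real.sqrt_le_sqrt e2) (Real.sqrt_le_sqrt e3) (Real.sqrt_nonneg _)
          (Real.sqrt_nonneg _)
    _ = η * Real.sqrt (∑ k ∈ F, ‖c k‖ ^ 2) * Real.sqrt (∑ l ∈ G, ‖c' l‖ ^ 2) := by
        rw [Real.sqrt_mul hη, Real.sqrt_mul hη]
        have := Real.mul_self_sqrt hη
        linear_combination (Real.sqrt (∑ k ∈ F, ‖c k‖ ^ 2) *
          Real.sqrt (∑ l ∈ G, ‖c' l‖ ^ 2)) * this

end Pool.Agent.TH480.J2105
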