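import Mathlib

/-!
Common one-dimensional tools: real inner product of complex valued functions and its derivative.
-/

set_option autoImplicit false

namespace Pool.Agent.TH480.DWc

open MeasureTheory Set

/-- the real inner product on the complex plane -/
def ip (z w : ℂ) : ℝ := z.re * w.re + z.im * w.im

lemma ip_eq (z w : ℂ) : (z * (starRingEnd ℂ) w).re = ip z w := by
  simp [ip, Complex.mul_re]

lemma ip_self (z : ℂ) : ip z z = ‖z‖ ^ 2 := by
  rw [Complex.sq_norm, Complex.normSq_apply, ip]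

lemma ip_comm (z w : ℂ) : ip z w = ip w z := by unfold ip; ring

lemma abs_ip_le (z w : ℂ) : |ip z w| ≤ ‖z‖ * ‖w‖ := by
  rw [← ip_eq]
  refine (Complex.abs_re_le_norm _).trans ?_
  rw [norm_mul, Complex.norm_conj]

lemma ip_mul (o z w : ℂ) (ho : ‖o‖ = 1) : ip (o * z) (o * w) = ip z w := by
  have h : o.re ^ 2 + o.im ^ 2 = 1 := by
    have := Complex.sq_norm o
    rw [ho, Complex.normSq_apply] at this
    nlinarith
  unfold ip
  simp only [Complex.mul_re, Complex.mul_im]
  linear_combination (z.re * w.re + z.im * w.im) * h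

lemma ip_add_left (a b c : ℂ) : ip (a + b) c = ip a c + ip b c := by
  unfold ip; simp only [Complex.add_re, Complex.add_im]; ring

lemma ip_smul_left (r : ℝ) (b c : ℂ) : ip ((r : ℂ) * b) c = r * ip b c := by
  unfold ip
  simp only [Complex.mul_re, Complex.mul_im, Complex.ofReal_re, Complex.ofReal_im]
  ring

lemma ip_smul_right (r : ℝ) (b c : ℂ) : ip b ((r : ℂ) * c) = r * ip b c := by
  rw [ip_comm, ip_smul_left, ip_comm]

lemma hasDerivAt_re {f : ℝ → ℂ} {f' : ℂ} {s : ℝ} (h : HasDerivAt f f' s) :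
    HasDerivAt (fun s => (f s).re) f'.re s := by
  have := Complex.reCLM.hasFDerivAt.comp_hasDerivAt s h
  exact this

lemma hasDerivAt_im {f : ℝ → ℂ} {f' : ℂ} {s : ℝ} (h : HasDerivAt f f' s) :
    HasDerivAt (fun s => (f s).im) f'.im s := by
  have := Complex.imCLM.hasFDerivAt.comp_hasDerivAt s h
  exact this

lemma hasDerivAt_ip {f g : ℝ → ℂ} {f' g' : ℂ} {s : ℝ} (hf : HasDerivAt f f' s)
    (hg : HasDerivAt g g' s) :
    HasDerivAt (fun s => ip (f s) (g s)) (ip f' (g s) + ip (f s) g') s := by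
  unfold ip
  refine (((hasDerivAt_re hf).mul (hasDerivAt_re hg)).add
    ((hasDerivAt_im hf).mul (hasDerivAt_im hg))).congr_deriv ?_
  ring

lemma continuous_ip {f g : ℝ → ℂ} (hf : Continuous f) (hg : Continuous g) :
    Continuous (fun s => ip (f s) (g s)) := by
  unfold ip
  exact ((Complex.continuous_re.comp hf).mul (Complex.continuous_re.comp hg)).add
    ((Complex.continuous_im.comp hf).mul (Complex.continuous_im.comp hg))

lemma cont_of_deriv {f f' : ℝ → ℂ} (h : ∀ s, HasDerivAt f (f' s) s) : Continuous f :=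
  continuous_iff_continuousAt.2 fun s => (h s).continuousAt

/-- the fundamental theorem for a periodic function -/
lemma int_zero {G G' : ℝ → ℝ} (h : ∀ s, HasDerivAt G (G' s) s) (hc : Continuous G')
    (hG : G 1 = G 0) : ∫ s in (0 : ℝ)..1, G' s = 0 := by
  rw [intervalIntegral.integral_eq_sub_of_hasDerivAt (fun x _ => h x)
    (hc.intervalIntegrable _ _), hG, sub_self]

/-- real part of an integral -/
lemma re_int {f : ℝ → ℂ} (hf : Continuous f) :
    (∫ s in (0 : ℝ)..1, f s).re = ∫ s in (0 : ℝ)..1, (f s).re := by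
  have := Complex.reCLM.intervalIntegral_comp_comm (hf.intervalIntegrable (μ := volume) 0 1)
  exact this.symm

/-- square of the mean -/
lemma sq_int_le {f : ℝ → ℝ} (hf : Continuous f) :
    (∫ s in (0 : ℝ)..1, f s) ^ 2 ≤ ∫ s in (0 : ℝ)..1, f s ^ 2 := by
  set I := ∫ s in (0 : ℝ)..1, f s with hI
  have h1 : 0 ≤ ∫ s in (0 : ℝ)..1, (f s - I) ^ 2 :=
    intervalIntegral.integral_nonneg zero_le_one fun s _ => sq_nonneg _
  have h2 : ∫ s in (0 : ℝ)..1, (f s - I) ^ 2 = (∫ s in (0 : ℝ)..1, f s ^ 2) - I ^ 2 := by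
    have e : ∀ s, (f s - I) ^ 2 = f s ^ 2 - (2 * I) * f s + I ^ 2 := fun s => by ring
    simp_rw [e]
    rw [intervalIntegral.integral_add, intervalIntegral.integral_sub,
      intervalIntegral.integral_const_mul, intervalIntegral.integral_const, ← hI]
    · simp
      ring
    all_goals exact Continuous.intervalIntegrable (by fun_prop) _ _
  linarith

/-- oscillation bound -/
lemma norm_diff_le {E : Type*} [NormedAddCommGroup E] [NormedSpace ℝ E] [CompleteSpace E]
    {f f' : ℝ → E} {b : ℝ → ℝ} (hf : ∀ s, HasDerivAt f (f' s) s) (hc : Continuous f')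
    (hb : Continuous b) (hle : ∀ s, ‖f' s‖ ≤ b s) :
    ∀ s ∈ Icc (0 : ℝ) 1, ∀ t ∈ Icc (0 : ℝ) 1, ‖f s - f t‖ ≤ ∫ x in (0 : ℝ)..1, b x := by
  have main : ∀ s ∈ Icc (0 : ℝ) 1, ∀ t ∈ Icc (0 : ℝ) 1, t ≤ s →
      ‖f s - f t‖ ≤ ∫ x in (0 : ℝ)..1, b x := by
    intro s hs t ht hts
    rw [← intervalIntegral.integral_eq_sub_of_hasDerivAt (fun x _ => hf x)
      (hc.intervalIntegrable _ _)]
    have hb0 : ∀ x, 0 ≤ b x := fun x => le_trans (norm_nonneg _) (hle x)
    calc ‖∫ x in t..s, f' x‖ ≤ ∫ x in t..s, ‖f' x‖ :=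
          intervalIntegral.norm_integral_le_integral_norm hts
      _ ≤ ∫ x in t..s, b x :=
          intervalIntegral.integral_mono_on hts (hc.norm.intervalIntegrable _ _)
            (hb.intervalIntegrable _ _) (fun x _ => hle x)
      _ ≤ ∫ x in (0 : ℝ)..1, b x :=
          intervalIntegral.integral_mono_interval ht.1 hts hs.2
            (Filter.Eventually.of_forall hb0) (hb.intervalIntegrable _ _)
  intro s hs t ht
  rcases le_total t s with h | h
  · exact main s hs t ht h
  · rw [norm_sub_rev]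
    exact main t ht s hs h

lemma hasDerivAt_nsq {y : ℝ → ℂ} {y' : ℂ} {s : ℝ} (hy : HasDerivAt y y' s) :
    HasDerivAt (fun s => ‖y s‖ ^ 2) (2 * ip y' (y s)) s := by
  have h := hasDerivAt_ip hy hy
  simp only [ip_self] at h
  refine h.congr_deriv ?_
  rw [ip_comm (y s) y']
  ring

end Pool.Agent.TH480.DWc
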