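import Pool.Agent.TH281.DW.Stmts
import Pool.Agent.TH480.DWc

set_option autoImplicit false

namespace Pool.Agent.TH480.J2110

open Pool.Agent.TH281.DW Pool.Agent.TH480.DWc
open MeasureTheory Set

theorem main : TaskL1 := by
  intro y y1 y2 ω lam hy hy1 hy2 hω hp hp1 hlam
  have cy := cont_of_deriv hy
  have cy1 := cont_of_deriv hy1
  set R : ℝ → ℝ := fun s => Real.sqrt (1 + ‖y s‖ ^ 2 / lam ^ 2) with hR
  have hpos : ∀ s, 0 < 1 + ‖y s‖ ^ 2 / lam ^ 2 := fun s => by positivity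
  have hRpos : ∀ s, 0 < R s := fun s => Real.sqrt_pos.2 (hpos s)
  have hR2 : ∀ s, R s ^ 2 = 1 + ‖y s‖ ^ 2 / lam ^ 2 := fun s => Real.sq_sqrt (hpos s).le
  have cR : Continuous R := by
    simp only [hR]
    fun_prop
  have dR : ∀ s, HasDerivAt R (ip (y1 s) (y s) / (lam ^ 2 * R s)) s := by
    intro s
    have h := ((((hasDerivAt_nsq (hy s)).div_const (lam ^ 2)).const_add 1).sqrt (hpos s).ne')
    refine h.congr_deriv ?_
    have h1 := (hRpos s).ne'
    have h2 : Real.sqrt (1 + ‖y s‖ ^ 2 / lam ^ 2) = R s := rfl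
    rw [h2]
    field_simp
  have cK : Continuous (fun s => ip (y1 s) (y s)) := continuous_ip cy1 cy
  have cK2 : Continuous (fun s => ip (y2 s) (y s)) := continuous_ip hy2 cy
  have dG : ∀ s, HasDerivAt (fun s => ip (y1 s) (y s) / R s)
      (ip (y2 s) (y s) / R s + (‖y1 s‖ ^ 2 / R s - ip (y1 s) (y s) ^ 2 / (lam ^ 2 * R s ^ 3))) s := by
    intro s
    refine ((hasDerivAt_ip (hy1 s) (hy s)).div (dR s) (hRpos s).ne').congr_deriv ?_
    rw [ip_self]
    have h1 := (hRpos s).ne'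
    field_simp
    ring
  have cA : Continuous (fun s => ip (y2 s) (y s) / R s) := cK2.div cR fun s => (hRpos s).ne'
  have cB : Continuous (fun s => ‖y1 s‖ ^ 2 / R s - ip (y1 s) (y s) ^ 2 / (lam ^ 2 * R s ^ 3)) := by
    refine ((cy1.norm.pow 2).div cR fun s => (hRpos s).ne').sub
      ((cK.pow 2).div (continuous_const.mul (cR.pow 3)) fun s => ?_)
    have := hRpos s
    positivity
  have h0 := int_zero dG (cA.add cB) (by
    have e1 : R 1 = R 0 := by simp only [hR, hp, norm_mul, hω, one_mul]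
    rw [e1, hp, hp1, ip_mul _ _ _ hω])
  rw [intervalIntegral.integral_add (cA.intervalIntegrable _ _) (cB.intervalIntegrable _ _)] at h0
  -- upper bound
  have hyR : ∀ s, ‖y s‖ ≤ lam * R s := by
    intro s
    have h1 : ‖y s‖ ^ 2 ≤ (lam * R s) ^ 2 := by
      rw [mul_pow, hR2]
      have : lam ^ 2 * (1 + ‖y s‖ ^ 2 / lam ^ 2) = lam ^ 2 + ‖y s‖ ^ 2 := by
        field_simp
      rw [this]
      have : 0 ≤ lam ^ 2 := by positivity
      linarith
    have h2 := hRpos s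
    exact le_of_sq_le_sq h1 (by positivity)
  have hup : -(∫ s in (0 : ℝ)..1, ip (y2 s) (y s) / R s) ≤ lam * ∫ s in (0 : ℝ)..1, ‖y2 s‖ := by
    rw [← intervalIntegral.integral_neg, ← intervalIntegral.integral_const_mul]
    refine intervalIntegral.integral_mono_on zero_le_one (cA.neg.intervalIntegrable _ _)
      ((continuous_const.mul hy2.norm).intervalIntegrable _ _) fun s _ => ?_
    have h1 := hRpos s
    rw [← neg_div, div_le_iff₀ h1]
    have h2 := abs_ip_le (y2 s) (y s)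
    have h3 := neg_abs_le (ip (y2 s) (y s))
    have h4 : ‖y2 s‖ * ‖y s‖ ≤ ‖y2 s‖ * (lam * R s) :=
      mul_le_mul_of_nonneg_left (hyR s) (norm_nonneg _)
    nlinarith
  -- lower bound
  have hlow : ∀ s, (if ‖y s‖ < lam then ‖y1 s‖ ^ 2 else 0) ≤
      3 * (‖y1 s‖ ^ 2 / R s - ip (y1 s) (y s) ^ 2 / (lam ^ 2 * R s ^ 3)) := by
    intro s
    have h1 := hRpos s
    have h2 := hR2 s
    have h3 : ip (y1 s) (y s) ^ 2 ≤ ‖y1 s‖ ^ 2 * ‖y s‖ ^ 2 := by
      rw [← mul_pow, ← sq_abs (ip (y1 s) (y s))]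
      exact pow_le_pow_left₀ (abs_nonneg _) (abs_ip_le _ _) 2
    have h4 : ‖y1 s‖ ^ 2 / R s ^ 3 ≤
        ‖y1 s‖ ^ 2 / R s - ip (y1 s) (y s) ^ 2 / (lam ^ 2 * R s ^ 3) := by
      have e : ‖y1 s‖ ^ 2 / R s - ip (y1 s) (y s) ^ 2 / (lam ^ 2 * R s ^ 3) -
          ‖y1 s‖ ^ 2 / R s ^ 3 =
          (‖y1 s‖ ^ 2 * ‖y s‖ ^ 2 - ip (y1 s) (y s) ^ 2) / (lam ^ 2 * R s ^ 3) := by
        have h5 : ‖y s‖ ^ 2 = lam ^ 2 * (R s ^ 2 - 1) := by
          rw [h2]; field_simp; ring
        rw [h5]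
        field_simp
        ring
      have h6 : 0 ≤ (‖y1 s‖ ^ 2 * ‖y s‖ ^ 2 - ip (y1 s) (y s) ^ 2) / (lam ^ 2 * R s ^ 3) :=
        div_nonneg (by linarith) (by positivity)
      linarith
    split_ifs with hlt
    · have h5 : R s ^ 2 < 2 := by
        rw [h2]
        have : ‖y s‖ ^ 2 / lam ^ 2 < 1 := by
          rw [div_lt_one (by positivity)]
          exact pow_lt_pow_left₀ hlt (norm_nonneg _) two_ne_zero
        linarith
      have h6 : R s ^ 3 ≤ 3 := by
        have h7 : R s < 3 / 2 := by nlinarith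
        nlinarith
      have h8 : ‖y1 s‖ ^ 2 / 3 ≤ ‖y1 s‖ ^ 2 / R s ^ 3 :=
        div_le_div_of_nonneg_left (by positivity) (by positivity) h6
      linarith
    · have h5 : 0 ≤ ‖y1 s‖ ^ 2 / R s ^ 3 := by positivity
      linarith
  have hint : IntervalIntegrable (fun s => if ‖y s‖ < lam then ‖y1 s‖ ^ 2 else 0) volume 0 1 := by
    have hU : MeasurableSet {s : ℝ | ‖y s‖ < lam} :=
      (isOpen_lt cy.norm continuous_const).measurableSet
    have h1 : IntervalIntegrable ({s : ℝ | ‖y s‖ < lam}.indicator (fun s => ‖y1 s‖ ^ 2)) volume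
        0 1 := by
      rw [intervalIntegrable_iff]
      exact (intervalIntegrable_iff.1 ((cy1.norm.pow 2).intervalIntegrable 0 1)).indicator hU
    refine h1.congr ?_
    intro s _
    simp only [Set.indicator_apply, Set.mem_ofPred_eq]
  have hfin : ∫ s in (0 : ℝ)..1, (if ‖y s‖ < lam then ‖y1 s‖ ^ 2 else 0) ≤
      ∫ s in (0 : ℝ)..1, 3 * (‖y1 s‖ ^ 2 / R s - ip (y1 s) (y s) ^ 2 / (lam ^ 2 * R s ^ 3)) :=
    intervalIntegral.integral_mono_on zero_le_one hint
      ((continuous_const.mul cB).intervalIntegrable _ _) fun s _ => hlow s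
  rw [intervalIntegral.integral_const_mul] at hfin
  linarith

end Pool.Agent.TH480.J2110
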