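import Pool.Agent.TH281.DW.Stmts
import Pool.Agent.TH480.DWc

set_option autoImplicit false

namespace Pool.Agent.TH480.J2111

open Pool.Agent.TH281.DW Pool.Agent.TH480.DWc
open MeasureTheory Set

theorem taskL2 : TaskL2 := by
  intro y y1 g ν hy hy1 hg hν s hs
  have cy := cont_of_deriv hy
  have cy1 := cont_of_deriv hy1
  have hE : ∀ s, HasDerivAt (fun s => ‖y1 s‖ ^ 2 + ν * ‖y s‖ ^ 2) (2 * ip (g s) (y1 s)) s := by
    intro s
    refine ((hasDerivAt_nsq (hy1 s)).add ((hasDerivAt_nsq (hy s)).const_mul ν)).congr_deriv ?_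
    rw [ip_add_left]
    have : -(ν : ℂ) * y s = ((-ν : ℝ) : ℂ) * y s := by push_cast; ring
    rw [this, ip_smul_left, ip_comm (y s) (y1 s)]
    ring
  set Ef : ℝ → ℝ := fun s => ‖y1 s‖ ^ 2 + ν * ‖y s‖ ^ 2 with hEf
  have cE : Continuous Ef := by fun_prop
  have hE0 : ∀ s, 0 ≤ Ef s := fun s => by positivity
  set I := ∫ t in (0 : ℝ)..1, ‖g t‖ with hI
  have hI0 : 0 ≤ I := intervalIntegral.integral_nonneg zero_le_one fun _ _ => norm_nonneg _
  have cip : Continuous (fun s => ip (g s) (y1 s)) := continuous_ip hg cy1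
  have key : ∀ ε : ℝ, 0 < ε → ∀ t ∈ Icc (0 : ℝ) 1,
      Real.sqrt (Ef s + ε) ≤ Real.sqrt (Ef t + ε) + I := by
    intro ε hε t ht
    have hpos : ∀ x, 0 < Ef x + ε := fun x => by have := hE0 x; linarith
    have hR : ∀ x, HasDerivAt (fun x => Real.sqrt (Ef x + ε))
        (ip (g x) (y1 x) / Real.sqrt (Ef x + ε)) x := by
      intro x
      refine (((hE x).add_const ε).sqrt (hpos x).ne').congr_deriv ?_
      rw [mul_div_mul_left _ _ two_ne_zero]
    have hle : ∀ x, ‖ip (g x) (y1 x) / Real.sqrt (Ef x + ε)‖ ≤ ‖g x‖ := by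
      intro x
      have h1 := Real.sqrt_pos.2 (hpos x)
      rw [norm_div, Real.norm_eq_abs, Real.norm_eq_abs, abs_of_pos h1, div_le_iff₀ h1]
      refine (abs_ip_le _ _).trans (mul_le_mul_of_nonneg_left ?_ (norm_nonneg _))
      refine Real.le_sqrt_of_sq_le ?_
      have : 0 ≤ ν * ‖y x‖ ^ 2 := by positivity
      simp only [hEf]
      linarith
    have hcont : Continuous (fun x => ip (g x) (y1 x) / Real.sqrt (Ef x + ε)) := by
      refine cip.div (by fun_prop) fun x => (Real.sqrt_pos.2 (hpos x)).ne'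
    have h := norm_diff_le hR hcont hg.norm hle s hs t ht
    rw [Real.norm_eq_abs] at h
    have := le_abs_self (Real.sqrt (Ef s + ε) - Real.sqrt (Ef t + ε))
    linarith
  have key2 : ∀ t ∈ Icc (0 : ℝ) 1, Ef s ≤ 2 * Ef t + 2 * I ^ 2 := by
    intro t ht
    refine le_of_forall_pos_le_add fun ε hε => ?_
    have h1 := key ε hε t ht
    have hs0 : 0 ≤ Ef s + ε := by have := hE0 s; linarith
    have ht0 : 0 ≤ Ef t + ε := by have := hE0 t; linarith
    have h2 := Real.sq_sqrt hs0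
    have h3 := Real.sq_sqrt ht0
    have h4 := Real.sqrt_nonneg (Ef s + ε)
    have h5 := Real.sqrt_nonneg (Ef t + ε)
    have h6 : Real.sqrt (Ef s + ε) ^ 2 ≤ (Real.sqrt (Ef t + ε) + I) ^ 2 :=
      pow_le_pow_left₀ h4 h1 2
    nlinarith [sq_nonneg (Real.sqrt (Ef t + ε) - I)]
  have h7 : I ^ 2 ≤ ∫ t in (0 : ℝ)..1, ‖g t‖ ^ 2 := sq_int_le hg.norm
  have h8 : ∫ _t in (0 : ℝ)..1, Ef s ≤ ∫ t in (0 : ℝ)..1, (2 * Ef t + 2 * I ^ 2) := by
    refine intervalIntegral.integral_mono_on zero_le_one ?_ ?_ key2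
    all_goals exact Continuous.intervalIntegrable (by fun_prop) _ _
  have h9 : ∫ t in (0 : ℝ)..1, (2 * Ef t + 2 * I ^ 2) =
      2 * (∫ t in (0 : ℝ)..1, Ef t) + 2 * I ^ 2 := by
    rw [intervalIntegral.integral_add, intervalIntegral.integral_const_mul,
      intervalIntegral.integral_const]
    · simp
    all_goals exact Continuous.intervalIntegrable (by fun_prop) _ _
  rw [h9, intervalIntegral.integral_const, sub_zero, one_smul] at h8
  show Ef s ≤ 2 * (∫ t in (0 : ℝ)..1, Ef t) + 2 * ∫ t in (0 : ℝ)..1, ‖g t‖ ^ 2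
  linarith

theorem taskL3 : TaskL3 := by
  intro y y1 hy hy1 θ hθ hθ0 hθ1 s hs
  have cy := cont_of_deriv hy
  set I := ∫ t in (0 : ℝ)..1, ‖y1 t‖ with hI
  have hI0 : 0 ≤ I := intervalIntegral.integral_nonneg zero_le_one fun _ _ => norm_nonneg _
  have key : ∀ t ∈ Icc (0 : ℝ) 1, θ t * ‖y s‖ ^ 2 ≤ θ t * (2 * ‖y t‖ ^ 2 + 2 * I ^ 2) := by
    intro t ht
    refine mul_le_mul_of_nonneg_left ?_ (hθ0 t)
    have h := norm_diff_le hy hy1 hy1.norm (fun x => le_rfl) s hs t ht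
    have h1 : ‖y s‖ ≤ ‖y t‖ + I := by
      have h2 := norm_sub_norm_le (y s) (y t)
      linarith
    have h2 : ‖y s‖ ^ 2 ≤ (‖y t‖ + I) ^ 2 := pow_le_pow_left₀ (norm_nonneg _) h1 2
    nlinarith [sq_nonneg (‖y t‖ - I)]
  have h7 : I ^ 2 ≤ ∫ t in (0 : ℝ)..1, ‖y1 t‖ ^ 2 := sq_int_le hy1.norm
  have h8 : ∫ t in (0 : ℝ)..1, θ t * ‖y s‖ ^ 2 ≤
      ∫ t in (0 : ℝ)..1, (2 * (θ t * ‖y t‖ ^ 2) + θ t * (2 * I ^ 2)) := by
    refine intervalIntegral.integral_mono_on zero_le_one ?_ ?_ ?_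
    · exact Continuous.intervalIntegrable (by fun_prop) _ _
    · exact Continuous.intervalIntegrable (by fun_prop) _ _
    · intro t ht
      have := key t ht
      linarith
  rw [intervalIntegral.integral_add, intervalIntegral.integral_const_mul,
    intervalIntegral.integral_mul_const, intervalIntegral.integral_mul_const, hθ1] at h8
  · linarith
  all_goals exact Continuous.intervalIntegrable (by fun_prop) _ _

end Pool.Agent.TH480.J2111
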