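import Pool.Agent.TH281.PC.Core
open MeasureTheory Set Metric Filter Topology
open scoped InnerProductSpace
namespace Pool.Agent.TH480.J151
open Pool.Agent.TH281.PC
variable {d : ℕ}

/-- expansion of a quadratic polynomial at another point -/
theorem quad_expand {ξ : V d} {H : V d →L[ℝ] V d} (hs : ∀ a b, ⟪H a, b⟫_ℝ = ⟪a, H b⟫_ℝ)
    (z₀ z y : V d) :
    (⟪ξ, y - z₀⟫_ℝ + (1 / 2) * ⟪H (y - z₀), y - z₀⟫_ℝ) -
      (⟪ξ, z - z₀⟫_ℝ + (1 / 2) * ⟪H (z - z₀), z - z₀⟫_ℝ) =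
      ⟪ξ + H (z - z₀), y - z⟫_ℝ + (1 / 2) * ⟪H (y - z), y - z⟫_ℝ := by
  obtain ⟨a, rfl⟩ : ∃ a, z = z₀ + a := ⟨z - z₀, by abel⟩
  obtain ⟨b, rfl⟩ : ∃ b, y = z₀ + a + b := ⟨y - (z₀ + a), by abel⟩
  have e1 : z₀ + a + b - z₀ = a + b := by abel
  have e2 : z₀ + a - z₀ = a := by abel
  have e3 : z₀ + a + b - (z₀ + a) = b := by abel
  rw [e1, e2, e3]
  simp only [inner_add_left, inner_add_right, map_add]
  have h1 : ⟪H b, a⟫_ℝ = ⟪H a, b⟫_ℝ := by
    rw [hs b a, real_inner_comm]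
  rw [h1]
  ring

/-- touching lemma: stability of the subsolution inequality -/
theorem sub_touch {O : OpData d} {δ : ℝ} {P : Set (V d)} (_hP : IsOpen P) {z₀ ξ : V d}
    {H : V d →L[ℝ] V d} (hs : ∀ a b, ⟪H a, b⟫_ℝ = ⟪a, H b⟫_ℝ) {m : ℝ} {r γ : ℝ} (hr : 0 < r)
    (hγ : 0 < γ) (hball : closedBall z₀ r ⊆ P)
    (happ : ∀ e : ℝ, 0 < e → ∃ w : V d → ℝ, Sub O δ P w ∧ ContinuousOn w P ∧ m - e < w z₀ ∧
      ∀ z ∈ closedBall z₀ r, w z ≤ m + ⟪ξ, z - z₀⟫_ℝ + (1 / 2) * ⟪H (z - z₀), z - z₀⟫_ℝ) :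
    0 ≤ O.A ξ (H + (2 * γ) • ContinuousLinearMap.id ℝ (V d)) + (O.b ξ - δ * m) := by
  set H' : V d →L[ℝ] V d := H + (2 * γ) • ContinuousLinearMap.id ℝ (V d) with hH'
  have hs' : ∀ a b, ⟪H' a, b⟫_ℝ = ⟪a, H' b⟫_ℝ := by
    intro a b
    simp only [hH', add_apply, smul_apply, ContinuousLinearMap.id_apply, inner_add_left,
      inner_add_right, inner_smul_left, inner_smul_right, conj_trivial, hs a b]
  set T1 : V d → ℝ := fun z => m + ⟪ξ, z - z₀⟫_ℝ + (1 / 2) * ⟪H' (z - z₀), z - z₀⟫_ℝ with hT1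
  have hT1c : Continuous T1 := by
    simp only [hT1]
    fun_prop
  have hT1e : ∀ z, T1 z = (m + ⟪ξ, z - z₀⟫_ℝ + (1 / 2) * ⟪H (z - z₀), z - z₀⟫_ℝ) +
      γ * ‖z - z₀‖ ^ 2 := by
    intro z
    simp only [hT1, hH', add_apply, smul_apply, ContinuousLinearMap.id_apply, inner_add_left,
      inner_smul_left, conj_trivial, real_inner_self_eq_norm_sq]
    ring
  have hT10 : T1 z₀ = m := by simp [hT1]
  by_contra hneg
  push Not at hneg
  -- the continuous function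
  set G : V d × ℝ → ℝ := fun q => O.A (ξ + H' (q.1 - z₀)) H' + O.b (ξ + H' (q.1 - z₀)) -
    δ * (T1 q.1 + q.2) with hG
  have hGc : Continuous G := by
    have h1 : Continuous fun q : V d × ℝ => ξ + H' (q.1 - z₀) := by fun_prop
    have h2 : Continuous fun q : V d × ℝ => O.A (ξ + H' (q.1 - z₀)) H' :=
      (O.contA.comp h1).clm_apply continuous_const
    have h3 : Continuous fun q : V d × ℝ => O.b (ξ + H' (q.1 - z₀)) := O.contb.comp h1
    have h4 : Continuous fun q : V d × ℝ => δ * (T1 q.1 + q.2) := by fun_prop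
    exact (h2.add h3).sub h4
  have hG0 : G (z₀, 0) < 0 := by
    simp only [hG, sub_self, map_zero, add_zero, hT10]
    linarith
  obtain ⟨η, hη, hηb⟩ := Metric.eventually_nhds_iff.1 (hGc.continuousAt.eventually_lt_const hG0)
  -- choose the accuracy
  set e : ℝ := min η (min (γ * η ^ 2) (γ * r ^ 2)) / 2 with he
  have hmin : 0 < min η (min (γ * η ^ 2) (γ * r ^ 2)) :=
    lt_min hη (lt_min (by positivity) (by positivity))
  have he0 : 0 < e := by positivity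
  have he1 : e < η := by
    have := min_le_left η (min (γ * η ^ 2) (γ * r ^ 2))
    linarith
  have he2 : e < γ * η ^ 2 := by
    have := (min_le_right η (min (γ * η ^ 2) (γ * r ^ 2))).trans (min_le_left _ _)
    linarith
  have he3 : e < γ * r ^ 2 := by
    have := (min_le_right η (min (γ * η ^ 2) (γ * r ^ 2))).trans (min_le_right _ _)
    linarith
  obtain ⟨w, hwsub, hwc, hw0, hwle⟩ := happ e he0
  -- maximum point
  obtain ⟨z, hz, hmax⟩ := (isCompact_closedBall z₀ r).exists_isMaxOn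
    ⟨z₀, mem_closedBall_self hr.le⟩
    ((hwc.mono hball).sub hT1c.continuousOn)
  have h1 : w z₀ - T1 z₀ ≤ w z - T1 z := hmax (mem_closedBall_self hr.le)
  rw [hT10] at h1
  have h2 : w z - T1 z ≤ -(γ * ‖z - z₀‖ ^ 2) := by
    have := hwle z hz
    rw [hT1e z]
    linarith
  have h3 : γ * ‖z - z₀‖ ^ 2 < e := by linarith
  have h4 : ‖z - z₀‖ < r := by
    have : γ * ‖z - z₀‖ ^ 2 < γ * r ^ 2 := h3.trans he3
    have := lt_of_mul_lt_mul_left this hγ.le
    exact lt_of_pow_lt_pow_left₀ 2 hr.le this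
  have h5 : ‖z - z₀‖ < η := by
    have : γ * ‖z - z₀‖ ^ 2 < γ * η ^ 2 := h3.trans he2
    have := lt_of_mul_lt_mul_left this hγ.le
    exact lt_of_pow_lt_pow_left₀ 2 hη.le this
  have h6 : 0 ≤ γ * ‖z - z₀‖ ^ 2 := by positivity
  have hzb : z ∈ ball z₀ r := by rwa [mem_ball, dist_eq_norm]
  have h7 := hwsub z (hball hz) (ξ + H' (z - z₀)) H' (by
    filter_upwards [isOpen_ball.mem_nhds hzb] with y hy
    have h8 : w y - T1 y ≤ w z - T1 z := hmax (ball_subset_closedBall hy)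
    have h9 := quad_expand (ξ := ξ) hs' z₀ z y
    simp only [hT1] at h8
    linarith)
  have h8 := hηb (y := (z, w z - T1 z)) (by
    rw [Prod.dist_eq, max_lt_iff]
    constructor
    · rw [dist_eq_norm]; exact h5
    · simp only [dist_zero_right, Real.norm_eq_abs]
      rw [abs_lt]
      constructor <;> linarith)
  simp only [hG, add_sub_cancel] at h8
  linarith

/-- suprema of chains -/
theorem chain_sup {O : OpData d} {δ : ℝ} {P : Set (V d)} (hP : IsOpen P)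
    {bar : V d → ℝ} (hbar : Coer P bar) {C : Set (V d → ℝ)} (hne : C.Nonempty)
    (hcls : ∀ w ∈ C, Cls O δ P w) (hle : ∀ w ∈ C, ∀ x ∈ P, w x ≤ bar x)
    (hchain : ∀ w₁ ∈ C, ∀ w₂ ∈ C, (∀ x ∈ P, w₁ x ≤ w₂ x) ∨ ∀ x ∈ P, w₂ x ≤ w₁ x) :
    ∃ W, Cls O δ P W ∧ ∀ w ∈ C, ∀ x ∈ P, w x ≤ W x := by
  set W : V d → ℝ := fun x => sSup ((fun w : V d → ℝ => w x) '' C) with hW
  have hbdd : ∀ x ∈ P, BddAbove ((fun w : V d → ℝ => w x) '' C) := by
    intro x hx
    refine ⟨bar x, ?_⟩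
    rintro _ ⟨w, hw, rfl⟩
    exact hle w hw x hx
  have hneI : ∀ x, ((fun w : V d → ℝ => w x) '' C).Nonempty := fun x => hne.image _
  have hleW : ∀ w ∈ C, ∀ x ∈ P, w x ≤ W x := fun w hw x hx =>
    le_csSup (hbdd x hx) ⟨w, hw, rfl⟩
  have hWbar : ∀ x ∈ P, W x ≤ bar x := by
    intro x hx
    refine csSup_le (hneI x) ?_
    rintro _ ⟨w, hw, rfl⟩
    exact hle w hw x hx
  have happ : ∀ x ∈ P, ∀ e : ℝ, 0 < e → ∃ w ∈ C, W x - e < w x := by
    intro x hx e he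
    obtain ⟨_, ⟨w, hw, rfl⟩, hlt⟩ := exists_lt_of_lt_csSup (hneI x)
      (show W x - e < sSup ((fun w : V d → ℝ => w x) '' C) by
        show W x - e < W x
        linarith)
    exact ⟨w, hw, hlt⟩
  obtain ⟨w₀, hw₀⟩ := hne
  refine ⟨W, ⟨⟨(hcls w₀ hw₀).conc.1, ?_⟩, ?_, ?_⟩, hleW⟩
  · intro x hx y hy a b ha hb hab
    refine le_of_forall_pos_le_add fun e he => ?_
    obtain ⟨w₁, hw₁, h₁⟩ := happ x hx e he
    obtain ⟨w₂, hw₂, h₂⟩ := happ y hy e he
    obtain ⟨w, hw, hx', hy'⟩ : ∃ w ∈ C, W x - e ≤ w x ∧ W y - e ≤ w y := by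
      rcases hchain w₁ hw₁ w₂ hw₂ with h | h
      · exact ⟨w₂, hw₂, by linarith [h x hx], h₂.le⟩
      · exact ⟨w₁, hw₁, h₁.le, by linarith [h y hy]⟩
    have hc := (hcls w hw).conc.2 hx hy ha hb hab
    have hz : a • x + b • y ∈ P := (hcls w hw).conc.1 hx hy ha hb hab
    have hwz := hleW w hw _ hz
    simp only [smul_eq_mul] at hc ⊢
    have h3 : a * W x ≤ a * (w x + e) := by gcongr; linarith
    have h4 : b * W y ≤ b * (w y + e) := by gcongr; linarith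
    have h5 : a * (w x + e) + b * (w y + e) = a * w x + b * w y + e := by
      have : b = 1 - a := by linarith
      rw [this]; ring
    linarith
  · refine Sub.of_symm fun z₀ hz₀ ξ H hs hH => ?_
    obtain ⟨r, hr, hrb⟩ := Metric.nhds_basis_closedBall.mem_iff.1
      (Filter.inter_mem (hP.mem_nhds hz₀) hH)
    have hball : closedBall z₀ r ⊆ P := fun z hz => (hrb hz).1
    have key := O.limit ξ H (r := O.b ξ - δ * W z₀) (fun γ hγ =>
      sub_touch hP hs hr hγ hball (fun e he => by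
        obtain ⟨w, hw, hlt⟩ := happ z₀ hz₀ e he
        refine ⟨w, (hcls w hw).sub, (hcls w hw).conc.continuousOn hP, hlt, fun z hz => ?_⟩
        exact (hleW w hw z (hball hz)).trans (hrb hz).2))
    linarith
  · intro M
    obtain ⟨K, hKP, hK, hKM⟩ := hbar M
    exact ⟨K, hKP, hK, fun x hx h => hKM x hx (h.trans (hWbar x hx))⟩

end Pool.Agent.TH480.J151
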