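import Pool.Agent.TH281.PC.Core
open MeasureTheory Set Metric Filter Topology
open scoped InnerProductSpace
namespace Pool.Agent.TH480.J153
open Pool.Agent.TH281.PC
variable {d : ℕ}

/-- the logarithmic barrier has the expected gradient -/
theorem hasGradientAt_log {ν : V d} {k C₁ : ℝ} {x : V d} (hx : 0 < ⟪ν, x⟫_ℝ + k) :
    HasGradientAt (fun y : V d => (1 / 2) * Real.log (⟪ν, y⟫_ℝ + k) + C₁)
      ((1 / (2 * (⟪ν, x⟫_ℝ + k))) • ν) x := by
  rw [hasGradientAt_iff_hasFDerivAt]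
  have h1 : HasFDerivAt (fun y : V d => ⟪ν, y⟫_ℝ + k) (innerSL ℝ ν) x :=
    (innerSL ℝ ν).hasFDerivAt.add_const k
  have h2 := ((h1.log hx.ne').const_mul (1 / 2 : ℝ)).add_const C₁
  refine h2.congr_fderiv ?_
  ext e
  simp only [smul_apply, innerSL_apply_apply, smul_eq_mul, InnerProductSpace.toDual_apply_apply,
    inner_smul_left, conj_trivial]
  field_simp

theorem hasFDerivAt_grad {ν : V d} {k : ℝ} {x : V d} (hx : 0 < ⟪ν, x⟫_ℝ + k) {t : ℝ}
    (ht : t = 1 / (2 * (⟪ν, x⟫_ℝ + k))) :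
    HasFDerivAt (fun y : V d => (1 / (2 * (⟪ν, y⟫_ℝ + k))) • ν)
      ((-(2 * t ^ 2)) • (innerSL ℝ ν).smulRight ν) x := by
  have h1 : HasFDerivAt (fun y : V d => 2 * (⟪ν, y⟫_ℝ + k)) ((2 : ℝ) • innerSL ℝ ν) x :=
    ((innerSL ℝ ν).hasFDerivAt.add_const k).const_mul 2
  have hne : 2 * (⟪ν, x⟫_ℝ + k) ≠ 0 := by positivity
  have h2 : HasDerivAt (fun s : ℝ => 1 / s) (-((2 * (⟪ν, x⟫_ℝ + k)) ^ 2)⁻¹)
      (2 * (⟪ν, x⟫_ℝ + k)) := by
    simpa using hasDerivAt_inv hne
  have h3 := (h2.comp_hasFDerivAt x h1).smul_const ν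
  refine h3.congr_fderiv ?_
  ext1 e
  simp only [smul_apply, ContinuousLinearMap.smulRight_apply, innerSL_apply_apply, smul_eq_mul,
    smul_smul]
  congr 1
  rw [ht]
  field_simp

/-- logarithmic barrier at a supporting hyperplane -/
theorem compare {O : OpData d} {δ : ℝ} (hδ : 0 < δ) {P : Set (V d)} (hP : IsOpen P) {ν : V d}
    {c : ℝ} (hpos : ∀ x ∈ P, 0 < ⟪ν, x⟫_ℝ + c) {C₀ : ℝ}
    (hC : ∀ t : ℝ, 0 < t → O.A (t • ν) ((-(2 * t ^ 2)) • (innerSL ℝ ν).smulRight ν) +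
      O.b (t • ν) + (δ / 2) * Real.log (2 * t) ≤ δ * C₀)
    {w : V d → ℝ} (hw : Cls O δ P w) :
    ∀ x ∈ P, w x ≤ (1 / 2) * Real.log (⟪ν, x⟫_ℝ + c) + C₀ := by
  -- the comparison with a shifted barrier
  have main : ∀ s : ℝ, 0 < s → ∀ x₀ ∈ P,
      w x₀ ≤ (1 / 2) * Real.log (⟪ν, x₀⟫_ℝ + (c + s)) + (C₀ + s) := by
    intro s hs x₀ hx₀
    by_contra hcon
    push Not at hcon
    set g : V d → ℝ := fun y => (1 / 2) * Real.log (⟪ν, y⟫_ℝ + (c + s)) + (C₀ + s) with hg
    have hU : IsOpen {y : V d | 0 < ⟪ν, y⟫_ℝ + (c + s)} :=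
      isOpen_lt continuous_const (by fun_prop)
    have hPU : ∀ y ∈ P, 0 < ⟪ν, y⟫_ℝ + (c + s) := fun y hy => by linarith [hpos y hy]
    have hgrad : ∀ y ∈ {y : V d | 0 < ⟪ν, y⟫_ℝ + (c + s)},
        HasGradientAt g ((fun y : V d => (1 / (2 * (⟪ν, y⟫_ℝ + (c + s)))) • ν) y) y :=
      fun y hy => hasGradientAt_log hy
    have hlow : ∀ y ∈ P, (1 / 2) * Real.log s + (C₀ + s) ≤ g y := by
      intro y hy
      have : Real.log s ≤ Real.log (⟪ν, y⟫_ℝ + (c + s)) :=
        Real.log_le_log hs (by linarith [hpos y hy])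
      simp only [hg]
      linarith
    obtain ⟨K, hKP, hK, hKM⟩ := hw.coer (-((1 / 2) * Real.log s + (C₀ + s)))
    rw [neg_neg] at hKM
    have hx₀K : x₀ ∈ K := hKM x₀ hx₀ ((hlow x₀ hx₀).trans hcon.le)
    have hgc : ContinuousOn g P := fun y hy => by
      have := (hgrad y (hPU y hy)).hasFDerivAt.continuousAt
      exact this.continuousWithinAt
    have hwc : ContinuousOn w P := hw.conc.continuousOn hP
    obtain ⟨x, hxK, hmax⟩ := hK.exists_isMaxOn ⟨x₀, hx₀K⟩ ((hwc.sub hgc).mono hKP)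
    have h0 : 0 < w x - g x := by
      have h1 : w x₀ - g x₀ ≤ w x - g x := hmax hx₀K
      have h2 : g x₀ < w x₀ := hcon
      linarith
    have hxP := hKP hxK
    have hall : ∀ y ∈ P, w y - g y ≤ w x - g x := by
      intro y hy
      by_cases hyK : y ∈ K
      · exact hmax hyK
      · have h1 : w y < (1 / 2) * Real.log s + (C₀ + s) := by
          by_contra h
          push Not at h
          exact hyK (hKM y hy h)
        linarith [hlow y hy]
    set t : ℝ := 1 / (2 * (⟪ν, x⟫_ℝ + (c + s))) with ht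
    have hLpos := hPU x hxP
    have ht0 : 0 < t := by positivity
    set H : V d →L[ℝ] V d := (-(2 * t ^ 2)) • (innerSL ℝ ν).smulRight ν with hH
    have hlim := O.limit (t • ν) H (r := O.b (t • ν) - δ * w x) (fun γ hγ => by
      have h1 := hw.sub x hxP (t • ν) (H + (2 * γ) • ContinuousLinearMap.id ℝ (V d)) (by
        have h2 := taylor_two hU hgrad (hPU x hxP) (hasFDerivAt_grad hLpos ht) hγ
        filter_upwards [h2, hP.mem_nhds hxP] with y hy hyP
        have h3 := (abs_le.1 hy).2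
        have h4 := hall y hyP
        simp only [add_apply, smul_apply, ContinuousLinearMap.id_apply, inner_add_left,
          inner_smul_left, conj_trivial, real_inner_self_eq_norm_sq] at h3 ⊢
        simp only [hH, ht, smul_apply, inner_smul_left, conj_trivial] at h3 ⊢
        linarith)
      linarith)
    have h5 := hC t ht0
    have h6 : g x = -((1 / 2) * Real.log (2 * t)) + (C₀ + s) := by
      simp only [hg]
      have : 2 * t = (⟪ν, x⟫_ℝ + (c + s))⁻¹ := by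
        rw [ht]; field_simp
      rw [this, Real.log_inv]
      ring
    have h7 : δ * g x < δ * w x := by
      have : g x < w x := by linarith
      gcongr
    rw [h6] at h7
    have h8 : 0 < δ * s := by positivity
    nlinarith
  intro x hx
  have hlim : Tendsto (fun s : ℝ => (1 / 2) * Real.log (⟪ν, x⟫_ℝ + (c + s)) + (C₀ + s))
      (𝓝[>] 0) (𝓝 ((1 / 2) * Real.log (⟪ν, x⟫_ℝ + (c + 0)) + (C₀ + 0))) := by
    apply Tendsto.mono_left _ nhdsWithin_le_nhds
    have h1 : ContinuousAt (fun s : ℝ => ⟪ν, x⟫_ℝ + (c + s)) 0 := by fun_prop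
    have h2 : ContinuousAt (fun s : ℝ => Real.log (⟪ν, x⟫_ℝ + (c + s))) 0 :=
      h1.log (by rw [add_zero]; exact (hpos x hx).ne')
    have h3 : ContinuousAt (fun s : ℝ => (1 / 2) * Real.log (⟪ν, x⟫_ℝ + (c + s)) + (C₀ + s)) 0 :=
      (continuousAt_const.mul h2).add (by fun_prop)
    exact h3.tendsto
  rw [add_zero, add_zero] at hlim
  refine ge_of_tendsto hlim ?_
  filter_upwards [self_mem_nhdsWithin] with s hs
  exact main s hs x hx

/-- the minimum of the barriers is coercive on a bounded polyhedron -/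
theorem coer_barrier {n : ℕ} {ν : Fin (n + 1) → V d} {c : Fin (n + 1) → ℝ}
    (hb : Bornology.IsBounded (poly ν c)) (C₀ : ℝ) :
    ∃ bar : V d → ℝ, Coer (poly ν c) bar ∧ ∀ w : V d → ℝ,
      (∀ i, ∀ x ∈ poly ν c, w x ≤ (1 / 2) * Real.log (⟪ν i, x⟫_ℝ + c i) + C₀) →
      ∀ x ∈ poly ν c, w x ≤ bar x := by
  refine ⟨fun x => Finset.univ.inf' ⟨(0 : Fin (n + 1)), Finset.mem_univ _⟩
    (fun i => (1 / 2) * Real.log (⟪ν i, x⟫_ℝ + c i) + C₀), ?_, ?_⟩
  · intro M
    set K : Set (V d) := {x | ∀ i, Real.exp (-(2 * (M + C₀))) ≤ ⟪ν i, x⟫_ℝ + c i} with hKdef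
    have hKP : K ⊆ poly ν c := fun x hx i => (Real.exp_pos _).trans_le (hx i)
    have hKc : IsClosed K := by
      rw [hKdef, ofPred_forall]
      exact isClosed_iInter fun i => isClosed_le continuous_const (by fun_prop)
    refine ⟨K, hKP, Metric.isCompact_of_isClosed_isBounded hKc (hb.subset hKP), ?_⟩
    intro x hx hM i
    have h1 := (Finset.le_inf'_iff _ _).1 hM i (Finset.mem_univ i)
    have h2 : -(2 * (M + C₀)) ≤ Real.log (⟪ν i, x⟫_ℝ + c i) := by linarith
    exact (Real.le_log_iff_exp_le (hx i)).1 h2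
  · intro w hw x hx
    exact (Finset.le_inf'_iff _ _).2 fun i _ => hw i x hx

end Pool.Agent.TH480.J153
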