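import Pool.Agent.TH281.PC.Op
open MeasureTheory Set Metric Filter Topology
open scoped InnerProductSpace
namespace Pool.Agent.TH480.J155
open Pool.Agent.TH281.PC
variable {d : ℕ}

theorem trL_smulRight (ν : V d) : trL d ((innerSL ℝ ν).smulRight ν) = ‖ν‖ ^ 2 := by
  have B := stdOrthonormalBasis ℝ (V d)
  rw [trL_eq_sum B, ← real_inner_self_eq_norm_sq, ← B.sum_inner_mul_inner ν ν]
  refine Finset.sum_congr rfl fun i _ => ?_
  simp only [ContinuousLinearMap.smulRight_apply, innerSL_apply_apply, inner_smul_left,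
    conj_trivial]
  rw [real_inner_comm ν (B i)]

/-- `(δ/2) log (2t)` is below any positive multiple of `t^p` up to a constant -/
theorem log_le {p δ c : ℝ} (hp : 1 < p) (hδ : 0 < δ) (hc : 0 < c) :
    ∃ C : ℝ, ∀ t : ℝ, 0 < t → (δ / 2) * Real.log (2 * t) ≤ c * t ^ p + C := by
  have hp0 : 0 < p := by linarith
  set κ := 2 * p * c / δ with hκ
  have hκ0 : 0 < κ := by positivity
  refine ⟨(δ / 2) * Real.log 2 - δ / (2 * p) * (1 + Real.log κ), fun t ht => ?_⟩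
  have h1 : Real.log (κ * t ^ p) ≤ κ * t ^ p - 1 := Real.log_le_sub_one_of_pos (by positivity)
  rw [Real.log_mul hκ0.ne' (by positivity), Real.log_rpow ht] at h1
  rw [Real.log_mul (by norm_num) ht.ne']
  have h2 : δ / (2 * p) * (Real.log κ + p * Real.log t) ≤ δ / (2 * p) * (κ * t ^ p - 1) := by
    gcongr
  have h3 : δ / (2 * p) * (κ * t ^ p - 1) = c * t ^ p - δ / (2 * p) := by
    rw [hκ]; field_simp
  have h4 : δ / (2 * p) * (Real.log κ + p * Real.log t) =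
      δ / (2 * p) * Real.log κ + δ / 2 * Real.log t := by field_simp
  rw [h3, h4] at h2
  linarith

theorem main_le {p ε : ℝ} (_hp : 1 < p) (hε : 0 < ε) :
    ∃ C : ℝ, ∀ t : ℝ, 0 < t →
      (p - 2) * (t ^ 2 * (ε ^ 2 + t ^ 2) ^ ((p - 2) / 2)) * ((ε ^ 2 - t ^ 2) / (ε ^ 2 + t ^ 2)) -
        t ^ p ≤ -(min 1 (p - 1)) * t ^ p + C := by
  rcases le_total 2 p with h2 | h2
  · refine ⟨(p - 2) * (ε ^ 2 * (ε ^ 2 + ε ^ 2) ^ ((p - 2) / 2)), fun t ht => ?_⟩
    rw [min_eq_left (by linarith)]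
    have hpos : 0 < ε ^ 2 + t ^ 2 := by positivity
    have hp2 : 0 ≤ p - 2 := by linarith
    rcases le_total t ε with hte | hte
    · have h3 : t ^ 2 * (ε ^ 2 + t ^ 2) ^ ((p - 2) / 2) ≤
          ε ^ 2 * (ε ^ 2 + ε ^ 2) ^ ((p - 2) / 2) := by
        gcongr
      have h4 : (ε ^ 2 - t ^ 2) / (ε ^ 2 + t ^ 2) ≤ 1 := by
        rw [div_le_one hpos]; nlinarith
      have h5 : 0 ≤ (p - 2) * (t ^ 2 * (ε ^ 2 + t ^ 2) ^ ((p - 2) / 2)) := by positivity
      have h6 := mul_le_mul_of_nonneg_left h4 h5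
      have h7 := mul_le_mul_of_nonneg_left h3 hp2
      linarith
    · have h4 : (ε ^ 2 - t ^ 2) / (ε ^ 2 + t ^ 2) ≤ 0 := by
        apply div_nonpos_of_nonpos_of_nonneg _ hpos.le
        nlinarith
      have h5 : 0 ≤ (p - 2) * (t ^ 2 * (ε ^ 2 + t ^ 2) ^ ((p - 2) / 2)) := by positivity
      have h6 := mul_nonpos_of_nonneg_of_nonpos h5 h4
      have h7 : 0 ≤ (p - 2) * (ε ^ 2 * (ε ^ 2 + ε ^ 2) ^ ((p - 2) / 2)) := by positivity
      linarith
  · refine ⟨0, fun t ht => ?_⟩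
    rw [min_eq_right (by linarith)]
    have hpos : 0 < ε ^ 2 + t ^ 2 := by positivity
    have hp2 : 0 ≤ 2 - p := by linarith
    have h3 : t ^ 2 * (ε ^ 2 + t ^ 2) ^ ((p - 2) / 2) ≤ t ^ p := by
      have h4 : (ε ^ 2 + t ^ 2) ^ ((p - 2) / 2) ≤ (t ^ 2) ^ ((p - 2) / 2) :=
        Real.rpow_le_rpow_of_nonpos (by positivity) (by nlinarith) (by linarith)
      have h5 : (t ^ 2) ^ ((p - 2) / 2) = t ^ (p - 2) := by
        rw [← Real.rpow_natCast t 2, ← Real.rpow_mul ht.le]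
        congr 1
        push_cast
        ring
      have h6 : t ^ p = t ^ 2 * t ^ (p - 2) := by
        rw [← Real.rpow_natCast t 2, ← Real.rpow_add ht]
        congr 1
        push_cast
        ring
      rw [h6, ← h5]
      gcongr
    have h4 : (t ^ 2 - ε ^ 2) / (ε ^ 2 + t ^ 2) ≤ 1 := by
      rw [div_le_one hpos]; nlinarith
    have h5 : 0 ≤ (2 - p) * (t ^ 2 * (ε ^ 2 + t ^ 2) ^ ((p - 2) / 2)) := by positivity
    have h6 := mul_le_mul_of_nonneg_left h4 h5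
    have h7 := mul_le_mul_of_nonneg_left h3 hp2
    have h8 : (p - 2) * (t ^ 2 * (ε ^ 2 + t ^ 2) ^ ((p - 2) / 2)) *
        ((ε ^ 2 - t ^ 2) / (ε ^ 2 + t ^ 2)) = (2 - p) *
        (t ^ 2 * (ε ^ 2 + t ^ 2) ^ ((p - 2) / 2)) * ((t ^ 2 - ε ^ 2) / (ε ^ 2 + t ^ 2)) := by
      ring
    rw [h8]
    linarith

/-- the barrier inequality for the concrete operator -/
theorem barrier_const {p ε δ : ℝ} (hp : 1 < p) (hε : 0 < ε) (hδ : 0 < δ) :
    ∃ C₀ : ℝ, ∀ ν : V d, ‖ν‖ = 1 → ∀ t : ℝ, 0 < t →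
      opA p ε (t • ν) ((-(2 * t ^ 2)) • (innerSL ℝ ν).smulRight ν) +
        opb p ε (t • ν) + (δ / 2) * Real.log (2 * t) ≤ δ * C₀ := by
  obtain ⟨C₁, hC₁⟩ := main_le (ε := ε) hp hε
  have hc : 0 < min 1 (p - 1) := lt_min one_pos (by linarith)
  obtain ⟨C₂, hC₂⟩ := log_le hp hδ hc
  refine ⟨(C₁ + C₂) / δ, fun ν hν t ht => ?_⟩
  have e0 : δ * ((C₁ + C₂) / δ) = C₁ + C₂ := by field_simp
  rw [e0, opA_apply, opb]
  have hn : ‖t • ν‖ = t := by rw [norm_smul, hν, mul_one, Real.norm_eq_abs, abs_of_pos ht]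
  rw [hn, map_smul, trL_smulRight, hν]
  have hpos : 0 < ε ^ 2 + t ^ 2 := by positivity
  have hβ : (ε ^ 2 + t ^ 2) ^ ((p - 4) / 2) =
      (ε ^ 2 + t ^ 2) ^ ((p - 2) / 2) / (ε ^ 2 + t ^ 2) := by
    rw [eq_div_iff hpos.ne', ← Real.rpow_add_one hpos.ne']
    congr 1
    ring
  have e1 : ⟪((-(2 * t ^ 2)) • (innerSL ℝ ν).smulRight ν) (t • ν), t • ν⟫_ℝ =
      -(2 * t ^ 2) * t ^ 2 := by
    simp only [smul_apply, ContinuousLinearMap.smulRight_apply, innerSL_apply_apply,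
      inner_smul_left, inner_smul_right, conj_trivial, real_inner_self_eq_norm_sq, hν]
    ring
  rw [e1, hβ]
  have h1 := hC₁ t ht
  have h2 := hC₂ t ht
  have e2 : (ε ^ 2 + t ^ 2) ^ ((p - 2) / 2) * (-(2 * t ^ 2) • (1:ℝ) ^ 2) +
      (p - 2) * ((ε ^ 2 + t ^ 2) ^ ((p - 2) / 2) / (ε ^ 2 + t ^ 2)) * (-(2 * t ^ 2) * t ^ 2) +
      p * ((ε ^ 2 + t ^ 2) ^ ((p - 2) / 2) * t ^ 2) = (p - 2) *
      (t ^ 2 * (ε ^ 2 + t ^ 2) ^ ((p - 2) / 2)) * ((ε ^ 2 - t ^ 2) / (ε ^ 2 + t ^ 2)) := by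
    rw [smul_eq_mul]
    field_simp
    ring
  linarith

/-- a smooth subsolution is a subsolution -/
theorem sub_of_C2 {O : OpData d} {δ : ℝ} {P : Set (V d)} (hP : IsOpen P) {w : V d → ℝ}
    {q : V d → V d} {D : V d → V d →L[ℝ] V d} (hq : ∀ x ∈ P, HasGradientAt w (q x) x)
    (hD : ∀ x ∈ P, HasFDerivAt q (D x) x)
    (h : ∀ x ∈ P, 0 ≤ O.A (q x) (D x) + O.b (q x) - δ * w x) : Sub O δ P w := by
  intro x hx ξ H hH
  -- first order
  have h1 : ξ = q x := by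
    have hf : HasFDerivAt (fun y => w x + ⟪ξ, y - x⟫_ℝ + (1 / 2) * ⟪H (y - x), y - x⟫_ℝ - w y)
        (innerSL ℝ ξ - innerSL ℝ (q x)) x := by
      have h2 : HasFDerivAt (fun y : V d => y - x) (ContinuousLinearMap.id ℝ (V d)) x :=
        (hasFDerivAt_id x).sub_const x
      have h3 : HasFDerivAt (fun y => ⟪ξ, y - x⟫_ℝ) (innerSL ℝ ξ) x :=
        ((innerSL ℝ ξ).hasFDerivAt.comp x h2).congr_fderiv (by ext e; simp)
      have h4 : HasFDerivAt (fun y => ⟪H (y - x), y - x⟫_ℝ) (0 : V d →L[ℝ] ℝ) x := by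
        have h5 : HasFDerivAt (fun y : V d => H (y - x)) H x :=
          (H.hasFDerivAt.comp x h2).congr_fderiv (by ext e; simp)
        have h6 := h5.inner ℝ h2
        refine h6.congr_fderiv ?_
        ext e
        simp
      have h7 := ((h3.const_add (w x)).add (h4.const_mul (1 / 2 : ℝ))).sub (hq x hx).hasFDerivAt
      refine h7.congr_fderiv ?_
      ext e
      simp
    have hmin : IsLocalMin (fun y => w x + ⟪ξ, y - x⟫_ℝ + (1 / 2) * ⟪H (y - x), y - x⟫_ℝ - w y)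
        x := by
      filter_upwards [hH] with y hy
      simp only [sub_self, map_zero, inner_zero_right]
      linarith
    have h0 := hmin.hasFDerivAt_eq_zero hf
    have h8 : ∀ e, ⟪ξ - q x, e⟫_ℝ = 0 := by
      intro e
      have := congrArg (fun L : V d →L[ℝ] ℝ => L e) h0
      simpa [inner_sub_left] using this
    have := h8 (ξ - q x)
    rw [inner_self_eq_zero] at this
    exact sub_eq_zero.1 this
  subst h1
  have key := O.limit (q x) H (r := O.b (q x) - δ * w x) (fun γ hγ => by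
    have h2 := taylor_two hP hq hx (hD x hx) hγ
    -- second order comparison
    have h3 : ∀ e : V d, ⟪D x e, e⟫_ℝ ≤
        ⟪(H + (2 * γ) • ContinuousLinearMap.id ℝ (V d)) e, e⟫_ℝ := by
      intro e
      obtain ⟨r, hr, hball⟩ := Metric.eventually_nhds_iff_ball.1 (hH.and h2)
      rcases eq_or_ne e 0 with h0 | h0
      · simp [h0]
      have hn : 0 < ‖e‖ := norm_pos_iff.2 h0
      set s := r / (2 * ‖e‖) with hs
      have hs0 : 0 < s := by positivity
      have hmem : x + s • e ∈ ball x r := by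
        rw [mem_ball, dist_eq_norm, add_sub_cancel_left, norm_smul, Real.norm_eq_abs,
          abs_of_pos hs0, hs]
        have : r / (2 * ‖e‖) * ‖e‖ = r / 2 := by field_simp
        rw [this]; linarith
      obtain ⟨h4, h5⟩ := hball _ hmem
      have h6 := (abs_le.1 h5).1
      rw [add_sub_cancel_left] at h4 h6
      simp only [map_smul, inner_smul_left, inner_smul_right, conj_trivial, norm_smul,
        Real.norm_eq_abs, abs_of_pos hs0] at h4 h6
      simp only [add_apply, smul_apply, ContinuousLinearMap.id_apply, inner_add_left,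
        inner_smul_left, conj_trivial, real_inner_self_eq_norm_sq]
      have h7 : s ^ 2 * ⟪D x e, e⟫_ℝ ≤ s ^ 2 * (⟪H e, e⟫_ℝ + 2 * γ * ‖e‖ ^ 2) := by nlinarith
      exact le_of_mul_le_mul_left h7 (by positivity)
    have h8 := O.mono (q x) h3
    have h9 := h x hx
    linarith)
  linarith

theorem opA_ge {p ε : ℝ} (hε : 0 < ε) (ξ : V d) {H : V d →L[ℝ] V d}
    (h : ∀ x, ⟪H x, x⟫_ℝ ≤ 0) :
    (1 + |p - 2|) * (ε ^ 2 + ‖ξ‖ ^ 2) ^ ((p - 2) / 2) * trL d H ≤ opA p ε ξ H := by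
  rw [opA_apply]
  have hpos : 0 < ε ^ 2 + ‖ξ‖ ^ 2 := by positivity
  set α := (ε ^ 2 + ‖ξ‖ ^ 2) ^ ((p - 2) / 2) with hα
  have hα0 : 0 < α := Real.rpow_pos_of_pos hpos _
  have hβ : (ε ^ 2 + ‖ξ‖ ^ 2) ^ ((p - 4) / 2) = α / (ε ^ 2 + ‖ξ‖ ^ 2) := by
    rw [hα, eq_div_iff hpos.ne', ← Real.rpow_add_one hpos.ne']
    congr 1
    ring
  have htr : trL d H ≤ 0 := by
    have := trL_nonneg (H := -H) (fun x => by simpa using h x)
    simpa using this
  have hξ : ⟪H ξ, ξ⟫_ℝ ≤ 0 := h ξ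
  have key : trL d H * ‖ξ‖ ^ 2 ≤ ⟪H ξ, ξ⟫_ℝ := by
    rcases eq_or_ne ξ 0 with h0 | h0
    · simp [h0]
    · have hn : ‖ξ‖ ≠ 0 := norm_ne_zero_iff.2 h0
      have he : ‖(‖ξ‖⁻¹ • ξ)‖ = 1 := by
        rw [norm_smul, norm_inv, norm_norm, inv_mul_cancel₀ hn]
      have h3 := trL_le h he
      rw [map_smul, inner_smul_left, inner_smul_right, conj_trivial] at h3
      have h4 : 0 < ‖ξ‖ ^ 2 := by positivity
      calc trL d H * ‖ξ‖ ^ 2 ≤ (‖ξ‖⁻¹ * (‖ξ‖⁻¹ * ⟪H ξ, ξ⟫_ℝ)) * ‖ξ‖ ^ 2 := by gcongr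
        _ = ⟪H ξ, ξ⟫_ℝ := by field_simp
  have h5 : trL d H ≤ ⟪H ξ, ξ⟫_ℝ / (ε ^ 2 + ‖ξ‖ ^ 2) := by
    rw [le_div_iff₀ hpos]
    nlinarith [sq_nonneg ε]
  rw [hβ]
  have h6 : |p - 2| * α * trL d H ≤ |p - 2| * α * (⟪H ξ, ξ⟫_ℝ / (ε ^ 2 + ‖ξ‖ ^ 2)) := by
    gcongr
  have h7 : |p - 2| * α * (⟪H ξ, ξ⟫_ℝ / (ε ^ 2 + ‖ξ‖ ^ 2)) ≤
      (p - 2) * α * (⟪H ξ, ξ⟫_ℝ / (ε ^ 2 + ‖ξ‖ ^ 2)) := by
    have h8 : ⟪H ξ, ξ⟫_ℝ / (ε ^ 2 + ‖ξ‖ ^ 2) ≤ 0 := div_nonpos_of_nonpos_of_nonneg hξ hpos.le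
    have h9 : (p - 2) * α ≤ |p - 2| * α := by gcongr; exact le_abs_self _
    exact mul_le_mul_of_nonpos_right h9 h8
  have h8 : (p - 2) * (α / (ε ^ 2 + ‖ξ‖ ^ 2)) * ⟪H ξ, ξ⟫_ℝ =
      (p - 2) * α * (⟪H ξ, ξ⟫_ℝ / (ε ^ 2 + ‖ξ‖ ^ 2)) := by ring
  rw [h8]
  linarith

theorem pow_le {p ε κ : ℝ} (hp : 1 < p) (hε : 0 < ε) (hκ : 1 < κ) :
    ∃ C : ℝ, ∀ s : ℝ, 0 ≤ s → s ^ p - κ * ((ε ^ 2 + s ^ 2) ^ ((p - 2) / 2) * s ^ 2) ≤ C := by
  have hcont : Continuous fun s : ℝ => s ^ p - κ * ((ε ^ 2 + s ^ 2) ^ ((p - 2) / 2) * s ^ 2) := by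
    have h1 : Continuous fun s : ℝ => s ^ p :=
      continuous_id.rpow_const fun x => Or.inr (by linarith)
    have h2 : Continuous fun s : ℝ => (ε ^ 2 + s ^ 2) ^ ((p - 2) / 2) :=
      Continuous.rpow_const (by fun_prop) fun x => Or.inl (by positivity)
    fun_prop
  have h0 : Tendsto (fun s : ℝ => 1 + ε ^ 2 * (s ^ 2)⁻¹) atTop (𝓝 (1 + ε ^ 2 * 0)) :=
    tendsto_const_nhds.add
      ((tendsto_inv_atTop_zero.comp (tendsto_pow_atTop (by norm_num))).const_mul _)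
  rw [mul_zero, add_zero] at h0
  have h1 : Tendsto (fun s : ℝ => (1 + ε ^ 2 * (s ^ 2)⁻¹) ^ ((p - 2) / 2)) atTop
      (𝓝 ((1:ℝ) ^ ((p - 2) / 2))) := h0.rpow_const (Or.inl one_ne_zero)
  rw [Real.one_rpow] at h1
  have h2 : Tendsto (fun s : ℝ => κ * (1 + ε ^ 2 * (s ^ 2)⁻¹) ^ ((p - 2) / 2)) atTop
      (𝓝 (κ * 1)) := h1.const_mul κ
  rw [mul_one] at h2
  obtain ⟨S, hS⟩ := eventually_atTop.1 ((h2.eventually (lt_mem_nhds hκ)).and
    (eventually_gt_atTop 0))
  obtain ⟨C, hC⟩ := (isCompact_Icc (a := (0:ℝ)) (b := S)).exists_bound_of_continuousOn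
    hcont.continuousOn
  refine ⟨max C 0, fun s hs => ?_⟩
  rcases le_total s S with h | h
  · have h3 := hC s ⟨hs, h⟩
    rw [Real.norm_eq_abs] at h3
    exact ((le_abs_self _).trans h3).trans (le_max_left _ _)
  · obtain ⟨h3, h4⟩ := hS s h
    have e1 : (ε ^ 2 + s ^ 2) ^ ((p - 2) / 2) * s ^ 2 =
        s ^ p * (1 + ε ^ 2 * (s ^ 2)⁻¹) ^ ((p - 2) / 2) := by
      have e2 : ε ^ 2 + s ^ 2 = s ^ 2 * (1 + ε ^ 2 * (s ^ 2)⁻¹) := by
        field_simp
        ring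
      have e3 : (s ^ 2) ^ ((p - 2) / 2) = s ^ (p - 2) := by
        rw [← Real.rpow_natCast s 2, ← Real.rpow_mul h4.le]
        congr 1
        push_cast
        ring
      have e4 : s ^ p = s ^ (p - 2) * s ^ 2 := by
        rw [← Real.rpow_natCast s 2, ← Real.rpow_add h4]
        congr 1
        push_cast
        ring
      rw [e2, Real.mul_rpow (by positivity) (by positivity), e3, e4]
      have e5 : s ^ 2 * (1 + ε ^ 2 * (s ^ 2)⁻¹) = ε ^ 2 + s ^ 2 := e2.symm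
      ring
    rw [e1]
    refine le_trans ?_ (le_max_right _ _)
    have h5 : 0 ≤ s ^ p := by positivity
    nlinarith

section initial

variable {n : ℕ} {ν : Fin (n + 1) → V d} {c : Fin (n + 1) → ℝ}

/-- the affine forms -/
noncomputable def ll (ν : Fin (n + 1) → V d) (c : Fin (n + 1) → ℝ) (i : Fin (n + 1)) (x : V d) : ℝ :=
  ⟪ν i, x⟫_ℝ + c i

noncomputable def gg (ν : Fin (n + 1) → V d) (c : Fin (n + 1) → ℝ) (x : V d) : V d :=
  ∑ i, (1 / ll ν c i x) • ν i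

noncomputable def HH (ν : Fin (n + 1) → V d) (c : Fin (n + 1) → ℝ) (x : V d) :
    V d →L[ℝ] V d :=
  ∑ i, (-(1 / ll ν c i x) ^ 2) • (innerSL ℝ (ν i)).smulRight (ν i)

theorem hasFDerivAt_ll (i : Fin (n + 1)) (x : V d) :
    HasFDerivAt (ll ν c i) (innerSL ℝ (ν i)) x :=
  (innerSL ℝ (ν i)).hasFDerivAt.add_const (c i)

theorem hasGradientAt_w {x : V d} (hx : x ∈ poly ν c) (m c₀ : ℝ) :
    HasGradientAt (fun y => m * ∑ i, Real.log (ll ν c i y) + c₀) (m • gg ν c x) x := by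
  rw [hasGradientAt_iff_hasFDerivAt]
  have h1 : ∀ i ∈ (Finset.univ : Finset (Fin (n + 1))),
      HasFDerivAt (fun y => Real.log (ll ν c i y)) ((ll ν c i x)⁻¹ • innerSL ℝ (ν i)) x :=
    fun i _ => (hasFDerivAt_ll i x).log (hx i).ne'
  have h2 := ((HasFDerivAt.fun_sum h1).const_mul m).add_const c₀
  refine h2.congr_fderiv ?_
  ext e
  simp only [smul_apply, sum_apply, innerSL_apply_apply, smul_eq_mul,
    InnerProductSpace.toDual_apply_apply, gg, inner_smul_left, sum_inner, conj_trivial, one_div]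

theorem hasFDerivAt_gg {x : V d} (hx : x ∈ poly ν c) :
    HasFDerivAt (gg ν c) (HH ν c x) x := by
  have h1 : ∀ i ∈ (Finset.univ : Finset (Fin (n + 1))),
      HasFDerivAt (fun y => (1 / ll ν c i y) • ν i)
        ((-(1 / ll ν c i x) ^ 2) • (innerSL ℝ (ν i)).smulRight (ν i)) x := by
    intro i _
    have h2 : HasDerivAt (fun s : ℝ => 1 / s) (-((ll ν c i x) ^ 2)⁻¹) (ll ν c i x) := by
      have hne : ll ν c i x ≠ 0 := (hx i).ne'
      simpa using hasDerivAt_inv hne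
    have h3 := (h2.comp_hasFDerivAt x (hasFDerivAt_ll i x)).smul_const (ν i)
    refine h3.congr_fderiv ?_
    ext1 e
    simp only [smul_apply, ContinuousLinearMap.smulRight_apply, innerSL_apply_apply, smul_eq_mul,
      smul_smul]
    congr 1
    rw [one_div, inv_pow]
  have h2 := HasFDerivAt.fun_sum h1
  exact h2

theorem HH_nonpos (x e : V d) : ⟪HH ν c x e, e⟫_ℝ ≤ 0 := by
  simp only [HH, sum_apply, smul_apply, ContinuousLinearMap.smulRight_apply,
    innerSL_apply_apply, sum_inner, inner_smul_left, conj_trivial]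
  refine Finset.sum_nonpos fun i _ => ?_
  have : -(1 / ll ν c i x) ^ 2 * (⟪ν i, e⟫_ℝ * ⟪ν i, e⟫_ℝ) =
    -(((1 / ll ν c i x) * ⟪ν i, e⟫_ℝ) ^ 2) := by ring
  rw [this]
  exact neg_nonpos.2 (sq_nonneg _)

theorem trL_HH (hν : ∀ i, ‖ν i‖ = 1) {x : V d} (hx : x ∈ poly ν c) :
    -(∑ i, 1 / ll ν c i x) ^ 2 ≤ trL d (HH ν c x) := by
  have e1 : trL d (HH ν c x) = -∑ i, (1 / ll ν c i x) ^ 2 := by
    rw [HH, map_sum, ← Finset.sum_neg_distrib]
    refine Finset.sum_congr rfl fun i _ => ?_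
    rw [map_smul, trL_smulRight, hν, smul_eq_mul]
    ring
  rw [e1, neg_le_neg_iff, sq, Finset.sum_mul]
  have h0 : ∀ i, 0 ≤ 1 / ll ν c i x := fun i => by
    have : 0 < ll ν c i x := hx i
    positivity
  refine Finset.sum_le_sum fun i _ => ?_
  rw [sq]
  refine mul_le_mul_of_nonneg_left ?_ (h0 i)
  exact Finset.single_le_sum (f := fun i => 1 / ll ν c i x) (fun i _ => h0 i) (Finset.mem_univ i)

theorem isOpen_poly : IsOpen (poly ν c) := by
  have : poly ν c = ⋂ i, {x | 0 < ⟪ν i, x⟫_ℝ + c i} := by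
    ext x; simp [poly]
  rw [this]
  exact isOpen_iInter_of_finite fun i => isOpen_lt continuous_const (by fun_prop)

theorem convex_poly : Convex ℝ (poly ν c) := by
  intro x hx y hy a b ha hb hab i
  have h1 := hx i
  have h2 := hy i
  have e : ⟪ν i, a • x + b • y⟫_ℝ + c i = a * (⟪ν i, x⟫_ℝ + c i) + b * (⟪ν i, y⟫_ℝ + c i) := by
    rw [inner_add_right, inner_smul_right, inner_smul_right]
    have : b = 1 - a := by linarith
    rw [this]; ring
  rw [e]
  rcases eq_or_lt_of_le ha with h | h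
  · have : b = 1 := by linarith
    rw [← h, this]; linarith
  · have := mul_pos h h1
    have := mul_nonneg hb h2.le
    linarith

theorem concave_w {m : ℝ} (hm : 0 ≤ m) (c₀ : ℝ) :
    ConcaveOn ℝ (poly ν c) (fun y => m * ∑ i, Real.log (ll ν c i y) + c₀) := by
  refine ⟨convex_poly, ?_⟩
  intro x hx y hy a b ha hb hab
  have key : ∀ i, a * Real.log (ll ν c i x) + b * Real.log (ll ν c i y) ≤
      Real.log (ll ν c i (a • x + b • y)) := by
    intro i
    have h1 := strictConcaveOn_log_Ioi.concaveOn.2 (hx i) (hy i) ha hb hab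
    simp only [smul_eq_mul] at h1
    have e : ll ν c i (a • x + b • y) = a * (⟪ν i, x⟫_ℝ + c i) + b * (⟪ν i, y⟫_ℝ + c i) := by
      rw [ll, inner_add_right, inner_smul_right, inner_smul_right]
      have : b = 1 - a := by linarith
      rw [this]; ring
    rw [e]
    exact h1
  have h2 := Finset.sum_le_sum fun i (_ : i ∈ (Finset.univ : Finset (Fin (n + 1)))) => key i
  rw [Finset.sum_add_distrib, ← Finset.mul_sum, ← Finset.mul_sum] at h2
  simp only [smul_eq_mul]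
  have h3 := mul_le_mul_of_nonneg_left h2 hm
  have e2 : a * c₀ + b * c₀ = c₀ := by rw [← add_mul, hab, one_mul]
  nlinarith

/-- an explicit concave coercive subsolution on a bounded polyhedron -/
theorem exists_initial {p ε δ : ℝ} (hp : 1 < p) (hε : 0 < ε) (hδ : 0 < δ)
    (hν : ∀ i, ‖ν i‖ = 1)
    (hb : Bornology.IsBounded (poly ν c)) (hne : (poly ν c).Nonempty) :
    ∃ w, Cls (opD d p ε hp hε) δ (poly ν c) w := by
  obtain ⟨z, hz⟩ := hne
  obtain ⟨i₀, hi₀⟩ := Finite.exists_min (fun i => ll ν c i z)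
  obtain ⟨i₁, hi₁⟩ := Finite.exists_max (fun i => ll ν c i z)
  set ρ := ll ν c i₀ z with hρ
  have hρ0 : 0 < ρ := hz i₀
  obtain ⟨R₀, hR₀⟩ := hb.subset_closedBall z
  set D₀ := max R₀ 1 with hD₀
  have hD₀0 : 0 < D₀ := lt_of_lt_of_le one_pos (le_max_right _ _)
  have hdist : ∀ x ∈ poly ν c, ‖z - x‖ ≤ D₀ := by
    intro x hx
    have := hR₀ hx
    rw [mem_closedBall, dist_comm, dist_eq_norm] at this
    exact this.trans (le_max_left _ _)
  set Dm := ll ν c i₁ z + D₀ with hDm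
  have hDm1 : 1 ≤ Dm := by
    have h1 : 0 < ll ν c i₁ z := hz i₁
    have h2 : 1 ≤ D₀ := le_max_right _ _
    linarith
  have hub : ∀ x ∈ poly ν c, ∀ i, ll ν c i x ≤ Dm := by
    intro x hx i
    have h1 : ll ν c i x = ll ν c i z - ⟪ν i, z - x⟫_ℝ := by
      rw [ll, ll, inner_sub_right]; ring
    have h2 : -⟪ν i, z - x⟫_ℝ ≤ ‖z - x‖ := by
      calc -⟪ν i, z - x⟫_ℝ ≤ |⟪ν i, z - x⟫_ℝ| := neg_le_abs _
        _ ≤ ‖ν i‖ * ‖z - x‖ := abs_real_inner_le_norm _ _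
        _ = ‖z - x‖ := by rw [hν, one_mul]
    have h3 := hdist x hx
    have h4 := hi₁ i
    rw [h1, hDm]
    linarith
  set N : ℝ := (n : ℝ) + 1 with hN
  have hN0 : 0 < N := by positivity
  -- the sum of the inverses
  have hpos : ∀ x ∈ poly ν c, ∀ i, 0 < 1 / ll ν c i x := fun x hx i => by
    have : 0 < ll ν c i x := hx i
    positivity
  have hgT : ∀ x ∈ poly ν c, ‖gg ν c x‖ ≤ ∑ i, 1 / ll ν c i x := by
    intro x hx
    refine (norm_sum_le _ _).trans (Finset.sum_le_sum fun i _ => ?_)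
    rw [norm_smul, hν, mul_one, Real.norm_eq_abs, abs_of_pos (hpos x hx i)]
  have hTg : ∀ x ∈ poly ν c, ρ * (∑ i, 1 / ll ν c i x) - N ≤ D₀ * ‖gg ν c x‖ := by
    intro x hx
    have h1 : ⟪gg ν c x, z - x⟫_ℝ = ∑ i, (ll ν c i z * (1 / ll ν c i x) - 1) := by
      rw [gg, sum_inner]
      refine Finset.sum_congr rfl fun i _ => ?_
      have h2 : ll ν c i x ≠ 0 := (hx i).ne'
      have h3 : ⟪ν i, z - x⟫_ℝ = ll ν c i z - ll ν c i x := by
        rw [ll, ll, inner_sub_right]; ring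
      rw [inner_smul_left, conj_trivial, h3]
      field_simp
    have h2 : ρ * (∑ i, 1 / ll ν c i x) - N ≤ ⟪gg ν c x, z - x⟫_ℝ := by
      rw [h1, Finset.sum_sub_distrib, Finset.mul_sum]
      have h3 : ∑ i, ρ * (1 / ll ν c i x) ≤ ∑ i, ll ν c i z * (1 / ll ν c i x) :=
        Finset.sum_le_sum fun i _ => mul_le_mul_of_nonneg_right (hi₀ i) (hpos x hx i).le
      have h4 : ∑ _i : Fin (n + 1), (1 : ℝ) = N := by simp [hN]
      rw [h4]
      linarith
    have h3 : ⟪gg ν c x, z - x⟫_ℝ ≤ D₀ * ‖gg ν c x‖ := by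
      calc ⟪gg ν c x, z - x⟫_ℝ ≤ ‖gg ν c x‖ * ‖z - x‖ := real_inner_le_norm _ _
        _ ≤ ‖gg ν c x‖ * D₀ := by gcongr; exact hdist x hx
        _ = D₀ * ‖gg ν c x‖ := mul_comm _ _
    exact h2.trans h3
  -- constants
  set k := 1 + |p - 2| with hk
  have hk0 : 0 < k := by positivity
  have hp1 : 0 < p - 1 := by linarith
  set m := 2 * k * (2 * D₀ / ρ) ^ 2 / (p - 1) with hm
  have hm0 : 0 < m := by positivity
  set T₀ := 2 * N / ρ with hT₀
  have hT₀0 : 0 < T₀ := by positivity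
  obtain ⟨C₁, hC₁⟩ := pow_le (κ := (p + 1) / 2) hp hε (by linarith)
  have hcont : Continuous fun s : ℝ => (ε ^ 2 + s ^ 2) ^ ((p - 2) / 2) :=
    Continuous.rpow_const (by fun_prop) fun x => Or.inl (by positivity)
  obtain ⟨A₀, hA₀⟩ := (isCompact_Icc (a := (0:ℝ)) (b := m * T₀)).exists_bound_of_continuousOn
    hcont.continuousOn
  set C₂ := k * (|A₀| * (m * T₀ ^ 2)) + (m * T₀) ^ p with hC₂
  set C := max C₁ C₂ with hC
  set c₀ := -(C / δ + m * (N * Real.log Dm)) with hc₀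
  -- the lower bound of the operator
  have hop : ∀ x ∈ poly ν c, -C ≤ opA p ε (m • gg ν c x) (m • HH ν c x) +
      opb p ε (m • gg ν c x) := by
    intro x hx
    set T := ∑ i, 1 / ll ν c i x with hT
    have hT0 : 0 < T := Finset.sum_pos (fun i _ => hpos x hx i) ⟨i₀, Finset.mem_univ _⟩
    set s := ‖m • gg ν c x‖ with hs
    have hs0 : 0 ≤ s := norm_nonneg _
    have hsm : s = m * ‖gg ν c x‖ := by
      rw [hs, norm_smul, Real.norm_eq_abs, abs_of_pos hm0]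
    set α := (ε ^ 2 + s ^ 2) ^ ((p - 2) / 2) with hα
    have hα0 : 0 < α := Real.rpow_pos_of_pos (by positivity) _
    have h1 : k * α * trL d (m • HH ν c x) ≤ opA p ε (m • gg ν c x) (m • HH ν c x) :=
      opA_ge hε (m • gg ν c x) (fun e => by
        rw [smul_apply, inner_smul_left, conj_trivial]
        exact mul_nonpos_of_nonneg_of_nonpos hm0.le (HH_nonpos x e))
    have h2 : -(m * T ^ 2) ≤ trL d (m • HH ν c x) := by
      rw [map_smul, smul_eq_mul]
      have := mul_le_mul_of_nonneg_left (trL_HH hν hx) hm0.le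
      rw [← hT] at this
      linarith
    have h3 : -(k * (α * (m * T ^ 2))) ≤ opA p ε (m • gg ν c x) (m • HH ν c x) := by
      refine le_trans ?_ h1
      have := mul_le_mul_of_nonneg_left h2 (by positivity : 0 ≤ k * α)
      linarith
    have h4 : opb p ε (m • gg ν c x) = p * (α * s ^ 2) - s ^ p := rfl
    rw [h4]
    rcases le_total T₀ T with hTT | hTT
    · have h5 : ρ * T / 2 ≤ D₀ * ‖gg ν c x‖ := by
        have h6 := hTg x hx
        rw [← hT] at h6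
        have h7 : 2 * N ≤ ρ * T := by
          rw [hT₀, div_le_iff₀ hρ0] at hTT
          linarith
        linarith
      have h6 : m * T ≤ 2 * D₀ / ρ * s := by
        rw [hsm]
        have : T ≤ 2 * D₀ / ρ * ‖gg ν c x‖ := by
          rw [div_mul_eq_mul_div, le_div_iff₀ hρ0]
          linarith
        calc m * T ≤ m * (2 * D₀ / ρ * ‖gg ν c x‖) := by gcongr
          _ = 2 * D₀ / ρ * (m * ‖gg ν c x‖) := by ring
      have h7 : (m * T) ^ 2 ≤ (2 * D₀ / ρ * s) ^ 2 := by gcongr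
      have h8 : k * (m * T ^ 2) ≤ (p - 1) / 2 * s ^ 2 := by
        have e1 : k * (m * T ^ 2) = k / m * (m * T) ^ 2 := by field_simp
        have e2 : k / m * (2 * D₀ / ρ * s) ^ 2 = (p - 1) / 2 * s ^ 2 := by
          rw [hm]; field_simp
        rw [e1, ← e2]
        gcongr
      have h9 := mul_le_mul_of_nonneg_left h8 hα0.le
      have h10 := hC₁ s hs0
      have h11 : C₁ ≤ C := le_max_left _ _
      rw [← hα] at h10
      nlinarith
    · have h5 : s ≤ m * T₀ := by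
        rw [hsm]
        have := (hgT x hx).trans hTT
        gcongr
      have h6 : α ≤ |A₀| := by
        have := hA₀ s ⟨hs0, h5⟩
        rw [Real.norm_eq_abs] at this
        exact ((le_abs_self _).trans this).trans (le_abs_self _)
      have h7 : s ^ p ≤ (m * T₀) ^ p := Real.rpow_le_rpow hs0 h5 (by linarith)
      have h8 : k * (α * (m * T ^ 2)) ≤ k * (|A₀| * (m * T₀ ^ 2)) := by gcongr
      have h9 : 0 ≤ p * (α * s ^ 2) := by positivity
      have h10 : C₂ ≤ C := le_max_right _ _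
      linarith
  refine ⟨fun y => m * ∑ i, Real.log (ll ν c i y) + c₀, concave_w hm0.le c₀, ?_, ?_⟩
  · refine sub_of_C2 isOpen_poly (q := fun x => m • gg ν c x) (D := fun x => m • HH ν c x)
      (fun x hx => hasGradientAt_w hx m c₀) (fun x hx => (hasFDerivAt_gg hx).const_smul m) ?_
    intro x hx
    show 0 ≤ opA p ε (m • gg ν c x) (m • HH ν c x) + opb p ε (m • gg ν c x) -
      δ * (m * ∑ i, Real.log (ll ν c i x) + c₀)
    have h1 := hop x hx
    have h2 : ∑ i, Real.log (ll ν c i x) ≤ N * Real.log Dm := by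
      calc ∑ i, Real.log (ll ν c i x) ≤ ∑ _i : Fin (n + 1), Real.log Dm :=
            Finset.sum_le_sum fun i _ => Real.log_le_log (hx i) (hub x hx i)
        _ = N * Real.log Dm := by simp [hN]
    have h3 : δ * (m * ∑ i, Real.log (ll ν c i x) + c₀) ≤ -C := by
      have h4 : m * ∑ i, Real.log (ll ν c i x) + c₀ ≤ -(C / δ) := by
        rw [hc₀]
        have := mul_le_mul_of_nonneg_left h2 hm0.le
        linarith
      calc δ * (m * ∑ i, Real.log (ll ν c i x) + c₀) ≤ δ * (-(C / δ)) := by gcongr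
        _ = -C := by field_simp
    linarith
  · intro M
    set κ := Real.exp ((-M - c₀) / m - n * Real.log Dm) with hκ
    have hκ0 : 0 < κ := Real.exp_pos _
    set K : Set (V d) := {x | ∀ i, κ ≤ ⟪ν i, x⟫_ℝ + c i} with hKdef
    have hKP : K ⊆ poly ν c := fun x hx i => hκ0.trans_le (hx i)
    have hKc : IsClosed K := by
      have : K = ⋂ i, {x | κ ≤ ⟪ν i, x⟫_ℝ + c i} := by
        ext x; simp [hKdef]
      rw [this]
      exact isClosed_iInter fun i => isClosed_le continuous_const (by fun_prop)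
    refine ⟨K, hKP, Metric.isCompact_of_isClosed_isBounded hKc (hb.subset hKP), ?_⟩
    intro x hx hM i
    have h1 : Real.log (ll ν c i x) + n * Real.log Dm ≥ ∑ j, Real.log (ll ν c j x) := by
      rw [← Finset.add_sum_erase _ _ (Finset.mem_univ i)]
      have h2 : ∑ j ∈ Finset.univ.erase i, Real.log (ll ν c j x) ≤
          ∑ _j ∈ (Finset.univ : Finset (Fin (n + 1))).erase i, Real.log Dm :=
        Finset.sum_le_sum fun j _ => Real.log_le_log (hx j) (hub x hx j)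
      rw [Finset.sum_const, Finset.card_erase_of_mem (Finset.mem_univ i), Finset.card_univ,
        Fintype.card_fin, Nat.add_sub_cancel, nsmul_eq_mul] at h2
      linarith
    have h2 : (-M - c₀) / m ≤ ∑ j, Real.log (ll ν c j x) := by
      rw [div_le_iff₀ hm0]
      have : -M ≤ m * ∑ i, Real.log (ll ν c i x) + c₀ := hM
      linarith
    have h3 : (-M - c₀) / m - n * Real.log Dm ≤ Real.log (ll ν c i x) := by linarith
    exact (Real.le_log_iff_exp_le (hx i)).1 h3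

end initial

end Pool.Agent.TH480.J155
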