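import Mathlib
open Set Filter Topology
namespace Pool.Agent.TH480.J162

/-- scaled flux -/
noncomputable def sg (p τ : ℝ) : ℝ := τ * (1 + τ ^ 2) ^ ((p - 2) / 2)

noncomputable def ff (p ρ τ : ℝ) : ℝ :=
  (1 - ρ) * ((p - 1) * (sg p τ) ^ (p / (p - 1))) + τ ^ p - p * (sg p τ * τ)

theorem sg_nonneg {p τ : ℝ} (h : 0 ≤ τ) : 0 ≤ sg p τ := by
  unfold sg
  positivity

theorem continuous_sg (p : ℝ) : Continuous (sg p) := by
  unfold sg
  refine continuous_id.mul (Continuous.rpow_const (by fun_prop) fun x => Or.inl ?_)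
  positivity

theorem continuous_ff {p : ℝ} (hp : 1 < p) (ρ : ℝ) : Continuous (ff p ρ) := by
  unfold ff
  have h1 : Continuous fun τ => (sg p τ) ^ (p / (p - 1)) :=
    (continuous_sg p).rpow_const fun x => Or.inr (by
      have : 0 < p - 1 := by linarith
      positivity)
  have h2 : Continuous fun τ : ℝ => τ ^ p :=
    continuous_id.rpow_const fun x => Or.inr (by linarith)
  have h3 := continuous_sg p
  fun_prop

theorem eventually_ff {p ρ : ℝ} (hp : 1 < p) (hρ : 0 < ρ) : ∀ᶠ τ in atTop, ff p ρ τ ≤ 0 := by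
  have hp1 : 0 < p - 1 := by linarith
  -- the normalised function
  have h0 : Tendsto (fun τ : ℝ => 1 + (τ ^ 2)⁻¹) atTop (𝓝 (1 + 0)) :=
    tendsto_const_nhds.add (tendsto_inv_atTop_zero.comp (tendsto_pow_atTop (by norm_num)))
  rw [add_zero] at h0
  have h1 : Tendsto (fun τ : ℝ => (1 + (τ ^ 2)⁻¹) ^ ((p - 2) / 2)) atTop
      (𝓝 ((1:ℝ) ^ ((p - 2) / 2))) := h0.rpow_const (Or.inl one_ne_zero)
  rw [Real.one_rpow] at h1
  have h2 : Tendsto (fun τ : ℝ => ((1 + (τ ^ 2)⁻¹) ^ ((p - 2) / 2)) ^ (p / (p - 1))) atTop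
      (𝓝 ((1:ℝ) ^ (p / (p - 1)))) := h1.rpow_const (Or.inl one_ne_zero)
  rw [Real.one_rpow] at h2
  have h3 : Tendsto (fun τ : ℝ => (1 - ρ) * ((p - 1) *
      ((1 + (τ ^ 2)⁻¹) ^ ((p - 2) / 2)) ^ (p / (p - 1))) + 1 - p * (1 + (τ ^ 2)⁻¹) ^ ((p - 2) / 2))
      atTop (𝓝 ((1 - ρ) * ((p - 1) * 1) + 1 - p * 1)) :=
    (((h2.const_mul (p - 1)).const_mul (1 - ρ)).add_const 1).sub (h1.const_mul p)
  have h4 : (1 - ρ) * ((p - 1) * 1) + 1 - p * 1 < 0 := by nlinarith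
  filter_upwards [h3.eventually (gt_mem_nhds h4), eventually_gt_atTop 0] with τ hτ hτ0
  have hsq : (1 + τ ^ 2) = τ ^ 2 * (1 + (τ ^ 2)⁻¹) := by
    field_simp
    ring
  have hb : 0 ≤ 1 + (τ ^ 2)⁻¹ := by positivity
  have e1 : sg p τ = τ ^ (p - 1) * (1 + (τ ^ 2)⁻¹) ^ ((p - 2) / 2) := by
    unfold sg
    rw [hsq, Real.mul_rpow (by positivity) hb, ← mul_assoc]
    congr 1
    rw [← Real.rpow_natCast τ 2, ← Real.rpow_mul hτ0.le]
    nth_rewrite 1 [← Real.rpow_one τ]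
    rw [← Real.rpow_add hτ0]
    congr 1
    push_cast
    ring
  have e2 : (sg p τ) ^ (p / (p - 1)) =
      τ ^ p * ((1 + (τ ^ 2)⁻¹) ^ ((p - 2) / 2)) ^ (p / (p - 1)) := by
    rw [e1, Real.mul_rpow (by positivity) (by positivity), ← Real.rpow_mul hτ0.le]
    congr 2
    field_simp
  have e3 : sg p τ * τ = τ ^ p * (1 + (τ ^ 2)⁻¹) ^ ((p - 2) / 2) := by
    rw [e1]
    have : τ ^ p = τ ^ (p - 1) * τ := by
      nth_rewrite 3 [← Real.rpow_one τ]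
      rw [← Real.rpow_add hτ0]
      congr 1
      ring
    rw [this]
    ring
  unfold ff
  rw [e2, e3]
  have h5 : 0 ≤ τ ^ p := by positivity
  nlinarith [mul_nonneg h5 (neg_nonneg.2 hτ.le)]

theorem exists_bound {p ρ : ℝ} (hp : 1 < p) (hρ : 0 < ρ) :
    ∃ C : ℝ, 0 < C ∧ ∀ τ : ℝ, 0 ≤ τ → ff p ρ τ ≤ C := by
  obtain ⟨T, hT⟩ := eventually_atTop.1 (eventually_ff hp hρ)
  obtain ⟨C, hC⟩ := (isCompact_Icc (a := (0:ℝ)) (b := T)).exists_bound_of_continuousOn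
    (continuous_ff hp ρ).continuousOn
  refine ⟨max C 0 + 1, by positivity, fun τ hτ => ?_⟩
  rcases le_total τ T with h | h
  · have := hC τ ⟨hτ, h⟩
    have h2 := (le_abs_self _).trans this
    linarith [le_max_left C 0]
  · have := hT τ h
    linarith [le_max_right C 0]

theorem rho_bound {p Λ ρ : ℝ} (hp : 1 < p) (hΛ : 0 < Λ) (hρ : 0 < ρ) :
    ∃ ε₀ : ℝ, 0 < ε₀ ∧ ∀ ε : ℝ, 0 < ε → ε < ε₀ → ∀ t : ℝ, 0 ≤ t →
      (1 - ρ) * ((p - 1) * (t * (ε ^ 2 + t ^ 2) ^ ((p - 2) / 2)) ^ (p / (p - 1))) - ρ * Λ ≤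
        p * ((ε ^ 2 + t ^ 2) ^ ((p - 2) / 2) * t ^ 2) - t ^ p := by
  have hp1 : 0 < p - 1 := by linarith
  obtain ⟨C, hC0, hC⟩ := exists_bound hp hρ
  refine ⟨(ρ * Λ / C) ^ (1 / p), by positivity, ?_⟩
  intro ε hε hlt t ht
  have hεp : ε ^ p * C ≤ ρ * Λ := by
    have h1 : ε ^ p ≤ ((ρ * Λ / C) ^ (1 / p)) ^ p :=
      Real.rpow_le_rpow hε.le hlt.le (by linarith)
    rw [← Real.rpow_mul (by positivity), one_div_mul_cancel (by linarith), Real.rpow_one] at h1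
    rwa [le_div_iff₀ hC0] at h1
  obtain ⟨τ, hτ⟩ : ∃ τ, t = ε * τ := ⟨t / ε, by field_simp⟩
  have hτ0 : 0 ≤ τ := by
    by_contra hneg
    push Not at hneg
    have := mul_neg_of_pos_of_neg hε hneg
    linarith
  have hεpos : 0 ≤ ε := hε.le
  have hsum : ε ^ 2 + t ^ 2 = ε ^ 2 * (1 + τ ^ 2) := by rw [hτ]; ring
  have hw : (ε ^ 2 + t ^ 2) ^ ((p - 2) / 2) = ε ^ (p - 2) * (1 + τ ^ 2) ^ ((p - 2) / 2) := by
    rw [hsum, Real.mul_rpow (by positivity) (by positivity), ← Real.rpow_natCast ε 2,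
      ← Real.rpow_mul hεpos]
    congr 2
    push_cast
    ring
  have e1 : t * (ε ^ 2 + t ^ 2) ^ ((p - 2) / 2) = ε ^ (p - 1) * sg p τ := by
    rw [hw, hτ, sg]
    have : ε ^ (p - 1) = ε * ε ^ (p - 2) := by
      nth_rewrite 2 [← Real.rpow_one ε]
      rw [← Real.rpow_add hε]
      congr 1
      ring
    rw [this]
    ring
  have e2 : (t * (ε ^ 2 + t ^ 2) ^ ((p - 2) / 2)) ^ (p / (p - 1)) =
      ε ^ p * (sg p τ) ^ (p / (p - 1)) := by
    rw [e1, Real.mul_rpow (by positivity) (sg_nonneg hτ0), ← Real.rpow_mul hεpos]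
    congr 2
    field_simp
  have e3 : (ε ^ 2 + t ^ 2) ^ ((p - 2) / 2) * t ^ 2 = ε ^ p * (sg p τ * τ) := by
    have : (ε ^ 2 + t ^ 2) ^ ((p - 2) / 2) * t ^ 2 =
      (t * (ε ^ 2 + t ^ 2) ^ ((p - 2) / 2)) * t := by ring
    rw [this, e1, hτ]
    have h3 : ε ^ p = ε ^ (p - 1) * ε := by
      nth_rewrite 3 [← Real.rpow_one ε]
      rw [← Real.rpow_add hε]
      congr 1
      ring
    rw [h3]
    ring
  have e4 : t ^ p = ε ^ p * τ ^ p := by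
    rw [hτ, Real.mul_rpow hεpos hτ0]
  have h6 := hC τ hτ0
  unfold ff at h6
  rw [e2, e3, e4]
  have h7 : 0 ≤ ε ^ p := by positivity
  have h8 := mul_le_mul_of_nonneg_left h6 h7
  nlinarith

end Pool.Agent.TH480.J162
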