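import Pool.Agent.TH281.PC.Core
open MeasureTheory Set Metric Filter Topology
open scoped InnerProductSpace
namespace Pool.Agent.TH480.J166
open Pool.Agent.TH281.PC
variable {d : ℕ}

theorem hasDerivAt_line {G : V d → ℝ} {q : V d → V d} (hg : ∀ x, HasGradientAt G (q x) x)
    (x h : V d) (t : ℝ) :
    HasDerivAt (fun s : ℝ => G (x + s • h)) (⟪q (x + t • h), h⟫_ℝ) t := by
  have h2 : HasDerivAt (fun s : ℝ => x + s • h) h t := by
    simpa using ((hasDerivAt_id t).smul_const h).const_add x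
  have h4 := (hg (x + t • h)).hasFDerivAt.comp_hasDerivAt t h2
  refine h4.congr_deriv ?_
  simp

theorem concave_grad {G : V d → ℝ} {q : V d → V d} (hc : ConcaveOn ℝ univ G)
    (hg : ∀ x, HasGradientAt G (q x) x) (x y : V d) : G y ≤ G x + ⟪q x, y - x⟫_ℝ := by
  set h := y - x with hh
  have h2 := hasDerivAt_line hg x h 0
  have h3 := h2.tendsto_slope_zero_right
  simp only [zero_add, zero_smul, add_zero, smul_eq_mul] at h3
  have key : G y - G x ≤ ⟪q x, h⟫_ℝ := by
    refine ge_of_tendsto h3 ?_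
    filter_upwards [Ioo_mem_nhdsGT (zero_lt_one' ℝ)] with t ht
    have h4 := hc.2 (mem_univ x) (mem_univ y) (show (0:ℝ) ≤ 1 - t by linarith [ht.2])
      ht.1.le (by ring)
    have e : (1 - t) • x + t • y = x + t • h := by
      rw [hh, smul_sub, sub_smul, one_smul]; abel
    rw [e] at h4
    simp only [smul_eq_mul] at h4
    have ht0 := ht.1
    rw [inv_mul_eq_div, le_div_iff₀ ht0]
    linarith
  linarith

theorem taylor_lower {G : V d → ℝ} {q : V d → V d} {Q : V d → V d →L[ℝ] V d}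
    (hg : ∀ x, HasGradientAt G (q x) x) (hq : ∀ x, HasFDerivAt q (Q x) x) {x h : V d} {c : ℝ}
    (hQ : ∀ t ∈ Icc (0:ℝ) 1, -c * ‖h‖ ^ 2 ≤ ⟪Q (x + t • h) h, h⟫_ℝ) :
    -(c / 2) * ‖h‖ ^ 2 ≤ G (x + h) - G x - ⟪q x, h⟫_ℝ := by
  have ha : ∀ t : ℝ, HasDerivAt (fun s : ℝ => ⟪q (x + s • h), h⟫_ℝ + c * ‖h‖ ^ 2 * s)
      (⟪Q (x + t • h) h, h⟫_ℝ + c * ‖h‖ ^ 2) t := by
    intro t
    have h2 : HasDerivAt (fun s : ℝ => x + s • h) h t := by
      simpa using ((hasDerivAt_id t).smul_const h).const_add x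
    have h3 : HasDerivAt (fun s : ℝ => q (x + s • h)) (Q (x + t • h) h) t :=
      (hq (x + t • h)).comp_hasDerivAt t h2
    have h4 : HasDerivAt (fun s : ℝ => ⟪q (x + s • h), h⟫_ℝ) (⟪Q (x + t • h) h, h⟫_ℝ) t := by
      have := h3.inner ℝ (hasDerivAt_const t h)
      simpa using this
    have h5 := h4.add ((hasDerivAt_id t).const_mul (c * ‖h‖ ^ 2))
    refine h5.congr_deriv ?_
    simp
  have hmono : MonotoneOn (fun s : ℝ => ⟪q (x + s • h), h⟫_ℝ + c * ‖h‖ ^ 2 * s) (Icc 0 1) := by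
    refine monotoneOn_of_deriv_nonneg (convex_Icc 0 1)
      (fun t _ => (ha t).continuousAt.continuousWithinAt)
      (fun t _ => (ha t).differentiableAt.differentiableWithinAt) ?_
    intro t ht
    rw [(ha t).deriv]
    have := hQ t (interior_subset ht)
    linarith
  have hb : ∀ t : ℝ, HasDerivAt (fun s : ℝ => G (x + s • h) - s * ⟪q x, h⟫_ℝ +
      c / 2 * ‖h‖ ^ 2 * s ^ 2)
      (⟪q (x + t • h), h⟫_ℝ - ⟪q x, h⟫_ℝ + c * ‖h‖ ^ 2 * t) t := by
    intro t
    have h1 := ((hasDerivAt_line hg x h t).sub ((hasDerivAt_id t).mul_const ⟪q x, h⟫_ℝ)).add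
      (((hasDerivAt_id t).pow 2).const_mul (c / 2 * ‖h‖ ^ 2))
    refine h1.congr_deriv ?_
    simp only [id, one_mul]
    ring
  have hmono2 : MonotoneOn (fun s : ℝ => G (x + s • h) - s * ⟪q x, h⟫_ℝ +
      c / 2 * ‖h‖ ^ 2 * s ^ 2) (Icc 0 1) := by
    refine monotoneOn_of_deriv_nonneg (convex_Icc 0 1)
      (fun t _ => (hb t).continuousAt.continuousWithinAt)
      (fun t _ => (hb t).differentiableAt.differentiableWithinAt) ?_
    intro t ht
    rw [(hb t).deriv]
    have ht' : t ∈ Icc (0:ℝ) 1 := interior_subset ht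
    have := hmono (left_mem_Icc.2 zero_le_one) ht' ht'.1
    simp only [zero_smul, add_zero, mul_zero] at this
    linarith
  have hfin := hmono2 (left_mem_Icc.2 zero_le_one) (right_mem_Icc.2 zero_le_one) zero_le_one
  simp only [zero_smul, add_zero, zero_mul, sub_zero, one_smul, one_mul, one_pow, mul_one] at hfin
  have : c / 2 * ‖h‖ ^ 2 * (0:ℝ) ^ 2 = 0 := by norm_num
  rw [this] at hfin
  linarith

/-- uniform two-sided second order estimate -/
theorem uniform {O : OpData d} {δ : ℝ} {P : Set (V d)} (hP : IsOpen P) {v : V d → ℝ}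
    (hv : ConcaveOn ℝ P v)
    (happ : ∀ K : Set (V d), K ⊆ P → IsCompact K → ∀ η : ℝ, 0 < η →
      ∃ (G : V d → ℝ) (q : V d → V d) (Q : V d → V d →L[ℝ] V d), Apx O δ K η v G q Q)
    {K : Set (V d)} (hKP : K ⊆ P) (hK : IsCompact K) :
    ∃ r C R : ℝ, 0 < r ∧ 0 ≤ C ∧ 0 ≤ R ∧ ∀ x ∈ K, ∃ p : V d, ‖p‖ ≤ R ∧
      ∀ h : V d, ‖h‖ ≤ r → -(C / 2) * ‖h‖ ^ 2 ≤ v (x + h) - v x - ⟪p, h⟫_ℝ ∧
        v (x + h) - v x - ⟪p, h⟫_ℝ ≤ 0 := by
  obtain ⟨s, hs, hsP⟩ := hK.exists_cthickening_subset_open hP hKP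
  set r := s / 2 with hr
  have hr0 : 0 < r := by positivity
  set K2 := cthickening s K with hK2
  have hK2c : IsCompact K2 := hK.cthickening
  have hmem : ∀ x ∈ K, ∀ h : V d, ‖h‖ ≤ s → x + h ∈ K2 := by
    intro x hx h hh
    refine mem_cthickening_of_dist_le (x + h) x s K hx ?_
    rwa [dist_eq_norm, add_sub_cancel_left]
  have hvc : ContinuousOn v K2 := (hv.continuousOn hP).mono hsP
  obtain ⟨C0, hC0⟩ := hK2c.exists_bound_of_continuousOn hvc
  set C1 := |C0| + 1 with hC1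
  have hC1pos : 0 < C1 := by positivity
  -- bounded approximants
  have hGb : ∀ η : ℝ, η ≤ 1 → ∀ G : V d → ℝ, (∀ x ∈ K2, |G x - v x| ≤ η) →
      ∀ x ∈ K2, |G x| ≤ C1 := by
    intro η hη G hG x hx
    have h1 := hG x hx
    have h2 := hC0 x hx
    rw [Real.norm_eq_abs] at h2
    have h3 : |G x| ≤ |G x - v x| + |v x| := by
      have := abs_add_le (G x - v x) (v x)
      simpa using this
    have h4 := le_abs_self C0
    linarith
  set R := 2 * C1 / r with hR
  have hR0 : 0 ≤ R := by positivity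
  obtain ⟨c, hc, hell⟩ := O.ell R
  obtain ⟨B, hB⟩ := (isCompact_closedBall (0 : V d) R).exists_bound_of_continuousOn
    O.contb.continuousOn
  set C := (1 + |B| + |δ| * C1) / c with hC
  have hCpos : 0 ≤ C := by positivity
  refine ⟨r, C, R, hr0, hCpos, hR0, ?_⟩
  intro x hx
  -- estimates for an approximant
  have est : ∀ η : ℝ, 0 < η → η ≤ 1 → ∀ (G : V d → ℝ) (q : V d → V d)
      (Q : V d → V d →L[ℝ] V d), Apx O δ K2 η v G q Q → ‖q x‖ ≤ R ∧
      ∀ h : V d, ‖h‖ ≤ r → -(C / 2) * ‖h‖ ^ 2 ≤ G (x + h) - G x - ⟪q x, h⟫_ℝ ∧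
        G (x + h) - G x - ⟪q x, h⟫_ℝ ≤ 0 := by
    intro η hη0 hη1 G q Q hA
    have hGb' := hGb η hη1 G hA.close
    -- gradient bound on the r-neighbourhood
    have hqb : ∀ h : V d, ‖h‖ ≤ r → ‖q (x + h)‖ ≤ R := by
      intro h hh
      rcases eq_or_ne (q (x + h)) 0 with h0 | h0
      · rw [h0, norm_zero]; exact hR0
      · have hn : 0 < ‖q (x + h)‖ := norm_pos_iff.2 h0
        set e : V d := -((r / ‖q (x + h)‖) • q (x + h)) with he
        have hen : ‖e‖ = r := by
          rw [he, norm_neg, norm_smul, Real.norm_eq_abs, abs_of_pos (by positivity)]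
          field_simp
        have h1 := concave_grad hA.conc hA.grad (x + h) (x + h + e)
        rw [add_sub_cancel_left] at h1
        have h2 : ⟪q (x + h), e⟫_ℝ = -(r * ‖q (x + h)‖) := by
          rw [he, inner_neg_right, inner_smul_right, real_inner_self_eq_norm_sq]
          field_simp
        have h3 : x + h ∈ K2 := hmem x hx h (by linarith)
        have h4 : x + h + e ∈ K2 := by
          rw [add_assoc]
          refine hmem x hx _ ((norm_add_le _ _).trans ?_)
          rw [hen]; linarith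
        have h5 := (abs_le.1 (hGb' _ h3)).2
        have h6 := (abs_le.1 (hGb' _ h4)).1
        rw [hR, le_div_iff₀ hr0]
        linarith
    have hQb : ∀ h : V d, ‖h‖ ≤ r → ∀ e : V d, -C * ‖e‖ ^ 2 ≤ ⟪Q (x + h) e, e⟫_ℝ := by
      intro h hh e
      have h3 : x + h ∈ K2 := hmem x hx h (by linarith)
      have hunit : ∀ u : V d, ‖u‖ = 1 → -C ≤ ⟪Q (x + h) u, u⟫_ℝ := by
        intro u hu
        have h1 := hell (q (x + h)) (hqb h hh) (Q (x + h)) (hA.nonpos (x + h)) u hu
        have h2 := hA.sub (x + h) h3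
        have h4 := hB (q (x + h)) (by rw [mem_closedBall, dist_zero_right]; exact hqb h hh)
        rw [Real.norm_eq_abs] at h4
        have h5 := (le_abs_self _).trans (h4.trans (le_abs_self B))
        have h6 : -(δ * G (x + h)) ≤ |δ| * C1 := by
          calc -(δ * G (x + h)) ≤ |δ * G (x + h)| := neg_le_abs _
            _ = |δ| * |G (x + h)| := abs_mul _ _
            _ ≤ |δ| * C1 := by gcongr; exact hGb' _ h3
        have h7 : -(1 + |B| + |δ| * C1) ≤ c * ⟪Q (x + h) u, u⟫_ℝ := by linarith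
        rw [hC, neg_le, ← neg_le_neg_iff, neg_neg, ← neg_div, div_le_iff₀ hc]
        linarith
      rcases eq_or_ne e 0 with h0 | h0
      · simp [h0]
      · have hn : 0 < ‖e‖ := norm_pos_iff.2 h0
        have h1 := hunit (‖e‖⁻¹ • e) (by
          rw [norm_smul, norm_inv, norm_norm, inv_mul_cancel₀ hn.ne'])
        rw [map_smul, inner_smul_left, inner_smul_right, conj_trivial] at h1
        have h2 : 0 < ‖e‖ ^ 2 := by positivity
        calc -C * ‖e‖ ^ 2 ≤ (‖e‖⁻¹ * (‖e‖⁻¹ * ⟪Q (x + h) e, e⟫_ℝ)) * ‖e‖ ^ 2 := by gcongr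
          _ = ⟪Q (x + h) e, e⟫_ℝ := by field_simp
    refine ⟨by simpa using hqb 0 (by simpa using hr0.le), fun h hh => ⟨?_, ?_⟩⟩
    · refine taylor_lower hA.grad hA.hess (fun t ht => hQb (t • h) ?_ h)
      rw [norm_smul, Real.norm_eq_abs, abs_of_nonneg ht.1]
      calc t * ‖h‖ ≤ 1 * ‖h‖ := by gcongr; exact ht.2
        _ ≤ r := by rw [one_mul]; exact hh
    · have := concave_grad hA.conc hA.grad x (x + h)
      rw [add_sub_cancel_left] at this
      linarith
  -- sequence of approximants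
  have hseq : ∀ n : ℕ, ∃ (G : V d → ℝ) (q : V d → V d) (Q : V d → V d →L[ℝ] V d),
      Apx O δ K2 (1 / ((n : ℝ) + 1)) v G q Q := fun n =>
    happ K2 hsP hK2c _ (by positivity)
  choose G q Q hA using hseq
  have hη : ∀ n : ℕ, (1 / ((n : ℝ) + 1)) ≤ 1 := fun n => by
    rw [div_le_one (by positivity)]
    linarith [(Nat.cast_nonneg n : (0:ℝ) ≤ n)]
  have hE := fun n => est _ (by positivity) (hη n) (G n) (q n) (Q n) (hA n)
  have hlim : ∀ z ∈ K2, Tendsto (fun n => G n z) atTop (𝓝 (v z)) := by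
    intro z hz
    rw [tendsto_iff_norm_sub_tendsto_zero]
    refine squeeze_zero (fun n => norm_nonneg _) (fun n => ?_)
      tendsto_one_div_add_atTop_nhds_zero_nat
    rw [Real.norm_eq_abs]
    exact (hA n).close z hz
  obtain ⟨p, hp, φ, hφ, hφlim⟩ := (isCompact_closedBall (0 : V d) R).tendsto_subseq
    (x := fun n => q n x) (fun n => by
      rw [mem_closedBall, dist_zero_right]; exact (hE n).1)
  rw [mem_closedBall, dist_zero_right] at hp
  refine ⟨p, hp, fun h hh => ?_⟩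
  have hxh : x + h ∈ K2 := hmem x hx h (by linarith)
  have hx' : x ∈ K2 := by simpa using hmem x hx 0 (by simpa using hs.le)
  have hin : Tendsto (fun n => ⟪q (φ n) x, h⟫_ℝ) atTop (𝓝 ⟪p, h⟫_ℝ) :=
    Tendsto.inner hφlim tendsto_const_nhds
  have hlim2 : Tendsto (fun n => G (φ n) (x + h) - G (φ n) x - ⟪q (φ n) x, h⟫_ℝ) atTop
      (𝓝 (v (x + h) - v x - ⟪p, h⟫_ℝ)) :=
    (((hlim _ hxh).comp hφ.tendsto_atTop).sub ((hlim _ hx').comp hφ.tendsto_atTop)).sub hin
  exact ⟨ge_of_tendsto' hlim2 fun n => ((hE (φ n)).2 h hh).1,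
    le_of_tendsto' hlim2 fun n => ((hE (φ n)).2 h hh).2⟩

theorem grad_of_bounds {v : V d → ℝ} {x p : V d} {r C : ℝ} (hr : 0 < r)
    (h : ∀ h : V d, ‖h‖ ≤ r → -(C / 2) * ‖h‖ ^ 2 ≤ v (x + h) - v x - ⟪p, h⟫_ℝ ∧
        v (x + h) - v x - ⟪p, h⟫_ℝ ≤ 0) : HasGradientAt v p x := by
  rw [hasGradientAt_iff_isLittleO_nhds_zero]
  have h1 : (fun h : V d => v (x + h) - v x - ⟪p, h⟫_ℝ) =O[𝓝 0] fun h => ‖h‖ ^ 2 := by
    refine Asymptotics.IsBigO.of_bound |C / 2| ?_
    filter_upwards [closedBall_mem_nhds (0 : V d) hr] with e he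
    rw [mem_closedBall, dist_zero_right] at he
    have h2 := h e he
    rw [Real.norm_eq_abs, abs_of_nonpos h2.2, norm_pow, norm_norm]
    have h3 : C / 2 * ‖e‖ ^ 2 ≤ |C / 2| * ‖e‖ ^ 2 := by gcongr; exact le_abs_self _
    linarith [h2.1]
  refine h1.trans_isLittleO ?_
  have h3 : (fun h : V d => ‖h‖ ^ 2) =o[𝓝 0] fun h : V d => ‖h‖ ^ 1 :=
    Asymptotics.IsLittleO.comp_tendsto (Asymptotics.isLittleO_pow_pow (by norm_num : 1 < 2))
      (by simpa using (continuous_norm.tendsto (0 : V d)))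
  simp only [pow_one] at h3
  exact Asymptotics.isLittleO_norm_right.1 h3

/-- interior `C^{1,1}` regularity of concave functions approximable by smooth concave
approximate subsolutions -/
theorem regularity {O : OpData d} {δ : ℝ} {P : Set (V d)} (hP : IsOpen P) {v : V d → ℝ}
    (hv : ConcaveOn ℝ P v)
    (happ : ∀ K : Set (V d), K ⊆ P → IsCompact K → ∀ η : ℝ, 0 < η →
      ∃ (G : V d → ℝ) (q : V d → V d) (Q : V d → V d →L[ℝ] V d), Apx O δ K η v G q Q) :
    ∃ g : V d → V d, (∀ x ∈ P, HasGradientAt v (g x) x) ∧ LocLip P g := by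
  have hgrad : ∀ x ∈ P, HasGradientAt v (gradient v x) x := by
    intro x hx
    obtain ⟨r, C, R, hr, -, -, h⟩ := uniform hP hv happ (singleton_subset_iff.2 hx)
      isCompact_singleton
    obtain ⟨p, -, hp⟩ := h x rfl
    exact (grad_of_bounds hr hp).differentiableAt.hasGradientAt
  refine ⟨gradient v, hgrad, ?_⟩
  intro K hKP hK
  obtain ⟨s, hs, hsP⟩ := hK.exists_cthickening_subset_open hP hKP
  obtain ⟨r, C, R, hr, hC, hR, h⟩ := uniform hP hv happ hKP hK
  -- uniform estimate in terms of the gradient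
  have hest : ∀ x ∈ K, ‖gradient v x‖ ≤ R ∧ ∀ h : V d, ‖h‖ ≤ r →
      -(C / 2) * ‖h‖ ^ 2 ≤ v (x + h) - v x - ⟪gradient v x, h⟫_ℝ ∧
        v (x + h) - v x - ⟪gradient v x, h⟫_ℝ ≤ 0 := by
    intro x hx
    obtain ⟨p, hp, hb⟩ := h x hx
    have e : gradient v x = p := (grad_of_bounds hr hb).gradient
    rw [e]
    exact ⟨hp, hb⟩
  have hpos : 0 ≤ C + 4 * R / r := by positivity
  refine ⟨⟨C + 4 * R / r, hpos⟩, LipschitzOnWith.of_dist_le_mul fun x hx y hy => ?_⟩
  rw [dist_eq_norm, dist_eq_norm]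
  show ‖gradient v x - gradient v y‖ ≤ (C + 4 * R / r) * ‖x - y‖
  obtain ⟨hxR, hxe⟩ := hest x hx
  obtain ⟨hyR, hye⟩ := hest y hy
  set a := ‖x - y‖ with ha
  have ha0 : 0 ≤ a := norm_nonneg _
  rcases le_total a (r / 2) with hle | hle
  · have hCa : ‖gradient v x - gradient v y‖ ≤ C * a := by
      rcases eq_or_ne (gradient v x - gradient v y) 0 with h0 | h0
      · rw [h0, norm_zero]; positivity
      rcases eq_or_lt_of_le ha0 with h1 | h1
      · exfalso
        have : x = y := by rw [← sub_eq_zero, ← norm_eq_zero]; rw [← ha]; exact h1.symm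
        exact h0 (by rw [this, sub_self])
      have hn : 0 < ‖gradient v x - gradient v y‖ := norm_pos_iff.2 h0
      set e : V d := (a / ‖gradient v x - gradient v y‖) • (gradient v x - gradient v y) with he
      have hen : ‖e‖ = a := by
        rw [he, norm_smul, Real.norm_eq_abs, abs_of_pos (by positivity)]
        field_simp
      -- x + e seen from x and from y
      have h2 := (hxe e (by rw [hen]; linarith)).1
      have h3 := (hye (x - y + e) ((norm_add_le _ _).trans (by rw [hen]; linarith))).2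
      have h4 := (hye (x - y) (by linarith)).1
      have e1 : y + (x - y + e) = x + e := by abel
      have e2 : y + (x - y) = x := by abel
      rw [e1, inner_add_right] at h3
      rw [e2] at h4
      rw [hen] at h2
      rw [← ha] at h4
      have h5 : ⟪gradient v x, e⟫_ℝ - ⟪gradient v y, e⟫_ℝ = a * ‖gradient v x - gradient v y‖ := by
        rw [← inner_sub_left, he, inner_smul_right, real_inner_self_eq_norm_sq]
        field_simp
      have h6 : a * ‖gradient v x - gradient v y‖ ≤ a * (C * a) := by nlinarith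
      exact le_of_mul_le_mul_left h6 h1
    calc ‖gradient v x - gradient v y‖ ≤ C * a := hCa
      _ ≤ (C + 4 * R / r) * a := by
        gcongr
        have : 0 ≤ 4 * R / r := by positivity
        linarith
  · have h1 : ‖gradient v x - gradient v y‖ ≤ 2 * R := by
      have := norm_sub_le (gradient v x) (gradient v y)
      linarith
    have h2 : 2 * R ≤ 4 * R / r * a := by
      calc 2 * R = 4 * R / r * (r / 2) := by field_simp; ring
        _ ≤ 4 * R / r * a := by gcongr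
    have h3 : 0 ≤ C * a := by positivity
    nlinarith

end Pool.Agent.TH480.J166
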