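import Pool.Agent.TH37.RZ.Defs

/-!
# Job 752 (RZ-SEP, for MP_8983b8_al)

Adapted from `Pool.Agent.TH908.RF_RFCUT` (helper908).
-/

set_option autoImplicit false

namespace Pool.Agent.TH480.J752

open Pool.Agent.TH37.RZ
open Pool.Agent.TH37.RF (commIdeal NilpId TT zword wd)

variable {C Q : Type} [Ring C] [Ring Q]

/-- the ideal `ker φ ∩ ker ε` as an additive subgroup -/
def JJ (ε : C →+* ℤ) (φ : C →+* Q) : AddSubgroup C :=
  (AddMonoidHom.prod (φ : C →+ Q) (ε : C →+ ℤ)).ker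

theorem mem_JJ {ε : C →+* ℤ} {φ : C →+* Q} {x : C} : x ∈ JJ ε φ ↔ φ x = 0 ∧ ε x = 0 := by
  simp [JJ, AddMonoidHom.mem_ker]

theorem mem_Cut_of {ε : C →+* ℤ} {φ : C →+* Q} {x : C} (h : x ∈ JJ ε φ) : x ∈ Cut ε φ := by
  rw [mem_JJ] at h
  show φ x = ((Int.castRingHom Q).comp ε) x
  simp [h.1, h.2]

theorem mul_mem_JJ {ε : C →+* ℤ} {φ : C →+* Q} (u : C) {x : C} (h : x ∈ JJ ε φ) :
    u * x ∈ JJ ε φ := by
  rw [mem_JJ] at h ⊢
  simp [h.1, h.2]

/-- the left ideal of all `x ∈ J` with `φ' (u x) = 0` for all `u` -/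
def LL {Q' : Type} [Ring Q'] (ε : C →+* ℤ) (φ : C →+* Q)
    (φ' : Cut ε φ →+* Q') : Ideal C where
  carrier := {x | ∃ h : x ∈ JJ ε φ, ∀ u : C, φ' ⟨u * x, mem_Cut_of (mul_mem_JJ u h)⟩ = 0}
  add_mem' := by
    rintro x y ⟨hx, hx'⟩ ⟨hy, hy'⟩
    refine ⟨add_mem hx hy, fun u => ?_⟩
    have : (⟨u * (x + y), mem_Cut_of (mul_mem_JJ u (add_mem hx hy))⟩ : Cut ε φ) =
      ⟨u * x, mem_Cut_of (mul_mem_JJ u hx)⟩ + ⟨u * y, mem_Cut_of (mul_mem_JJ u hy)⟩ := by
      apply Subtype.ext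
      simp [mul_add]
    rw [this, map_add, hx', hy', add_zero]
  zero_mem' := by
    refine ⟨zero_mem _, fun u => ?_⟩
    have : (⟨u * 0, mem_Cut_of (mul_mem_JJ u (zero_mem _))⟩ : Cut ε φ) = 0 := by
      apply Subtype.ext
      simp
    rw [this, map_zero]
  smul_mem' := by
    rintro c x ⟨hx, hx'⟩
    refine ⟨mul_mem_JJ c hx, fun u => ?_⟩
    have : (⟨u * (c • x), mem_Cut_of (mul_mem_JJ u (mul_mem_JJ c hx))⟩ : Cut ε φ) =
      ⟨(u * c) * x, mem_Cut_of (mul_mem_JJ (u * c) hx)⟩ := by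
      apply Subtype.ext
      simp [mul_assoc]
    rw [this, hx']

/-- the kernel of `ε` as an additive subgroup -/
def AA (ε : C →+* ℤ) : AddSubgroup C := (ε : C →+ ℤ).ker

theorem mem_AA {ε : C →+* ℤ} {x : C} : x ∈ AA ε ↔ ε x = 0 := by
  simp [AA, AddMonoidHom.mem_ker]

theorem JJ_le_AA (ε : C →+* ℤ) (φ : C →+* Q) : JJ ε φ ≤ AA ε := by
  intro x hx
  rw [mem_JJ] at hx
  rw [mem_AA]
  exact hx.2

/-- `J` has finite index in `ker ε` -/
theorem JJ_sub_finiteIndex [Finite Q] (ε : C →+* ℤ) (φ : C →+* Q) :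
    ((JJ ε φ).addSubgroupOf (AA ε)).FiniteIndex := by
  have h : ((φ : C →+ Q).comp (AA ε).subtype).ker ≤ (JJ ε φ).addSubgroupOf (AA ε) := by
    intro x hx
    rw [AddSubgroup.mem_addSubgroupOf, mem_JJ]
    exact ⟨hx, mem_AA.1 x.2⟩
  have h2 : ((φ : C →+ Q).comp (AA ε).subtype).ker.FiniteIndex := AddSubgroup.finiteIndex_ker _
  exact AddSubgroup.finiteIndex_of_le h

/-- the left ideal `L` has finite index in `J` -/
theorem LL_relIndex {Q' : Type} [Ring Q'] [Finite Q] [Finite Q'] (ε : C →+* ℤ) (φ : C →+* Q)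
    (φ' : Cut ε φ →+* Q') : ((LL ε φ φ').toAddSubgroup).relIndex (JJ ε φ) ≠ 0 := by
  have hJfin := JJ_sub_finiteIndex ε φ
  have : Finite (AA ε ⧸ (JJ ε φ).addSubgroupOf (AA ε)) :=
    AddSubgroup.finite_quotient_of_finiteIndex
  -- the additive map on J
  let Θ₁ : JJ ε φ →+ ((AA ε ⧸ (JJ ε φ).addSubgroupOf (AA ε)) → Q') :=
    { toFun := fun x r => φ' ⟨(r.out : C) * x.1, mem_Cut_of (mul_mem_JJ _ x.2)⟩
      map_zero' := by
        funext r
        have : (⟨(r.out : C) * ((0 : JJ ε φ) : C), mem_Cut_of (mul_mem_JJ _ (0 : JJ ε φ).2)⟩ :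
          Cut ε φ) = 0 := by
          apply Subtype.ext
          simp
        rw [this, map_zero]
        rfl
      map_add' := by
        intro x y
        funext r
        have : (⟨(r.out : C) * ((x + y : JJ ε φ) : C), mem_Cut_of (mul_mem_JJ _ (x + y).2)⟩ :
          Cut ε φ) = ⟨(r.out : C) * x.1, mem_Cut_of (mul_mem_JJ _ x.2)⟩ +
            ⟨(r.out : C) * y.1, mem_Cut_of (mul_mem_JJ _ y.2)⟩ := by
          apply Subtype.ext
          simp [mul_add]
        rw [this, map_add]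
        rfl }
  let Θ₂ : JJ ε φ →+ Q' :=
    { toFun := fun x => φ' ⟨x.1, mem_Cut_of x.2⟩
      map_zero' := by
        have : (⟨((0 : JJ ε φ) : C), mem_Cut_of (0 : JJ ε φ).2⟩ : Cut ε φ) = 0 := rfl
        rw [this, map_zero]
      map_add' := by
        intro x y
        have : (⟨((x + y : JJ ε φ) : C), mem_Cut_of (x + y).2⟩ : Cut ε φ) =
          ⟨x.1, mem_Cut_of x.2⟩ + ⟨y.1, mem_Cut_of y.2⟩ := rfl
        rw [this, map_add] }
  have hΘ : (Θ₁.prod Θ₂).ker.FiniteIndex := AddSubgroup.finiteIndex_ker _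
  have hsub : ∀ x : JJ ε φ, x ∈ (Θ₁.prod Θ₂).ker → (x : C) ∈ LL ε φ φ' := by
    intro x hx
    refine ⟨x.2, fun u => ?_⟩
    rw [AddMonoidHom.mem_ker, AddMonoidHom.prod_apply, Prod.mk_eq_zero] at hx
    have hu : u - ((ε u : ℤ) : C) ∈ AA ε := by
      rw [mem_AA, map_sub, map_intCast]
      simp
    set u' : AA ε := ⟨u - ((ε u : ℤ) : C), hu⟩ with hu'
    have h3 := congrFun hx.1 (QuotientAddGroup.mk u')
    have h4 : φ' ⟨(((QuotientAddGroup.mk u' : AA ε ⧸ (JJ ε φ).addSubgroupOf (AA ε)).out : AA ε) : C)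
      * x.1, mem_Cut_of (mul_mem_JJ _ x.2)⟩ = 0 := h3
    have h6 : φ' ⟨x.1, mem_Cut_of x.2⟩ = 0 := hx.2
    set r := (QuotientAddGroup.mk u' : AA ε ⧸ (JJ ε φ).addSubgroupOf (AA ε)).out with hr
    have hj : -(r : C) + (u' : C) ∈ JJ ε φ := by
      have h7 : -r + u' ∈ (JJ ε φ).addSubgroupOf (AA ε) := by
        rw [← QuotientAddGroup.eq]
        rw [hr]
        exact QuotientAddGroup.out_eq' _
      rw [AddSubgroup.mem_addSubgroupOf] at h7
      exact h7
    have h5 : (⟨u * x.1, mem_Cut_of (mul_mem_JJ u x.2)⟩ : Cut ε φ) =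
        ⟨(r : C) * x.1, mem_Cut_of (mul_mem_JJ _ x.2)⟩ +
          (⟨-(r : C) + (u' : C), mem_Cut_of hj⟩ * ⟨x.1, mem_Cut_of x.2⟩ +
            ((ε u : ℤ) : Cut ε φ) * ⟨x.1, mem_Cut_of x.2⟩) := by
      apply Subtype.ext
      simp only [Subring.coe_add, Subring.coe_mul, Subring.coe_intCast, hu']
      noncomm_ring
    rw [h5, map_add, map_add, map_mul, map_mul, h4, h6, mul_zero, mul_zero, add_zero, add_zero]
  have h7 : (Θ₁.prod Θ₂).ker ≤ ((LL ε φ φ').toAddSubgroup).addSubgroupOf (JJ ε φ) := by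
    intro x hx
    rw [AddSubgroup.mem_addSubgroupOf]
    exact hsub x hx
  have h8 : (((LL ε φ φ').toAddSubgroup).addSubgroupOf (JJ ε φ)).FiniteIndex :=
    AddSubgroup.finiteIndex_of_le h7
  exact h8.index_ne_zero

/-- JOB Z-SEP -/
theorem sep_of_cut {C Q : Type} [Ring C] [Ring Q] [Finite Q] (ε : C →+* ℤ) (φ : C →+* Q)
    (a : Cut ε φ) (ha : cutε ε φ a = 0) (h : Sep a) : Sep (a : C) := by
  obtain ⟨Q', _, _, φ', hφ'⟩ := h
  have haε : ε (a : C) = 0 := ha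
  have haφ : φ (a : C) = 0 := by
    have h1 : φ (a : C) = ((Int.castRingHom Q).comp ε) (a : C) := a.2
    rw [h1, RingHom.comp_apply, haε, map_zero]
  have haJ : (a : C) ∈ JJ ε φ := mem_JJ.2 ⟨haφ, haε⟩
  have haL : (a : C) ∉ LL ε φ φ' := by
    rintro ⟨h1, h2⟩
    apply hφ'
    rw [← h2 1]
    congr 1
    apply Subtype.ext
    simp
  have hle : (LL ε φ φ').toAddSubgroup ≤ JJ ε φ := fun x hx => hx.1
  have hrel : ((LL ε φ φ').toAddSubgroup).relIndex (AA ε) ≠ 0 := by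
    rw [← AddSubgroup.relIndex_mul_relIndex _ _ _ hle (JJ_le_AA ε φ)]
    exact mul_ne_zero (LL_relIndex ε φ φ') (JJ_sub_finiteIndex ε φ).index_ne_zero
  set N : ℕ := ((LL ε φ φ').toAddSubgroup).relIndex (AA ε) with hN
  have hfi : (((LL ε φ φ').toAddSubgroup).addSubgroupOf (AA ε)).FiniteIndex := ⟨hrel⟩
  have hkill : ∀ c : C, ε c = 0 → (N : C) * c ∈ LL ε φ φ' := by
    intro c hc
    have h1 : N • (⟨c, mem_AA.2 hc⟩ : AA ε) ∈ ((LL ε φ φ').toAddSubgroup).addSubgroupOf (AA ε) :=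
      AddSubgroup.nsmul_index_mem _ _
    rw [AddSubgroup.mem_addSubgroupOf] at h1
    have h2 : N • c ∈ LL ε φ φ' := h1
    rwa [nsmul_eq_mul] at h2
  set K : Ideal C := LL ε φ φ' ⊔ Ideal.span {(N : C)} with hK
  have haK : (a : C) ∉ K := by
    intro h1
    rw [hK, Submodule.mem_sup] at h1
    obtain ⟨l, hl, y, hy, h2⟩ := h1
    obtain ⟨c, rfl⟩ := Ideal.mem_span_singleton'.1 hy
    have hlε : ε l = 0 := (mem_JJ.1 hl.1).2
    have h3 : ε c = 0 := by
      have h4 := congrArg ε h2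
      rw [map_add, map_mul, hlε, haε, map_natCast, zero_add] at h4
      rcases mul_eq_zero.1 h4 with h5 | h5
      · exact h5
      · exact absurd (by exact_mod_cast h5) hrel
    apply haL
    rw [← h2]
    apply Submodule.add_mem _ hl
    rw [← (Nat.cast_commute N c).eq]
    exact hkill c h3
  -- finiteness
  have hKfin : K.toAddSubgroup.FiniteIndex := by
    have : NeZero N := ⟨hrel⟩
    have : Finite (AA ε ⧸ ((LL ε φ φ').toAddSubgroup).addSubgroupOf (AA ε)) :=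
      AddSubgroup.finite_quotient_of_finiteIndex
    let δ : C →+ AA ε :=
      { toFun := fun c => ⟨c - ((ε c : ℤ) : C), by rw [mem_AA, map_sub, map_intCast]; simp⟩
        map_zero' := by
          apply Subtype.ext
          simp
        map_add' := by
          intro x y
          apply Subtype.ext
          simp
          abel }
    let Ψ : C →+ ZMod N × (AA ε ⧸ ((LL ε φ φ').toAddSubgroup).addSubgroupOf (AA ε)) :=
      ((Int.castAddHom (ZMod N)).comp (ε : C →+ ℤ)).prod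
        ((QuotientAddGroup.mk' _).comp δ)
    have : Ψ.ker.FiniteIndex := AddSubgroup.finiteIndex_ker _
    apply AddSubgroup.finiteIndex_of_le (H := Ψ.ker)
    intro c hc
    rw [AddMonoidHom.mem_ker, AddMonoidHom.prod_apply, Prod.mk_eq_zero] at hc
    obtain ⟨h1, h2⟩ := hc
    have h1' : ((ε c : ℤ) : ZMod N) = 0 := h1
    rw [ZMod.intCast_zmod_eq_zero_iff_dvd] at h1'
    obtain ⟨m, hm⟩ := h1'
    have h2' : ((δ c : AA ε) : AA ε ⧸ ((LL ε φ φ').toAddSubgroup).addSubgroupOf (AA ε)) = 0 := h2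
    rw [QuotientAddGroup.eq_zero_iff, AddSubgroup.mem_addSubgroupOf] at h2'
    have h3 : c - ((ε c : ℤ) : C) ∈ LL ε φ φ' := h2'
    show c ∈ K
    rw [hK, Submodule.mem_sup]
    refine ⟨_, h3, ((ε c : ℤ) : C), ?_, by abel⟩
    rw [hm]
    rw [Ideal.mem_span_singleton']
    refine ⟨(m : C), ?_⟩
    push_cast
    exact ((Nat.cast_commute N (m : C)).eq).symm
  have hM : Finite (C ⧸ K) :=
    AddSubgroup.finite_quotient_of_finiteIndex (H := K.toAddSubgroup)
  have hE : Finite (AddMonoid.End (C ⧸ K)) :=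
    Finite.of_injective (fun f : AddMonoid.End (C ⧸ K) => (f : _ → _))
      DFunLike.coe_injective
  refine ⟨AddMonoid.End (C ⧸ K), inferInstance, hE, Module.toAddMonoidEnd C (C ⧸ K), ?_⟩
  intro h0
  have h9 : (Module.toAddMonoidEnd C (C ⧸ K) (a : C)) (Submodule.Quotient.mk 1) = 0 := by
    rw [h0]; rfl
  have h9' : (Submodule.Quotient.mk ((a : C) • (1 : C)) : C ⧸ K) = 0 := h9
  rw [Submodule.Quotient.mk_eq_zero] at h9'
  apply haK
  simpa using h9'

end Pool.Agent.TH480.J752
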