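import Pool.Agent.TH37.RZ.Defs

/-!
# Job 753 (RZ-ZORN, for MP_8983b8_al)

Adapted from `Pool.Agent.TH279.RF_ZORN` (helper279).
-/

set_option autoImplicit false

namespace Pool.Agent.TH480.J753

open Pool.Agent.TH37.RZ
open Pool.Agent.TH37.RF (commIdeal NilpId TT zword wd)

/-- Zorn's lemma for two-sided ideals. -/
theorem exists_max_ideal {R : Type} [Ring R] (P : TwoSidedIdeal R → Prop) (h0 : P ⊥)
    (hchain : ∀ c : Set (TwoSidedIdeal R), IsChain (· ≤ ·) c → c.Nonempty → (∀ I ∈ c, P I) →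
      ∀ U : TwoSidedIdeal R, (∀ x, x ∈ U ↔ ∃ I ∈ c, x ∈ I) → P U) :
    ∃ I, P I ∧ ∀ J, P J → I ≤ J → J = I := by
  obtain ⟨I, _, hI⟩ := zorn_le_nonempty₀ {I | P I} (fun c hc hchain' y hy => by
    have hne : c.Nonempty := ⟨y, hy⟩
    let U : TwoSidedIdeal R := TwoSidedIdeal.mk' {x | ∃ I ∈ c, x ∈ I}
      ⟨y, hy, y.zero_mem⟩
      (by
        rintro x z ⟨I, hI, hx⟩ ⟨J, hJ, hz⟩
        rcases hchain'.total hI hJ with h | h
        · exact ⟨J, hJ, J.add_mem (h hx) hz⟩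
        · exact ⟨I, hI, I.add_mem hx (h hz)⟩)
      (by rintro x ⟨I, hI, hx⟩; exact ⟨I, hI, I.neg_mem hx⟩)
      (by rintro x z ⟨I, hI, hz⟩; exact ⟨I, hI, I.mul_mem_left _ _ hz⟩)
      (by rintro x z ⟨I, hI, hx⟩; exact ⟨I, hI, I.mul_mem_right _ _ hx⟩)
    have hU : ∀ x, x ∈ U ↔ ∃ I ∈ c, x ∈ I := fun x => TwoSidedIdeal.mem_mk' _ _ _ _ _ _ x
    refine ⟨U, hchain c hchain' hne (fun I hI => hc hI) U hU, ?_⟩
    intro I hI x hx
    exact (hU x).2 ⟨I, hI, hx⟩) ⊥ h0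
  refine ⟨I, hI.1, ?_⟩
  intro J hJ hIJ
  exact le_antisymm (hI.2 hJ hIJ) hIJ

/-- JOB Z-ZORN -/
theorem exists_mono {C : Type} [Ring C] (ε : C →+* ℤ) (a : C) (ha : a ≠ 0) (hεa : ε a = 0) :
    ∃ (C' : Type) (_ : Ring C') (ε' : C' →+* ℤ) (π : C →+* C'),
      Function.Surjective π ∧ (∀ x, ε' (π x) = ε x) ∧ Mono ε' (π a) := by
  obtain ⟨I, ⟨hI1, hI2⟩, hmax⟩ := exists_max_ideal
    (fun I : TwoSidedIdeal C => (∀ x ∈ I, ε x = 0) ∧ a ∉ I)
    ⟨fun x hx => by rw [(TwoSidedIdeal.mem_bot C).1 hx, map_zero],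
      fun h => ha ((TwoSidedIdeal.mem_bot C).1 h)⟩
    (by
      intro c _ _ hP U hU
      constructor
      · intro x hx
        obtain ⟨I, hI, h⟩ := (hU x).1 hx
        exact (hP I hI).1 x h
      · intro hx
        obtain ⟨I, hI, h⟩ := (hU a).1 hx
        exact (hP I hI).2 h)
  have hker : I.ringCon ≤ RingCon.ker ε := by
    intro x y hxy
    have h1 : x - y ∈ I := (TwoSidedIdeal.rel_iff I x y).1 hxy
    have h2 := hI1 _ h1
    rw [map_sub, sub_eq_zero] at h2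
    exact h2
  let π : C →+* I.ringCon.Quotient := I.ringCon.mk'
  have hπ : Function.Surjective π := RingCon.mk'_surjective _
  let ε' : I.ringCon.Quotient →+* ℤ := I.ringCon.lift ε hker
  have hε' : ∀ x, ε' (π x) = ε x := fun x => rfl
  have hπ0 : ∀ x, π x = 0 ↔ x ∈ I := by
    intro x
    have h1 : (π x = 0) ↔ ((x : I.ringCon.Quotient) = ((0 : C) : I.ringCon.Quotient)) := Iff.rfl
    rw [h1, RingCon.eq, TwoSidedIdeal.rel_iff, sub_zero]
  refine ⟨I.ringCon.Quotient, inferInstance, ε', π, hπ, hε', ?_, ?_, ?_⟩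
  · intro h
    exact hI2 ((hπ0 a).1 h)
  · rw [hε', hεa]
  · intro J hJ hJb
    by_contra hcon
    let J' : TwoSidedIdeal C := TwoSidedIdeal.mk' {x | π x ∈ J}
      (by change π 0 ∈ J; rw [map_zero]; exact J.zero_mem)
      (by intro x y hx hy; change π (x + y) ∈ J; rw [map_add]; exact J.add_mem hx hy)
      (by intro x hx; change π (-x) ∈ J; rw [map_neg]; exact J.neg_mem hx)
      (by intro x y hy; change π (x * y) ∈ J; rw [map_mul]; exact J.mul_mem_left _ _ hy)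
      (by intro x y hx; change π (x * y) ∈ J; rw [map_mul]; exact J.mul_mem_right _ _ hx)
    have hJ' : ∀ x, x ∈ J' ↔ π x ∈ J := fun x => TwoSidedIdeal.mem_mk' _ _ _ _ _ _ x
    have h1 : J' = I := by
      apply hmax J'
      · constructor
        · intro x hx
          rw [← hε']
          exact hJ _ ((hJ' x).1 hx)
        · rw [hJ']
          exact hcon
      · intro x hx
        rw [hJ', (hπ0 x).2 hx]
        exact J.zero_mem
    apply hJb
    apply le_antisymm _ bot_le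
    intro y hy
    obtain ⟨x, rfl⟩ := hπ y
    rw [TwoSidedIdeal.mem_bot, hπ0, ← h1, hJ']
    exact hy

end Pool.Agent.TH480.J753
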