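import Pool.Agent.TH378.CW.Base

/-!
# Job 1044 (CW-contact, for MP_ba7b31_co): the least norm point

The compactness of convex hulls is taken from `Pool.Agent.W679.A5`.
-/

set_option autoImplicit false

namespace Pool.Agent.TH480.CWcontact

open MeasureTheory Metric Pool.Agent.TH378.CW
open scoped Real RealInnerProductSpace

/-- the convex hull of a compact set in finite dimension is compact -/
theorem compact_hull {E : Type*} [NormedAddCommGroup E] [NormedSpace ℝ E]
    [FiniteDimensional ℝ E] {s : Set E} (hs : IsCompact s) : IsCompact (convexHull ℝ s) := by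
  classical
  rcases s.eq_empty_or_nonempty with rfl | ⟨x0, hx0⟩
  · rw [convexHull_empty]
    exact isCompact_empty
  obtain ⟨n, hn⟩ : ∃ n, n = Module.finrank ℝ E + 1 := ⟨_, rfl⟩
  have hK : IsCompact ((stdSimplex ℝ (Fin n)) ×ˢ (Set.pi Set.univ (fun _ : Fin n => s))) :=
    (isCompact_stdSimplex ℝ (Fin n)).prod (isCompact_univ_pi fun _ => hs)
  have hcont : Continuous (fun p : (Fin n → ℝ) × (Fin n → E) => ∑ i, p.1 i • p.2 i) := by
    refine continuous_finsetSum _ fun i _ => ?_
    exact ((continuous_apply i).comp continuous_fst).smul ((continuous_apply i).comp continuous_snd)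
  have heq : convexHull ℝ s = (fun p : (Fin n → ℝ) × (Fin n → E) => ∑ i, p.1 i • p.2 i) ''
      ((stdSimplex ℝ (Fin n)) ×ˢ (Set.pi Set.univ (fun _ : Fin n => s))) := by
    apply Set.Subset.antisymm
    · intro x hx
      obtain ⟨ι, hι, z, w, hz, hai, hw0, hw1, hwz⟩ := eq_pos_convex_span_of_mem_convexHull hx
      have hcard : Fintype.card ι ≤ Fintype.card (Fin n) := by
        have h1 := hai.card_le_finrank_succ
        have h2 := Submodule.finrank_le (vectorSpan ℝ (Set.range z))
        rw [Fintype.card_fin, hn]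
        omega
      obtain ⟨e⟩ := Function.Embedding.nonempty_of_card_le hcard
      refine ⟨(Function.extend e w 0, Function.extend e z (fun _ => x0)), ⟨⟨?_, ?_⟩, ?_⟩, ?_⟩
      · intro j
        show (0 : ℝ) ≤ Function.extend e w 0 j
        by_cases hj : ∃ i, e i = j
        · obtain ⟨i, rfl⟩ := hj
          rw [e.injective.extend_apply]
          exact (hw0 i).le
        · rw [Function.extend_apply' _ _ _ hj]
          exact le_rfl
      · rw [← hw1]
        symm
        refine Fintype.sum_of_injective e e.injective _ _ ?_ ?_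
        · intro j hj
          show Function.extend e w 0 j = 0
          rw [Function.extend_apply' _ _ _ hj]
          rfl
        · intro i
          show w i = Function.extend e w 0 (e i)
          rw [e.injective.extend_apply]
      · intro j _
        by_cases hj : ∃ i, e i = j
        · obtain ⟨i, rfl⟩ := hj
          show Function.extend e z (fun _ => x0) (e i) ∈ s
          rw [e.injective.extend_apply]
          exact hz ⟨i, rfl⟩
        · show Function.extend e z (fun _ => x0) j ∈ s
          rw [Function.extend_apply' _ _ _ hj]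
          exact hx0
      · rw [← hwz]
        symm
        refine Fintype.sum_of_injective e e.injective _ _ ?_ ?_
        · intro j hj
          show Function.extend e w 0 j • Function.extend e z (fun _ => x0) j = 0
          rw [Function.extend_apply' w _ _ hj]
          simp
        · intro i
          show w i • z i = Function.extend e w 0 (e i) • Function.extend e z (fun _ => x0) (e i)
          rw [e.injective.extend_apply, e.injective.extend_apply]
    · rintro _ ⟨⟨w, z⟩, ⟨⟨hw0, hw1⟩, hz⟩, rfl⟩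
      refine (convex_convexHull ℝ s).sum_mem (fun i _ => hw0 i) hw1 (fun i _ => ?_)
      exact subset_convexHull ℝ s (hz i (Set.mem_univ i))
  rw [heq]
  exact hK.image hcont

theorem contact {C : Set H} (hC : Cone60 C) (hne : ∃ u ∈ C, ‖u‖ = 1) :
    ∃ (z : H) (k : ℕ) (w : Fin k → H) (l : Fin k → ℝ), k ≤ 4 ∧
      (∀ i, w i ∈ C ∧ ‖w i‖ = 1 ∧ ⟪w i, z⟫ = ‖z‖ ^ 2) ∧ (∀ i, 0 < l i) ∧ ∑ i, l i = 1 ∧
      z = ∑ i, l i • w i ∧ (∀ u ∈ C, ‖u‖ = 1 → ‖z‖ ^ 2 ≤ ⟪u, z⟫) ∧ 5 / 8 ≤ ‖z‖ ^ 2 := by
  classical
  set S : Set H := C ∩ sphere (0 : H) 1 with hS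
  have hScomp : IsCompact S := (isCompact_sphere (0 : H) 1).inter_left hC.closed
  have hSne : S.Nonempty := by
    obtain ⟨u, hu, hu1⟩ := hne
    exact ⟨u, hu, by rw [mem_sphere_zero_iff_norm]; exact hu1⟩
  have hmem : ∀ u, u ∈ S ↔ u ∈ C ∧ ‖u‖ = 1 := by
    intro u
    rw [hS, Set.mem_inter_iff, mem_sphere_zero_iff_norm]
  have hhull : IsCompact (convexHull ℝ S) := compact_hull hScomp
  obtain ⟨z, hz, hzmin⟩ := exists_norm_eq_iInf_of_complete_convex hSne.convexHull
    hhull.isComplete (convex_convexHull ℝ S) (0 : H)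
  rw [norm_eq_iInf_iff_real_inner_le_zero (convex_convexHull ℝ S) hz] at hzmin
  have hlow : ∀ u ∈ S, ‖z‖ ^ 2 ≤ ⟪u, z⟫ := by
    intro u hu
    have h1 := hzmin u (subset_convexHull ℝ S hu)
    rw [zero_sub, inner_neg_left, inner_sub_right, real_inner_self_eq_norm_sq,
      real_inner_comm] at h1
    linarith
  obtain ⟨ι, hι, w, l, hwS, haff, hl, hl1, hzsum⟩ := eq_pos_convex_span_of_mem_convexHull hz
  have hwi : ∀ i, w i ∈ S := fun i => hwS ⟨i, rfl⟩
  have hwC : ∀ i, w i ∈ C ∧ ‖w i‖ = 1 := fun i => (hmem _).1 (hwi i)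
  -- inner products with z
  have hwz : ∀ i, ⟪w i, z⟫ = ‖z‖ ^ 2 := by
    have h1 : ∑ i, l i * (⟪w i, z⟫ - ‖z‖ ^ 2) = 0 := by
      have h2 : ∑ i, l i * ⟪w i, z⟫ = ‖z‖ ^ 2 := by
        calc ∑ i, l i * ⟪w i, z⟫ = ⟪∑ i, l i • w i, z⟫ := by
              rw [sum_inner]
              apply Finset.sum_congr rfl
              intro i _
              rw [real_inner_smul_left]
          _ = ‖z‖ ^ 2 := by rw [hzsum, real_inner_self_eq_norm_sq]
      simp_rw [mul_sub]
      rw [Finset.sum_sub_distrib, h2, ← Finset.sum_mul, hl1]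
      ring
    rw [Finset.sum_eq_zero_iff_of_nonneg (fun i _ => mul_nonneg (hl i).le
      (sub_nonneg.2 (hlow _ (hwi i))))] at h1
    intro i
    have h2 := h1 i (Finset.mem_univ i)
    rcases mul_eq_zero.1 h2 with h3 | h3
    · exact absurd h3 (hl i).ne'
    · linarith
  -- lower bound of the norm
  have hnorm : (1 + ∑ i, l i ^ 2) / 2 ≤ ‖z‖ ^ 2 := by
    have h1 : ‖z‖ ^ 2 = ∑ i, ∑ j, l i * l j * ⟪w i, w j⟫ := by
      rw [← real_inner_self_eq_norm_sq]
      conv_lhs => rw [← hzsum]
      rw [sum_inner]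
      apply Finset.sum_congr rfl
      intro i _
      rw [inner_sum]
      apply Finset.sum_congr rfl
      intro j _
      rw [real_inner_smul_left, real_inner_smul_right]
      ring
    have h2 : (1 + ∑ i, l i ^ 2) / 2 = ∑ i, ∑ j, l i * l j * (1 / 2 + if i = j then 1 / 2 else 0) := by
      have h3 : ∀ i, ∑ j, l i * l j * (1 / 2 + if i = j then 1 / 2 else 0) =
          l i / 2 + l i ^ 2 / 2 := by
        intro i
        simp_rw [mul_add]
        rw [Finset.sum_add_distrib]
        congr 1
        · rw [← Finset.sum_mul, ← Finset.mul_sum, hl1]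
          ring
        · simp_rw [mul_ite, mul_zero]
          rw [Finset.sum_ite_eq, if_pos (Finset.mem_univ i)]
          ring
      rw [Finset.sum_congr rfl fun i _ => h3 i, Finset.sum_add_distrib, ← Finset.sum_div,
        ← Finset.sum_div, hl1]
      ring
    rw [h1, h2]
    apply Finset.sum_le_sum
    intro i _
    apply Finset.sum_le_sum
    intro j _
    apply mul_le_mul_of_nonneg_left _ (mul_nonneg (hl i).le (hl j).le)
    split_ifs with hij
    · subst hij
      rw [real_inner_self_eq_norm_sq, (hwC i).2]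
      norm_num
    · rw [add_zero]
      exact hC.ang _ (hwC i).1 _ (hwC j).1 (hwC i).2 (hwC j).2
  have hz0 : z ≠ 0 := by
    rintro rfl
    rw [norm_zero] at hnorm
    have : 0 ≤ ∑ i, l i ^ 2 := Finset.sum_nonneg fun i _ => sq_nonneg _
    norm_num at hnorm
    linarith
  -- the number of points
  have hcard : Fintype.card ι ≤ 4 := by
    have h1 := haff.card_le_finrank_succ
    have h2 : vectorSpan ℝ (Set.range w) ≤ (ℝ ∙ z)ᗮ := by
      rw [vectorSpan_def, Submodule.span_le]
      rintro _ ⟨_, ⟨i, rfl⟩, _, ⟨j, rfl⟩, rfl⟩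
      show w i -ᵥ w j ∈ (ℝ ∙ z)ᗮ
      rw [Submodule.mem_orthogonal_singleton_iff_inner_left, vsub_eq_sub, inner_sub_left,
        hwz, hwz, sub_self]
    have h3 : Module.finrank ℝ (ℝ ∙ z)ᗮ = 3 := by
      have : Fact (Module.finrank ℝ H = 3 + 1) := ⟨by rw [Quaternion.finrank_eq_four]⟩
      exact Submodule.finrank_orthogonal_span_singleton hz0
    have h4 := Submodule.finrank_mono h2
    omega
  let e := Fintype.equivFin ι
  refine ⟨z, Fintype.card ι, fun i => w (e.symm i), fun i => l (e.symm i), hcard, ?_, ?_, ?_, ?_,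
    ?_, ?_⟩
  · intro i
    exact ⟨(hwC _).1, (hwC _).2, hwz _⟩
  · intro i
    exact hl _
  · rw [← hl1]
    exact Equiv.sum_comp e.symm l
  · rw [← hzsum]
    exact (Equiv.sum_comp e.symm fun i => l i • w i).symm
  · intro u hu hu1
    exact hlow u ((hmem u).2 ⟨hu, hu1⟩)
  · have h1 : (∑ i, l i) ^ 2 ≤ (Finset.univ : Finset ι).card * ∑ i, l i ^ 2 :=
      sq_sum_le_card_mul_sum_sq
    rw [hl1, Finset.card_univ] at h1
    have h2 : ((Fintype.card ι : ℕ) : ℝ) ≤ 4 := by exact_mod_cast hcard
    have h3 : 0 ≤ ∑ i, l i ^ 2 := Finset.sum_nonneg fun i _ => sq_nonneg _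
    nlinarith

end Pool.Agent.TH480.CWcontact
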