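import Pool.Agent.TH378.CW.Base

/-!
# Job 1045 (CW-J7a, for MP_ba7b31_co): volume from four contact points
-/

set_option autoImplicit false

namespace Pool.Agent.TH480.CWfour

open MeasureTheory Metric Pool.Agent.TH378.CW
open scoped Real RealInnerProductSpace

/-- the Gram determinant of four unit vectors -/
def gdet (a b c d e g : ℝ) : ℝ :=
  1 + 2 * a * b * d - 2 * a * b * e * g - 2 * a * c * d * g + 2 * a * c * e - a ^ 2 + a ^ 2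
      * g ^ 2 - 2 * b * c * d * e + 2 * b * c * g - b ^ 2 + b ^ 2 * e ^ 2 - c ^ 2 + c ^ 2
      * d ^ 2 + 2 * d * e * g - d ^ 2 - e ^ 2 - g ^ 2

theorem det_eq (v : Fin 4 → H) (hv : ∀ i, ‖v i‖ = 1) :
    Matrix.det (Matrix.of fun i j => ⟪v i, v j⟫) =
      gdet ⟪v 0, v 1⟫ ⟪v 0, v 2⟫ ⟪v 0, v 3⟫ ⟪v 1, v 2⟫ ⟪v 1, v 3⟫ ⟪v 2, v 3⟫ := by
  have hii : ∀ i, ⟪v i, v i⟫ = 1 := by
    intro i
    rw [real_inner_self_eq_norm_sq, hv, one_pow]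
  have hc : ∀ i j, ⟪v i, v j⟫ = ⟪v j, v i⟫ := fun i j => real_inner_comm _ _
  rw [Matrix.det_succ_row_zero]
  simp only [Fin.sum_univ_four, Matrix.det_fin_three, Matrix.submatrix_apply, Matrix.of_apply]
  have e0 : (Fin.succ 0 : Fin 4) = 1 := rfl
  have e1 : (Fin.succ 1 : Fin 4) = 2 := rfl
  have e2 : (Fin.succ 2 : Fin 4) = 3 := rfl
  have s00 : (0 : Fin 4).succAbove 0 = 1 := rfl
  have s01 : (0 : Fin 4).succAbove 1 = 2 := rfl
  have s02 : (0 : Fin 4).succAbove 2 = 3 := rfl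
  have s10 : (1 : Fin 4).succAbove 0 = 0 := rfl
  have s11 : (1 : Fin 4).succAbove 1 = 2 := rfl
  have s12 : (1 : Fin 4).succAbove 2 = 3 := rfl
  have s20 : (2 : Fin 4).succAbove 0 = 0 := rfl
  have s21 : (2 : Fin 4).succAbove 1 = 1 := rfl
  have s22 : (2 : Fin 4).succAbove 2 = 3 := rfl
  have s30 : (3 : Fin 4).succAbove 0 = 0 := rfl
  have s31 : (3 : Fin 4).succAbove 1 = 1 := rfl
  have s32 : (3 : Fin 4).succAbove 2 = 2 := rfl
  rw [e0, e1, e2, s00, s01, s02, s10, s11, s12, s20, s21, s22, s30, s31, s32]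
  rw [hii, hii, hii, hii, hc 1 0, hc 2 0, hc 3 0, hc 2 1, hc 3 1, hc 3 2]
  have v0 : (((0 : Fin 4) : ℕ)) = 0 := rfl
  have v1 : (((1 : Fin 4) : ℕ)) = 1 := rfl
  have v2 : (((2 : Fin 4) : ℕ)) = 2 := rfl
  have v3 : (((3 : Fin 4) : ℕ)) = 3 := rfl
  rw [v0, v1, v2, v3]
  unfold gdet
  ring

/-- the column sums of the adjugate -/
def c0 (a b c d e g : ℝ) : ℝ :=
  1 - a + a * d - a * d * g + a * e - a * e * g + a * g ^ 2 - b + b * d - b * d * e - b * e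
      * g + b * e ^ 2 + b * g - c - c * d * e - c * d * g + c * d ^ 2 + c * e + c * g + 2
      * d * e * g - d ^ 2 - e ^ 2 - g ^ 2

/-- the column sums of the adjugate -/
def c1 (a b c d e g : ℝ) : ℝ :=
  1 - a + a * b - a * b * g + a * c - a * c * g + a * g ^ 2 - b * c * d - b * c * e + 2 * b
      * c * g + b * d - b * e * g - b ^ 2 + b ^ 2 * e - c * d * g + c * e - c ^ 2 + c ^ 2
      * d - d + d * g - e + e * g - g ^ 2

/-- the column sums of the adjugate -/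
def c2 (a b c d e g : ℝ) : ℝ :=
  1 + a * b - a * b * e - a * c * d + 2 * a * c * e - a * c * g + a * d - a * e * g - a ^ 2
      + a ^ 2 * g - b + b * c - b * c * e + b * e ^ 2 - c * d * e + c * g - c ^ 2 + c ^ 2
      * d - d + d * e + e * g - e ^ 2 - g

/-- the column sums of the adjugate -/
def c3 (a b c d e g : ℝ) : ℝ :=
  1 + 2 * a * b * d - a * b * e - a * b * g + a * c - a * c * d - a * d * g + a * e - a ^ 2
      + a ^ 2 * g + b * c - b * c * d - b * d * e + b * g - b ^ 2 + b ^ 2 * e - c + c * d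
      ^ 2 + d * e + d * g - d ^ 2 - e - g

/-- sixteen times the squared area type expression -/
def ff (A1 A2 A3 : ℝ) : ℝ := 2 * (A1 * A2 + A2 * A3 + A3 * A1) - A1 ^ 2 - A2 ^ 2 - A3 ^ 2

theorem adj_sum (a b c d e g : ℝ) :
    c0 a b c d e g + c1 a b c d e g + c2 a b c d e g + c3 a b c d e g - gdet a b c d e g =
      ff ((2 - 2 * a) * (2 - 2 * g)) ((2 - 2 * b) * (2 - 2 * e)) ((2 - 2 * c) * (2 - 2 * d)) /
        16 := by
  unfold c0 c1 c2 c3 gdet ff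
  ring

theorem cramer (a b c d e g l0 l1 l2 l3 t : ℝ) (r0 : l0 + l1 * a + l2 * b + l3 * c = t)
    (r1 : l0 * a + l1 + l2 * d + l3 * e = t) (r2 : l0 * b + l1 * d + l2 + l3 * g = t)
    (r3 : l0 * c + l1 * e + l2 * g + l3 = t) (hl : l0 + l1 + l2 + l3 = 1) :
    gdet a b c d e g = t * (c0 a b c d e g + c1 a b c d e g + c2 a b c d e g +
      c3 a b c d e g) := by
  have h : gdet a b c d e g * (l0 + l1 + l2 + l3) - t * (c0 a b c d e g + c1 a b c d e g +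
      c2 a b c d e g + c3 a b c d e g) =
      c0 a b c d e g * (l0 + l1 * a + l2 * b + l3 * c - t) +
      c1 a b c d e g * (l0 * a + l1 + l2 * d + l3 * e - t) +
      c2 a b c d e g * (l0 * b + l1 * d + l2 + l3 * g - t) +
      c3 a b c d e g * (l0 * c + l1 * e + l2 * g + l3 - t) := by
    unfold c0 c1 c2 c3 gdet
    ring
  rw [hl, r0, r1, r2, r3, sub_self] at h
  linarith

theorem ff_ge (E1 E2 E3 E4 E5 E6 Δ : ℝ) (h1 : 0 ≤ E1 ∧ E1 ≤ 1) (h2 : 0 ≤ E2 ∧ E2 ≤ 1)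
    (h3 : 0 ≤ E3 ∧ E3 ≤ 1) (h4 : 0 ≤ E4 ∧ E4 ≤ 1) (h5 : 0 ≤ E5 ∧ E5 ≤ 1) (h6 : 0 ≤ E6 ∧ E6 ≤ 1)
    (hΔ0 : 0 ≤ Δ) (hΔ1 : Δ ≤ 1)
    (hs : (1 - E1) + (1 - E2) + (1 - E3) + (1 - E4) + (1 - E5) + (1 - E6) ≤ Δ) :
    (1 - Δ) * (3 + Δ) ≤ ff (E1 * E6) (E2 * E5) (E3 * E4) := by
  have a1 : 0 ≤ 1 - E1 * E6 := by nlinarith
  have a2 : 0 ≤ 1 - E2 * E5 := by nlinarith
  have a3 : 0 ≤ 1 - E3 * E4 := by nlinarith
  have b1 : 1 - E1 * E6 ≤ (1 - E1) + (1 - E6) := by nlinarith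
  have b2 : 1 - E2 * E5 ≤ (1 - E2) + (1 - E5) := by nlinarith
  have b3 : 1 - E3 * E4 ≤ (1 - E3) + (1 - E4) := by nlinarith
  obtain ⟨x, hx⟩ : ∃ x, x = 1 - E1 * E6 := ⟨_, rfl⟩
  obtain ⟨y, hy⟩ : ∃ y, y = 1 - E2 * E5 := ⟨_, rfl⟩
  obtain ⟨w, hw⟩ : ∃ w, w = 1 - E3 * E4 := ⟨_, rfl⟩
  have e1 : E1 * E6 = 1 - x := by linarith
  have e2 : E2 * E5 = 1 - y := by linarith
  have e3 : E3 * E4 = 1 - w := by linarith
  rw [← hx] at a1 b1
  rw [← hy] at a2 b2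
  rw [← hw] at a3 b3
  rw [e1, e2, e3]
  have hsum : x + y + w ≤ Δ := by linarith
  have hff : ff (1 - x) (1 - y) (1 - w) = (1 - (x + y + w)) * (3 + (x + y + w)) +
      4 * (x * y + y * w + w * x) := by
    unfold ff
    ring
  rw [hff]
  have h7 : 0 ≤ x * y := mul_nonneg a1 a2
  have h8 : 0 ≤ y * w := mul_nonneg a2 a3
  have h9 : 0 ≤ w * x := mul_nonneg a3 a1
  nlinarith [mul_nonneg (add_nonneg (add_nonneg a1 a2) a3) (sub_nonneg.2 hsum),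
    mul_nonneg hΔ0 (sub_nonneg.2 hsum)]

theorem cone_mem {C : Set H} (hC : Cone60 C) (w : Fin 4 → H) (hw : ∀ i, w i ∈ C)
    (t : Fin 4 → ℝ) (ht : ∀ i, 0 ≤ t i) : ∑ i, t i • w i ∈ C := by
  rcases eq_or_lt_of_le (Finset.sum_nonneg fun i (_ : i ∈ Finset.univ) => ht i) with h0 | h0
  · have h1 : ∀ i, t i = 0 := by
      intro i
      exact (Finset.sum_eq_zero_iff_of_nonneg (fun i _ => ht i)).1 h0.symm i (Finset.mem_univ i)
    have h2 : ∑ i, t i • w i = (0 : ℝ) • w 0 := by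
      rw [zero_smul]
      apply Finset.sum_eq_zero
      intro i _
      rw [h1, zero_smul]
    rw [h2]
    exact hC.smul _ (hw 0) 0 (le_refl _)
  · have h1 : ∑ i, (t i / ∑ j, t j) • w i ∈ C := by
      apply hC.cvx.sum_mem
      · intro i _
        exact div_nonneg (ht i) h0.le
      · rw [← Finset.sum_div, div_self h0.ne']
      · intro i _
        exact hw i
    have h2 : ∑ i, t i • w i = (∑ j, t j) • ∑ i, (t i / ∑ j, t j) • w i := by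
      rw [Finset.smul_sum]
      apply Finset.sum_congr rfl
      intro i _
      rw [smul_smul, mul_div_cancel₀ _ h0.ne']
    rw [h2]
    exact hC.smul _ h1 _ h0.le

theorem four_vol
    (simplex_vol : ∀ (v : Fin 4 → H) (_ : ∀ i, ‖v i‖ = 1) (C : Set H)
      (_ : ∀ t : Fin 4 → ℝ, (∀ i, 0 ≤ t i) → ∑ i, t i • v i ∈ C) (X : ℝ)
      (_ : X = 16 - ∑ i, ∑ j, ⟪v i, v j⟫),
      ENNReal.ofReal (√(Matrix.det (Matrix.of fun i j => ⟪v i, v j⟫)) / 24 *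
        (1 + X / 10 + 13 * X ^ 2 / 1680)) ≤ volume (C ∩ ball (0 : H) 1))
    {C : Set H} (hC : Cone60 C) (z : H) (w : Fin 4 → H) (l : Fin 4 → ℝ)
    (hw : ∀ i, w i ∈ C ∧ ‖w i‖ = 1 ∧ ⟪w i, z⟫ = ‖z‖ ^ 2) (hl : ∀ i, 0 < l i)
    (hl1 : ∑ i, l i = 1) (hz : z = ∑ i, l i • w i) (s : ℝ) (hs : ‖z‖ ^ 2 = 1 - s)
    (hs1 : 1 / 4 < s) (hs2 : s ≤ 3 / 8) (μ Δ : ℝ) (hμ0 : 0 < μ)
    (hμ : ∀ i j, i ≠ j → μ ≤ l i + l j) (hΔ : 3 - 8 * s ≤ Δ * μ) (hΔ0 : 0 ≤ Δ) (hΔ1 : Δ ≤ 1)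
    (X : ℝ) (hX : X = 6 - Δ) :
    ENNReal.ofReal (1 / 6 * √((1 - s) * ((1 - Δ) * (3 + Δ)) / (16 * s)) *
      (1 + X / 10 + 13 * X ^ 2 / 1680)) ≤ 4 * volume (C ∩ ball (0 : H) 1) := by
  have hv : ∀ i, ‖w i‖ = 1 := fun i => (hw i).2.1
  have hvol := simplex_vol w hv C (cone_mem hC w fun i => (hw i).1) _ rfl
  rw [det_eq w hv] at hvol
  have hii : ∀ i, ⟪w i, w i⟫ = 1 := by
    intro i
    rw [real_inner_self_eq_norm_sq, hv, one_pow]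
  have hc : ∀ i j, ⟪w i, w j⟫ = ⟪w j, w i⟫ := fun i j => real_inner_comm _ _
  have hrow : ∀ i, ∑ j, l j * ⟪w i, w j⟫ = 1 - s := by
    intro i
    rw [← hs, ← (hw i).2.2]
    conv_rhs => rw [hz]
    rw [inner_sum]
    apply Finset.sum_congr rfl
    intro j _
    rw [real_inner_smul_right]
  have hE : ∀ i j, 0 ≤ 2 - 2 * ⟪w i, w j⟫ ∧ 2 - 2 * ⟪w i, w j⟫ ≤ 1 := by
    intro i j
    have h1 := hC.ang _ (hw i).1 _ (hw j).1 (hv i) (hv j)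
    have h2 := real_inner_le_norm (w i) (w j)
    rw [hv, hv] at h2
    constructor <;> linarith
  have hsumG : ∑ i, ∑ j, ⟪w i, w j⟫ = 4 + 2 * (⟪w 0, w 1⟫ + ⟪w 0, w 2⟫ + ⟪w 0, w 3⟫ +
      ⟪w 1, w 2⟫ + ⟪w 1, w 3⟫ + ⟪w 2, w 3⟫) := by
    simp only [Fin.sum_univ_four, hii]
    rw [hc 1 0, hc 2 0, hc 3 0, hc 2 1, hc 3 1, hc 3 2]
    ring
  rw [hsumG] at hvol
  have r0 := hrow 0
  have r1 := hrow 1
  have r2 := hrow 2
  have r3 := hrow 3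
  rw [Fin.sum_univ_four, hii] at r0 r1 r2 r3
  rw [hc 1 0] at r1
  rw [hc 2 0, hc 2 1] at r2
  rw [hc 3 0, hc 3 1, hc 3 2] at r3
  rw [Fin.sum_univ_four] at hl1
  obtain ⟨a, ha⟩ : ∃ a, a = ⟪w 0, w 1⟫ := ⟨_, rfl⟩
  obtain ⟨b, hb⟩ : ∃ b, b = ⟪w 0, w 2⟫ := ⟨_, rfl⟩
  obtain ⟨c, hcc⟩ : ∃ c, c = ⟪w 0, w 3⟫ := ⟨_, rfl⟩
  obtain ⟨d, hd⟩ : ∃ d, d = ⟪w 1, w 2⟫ := ⟨_, rfl⟩
  obtain ⟨e, he⟩ : ∃ e, e = ⟪w 1, w 3⟫ := ⟨_, rfl⟩
  obtain ⟨g, hg⟩ : ∃ g, g = ⟪w 2, w 3⟫ := ⟨_, rfl⟩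
  have E1 := hE 0 1
  have E2 := hE 0 2
  have E3 := hE 0 3
  have E4 := hE 1 2
  have E5 := hE 1 3
  have E6 := hE 2 3
  rw [← ha] at r0 r1 E1
  rw [← hb] at r0 r2 E2
  rw [← hcc] at r0 r3 E3
  rw [← hd] at r1 r2 E4
  rw [← he] at r1 r3 E5
  rw [← hg] at r2 r3 E6
  rw [← ha, ← hb, ← hcc, ← hd, ← he, ← hg] at hvol
  have hcr := cramer a b c d e g (l 0) (l 1) (l 2) (l 3) (1 - s) (by linarith) (by linarith)
    (by linarith) (by linarith) hl1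
  have hadj := adj_sum a b c d e g
  -- the sum of the defects
  have hdef : (1 - (2 - 2 * a)) + (1 - (2 - 2 * b)) + (1 - (2 - 2 * c)) + (1 - (2 - 2 * d)) +
      (1 - (2 - 2 * e)) + (1 - (2 - 2 * g)) ≤ Δ := by
    have hpair : (l 0 + l 1) * (2 * a - 1) + (l 0 + l 2) * (2 * b - 1) +
        (l 0 + l 3) * (2 * c - 1) + (l 1 + l 2) * (2 * d - 1) + (l 1 + l 3) * (2 * e - 1) +
        (l 2 + l 3) * (2 * g - 1) = 3 - 8 * s := by
      linear_combination 2 * r0 + 2 * r1 + 2 * r2 + 2 * r3 - 5 * hl1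
    have m1 : μ * (2 * a - 1) ≤ (l 0 + l 1) * (2 * a - 1) :=
      mul_le_mul_of_nonneg_right (hμ 0 1 (by decide)) (by linarith [E1.2])
    have m2 : μ * (2 * b - 1) ≤ (l 0 + l 2) * (2 * b - 1) :=
      mul_le_mul_of_nonneg_right (hμ 0 2 (by decide)) (by linarith [E2.2])
    have m3 : μ * (2 * c - 1) ≤ (l 0 + l 3) * (2 * c - 1) :=
      mul_le_mul_of_nonneg_right (hμ 0 3 (by decide)) (by linarith [E3.2])
    have m4 : μ * (2 * d - 1) ≤ (l 1 + l 2) * (2 * d - 1) :=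
      mul_le_mul_of_nonneg_right (hμ 1 2 (by decide)) (by linarith [E4.2])
    have m5 : μ * (2 * e - 1) ≤ (l 1 + l 3) * (2 * e - 1) :=
      mul_le_mul_of_nonneg_right (hμ 1 3 (by decide)) (by linarith [E5.2])
    have m6 : μ * (2 * g - 1) ≤ (l 2 + l 3) * (2 * g - 1) :=
      mul_le_mul_of_nonneg_right (hμ 2 3 (by decide)) (by linarith [E6.2])
    have m7 : μ * ((1 - (2 - 2 * a)) + (1 - (2 - 2 * b)) + (1 - (2 - 2 * c)) +
        (1 - (2 - 2 * d)) + (1 - (2 - 2 * e)) + (1 - (2 - 2 * g))) ≤ μ * Δ := by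
      linarith
    exact le_of_mul_le_mul_left m7 hμ0
  have hff := ff_ge _ _ _ _ _ _ Δ E1 E2 E3 E4 E5 E6 hΔ0 hΔ1 hdef
  have hs0 : 0 < s := by linarith
  have hdet : (1 - s) * ((1 - Δ) * (3 + Δ)) / (16 * s) ≤ gdet a b c d e g := by
    have h1 : s * (c0 a b c d e g + c1 a b c d e g + c2 a b c d e g + c3 a b c d e g) =
        ff ((2 - 2 * a) * (2 - 2 * g)) ((2 - 2 * b) * (2 - 2 * e)) ((2 - 2 * c) * (2 - 2 * d)) /
        16 := by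
      rw [← hadj, hcr]
      ring
    rw [div_le_iff₀ (by positivity), hcr]
    have h2 : (1 - s) * (c0 a b c d e g + c1 a b c d e g + c2 a b c d e g +
        c3 a b c d e g) * (16 * s) = (1 - s) * (16 * (s * (c0 a b c d e g + c1 a b c d e g +
        c2 a b c d e g + c3 a b c d e g))) := by ring
    rw [h2, h1]
    apply mul_le_mul_of_nonneg_left _ (by linarith)
    linarith
  -- assemble
  set X' : ℝ := 16 - (4 + 2 * (a + b + c + d + e + g)) with hX'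
  have hXX : X ≤ X' := by
    rw [hX, hX']
    linarith
  have hX0 : 0 ≤ X := by rw [hX]; linarith
  have hmono : 1 / 6 * √((1 - s) * ((1 - Δ) * (3 + Δ)) / (16 * s)) *
      (1 + X / 10 + 13 * X ^ 2 / 1680) ≤ 4 * (√(gdet a b c d e g) / 24 *
        (1 + X' / 10 + 13 * X' ^ 2 / 1680)) := by
    have h1 : √((1 - s) * ((1 - Δ) * (3 + Δ)) / (16 * s)) ≤ √(gdet a b c d e g) :=
      Real.sqrt_le_sqrt hdet
    have h2 : 1 + X / 10 + 13 * X ^ 2 / 1680 ≤ 1 + X' / 10 + 13 * X' ^ 2 / 1680 := by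
      have h3 : X ^ 2 ≤ X' ^ 2 := pow_le_pow_left₀ hX0 hXX 2
      linarith
    have h3 : 0 ≤ 1 + X / 10 + 13 * X ^ 2 / 1680 := by positivity
    have h4 := mul_le_mul h1 h2 h3 (Real.sqrt_nonneg _)
    linarith
  calc ENNReal.ofReal (1 / 6 * √((1 - s) * ((1 - Δ) * (3 + Δ)) / (16 * s)) *
      (1 + X / 10 + 13 * X ^ 2 / 1680))
      ≤ ENNReal.ofReal (4 * (√(gdet a b c d e g) / 24 *
        (1 + X' / 10 + 13 * X' ^ 2 / 1680))) := ENNReal.ofReal_le_ofReal hmono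
    _ = 4 * ENNReal.ofReal (√(gdet a b c d e g) / 24 *
        (1 + X' / 10 + 13 * X' ^ 2 / 1680)) := by
        rw [ENNReal.ofReal_mul (by norm_num)]
        congr 1
        norm_num
    _ ≤ 4 * volume (C ∩ ball (0 : H) 1) := by
        gcongr

end Pool.Agent.TH480.CWfour
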