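import Pool.Agent.TH378.CW.Base

/-!
# Jobs 1047 and 1048 (CW-J7c, CW-J7d, for MP_ba7b31_co): selection of a triangle
-/

set_option autoImplicit false

namespace Pool.Agent.TH480.CWsel

open MeasureTheory Metric Pool.Agent.TH378.CW
open scoped Real RealInnerProductSpace

/-- a unit vector orthogonal to three given vectors -/
theorem exists_normal (x y z : H) : ∃ n : H, ‖n‖ = 1 ∧ ⟪n, x⟫ = 0 ∧ ⟪n, y⟫ = 0 ∧ ⟪n, z⟫ = 0 := by
  let W : Submodule ℝ H := Submodule.span ℝ (Set.range ![x, y, z])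
  have h1 : Module.finrank ℝ W ≤ 3 := by
    have := finrank_range_le_card (R := ℝ) ![x, y, z]
    rw [Fintype.card_fin] at this
    exact this
  have h2 := W.finrank_add_finrank_orthogonal
  rw [Quaternion.finrank_eq_four] at h2
  have h3 : 0 < Module.finrank ℝ Wᗮ := by omega
  have h4 : Wᗮ ≠ ⊥ := by
    intro h
    rw [h, finrank_bot] at h3
    exact absurd h3 (lt_irrefl _)
  obtain ⟨v, hv, hv0⟩ := Submodule.exists_mem_ne_zero_of_ne_bot h4
  have hn : ‖v‖ ≠ 0 := norm_ne_zero_iff.2 hv0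
  have horth : ∀ u ∈ W, ⟪v, u⟫ = 0 := by
    intro u hu
    rw [real_inner_comm]
    exact Submodule.inner_right_of_mem_orthogonal hu hv
  have hmem : ∀ i, ![x, y, z] i ∈ W := fun i => Submodule.subset_span ⟨i, rfl⟩
  refine ⟨‖v‖⁻¹ • v, ?_, ?_, ?_, ?_⟩
  · rw [norm_smul, norm_inv, norm_norm, inv_mul_cancel₀ hn]
  · rw [real_inner_smul_left, horth x (hmem 0), mul_zero]
  · rw [real_inner_smul_left, horth y (hmem 1), mul_zero]
  · rw [real_inner_smul_left, horth z (hmem 2), mul_zero]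

/-- the Gram determinant of `a - b, a + b, c` -/
theorem gram3 (a b c : H) (s t p q : ℝ) (ha : ⟪a, a⟫ = s) (hb : ⟪b, b⟫ = s) (hc : ⟪c, c⟫ = s)
    (hab : ⟪a, b⟫ = -t) (hac : ⟪a, c⟫ = p) (hbc : ⟪b, c⟫ = q) :
    0 ≤ 8 * (s + t) * (s - t) * (2 * (s + t) * (s - t) * s - (s - t) * (p - q) ^ 2 -
      (s + t) * (p + q) ^ 2) := by
  have hba : ⟪b, a⟫ = -t := by rw [real_inner_comm]; exact hab
  have hca : ⟪c, a⟫ = p := by rw [real_inner_comm]; exact hac
  have hcb : ⟪c, b⟫ = q := by rw [real_inner_comm]; exact hbc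
  have h := real_inner_self_nonneg (x := (4 * (s + t) * (s - t)) • c -
    (2 * (s - t) * (p - q)) • (a - b) - (2 * (s + t) * (p + q)) • (a + b))
  simp only [inner_sub_left, inner_sub_right, inner_add_left, inner_add_right,
    real_inner_smul_left, real_inner_smul_right, ha, hb, hc, hab, hac, hbc, hba, hca, hcb] at h
  apply h.trans (le_of_eq _)
  ring

theorem norm_sub_sq_unit {x y : H} (hx : ‖x‖ = 1) (hy : ‖y‖ = 1) :
    ‖x - y‖ ^ 2 = 2 - 2 * ⟪x, y⟫ := by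
  rw [norm_sub_sq_real, hx, hy]
  ring

/-- selection of a triangle, small circumradius -/
theorem selC (k : ℕ) (hk : k ≤ 4) (w : Fin k → H) (l : Fin k → ℝ) (z : H) (s : ℝ)
    (hw : ∀ i, ‖w i‖ = 1 ∧ ⟪w i, z⟫ = ‖z‖ ^ 2) (hang : ∀ i j, 1 / 2 ≤ ⟪w i, w j⟫)
    (hl : ∀ i, 0 < l i) (hl1 : ∑ i, l i = 1) (hz : z = ∑ i, l i • w i)
    (hs : ‖z‖ ^ 2 = 1 - s) (hs1 : 1 / 4 < s) (hs2 : s ≤ 3 / 8) :
    ∃ (a : Fin 3 → H) (n : H) (D : ℝ), (∀ i, ∃ j, a i = w j) ∧ ‖n‖ = 1 ∧ ⟪n, z⟫ = 0 ∧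
      (∀ i, ⟪a i, n⟫ = D) ∧
      4 * s - 1 ≤ 2 * (‖a 0 - a 1‖ ^ 2 * ‖a 0 - a 2‖ ^ 2 + ‖a 0 - a 1‖ ^ 2 * ‖a 1 - a 2‖ ^ 2 +
      ‖a 0 - a 2‖ ^ 2 * ‖a 1 - a 2‖ ^ 2) - (‖a 0 - a 1‖ ^ 2) ^ 2 - (‖a 0 - a 2‖ ^ 2) ^ 2 -
      (‖a 1 - a 2‖ ^ 2) ^ 2 := by
  let N : Fin k → H := fun i => w i - z
  have hNN : ∀ i j, ⟪N i, N j⟫ = ⟪w i, w j⟫ - (1 - s) := by
    intro i j
    show ⟪w i - z, w j - z⟫ = _
    rw [inner_sub_left, inner_sub_right, inner_sub_right, real_inner_comm (w j) z, (hw i).2,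
      (hw j).2, real_inner_self_eq_norm_sq, hs]
    ring
  have hNs : ∀ i, ⟪N i, N i⟫ = s := by
    intro i
    rw [hNN, real_inner_self_eq_norm_sq, (hw i).1]
    ring
  have hNsum : ∑ i, l i • N i = 0 := by
    show ∑ i, l i • (w i - z) = 0
    simp_rw [smul_sub]
    rw [Finset.sum_sub_distrib, ← hz, ← Finset.sum_smul, hl1, one_smul, sub_self]
  have hNorth : ∀ x : H, ∑ j, l j * ⟪x, N j⟫ = 0 := by
    intro x
    have h1 : ⟪x, ∑ j, l j • N j⟫ = 0 := by rw [hNsum, inner_zero_right]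
    rw [inner_sum] at h1
    rw [← h1]
    apply Finset.sum_congr rfl
    intro j _
    rw [real_inner_smul_right]
  have hnonpos : ∀ x : H, ∃ j, ⟪x, N j⟫ ≤ 0 := by
    intro x
    by_contra hcon
    push Not at hcon
    have hne : (Finset.univ : Finset (Fin k)).Nonempty := by
      rw [Finset.univ_nonempty_iff]
      by_contra h
      rw [not_nonempty_iff] at h
      rw [Finset.univ_eq_empty, Finset.sum_empty] at hl1
      exact zero_ne_one hl1
    have h1 : 0 < ∑ j, l j * ⟪x, N j⟫ :=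
      Finset.sum_pos (fun j _ => mul_pos (hl j) (hcon j)) hne
    rw [hNorth] at h1
    exact lt_irrefl _ h1
  obtain ⟨i, -⟩ := hnonpos 0
  obtain ⟨j, hj⟩ := hnonpos (N i)
  obtain ⟨r, hr⟩ := hnonpos (N i + N j)
  obtain ⟨n, hn1, hn2, hn3, hn4⟩ := exists_normal z (w j - w i) (w r - w i)
  refine ⟨![w i, w j, w r], n, ⟪w i, n⟫, ?_, hn1, hn2, ?_, ?_⟩
  · intro x
    fin_cases x
    · exact ⟨i, rfl⟩
    · exact ⟨j, rfl⟩
    · exact ⟨r, rfl⟩
  · intro x
    rw [inner_sub_right, real_inner_comm, real_inner_comm (w i) n] at hn3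
    rw [inner_sub_right, real_inner_comm, real_inner_comm (w i) n] at hn4
    fin_cases x
    · rfl
    · show ⟪w j, n⟫ = ⟪w i, n⟫
      linarith
    · show ⟪w r, n⟫ = ⟪w i, n⟫
      linarith
  · show 4 * s - 1 ≤ 2 * (‖w i - w j‖ ^ 2 * ‖w i - w r‖ ^ 2 + ‖w i - w j‖ ^ 2 * ‖w j - w r‖ ^ 2 +
      ‖w i - w r‖ ^ 2 * ‖w j - w r‖ ^ 2) - (‖w i - w j‖ ^ 2) ^ 2 - (‖w i - w r‖ ^ 2) ^ 2 -
      (‖w j - w r‖ ^ 2) ^ 2
    rw [norm_sub_sq_unit (hw i).1 (hw j).1, norm_sub_sq_unit (hw i).1 (hw r).1,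
      norm_sub_sq_unit (hw j).1 (hw r).1]
    obtain ⟨t, ht⟩ : ∃ t, ⟪N i, N j⟫ = -t := ⟨-⟪N i, N j⟫, by ring⟩
    obtain ⟨p, hp⟩ : ∃ p, ⟪N i, N r⟫ = p := ⟨_, rfl⟩
    obtain ⟨q, hq⟩ : ∃ q, ⟪N j, N r⟫ = q := ⟨_, rfl⟩
    have hg := gram3 (N i) (N j) (N r) s t p q (hNs i) (hNs j) (hNs r) ht hp hq
    have e1 : ⟪w i, w j⟫ = -t + (1 - s) := by rw [← ht, hNN]; ring
    have e2 : ⟪w i, w r⟫ = p + (1 - s) := by rw [← hp, hNN]; ring
    have e3 : ⟪w j, w r⟫ = q + (1 - s) := by rw [← hq, hNN]; ring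
    rw [e1, e2, e3]
    have ht0 : 0 ≤ t := by
      rw [ht] at hj
      linarith
    have ht1 : t ≤ 1 / 2 - s := by
      have := hang i j
      rw [e1] at this
      linarith
    rw [inner_add_left, hp, hq] at hr
    have hB : 0 < s - t := by linarith
    have hA : 0 < s + t := by linarith
    have hg2 : 0 ≤ 2 * (s + t) * (s - t) * s - (s - t) * (p - q) ^ 2 - (s + t) * (p + q) ^ 2 := by
      by_contra hcon
      push Not at hcon
      have h8 : 0 < 8 * (s + t) * (s - t) := by positivity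
      have := mul_neg_of_pos_of_neg h8 hcon
      linarith
    -- the key estimate after multiplication by `s - t`
    have hkey : (s - t) * (4 * ((s + t) * (s - t))) ≤ (s - t) * (2 * ((2 - 2 * (-t + (1 - s))) *
        (2 - 2 * (p + (1 - s))) + (2 - 2 * (-t + (1 - s))) * (2 - 2 * (q + (1 - s))) +
        (2 - 2 * (p + (1 - s))) * (2 - 2 * (q + (1 - s)))) - (2 - 2 * (-t + (1 - s))) ^ 2 -
        (2 - 2 * (p + (1 - s))) ^ 2 - (2 - 2 * (q + (1 - s))) ^ 2) := by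
      have h1 : (s - t) * (2 * ((2 - 2 * (-t + (1 - s))) *
        (2 - 2 * (p + (1 - s))) + (2 - 2 * (-t + (1 - s))) * (2 - 2 * (q + (1 - s))) +
        (2 - 2 * (p + (1 - s))) * (2 - 2 * (q + (1 - s)))) - (2 - 2 * (-t + (1 - s))) ^ 2 -
        (2 - 2 * (p + (1 - s))) ^ 2 - (2 - 2 * (q + (1 - s))) ^ 2) -
        (s - t) * (4 * ((s + t) * (s - t))) =
        4 * (2 * (s + t) * (s - t) * s - (s - t) * (p - q) ^ 2 - (s + t) * (p + q) ^ 2) +
        4 * ((s + t) * (p + q) ^ 2) + 8 * ((s + t) * (s - t)) * (-(p + q)) := by ring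
      have h2 : 0 ≤ (s + t) * (p + q) ^ 2 := by positivity
      have h3 : 0 ≤ ((s + t) * (s - t)) * (-(p + q)) :=
        mul_nonneg (mul_pos hA hB).le (by linarith)
      linarith
    have hkey2 := le_of_mul_le_mul_left hkey hB
    apply le_trans _ hkey2
    nlinarith

theorem alg (l0 l1 l2 lm L m G01 G02 G12 g0 g1 g2 : ℝ) (hlm : 0 ≤ lm)
    (hsum : lm + (l0 + l1 + l2) = 1) (hm : 0 < m) (h0 : l0 ≤ m) (h1 : l1 ≤ m) (h2 : l2 ≤ m)
    (hG01 : 1 / 2 ≤ G01) (hG02 : 1 / 2 ≤ G02) (hG12 : 1 / 2 ≤ G12)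
    (hg0 : 1 / 2 ≤ g0) (hg1 : 1 / 2 ≤ g1) (hg2 : 1 / 2 ≤ g2)
    (b0 : lm * (2 * g0 - 1) + l1 * (2 * G01 - 1) + l2 * (2 * G02 - 1) = L - l0)
    (b1 : lm * (2 * g1 - 1) + l0 * (2 * G01 - 1) + l2 * (2 * G12 - 1) = L - l1)
    (b2 : lm * (2 * g2 - 1) + l0 * (2 * G02 - 1) + l1 * (2 * G12 - 1) = L - l2)
    (br : lm * (l0 * (2 * g0 - 1) + l1 * (2 * g1 - 1) + l2 * (2 * g2 - 1)) = lm * (L - lm)) :
    (3 - ((2 - 2 * G01) + (2 - 2 * G02) + (2 - 2 * G12))) * (1 - m - lm) ≤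
      3 * L - 1 + lm - lm * (L - lm) / m := by
  have h3 : lm * (L - lm) / m ≤ lm * ((2 * g0 - 1) + (2 * g1 - 1) + (2 * g2 - 1)) := by
    rw [div_le_iff₀ hm, ← br]
    have e0 : l0 * (2 * g0 - 1) ≤ m * (2 * g0 - 1) := mul_le_mul_of_nonneg_right h0 (by linarith)
    have e1 : l1 * (2 * g1 - 1) ≤ m * (2 * g1 - 1) := mul_le_mul_of_nonneg_right h1 (by linarith)
    have e2 : l2 * (2 * g2 - 1) ≤ m * (2 * g2 - 1) := mul_le_mul_of_nonneg_right h2 (by linarith)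
    have e3 := mul_le_mul_of_nonneg_left (add_le_add (add_le_add e0 e1) e2) hlm
    apply e3.trans (le_of_eq _)
    ring
  have e01 : (1 - m - lm) * (2 * G01 - 1) ≤ (l0 + l1) * (2 * G01 - 1) :=
    mul_le_mul_of_nonneg_right (by linarith) (by linarith)
  have e02 : (1 - m - lm) * (2 * G02 - 1) ≤ (l0 + l2) * (2 * G02 - 1) :=
    mul_le_mul_of_nonneg_right (by linarith) (by linarith)
  have e12 : (1 - m - lm) * (2 * G12 - 1) ≤ (l1 + l2) * (2 * G12 - 1) :=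
    mul_le_mul_of_nonneg_right (by linarith) (by linarith)
  linarith

/-- selection of a triangle, main case -/
theorem selB (k : ℕ) (hk : k ≤ 4) (w : Fin k → H) (l : Fin k → ℝ) (z : H) (s L : ℝ)
    (hw : ∀ i, ‖w i‖ = 1 ∧ ⟪w i, z⟫ = ‖z‖ ^ 2) (hang : ∀ i j, 1 / 2 ≤ ⟪w i, w j⟫)
    (hl : ∀ i, 0 < l i) (hl1 : ∑ i, l i = 1) (hz : z = ∑ i, l i • w i)
    (hs : ‖z‖ ^ 2 = 1 - s) (hs1 : 1 / 4 < s) (hL : L = 1 - 2 * s) :
    ∃ (a : Fin 3 → H) (n : H) (D lm m : ℝ), (∀ i, ∃ j, a i = w j) ∧ ‖n‖ = 1 ∧ ⟪n, z⟫ = 0 ∧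
      (∀ i, ⟪a i, n⟫ = D) ∧ 0 ≤ D ∧ 0 ≤ lm ∧ lm ≤ 1 / 4 ∧ m = min L (1 - 3 * lm) ∧
      (3 - (‖a 0 - a 1‖ ^ 2 + ‖a 0 - a 2‖ ^ 2 + ‖a 1 - a 2‖ ^ 2)) * (1 - m - lm) ≤
        3 * L - 1 + lm - lm * (L - lm) / m ∧
      ((k = 3 ∧ lm = 0 ∧ D = 0) ∨
        (k = 4 ∧ (∀ i, lm ≤ l i) ∧ 0 < lm ∧ ∃ j, lm * ⟪w j, n⟫ = -(1 - lm) * D)) := by
  have hrow : ∀ i, ∑ j, l j * ⟪w i, w j⟫ = 1 - s := by
    intro i
    rw [← hs, ← (hw i).2]
    conv_rhs => rw [hz]
    rw [inner_sum]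
    apply Finset.sum_congr rfl
    intro j _
    rw [real_inner_smul_right]
  have hii : ∀ i, ⟪w i, w i⟫ = 1 := by
    intro i
    rw [real_inner_self_eq_norm_sq, (hw i).1, one_pow]
  have hzn : ∀ n : H, ⟪z, n⟫ = ∑ j, l j * ⟪w j, n⟫ := by
    intro n
    conv_lhs => rw [hz]
    rw [sum_inner]
    apply Finset.sum_congr rfl
    intro j _
    rw [real_inner_smul_left]
  -- weights are at most L
  have hlL : ∀ i, l i ≤ L := by
    intro i
    have h1 : ∑ j, l j * (1 / 2 + if j = i then 1 / 2 else 0) ≤ ∑ j, l j * ⟪w i, w j⟫ := by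
      apply Finset.sum_le_sum
      intro j _
      apply mul_le_mul_of_nonneg_left _ (hl j).le
      split_ifs with h
      · subst h
        rw [hii]
        norm_num
      · rw [add_zero]
        exact hang i j
    rw [hrow] at h1
    simp_rw [mul_add] at h1
    rw [Finset.sum_add_distrib, ← Finset.sum_mul, hl1] at h1
    simp_rw [mul_ite, mul_zero] at h1
    rw [Finset.sum_ite_eq', if_pos (Finset.mem_univ i)] at h1
    linarith
  have hangc : ∀ i j, ⟪w i, w j⟫ = ⟪w j, w i⟫ := fun i j => real_inner_comm _ _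
  interval_cases k
  · simp at hl1
  · exfalso
    rw [Fin.sum_univ_one] at hl1
    have h1 := hrow 0
    rw [Fin.sum_univ_one, hl1, hii] at h1
    linarith
  · exfalso
    rw [Fin.sum_univ_two] at hl1
    have h0 := hrow 0
    have h1 := hrow 1
    rw [Fin.sum_univ_two, hii] at h0 h1
    rw [hangc 1 0] at h1
    have h2 := hang 0 1
    have h3 : (l 0 + l 1) * (1 + ⟪w 0, w 1⟫) = 2 * (1 - s) := by linarith
    rw [hl1] at h3
    linarith
  · -- three contact points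
    obtain ⟨n, hn1, hn2, hn3, hn4⟩ := exists_normal z (w 1 - w 0) (w 2 - w 0)
    rw [inner_sub_right, real_inner_comm, real_inner_comm (w 0) n] at hn3
    rw [inner_sub_right, real_inner_comm, real_inner_comm (w 0) n] at hn4
    have hD : ∀ i : Fin 3, ⟪w i, n⟫ = ⟪w 0, n⟫ := by
      intro i
      fin_cases i
      · rfl
      · show ⟪w 1, n⟫ = ⟪w 0, n⟫
        linarith
      · show ⟪w 2, n⟫ = ⟪w 0, n⟫
        linarith
    have hD0 : ⟪w 0, n⟫ = 0 := by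
      have h1 := hzn n
      rw [real_inner_comm, hn2] at h1
      rw [Finset.sum_congr rfl fun j _ => by rw [hD j], ← Finset.sum_mul, hl1, one_mul] at h1
      exact h1.symm
    have hLpos : 0 < L := lt_of_lt_of_le (hl 0) (hlL 0)
    have hm : L = min L (1 - 3 * 0) := by
      rw [min_eq_left]
      rw [hL]
      linarith
    refine ⟨w, n, 0, 0, L, fun i => ⟨i, rfl⟩, hn1, hn2, fun i => by rw [hD, hD0], le_refl _,
      le_refl _, by norm_num, hm, ?_, Or.inl ⟨rfl, rfl, rfl⟩⟩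
    rw [norm_sub_sq_unit (hw 0).1 (hw 1).1, norm_sub_sq_unit (hw 0).1 (hw 2).1,
      norm_sub_sq_unit (hw 1).1 (hw 2).1]
    rw [Fin.sum_univ_three] at hl1
    have r0 := hrow 0
    have r1 := hrow 1
    have r2 := hrow 2
    rw [Fin.sum_univ_three, hii] at r0 r1 r2
    rw [hangc 1 0] at r1
    rw [hangc 2 0, hangc 2 1] at r2
    apply alg (l 0) (l 1) (l 2) 0 L L _ _ _ (1 / 2) (1 / 2) (1 / 2) (le_refl _) (by linarith)
      hLpos (hlL 0) (hlL 1) (hlL 2) (hang 0 1) (hang 0 2) (hang 1 2) (le_refl _) (le_refl _)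
      (le_refl _) (by linarith) (by linarith) (by linarith) (by ring)
  · -- four contact points
    obtain ⟨r, -, hr⟩ := Finset.exists_min_image (Finset.univ : Finset (Fin 4)) l
      ⟨0, Finset.mem_univ 0⟩
    have hr' : ∀ i, l r ≤ l i := fun i => hr i (Finset.mem_univ i)
    have hsuma : ∀ g : Fin 4 → ℝ, ∑ j, g j = g r + (g (r.succAbove 0) + g (r.succAbove 1) +
        g (r.succAbove 2)) := by
      intro g
      rw [Fin.sum_univ_succAbove g r, Fin.sum_univ_three]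
    obtain ⟨n', hn1', hn2', hn3', hn4'⟩ := exists_normal z
      (w (r.succAbove 1) - w (r.succAbove 0)) (w (r.succAbove 2) - w (r.succAbove 0))
    -- choose the sign
    obtain ⟨n, hn1, hn2, hn3, hn4, hDpos⟩ : ∃ n : H, ‖n‖ = 1 ∧ ⟪n, z⟫ = 0 ∧
        ⟪n, w (r.succAbove 1) - w (r.succAbove 0)⟫ = 0 ∧
        ⟪n, w (r.succAbove 2) - w (r.succAbove 0)⟫ = 0 ∧ 0 ≤ ⟪w (r.succAbove 0), n⟫ := by
      rcases le_total 0 ⟪w (r.succAbove 0), n'⟫ with h | h
      · exact ⟨n', hn1', hn2', hn3', hn4', h⟩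
      · refine ⟨-n', by rw [norm_neg, hn1'], by rw [inner_neg_left, hn2', neg_zero],
          by rw [inner_neg_left, hn3', neg_zero], by rw [inner_neg_left, hn4', neg_zero], ?_⟩
        rw [inner_neg_right]
        linarith
    rw [inner_sub_right, real_inner_comm, real_inner_comm (w (r.succAbove 0)) n] at hn3
    rw [inner_sub_right, real_inner_comm, real_inner_comm (w (r.succAbove 0)) n] at hn4
    set D : ℝ := ⟪w (r.succAbove 0), n⟫ with hDdef
    have hD : ∀ i : Fin 3, ⟪w (r.succAbove i), n⟫ = D := by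
      intro i
      fin_cases i
      · rfl
      · show ⟪w (r.succAbove 1), n⟫ = D
        linarith
      · show ⟪w (r.succAbove 2), n⟫ = D
        linarith
    have hl1' := hsuma l
    rw [hl1] at hl1'
    have hlr4 : l r ≤ 1 / 4 := by
      have h0 := hr' (r.succAbove 0)
      have h1 := hr' (r.succAbove 1)
      have h2 := hr' (r.succAbove 2)
      linarith
    set m : ℝ := min L (1 - 3 * l r) with hmdef
    have hle : ∀ i : Fin 3, l (r.succAbove i) ≤ m := by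
      intro i
      apply le_min (hlL _)
      have h0 := hr' (r.succAbove 0)
      have h1 := hr' (r.succAbove 1)
      have h2 := hr' (r.succAbove 2)
      fin_cases i
      · show l (r.succAbove 0) ≤ _
        linarith
      · show l (r.succAbove 1) ≤ _
        linarith
      · show l (r.succAbove 2) ≤ _
        linarith
    have hmpos : 0 < m := lt_of_lt_of_le (hl (r.succAbove 0)) (hle 0)
    refine ⟨fun i => w (r.succAbove i), n, D, l r, m, fun i => ⟨_, rfl⟩, hn1, hn2, hD, hDpos,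
      (hl r).le, hlr4, rfl, ?_, Or.inr ⟨rfl, hr', hl r, r, ?_⟩⟩
    · rw [norm_sub_sq_unit (hw _).1 (hw _).1, norm_sub_sq_unit (hw _).1 (hw _).1,
        norm_sub_sq_unit (hw _).1 (hw _).1]
      have rr := hrow r
      have r0 := hrow (r.succAbove 0)
      have r1 := hrow (r.succAbove 1)
      have r2 := hrow (r.succAbove 2)
      rw [hsuma, hii] at rr r0 r1 r2
      rw [hangc (r.succAbove 1) (r.succAbove 0)] at r1
      rw [hangc (r.succAbove 2) (r.succAbove 0), hangc (r.succAbove 2) (r.succAbove 1)] at r2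
      rw [hangc r (r.succAbove 0), hangc r (r.succAbove 1), hangc r (r.succAbove 2)] at rr
      apply alg (l (r.succAbove 0)) (l (r.succAbove 1)) (l (r.succAbove 2)) (l r) L m _ _ _
        ⟪w (r.succAbove 0), w r⟫ ⟪w (r.succAbove 1), w r⟫ ⟪w (r.succAbove 2), w r⟫ (hl r).le
        (by linarith) hmpos (hle 0) (hle 1) (hle 2) (hang _ _) (hang _ _) (hang _ _)
        (hang _ _) (hang _ _) (hang _ _)
      · linarith
      · linarith
      · linarith
      · congr 1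
        linarith
    · have h1 := hzn n
      rw [real_inner_comm, hn2, hsuma, hD 0, hD 1, hD 2] at h1
      have h2 : l (r.succAbove 0) + l (r.succAbove 1) + l (r.succAbove 2) = 1 - l r := by linarith
      rw [← h2]
      linarith

end Pool.Agent.TH480.CWsel
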