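import Pool.Agent.TH477.PA.Hall
set_option autoImplicit false
open Finset Pool.Agent.TH477.PA

namespace Pool.Agent.TH480.J676

/-- The class of the index `t`. -/
def cl (p i0 t : ℕ) : ℕ :=
  if p = 1 then 0 else if (t - 2) % (p - 1) < i0 then (t - 2) % (p - 1) else (t - 2) % (p - 1) + 1

lemma cl_lt {p i0 : ℕ} (hi0 : i0 < p) (t : ℕ) : cl p i0 t < p := by
  unfold cl
  split_ifs with h1 h2
  · omega
  · omega
  · have : (t - 2) % (p - 1) < p - 1 := Nat.mod_lt _ (by omega)
    omega

lemma cl_ne {p i0 : ℕ} (t : ℕ) : p = 1 ∨ cl p i0 t ≠ i0 := by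
  by_cases h : p = 1
  · exact Or.inl h
  · right
    unfold cl
    rw [if_neg h]
    split_ifs with h2
    · omega
    · omega

lemma cl_inj {p i0 s t : ℕ} (hp : p ≠ 1) (h : cl p i0 s = cl p i0 t) :
    (s - 2) % (p - 1) = (t - 2) % (p - 1) := by
  unfold cl at h
  rw [if_neg hp, if_neg hp] at h
  split_ifs at h <;> omega

lemma mod_eq {p k s t : ℕ} (hp : 2 ≤ p) (hkp : k ≤ 2 * p) (hs : 2 ≤ s) (hst : s < t)
    (ht : t < k) (h : (s - 2) % (p - 1) = (t - 2) % (p - 1)) : t = s + (p - 1) := by
  have h1 : (p - 1) ∣ (t - 2) - (s - 2) := (Nat.modEq_iff_dvd' (by omega)).1 h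
  obtain ⟨c, hc⟩ := h1
  have hc0 : c ≠ 0 := by
    rintro rfl
    omega
  have hc1 : c < 2 := by
    by_contra h2
    have h3 : (p - 1) * 2 ≤ (p - 1) * c := Nat.mul_le_mul_left _ (by omega)
    omega
  have hc2 : c = 1 := by omega
  subst hc2
  omega

theorem J17_exact (k D r p : ℕ) (ℓ : ℝ) (hO : Opt k D r ℓ) (hp : IsType k D r ℓ p)
    (A : Finset (Fin r)) (hA : A.card = ct k D p) (γ : Fin r) (hγ : γ ∉ A) (i0 : ℕ) (hi0 : i0 < p) :
    ∃ J : Fin k → ℕ, (∀ t, J t < p) ∧ (∀ t : Fin k, 2 ≤ t.val → (p = 1 ∨ J t ≠ i0)) ∧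
      SCol (k.choose 2 + 1 - D) (fun i j : Fin k =>
        if i.val = 0 ∧ j.val = 1 then {γ}
        else if i.val ≤ 1 then (if p = 1 then A else univ)
        else if J i = J j then A else univ) := by
  classical
  have hk := hO.hk
  have hD := hO.hD
  have hDC := hO.hDC
  have hr := hO.hr
  obtain ⟨hp1, hpk, hpt, -⟩ := hp
  refine ⟨fun t => cl p i0 t.val, fun t => cl_lt hi0 _, fun t _ => cl_ne _, ?_⟩
  by_contra hcon
  -- the type of palettes
  set Q : Fin k → Fin k → Finset (Fin r) := fun i j : Fin k =>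
        if i.val = 0 ∧ j.val = 1 then {γ}
        else if i.val ≤ 1 then (if p = 1 then A else univ)
        else if cl p i0 i.val = cl p i0 j.val then A else univ with hQ
  -- nonempty `A` or no pairs in a common class
  have hAD : (∃ i j : Fin k, i < j ∧ 2 ≤ i.val ∧ cl p i0 i.val = cl p i0 j.val) ∨ p = 1 →
      1 ≤ A.card ∧ (p = 1 → A.card + D = k.choose 2) ∧ (p ≠ 1 → A.card + D = k - p) := by
    rintro (⟨i, j, hij, hi, hcl⟩ | h1)
    · by_cases h1 : p = 1
      · have : ct k D p = k.choose 2 - D := by unfold ct; rw [if_pos h1]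
        rw [hA, this]
        refine ⟨by omega, fun _ => by omega, fun h => absurd h1 h⟩
      · have h2 := mod_eq (p := p) (k := k) (by omega) (by omega) hi hij j.2 (cl_inj h1 hcl)
        have h3 : 2 ≤ ct k D p := by
          rcases hpt with h | ⟨_, h | h⟩
          · exact absurd h h1
          · have := j.2
            omega
          · exact h
        have h4 : ct k D p = k - p - D := by unfold ct; rw [if_neg h1]
        rw [hA]
        refine ⟨by omega, fun h => absurd h h1, fun _ => by omega⟩
    · have : ct k D p = k.choose 2 - D := by unfold ct; rw [if_pos h1]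
      rw [hA, this]
      refine ⟨by omega, fun _ => by omega, fun h => absurd h1 h⟩
  have hne : ∀ i j, i < j → (Q i j).Nonempty := by
    intro i j hij
    simp only [hQ]
    split_ifs with h1 h2 h3 h4
    · exact Finset.singleton_nonempty _
    · exact Finset.card_pos.1 (hAD (Or.inr h3)).1
    · exact ⟨γ, Finset.mem_univ _⟩
    · exact Finset.card_pos.1 (hAD (Or.inl ⟨i, j, hij, by omega, h4⟩)).1
    · exact ⟨γ, Finset.mem_univ _⟩
  obtain ⟨S, hS, hScard⟩ := exists_violator (s := k.choose 2 + 1 - D) (D := D) (by omega)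
    (by omega) hD Q hne hcon
  let p01 : Fin k × Fin k := (⟨0, by omega⟩, ⟨1, by omega⟩)
  have hSle : S.card ≤ k.choose 2 := by
    rw [← Pool.Agent.TH477.RB.card_pairs k]
    apply Finset.card_le_card
    intro q hq
    exact Finset.mem_filter.2 ⟨Finset.mem_univ _, hS q hq⟩
  have hS'le : (S.erase p01).card + 1 ≤ k.choose 2 := by
    have h1 : (S.erase p01).card ≤
        ((univ.filter (fun q : Fin k × Fin k => q.1 < q.2)).erase p01).card := by
      apply Finset.card_le_card
      intro q hq
      rw [Finset.mem_erase] at hq ⊢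
      exact ⟨hq.1, Finset.mem_filter.2 ⟨Finset.mem_univ _, hS q hq.2⟩⟩
    rw [Finset.card_erase_of_mem (Finset.mem_filter.2 ⟨Finset.mem_univ _, by
      simp [p01, Fin.lt_def]⟩), Pool.Agent.TH477.RB.card_pairs] at h1
    omega
  -- palettes of the other pairs
  have hQA : ∀ q ∈ S.erase p01, Q q.1 q.2 = A ∧
      (p = 1 ∨ (2 ≤ q.1.val ∧ cl p i0 q.1.val = cl p i0 q.2.val)) := by
    intro q hq
    rw [Finset.mem_erase] at hq
    have hlt := hS q hq.2
    have hn01 : ¬ (q.1.val = 0 ∧ q.2.val = 1) := by
      rintro ⟨h1, h2⟩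
      apply hq.1
      exact Prod.ext (Fin.ext h1) (Fin.ext h2)
    have hnu : Q q.1 q.2 ≠ univ ∨ A = univ := by
      by_contra h
      rw [not_or, not_not] at h
      have h1 : (univ : Finset (Fin r)).card ≤ (S.biUnion (fun q => Q q.1 q.2)).card := by
        apply Finset.card_le_card
        rw [← h.1]
        exact Finset.subset_biUnion_of_mem (fun q : Fin k × Fin k => Q q.1 q.2) hq.2
      rw [Finset.card_univ, Fintype.card_fin] at h1
      omega
    have hAu : A ≠ univ := fun h => hγ (h ▸ Finset.mem_univ _)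
    have hnu' : Q q.1 q.2 ≠ univ := hnu.resolve_right hAu
    simp only [hQ] at hnu' ⊢
    rw [if_neg hn01] at hnu' ⊢
    by_cases h1 : q.1.val ≤ 1
    · rw [if_pos h1] at hnu' ⊢
      by_cases h2 : p = 1
      · rw [if_pos h2]
        exact ⟨rfl, Or.inl h2⟩
      · rw [if_neg h2] at hnu'
        exact absurd rfl hnu'
    · rw [if_neg h1] at hnu' ⊢
      by_cases h2 : cl p i0 q.1.val = cl p i0 q.2.val
      · rw [if_pos h2]
        exact ⟨rfl, Or.inr ⟨by omega, h2⟩⟩
      · rw [if_neg h2] at hnu'
        exact absurd rfl hnu'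
  -- the bound
  have hbound : (S.erase p01).Nonempty → (S.erase p01).card < A.card + D := by
    rintro ⟨q0, hq0⟩
    by_cases h1 : p = 1
    · have := (hAD (Or.inr h1)).2.1 h1
      omega
    · have hq0' := (hQA q0 hq0).2.resolve_left h1
      have h2 := (hAD (Or.inl ⟨q0.1, q0.2, hS q0 (Finset.mem_of_mem_erase hq0), hq0'.1,
        hq0'.2⟩)).2.2 h1
      rw [h2]
      have h3 : (S.erase p01).card ≤ (Finset.Icc 2 (k - p)).card := by
        refine Finset.card_le_card_of_injOn (fun q => q.1.val) ?_ ?_
        · intro q hq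
          have hq' := (hQA q hq).2.resolve_left h1
          have h4 := mod_eq (p := p) (k := k) (by omega) (by omega) hq'.1
            (hS q (Finset.mem_of_mem_erase hq)) q.2.2 (cl_inj h1 hq'.2)
          have h5 := q.2.2
          simp only [Finset.coe_Icc, Set.mem_Icc]
          omega
        · intro q hq q' hq' heq
          have hq1 := (hQA q hq).2.resolve_left h1
          have hq2 := (hQA q' hq').2.resolve_left h1
          have h4 := mod_eq (p := p) (k := k) (by omega) (by omega) hq1.1
            (hS q (Finset.mem_of_mem_erase hq)) q.2.2 (cl_inj h1 hq1.2)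
          have h5 := mod_eq (p := p) (k := k) (by omega) (by omega) hq2.1
            (hS q' (Finset.mem_of_mem_erase hq')) q'.2.2 (cl_inj h1 hq2.2)
          simp only at heq
          exact Prod.ext (Fin.ext heq) (Fin.ext (by omega))
      rw [Nat.card_Icc] at h3
      have h4 := q0.2.2
      have h5 := mod_eq (p := p) (k := k) (by omega) (by omega) hq0'.1
            (hS q0 (Finset.mem_of_mem_erase hq0)) q0.2.2 (cl_inj h1 hq0'.2)
      omega
  have hγU : p01 ∈ S → γ ∈ S.biUnion (fun q => Q q.1 q.2) := by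
    intro h
    rw [Finset.mem_biUnion]
    refine ⟨p01, h, ?_⟩
    simp only [hQ, p01]
    rw [if_pos (by simp)]
    exact Finset.mem_singleton_self _
  rcases (S.erase p01).eq_empty_or_nonempty with hemp | hnonemp
  · by_cases h01 : p01 ∈ S
    · have h1 : S.card = 1 := by
        have := Finset.card_erase_of_mem h01
        rw [hemp, Finset.card_empty] at this
        have h2 := Finset.card_pos.2 ⟨p01, h01⟩
        omega
      have h2 := Finset.card_pos.2 ⟨γ, hγU h01⟩
      omega
    · rw [Finset.erase_eq_of_notMem h01] at hemp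
      rw [hemp] at hScard
      simp only [Finset.card_empty] at hScard
      omega
  · have hb := hbound hnonemp
    obtain ⟨q0, hq0⟩ := hnonemp
    have hAsub : A ⊆ S.biUnion (fun q => Q q.1 q.2) := by
      rw [← (hQA q0 hq0).1]
      exact Finset.subset_biUnion_of_mem (fun q : Fin k × Fin k => Q q.1 q.2)
        (Finset.mem_of_mem_erase hq0)
    by_cases h01 : p01 ∈ S
    · have h1 : (insert γ A).card ≤ (S.biUnion (fun q => Q q.1 q.2)).card := by
        apply Finset.card_le_card
        exact Finset.insert_subset (hγU h01) hAsub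
      rw [Finset.card_insert_of_notMem hγ] at h1
      have h2 := Finset.card_erase_of_mem h01
      have h3 := Finset.card_pos.2 ⟨p01, h01⟩
      omega
    · rw [Finset.erase_eq_of_notMem h01] at hb
      have h1 := Finset.card_le_card hAsub
      omega

end Pool.Agent.TH480.J676
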