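import Pool.Agent.TH281.DW.Stmts
import Pool.Agent.TH480.DWc

set_option autoImplicit false

namespace Pool.Agent.TH480.J2112

open Pool.Agent.TH281.DW Pool.Agent.TH480.DWc
open MeasureTheory Set

theorem taskL4 : TaskL4 := by
  intro y y1 g ν ω hy hy1 hg hω hp hp1
  have cy := cont_of_deriv hy
  have cy1 := cont_of_deriv hy1
  have hK : ∀ s, HasDerivAt (fun s => ip (y1 s) (y s))
      (ip (g s) (y s) - ν * ‖y s‖ ^ 2 + ‖y1 s‖ ^ 2) s := by
    intro s
    refine (hasDerivAt_ip (hy1 s) (hy s)).congr_deriv ?_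
    rw [← ip_self (y s), ← ip_self (y1 s), ip_add_left]
    have : -(ν : ℂ) * y s = ((-ν : ℝ) : ℂ) * y s := by push_cast; ring
    rw [this, ip_smul_left]
    ring
  have cip : Continuous (fun s => ip (g s) (y s)) := continuous_ip hg cy
  have h0 := int_zero hK (by fun_prop) (by rw [hp, hp1, ip_mul _ _ _ hω])
  have hre : (∫ s in (0 : ℝ)..1, g s * (starRingEnd ℂ) (y s)).re =
      ∫ s in (0 : ℝ)..1, ip (g s) (y s) := by
    rw [re_int (f := fun s => g s * (starRingEnd ℂ) (y s))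
      (hg.mul (Complex.continuous_conj.comp cy))]
    simp only [ip_eq]
  rw [hre]
  rw [intervalIntegral.integral_add, intervalIntegral.integral_sub,
    intervalIntegral.integral_const_mul] at h0
  · linarith
  all_goals exact Continuous.intervalIntegrable (by fun_prop) _ _

theorem taskL5 : TaskL5 := by
  intro y y1 g ν ω a θ θ1 θ2 hy hy1 hg hω hp hp1 ha hθ hθ1 hθ2 ha0 hθ0 hθ10
  have cy := cont_of_deriv hy
  have cy1 := cont_of_deriv hy1
  have ca : Continuous a := continuous_iff_continuousAt.2 fun s => (ha s).continuousAt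
  have cθ : Continuous θ := continuous_iff_continuousAt.2 fun s => (hθ s).continuousAt
  have cθ1 : Continuous θ1 := continuous_iff_continuousAt.2 fun s => (hθ1 s).continuousAt
  have cip : Continuous (fun s => ip (g s) (y s)) := continuous_ip hg cy
  have cip1 : Continuous (fun s => ip (g s) (y1 s)) := continuous_ip hg cy1
  have cK : Continuous (fun s => ip (y1 s) (y s)) := continuous_ip cy1 cy
  have hK : ∀ s, HasDerivAt (fun s => ip (y1 s) (y s))
      (ip (g s) (y s) - ν * ‖y s‖ ^ 2 + ‖y1 s‖ ^ 2) s := by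
    intro s
    refine (hasDerivAt_ip (hy1 s) (hy s)).congr_deriv ?_
    rw [← ip_self (y s), ← ip_self (y1 s), ip_add_left]
    have : -(ν : ℂ) * y s = ((-ν : ℝ) : ℂ) * y s := by push_cast; ring
    rw [this, ip_smul_left]
    ring
  have hN : ∀ s, HasDerivAt (fun s => ‖y s‖ ^ 2) (2 * ip (y1 s) (y s)) s := by
    intro s
    have h := hasDerivAt_ip (hy s) (hy s)
    simp only [ip_self] at h
    refine h.congr_deriv ?_
    rw [ip_comm (y s) (y1 s)]
    ring
  have hN1 : ∀ s, HasDerivAt (fun s => ‖y1 s‖ ^ 2)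
      (2 * ip (g s) (y1 s) - 2 * ν * ip (y1 s) (y s)) s := by
    intro s
    have h := hasDerivAt_ip (hy1 s) (hy1 s)
    simp only [ip_self] at h
    refine h.congr_deriv ?_
    rw [ip_comm (y1 s) (-(ν : ℂ) * y s + g s), ip_add_left]
    have : -(ν : ℂ) * y s = ((-ν : ℝ) : ℂ) * y s := by push_cast; ring
    rw [this, ip_smul_left, ip_comm (y s) (y1 s)]
    ring
  have n1 : ‖y 1‖ = ‖y 0‖ := by rw [hp, norm_mul, hω, one_mul]
  have n2 : ‖y1 1‖ = ‖y1 0‖ := by rw [hp1, norm_mul, hω, one_mul]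
  have n3 : ip (y1 1) (y 1) = ip (y1 0) (y 0) := by rw [hp, hp1, ip_mul _ _ _ hω]
  -- first identity
  have A : ∀ s, HasDerivAt (fun s => a s * (‖y1 s‖ ^ 2 + ν * ‖y s‖ ^ 2))
      ((1 - θ s) * (‖y1 s‖ ^ 2 + ν * ‖y s‖ ^ 2) + 2 * (a s * ip (g s) (y1 s))) s := by
    intro s
    refine ((ha s).mul ((hN1 s).add ((hN s).const_mul ν))).congr_deriv ?_
    simp only [Pi.add_apply]
    ring
  have A0 := int_zero A (by fun_prop) (by rw [ha0, n1, n2])
  -- second identity
  have B : ∀ s, HasDerivAt (fun s => θ s * ip (y1 s) (y s) - (1 / 2) * (θ1 s * ‖y s‖ ^ 2))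
      (θ s * ip (g s) (y s) - ν * (θ s * ‖y s‖ ^ 2) + θ s * ‖y1 s‖ ^ 2 -
        (1 / 2) * (θ2 s * ‖y s‖ ^ 2)) s := by
    intro s
    refine (((hθ s).mul (hK s)).sub (((hθ1 s).mul (hN s)).const_mul (1 / 2))).congr_deriv ?_
    ring
  have B0 := int_zero B (by fun_prop) (by rw [hθ0, hθ10, n1, n3])
  have hre : (∫ s in (0 : ℝ)..1, g s * (starRingEnd ℂ) ((θ s : ℂ) * y s)).re =
      ∫ s in (0 : ℝ)..1, θ s * ip (g s) (y s) := by
    rw [re_int (f := fun s => g s * (starRingEnd ℂ) ((θ s : ℂ) * y s))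
      (hg.mul (Complex.continuous_conj.comp ((Complex.continuous_ofReal.comp cθ).mul cy)))]
    simp only [ip_eq, ip_smul_right]
  have hre2 : (∫ s in (0 : ℝ)..1, g s * (starRingEnd ℂ) ((a s : ℂ) * y1 s)).re =
      ∫ s in (0 : ℝ)..1, a s * ip (g s) (y1 s) := by
    rw [re_int (f := fun s => g s * (starRingEnd ℂ) ((a s : ℂ) * y1 s))
      (hg.mul (Complex.continuous_conj.comp ((Complex.continuous_ofReal.comp ca).mul cy1)))]
    simp only [ip_eq, ip_smul_right]
  rw [hre, hre2]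
  have A1 : ∫ s in (0 : ℝ)..1, ((1 - θ s) * (‖y1 s‖ ^ 2 + ν * ‖y s‖ ^ 2) +
      2 * (a s * ip (g s) (y1 s))) =
      (∫ s in (0 : ℝ)..1, (‖y1 s‖ ^ 2 + ν * ‖y s‖ ^ 2)) -
      ((∫ s in (0 : ℝ)..1, θ s * ‖y1 s‖ ^ 2) + ν * ∫ s in (0 : ℝ)..1, θ s * ‖y s‖ ^ 2) +
      2 * ∫ s in (0 : ℝ)..1, a s * ip (g s) (y1 s) := by
    rw [← intervalIntegral.integral_const_mul, ← intervalIntegral.integral_const_mul,
      ← intervalIntegral.integral_add, ← intervalIntegral.integral_sub,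
      ← intervalIntegral.integral_add]
    · refine intervalIntegral.integral_congr fun s _ => ?_
      ring
    all_goals exact Continuous.intervalIntegrable (by fun_prop) _ _
  have B1 : ∫ s in (0 : ℝ)..1, (θ s * ip (g s) (y s) - ν * (θ s * ‖y s‖ ^ 2) +
      θ s * ‖y1 s‖ ^ 2 - (1 / 2) * (θ2 s * ‖y s‖ ^ 2)) =
      (∫ s in (0 : ℝ)..1, θ s * ip (g s) (y s)) - ν * (∫ s in (0 : ℝ)..1, θ s * ‖y s‖ ^ 2) +
      (∫ s in (0 : ℝ)..1, θ s * ‖y1 s‖ ^ 2) -
      (1 / 2) * ∫ s in (0 : ℝ)..1, θ2 s * ‖y s‖ ^ 2 := by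
    rw [← intervalIntegral.integral_const_mul, ← intervalIntegral.integral_const_mul,
      ← intervalIntegral.integral_sub, ← intervalIntegral.integral_add,
      ← intervalIntegral.integral_sub]
    all_goals exact Continuous.intervalIntegrable (by fun_prop) _ _
  rw [A1] at A0
  rw [B1] at B0
  linarith

end Pool.Agent.TH480.J2112
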