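import Pool.Agent.TH492.Defs

set_option autoImplicit false
set_option linter.unusedSectionVars false

namespace Pool.Agent.TH480.J341

open Pool.Agent.TH492 Finset

universe u
variable {V : Type u} [Fintype V] [DecidableEq V]

open Classical in
/-- A1 -/
theorem selection {E α : Type*} [Fintype E] [DecidableEq E] [DecidableEq α]
    (Z : E → Finset α) (bad : E → α → Prop) (conf : E → α → E → α → Prop)
    (hsymm : ∀ e w e' w', conf e w e' w' → conf e' w' e w)
    (a δ N θ : ℕ) (ha : 0 < a) (hN : Fintype.card E ≤ N)
    (h0 : ∀ e, 16 * δ * ((Z e).filter (fun w => bad e w)).card ≤ a)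
    (h1 : ∀ e e', e ≠ e' →
      (((Z e) ×ˢ (Z e')).filter (fun x : α × α => conf e x.1 e' x.2)).card ≤ θ)
    (h2 : ∀ e, a ≤ 2 * δ * (Z e).card)
    (h3 : 16 * δ * (N * θ * (16 * δ * N)) ≤ a * a) :
    ∃ ω : E → α, (∀ e, ω e ∈ Z e ∧ ¬ bad e (ω e)) ∧
      ∀ e e', e ≠ e' → ¬ conf e (ω e) e' (ω e') := by
  set hh : E → E → α → ℕ := fun e e' w => ((Z e').filter (fun w' => conf e w e' w')).card with hhh
  set light : E → α → Prop := fun e w => ∀ e', e' ≠ e → 16 * δ * N * hh e e' w ≤ a with hlight
  -- non-light elements
  have hnl : ∀ e, 16 * δ * ((Z e).filter (fun w => ¬ light e w)).card ≤ a := by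
    intro e
    have hS : ∀ e' ∈ (univ : Finset E).erase e,
        ((Z e).filter (fun w => a < 16 * δ * N * hh e e' w)).card * a ≤ 16 * δ * N * θ := by
      intro e' he'
      have hne : e ≠ e' := (Finset.ne_of_mem_erase he').symm
      have hsum : ∑ w ∈ Z e, hh e e' w ≤ θ := by
        refine le_trans (le_of_eq ?_) (h1 e e' hne)
        rw [Finset.card_filter, Finset.sum_product]
        refine Finset.sum_congr rfl fun w _ => ?_
        rw [hhh]
        simp only [Finset.card_filter]
      calc ((Z e).filter (fun w => a < 16 * δ * N * hh e e' w)).card * a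
          = ∑ w ∈ (Z e).filter (fun w => a < 16 * δ * N * hh e e' w), a := by
            rw [Finset.sum_const, smul_eq_mul]
        _ ≤ ∑ w ∈ (Z e).filter (fun w => a < 16 * δ * N * hh e e' w), 16 * δ * N * hh e e' w :=
            Finset.sum_le_sum fun w hw => (Finset.mem_filter.1 hw).2.le
        _ ≤ ∑ w ∈ Z e, 16 * δ * N * hh e e' w :=
            Finset.sum_le_sum_of_subset (Finset.filter_subset _ _)
        _ = 16 * δ * N * ∑ w ∈ Z e, hh e e' w := by rw [Finset.mul_sum]
        _ ≤ 16 * δ * N * θ := Nat.mul_le_mul_left _ hsum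
    have hsub : (Z e).filter (fun w => ¬ light e w) ⊆
        ((univ : Finset E).erase e).biUnion
          (fun e' => (Z e).filter (fun w => a < 16 * δ * N * hh e e' w)) := by
      intro w hw
      obtain ⟨hwZ, hwl⟩ := Finset.mem_filter.1 hw
      simp only [hlight] at hwl
      push Not at hwl
      obtain ⟨e', he', hlt⟩ := hwl
      exact Finset.mem_biUnion.2 ⟨e', Finset.mem_erase.2 ⟨he', mem_univ _⟩,
        Finset.mem_filter.2 ⟨hwZ, hlt⟩⟩
    have hcard : ((Z e).filter (fun w => ¬ light e w)).card * a ≤ N * (16 * δ * N * θ) := by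
      calc ((Z e).filter (fun w => ¬ light e w)).card * a
          ≤ (∑ e' ∈ (univ : Finset E).erase e,
            ((Z e).filter (fun w => a < 16 * δ * N * hh e e' w)).card) * a :=
            Nat.mul_le_mul_right _ ((Finset.card_le_card hsub).trans Finset.card_biUnion_le)
        _ = ∑ e' ∈ (univ : Finset E).erase e,
            ((Z e).filter (fun w => a < 16 * δ * N * hh e e' w)).card * a := by
            rw [Finset.sum_mul]
        _ ≤ ∑ _e' ∈ (univ : Finset E).erase e, 16 * δ * N * θ := Finset.sum_le_sum hS
        _ = ((univ : Finset E).erase e).card * (16 * δ * N * θ) := by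
            rw [Finset.sum_const, smul_eq_mul]
        _ ≤ N * (16 * δ * N * θ) := by
            refine Nat.mul_le_mul_right _ ((Finset.card_le_univ _).trans hN)
    have h4 : (16 * δ * ((Z e).filter (fun w => ¬ light e w)).card) * a ≤ a * a := by
      calc (16 * δ * ((Z e).filter (fun w => ¬ light e w)).card) * a
          = 16 * δ * (((Z e).filter (fun w => ¬ light e w)).card * a) := by ring
        _ ≤ 16 * δ * (N * (16 * δ * N * θ)) := Nat.mul_le_mul_left _ hcard
        _ = 16 * δ * (N * θ * (16 * δ * N)) := by ring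
        _ ≤ a * a := h3
    exact Nat.le_of_mul_le_mul_right h4 ha
  have hZne : ∀ e, (Z e).Nonempty := by
    intro e
    rw [← Finset.card_pos]
    by_contra hneg
    have h5 : (Z e).card = 0 := by omega
    have := h2 e
    rw [h5, mul_zero] at this
    omega
  -- induction
  have main : ∀ E0 : Finset E, ∃ ω : E → α, ∀ e ∈ E0, ω e ∈ Z e ∧ ¬ bad e (ω e) ∧
      light e (ω e) ∧ ∀ e' ∈ E0, e ≠ e' → ¬ conf e (ω e) e' (ω e') := by
    intro E0
    induction E0 using Finset.induction_on with
    | empty =>
      choose ω0 _ using hZne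
      exact ⟨ω0, by simp⟩
    | insert e0 E0 he0 ih =>
      obtain ⟨ω, hω⟩ := ih
      have hNpos : 0 < N := lt_of_lt_of_le (Fintype.card_pos_iff.2 ⟨e0⟩) hN
      set X3 : Finset α := E0.biUnion (fun e => (Z e0).filter (fun w => conf e (ω e) e0 w))
        with hX3
      have hX3c : 16 * δ * X3.card ≤ a := by
        have h5 : N * (16 * δ * X3.card) ≤ N * a := by
          calc N * (16 * δ * X3.card) ≤ N * (16 * δ *
                ∑ e ∈ E0, ((Z e0).filter (fun w => conf e (ω e) e0 w)).card) :=
                Nat.mul_le_mul_left _ (Nat.mul_le_mul_left _ Finset.card_biUnion_le)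
            _ = ∑ e ∈ E0, 16 * δ * N * ((Z e0).filter (fun w => conf e (ω e) e0 w)).card := by
                rw [Finset.mul_sum, Finset.mul_sum]
                refine Finset.sum_congr rfl fun e _ => ?_
                ring
            _ ≤ ∑ _e ∈ E0, a := Finset.sum_le_sum fun e he => by
                have hne : e0 ≠ e := fun h => he0 (h ▸ he)
                exact (hω e he).2.2.1 e0 hne
            _ = E0.card * a := by rw [Finset.sum_const, smul_eq_mul]
            _ ≤ N * a := Nat.mul_le_mul_right _ ((Finset.card_le_univ _).trans hN)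
        exact Nat.le_of_mul_le_mul_left h5 hNpos
      set X := (Z e0).filter (fun w => bad e0 w) ∪ ((Z e0).filter (fun w => ¬ light e0 w) ∪ X3)
        with hX
      have hXc : 16 * δ * X.card ≤ 3 * a := by
        have h5 : X.card ≤ ((Z e0).filter (fun w => bad e0 w)).card +
            (((Z e0).filter (fun w => ¬ light e0 w)).card + X3.card) :=
          (Finset.card_union_le _ _).trans (Nat.add_le_add_left (Finset.card_union_le _ _) _)
        calc 16 * δ * X.card ≤ 16 * δ * (((Z e0).filter (fun w => bad e0 w)).card +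
            (((Z e0).filter (fun w => ¬ light e0 w)).card + X3.card)) := Nat.mul_le_mul_left _ h5
          _ = 16 * δ * ((Z e0).filter (fun w => bad e0 w)).card +
            (16 * δ * ((Z e0).filter (fun w => ¬ light e0 w)).card + 16 * δ * X3.card) := by ring
          _ ≤ a + (a + a) := Nat.add_le_add (h0 e0) (Nat.add_le_add (hnl e0) hX3c)
          _ = 3 * a := by ring
      obtain ⟨w, hwZ, hwX⟩ : ∃ w ∈ Z e0, w ∉ X := by
        by_contra hneg
        push Not at hneg
        have h5 : (Z e0).card ≤ X.card := Finset.card_le_card hneg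
        have h6 := h2 e0
        have h7 : 8 * a ≤ 3 * a := by
          calc 8 * a ≤ 8 * (2 * δ * (Z e0).card) := Nat.mul_le_mul_left _ h6
            _ = 16 * δ * (Z e0).card := by ring
            _ ≤ 16 * δ * X.card := Nat.mul_le_mul_left _ h5
            _ ≤ 3 * a := hXc
        omega
      have hw1 : ¬ bad e0 w := fun h => hwX (Finset.mem_union_left _
        (Finset.mem_filter.2 ⟨hwZ, h⟩))
      have hw2 : light e0 w := by
        by_contra h
        exact hwX (Finset.mem_union_right _ (Finset.mem_union_left _
          (Finset.mem_filter.2 ⟨hwZ, h⟩)))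
      have hw3 : ∀ e ∈ E0, ¬ conf e (ω e) e0 w := fun e he h =>
        hwX (Finset.mem_union_right _ (Finset.mem_union_right _
          (Finset.mem_biUnion.2 ⟨e, he, Finset.mem_filter.2 ⟨hwZ, h⟩⟩)))
      refine ⟨Function.update ω e0 w, ?_⟩
      intro e he
      rcases Finset.mem_insert.1 he with rfl | heE
      · rw [Function.update_self]
        refine ⟨hwZ, hw1, hw2, fun e' he' hne => ?_⟩
        rcases Finset.mem_insert.1 he' with rfl | heE'
        · exact absurd rfl hne
        · rw [Function.update_of_ne hne.symm]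
          exact fun h => hw3 e' heE' (hsymm _ _ _ _ h)
      · have hne0 : e ≠ e0 := fun h => he0 (h ▸ heE)
        rw [Function.update_of_ne hne0]
        obtain ⟨g1, g2, g3, g4⟩ := hω e heE
        refine ⟨g1, g2, g3, fun e' he' hne => ?_⟩
        rcases Finset.mem_insert.1 he' with rfl | heE'
        · rw [Function.update_self]
          exact hw3 e heE
        · have hne0' : e' ≠ e0 := fun h => he0 (h ▸ heE')
          rw [Function.update_of_ne hne0']
          exact g4 e' heE' hne
  obtain ⟨ω, hω⟩ := main univ
  exact ⟨ω, fun e => ⟨(hω e (mem_univ _)).1, (hω e (mem_univ _)).2.1⟩,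
    fun e e' hne => (hω e (mem_univ _)).2.2.2 e' (mem_univ _) hne⟩

end Pool.Agent.TH480.J341
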