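import Pool.Agent.TH492.Defs

set_option autoImplicit false
set_option linter.unusedSectionVars false

namespace Pool.Agent.TH480.J342

open Pool.Agent.TH492 Finset

universe u
variable {V : Type u} [Fintype V] [DecidableEq V]

/-- a star: centre `c`, targets `A ⊆ W`, for every target `w` the vertex set `P w` of a walk of
length `< R` from `c` to a neighbour of `w` avoiding `L`. -/
structure IsStar (G : SimpleGraph V) (L W : Finset V) (R : ℕ) (c : V) (A : Finset V)
    (P : V → Finset V) : Prop where
  sub : A ⊆ W
  path : ∀ w ∈ A, ∃ (z : V) (q : G.Walk c z), q.length < R ∧ (∀ x, x ∈ P w ↔ x ∈ q.support) ∧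
    (∀ x ∈ q.support, x ∉ L) ∧ G.Adj z w

theorem IsStar.card_path {G : SimpleGraph V} {L W : Finset V} {R : ℕ} {c : V} {A : Finset V}
    {P : V → Finset V} (h : IsStar G L W R c A P) {w : V} (hw : w ∈ A) : (P w).card ≤ R := by
  obtain ⟨z, q, hq, hP, -, -⟩ := h.path w hw
  have h1 : P w = q.support.toFinset := by
    ext x; rw [hP, List.mem_toFinset]
  rw [h1]
  refine (List.toFinset_card_le _).trans ?_
  rw [SimpleGraph.Walk.length_support]
  omega

theorem IsStar.center {G : SimpleGraph V} {L W : Finset V} {R : ℕ} {c : V} {A : Finset V}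
    {P : V → Finset V} (h : IsStar G L W R c A P) {w : V} (hw : w ∈ A) : c ∈ P w := by
  obtain ⟨z, q, hq, hP, -, -⟩ := h.path w hw
  rw [hP]
  exact q.start_mem_support

theorem IsStar.sum_le {G : SimpleGraph V} {L W : Finset V} {R : ℕ} {c : V} {A : Finset V}
    {P : V → Finset V} (h : IsStar G L W R c A P) :
    ∑ x : V, (A.filter (fun w => x ∈ P w)).card ≤ W.card * R := by
  have h1 : ∑ x : V, (A.filter (fun w => x ∈ P w)).card = ∑ w ∈ A, (P w).card := by
    simp only [Finset.card_filter]
    rw [Finset.sum_comm]
    refine Finset.sum_congr rfl fun w _ => ?_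
    rw [← Finset.card_filter]
    congr 1
    ext x
    simp
  rw [h1]
  calc ∑ w ∈ A, (P w).card ≤ ∑ _w ∈ A, R := Finset.sum_le_sum fun w hw => h.card_path hw
    _ = A.card * R := by rw [Finset.sum_const, smul_eq_mul]
    _ ≤ W.card * R := Nat.mul_le_mul_right _ (Finset.card_le_card h.sub)

/-- A2 -/
theorem greedy_stars {G : SimpleGraph V} {R D n K : ℕ} (hR : 1 ≤ R) (hD : 1 ≤ D)
    (hK : n * R * D ≤ K) (L W C : Finset V) (hC : Disjoint C L) (hW : 0 < W.card)
    (hno : ∀ X : Finset V, X.card ≤ K → (∀ x ∈ X, ∃ c ∈ C, Rch G L R c x) →
      ∃ c ∈ C, c ∉ X ∧ W.card ≤ D * (Sight G (L ∪ X) R c ∩ W).card) :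
    ∃ (c : Fin n → V) (A : Fin n → Finset V) (P : Fin n → V → Finset V),
      (∀ i, IsStar G L W R (c i) (A i) (P i) ∧ W.card ≤ D * (A i).card) ∧
      (∀ i j, i ≠ j → c i ≠ c j) ∧
      ∀ i j, i ≠ j → K * ∑ x : V, ((A i).filter (fun w => x ∈ P i w)).card *
        ((A j).filter (fun w => x ∈ P j w)).card ≤ n * R ^ 2 * W.card ^ 2 := by
  classical
  set a := W.card with ha
  have main : ∀ t : ℕ, t ≤ n → ∃ (c : ℕ → V) (A : ℕ → Finset V) (P : ℕ → V → Finset V),
      (∀ i < t, c i ∈ C ∧ IsStar G L W R (c i) (A i) (P i) ∧ a ≤ D * (A i).card) ∧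
      (∀ i j, i < j → j < t → c i ≠ c j) ∧
      ∀ i j, i < j → j < t → K * ∑ x : V, ((A i).filter (fun w => x ∈ P i w)).card *
        ((A j).filter (fun w => x ∈ P j w)).card ≤ n * R ^ 2 * a ^ 2 := by
    intro t
    induction t with
    | zero =>
      intro _
      obtain ⟨w, _⟩ := Finset.card_pos.1 hW
      exact ⟨fun _ => w, fun _ => ∅, fun _ _ => ∅, by simp, by simp, by simp⟩
    | succ t ih =>
      intro ht
      obtain ⟨c, A, P, hst, hcne, hov⟩ := ih (by omega)
      set ℓ : ℕ → V → ℕ := fun i x => ((A i).filter (fun w => x ∈ P i w)).card with hℓ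
      set Load : V → ℕ := fun x => ∑ i ∈ range t, ℓ i x with hLoad
      set X : Finset V := univ.filter (fun x => 0 < Load x ∧ t * R * a ≤ K * Load x) with hX
      have hsumLoad : ∑ x : V, Load x ≤ t * (a * R) := by
        simp only [hLoad]
        rw [Finset.sum_comm]
        calc ∑ i ∈ range t, ∑ x : V, ℓ i x ≤ ∑ _i ∈ range t, a * R :=
              Finset.sum_le_sum fun i hi => (hst i (Finset.mem_range.1 hi)).2.1.sum_le
          _ = t * (a * R) := by rw [Finset.sum_const, smul_eq_mul, Finset.card_range]
      have hXK : X.card ≤ K := by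
        rcases Nat.eq_zero_or_pos t with h0 | h0
        · have : X = ∅ := by
            rw [hX, Finset.filter_eq_empty_iff]
            intro x _ hx
            have : Load x = 0 := by simp [hLoad, h0]
            omega
          rw [this]; simp
        · have hpos : 0 < t * R * a := by positivity
          have h1 : X.card * (t * R * a) ≤ K * (t * R * a) := by
            calc X.card * (t * R * a) = ∑ _x ∈ X, t * R * a := by
                  rw [Finset.sum_const, smul_eq_mul]
              _ ≤ ∑ x ∈ X, K * Load x :=
                  Finset.sum_le_sum fun x hx => (Finset.mem_filter.1 hx).2.2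
              _ ≤ ∑ x : V, K * Load x := Finset.sum_le_sum_of_subset (Finset.subset_univ _)
              _ = K * ∑ x : V, Load x := by rw [Finset.mul_sum]
              _ ≤ K * (t * (a * R)) := Nat.mul_le_mul_left _ hsumLoad
              _ = K * (t * R * a) := by ring
          exact Nat.le_of_mul_le_mul_right h1 hpos
      have hXr : ∀ x ∈ X, ∃ c ∈ C, Rch G L R c x := by
        intro x hx
        have h1 : 0 < Load x := (Finset.mem_filter.1 hx).2.1
        obtain ⟨i, hi, hi0⟩ : ∃ i ∈ range t, 0 < ℓ i x := by
          by_contra hneg
          push Not at hneg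
          have : Load x = 0 := Finset.sum_eq_zero fun i hi => by
            have := hneg i hi; omega
          omega
        obtain ⟨w, hw⟩ := Finset.card_pos.1 hi0
        obtain ⟨hwA, hwP⟩ := Finset.mem_filter.1 hw
        obtain ⟨hcC, hstar, _⟩ := hst i (Finset.mem_range.1 hi)
        obtain ⟨z, q, hq, hPq, hqL, _⟩ := hstar.path w hwA
        exact ⟨c i, hcC, (rch_of_mem_support hqL ((hPq x).1 hwP)).mono (subset_refl _) hq.le⟩
      obtain ⟨c', hc'C, hc'X, hc'a⟩ := hno X hXK hXr
      set A' := Sight G (L ∪ X) R c' ∩ W with hA'
      have hPex : ∀ w, ∃ Pw : Finset V, w ∈ A' → ∃ (z : V) (q : G.Walk c' z), q.length < R ∧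
          (∀ x, x ∈ Pw ↔ x ∈ q.support) ∧ (∀ x ∈ q.support, x ∉ L ∪ X) ∧ G.Adj z w := by
        intro w
        by_cases hw : w ∈ A'
        · obtain ⟨_, j, hj, z, ⟨q, hq, hqs⟩, hadj⟩ := mem_sight.1 (Finset.mem_inter.1 hw).1
          exact ⟨q.support.toFinset, fun _ => ⟨z, q, by omega, fun x => List.mem_toFinset, hqs,
            hadj⟩⟩
        · exact ⟨∅, fun h => absurd h hw⟩
      choose P' hP' using hPex
      have hstar' : IsStar G L W R c' A' P' := by
        refine ⟨Finset.inter_subset_right, fun w hw => ?_⟩
        obtain ⟨z, q, h1, h2, h3, h4⟩ := hP' w hw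
        exact ⟨z, q, h1, h2, fun x hx hxL => h3 x hx (Finset.mem_union_left _ hxL), h4⟩
      have hkey : K * ∑ x : V, Load x * (A'.filter (fun w => x ∈ P' w)).card ≤
          n * R ^ 2 * a ^ 2 := by
        have h1 : ∀ x : V, K * (Load x * (A'.filter (fun w => x ∈ P' w)).card) ≤
            t * R * a * (A'.filter (fun w => x ∈ P' w)).card := by
          intro x
          rcases Nat.eq_zero_or_pos (A'.filter (fun w => x ∈ P' w)).card with h0 | h0
          · rw [h0]; simp
          · obtain ⟨w, hw⟩ := Finset.card_pos.1 h0
            obtain ⟨hwA, hwP⟩ := Finset.mem_filter.1 hw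
            obtain ⟨z, q, _, h2, h3, _⟩ := hP' w hwA
            have hxX : x ∉ X := fun hx => h3 x ((h2 x).1 hwP) (Finset.mem_union_right _ hx)
            have h4 : K * Load x ≤ t * R * a := by
              by_contra hneg
              push Not at hneg
              apply hxX
              rw [hX, Finset.mem_filter]
              refine ⟨mem_univ _, ?_, hneg.le⟩
              by_contra h5
              have : Load x = 0 := by omega
              rw [this, mul_zero] at hneg
              omega
            calc K * (Load x * (A'.filter (fun w => x ∈ P' w)).card)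
                = (K * Load x) * (A'.filter (fun w => x ∈ P' w)).card := by ring
              _ ≤ _ := Nat.mul_le_mul_right _ h4
        calc K * ∑ x : V, Load x * (A'.filter (fun w => x ∈ P' w)).card
            = ∑ x : V, K * (Load x * (A'.filter (fun w => x ∈ P' w)).card) := by
              rw [Finset.mul_sum]
          _ ≤ ∑ x : V, t * R * a * (A'.filter (fun w => x ∈ P' w)).card :=
              Finset.sum_le_sum fun x _ => h1 x
          _ = t * R * a * ∑ x : V, (A'.filter (fun w => x ∈ P' w)).card := by
              rw [Finset.mul_sum]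
          _ ≤ t * R * a * (a * R) := Nat.mul_le_mul_left _ hstar'.sum_le
          _ ≤ n * R * a * (a * R) := by
              have : t ≤ n := by omega
              gcongr
          _ = n * R ^ 2 * a ^ 2 := by ring
      have hne' : ∀ i < t, c i ≠ c' := by
        intro i hi heq
        apply hc'X
        obtain ⟨_, hstar, hcard⟩ := hst i hi
        have h1 : ℓ i (c i) = (A i).card := by
          rw [hℓ]
          simp only
          congr 1
          rw [Finset.filter_true_of_mem]
          intro w hw
          exact hstar.center hw
        have h2 : (A i).card ≤ Load (c i) := by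
          rw [← h1]
          exact Finset.single_le_sum (f := fun i' => ℓ i' (c i)) (fun _ _ => Nat.zero_le _)
            (Finset.mem_range.2 hi)
        have h3 : a ≤ D * Load (c i) := hcard.trans (Nat.mul_le_mul_left _ h2)
        rw [← heq, hX, Finset.mem_filter]
        refine ⟨mem_univ _, ?_, ?_⟩
        · by_contra h5
          have : Load (c i) = 0 := by omega
          rw [this, mul_zero] at h3
          omega
        · calc t * R * a ≤ n * R * (D * Load (c i)) := by
                have : t ≤ n := by omega
                gcongr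
            _ = n * R * D * Load (c i) := by ring
            _ ≤ K * Load (c i) := Nat.mul_le_mul_right _ hK
      refine ⟨Function.update c t c', Function.update A t A', Function.update P t P', ?_, ?_, ?_⟩
      · intro i hi
        rcases eq_or_ne i t with rfl | hne
        · simp only [Function.update_self]
          exact ⟨hc'C, hstar', hc'a⟩
        · simp only [Function.update_of_ne hne]
          exact hst i (by omega)
      · intro i j hij hj
        have hi : i ≠ t := by omega
        rcases eq_or_ne j t with rfl | hne
        · rw [Function.update_self, Function.update_of_ne hi]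
          exact hne' i hij
        · rw [Function.update_of_ne hne, Function.update_of_ne hi]
          exact hcne i j hij (by omega)
      · intro i j hij hj
        have hi : i ≠ t := by omega
        rcases eq_or_ne j t with rfl | hne
        · simp only [Function.update_self, Function.update_of_ne hi]
          refine le_trans (Nat.mul_le_mul_left _ (Finset.sum_le_sum fun x _ => ?_)) hkey
          refine Nat.mul_le_mul_right _ ?_
          exact Finset.single_le_sum (f := fun i' => ℓ i' x) (fun _ _ => Nat.zero_le _)
            (Finset.mem_range.2 hij)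
        · simp only [Function.update_of_ne hne, Function.update_of_ne hi]
          exact hov i j hij (by omega)
  obtain ⟨c, A, P, h1, h2, h3⟩ := main n le_rfl
  refine ⟨fun i => c i, fun i => A i, fun i => P i, fun i => (h1 i i.2).2, ?_, ?_⟩
  · intro i j hne
    rcases lt_or_gt_of_ne hne with h | h
    · exact h2 i j h j.2
    · exact (h2 j i h i.2).symm
  · intro i j hne
    rcases lt_or_gt_of_ne hne with h | h
    · exact h3 i j h j.2
    · have := h3 j i h i.2
      simp only [mul_comm (((A i).filter (fun w => _ ∈ P i w)).card)]
      exact this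

end Pool.Agent.TH480.J342
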