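import Pool.Agent.TH492.Defs

set_option autoImplicit false
set_option linter.unusedSectionVars false

namespace Pool.Agent.TH480.J346

open Pool.Agent.TH492 Finset

universe u
variable {V : Type u} [Fintype V] [DecidableEq V]

/-- the support of a walk as a piece of a blob -/
theorem support_piece {G : SimpleGraph V} {L : Finset V} {k : ℕ} {v z : V} (p : G.Walk v z)
    (hp : p.length ≤ k) (hL : ∀ w ∈ p.support, w ∉ L) :
    p.support.toFinset.card ≤ k + 1 ∧ v ∈ p.support.toFinset ∧ z ∈ p.support.toFinset ∧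
      (∀ x ∈ p.support.toFinset, x ∉ L) ∧
      (∀ x ∈ p.support.toFinset, Rch G L k v x) ∧
      ∀ x ∈ p.support.toFinset, ∃ q : G.Walk v x, q.length ≤ k ∧
        ∀ w ∈ q.support, w ∈ p.support.toFinset := by
  refine ⟨?_, ?_, ?_, ?_, ?_, ?_⟩
  · refine (List.toFinset_card_le _).trans ?_
    rw [SimpleGraph.Walk.length_support]
    omega
  · rw [List.mem_toFinset]; exact p.start_mem_support
  · rw [List.mem_toFinset]; exact p.end_mem_support
  · intro x hx; exact hL x (List.mem_toFinset.1 hx)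
  · intro x hx
    exact (rch_of_mem_support hL (List.mem_toFinset.1 hx)).mono (subset_refl _) hp
  · intro x hx
    have hx' := List.mem_toFinset.1 hx
    refine ⟨p.takeUntil x hx', (p.length_takeUntil_le_length hx').trans hp, ?_⟩
    intro w hw
    rw [List.mem_toFinset]
    exact p.support_takeUntil_subset_support hx' hw

/-- L4 -/
theorem build_fix {G : SimpleGraph V} {r B m K ρ : ℕ} {Y : Finset V} {F : Finset (Finset V)}
    (hI : Inv G r B m Y F) (hρ : 1 ≤ ρ) (h3 : 3 * ρ ≤ r) (hB : 1 + K * (3 * ρ + 1) + m * ρ ≤ B)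
    {v : V} (hv : v ∉ Occ Y F) {W X : Finset V} (hW : W ⊆ Sight G (Occ Y F) ρ v)
    (hWc : m * B ≤ W.card) (hX : X.card ≤ K) (hXr : ∀ x ∈ X, Rch G (Occ Y F) (3 * ρ) v x) :
    ∃ T : Finset V, v ∈ T ∧ X ⊆ T ∧ Disjoint T (Occ Y F) ∧
      (∀ x ∈ T, Rch G (Occ Y F) (3 * ρ) v x) ∧ T ∉ F ∧ T.card ≤ B ∧ Inv G r B m Y (insert T F) := by
  classical
  set L := Occ Y F with hL
  have hFL : ∀ T ∈ F, T ⊆ L := by
    intro T hT x hx
    rw [hL, Occ]
    exact Finset.mem_union_right _ (Finset.mem_biUnion.2 ⟨T, hT, hx⟩)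
  have hYL : Y ⊆ L := Finset.subset_union_left
  -- pieces meeting W
  set 𝒲 := (Pcs Y F).filter (fun Z => (Z ∩ W).Nonempty) with h𝒲
  have hcov : W ⊆ 𝒲.biUnion id := by
    intro u hu
    have huL : u ∈ L := (mem_sight.1 (hW hu)).1
    rw [Finset.mem_biUnion]
    by_cases hF : u ∈ F.biUnion id
    · obtain ⟨T, hT, huT⟩ := Finset.mem_biUnion.1 hF
      exact ⟨T, Finset.mem_filter.2 ⟨Finset.mem_union_left _ hT,
        ⟨u, Finset.mem_inter.2 ⟨huT, hu⟩⟩⟩, huT⟩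
    · have huY : u ∈ Y := by
        rw [hL, Occ, Finset.mem_union] at huL
        exact huL.resolve_right hF
      refine ⟨{u}, Finset.mem_filter.2 ⟨Finset.mem_union_right _ (Finset.mem_image.2
        ⟨u, Finset.mem_sdiff.2 ⟨huY, hF⟩, rfl⟩), ⟨u, ?_⟩⟩, ?_⟩
      · simp [hu]
      · simp
  have hB1 : 1 ≤ B := by omega
  have hPB : ∀ Z ∈ Pcs Y F, Z.card ≤ B := by
    intro Z hZ
    rcases Finset.mem_union.1 hZ with h | h
    · exact hI.card Z h
    · obtain ⟨y, _, rfl⟩ := Finset.mem_image.1 h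
      simpa using hB1
  have h𝒲m : m ≤ 𝒲.card := by
    have h1 : m * B ≤ 𝒲.card * B := by
      calc m * B ≤ W.card := hWc
        _ ≤ (𝒲.biUnion id).card := Finset.card_le_card hcov
        _ ≤ ∑ Z ∈ 𝒲, Z.card := Finset.card_biUnion_le
        _ ≤ ∑ _Z ∈ 𝒲, B := Finset.sum_le_sum fun Z hZ => hPB Z (Finset.mem_filter.1 hZ).1
        _ = 𝒲.card * B := by rw [Finset.sum_const, smul_eq_mul]
    exact Nat.le_of_mul_le_mul_right h1 hB1
  obtain ⟨𝒵, h𝒵sub, h𝒵c⟩ := Finset.exists_subset_card_eq h𝒲m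
  -- the walks to the pieces
  have hP : ∀ Z : Finset V, ∃ P : Finset V, Z ∈ 𝒵 → (P.card ≤ ρ ∧ (∀ x ∈ P, x ∉ L) ∧
      (∀ x ∈ P, Rch G L (3 * ρ) v x) ∧ (∃ a ∈ P, ∃ u ∈ Z, G.Adj a u) ∧
      ∀ x ∈ P, ∃ q : G.Walk v x, q.length ≤ 3 * ρ ∧ ∀ w ∈ q.support, w ∈ P) := by
    intro Z
    by_cases hZ : Z ∈ 𝒵
    · obtain ⟨u, hu⟩ := (Finset.mem_filter.1 (h𝒵sub hZ)).2
      obtain ⟨huZ, huW⟩ := Finset.mem_inter.1 hu
      obtain ⟨_, j, hj, z, ⟨p, hp, hpL⟩, hadj⟩ := mem_sight.1 (hW huW)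
      obtain ⟨g1, g2, g3, g4, g5, g6⟩ := support_piece p hp hpL
      refine ⟨p.support.toFinset, fun _ => ⟨by omega, g4, fun x hx =>
        (g5 x hx).mono (subset_refl _) (by omega), ⟨z, g3, u, huZ, hadj⟩, fun x hx => ?_⟩⟩
      obtain ⟨q, hq, hqs⟩ := g6 x hx
      exact ⟨q, by omega, hqs⟩
    · exact ⟨∅, fun h => absurd h hZ⟩
  choose P hP using hP
  have hQ : ∀ x : V, ∃ Q : Finset V, x ∈ X → (Q.card ≤ 3 * ρ + 1 ∧ x ∈ Q ∧ (∀ y ∈ Q, y ∉ L) ∧
      (∀ y ∈ Q, Rch G L (3 * ρ) v y) ∧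
      ∀ y ∈ Q, ∃ q : G.Walk v y, q.length ≤ 3 * ρ ∧ ∀ w ∈ q.support, w ∈ Q) := by
    intro x
    by_cases hx : x ∈ X
    · obtain ⟨p, hp, hpL⟩ := hXr x hx
      obtain ⟨g1, g2, g3, g4, g5, g6⟩ := support_piece p hp hpL
      exact ⟨p.support.toFinset, fun _ => ⟨g1, g3, g4, g5, g6⟩⟩
    · exact ⟨∅, fun h => absurd h hx⟩
  choose Q hQ using hQ
  set T : Finset V := {v} ∪ (𝒵.biUnion P ∪ X.biUnion Q) with hT
  have hmemT : ∀ x, x ∈ T ↔ x = v ∨ (∃ Z ∈ 𝒵, x ∈ P Z) ∨ ∃ y ∈ X, x ∈ Q y := by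
    intro x
    simp only [hT, Finset.mem_union, Finset.mem_singleton, Finset.mem_biUnion]
  have hPT : ∀ Z ∈ 𝒵, P Z ⊆ T := fun Z hZ x hx => (hmemT x).2 (Or.inr (Or.inl ⟨Z, hZ, hx⟩))
  have hQT : ∀ y ∈ X, Q y ⊆ T := fun y hy x hx => (hmemT x).2 (Or.inr (Or.inr ⟨y, hy, hx⟩))
  have hvT : v ∈ T := (hmemT v).2 (Or.inl rfl)
  have hTL : ∀ x ∈ T, x ∉ L := by
    intro x hx
    rcases (hmemT x).1 hx with rfl | ⟨Z, hZ, hxZ⟩ | ⟨y, hy, hxy⟩
    · exact hv
    · exact (hP Z hZ).2.1 x hxZ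
    · exact (hQ y hy).2.2.1 x hxy
  have hTdisj : Disjoint T L := Finset.disjoint_left.2 hTL
  have hTcard : T.card ≤ B := by
    calc T.card ≤ 1 + ((𝒵.biUnion P).card + (X.biUnion Q).card) := by
          rw [hT]
          refine (Finset.card_union_le _ _).trans ?_
          rw [Finset.card_singleton]
          exact Nat.add_le_add_left (Finset.card_union_le _ _) _
      _ ≤ 1 + (m * ρ + K * (3 * ρ + 1)) := by
          refine Nat.add_le_add_left (Nat.add_le_add ?_ ?_) _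
          · calc (𝒵.biUnion P).card ≤ ∑ Z ∈ 𝒵, (P Z).card := Finset.card_biUnion_le
              _ ≤ ∑ _Z ∈ 𝒵, ρ := Finset.sum_le_sum fun Z hZ => (hP Z hZ).1
              _ = m * ρ := by rw [Finset.sum_const, smul_eq_mul, h𝒵c]
          · calc (X.biUnion Q).card ≤ ∑ y ∈ X, (Q y).card := Finset.card_biUnion_le
              _ ≤ ∑ _y ∈ X, (3 * ρ + 1) := Finset.sum_le_sum fun y hy => (hQ y hy).1
              _ = X.card * (3 * ρ + 1) := by rw [Finset.sum_const, smul_eq_mul]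
              _ ≤ K * (3 * ρ + 1) := Nat.mul_le_mul_right _ hX
      _ ≤ B := by linarith
  have hTF : T ∉ F := fun h => hv (hFL T h hvT)
  have hPcs : Pcs Y F ⊆ Pcs Y (insert T F) := by
    intro Z hZ
    rcases Finset.mem_union.1 hZ with h | h
    · exact Finset.mem_union_left _ (Finset.mem_insert_of_mem h)
    · obtain ⟨y, hy, rfl⟩ := Finset.mem_image.1 h
      obtain ⟨hyY, hyF⟩ := Finset.mem_sdiff.1 hy
      refine Finset.mem_union_right _ (Finset.mem_image.2 ⟨y, Finset.mem_sdiff.2 ⟨hyY, ?_⟩, rfl⟩)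
      rw [Finset.biUnion_insert, Finset.mem_union]
      rintro (h1 | h1)
      · exact hTL y h1 (hYL hyY)
      · exact hyF h1
  refine ⟨T, hvT, ?_, hTdisj, ?_, hTF, hTcard, ?_⟩
  · intro x hx
    exact hQT x hx (hQ x hx).2.1
  · intro x hx
    rcases (hmemT x).1 hx with rfl | ⟨Z, hZ, hxZ⟩ | ⟨y, hy, hxy⟩
    · exact Rch.refl hv
    · exact (hP Z hZ).2.2.1 x hxZ
    · exact (hQ y hy).2.2.2.1 x hxy
  · constructor
    · intro T₁ h₁ T₂ h₂ hne
      rcases Finset.mem_insert.1 h₁ with rfl | h₁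
      · rcases Finset.mem_insert.1 h₂ with rfl | h₂
        · exact absurd rfl hne
        · exact hTdisj.mono_right (hFL T₂ h₂)
      · rcases Finset.mem_insert.1 h₂ with rfl | h₂
        · exact (hTdisj.mono_right (hFL T₁ h₁)).symm
        · exact hI.disj T₁ h₁ T₂ h₂ hne
    · intro T₁ h₁
      rcases Finset.mem_insert.1 h₁ with rfl | h₁
      · exact hTcard
      · exact hI.card T₁ h₁
    · intro T₁ h₁
      rcases Finset.mem_insert.1 h₁ with rfl | h₁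
      · refine ⟨v, hvT, fun x hx => ?_⟩
        rcases (hmemT x).1 hx with rfl | ⟨Z, hZ, hxZ⟩ | ⟨y, hy, hxy⟩
        · exact ⟨SimpleGraph.Walk.nil, by simp, by simpa using hvT⟩
        · obtain ⟨q, hq, hqs⟩ := (hP Z hZ).2.2.2.2 x hxZ
          exact ⟨q, by omega, fun w hw => hPT Z hZ (hqs w hw)⟩
        · obtain ⟨q, hq, hqs⟩ := (hQ y hy).2.2.2.2 x hxy
          exact ⟨q, by omega, fun w hw => hQT y hy (hqs w hw)⟩
      · exact hI.blob T₁ h₁
    · intro T₁ h₁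
      rcases Finset.mem_insert.1 h₁ with rfl | h₁
      · rw [← h𝒵c]
        refine Finset.card_le_card fun Z hZ => ?_
        have hZW := Finset.mem_filter.1 (h𝒵sub hZ)
        refine Finset.mem_filter.2 ⟨hPcs hZW.1, ?_, ?_⟩
        · rintro rfl
          obtain ⟨u, hu⟩ := hZW.2
          obtain ⟨huZ, huW⟩ := Finset.mem_inter.1 hu
          exact hTL u huZ (mem_sight.1 (hW huW)).1
        · obtain ⟨a, ha, u, hu, hadj⟩ := (hP Z hZ).2.2.2.1
          exact ⟨a, hPT Z hZ ha, u, hu, hadj⟩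
      · refine (hI.touch T₁ h₁).trans (Finset.card_le_card ?_)
        exact Finset.filter_subset_filter _ hPcs

end Pool.Agent.TH480.J346
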