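import Pool.Agent.TH37.RZ.Defs
import Pool.Agent.TH480.J749

/-!
# Job 750 (RZ-CHAR, for MP_8983b8_al)

Adapted from `Pool.Agent.TH511.RF_CHAR` (helper511).
-/

set_option autoImplicit false

namespace Pool.Agent.TH480.J750

open Pool.Agent.TH37.RZ
open Pool.Agent.TH37.RF (commIdeal NilpId TT zword wd)

section
variable {C Q' K : Type} [Ring C] {ε : C →+* ℤ} [Ring Q'] {φ' : C →+* Q'} [CommRing K]

theorem mem_cut {c : C} (h1 : φ' c = 0) (h2 : ε c = 0) : c ∈ Cut ε φ' := by
  show φ' c = ((Int.castRingHom Q').comp ε) c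
  rw [h1, RingHom.comp_apply, h2, map_zero]

theorem of_cut {z : Cut ε φ'} (h : cutε ε φ' z = 0) : φ' z = 0 ∧ ε z = 0 := by
  have h2 : ε z = 0 := h
  refine ⟨?_, h2⟩
  have h3 : φ' z = ((Int.castRingHom Q').comp ε) z := z.2
  rw [h3, RingHom.comp_apply, h2, map_zero]

/-- elements of the cut ideal as elements of the subring -/
def el (c : C) (h : φ' c = 0 ∧ ε c = 0) : Cut ε φ' := ⟨c, mem_cut h.1 h.2⟩

theorem left_mem (c : C) {y : C} (h : φ' y = 0 ∧ ε y = 0) : φ' (c * y) = 0 ∧ ε (c * y) = 0 := by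
  rw [map_mul, map_mul, h.1, h.2, mul_zero, mul_zero]
  exact ⟨rfl, rfl⟩

theorem right_mem (c : C) {y : C} (h : φ' y = 0 ∧ ε y = 0) : φ' (y * c) = 0 ∧ ε (y * c) = 0 := by
  rw [map_mul, map_mul, h.1, h.2, zero_mul, zero_mul]
  exact ⟨rfl, rfl⟩

theorem swap_rel (χ : Cut ε φ' →+* K) {y : C} (hy : φ' y = 0 ∧ ε y = 0)
    (hχ : χ (el y hy) = 1) (c : C) :
    χ (el (y * c) (right_mem c hy)) = χ (el (c * y) (left_mem c hy)) := by
  calc χ (el (y * c) (right_mem c hy))
      = χ (el (y * c) (right_mem c hy)) * χ (el y hy) := by rw [hχ, mul_one]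
    _ = χ (el y hy) * χ (el (c * y) (left_mem c hy)) := by
        rw [← map_mul, ← map_mul]
        congr 1
        apply Subtype.ext
        exact mul_assoc y c y
    _ = χ (el (c * y) (left_mem c hy)) := by rw [hχ, one_mul]

/-- extension of the character to the whole ring -/
def psi (χ : Cut ε φ' →+* K) {y : C} (hy : φ' y = 0 ∧ ε y = 0)
    (hχ : χ (el y hy) = 1) : C →+* K where
  toFun c := χ (el (c * y) (left_mem c hy))
  map_one' := by
    have e : el (1 * y) (left_mem 1 hy) = el y hy := by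
      apply Subtype.ext
      exact one_mul y
    rw [e, hχ]
  map_mul' c d := by
    calc χ (el (c * d * y) (left_mem (c * d) hy))
        = χ (el y hy) * χ (el (c * d * y) (left_mem (c * d) hy)) := by rw [hχ, one_mul]
      _ = χ (el (y * c) (right_mem c hy)) * χ (el (d * y) (left_mem d hy)) := by
          rw [← map_mul, ← map_mul]
          congr 1
          apply Subtype.ext
          show y * (c * d * y) = y * c * (d * y)
          simp only [mul_assoc]
      _ = _ := by rw [swap_rel χ hy hχ c]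
  map_zero' := by
    have e : el (0 * y) (left_mem 0 hy) = (0 : Cut ε φ') := by
      apply Subtype.ext
      exact zero_mul y
    rw [e, map_zero]
  map_add' c d := by
    have e : el ((c + d) * y) (left_mem (c + d) hy) =
        el (c * y) (left_mem c hy) + el (d * y) (left_mem d hy) := by
      apply Subtype.ext
      exact add_mul c d y
    rw [e, map_add]

end

/-- JOB Z-CHAR -/
theorem no_small {C : Type} [Ring C] (ε : C →+* ℤ) (hfg : FGen ε) (N : ℕ) :
    ∃ (Q : Type) (_ : Ring Q) (_ : Finite Q) (φ : C →+* Q),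
      ∀ (Q' : Type) [Ring Q'] (φ' : C →+* Q'), (∀ c, φ' c = 0 → φ c = 0) →
        ∀ (K : Type) [CommRing K] [IsDomain K] (χ : Cut ε φ' →+* K)
          (p : Polynomial K), p ≠ 0 → p.natDegree ≤ N →
          (∀ z, cutε ε φ' z = 0 → p.eval (χ z) = 0) →
          ∀ z, cutε ε φ' z = 0 → χ z = 0 := by
  classical
  obtain ⟨Q, i1, i2, φ, hφ⟩ := Pool.Agent.TH480.J749.small_all ε hfg N
  refine ⟨Q, i1, i2, φ, ?_⟩
  intro Q' _ φ' hle K _ _ χ p hp hN h z hz
  by_contra hne
  have hroots : ∀ w, cutε ε φ' w = 0 → χ w ∈ p.roots.toFinset := by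
    intro w hw
    rw [Multiset.mem_toFinset, Polynomial.mem_roots hp]
    exact h w hw
  have hcard : p.roots.toFinset.card ≤ N := by
    calc _ ≤ Multiset.card p.roots := Multiset.toFinset_card_le _
      _ ≤ p.natDegree := Polynomial.card_roots' _
      _ ≤ N := hN
  -- a power of `z` on which the character is one
  obtain ⟨k, hk0, hk⟩ : ∃ k : ℕ, 0 < k ∧ χ z ^ k = 1 := by
    have hlt : p.roots.toFinset.card < (Finset.range (N + 1)).card := by
      rw [Finset.card_range]
      omega
    obtain ⟨i, hi, j, hj, hij, he⟩ := Finset.exists_ne_map_eq_of_card_lt_of_maps_to hlt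
      (f := fun i => χ z ^ (i + 1)) (fun i _ => by
        show χ z ^ (i + 1) ∈ p.roots.toFinset
        rw [← map_pow]
        apply hroots
        rw [map_pow, hz, zero_pow (by omega)])
    have he' : χ z ^ (i + 1) = χ z ^ (j + 1) := he
    have key : ∀ i j : ℕ, i < j → χ z ^ (i + 1) = χ z ^ (j + 1) →
        ∃ k : ℕ, 0 < k ∧ χ z ^ k = 1 := by
      intro i j hij he
      refine ⟨j - i, by omega, ?_⟩
      have h2 : χ z ^ (i + 1) * χ z ^ (j - i) = χ z ^ (i + 1) * 1 := by
        rw [← pow_add, mul_one, he]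
        congr 1
        omega
      exact mul_left_cancel₀ (pow_ne_zero _ hne) h2
    rcases lt_or_gt_of_ne hij with hlt' | hlt'
    · exact key i j hlt' he'
    · exact key j i hlt' he'.symm
  have hyk : cutε ε φ' (z ^ k) = 0 := by
    rw [map_pow, hz, zero_pow (by omega)]
  have hy := of_cut hyk
  have hχ : χ (el ((z ^ k : Cut ε φ') : C) hy) = 1 := by
    have e : el ((z ^ k : Cut ε φ') : C) hy = z ^ k := Subtype.ext rfl
    rw [e, map_pow, hk]
  -- the range is a small ring
  have hmem : ∀ t : (psi χ hy hχ).range, (t : K) ∈ p.roots.toFinset := by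
    rintro ⟨_, c, rfl⟩
    apply hroots
    show ε (c * ((z ^ k : Cut ε φ') : C)) = 0
    rw [map_mul, hy.2, mul_zero]
  have hinj : Function.Injective (fun t : (psi χ hy hχ).range =>
      (⟨(t : K), hmem t⟩ : p.roots.toFinset)) := by
    intro t t' htt
    apply Subtype.ext
    exact congrArg (fun s : p.roots.toFinset => (s : K)) htt
  have hfin : Finite (psi χ hy hχ).range := Finite.of_injective _ hinj
  have hcard2 : Nat.card (psi χ hy hχ).range ≤ N := by
    calc Nat.card (psi χ hy hχ).range ≤ Nat.card p.roots.toFinset :=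
          Nat.card_le_card_of_injective _ hinj
      _ = p.roots.toFinset.card := Nat.card_eq_card_toFinset _ |>.trans (by simp)
      _ ≤ N := hcard
  have h1 := hφ (psi χ hy hχ).range (psi χ hy hχ).rangeRestrict hcard2 (z : C)
    (hle _ (of_cut hz).1)
  have h2 : psi χ hy hχ (z : C) = 0 := congrArg Subtype.val h1
  have h3 : psi χ hy hχ (z : C) = χ z * χ (el ((z ^ k : Cut ε φ') : C) hy) := by
    rw [← map_mul]
    rfl
  rw [h3, hχ, mul_one] at h2
  exact hne h2

end Pool.Agent.TH480.J750
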