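import Pool.Agent.TH480.SM4

/-!
MP_325b7c_co, job SMAIN, part 5: arithmetic and the theorem.
-/

set_option autoImplicit false

namespace Pool.Agent.TH480.SM

open Finset Classical Pool.Agent.TH490

noncomputable section

/-- the arithmetic -/
lemma arith1 (n k h l N C : ℝ) (hn : 1 ≤ n) (hk : 1 ≤ k) (hh : 0 ≤ h) (hl : 1 ≤ l)
    (hN : 0 < N) (hC : 1 ≤ C) (i1 : h * n ≤ 2 * k * l) (i2 : k * l ^ 3 ≤ n ^ 2)
    (i3 : C * k * n ≤ N ^ 3) :
    h ^ 3 * l ^ 3 ≤ 8 * (k * n) ∧ n * h ^ 2 * l ≤ 4 * (k * n) ∧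
    h ^ 2 * (N / N ^ 3) ≤ 4 / l ^ 2 ∧ C * (k * n / N ^ 3) ≤ 1 := by
  have hn0 : 0 < n := by linarith
  have hk0 : 0 < k := by linarith
  have hl0 : 0 < l := by linarith
  have a1 : (h * n) ^ 3 ≤ (2 * k * l) ^ 3 := pow_le_pow_left₀ (by positivity) i1 3
  have a2 : (k * l ^ 3) ^ 2 ≤ (n ^ 2) ^ 2 := pow_le_pow_left₀ (by positivity) i2 2
  have b1 : h ^ 3 * l ^ 3 ≤ 8 * (k * n) := by
    have h1 : (h ^ 3 * l ^ 3) * n ^ 3 ≤ (8 * (k * n)) * n ^ 3 := by
      calc (h ^ 3 * l ^ 3) * n ^ 3 = (h * n) ^ 3 * l ^ 3 := by ring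
        _ ≤ (2 * k * l) ^ 3 * l ^ 3 := by gcongr
        _ = 8 * k * (k * l ^ 3) ^ 2 := by ring
        _ ≤ 8 * k * (n ^ 2) ^ 2 := by gcongr
        _ = (8 * (k * n)) * n ^ 3 := by ring
    exact le_of_mul_le_mul_right h1 (by positivity)
  have b2 : n * h ^ 2 * l ≤ 4 * (k * n) := by
    have h1 : (n * h ^ 2 * l) * n ≤ (4 * (k * n)) * n := by
      calc (n * h ^ 2 * l) * n = (h * n) ^ 2 * l := by ring
        _ ≤ (2 * k * l) ^ 2 * l := by gcongr
        _ = 4 * k * (k * l ^ 3) := by ring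
        _ ≤ 4 * k * (n ^ 2) := by gcongr
        _ = (4 * (k * n)) * n := by ring
    exact le_of_mul_le_mul_right h1 hn0
  have b3 : h * l ≤ 2 * N := by
    have h1 : (h * l) ^ 3 ≤ (2 * N) ^ 3 := by
      calc (h * l) ^ 3 = h ^ 3 * l ^ 3 := by ring
        _ ≤ 8 * (k * n) := b1
        _ = 8 * (1 * k * n) := by ring
        _ ≤ 8 * (C * k * n) := by gcongr
        _ ≤ 8 * N ^ 3 := by gcongr
        _ = (2 * N) ^ 3 := by ring
    exact le_of_pow_le_pow_left₀ (by norm_num) (by positivity) h1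
  refine ⟨b1, b2, ?_, ?_⟩
  · have e1 : h ^ 2 * (N / N ^ 3) = h ^ 2 / N ^ 2 := by field_simp
    rw [e1, div_le_div_iff₀ (by positivity) (by positivity)]
    calc h ^ 2 * l ^ 2 = (h * l) ^ 2 := by ring
      _ ≤ (2 * N) ^ 2 := by gcongr
      _ = 4 * N ^ 2 := by ring
  · have e1 : C * (k * n / N ^ 3) = C * k * n / N ^ 3 := by ring
    rw [e1, div_le_one (by positivity)]
    exact i3

lemma arith2 (n k h l N C c1 c3 A c0 : ℝ) (hn : 1 ≤ n) (hk : 1 ≤ k) (hh : 0 ≤ h)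
    (hl : 20 + 8 / c0 ≤ l) (hc0 : 0 < c0) (hc1 : 0 < c1) (hc3 : 0 < c3) (hA : 0 < A)
    (hN : 0 < N) (hC : 32 * (2 + 6 * c1 + 8 * c3 + 80 * A) ≤ C)
    (i1 : h * n ≤ 2 * k * l) (i2 : k * l ^ 3 ≤ n ^ 2)
    (i3 : C * k * n ≤ N ^ 3) (i4 : n ≤ 2 * k) :
    h ^ 3 * l ≤ c0 * N ^ 3 ∧
    2 * (n * (1 / N ^ 3)) + ((2 * (h ^ 2 * (N / N ^ 3) + n ^ 2 * (c1 * N ^ 3 / (N ^ 3) ^ 2)) +
      (h ^ 2 * (N / N ^ 3) + n ^ 2 * (c1 * N ^ 3 / (N ^ 3) ^ 2))) +
      4 * (n / l * (2 * k) * (c3 * N ^ 6 * l / (N ^ 3) ^ 3) +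
        3 * n * (A * h ^ 2 * N ^ 3 * l / (N ^ 3) ^ 2) + A * h ^ 3 * l / N ^ 3)) ≤ 1 / 16 := by
  have h8 : 0 < 8 / c0 := by positivity
  have hl1 : 20 ≤ l := by linarith
  have hl0 : 0 < l := by linarith
  have hn0 : 0 < n := by linarith
  have hk0 : 0 < k := by linarith
  have hC1 : 1 ≤ C := by nlinarith
  obtain ⟨b1, b2, b3, b4⟩ := arith1 n k h l N C hn hk hh (by linarith) hN hC1 i1 i2 i3
  have hx : 0 ≤ k * n / N ^ 3 := by positivity
  set x := k * n / N ^ 3 with hxdef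
  have hkn : k * n = x * N ^ 3 := by rw [hxdef]; field_simp
  have c4 : h ^ 3 * l ≤ 8 * (k * n) := by
    have h1 : h ^ 3 * l ≤ h ^ 3 * l ^ 3 := by
      have : l ≤ l ^ 3 := by nlinarith [mul_nonneg hl0.le hl0.le, mul_pos hl0 hl0]
      gcongr
    linarith
  constructor
  · have h1 : h ^ 3 * l * l ≤ 8 * (k * n) := by
      have : h ^ 3 * l * l ≤ h ^ 3 * l ^ 3 := by
        have h2 : l * l ≤ l ^ 3 := by nlinarith [mul_nonneg hl0.le hl0.le, mul_pos hl0 hl0]
        calc h ^ 3 * l * l = h ^ 3 * (l * l) := by ring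
          _ ≤ h ^ 3 * l ^ 3 := by gcongr
      linarith
    have h2 : 8 * (k * n) ≤ 8 * N ^ 3 := by
      have : 1 * k * n ≤ C * k * n := by gcongr
      nlinarith
    have h3 : 8 ≤ c0 * l := by
      have h4 : c0 * (8 / c0) = 8 := by field_simp
      have h5 : c0 * (8 / c0) ≤ c0 * l := by
        apply mul_le_mul_of_nonneg_left _ hc0.le
        linarith
      linarith
    have h4 : h ^ 3 * l * l ≤ c0 * N ^ 3 * l := by
      calc h ^ 3 * l * l ≤ 8 * (k * n) := h1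
        _ ≤ 8 * N ^ 3 := h2
        _ ≤ (c0 * l) * N ^ 3 := by gcongr
        _ = c0 * N ^ 3 * l := by ring
    exact le_of_mul_le_mul_right h4 hl0
  · have d1 : n * (1 / N ^ 3) ≤ x := by
      rw [hxdef, mul_one_div]
      apply div_le_div_of_nonneg_right _ (by positivity)
      nlinarith
    have d2 : n ^ 2 * (c1 * N ^ 3 / (N ^ 3) ^ 2) ≤ 2 * c1 * x := by
      have e1 : n ^ 2 * (c1 * N ^ 3 / (N ^ 3) ^ 2) = c1 * (n ^ 2 / N ^ 3) := by field_simp
      rw [e1]
      have e2 : n ^ 2 / N ^ 3 ≤ 2 * x := by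
        rw [hxdef, ← mul_div_assoc]
        apply div_le_div_of_nonneg_right _ (by positivity)
        nlinarith
      calc c1 * (n ^ 2 / N ^ 3) ≤ c1 * (2 * x) := by gcongr
        _ = 2 * c1 * x := by ring
    have d3 : n / l * (2 * k) * (c3 * N ^ 6 * l / (N ^ 3) ^ 3) = 2 * c3 * x := by
      rw [hxdef]; field_simp
    have d4 : 3 * n * (A * h ^ 2 * N ^ 3 * l / (N ^ 3) ^ 2) ≤ 12 * A * x := by
      have e1 : 3 * n * (A * h ^ 2 * N ^ 3 * l / (N ^ 3) ^ 2) =
          3 * A * (n * h ^ 2 * l / N ^ 3) := by field_simp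
      rw [e1]
      have e2 : n * h ^ 2 * l / N ^ 3 ≤ 4 * x := by
        rw [hxdef, ← mul_div_assoc]
        apply div_le_div_of_nonneg_right _ (by positivity)
        linarith
      calc 3 * A * (n * h ^ 2 * l / N ^ 3) ≤ 3 * A * (4 * x) := by gcongr
        _ = 12 * A * x := by ring
    have d5 : A * h ^ 3 * l / N ^ 3 ≤ 8 * A * x := by
      have e1 : A * h ^ 3 * l / N ^ 3 = A * (h ^ 3 * l / N ^ 3) := by ring
      rw [e1]
      have e2 : h ^ 3 * l / N ^ 3 ≤ 8 * x := by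
        rw [hxdef, ← mul_div_assoc]
        apply div_le_div_of_nonneg_right _ (by positivity)
        linarith
      calc A * (h ^ 3 * l / N ^ 3) ≤ A * (8 * x) := by gcongr
        _ = 8 * A * x := by ring
    have d6 : h ^ 2 * (N / N ^ 3) ≤ 1 / 100 := by
      refine b3.trans ?_
      rw [div_le_div_iff₀ (by positivity) (by norm_num)]
      nlinarith
    have d7 : 32 * (2 + 6 * c1 + 8 * c3 + 80 * A) * x ≤ 1 := by
      calc 32 * (2 + 6 * c1 + 8 * c3 + 80 * A) * x ≤ C * x := by gcongr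
        _ ≤ 1 := b4
    rw [d3]
    clear_value x
    linarith [d1, d2, d4, d5, d6, d7]

lemma deg_eq {n : ℕ} (G : SimpleGraph (Fin n)) (a : Fin n) :
    (univ.filter (fun b => G.Adj a b)).card = G.degree a := by
  rw [← SimpleGraph.card_neighborFinset_eq_degree]
  congr 1
  ext b; simp

lemma sum_deg {n : ℕ} (G : SimpleGraph (Fin n)) :
    ∑ a, (univ.filter (fun b => G.Adj a b)).card = 2 * G.edgeFinset.card := by
  simp_rw [deg_eq]
  exact G.sum_degrees_eq_twice_card_edges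

lemma card_pairs {n : ℕ} (G : SimpleGraph (Fin n)) :
    (univ.filter (fun t : Fin n × Fin n => G.Adj t.1 t.2)).card = 2 * G.edgeFinset.card := by
  rw [← sum_deg G]
  simp only [Finset.card_filter, Fintype.sum_prod_type]

theorem smain : G2_line → G2_col → G3_cop → S_LLL → S_hub → S_main := by
  rintro hline ⟨c1, hc1, hcol⟩ ⟨c3, hc3, hcop⟩ hLLL ⟨A, c0, hA, hc0, hhub⟩
  refine ⟨32 * (2 + 6 * c1 + 8 * c3 + 80 * A), by positivity, ?_⟩
  intro C hC
  refine ⟨⌈Real.exp (20 + 8 / c0)⌉₊ + 2, ?_⟩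
  intro N hN n G k hk hk1 hiso i3 i2
  have hN2 : 2 ≤ N := by omega
  have hN1 : 1 ≤ N := by omega
  have hNpos : (0 : ℝ) < (N : ℝ) := by exact_mod_cast hN1
  have hl : 20 + 8 / c0 ≤ Real.log N := by
    rw [Real.le_log_iff_exp_le hNpos]
    calc Real.exp (20 + 8 / c0) ≤ (⌈Real.exp (20 + 8 / c0)⌉₊ : ℝ) := Nat.le_ceil _
      _ ≤ N := by
        have : ⌈Real.exp (20 + 8 / c0)⌉₊ ≤ N := by omega
        exact_mod_cast this
  have h8 : 0 < 8 / c0 := by positivity
  have hl0 : 0 < Real.log N := by linarith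
  have : Nonempty (Pos N) := ⟨fun _ => ⟨0, by omega⟩⟩
  have hk1' : (1 : ℝ) ≤ (k : ℝ) := by exact_mod_cast hk1
  have hsum := sum_deg G
  rw [hk] at hsum
  -- n ≤ 2 k
  have hn2k : n ≤ 2 * k := by
    rw [← hsum]
    calc n = ∑ _a : Fin n, 1 := by simp
      _ ≤ ∑ a : Fin n, (univ.filter (fun b => G.Adj a b)).card := by
        refine Finset.sum_le_sum (fun a _ => ?_)
        obtain ⟨w, hw⟩ := hiso a
        exact Finset.card_pos.2 ⟨w, by rw [mem_filter]; exact ⟨mem_univ _, hw⟩⟩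
  have hn2k' : (n : ℝ) ≤ 2 * (k : ℝ) := by exact_mod_cast hn2k
  have hn1 : 1 ≤ n := by
    by_contra h
    have h0 : n = 0 := by omega
    have : (∑ a : Fin n, (univ.filter (fun b => G.Adj a b)).card) = 0 := by
      apply Finset.sum_eq_zero
      intro a _
      exact absurd a.2 (by omega)
    omega
  have hn1' : (1 : ℝ) ≤ (n : ℝ) := by exact_mod_cast hn1
  -- the hubs
  set H : Finset (Fin n) := univ.filter (fun v => (n : ℝ) / Real.log N <
    ((univ.filter (fun b => G.Adj v b)).card : ℝ)) with hH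
  have i1 : (H.card : ℝ) * n ≤ 2 * k * Real.log N := by
    have h1 : (H.card : ℝ) * (n / Real.log N) ≤ 2 * k := by
      calc (H.card : ℝ) * (n / Real.log N) = ∑ _v ∈ H, (n : ℝ) / Real.log N := by simp
        _ ≤ ∑ v ∈ H, ((univ.filter (fun b => G.Adj v b)).card : ℝ) := by
          refine Finset.sum_le_sum (fun v hv => ?_)
          rw [hH, mem_filter] at hv
          exact hv.2.le
        _ ≤ ∑ v, ((univ.filter (fun b => G.Adj v b)).card : ℝ) :=
          Finset.sum_le_sum_of_subset_of_nonneg (Finset.subset_univ _) (fun _ _ _ => by positivity)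
        _ = 2 * k := by exact_mod_cast hsum
    have h2 : (H.card : ℝ) * n = (H.card : ℝ) * (n / Real.log N) * Real.log N := by
      field_simp
    rw [h2]
    exact mul_le_mul_of_nonneg_right h1 hl0.le
  obtain ⟨hub0, total⟩ := arith2 n k H.card (Real.log N) N C c1 c3 A c0 hn1' hk1'
    (by positivity) hl hc0 hc1 hc3 hA hNpos hC i1 i2 i3 hn2k'
  obtain ⟨Y, hYinj, hYcol, hYcop, hYs2, hYs3⟩ := hhub N hN2 H.card hub0
  -- extend to all the vertices
  let e := H.equivFin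
  let Yv : Fin n → Pos N := fun v => if hv : v ∈ H then Y (e ⟨v, hv⟩) else fun _ => ⟨0, by omega⟩
  have hYv : ∀ v (hv : v ∈ H), Yv v = Y (e ⟨v, hv⟩) := fun v hv => dif_pos hv
  have hYe : ∀ i, Yv (e.symm i).1 = Y i := by
    intro i
    rw [hYv _ (e.symm i).2]
    congr 1
    exact e.apply_symm_apply i
  have hne : ∀ a (ha : a ∈ H) b (hb : b ∈ H), a ≠ b → e ⟨a, ha⟩ ≠ e ⟨b, hb⟩ := by
    intro a ha b hb hab h
    exact hab (congrArg Subtype.val (e.injective h))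
  refine lll_real G H Yv hLLL ?_ ?_ ?_ ?_
  · intro j hj
    have t2 := S2_le H Yv hN1 j hj
    have t3 := S3_le G H Yv hN1 (c1 * (N : ℝ) ^ 3) (by positivity) (hline N)
      (hcol N) (fun b hb c hc hbc h => by
        rw [hYv b hb, hYv c hc] at h
        exact hne b hb c hc hbc (hYinj h)) j hj
    have t3' := S3'_le G H Yv hN1 (c1 * (N : ℝ) ^ 3) (by positivity) (hline N)
      (hcol N) (fun b hb c hc hbc h => by
        rw [hYv b hb, hYv c hc] at h
        exact hne b hb c hc hbc (hYinj h)) j hj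
    have t4 := S4_le G H Yv hN1 (c3 * (N : ℝ) ^ 6 * Real.log N) (by positivity) (hcop N hN2)
      j hj ((n : ℝ) / Real.log N) k (by
        rw [hH, mem_filter] at hj
        push Not at hj
        exact hj (mem_univ _)) (by
        rw [card_pairs, hk]; push_cast; exact le_refl _)
      (A * (H.card : ℝ) ^ 2 * (N : ℝ) ^ 3 * Real.log N) (A * (H.card : ℝ) ^ 3 * Real.log N)
      (by
        rw [← hub2 H (fun c d => W2 (Yv c) (Yv d))]
        refine le_trans (le_of_eq ?_) hYs2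
        refine Finset.sum_congr rfl (fun t _ => ?_)
        change W2 (Yv (e.symm t.1).1) (Yv (e.symm t.2).1) = _
        rw [hYe, hYe]
        rfl) (by
        rw [← hub3 H (fun b c d => W3 (Yv b) (Yv c) (Yv d))]
        refine le_trans (le_of_eq ?_) hYs3
        refine Finset.sum_congr rfl (fun t _ => ?_)
        change W3 (Yv (e.symm t.1).1) (Yv (e.symm t.2.1).1) (Yv (e.symm t.2.2).1) = _
        rw [hYe, hYe, hYe]
        rfl)
    refine le_trans ?_ total
    gcongr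
  · intro b hb c hc hbc h
    rw [hYv b hb, hYv c hc] at h
    exact hne b hb c hc hbc (hYinj h)
  · intro a ha b hb c hc hab hac hbc
    rw [hYv a ha, hYv b hb, hYv c hc]
    exact hYcol _ _ _ (hne a ha b hb hab) (hne a ha c hc hac) (hne b hb c hc hbc)
  · intro a ha b hb c hc d hd hab hac had hbc hbd hcd
    rw [hYv a ha, hYv b hb, hYv c hc, hYv d hd]
    exact hYcop _ _ _ _ (hne a ha b hb hab) (hne a ha c hc hac) (hne a ha d hd had)
      (hne b hb c hc hbc) (hne b hb d hd hbd) (hne c hc d hd hcd)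

end

end Pool.Agent.TH480.SM
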