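import Pool.Agent.TH490.StmF
import Pool.Agent.TH75.MP325_P1

/-!
MP_325b7c_co, job SMAIN, part 1: symmetries and probabilities of single events.
-/

set_option autoImplicit false

namespace Pool.Agent.TH480.SM

open Finset Classical Pool.Agent.TH490

noncomputable section

/-! ### symmetries -/

section Symm

variable {N : ℕ}

lemma cop_swap12 (x y z w : Pos N) : Cop x y z w ↔ Cop y x z w := by
  unfold Cop dot cr
  simp only [Pi.sub_apply, Matrix.cons_val_zero, Matrix.cons_val_one, Matrix.cons_val]
  constructor <;> intro h <;> linear_combination (-1 : ℤ) * h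

lemma cop_swap23 (x y z w : Pos N) : Cop x y z w ↔ Cop x z y w := by
  unfold Cop dot cr
  simp only [Pi.sub_apply, Matrix.cons_val_zero, Matrix.cons_val_one, Matrix.cons_val]
  constructor <;> intro h <;> linear_combination (-1 : ℤ) * h

lemma cop_swap34 (x y z w : Pos N) : Cop x y z w ↔ Cop x y w z := by
  unfold Cop dot cr
  simp only [Pi.sub_apply, Matrix.cons_val_zero, Matrix.cons_val_one, Matrix.cons_val]
  constructor <;> intro h <;> linear_combination (-1 : ℤ) * h

lemma cop_pair (x y z w : Pos N) : Cop x y z w ↔ Cop z w x y := by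
  rw [cop_swap23, cop_swap12, cop_swap34, cop_swap23]

lemma col_iff (x y z : Pos N) : Col x y z ↔
    (toZ y 1 - toZ x 1) * (toZ z 2 - toZ x 2) - (toZ y 2 - toZ x 2) * (toZ z 1 - toZ x 1) = 0 ∧
    (toZ y 2 - toZ x 2) * (toZ z 0 - toZ x 0) - (toZ y 0 - toZ x 0) * (toZ z 2 - toZ x 2) = 0 ∧
    (toZ y 0 - toZ x 0) * (toZ z 1 - toZ x 1) - (toZ y 1 - toZ x 1) * (toZ z 0 - toZ x 0) = 0 := by
  unfold Col cr
  constructor
  · intro h
    have h0 := congrFun h 0
    have h1 := congrFun h 1
    have h2 := congrFun h 2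
    simp only [Pi.sub_apply, Matrix.cons_val_zero, Matrix.cons_val_one, Matrix.cons_val,
      Pi.zero_apply] at h0 h1 h2
    exact ⟨h0, h1, h2⟩
  · rintro ⟨h0, h1, h2⟩
    funext i
    fin_cases i
    · exact h0
    · exact h1
    · exact h2

lemma col_swap23 (x y z : Pos N) : Col x y z ↔ Col x z y := by
  rw [col_iff, col_iff]
  constructor
  · rintro ⟨h0, h1, h2⟩
    exact ⟨by linear_combination (-1 : ℤ) * h0, by linear_combination (-1 : ℤ) * h1,
      by linear_combination (-1 : ℤ) * h2⟩
  · rintro ⟨h0, h1, h2⟩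
    exact ⟨by linear_combination (-1 : ℤ) * h0, by linear_combination (-1 : ℤ) * h1,
      by linear_combination (-1 : ℤ) * h2⟩

lemma col_swap12' (x y z : Pos N) (h : Col x y z) : Col y x z := by
  rw [col_iff] at h ⊢
  obtain ⟨h0, h1, h2⟩ := h
  exact ⟨by linear_combination (-1 : ℤ) * h0, by linear_combination (-1 : ℤ) * h1,
      by linear_combination (-1 : ℤ) * h2⟩

lemma col_swap12 (x y z : Pos N) : Col x y z ↔ Col y x z :=
  ⟨col_swap12' x y z, col_swap12' y x z⟩

end Symm

/-! ### probabilities -/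

section Prob

variable {J P : Type} [Fintype J] [Fintype P]

/-- the probability of an event -/
def pr (A : (J → P) → Prop) : ℝ :=
  ((univ.filter (fun f : J → P => A f)).card : ℝ) / (Fintype.card P : ℝ) ^ Fintype.card J

lemma pr_nonneg (A : (J → P) → Prop) : 0 ≤ pr A := by unfold pr; positivity

lemma pr_congr (A B : (J → P) → Prop) (h : ∀ f, A f ↔ B f) : pr A = pr B := by
  have : A = B := funext fun f => propext (h f)
  rw [this]

lemma pr_tuple [Nonempty P] (q : ℕ) (T : (Fin q → P) → Prop) (τ : Fin q → J)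
    (hτ : Function.Injective τ) :
    pr (fun f : J → P => T (fun j => f (τ j))) =
      ((univ.filter (fun t : Fin q → P => T t)).card : ℝ) / (Fintype.card P : ℝ) ^ q := by
  have h := Pool.Agent.TH75.MP325P1.one J P q T τ hτ
  have hP : (0 : ℝ) < Fintype.card P := by exact_mod_cast Fintype.card_pos
  unfold pr
  rw [div_eq_div_iff (by positivity) (by positivity)]
  have h' : (((univ.filter (fun f : J → P => T (fun j => f (τ j)))).card *
      Fintype.card P ^ q : ℕ) : ℝ) =
      (((univ.filter (fun t : Fin q → P => T t)).card *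
        Fintype.card P ^ Fintype.card J : ℕ) : ℝ) := by
    rw [h]
  push_cast at h'
  exact h'

lemma pr_one [Nonempty P] (T : P → Prop) (a : J) :
    pr (fun f : J → P => T (f a)) =
      ((univ.filter (fun z : P => T z)).card : ℝ) / (Fintype.card P : ℝ) := by
  have h := pr_tuple (J := J) (P := P) 1 (fun t => T (t 0)) (fun _ => a)
    (fun i j _ => Subsingleton.elim i j)
  rw [h, pow_one]
  congr 2
  refine Finset.card_bij (fun t _ => t 0) ?_ ?_ ?_
  · intro t ht
    rw [mem_filter] at ht ⊢
    exact ⟨mem_univ _, ht.2⟩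
  · intro s _ t _ hst
    funext i
    rw [Subsingleton.elim i 0]
    exact hst
  · intro z hz
    rw [mem_filter] at hz
    refine ⟨fun _ => z, ?_, rfl⟩
    rw [mem_filter]
    exact ⟨mem_univ _, hz.2⟩

lemma pr_two [Nonempty P] (T : P → P → Prop) (a b : J) (hab : a ≠ b) :
    pr (fun f : J → P => T (f a) (f b)) ≤
      ((univ.filter (fun z : P × P => T z.1 z.2)).card : ℝ) / (Fintype.card P : ℝ) ^ 2 := by
  have h := pr_tuple (J := J) (P := P) 2 (fun t => T (t 0) (t 1)) ![a, b] (by
    intro i j hij
    fin_cases i <;> fin_cases j <;> simp_all)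
  have h1 : pr (fun f : J → P => T (f a) (f b)) =
      pr (fun f : J → P => (fun t : Fin 2 → P => T (t 0) (t 1)) (fun j => f (![a, b] j))) := by
    apply pr_congr; intro f; simp
  rw [h1, h]
  have hP : (0 : ℝ) < Fintype.card P := by exact_mod_cast Fintype.card_pos
  gcongr
  refine Finset.card_le_card_of_injOn (fun t => (t 0, t 1)) ?_ ?_
  · intro t ht
    rw [mem_coe, mem_filter] at ht ⊢
    exact ⟨mem_univ _, ht.2⟩
  · intro s _ t _ hst
    simp only [Prod.mk.injEq] at hst
    funext i
    fin_cases i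
    · exact hst.1
    · exact hst.2

lemma pr_three [Nonempty P] (T : P → P → P → Prop) (a b c : J) (hab : a ≠ b) (hac : a ≠ c)
    (hbc : b ≠ c) :
    pr (fun f : J → P => T (f a) (f b) (f c)) ≤
      ((univ.filter (fun z : P × P × P => T z.1 z.2.1 z.2.2)).card : ℝ) /
        (Fintype.card P : ℝ) ^ 3 := by
  have h := pr_tuple (J := J) (P := P) 3 (fun t => T (t 0) (t 1) (t 2)) ![a, b, c] (by
    intro i j hij
    fin_cases i <;> fin_cases j <;> simp_all)
  have h1 : pr (fun f : J → P => T (f a) (f b) (f c)) =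
      pr (fun f : J → P => (fun t : Fin 3 → P => T (t 0) (t 1) (t 2))
        (fun j => f (![a, b, c] j))) := by
    apply pr_congr; intro f; simp
  rw [h1, h]
  have hP : (0 : ℝ) < Fintype.card P := by exact_mod_cast Fintype.card_pos
  gcongr
  refine Finset.card_le_card_of_injOn (fun t => (t 0, t 1, t 2)) ?_ ?_
  · intro t ht
    rw [mem_coe, mem_filter] at ht ⊢
    exact ⟨mem_univ _, ht.2⟩
  · intro s _ t _ hst
    simp only [Prod.mk.injEq] at hst
    funext i
    fin_cases i
    · exact hst.1
    · exact hst.2.1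
    · exact hst.2.2

lemma pr_four [Nonempty P] (T : P → P → P → P → Prop) (a b c d : J) (hab : a ≠ b)
    (hac : a ≠ c) (had : a ≠ d) (hbc : b ≠ c) (hbd : b ≠ d) (hcd : c ≠ d) :
    pr (fun f : J → P => T (f a) (f b) (f c) (f d)) ≤
      ((univ.filter (fun z : P × P × P × P => T z.1 z.2.1 z.2.2.1 z.2.2.2)).card : ℝ) /
        (Fintype.card P : ℝ) ^ 4 := by
  have h := pr_tuple (J := J) (P := P) 4 (fun t => T (t 0) (t 1) (t 2) (t 3)) ![a, b, c, d] (by
    intro i j hij
    fin_cases i <;> fin_cases j <;> simp_all)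
  have h1 : pr (fun f : J → P => T (f a) (f b) (f c) (f d)) =
      pr (fun f : J → P => (fun t : Fin 4 → P => T (t 0) (t 1) (t 2) (t 3))
        (fun j => f (![a, b, c, d] j))) := by
    apply pr_congr; intro f; simp
  rw [h1, h]
  have hP : (0 : ℝ) < Fintype.card P := by exact_mod_cast Fintype.card_pos
  gcongr
  refine Finset.card_le_card_of_injOn (fun t => (t 0, t 1, t 2, t 3)) ?_ ?_
  · intro t ht
    rw [mem_coe, mem_filter] at ht ⊢
    exact ⟨mem_univ _, ht.2⟩
  · intro s _ t _ hst
    simp only [Prod.mk.injEq] at hst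
    funext i
    fin_cases i
    · exact hst.1
    · exact hst.2.1
    · exact hst.2.2.1
    · exact hst.2.2.2

end Prob

end

end Pool.Agent.TH480.SM
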