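import Pool.Agent.TH480.SM1

/-!
MP_325b7c_co, job SMAIN, part 2: probabilities of the three kinds of events.
-/

set_option autoImplicit false

namespace Pool.Agent.TH480.SM

open Finset Classical Pool.Agent.TH490

noncomputable section

lemma card_prod_le {P X : Type} [Fintype P] [Fintype X] (T : P → X → Prop) (K : ℝ)
    (h : ∀ y, ((univ.filter (fun x => T y x)).card : ℝ) ≤ K) :
    ((univ.filter (fun t : P × X => T t.1 t.2)).card : ℝ) ≤ Fintype.card P * K := by
  have h1 : (univ.filter (fun t : P × X => T t.1 t.2)).card =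
      ∑ y : P, (univ.filter (fun x => T y x)).card := by
    simp only [Finset.card_filter, Fintype.sum_prod_type]
  rw [h1]
  push_cast
  calc ∑ y : P, ((univ.filter (fun x => T y x)).card : ℝ) ≤ ∑ _y : P, K :=
        Finset.sum_le_sum (fun y _ => h y)
    _ = Fintype.card P * K := by simp

lemma card_le_real {X : Type} [Fintype X] (A B : X → Prop) (h : ∀ x, A x → B x) :
    ((univ.filter (fun x => A x)).card : ℝ) ≤ ((univ.filter (fun x => B x)).card : ℝ) := by
  exact_mod_cast Finset.card_le_card (fun x hx => by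
    rw [mem_filter] at hx ⊢; exact ⟨hx.1, h x hx.2⟩)

lemma card_one {P : Type} [Fintype P] (T : P → Prop) (p : P) (h : ∀ z, T z → z = p) :
    ((univ.filter (fun z => T z)).card : ℝ) ≤ 1 := by
  exact_mod_cast Finset.card_le_one.2 (fun u hu v hv => by
    rw [mem_filter] at hu hv
    exact (h u hu.2).trans (h v hv.2).symm)

section Ev

variable {n N : ℕ}

/-- the vertices which are not hubs -/
abbrev NH (H : Finset (Fin n)) := {v : Fin n // v ∉ H}

/-- positions of all the vertices -/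
def qq (H : Finset (Fin n)) (Yv : Fin n → Pos N) (f : NH H → Pos N) (v : Fin n) : Pos N :=
  if h : v ∈ H then Yv v else f ⟨v, h⟩

variable (H : Finset (Fin n)) (Yv : Fin n → Pos N)

lemma qq_pos (f : NH H → Pos N) (v : Fin n) (h : v ∈ H) : qq H Yv f v = Yv v := by
  unfold qq; rw [dif_pos h]

lemma qq_neg (f : NH H → Pos N) (v : Fin n) (h : v ∉ H) : qq H Yv f v = f ⟨v, h⟩ := by
  unfold qq; rw [dif_neg h]

/-- probability that two positions are equal -/
def pe (a b : Fin n) : ℝ := pr (fun f : NH H → Pos N => qq H Yv f a = qq H Yv f b)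

/-- probability that three positions are collinear -/
def pc (a b c : Fin n) : ℝ :=
  pr (fun f : NH H → Pos N => Col (qq H Yv f a) (qq H Yv f b) (qq H Yv f c))

/-- probability that four positions are coplanar -/
def pq (a b c d : Fin n) : ℝ :=
  pr (fun f : NH H → Pos N => Cop (qq H Yv f a) (qq H Yv f b) (qq H Yv f c) (qq H Yv f d))

lemma pe_nonneg (a b : Fin n) : 0 ≤ pe H Yv a b := pr_nonneg _
lemma pc_nonneg (a b c : Fin n) : 0 ≤ pc H Yv a b c := pr_nonneg _
lemma pq_nonneg (a b c d : Fin n) : 0 ≤ pq H Yv a b c d := pr_nonneg _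

lemma pe_symm (a b : Fin n) : pe H Yv a b = pe H Yv b a :=
  pr_congr _ _ (fun _ => eq_comm)

lemma pc_swap12 (a b c : Fin n) : pc H Yv a b c = pc H Yv b a c :=
  pr_congr _ _ (fun _ => col_swap12 _ _ _)

lemma pc_swap23 (a b c : Fin n) : pc H Yv a b c = pc H Yv a c b :=
  pr_congr _ _ (fun _ => col_swap23 _ _ _)

lemma pq_swap12 (a b c d : Fin n) : pq H Yv a b c d = pq H Yv b a c d :=
  pr_congr _ _ (fun _ => cop_swap12 _ _ _ _)

lemma pq_swap23 (a b c d : Fin n) : pq H Yv a b c d = pq H Yv a c b d :=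
  pr_congr _ _ (fun _ => cop_swap23 _ _ _ _)

lemma pq_swap34 (a b c d : Fin n) : pq H Yv a b c d = pq H Yv a b d c :=
  pr_congr _ _ (fun _ => cop_swap34 _ _ _ _)

lemma pq_pair (a b c d : Fin n) : pq H Yv a b c d = pq H Yv c d a b :=
  pr_congr _ _ (fun _ => cop_pair _ _ _ _)

lemma card_pos_real (N : ℕ) : (Fintype.card (Pos N) : ℝ) = (N : ℝ) ^ 3 := by
  simp [Pos]

/-! #### equality -/

lemma pe_le [Nonempty (Pos N)] (hN : 1 ≤ N) (a b : Fin n) (ha : a ∉ H) (hab : a ≠ b) :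
    pe H Yv a b ≤ 1 / (N : ℝ) ^ 3 := by
  have hN' : (0 : ℝ) < (N : ℝ) := by exact_mod_cast hN
  unfold pe
  by_cases hb : b ∈ H
  · have h1 : pr (fun f : NH H → Pos N => qq H Yv f a = qq H Yv f b) =
        pr (fun f : NH H → Pos N => (fun z => z = Yv b) (f ⟨a, ha⟩)) := by
      apply pr_congr; intro f; rw [qq_neg H Yv f a ha, qq_pos H Yv f b hb]
    rw [h1, pr_one (fun z => z = Yv b), card_pos_real]
    have h2 := card_one (fun z : Pos N => z = Yv b) (Yv b) (fun z h => h)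
    gcongr
  · have h1 : pr (fun f : NH H → Pos N => qq H Yv f a = qq H Yv f b) =
        pr (fun f : NH H → Pos N => (fun z w => z = w) (f ⟨a, ha⟩) (f ⟨b, hb⟩)) := by
      apply pr_congr; intro f; rw [qq_neg H Yv f a ha, qq_neg H Yv f b hb]
    rw [h1]
    refine (pr_two (fun z w => z = w) _ _ (by
      intro h; exact hab (congrArg Subtype.val h))).trans ?_
    have h2 := card_prod_le (P := Pos N) (X := Pos N) (fun z w => z = w) 1 (by
      intro y
      exact card_one (fun z : Pos N => y = z) y (fun z h => h.symm))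
    rw [card_pos_real] at h2 ⊢
    rw [div_le_div_iff₀ (by positivity) (by positivity)]
    exact (mul_le_mul_of_nonneg_right h2 (by positivity)).trans (le_of_eq (by ring))

/-! #### collinearity -/

lemma pc_le2 [Nonempty (Pos N)] (hN : 1 ≤ N)
    (hline : ∀ x y : Pos N, x ≠ y → (univ.filter (fun z : Pos N => Col x y z)).card ≤ N)
    (a b c : Fin n) (ha : a ∉ H) (hb : b ∈ H) (hc : c ∈ H) (hY : Yv b ≠ Yv c) :
    pc H Yv a b c ≤ N / (N : ℝ) ^ 3 := by
  have hN' : (0 : ℝ) < (N : ℝ) := by exact_mod_cast hN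
  have h1 : pc H Yv a b c =
      pr (fun f : NH H → Pos N => (fun z => Col (Yv b) (Yv c) z) (f ⟨a, ha⟩)) := by
    apply pr_congr; intro f
    rw [qq_neg H Yv f a ha, qq_pos H Yv f b hb, qq_pos H Yv f c hc, col_swap12, col_swap23]
  rw [h1, pr_one, card_pos_real]
  have := hline _ _ hY
  gcongr

lemma pc_le1 [Nonempty (Pos N)] (hN : 1 ≤ N) (cc : ℝ)
    (hcol : ∀ y : Pos N, ((univ.filter (fun t : Pos N × Pos N => Col y t.1 t.2)).card : ℝ) ≤ cc)
    (a b c : Fin n) (ha : a ∉ H) (hab : a ≠ b) (hac : a ≠ c) (hbc : b ≠ c)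
    (hh : ¬ (b ∈ H ∧ c ∈ H)) :
    pc H Yv a b c ≤ cc / ((N : ℝ) ^ 3) ^ 2 := by
  have hN' : (0 : ℝ) < (N : ℝ) := by exact_mod_cast hN
  -- two non-hubs, one hub
  have key : ∀ a b c : Fin n, a ∉ H → a ≠ b → b ∉ H → c ∈ H →
      pc H Yv a b c ≤ cc / ((N : ℝ) ^ 3) ^ 2 := by
    intro a b c ha hab hb hc
    have h1 : pc H Yv a b c =
        pr (fun f : NH H → Pos N => (fun z w => Col (Yv c) z w) (f ⟨a, ha⟩) (f ⟨b, hb⟩)) := by
      apply pr_congr; intro f
      rw [qq_neg H Yv f a ha, qq_neg H Yv f b hb, qq_pos H Yv f c hc, col_swap23, col_swap12]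
    rw [h1]
    refine (pr_two (fun z w => Col (Yv c) z w) _ _ (by
      intro h; exact hab (congrArg Subtype.val h))).trans ?_
    rw [card_pos_real]
    have := hcol (Yv c)
    gcongr
  by_cases hb : b ∈ H
  · have hc : c ∉ H := fun hc => hh ⟨hb, hc⟩
    rw [pc_swap23]
    exact key a c b ha hac hc hb
  · by_cases hc : c ∈ H
    · exact key a b c ha hab hb hc
    · have h1 : pc H Yv a b c =
          pr (fun f : NH H → Pos N => (fun z w x => Col z w x) (f ⟨a, ha⟩) (f ⟨b, hb⟩)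
            (f ⟨c, hc⟩)) := by
        apply pr_congr; intro f
        rw [qq_neg H Yv f a ha, qq_neg H Yv f b hb, qq_neg H Yv f c hc]
      rw [h1]
      refine (pr_three (fun z w x => Col z w x) _ _ _ (by
        intro h; exact hab (congrArg Subtype.val h)) (by
        intro h; exact hac (congrArg Subtype.val h)) (by
        intro h; exact hbc (congrArg Subtype.val h))).trans ?_
      have h2 := card_prod_le (P := Pos N) (X := Pos N × Pos N)
        (fun y t => Col y t.1 t.2) cc hcol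
      rw [card_pos_real] at h2 ⊢
      rw [div_le_div_iff₀ (by positivity) (by positivity)]
      calc ((univ.filter (fun z : Pos N × Pos N × Pos N => Col z.1 z.2.1 z.2.2)).card : ℝ) *
            ((N : ℝ) ^ 3) ^ 2
          ≤ ((N : ℝ) ^ 3 * cc) * ((N : ℝ) ^ 3) ^ 2 := by gcongr
        _ = cc * ((N : ℝ) ^ 3) ^ 3 := by ring

/-! #### coplanarity -/

/-- number of pairs completing two points to a coplanar quadruple -/
def W2 (x y : Pos N) : ℝ := ((univ.filter (fun z : Pos N × Pos N => Cop x y z.1 z.2)).card : ℝ)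

/-- number of points in the plane of three points -/
def W3 (x y w : Pos N) : ℝ := ((univ.filter (fun z : Pos N => Cop x y w z)).card : ℝ)

lemma W2_nonneg (x y : Pos N) : 0 ≤ W2 x y := by unfold W2; positivity
lemma W3_nonneg (x y w : Pos N) : 0 ≤ W3 x y w := by unfold W3; positivity

lemma pq_le3 [Nonempty (Pos N)] (a b c d : Fin n) (ha : a ∉ H)
    (hb : b ∈ H) (hc : c ∈ H) (hd : d ∈ H) :
    pq H Yv a b c d ≤ W3 (Yv b) (Yv c) (Yv d) / (N : ℝ) ^ 3 := by
  have h1 : pq H Yv a b c d =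
      pr (fun f : NH H → Pos N => (fun z => Cop (Yv b) (Yv c) (Yv d) z) (f ⟨a, ha⟩)) := by
    apply pr_congr; intro f
    rw [qq_neg H Yv f a ha, qq_pos H Yv f b hb, qq_pos H Yv f c hc, qq_pos H Yv f d hd,
      cop_swap12, cop_swap23, cop_swap34]
  rw [h1, pr_one, card_pos_real]
  unfold W3
  exact le_refl _

lemma pq_le2 [Nonempty (Pos N)] (hN : 1 ≤ N) (a b c d : Fin n) (ha : a ∉ H) (hb : b ∉ H)
    (hab : a ≠ b) (hc : c ∈ H) (hd : d ∈ H) :
    pq H Yv a b c d ≤ W2 (Yv c) (Yv d) / ((N : ℝ) ^ 3) ^ 2 := by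
  have hN' : (0 : ℝ) < (N : ℝ) := by exact_mod_cast hN
  have h1 : pq H Yv a b c d =
      pr (fun f : NH H → Pos N => (fun z w => Cop (Yv c) (Yv d) z w) (f ⟨a, ha⟩)
        (f ⟨b, hb⟩)) := by
    apply pr_congr; intro f
    rw [qq_neg H Yv f a ha, qq_neg H Yv f b hb, qq_pos H Yv f c hc, qq_pos H Yv f d hd,
      cop_pair]
  rw [h1]
  refine (pr_two (fun z w => Cop (Yv c) (Yv d) z w) _ _ (by
    intro h; exact hab (congrArg Subtype.val h))).trans ?_
  rw [card_pos_real]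
  unfold W2
  exact le_refl _

lemma pq_le1 [Nonempty (Pos N)] (hN : 1 ≤ N) (cc : ℝ)
    (hcop : ∀ y : Pos N, ((univ.filter (fun t : Pos N × Pos N × Pos N =>
      Cop y t.1 t.2.1 t.2.2)).card : ℝ) ≤ cc)
    (a b c d : Fin n) (ha : a ∉ H) (hb : b ∉ H) (hc : c ∉ H) (hab : a ≠ b) (hac : a ≠ c)
    (had : a ≠ d) (hbc : b ≠ c) (hbd : b ≠ d) (hcd : c ≠ d) :
    pq H Yv a b c d ≤ cc / ((N : ℝ) ^ 3) ^ 3 := by
  have hN' : (0 : ℝ) < (N : ℝ) := by exact_mod_cast hN
  by_cases hd : d ∈ H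
  · have h1 : pq H Yv a b c d =
        pr (fun f : NH H → Pos N => (fun z w x => Cop (Yv d) z w x) (f ⟨a, ha⟩)
          (f ⟨b, hb⟩) (f ⟨c, hc⟩)) := by
      apply pr_congr; intro f
      rw [qq_neg H Yv f a ha, qq_neg H Yv f b hb, qq_neg H Yv f c hc, qq_pos H Yv f d hd,
        cop_swap34, cop_swap23, cop_swap12]
    rw [h1]
    refine (pr_three (fun z w x => Cop (Yv d) z w x) _ _ _ (by
        intro h; exact hab (congrArg Subtype.val h)) (by
        intro h; exact hac (congrArg Subtype.val h)) (by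
        intro h; exact hbc (congrArg Subtype.val h))).trans ?_
    rw [card_pos_real]
    have := hcop (Yv d)
    gcongr
  · have h1 : pq H Yv a b c d =
        pr (fun f : NH H → Pos N => (fun z w x u => Cop z w x u) (f ⟨a, ha⟩)
          (f ⟨b, hb⟩) (f ⟨c, hc⟩) (f ⟨d, hd⟩)) := by
      apply pr_congr; intro f
      rw [qq_neg H Yv f a ha, qq_neg H Yv f b hb, qq_neg H Yv f c hc, qq_neg H Yv f d hd]
    rw [h1]
    refine (pr_four (fun z w x u => Cop z w x u) _ _ _ _ (by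
        intro h; exact hab (congrArg Subtype.val h)) (by
        intro h; exact hac (congrArg Subtype.val h)) (by
        intro h; exact had (congrArg Subtype.val h)) (by
        intro h; exact hbc (congrArg Subtype.val h)) (by
        intro h; exact hbd (congrArg Subtype.val h)) (by
        intro h; exact hcd (congrArg Subtype.val h))).trans ?_
    have h2 := card_prod_le (P := Pos N) (X := Pos N × Pos N × Pos N)
      (fun y t => Cop y t.1 t.2.1 t.2.2) cc hcop
    rw [card_pos_real] at h2 ⊢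
    rw [div_le_div_iff₀ (by positivity) (by positivity)]
    calc ((univ.filter (fun z : Pos N × Pos N × Pos N × Pos N =>
            Cop z.1 z.2.1 z.2.2.1 z.2.2.2)).card : ℝ) * ((N : ℝ) ^ 3) ^ 3
        ≤ ((N : ℝ) ^ 3 * cc) * ((N : ℝ) ^ 3) ^ 3 := by gcongr
      _ = cc * ((N : ℝ) ^ 3) ^ 4 := by ring

/-- the bound for the probability that four positions are coplanar -/
lemma pq_bound [Nonempty (Pos N)] (hN : 1 ≤ N) (cc : ℝ) (hcc : 0 ≤ cc)
    (hcop : ∀ y : Pos N, ((univ.filter (fun t : Pos N × Pos N × Pos N =>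
      Cop y t.1 t.2.1 t.2.2)).card : ℝ) ≤ cc)
    (a b c d : Fin n) (ha : a ∉ H) (hab : a ≠ b) (hac : a ≠ c)
    (had : a ≠ d) (hbc : b ≠ c) (hbd : b ≠ d) (hcd : c ≠ d) :
    pq H Yv a b c d ≤ cc / ((N : ℝ) ^ 3) ^ 3
      + (if c ∈ H ∧ d ∈ H ∧ c ≠ d then W2 (Yv c) (Yv d) / ((N : ℝ) ^ 3) ^ 2 else 0)
      + (if b ∈ H ∧ d ∈ H ∧ b ≠ d then W2 (Yv b) (Yv d) / ((N : ℝ) ^ 3) ^ 2 else 0)
      + (if b ∈ H ∧ c ∈ H ∧ b ≠ c then W2 (Yv b) (Yv c) / ((N : ℝ) ^ 3) ^ 2 else 0)
      + (if b ∈ H ∧ c ∈ H ∧ d ∈ H ∧ b ≠ c ∧ b ≠ d ∧ c ≠ d then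
          W3 (Yv b) (Yv c) (Yv d) / (N : ℝ) ^ 3 else 0) := by
  have hN' : (0 : ℝ) < (N : ℝ) := by exact_mod_cast hN
  have z0 : 0 ≤ cc / ((N : ℝ) ^ 3) ^ 3 := by positivity
  have z1 : 0 ≤ (if c ∈ H ∧ d ∈ H ∧ c ≠ d then W2 (Yv c) (Yv d) / ((N : ℝ) ^ 3) ^ 2
      else 0) := by
    split_ifs
    · have := W2_nonneg (Yv c) (Yv d); positivity
    · exact le_refl _
  have z2 : 0 ≤ (if b ∈ H ∧ d ∈ H ∧ b ≠ d then W2 (Yv b) (Yv d) / ((N : ℝ) ^ 3) ^ 2
      else 0) := by
    split_ifs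
    · have := W2_nonneg (Yv b) (Yv d); positivity
    · exact le_refl _
  have z3 : 0 ≤ (if b ∈ H ∧ c ∈ H ∧ b ≠ c then W2 (Yv b) (Yv c) / ((N : ℝ) ^ 3) ^ 2
      else 0) := by
    split_ifs
    · have := W2_nonneg (Yv b) (Yv c); positivity
    · exact le_refl _
  have z4 : 0 ≤ (if b ∈ H ∧ c ∈ H ∧ d ∈ H ∧ b ≠ c ∧ b ≠ d ∧ c ≠ d then
      W3 (Yv b) (Yv c) (Yv d) / (N : ℝ) ^ 3 else 0) := by
    split_ifs
    · have := W3_nonneg (Yv b) (Yv c) (Yv d); positivity
    · exact le_refl _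
  by_cases hb : b ∈ H
  · by_cases hc : c ∈ H
    · by_cases hd : d ∈ H
      · rw [if_pos (show b ∈ H ∧ c ∈ H ∧ d ∈ H ∧ b ≠ c ∧ b ≠ d ∧ c ≠ d from
          ⟨hb, hc, hd, hbc, hbd, hcd⟩)]
        have := pq_le3 H Yv a b c d ha hb hc hd
        linarith
      · rw [if_pos (show b ∈ H ∧ c ∈ H ∧ b ≠ c from ⟨hb, hc, hbc⟩)]
        have := pq_le2 H Yv hN a d b c ha hd had hb hc
        rw [pq_swap23, pq_swap34] at this
        linarith
    · by_cases hd : d ∈ H
      · rw [if_pos (show b ∈ H ∧ d ∈ H ∧ b ≠ d from ⟨hb, hd, hbd⟩)]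
        have := pq_le2 H Yv hN a c b d ha hc hac hb hd
        rw [pq_swap23] at this
        linarith
      · have := pq_le1 H Yv hN cc hcop a c d b ha hc hd hac had hab hcd hbc.symm
          hbd.symm
        rw [pq_swap34, pq_swap23] at this
        linarith
  · by_cases hc : c ∈ H
    · by_cases hd : d ∈ H
      · rw [if_pos (show c ∈ H ∧ d ∈ H ∧ c ≠ d from ⟨hc, hd, hcd⟩)]
        have := pq_le2 H Yv hN a b c d ha hb hab hc hd
        linarith
      · have := pq_le1 H Yv hN cc hcop a b d c ha hb hd hab had hac hbd hbc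
          hcd.symm
        rw [pq_swap34] at this
        linarith
    · have := pq_le1 H Yv hN cc hcop a b c d ha hb hc hab hac had hbc hbd hcd
      linarith

end Ev

end

end Pool.Agent.TH480.SM
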