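import Pool.Agent.TH480.SM2

/-!
MP_325b7c_co, job SMAIN, part 3: sums over tuples containing a given vertex.
-/

set_option autoImplicit false

namespace Pool.Agent.TH480.SM

open Finset Classical Pool.Agent.TH490

noncomputable section

/-! ### sums over tuples -/

section Sums

variable {α : Type} [Fintype α] [DecidableEq α]

lemma ite_or_le (P Q : Prop) [Decidable P] [Decidable Q] [Decidable (P ∨ Q)]
    (x : ℝ) (hx : 0 ≤ x) :
    (if P ∨ Q then x else 0) ≤ (if P then x else 0) + (if Q then x else 0) := by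
  by_cases hP : P <;> by_cases hQ : Q <;> simp [hP, hQ, hx]

lemma sum2 (g : α → α → ℝ) (hg : ∀ a b, 0 ≤ g a b) (h1 : ∀ a b, g a b = g b a) (j : α) :
    ∑ t : α × α, (if j = t.1 ∨ j = t.2 then g t.1 t.2 else 0) ≤ 2 * ∑ b, g j b := by
  have e1 : ∑ t : α × α, (if j = t.1 then g t.1 t.2 else 0) = ∑ b, g j b := by
    rw [Fintype.sum_prod_type, Finset.sum_eq_single j]
    · simp
    · intro a _ ha
      simp [ha.symm]
    · intro h; exact absurd (mem_univ _) h
  have e2 : ∑ t : α × α, (if j = t.2 then g t.1 t.2 else 0) = ∑ b, g j b := by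
    rw [Fintype.sum_prod_type]
    refine Finset.sum_congr rfl (fun a _ => ?_)
    simp only []
    rw [Finset.sum_eq_single j]
    · simp [h1 a j]
    · intro b _ hb
      simp [hb.symm]
    · intro h; exact absurd (mem_univ _) h
  calc ∑ t : α × α, (if j = t.1 ∨ j = t.2 then g t.1 t.2 else 0)
      ≤ ∑ t : α × α, ((if j = t.1 then g t.1 t.2 else 0) +
          (if j = t.2 then g t.1 t.2 else 0)) :=
        Finset.sum_le_sum (fun t _ => ite_or_le _ _ _ (hg _ _))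
    _ = 2 * ∑ b, g j b := by rw [Finset.sum_add_distrib, e1, e2]; ring

lemma sum3 (g : α → α → α → ℝ) (hg : ∀ a b c, 0 ≤ g a b c)
    (h1 : ∀ a b c, g a b c = g b a c) (j : α) :
    ∑ t : α × α × α, (if j = t.1 ∨ j = t.2.1 ∨ j = t.2.2 then g t.1 t.2.1 t.2.2 else 0)
      ≤ 2 * (∑ b, ∑ c, g j b c) + ∑ a, ∑ b, g a b j := by
  have e1 : ∑ t : α × α × α, (if j = t.1 then g t.1 t.2.1 t.2.2 else 0) =
      ∑ b, ∑ c, g j b c := by
    rw [Fintype.sum_prod_type, Finset.sum_eq_single j]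
    · simp only [if_true]
      rw [Fintype.sum_prod_type]
    · intro a _ ha
      simp [ha.symm]
    · intro h; exact absurd (mem_univ _) h
  have e2 : ∑ t : α × α × α, (if j = t.2.1 then g t.1 t.2.1 t.2.2 else 0) =
      ∑ b, ∑ c, g j b c := by
    rw [Fintype.sum_prod_type]
    refine Finset.sum_congr rfl (fun a _ => ?_)
    rw [Fintype.sum_prod_type, Finset.sum_eq_single j]
    · simp only [if_true]
      exact Finset.sum_congr rfl (fun c _ => h1 a j c)
    · intro a _ ha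
      simp [ha.symm]
    · intro h; exact absurd (mem_univ _) h
  have e3 : ∑ t : α × α × α, (if j = t.2.2 then g t.1 t.2.1 t.2.2 else 0) =
      ∑ a, ∑ b, g a b j := by
    rw [Fintype.sum_prod_type]
    refine Finset.sum_congr rfl (fun a _ => ?_)
    rw [Fintype.sum_prod_type]
    refine Finset.sum_congr rfl (fun b _ => ?_)
    simp only []
    rw [Finset.sum_eq_single j]
    · simp
    · intro b _ hb
      simp [hb.symm]
    · intro h; exact absurd (mem_univ _) h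
  calc ∑ t : α × α × α, (if j = t.1 ∨ j = t.2.1 ∨ j = t.2.2 then g t.1 t.2.1 t.2.2 else 0)
      ≤ ∑ t : α × α × α, ((if j = t.1 then g t.1 t.2.1 t.2.2 else 0) +
          ((if j = t.2.1 then g t.1 t.2.1 t.2.2 else 0) +
          (if j = t.2.2 then g t.1 t.2.1 t.2.2 else 0))) := by
        refine Finset.sum_le_sum (fun t _ => (ite_or_le _ _ _ (hg _ _ _)).trans ?_)
        gcongr
        exact ite_or_le _ _ _ (hg _ _ _)
    _ = _ := by rw [Finset.sum_add_distrib, Finset.sum_add_distrib, e1, e2, e3]; ring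

lemma sum4 (g : α → α → α → α → ℝ) (hg : ∀ a b c d, 0 ≤ g a b c d)
    (h1 : ∀ a b c d, g a b c d = g b a c d) (h2 : ∀ a b c d, g a b c d = g c d a b) (j : α) :
    ∑ t : α × α × α × α, (if j = t.1 ∨ j = t.2.1 ∨ j = t.2.2.1 ∨ j = t.2.2.2 then
        g t.1 t.2.1 t.2.2.1 t.2.2.2 else 0)
      ≤ 4 * ∑ b, ∑ c, ∑ d, g j b c d := by
  have e1 : ∑ t : α × α × α × α, (if j = t.1 then g t.1 t.2.1 t.2.2.1 t.2.2.2 else 0) =
      ∑ b, ∑ c, ∑ d, g j b c d := by
    rw [Fintype.sum_prod_type, Finset.sum_eq_single j]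
    · simp only [if_true]
      rw [Fintype.sum_prod_type]
      exact Finset.sum_congr rfl (fun b _ => Fintype.sum_prod_type _)
    · intro a _ ha
      simp [ha.symm]
    · intro h; exact absurd (mem_univ _) h
  have e2 : ∑ t : α × α × α × α, (if j = t.2.1 then g t.1 t.2.1 t.2.2.1 t.2.2.2 else 0) =
      ∑ b, ∑ c, ∑ d, g j b c d := by
    rw [Fintype.sum_prod_type]
    refine Finset.sum_congr rfl (fun a _ => ?_)
    rw [Fintype.sum_prod_type, Finset.sum_eq_single j]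
    · simp only [if_true]
      rw [Fintype.sum_prod_type]
      exact Finset.sum_congr rfl (fun c _ => Finset.sum_congr rfl (fun d _ => h1 _ _ _ _))
    · intro a _ ha
      simp [ha.symm]
    · intro h; exact absurd (mem_univ _) h
  have e3 : ∑ t : α × α × α × α, (if j = t.2.2.1 then g t.1 t.2.1 t.2.2.1 t.2.2.2 else 0) =
      ∑ b, ∑ c, ∑ d, g j b c d := by
    have : ∑ t : α × α × α × α, (if j = t.2.2.1 then g t.1 t.2.1 t.2.2.1 t.2.2.2 else 0) =
        ∑ a, ∑ b, ∑ d, g j d a b := by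
      rw [Fintype.sum_prod_type]
      refine Finset.sum_congr rfl (fun a _ => ?_)
      rw [Fintype.sum_prod_type]
      refine Finset.sum_congr rfl (fun b _ => ?_)
      rw [Fintype.sum_prod_type, Finset.sum_eq_single j]
      · simp only [if_true]
        exact Finset.sum_congr rfl (fun d _ => h2 _ _ _ _)
      · intro a _ ha
        simp [ha.symm]
      · intro h; exact absurd (mem_univ _) h
    rw [this]
    calc ∑ a, ∑ b, ∑ d, g j d a b = ∑ a, ∑ d, ∑ b, g j d a b :=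
          Finset.sum_congr rfl (fun a _ => Finset.sum_comm)
      _ = ∑ d, ∑ a, ∑ b, g j d a b := Finset.sum_comm
  have e4 : ∑ t : α × α × α × α, (if j = t.2.2.2 then g t.1 t.2.1 t.2.2.1 t.2.2.2 else 0) =
      ∑ b, ∑ c, ∑ d, g j b c d := by
    have : ∑ t : α × α × α × α, (if j = t.2.2.2 then g t.1 t.2.1 t.2.2.1 t.2.2.2 else 0) =
        ∑ a, ∑ b, ∑ c, g j c a b := by
      rw [Fintype.sum_prod_type]
      refine Finset.sum_congr rfl (fun a _ => ?_)
      rw [Fintype.sum_prod_type]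
      refine Finset.sum_congr rfl (fun b _ => ?_)
      rw [Fintype.sum_prod_type]
      refine Finset.sum_congr rfl (fun c _ => ?_)
      simp only []
      rw [Finset.sum_eq_single j]
      · simp only [if_true]
        rw [h2, h1]
      · intro a _ ha
        simp [ha.symm]
      · intro h; exact absurd (mem_univ _) h
    rw [this]
    calc ∑ a, ∑ b, ∑ d, g j d a b = ∑ a, ∑ d, ∑ b, g j d a b :=
          Finset.sum_congr rfl (fun a _ => Finset.sum_comm)
      _ = ∑ d, ∑ a, ∑ b, g j d a b := Finset.sum_comm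
  calc ∑ t : α × α × α × α, (if j = t.1 ∨ j = t.2.1 ∨ j = t.2.2.1 ∨ j = t.2.2.2 then
        g t.1 t.2.1 t.2.2.1 t.2.2.2 else 0)
      ≤ ∑ t : α × α × α × α, ((if j = t.1 then g t.1 t.2.1 t.2.2.1 t.2.2.2 else 0) +
          ((if j = t.2.1 then g t.1 t.2.1 t.2.2.1 t.2.2.2 else 0) +
          ((if j = t.2.2.1 then g t.1 t.2.1 t.2.2.1 t.2.2.2 else 0) +
          (if j = t.2.2.2 then g t.1 t.2.1 t.2.2.1 t.2.2.2 else 0)))) := by
        refine Finset.sum_le_sum (fun t _ => (ite_or_le _ _ _ (hg _ _ _ _)).trans ?_)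
        gcongr
        refine (ite_or_le _ _ _ (hg _ _ _ _)).trans ?_
        gcongr
        exact ite_or_le _ _ _ (hg _ _ _ _)
    _ = _ := by
        rw [Finset.sum_add_distrib, Finset.sum_add_distrib, Finset.sum_add_distrib, e1, e2, e3,
          e4]; ring

end Sums

/-! ### the sums for a vertex which is not a hub -/

section Vertex

variable {n N : ℕ} (G : SimpleGraph (Fin n)) (H : Finset (Fin n)) (Yv : Fin n → Pos N)

/-- validity of pairs -/
def V2 (a b : Fin n) : Prop := a ≠ b ∧ ¬ (a ∈ H ∧ b ∈ H)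

/-- validity of triples -/
def V3 (a b c : Fin n) : Prop := G.Adj a b ∧ c ≠ a ∧ c ≠ b ∧ ¬ (a ∈ H ∧ b ∈ H ∧ c ∈ H)

/-- validity of quadruples -/
def V4 (a b c d : Fin n) : Prop := G.Adj a b ∧ G.Adj c d ∧ c ≠ a ∧ c ≠ b ∧ d ≠ a ∧ d ≠ b ∧
  ¬ (a ∈ H ∧ b ∈ H ∧ c ∈ H ∧ d ∈ H)

/-- weights -/
def g2 (a b : Fin n) : ℝ := if V2 H a b then pe H Yv a b else 0
def g3 (a b c : Fin n) : ℝ := if V3 G H a b c then pc H Yv a b c else 0
def g4 (a b c d : Fin n) : ℝ := if V4 G H a b c d then pq H Yv a b c d else 0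

lemma g2_nonneg (a b : Fin n) : 0 ≤ g2 H Yv a b := by
  unfold g2; split_ifs
  · exact pe_nonneg _ _ _ _
  · exact le_refl _

lemma g3_nonneg (a b c : Fin n) : 0 ≤ g3 G H Yv a b c := by
  unfold g3; split_ifs
  · exact pc_nonneg _ _ _ _ _
  · exact le_refl _

lemma g4_nonneg (a b c d : Fin n) : 0 ≤ g4 G H Yv a b c d := by
  unfold g4; split_ifs
  · exact pq_nonneg _ _ _ _ _ _
  · exact le_refl _

lemma g2_symm (a b : Fin n) : g2 H Yv a b = g2 H Yv b a := by
  have h : V2 H a b ↔ V2 H b a := by unfold V2; constructor <;> intro h <;>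
    exact ⟨h.1.symm, fun h' => h.2 ⟨h'.2, h'.1⟩⟩
  unfold g2
  by_cases hv : V2 H a b
  · rw [if_pos hv, if_pos (h.1 hv), pe_symm]
  · rw [if_neg hv, if_neg (fun h' => hv (h.2 h'))]

lemma g3_symm (a b c : Fin n) : g3 G H Yv a b c = g3 G H Yv b a c := by
  have h : ∀ a b, V3 G H a b c → V3 G H b a c := by
    intro a b h
    obtain ⟨h1, h2, h3, h4⟩ := h
    exact ⟨h1.symm, h3, h2, fun h' => h4 ⟨h'.2.1, h'.1, h'.2.2⟩⟩
  unfold g3
  by_cases hv : V3 G H a b c
  · rw [if_pos hv, if_pos (h _ _ hv), pc_swap12]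
  · rw [if_neg hv, if_neg (fun h' => hv (h _ _ h'))]

lemma g4_symm (a b c d : Fin n) : g4 G H Yv a b c d = g4 G H Yv b a c d := by
  have h : ∀ a b, V4 G H a b c d → V4 G H b a c d := by
    intro a b h
    obtain ⟨h1, h2, h3, h4, h5, h6, h7⟩ := h
    exact ⟨h1.symm, h2, h4, h3, h6, h5, fun h' => h7 ⟨h'.2.1, h'.1, h'.2.2⟩⟩
  unfold g4
  by_cases hv : V4 G H a b c d
  · rw [if_pos hv, if_pos (h _ _ hv), pq_swap12]
  · rw [if_neg hv, if_neg (fun h' => hv (h _ _ h'))]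

lemma g4_pair (a b c d : Fin n) : g4 G H Yv a b c d = g4 G H Yv c d a b := by
  have h : ∀ a b c d, V4 G H a b c d → V4 G H c d a b := by
    intro a b c d h
    obtain ⟨h1, h2, h3, h4, h5, h6, h7⟩ := h
    exact ⟨h2, h1, h3.symm, h5.symm, h4.symm, h6.symm,
      fun h' => h7 ⟨h'.2.2.1, h'.2.2.2, h'.1, h'.2.1⟩⟩
  unfold g4
  by_cases hv : V4 G H a b c d
  · rw [if_pos hv, if_pos (h _ _ _ _ hv), pq_pair]
  · rw [if_neg hv, if_neg (fun h' => hv (h _ _ _ _ h'))]

/-- equal positions -/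
lemma S2_le [Nonempty (Pos N)] (hN : 1 ≤ N) (j : Fin n) (hj : j ∉ H) :
    ∑ b, g2 H Yv j b ≤ n * (1 / (N : ℝ) ^ 3) := by
  calc ∑ b, g2 H Yv j b ≤ ∑ _b : Fin n, (1 / (N : ℝ) ^ 3) := by
        refine Finset.sum_le_sum (fun b _ => ?_)
        unfold g2
        split_ifs with h
        · exact pe_le H Yv hN j b hj h.1
        · positivity
    _ = n * (1 / (N : ℝ) ^ 3) := by simp

lemma sumH (H : Finset (Fin n)) (x : ℝ) :
    ∑ b : Fin n, ∑ c : Fin n, (if b ∈ H ∧ c ∈ H then x else 0) = (H.card : ℝ) ^ 2 * x := by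
  have h1 : ∀ b : Fin n, ∑ c : Fin n, (if b ∈ H ∧ c ∈ H then x else 0) =
      if b ∈ H then (H.card : ℝ) * x else 0 := by
    intro b
    by_cases hb : b ∈ H
    · simp only [hb, true_and, if_true]
      rw [← Finset.sum_filter]
      simp
    · simp [hb]
  simp_rw [h1]
  rw [← Finset.sum_filter]
  simp
  ring

/-- collinear positions, the given vertex is on the edge -/
lemma S3_le [Nonempty (Pos N)] (hN : 1 ≤ N) (cc : ℝ) (hcc : 0 ≤ cc)
    (hline : ∀ x y : Pos N, x ≠ y → (univ.filter (fun z : Pos N => Col x y z)).card ≤ N)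
    (hcol : ∀ y : Pos N, ((univ.filter (fun t : Pos N × Pos N => Col y t.1 t.2)).card : ℝ) ≤ cc)
    (hY : ∀ b ∈ H, ∀ c ∈ H, b ≠ c → Yv b ≠ Yv c)
    (j : Fin n) (hj : j ∉ H) :
    ∑ b, ∑ c, g3 G H Yv j b c ≤ (H.card : ℝ) ^ 2 * (N / (N : ℝ) ^ 3) +
      (n : ℝ) ^ 2 * (cc / ((N : ℝ) ^ 3) ^ 2) := by
  have hN' : (0 : ℝ) < (N : ℝ) := by exact_mod_cast hN
  calc ∑ b, ∑ c, g3 G H Yv j b c
      ≤ ∑ b : Fin n, ∑ c : Fin n, ((if b ∈ H ∧ c ∈ H then (N / (N : ℝ) ^ 3) else 0) +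
          cc / ((N : ℝ) ^ 3) ^ 2) := by
        refine Finset.sum_le_sum (fun b _ => Finset.sum_le_sum (fun c _ => ?_))
        unfold g3
        have z0 : 0 ≤ cc / ((N : ℝ) ^ 3) ^ 2 := by positivity
        have z1 : 0 ≤ (N / (N : ℝ) ^ 3) := by positivity
        split_ifs with h h' h'
        · have := pc_le2 H Yv hN hline j b c hj h'.1 h'.2 (hY b h'.1 c h'.2 h.2.2.1.symm)
          linarith
        · have := pc_le1 H Yv hN cc hcol j b c hj h.1.ne h.2.1.symm h.2.2.1.symm h'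
          linarith
        · linarith
        · linarith
    _ = _ := by
        simp_rw [Finset.sum_add_distrib]
        rw [sumH]
        simp
        ring

/-- collinear positions, the given vertex is not on the edge -/
lemma S3'_le [Nonempty (Pos N)] (hN : 1 ≤ N) (cc : ℝ) (hcc : 0 ≤ cc)
    (hline : ∀ x y : Pos N, x ≠ y → (univ.filter (fun z : Pos N => Col x y z)).card ≤ N)
    (hcol : ∀ y : Pos N, ((univ.filter (fun t : Pos N × Pos N => Col y t.1 t.2)).card : ℝ) ≤ cc)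
    (hY : ∀ b ∈ H, ∀ c ∈ H, b ≠ c → Yv b ≠ Yv c)
    (j : Fin n) (hj : j ∉ H) :
    ∑ a, ∑ b, g3 G H Yv a b j ≤ (H.card : ℝ) ^ 2 * (N / (N : ℝ) ^ 3) +
      (n : ℝ) ^ 2 * (cc / ((N : ℝ) ^ 3) ^ 2) := by
  have hN' : (0 : ℝ) < (N : ℝ) := by exact_mod_cast hN
  calc ∑ b, ∑ c, g3 G H Yv b c j
      ≤ ∑ b : Fin n, ∑ c : Fin n, ((if b ∈ H ∧ c ∈ H then (N / (N : ℝ) ^ 3) else 0) +
          cc / ((N : ℝ) ^ 3) ^ 2) := by
        refine Finset.sum_le_sum (fun b _ => Finset.sum_le_sum (fun c _ => ?_))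
        unfold g3
        have z0 : 0 ≤ cc / ((N : ℝ) ^ 3) ^ 2 := by positivity
        have z1 : 0 ≤ (N / (N : ℝ) ^ 3) := by positivity
        rw [pc_swap23, pc_swap12]
        split_ifs with h h' h'
        · have := pc_le2 H Yv hN hline j b c hj h'.1 h'.2 (hY b h'.1 c h'.2 h.1.ne)
          linarith
        · have := pc_le1 H Yv hN cc hcol j b c hj h.2.1 h.2.2.1 h.1.ne h'
          linarith
        · linarith
        · linarith
    _ = _ := by
        simp_rw [Finset.sum_add_distrib]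
        rw [sumH]
        simp
        ring

/-- coplanar positions -/
lemma S4_le [Nonempty (Pos N)] (hN : 1 ≤ N) (cc : ℝ) (hcc : 0 ≤ cc)
    (hcop : ∀ y : Pos N, ((univ.filter (fun t : Pos N × Pos N × Pos N =>
      Cop y t.1 t.2.1 t.2.2)).card : ℝ) ≤ cc)
    (j : Fin n) (hj : j ∉ H) (dg k : ℝ)
    (hdg : ((univ.filter (fun b => G.Adj j b)).card : ℝ) ≤ dg)
    (hk : ((univ.filter (fun t : Fin n × Fin n => G.Adj t.1 t.2)).card : ℝ) ≤ 2 * k)
    (w2 w3 : ℝ)
    (hw2 : ∑ c, ∑ d, (if c ∈ H ∧ d ∈ H ∧ c ≠ d then W2 (Yv c) (Yv d) else 0) ≤ w2)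
    (hw3 : ∑ b, ∑ c, ∑ d, (if b ∈ H ∧ c ∈ H ∧ d ∈ H ∧ b ≠ c ∧ b ≠ d ∧ c ≠ d then
      W3 (Yv b) (Yv c) (Yv d) else 0) ≤ w3) :
    ∑ b, ∑ c, ∑ d, g4 G H Yv j b c d ≤ dg * (2 * k) * (cc / ((N : ℝ) ^ 3) ^ 3) +
      3 * n * (w2 / ((N : ℝ) ^ 3) ^ 2) + w3 / (N : ℝ) ^ 3 := by
  have hN' : (0 : ℝ) < (N : ℝ) := by exact_mod_cast hN
  have hdg0 : 0 ≤ dg := le_trans (by positivity) hdg
  calc ∑ b, ∑ c, ∑ d, g4 G H Yv j b c d
      ≤ ∑ b : Fin n, ∑ c : Fin n, ∑ d : Fin n,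
          ((if G.Adj j b then (if G.Adj c d then cc / ((N : ℝ) ^ 3) ^ 3 else 0) else 0)
      + (if c ∈ H ∧ d ∈ H ∧ c ≠ d then W2 (Yv c) (Yv d) else 0) / ((N : ℝ) ^ 3) ^ 2
      + (if b ∈ H ∧ d ∈ H ∧ b ≠ d then W2 (Yv b) (Yv d) else 0) / ((N : ℝ) ^ 3) ^ 2
      + (if b ∈ H ∧ c ∈ H ∧ b ≠ c then W2 (Yv b) (Yv c) else 0) / ((N : ℝ) ^ 3) ^ 2
      + (if b ∈ H ∧ c ∈ H ∧ d ∈ H ∧ b ≠ c ∧ b ≠ d ∧ c ≠ d then
          W3 (Yv b) (Yv c) (Yv d) else 0) / (N : ℝ) ^ 3) := by
        refine Finset.sum_le_sum (fun b _ => Finset.sum_le_sum (fun c _ =>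
          Finset.sum_le_sum (fun d _ => ?_)))
        have key : ∀ (Q : Prop) [Decidable Q] (x y : ℝ), (if Q then x else 0) / y = if Q then x / y else 0 := by
          intro Q _ x y; split_ifs <;> simp
        rw [key, key, key, key]
        unfold g4
        by_cases h : V4 G H j b c d
        · rw [if_pos h, if_pos h.1, if_pos h.2.1]
          obtain ⟨h1, h2, h3, h4, h5, h6, h7⟩ := h
          exact pq_bound H Yv hN cc hcc hcop j b c d hj h1.ne h3.symm h5.symm h4.symm h6.symm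
            h2.ne
        · rw [if_neg h]
          have z0 : 0 ≤ (if G.Adj j b then (if G.Adj c d then cc / ((N : ℝ) ^ 3) ^ 3 else 0)
              else 0) := by
            split_ifs <;> positivity
          have z1 : 0 ≤ (if c ∈ H ∧ d ∈ H ∧ c ≠ d then W2 (Yv c) (Yv d) / ((N : ℝ) ^ 3) ^ 2
              else 0) := by
            split_ifs
            · have := W2_nonneg (Yv c) (Yv d); positivity
            · exact le_refl _
          have z2 : 0 ≤ (if b ∈ H ∧ d ∈ H ∧ b ≠ d then W2 (Yv b) (Yv d) / ((N : ℝ) ^ 3) ^ 2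
              else 0) := by
            split_ifs
            · have := W2_nonneg (Yv b) (Yv d); positivity
            · exact le_refl _
          have z3 : 0 ≤ (if b ∈ H ∧ c ∈ H ∧ b ≠ c then W2 (Yv b) (Yv c) / ((N : ℝ) ^ 3) ^ 2
              else 0) := by
            split_ifs
            · have := W2_nonneg (Yv b) (Yv c); positivity
            · exact le_refl _
          have z4 : 0 ≤ (if b ∈ H ∧ c ∈ H ∧ d ∈ H ∧ b ≠ c ∧ b ≠ d ∧ c ≠ d then
              W3 (Yv b) (Yv c) (Yv d) / (N : ℝ) ^ 3 else 0) := by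
            split_ifs
            · have := W3_nonneg (Yv b) (Yv c) (Yv d); positivity
            · exact le_refl _
          linarith
    _ = ((univ.filter (fun b => G.Adj j b)).card : ℝ) *
          ((univ.filter (fun t : Fin n × Fin n => G.Adj t.1 t.2)).card : ℝ) *
            (cc / ((N : ℝ) ^ 3) ^ 3)
        + 3 * n * ((∑ c, ∑ d, (if c ∈ H ∧ d ∈ H ∧ c ≠ d then W2 (Yv c) (Yv d) else 0)) /
            ((N : ℝ) ^ 3) ^ 2)
        + (∑ b, ∑ c, ∑ d, (if b ∈ H ∧ c ∈ H ∧ d ∈ H ∧ b ≠ c ∧ b ≠ d ∧ c ≠ d then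
            W3 (Yv b) (Yv c) (Yv d) else 0)) / (N : ℝ) ^ 3 := by
        simp_rw [Finset.sum_add_distrib]
        have q1 : ∑ b : Fin n, ∑ c : Fin n, ∑ d : Fin n,
            (if G.Adj j b then (if G.Adj c d then cc / ((N : ℝ) ^ 3) ^ 3 else 0) else 0) =
            ((univ.filter (fun b => G.Adj j b)).card : ℝ) *
          ((univ.filter (fun t : Fin n × Fin n => G.Adj t.1 t.2)).card : ℝ) *
            (cc / ((N : ℝ) ^ 3) ^ 3) := by
          have r1 : ∀ b : Fin n, ∑ c : Fin n, ∑ d : Fin n,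
            (if G.Adj j b then (if G.Adj c d then cc / ((N : ℝ) ^ 3) ^ 3 else 0) else 0) =
            if G.Adj j b then (((univ.filter (fun t : Fin n × Fin n =>
              G.Adj t.1 t.2)).card : ℝ) * (cc / ((N : ℝ) ^ 3) ^ 3)) else 0 := by
            intro b
            by_cases hb : G.Adj j b
            · simp only [hb, if_true]
              rw [← Fintype.sum_prod_type' (fun c d => if G.Adj c d then
                cc / ((N : ℝ) ^ 3) ^ 3 else 0), ← Finset.sum_filter]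
              simp
            · simp [hb]
          simp_rw [r1]
          rw [← Finset.sum_filter]
          simp
          ring
        have q2 : ∑ b : Fin n, ∑ c : Fin n, ∑ d : Fin n,
            (if c ∈ H ∧ d ∈ H ∧ c ≠ d then W2 (Yv c) (Yv d) else 0) / ((N : ℝ) ^ 3) ^ 2 =
            n * ((∑ c, ∑ d, (if c ∈ H ∧ d ∈ H ∧ c ≠ d then W2 (Yv c) (Yv d) else 0)) /
            ((N : ℝ) ^ 3) ^ 2) := by
          simp_rw [← Finset.sum_div]
          simp
          ring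
        have q3 : ∑ b : Fin n, ∑ c : Fin n, ∑ d : Fin n,
            (if b ∈ H ∧ d ∈ H ∧ b ≠ d then W2 (Yv b) (Yv d) else 0) / ((N : ℝ) ^ 3) ^ 2 =
            n * ((∑ c, ∑ d, (if c ∈ H ∧ d ∈ H ∧ c ≠ d then W2 (Yv c) (Yv d) else 0)) /
            ((N : ℝ) ^ 3) ^ 2) := by
          rw [Finset.sum_comm, ← q2]
        have q4 : ∑ b : Fin n, ∑ c : Fin n, ∑ d : Fin n,
            (if b ∈ H ∧ c ∈ H ∧ b ≠ c then W2 (Yv b) (Yv c) else 0) / ((N : ℝ) ^ 3) ^ 2 =
            n * ((∑ c, ∑ d, (if c ∈ H ∧ d ∈ H ∧ c ≠ d then W2 (Yv c) (Yv d) else 0)) /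
            ((N : ℝ) ^ 3) ^ 2) := by
          rw [← q3]
          exact Finset.sum_congr rfl (fun b _ => Finset.sum_comm)
        have q5 : ∑ b : Fin n, ∑ c : Fin n, ∑ d : Fin n,
            (if b ∈ H ∧ c ∈ H ∧ d ∈ H ∧ b ≠ c ∧ b ≠ d ∧ c ≠ d then
            W3 (Yv b) (Yv c) (Yv d) else 0) / (N : ℝ) ^ 3 =
            (∑ b, ∑ c, ∑ d, (if b ∈ H ∧ c ∈ H ∧ d ∈ H ∧ b ≠ c ∧ b ≠ d ∧ c ≠ d then
            W3 (Yv b) (Yv c) (Yv d) else 0)) / (N : ℝ) ^ 3 := by
          simp_rw [← Finset.sum_div]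
        rw [q1, q2, q3, q4, q5]
        ring
    _ ≤ _ := by
        gcongr

end Vertex

end

end Pool.Agent.TH480.SM
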