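import Pool.Agent.TH480.SM3

/-!
MP_325b7c_co, job SMAIN, part 4: the local lemma.
-/

set_option autoImplicit false

namespace Pool.Agent.TH480.SM

open Finset Classical Pool.Agent.TH490

noncomputable section

lemma sum_sub_le {X : Type} [Fintype X] (V : X → Prop) (F : X → ℝ) (hF : ∀ x, 0 ≤ F x) :
    ∑ e : {x // V x}, F e.1 ≤ ∑ x, F x := by
  have h : ∑ x ∈ univ.filter V, F x = ∑ e : {x // V x}, F e.1 :=
    Finset.sum_subtype _ (by intro x; simp) _
  rw [← h]
  exact Finset.sum_le_sum_of_subset_of_nonneg (Finset.filter_subset _ _) (fun x _ _ => hF x)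

section LLL

variable {n N : ℕ} (G : SimpleGraph (Fin n)) (H : Finset (Fin n)) (Yv : Fin n → Pos N)

/-- the non-hubs among the vertices of a set -/
def vb (S : Finset (Fin n)) : Finset (NH H) := univ.filter (fun j => j.1 ∈ S)

lemma mem_vb (S : Finset (Fin n)) (j : NH H) : j ∈ vb H S ↔ j.1 ∈ S := by
  unfold vb; simp

lemma vb_card (S : Finset (Fin n)) : (vb H S).card ≤ S.card := by
  refine Finset.card_le_card_of_injOn (fun j => j.1) ?_ ?_
  · intro j hj
    exact (mem_vb H S j).1 hj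
  · intro i _ j _ hij
    exact Subtype.ext hij

lemma vb_nonempty (S : Finset (Fin n)) (v : Fin n) (hv : v ∈ S) (hH : v ∉ H) :
    (vb H S).Nonempty := ⟨⟨v, hH⟩, (mem_vb H S _).2 hv⟩

lemma qq_agree (S : Finset (Fin n)) (f g : NH H → Pos N) (h : ∀ j ∈ vb H S, f j = g j)
    (v : Fin n) (hv : v ∈ S) : qq H Yv f v = qq H Yv g v := by
  by_cases hH : v ∈ H
  · rw [qq_pos H Yv f v hH, qq_pos H Yv g v hH]
  · rw [qq_neg H Yv f v hH, qq_neg H Yv g v hH]
    exact h _ ((mem_vb H S _).2 hv)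

/-- the three kinds of events -/
abbrev E1 := {t : Fin n × Fin n // V2 H t.1 t.2}
abbrev E2 := {t : Fin n × Fin n × Fin n // V3 G H t.1 t.2.1 t.2.2}
abbrev E3 := {t : Fin n × Fin n × Fin n × Fin n // V4 G H t.1 t.2.1 t.2.2.1 t.2.2.2}

/-- the variables of an event -/
def vbl : E1 H ⊕ (E2 G H ⊕ E3 G H) → Finset (NH H)
  | Sum.inl e => vb H {e.1.1, e.1.2}
  | Sum.inr (Sum.inl e) => vb H {e.1.1, e.1.2.1, e.1.2.2}
  | Sum.inr (Sum.inr e) => vb H {e.1.1, e.1.2.1, e.1.2.2.1, e.1.2.2.2}

/-- the events -/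
def Ae : E1 H ⊕ (E2 G H ⊕ E3 G H) → (NH H → Pos N) → Prop
  | Sum.inl e => fun f => qq H Yv f e.1.1 = qq H Yv f e.1.2
  | Sum.inr (Sum.inl e) => fun f => Col (qq H Yv f e.1.1) (qq H Yv f e.1.2.1) (qq H Yv f e.1.2.2)
  | Sum.inr (Sum.inr e) => fun f => Cop (qq H Yv f e.1.1) (qq H Yv f e.1.2.1)
      (qq H Yv f e.1.2.2.1) (qq H Yv f e.1.2.2.2)

theorem lll_real [Nonempty (Pos N)] (hLLL : S_LLL)
    (hbound : ∀ j, j ∉ H → 2 * (∑ b, g2 H Yv j b) +
      ((2 * (∑ b, ∑ c, g3 G H Yv j b c) + ∑ a, ∑ b, g3 G H Yv a b j) +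
      4 * (∑ b, ∑ c, ∑ d, g4 G H Yv j b c d)) ≤ 1 / 16)
    (hY : ∀ b ∈ H, ∀ c ∈ H, b ≠ c → Yv b ≠ Yv c)
    (hcol : ∀ a ∈ H, ∀ b ∈ H, ∀ c ∈ H, a ≠ b → a ≠ c → b ≠ c → ¬ Col (Yv a) (Yv b) (Yv c))
    (hcop : ∀ a ∈ H, ∀ b ∈ H, ∀ c ∈ H, ∀ d ∈ H, a ≠ b → a ≠ c → a ≠ d → b ≠ c → b ≠ d →
      c ≠ d → ¬ Cop (Yv a) (Yv b) (Yv c) (Yv d)) :
    Realz N G := by
  obtain ⟨f, hf⟩ := hLLL (NH H) (Pos N) (E1 H ⊕ (E2 G H ⊕ E3 G H)) (vbl G H) (Ae G H Yv)
    (by
      rintro (e | e | e)
      · exact (vb_card H _).trans (Finset.card_le_two.trans (by norm_num))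
      · exact (vb_card H _).trans (Finset.card_le_three.trans (by norm_num))
      · exact (vb_card H _).trans Finset.card_le_four)
    (by
      rintro (⟨⟨a, b⟩, h1, h2⟩ | ⟨⟨a, b, c⟩, h1, h2, h3, h4⟩ |
        ⟨⟨a, b, c, d⟩, h1, h2, h3, h4, h5, h6, h7⟩)
      · by_cases ha : a ∈ H
        · by_cases hb : b ∈ H
          · exact absurd ⟨ha, hb⟩ h2
          · exact vb_nonempty H _ b (by simp) hb
        · exact vb_nonempty H _ a (by simp) ha
      · by_cases ha : a ∈ H
        · by_cases hb : b ∈ H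
          · by_cases hc : c ∈ H
            · exact absurd ⟨ha, hb, hc⟩ h4
            · exact vb_nonempty H _ c (by simp) hc
          · exact vb_nonempty H _ b (by simp) hb
        · exact vb_nonempty H _ a (by simp) ha
      · by_cases ha : a ∈ H
        · by_cases hb : b ∈ H
          · by_cases hc : c ∈ H
            · by_cases hd : d ∈ H
              · exact absurd ⟨ha, hb, hc, hd⟩ h7
              · exact vb_nonempty H _ d (by simp) hd
            · exact vb_nonempty H _ c (by simp) hc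
          · exact vb_nonempty H _ b (by simp) hb
        · exact vb_nonempty H _ a (by simp) ha)
    (by
      rintro (e | e | e) f g hfg hA
      · have h1 := qq_agree H Yv _ f g hfg e.1.1 (by simp)
        have h2 := qq_agree H Yv _ f g hfg e.1.2 (by simp)
        simp only [Ae] at hA ⊢
        rw [← h1, ← h2]; exact hA
      · have h1 := qq_agree H Yv _ f g hfg e.1.1 (by simp)
        have h2 := qq_agree H Yv _ f g hfg e.1.2.1 (by simp)
        have h3 := qq_agree H Yv _ f g hfg e.1.2.2 (by simp)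
        simp only [Ae] at hA ⊢
        rw [← h1, ← h2, ← h3]; exact hA
      · have h1 := qq_agree H Yv _ f g hfg e.1.1 (by simp)
        have h2 := qq_agree H Yv _ f g hfg e.1.2.1 (by simp)
        have h3 := qq_agree H Yv _ f g hfg e.1.2.2.1 (by simp)
        have h4 := qq_agree H Yv _ f g hfg e.1.2.2.2 (by simp)
        simp only [Ae] at hA ⊢
        rw [← h1, ← h2, ← h3, ← h4]; exact hA)
    (by
      intro j
      rw [Finset.sum_filter, Fintype.sum_sum_type, Fintype.sum_sum_type]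
      refine le_trans ?_ (hbound j.1 j.2)
      refine add_le_add ?_ (add_le_add ?_ ?_)
      · refine (Finset.sum_le_sum (fun e _ => ?_)).trans
          ((sum_sub_le _ (fun t : Fin n × Fin n => if j.1 = t.1 ∨ j.1 = t.2 then
            g2 H Yv t.1 t.2 else 0) (by
              intro t; split_ifs
              · exact g2_nonneg _ _ _ _
              · exact le_refl _)).trans
            (sum2 (g2 H Yv) (g2_nonneg H Yv) (g2_symm H Yv) j.1))
        by_cases hj : j ∈ vbl G H (Sum.inl e)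
        · rw [if_pos hj]
          have hj' : j.1 = e.1.1 ∨ j.1 = e.1.2 := by
            have := (mem_vb H _ _).1 hj
            simpa using this
          rw [if_pos hj']
          unfold g2
          rw [if_pos e.2]
          exact le_refl _
        · rw [if_neg hj]
          split_ifs
          · exact g2_nonneg _ _ _ _
          · exact le_refl _
      · refine (Finset.sum_le_sum (fun e _ => ?_)).trans
          ((sum_sub_le _ (fun t : Fin n × Fin n × Fin n => if j.1 = t.1 ∨ j.1 = t.2.1 ∨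
            j.1 = t.2.2 then g3 G H Yv t.1 t.2.1 t.2.2 else 0) (by
              intro t; split_ifs
              · exact g3_nonneg _ _ _ _ _ _
              · exact le_refl _)).trans
            (sum3 (g3 G H Yv) (g3_nonneg G H Yv) (g3_symm G H Yv) j.1))
        by_cases hj : j ∈ vbl G H (Sum.inr (Sum.inl e))
        · rw [if_pos hj]
          have hj' : j.1 = e.1.1 ∨ j.1 = e.1.2.1 ∨ j.1 = e.1.2.2 := by
            have := (mem_vb H _ _).1 hj
            simpa using this
          rw [if_pos hj']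
          unfold g3
          rw [if_pos e.2]
          exact le_refl _
        · rw [if_neg hj]
          split_ifs
          · exact g3_nonneg _ _ _ _ _ _
          · exact le_refl _
      · refine (Finset.sum_le_sum (fun e _ => ?_)).trans
          ((sum_sub_le _ (fun t : Fin n × Fin n × Fin n × Fin n => if j.1 = t.1 ∨ j.1 = t.2.1 ∨
            j.1 = t.2.2.1 ∨ j.1 = t.2.2.2 then g4 G H Yv t.1 t.2.1 t.2.2.1 t.2.2.2 else 0) (by
              intro t; split_ifs
              · exact g4_nonneg _ _ _ _ _ _ _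
              · exact le_refl _)).trans
            (sum4 (g4 G H Yv) (g4_nonneg G H Yv) (g4_symm G H Yv) (g4_pair G H Yv) j.1))
        by_cases hj : j ∈ vbl G H (Sum.inr (Sum.inr e))
        · rw [if_pos hj]
          have hj' : j.1 = e.1.1 ∨ j.1 = e.1.2.1 ∨ j.1 = e.1.2.2.1 ∨ j.1 = e.1.2.2.2 := by
            have := (mem_vb H _ _).1 hj
            simpa using this
          rw [if_pos hj']
          unfold g4
          rw [if_pos e.2]
          exact le_refl _
        · rw [if_neg hj]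
          split_ifs
          · exact g4_nonneg _ _ _ _ _ _ _
          · exact le_refl _)
  refine ⟨qq H Yv f, ?_, ?_, ?_⟩
  · intro u v huv
    by_contra hne
    by_cases h : u ∈ H ∧ v ∈ H
    · rw [qq_pos H Yv f u h.1, qq_pos H Yv f v h.2] at huv
      exact hY u h.1 v h.2 hne huv
    · exact hf (Sum.inl ⟨(u, v), hne, h⟩) huv
  · intro u v w huv hwu hwv hc
    by_cases h : u ∈ H ∧ v ∈ H ∧ w ∈ H
    · rw [qq_pos H Yv f u h.1, qq_pos H Yv f v h.2.1, qq_pos H Yv f w h.2.2] at hc
      exact hcol u h.1 v h.2.1 w h.2.2 huv.ne hwu.symm hwv.symm hc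
    · exact hf (Sum.inr (Sum.inl ⟨(u, v, w), huv, hwu, hwv, h⟩)) hc
  · intro u v x y huv hxy hxu hxv hyu hyv hc
    by_cases h : u ∈ H ∧ v ∈ H ∧ x ∈ H ∧ y ∈ H
    · rw [qq_pos H Yv f u h.1, qq_pos H Yv f v h.2.1, qq_pos H Yv f x h.2.2.1,
        qq_pos H Yv f y h.2.2.2] at hc
      exact hcop u h.1 v h.2.1 x h.2.2.1 y h.2.2.2 huv.ne hxu.symm hyu.symm hxv.symm hyv.symm
        hxy.ne hc
    · exact hf (Sum.inr (Sum.inr ⟨(u, v, x, y), huv, hxy, hxu, hxv, hyu, hyv, h⟩)) hc

end LLL

/-! ### the hubs -/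

section Hubs

variable {n N : ℕ} (H : Finset (Fin n))

lemma hub1 (ψ : Fin n → ℝ) :
    ∑ i : Fin H.card, ψ (H.equivFin.symm i).1 = ∑ c : Fin n, if c ∈ H then ψ c else 0 := by
  rw [← Finset.sum_filter]
  have h1 : ∑ i : Fin H.card, ψ (H.equivFin.symm i).1 = ∑ x : {x // x ∈ H}, ψ x.1 :=
    Equiv.sum_comp H.equivFin.symm (fun x => ψ x.1)
  rw [h1, Finset.sum_coe_sort H ψ]
  congr 1
  ext x; simp

lemma symm_ne (i j : Fin H.card) :
    i ≠ j ↔ (H.equivFin.symm i).1 ≠ (H.equivFin.symm j).1 := by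
  constructor
  · intro h h'
    exact h (H.equivFin.symm.injective (Subtype.ext h'))
  · intro h h'
    exact h (by rw [h'])

lemma hub2 (φ : Fin n → Fin n → ℝ) :
    ∑ t ∈ univ.filter (fun t : Fin H.card × Fin H.card => t.1 ≠ t.2),
      φ (H.equivFin.symm t.1).1 (H.equivFin.symm t.2).1 =
    ∑ c : Fin n, ∑ d : Fin n, if c ∈ H ∧ d ∈ H ∧ c ≠ d then φ c d else 0 := by
  rw [Finset.sum_filter, Fintype.sum_prod_type]
  have h1 : ∀ i : Fin H.card, ∑ j : Fin H.card, (if i ≠ j then
      φ (H.equivFin.symm i).1 (H.equivFin.symm j).1 else 0) =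
      (fun c : Fin n => ∑ d : Fin n, if d ∈ H ∧ c ≠ d then φ c d else 0)
        (H.equivFin.symm i).1 := by
    intro i
    have h2 := hub1 H (fun d => if (H.equivFin.symm i).1 ≠ d then
      φ (H.equivFin.symm i).1 d else 0)
    simp only []
    calc ∑ j : Fin H.card, (if i ≠ j then
        φ (H.equivFin.symm i).1 (H.equivFin.symm j).1 else 0)
        = ∑ j : Fin H.card, (if (H.equivFin.symm i).1 ≠ (H.equivFin.symm j).1 then
            φ (H.equivFin.symm i).1 (H.equivFin.symm j).1 else 0) := by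
          refine Finset.sum_congr rfl (fun j _ => ?_)
          by_cases hij : i ≠ j
          · rw [if_pos hij, if_pos ((symm_ne H i j).1 hij)]
          · rw [if_neg hij, if_neg (fun h => hij ((symm_ne H i j).2 h))]
      _ = _ := by
          rw [h2]
          refine Finset.sum_congr rfl (fun d _ => ?_)
          by_cases hd : d ∈ H <;> by_cases hc : (H.equivFin.symm i).1 ≠ d <;> simp [hd, hc]
  calc ∑ i : Fin H.card, ∑ j : Fin H.card, (if i ≠ j then
      φ (H.equivFin.symm i).1 (H.equivFin.symm j).1 else 0)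
      = ∑ i : Fin H.card, (fun c : Fin n => ∑ d : Fin n, if d ∈ H ∧ c ≠ d then φ c d else 0)
        (H.equivFin.symm i).1 := Finset.sum_congr rfl (fun i _ => h1 i)
    _ = _ := by
      rw [hub1 H (fun c : Fin n => ∑ d : Fin n, if d ∈ H ∧ c ≠ d then φ c d else 0)]
      refine Finset.sum_congr rfl (fun c _ => ?_)
      by_cases hc : c ∈ H
      · simp [hc]
      · simp [hc]

lemma hub3 (φ : Fin n → Fin n → Fin n → ℝ) :
    ∑ t ∈ univ.filter (fun t : Fin H.card × Fin H.card × Fin H.card => t.1 ≠ t.2.1 ∧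
        t.1 ≠ t.2.2 ∧ t.2.1 ≠ t.2.2),
      φ (H.equivFin.symm t.1).1 (H.equivFin.symm t.2.1).1 (H.equivFin.symm t.2.2).1 =
    ∑ b : Fin n, ∑ c : Fin n, ∑ d : Fin n, if b ∈ H ∧ c ∈ H ∧ d ∈ H ∧ b ≠ c ∧ b ≠ d ∧ c ≠ d then
      φ b c d else 0 := by
  rw [Finset.sum_filter, Fintype.sum_prod_type]
  have h1 : ∀ i : Fin H.card, ∑ t : Fin H.card × Fin H.card,
      (if i ≠ t.1 ∧ i ≠ t.2 ∧ t.1 ≠ t.2 then
      φ (H.equivFin.symm i).1 (H.equivFin.symm t.1).1 (H.equivFin.symm t.2).1 else 0) =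
      (fun b : Fin n => ∑ c : Fin n, ∑ d : Fin n,
        if c ∈ H ∧ d ∈ H ∧ b ≠ c ∧ b ≠ d ∧ c ≠ d then φ b c d else 0)
        (H.equivFin.symm i).1 := by
    intro i
    have h2 := hub2 H (fun c d => if (H.equivFin.symm i).1 ≠ c ∧ (H.equivFin.symm i).1 ≠ d then
      φ (H.equivFin.symm i).1 c d else 0)
    rw [Finset.sum_filter] at h2
    simp only []
    calc ∑ t : Fin H.card × Fin H.card, (if i ≠ t.1 ∧ i ≠ t.2 ∧ t.1 ≠ t.2 then
        φ (H.equivFin.symm i).1 (H.equivFin.symm t.1).1 (H.equivFin.symm t.2).1 else 0)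
        = ∑ t : Fin H.card × Fin H.card, (if t.1 ≠ t.2 then
            (if (H.equivFin.symm i).1 ≠ (H.equivFin.symm t.1).1 ∧
              (H.equivFin.symm i).1 ≠ (H.equivFin.symm t.2).1 then
            φ (H.equivFin.symm i).1 (H.equivFin.symm t.1).1 (H.equivFin.symm t.2).1
            else 0) else 0) := by
          refine Finset.sum_congr rfl (fun t _ => ?_)
          have q1 := symm_ne H i t.1
          have q2 := symm_ne H i t.2
          by_cases hij : i ≠ t.1
          · by_cases hij' : i ≠ t.2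
            · have q3 := q1.1 hij
              have q4 := q2.1 hij'
              by_cases hij'' : t.1 ≠ t.2
              · rw [if_pos ⟨hij, hij', hij''⟩, if_pos hij'', if_pos ⟨q3, q4⟩]
              · rw [if_neg (fun h => hij'' h.2.2), if_neg hij'']
            · have q4 := fun h => hij' (q2.2 h)
              rw [if_neg (fun h => hij' h.2.1)]
              split_ifs with h3 h4
              · exact absurd h4.2 q4
              · rfl
              · rfl
          · have q4 := fun h => hij (q1.2 h)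
            rw [if_neg (fun h => hij h.1)]
            split_ifs with h3 h4
            · exact absurd h4.1 q4
            · rfl
            · rfl
      _ = _ := by
          rw [h2]
          refine Finset.sum_congr rfl (fun c _ => Finset.sum_congr rfl (fun d _ => ?_))
          by_cases hc : c ∈ H <;> by_cases hd : d ∈ H <;> by_cases hcd : c ≠ d <;>
            by_cases e1 : (H.equivFin.symm i).1 ≠ c <;>
            by_cases e2 : (H.equivFin.symm i).1 ≠ d <;> simp [hc, hd, hcd, e1, e2]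
  calc ∑ i : Fin H.card, ∑ t : Fin H.card × Fin H.card,
      (if i ≠ t.1 ∧ i ≠ t.2 ∧ t.1 ≠ t.2 then
      φ (H.equivFin.symm i).1 (H.equivFin.symm t.1).1 (H.equivFin.symm t.2).1 else 0)
      = ∑ i : Fin H.card, (fun b : Fin n => ∑ c : Fin n, ∑ d : Fin n,
        if c ∈ H ∧ d ∈ H ∧ b ≠ c ∧ b ≠ d ∧ c ≠ d then φ b c d else 0)
        (H.equivFin.symm i).1 := Finset.sum_congr rfl (fun i _ => h1 i)
    _ = _ := by
      rw [hub1 H (fun b : Fin n => ∑ c : Fin n, ∑ d : Fin n,
        if c ∈ H ∧ d ∈ H ∧ b ≠ c ∧ b ≠ d ∧ c ≠ d then φ b c d else 0)]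
      refine Finset.sum_congr rfl (fun b _ => ?_)
      by_cases hb : b ∈ H
      · simp [hb]
      · simp [hb]

end Hubs

end

end Pool.Agent.TH480.SM
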