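import Mathlib
import Pool.Agent.TH165.Tan.Etale

/-!
# Job 909 (MP_5575af-1): vanishing of `H^1` of the structure sheaf on covering sieves
-/

set_option autoImplicit false

open TensorProduct

namespace Pool.Agent.TH165.Tan

namespace Helper480

section amitsur

variable (R : Type) [CommRing R] (A : Type) [CommRing A] [Algebra R A]

/-- the first differential of the Amitsur complex -/
noncomputable def del0 : A →ₗ[R] A ⊗[R] A :=
  TensorProduct.mk R A A 1 - (TensorProduct.mk R A A).flip 1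

/-- the second differential of the Amitsur complex -/
noncomputable def del1 : A ⊗[R] A →ₗ[R] A ⊗[R] (A ⊗[R] A) :=
  LinearMap.lTensor A ((TensorProduct.mk R A A).flip 1) + TensorProduct.mk R A (A ⊗[R] A) 1 -
    LinearMap.lTensor A (TensorProduct.mk R A A 1)

lemma del0_apply (a : A) : del0 R A a = 1 ⊗ₜ a - a ⊗ₜ 1 := rfl

lemma del1_tmul (a b : A) : del1 R A (a ⊗ₜ b) =
    a ⊗ₜ (b ⊗ₜ 1) + 1 ⊗ₜ (a ⊗ₜ b) - a ⊗ₜ (1 ⊗ₜ b) := rfl

lemma del1_del0 (a : A) : del1 R A (del0 R A a) = 0 := by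
  rw [del0_apply, map_sub, del1_tmul, del1_tmul]
  abel

/-- the contraction in degree one -/
noncomputable def con1 : A ⊗[R] (A ⊗[R] A) →ₗ[R] A ⊗[R] A :=
  (LinearMap.rTensor A (LinearMap.mul' R A)) ∘ₗ
    ((TensorProduct.assoc R A A A).symm : A ⊗[R] (A ⊗[R] A) →ₗ[R] (A ⊗[R] A) ⊗[R] A)

/-- the contraction in degree two -/
noncomputable def con2 : A ⊗[R] (A ⊗[R] (A ⊗[R] A)) →ₗ[R] A ⊗[R] (A ⊗[R] A) :=
  (LinearMap.rTensor (A ⊗[R] A) (LinearMap.mul' R A)) ∘ₗ
    ((TensorProduct.assoc R A A (A ⊗[R] A)).symm :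
      A ⊗[R] (A ⊗[R] (A ⊗[R] A)) →ₗ[R] (A ⊗[R] A) ⊗[R] (A ⊗[R] A))

lemma con1_tmul (a b c : A) : con1 R A (a ⊗ₜ (b ⊗ₜ c)) = (a * b) ⊗ₜ c := rfl

lemma con2_tmul (a b : A) (c : A ⊗[R] A) : con2 R A (a ⊗ₜ (b ⊗ₜ c)) = (a * b) ⊗ₜ c := rfl

lemma homotopy (x : A ⊗[R] (A ⊗[R] A)) :
    con2 R A ((del1 R A).lTensor A x) = x - (del0 R A).lTensor A (con1 R A x) := by
  have h : con2 R A ∘ₗ (del1 R A).lTensor A =
      LinearMap.id - (del0 R A).lTensor A ∘ₗ con1 R A := by
    apply TensorProduct.ext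
    apply LinearMap.ext
    intro a
    apply TensorProduct.ext
    apply LinearMap.ext
    intro b
    apply LinearMap.ext
    intro c
    show con2 R A ((del1 R A).lTensor A (a ⊗ₜ (b ⊗ₜ c))) =
      a ⊗ₜ (b ⊗ₜ c) - (del0 R A).lTensor A (con1 R A (a ⊗ₜ (b ⊗ₜ c)))
    rw [con1_tmul, LinearMap.lTensor_tmul, LinearMap.lTensor_tmul, del1_tmul, del0_apply,
      tmul_sub, tmul_add, map_sub, map_add, con2_tmul, con2_tmul, con2_tmul, tmul_sub, mul_one]
    abel
  exact LinearMap.congr_fun h x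

lemma amitsur_exact [Module.FaithfullyFlat R A] : Function.Exact (del0 R A) (del1 R A) := by
  rw [← Module.FaithfullyFlat.lTensor_exact_iff_exact R A]
  intro x
  constructor
  · intro hx
    have h1 := homotopy R A x
    rw [hx, map_zero] at h1
    exact ⟨con1 R A x, (sub_eq_zero.1 h1.symm).symm⟩
  · rintro ⟨y, rfl⟩
    have h : (del1 R A).lTensor A ∘ₗ (del0 R A).lTensor A = 0 := by
      rw [← LinearMap.lTensor_comp]
      have h1 : del1 R A ∘ₗ del0 R A = 0 := LinearMap.ext (del1_del0 R A)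
      rw [h1, LinearMap.lTensor_zero]
    exact LinearMap.congr_fun h y

end amitsur

section finite

variable {R : Type} [CommRing R] {ι : Type} [Fintype ι] [DecidableEq ι] (S : ι → Type)
    [∀ i, CommRing (S i)] [∀ i, Algebra R (S i)]

lemma one_eq_sum : (1 : ∀ i, S i) = ∑ i, LinearMap.single R S i (1 : S i) :=
  (Finset.univ_sum_single (1 : ∀ i, S i)).symm

/-- the inclusion of a triple product -/
noncomputable def m3 (i j k : ι) :
    S i ⊗[R] (S j ⊗[R] S k) →ₗ[R] (∀ i, S i) ⊗[R] ((∀ i, S i) ⊗[R] (∀ i, S i)) :=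
  TensorProduct.map (LinearMap.single R S i)
    (TensorProduct.map (LinearMap.single R S j) (LinearMap.single R S k))

lemma e12 (i j : ι) (d : S i ⊗[R] S j) :
    LinearMap.lTensor (∀ i, S i) ((TensorProduct.mk R (∀ i, S i) (∀ i, S i)).flip 1)
      (TensorProduct.map (LinearMap.single R S i) (LinearMap.single R S j) d) =
    ∑ k, m3 S i j k (LinearMap.lTensor (S i) ((TensorProduct.mk R (S j) (S k)).flip 1) d) := by
  induction d with
  | zero => simp
  | add x y hx hy =>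
    rw [map_add, map_add, hx, hy, ← Finset.sum_add_distrib]
    apply Finset.sum_congr rfl
    intro k _
    rw [map_add, map_add]
  | tmul a b =>
    show LinearMap.single R S i a ⊗ₜ[R] (LinearMap.single R S j b ⊗ₜ[R] (1 : ∀ i, S i)) =
      ∑ k, LinearMap.single R S i a ⊗ₜ[R]
        (LinearMap.single R S j b ⊗ₜ[R] LinearMap.single R S k 1)
    rw [one_eq_sum (R := R) S, tmul_sum, tmul_sum]

lemma e23 (j k : ι) (d : S j ⊗[R] S k) :
    TensorProduct.mk R (∀ i, S i) ((∀ i, S i) ⊗[R] (∀ i, S i)) 1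
      (TensorProduct.map (LinearMap.single R S j) (LinearMap.single R S k) d) =
    ∑ i, m3 S i j k (TensorProduct.mk R (S i) (S j ⊗[R] S k) 1 d) := by
  show (1 : ∀ i, S i) ⊗ₜ[R] (TensorProduct.map (LinearMap.single R S j)
      (LinearMap.single R S k) d) =
    ∑ i, (LinearMap.single R S i 1) ⊗ₜ[R] (TensorProduct.map (LinearMap.single R S j)
      (LinearMap.single R S k) d)
  rw [one_eq_sum (R := R) S, sum_tmul]

lemma e13 (i k : ι) (d : S i ⊗[R] S k) :
    LinearMap.lTensor (∀ i, S i) (TensorProduct.mk R (∀ i, S i) (∀ i, S i) 1)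
      (TensorProduct.map (LinearMap.single R S i) (LinearMap.single R S k) d) =
    ∑ j, m3 S i j k (LinearMap.lTensor (S i) (TensorProduct.mk R (S j) (S k) 1) d) := by
  induction d with
  | zero => simp
  | add x y hx hy =>
    rw [map_add, map_add, hx, hy, ← Finset.sum_add_distrib]
    apply Finset.sum_congr rfl
    intro k _
    rw [map_add, map_add]
  | tmul a b =>
    show LinearMap.single R S i a ⊗ₜ[R] ((1 : ∀ i, S i) ⊗ₜ[R] LinearMap.single R S k b) =
      ∑ j, LinearMap.single R S i a ⊗ₜ[R]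
        (LinearMap.single R S j 1 ⊗ₜ[R] LinearMap.single R S k b)
    rw [one_eq_sum (R := R) S, sum_tmul, tmul_sum]

lemma h1_fin [∀ i, Module.Flat R (S i)]
    (hs : ∀ p : PrimeSpectrum R, ∃ i, p ∈ Set.range (PrimeSpectrum.comap (algebraMap R (S i))))
    (D : ∀ i j, S i ⊗[R] S j)
    (hD : ∀ i j k, LinearMap.lTensor (S i) ((TensorProduct.mk R (S j) (S k)).flip 1) (D i j) +
      TensorProduct.mk R (S i) (S j ⊗[R] S k) 1 (D j k) =
      LinearMap.lTensor (S i) (TensorProduct.mk R (S j) (S k) 1) (D i k)) :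
    ∃ r : ∀ i, S i, ∀ i j, D i j = 1 ⊗ₜ r j - r i ⊗ₜ 1 := by
  have flat : Module.Flat R (∀ i, S i) :=
    Module.Flat.of_linearEquiv (DFinsupp.linearEquivFunOnFintype (R := R) (M := S)).symm
  have ff : Module.FaithfullyFlat R (∀ i, S i) := by
    refine .of_comap_surjective fun p => ?_
    obtain ⟨i, q, hq⟩ := hs p
    refine ⟨PrimeSpectrum.comap (Pi.evalRingHom S i) q, ?_⟩
    rw [← hq]
    rfl
  let Dx : (∀ i, S i) ⊗[R] (∀ i, S i) := ∑ i, ∑ j,
    TensorProduct.map (LinearMap.single R S i) (LinearMap.single R S j) (D i j)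
  have hDx : del1 R (∀ i, S i) Dx = 0 := by
    show LinearMap.lTensor (∀ i, S i) ((TensorProduct.mk R (∀ i, S i) (∀ i, S i)).flip 1) Dx +
      TensorProduct.mk R (∀ i, S i) ((∀ i, S i) ⊗[R] (∀ i, S i)) 1 Dx -
      LinearMap.lTensor (∀ i, S i) (TensorProduct.mk R (∀ i, S i) (∀ i, S i) 1) Dx = 0
    have h12 : LinearMap.lTensor (∀ i, S i)
        ((TensorProduct.mk R (∀ i, S i) (∀ i, S i)).flip 1) Dx = ∑ i, ∑ j, ∑ k,
        m3 S i j k (LinearMap.lTensor (S i) ((TensorProduct.mk R (S j) (S k)).flip 1)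
          (D i j)) := by
      rw [map_sum]
      apply Finset.sum_congr rfl
      intro i _
      rw [map_sum]
      apply Finset.sum_congr rfl
      intro j _
      exact e12 S i j (D i j)
    have h23 : TensorProduct.mk R (∀ i, S i) ((∀ i, S i) ⊗[R] (∀ i, S i)) 1 Dx =
        ∑ i, ∑ j, ∑ k,
        m3 S i j k (TensorProduct.mk R (S i) (S j ⊗[R] S k) 1 (D j k)) := by
      rw [map_sum]
      have h1 : ∀ j, TensorProduct.mk R (∀ i, S i) ((∀ i, S i) ⊗[R] (∀ i, S i)) 1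
          (∑ k, TensorProduct.map (LinearMap.single R S j) (LinearMap.single R S k) (D j k)) =
          ∑ i, ∑ k, m3 S i j k (TensorProduct.mk R (S i) (S j ⊗[R] S k) 1 (D j k)) := by
        intro j
        rw [map_sum, Finset.sum_comm]
        apply Finset.sum_congr rfl
        intro k _
        exact e23 S j k (D j k)
      rw [Finset.sum_congr rfl fun j _ => h1 j, Finset.sum_comm]
    have h13 : LinearMap.lTensor (∀ i, S i) (TensorProduct.mk R (∀ i, S i) (∀ i, S i) 1) Dx =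
        ∑ i, ∑ j, ∑ k,
        m3 S i j k (LinearMap.lTensor (S i) (TensorProduct.mk R (S j) (S k) 1) (D i k)) := by
      rw [map_sum]
      apply Finset.sum_congr rfl
      intro i _
      rw [map_sum, Finset.sum_comm]
      apply Finset.sum_congr rfl
      intro k _
      exact e13 S i k (D i k)
    rw [h12, h23, h13, sub_eq_zero, ← Finset.sum_add_distrib]
    apply Finset.sum_congr rfl
    intro i _
    rw [← Finset.sum_add_distrib]
    apply Finset.sum_congr rfl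
    intro j _
    rw [← Finset.sum_add_distrib]
    apply Finset.sum_congr rfl
    intro k _
    rw [← map_add, hD]
  obtain ⟨r, hr⟩ := (amitsur_exact R (∀ i, S i) Dx).1 hDx
  refine ⟨r, ?_⟩
  intro i j
  have h1 := congrArg (TensorProduct.map (LinearMap.proj i : (∀ i, S i) →ₗ[R] S i)
    (LinearMap.proj j : (∀ i, S i) →ₗ[R] S j)) hr
  rw [del0_apply, map_sub, map_tmul, map_tmul] at h1
  have h2 : TensorProduct.map (LinearMap.proj i : (∀ i, S i) →ₗ[R] S i)
      (LinearMap.proj j : (∀ i, S i) →ₗ[R] S j) Dx = D i j := by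
    rw [map_sum, Finset.sum_eq_single i]
    · rw [map_sum, Finset.sum_eq_single j]
      · rw [← LinearMap.comp_apply, ← TensorProduct.map_comp, LinearMap.proj_comp_single_same,
          LinearMap.proj_comp_single_same, TensorProduct.map_id]
        rfl
      · intro j' _ hj'
        rw [← LinearMap.comp_apply, ← TensorProduct.map_comp,
          LinearMap.proj_comp_single_ne R S _ _ hj'.symm, TensorProduct.map_zero_right]
        rfl
      · intro h
        exact absurd (Finset.mem_univ _) h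
    · intro i' _ hi'
      rw [map_sum]
      apply Finset.sum_eq_zero
      intro j' _
      rw [← LinearMap.comp_apply, ← TensorProduct.map_comp,
        LinearMap.proj_comp_single_ne R S _ _ hi'.symm, TensorProduct.map_zero_left]
      rfl
    · intro h
      exact absurd (Finset.mem_univ _) h
  rw [h2] at h1
  exact h1.symm

end finite

end Helper480

open Helper480

variable {R : Type} [CommRing R]

/-- A 1-cocycle on a covering sieve with values in the structure sheaf is a coboundary. -/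
theorem Sv.Covers.h1 {𝒰 : Sv R} (h𝒰 : 𝒰.Covers)
    (D : ∀ (S T : Type) [CommRing S] [CommRing T] (φ : R →+* S) (_ : S →+* T), 𝒰.mem φ → T)
    (hD : ∀ (S T U : Type) [CommRing S] [CommRing T] [CommRing U] (φ : R →+* S) (ψ : S →+* T)
      (χ : T →+* U) (h : 𝒰.mem φ) (h' : 𝒰.mem (ψ.comp φ)),
      D S U φ (χ.comp ψ) h = χ (D S T φ ψ h) + D T U (ψ.comp φ) χ h') :
    ∃ r : ∀ (S : Type) [CommRing S] (φ : R →+* S), 𝒰.mem φ → S,
      ∀ (S T : Type) [CommRing S] [CommRing T] (φ : R →+* S) (ψ : S →+* T) (h : 𝒰.mem φ)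
        (h' : 𝒰.mem (ψ.comp φ)), D S T φ ψ h = r T (ψ.comp φ) h' - ψ (r S φ h) := by
  classical
  have hcov := h𝒰
  choose S _ φ hφ hφ' hp using h𝒰
  obtain ⟨t, ht⟩ := isCompact_univ.elim_finite_subcover
    (fun p => Set.range (PrimeSpectrum.comap (φ p))) (fun p => etale_range_open (hφ p))
    (fun p _ => Set.mem_iUnion.mpr ⟨p, hp p⟩)
  have ht' : ∀ p : PrimeSpectrum R, ∃ i : t, p ∈ Set.range (PrimeSpectrum.comap (φ i)) := by
    intro p
    obtain ⟨i, hi, hi'⟩ := Set.mem_iUnion₂.mp (ht (Set.mem_univ p))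
    exact ⟨⟨i, hi⟩, hi'⟩
  let (i : t) : Algebra R (S i) := (φ i).toAlgebra
  have (i : t) : Module.Flat R (S i) := by
    have h' : RingHom.Etale (algebraMap R (S i)) := hφ i
    have : Algebra.Etale R (S i) := RingHom.etale_algebraMap.mp h'
    infer_instance
  have congr_D1 : ∀ (S T : Type) [CommRing S] [CommRing T] (φ φ' : R →+* S) (ψ : S →+* T)
      (h : 𝒰.mem φ) (h' : 𝒰.mem φ'), φ = φ' → D S T φ ψ h = D S T φ' ψ h' := by
    rintro S T _ _ φ φ' ψ h h' rfl
    rfl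
  have congr_D2 : ∀ (S T : Type) [CommRing S] [CommRing T] (φ : R →+* S) (ψ ψ' : S →+* T)
      (h : 𝒰.mem φ), ψ = ψ' → D S T φ ψ h = D S T φ ψ' h := by
    rintro S T _ _ φ ψ ψ' h rfl
    rfl
  -- the inclusions
  let inl : ∀ i j : t, S i →+* S i ⊗[R] S j := fun i j =>
    Algebra.TensorProduct.includeLeftRingHom
  let inr : ∀ i j : t, S j →+* S i ⊗[R] S j := fun i j =>
    Algebra.TensorProduct.includeRight.toRingHom
  have hcomm : ∀ i j : t, (inl i j).comp (φ i) = (inr i j).comp (φ j) := by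
    intro i j
    apply RingHom.ext
    intro x
    change (algebraMap R (S i) x) ⊗ₜ[R] (1 : S j) = (1 : S i) ⊗ₜ[R] (algebraMap R (S j) x)
    rw [Algebra.algebraMap_eq_smul_one, Algebra.algebraMap_eq_smul_one, smul_tmul]
  let Dm : ∀ i j : t, S i ⊗[R] S j := fun i j =>
    D (S i) (S i ⊗[R] S j) (φ i) (inl i j) (hφ' i) -
      D (S j) (S i ⊗[R] S j) (φ j) (inr i j) (hφ' j)
  -- applying a ring map out of the tensor product
  have hDm : ∀ (i j : t) (Q : Type) [CommRing Q] (e : S i ⊗[R] S j →+* Q),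
      e (Dm i j) = D (S i) Q (φ i) (e.comp (inl i j)) (hφ' i) -
        D (S j) Q (φ j) (e.comp (inr i j)) (hφ' j) := by
    intro i j Q _ e
    have h1 := hD (S i) (S i ⊗[R] S j) Q (φ i) (inl i j) e (hφ' i) (𝒰.comp_mem _ _ (hφ' i))
    have h2 := hD (S j) (S i ⊗[R] S j) Q (φ j) (inr i j) e (hφ' j) (𝒰.comp_mem _ _ (hφ' j))
    rw [h1, h2, congr_D1 _ _ _ _ e (𝒰.comp_mem _ _ (hφ' i)) (𝒰.comp_mem _ _ (hφ' j))
      (hcomm i j)]
    show e (D (S i) (S i ⊗[R] S j) (φ i) (inl i j) (hφ' i) -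
      D (S j) (S i ⊗[R] S j) (φ j) (inr i j) (hφ' j)) = _
    rw [map_sub]
    ring
  obtain ⟨r, hr⟩ := h1_fin (fun i : t => S i) ht' Dm (by
    intro i j k
    let E12 : S i ⊗[R] S j →ₐ[R] S i ⊗[R] (S j ⊗[R] S k) :=
      Algebra.TensorProduct.map (AlgHom.id R (S i)) Algebra.TensorProduct.includeLeft
    let E23 : S j ⊗[R] S k →ₐ[R] S i ⊗[R] (S j ⊗[R] S k) := Algebra.TensorProduct.includeRight
    let E13 : S i ⊗[R] S k →ₐ[R] S i ⊗[R] (S j ⊗[R] S k) :=
      Algebra.TensorProduct.map (AlgHom.id R (S i)) Algebra.TensorProduct.includeRight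
    have h12 := hDm i j (S i ⊗[R] (S j ⊗[R] S k)) E12.toRingHom
    have h23 := hDm j k (S i ⊗[R] (S j ⊗[R] S k)) E23.toRingHom
    have h13 := hDm i k (S i ⊗[R] (S j ⊗[R] S k)) E13.toRingHom
    have c1 : E13.toRingHom.comp (inl i k) = E12.toRingHom.comp (inl i j) := by
      apply RingHom.ext
      intro x
      show E13 (x ⊗ₜ (1 : S k)) = E12 (x ⊗ₜ (1 : S j))
      simp [E12, E13]
    have c2 : E23.toRingHom.comp (inl j k) = E12.toRingHom.comp (inr i j) := by
      apply RingHom.ext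
      intro x
      show E23 (x ⊗ₜ (1 : S k)) = E12 ((1 : S i) ⊗ₜ x)
      simp [E12, E23]
    have c3 : E23.toRingHom.comp (inr j k) = E13.toRingHom.comp (inr i k) := by
      apply RingHom.ext
      intro x
      show E23 ((1 : S j) ⊗ₜ x) = E13 ((1 : S i) ⊗ₜ x)
      simp [E13, E23]
    rw [congr_D2 _ _ _ _ _ (hφ' i) c1] at h13
    rw [congr_D2 _ _ _ _ _ (hφ' j) c2, congr_D2 _ _ _ _ _ (hφ' k) c3] at h23
    have l12 : ∀ d : S i ⊗[R] S j,
        LinearMap.lTensor (S i) ((TensorProduct.mk R (S j) (S k)).flip 1) d =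
        E12.toRingHom d := by
      intro d
      induction d with
      | zero => rw [map_zero, map_zero]
      | add x y hx hy => rw [map_add, map_add, hx, hy]
      | tmul a b => rfl
    have l13 : ∀ d : S i ⊗[R] S k,
        LinearMap.lTensor (S i) (TensorProduct.mk R (S j) (S k) 1) d =
        E13.toRingHom d := by
      intro d
      induction d with
      | zero => rw [map_zero, map_zero]
      | add x y hx hy => rw [map_add, map_add, hx, hy]
      | tmul a b => rfl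
    have l23 : ∀ d : S j ⊗[R] S k,
        TensorProduct.mk R (S i) (S j ⊗[R] S k) 1 d = E23.toRingHom d := fun d => rfl
    rw [l12, l13, l23, h12, h13, h23]
    ring)
  -- the values on maps factoring through the finite family
  let 𝒱 : Sv R :=
    { mem := fun {T} _ χ => ∃ (i : t) (ρ : S i →+* T), χ = ρ.comp (φ i)
      comp_mem := by
        rintro _ _ _ _ _ χ ⟨i, ρ, rfl⟩
        exact ⟨i, χ.comp ρ, rfl⟩ }
  have h𝒱 : 𝒱.Covers := by
    intro p
    obtain ⟨i, hi⟩ := ht' p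
    exact ⟨S i, _, φ i, hφ i, ⟨i, RingHom.id _, rfl⟩, hi⟩
  have hindep : ∀ (Q : Type) [CommRing Q] (i j : t) (ρ : S i →+* Q) (ρ' : S j →+* Q),
      ρ.comp (φ i) = ρ'.comp (φ j) →
      ρ (r i) + D (S i) Q (φ i) ρ (hφ' i) = ρ' (r j) + D (S j) Q (φ j) ρ' (hφ' j) := by
    intro Q _ i j ρ ρ' hρ
    let : Algebra R Q := (ρ.comp (φ i)).toAlgebra
    let c' : S i →ₐ[R] Q := { ρ with commutes' := fun r => rfl }
    let d' : S j →ₐ[R] Q := { ρ' with commutes' := fun r => (RingHom.congr_fun hρ r).symm }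
    let e : S i ⊗[R] S j →ₐ[R] Q := Algebra.TensorProduct.lift c' d' (fun _ _ => Commute.all _ _)
    have he1 : e.toRingHom.comp (inl i j) = ρ := by
      apply RingHom.ext
      intro x
      show e (x ⊗ₜ (1 : S j)) = ρ x
      simp [e, c', d']
    have he2 : e.toRingHom.comp (inr i j) = ρ' := by
      apply RingHom.ext
      intro x
      show e ((1 : S i) ⊗ₜ x) = ρ' x
      simp [e, c', d']
    have h1 := hDm i j Q e.toRingHom
    rw [congr_D2 _ _ _ _ _ (hφ' i) he1, congr_D2 _ _ _ _ _ (hφ' j) he2, hr i j, map_sub] at h1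
    have h2 : e.toRingHom ((1 : S i) ⊗ₜ r j) = ρ' (r j) := RingHom.congr_fun he2 (r j)
    have h3 : e.toRingHom (r i ⊗ₜ (1 : S j)) = ρ (r i) := RingHom.congr_fun he1 (r i)
    rw [h2, h3] at h1
    linear_combination -h1
  have hex : ∀ (Q : Type) [CommRing Q] (θ : R →+* Q), 𝒱.mem θ → ∃ x : Q,
      ∀ (i : t) (ρ : S i →+* Q), θ = ρ.comp (φ i) →
        x = ρ (r i) + D (S i) Q (φ i) ρ (hφ' i) := by
    rintro Q _ θ ⟨i, ρ, hθ⟩
    refine ⟨ρ (r i) + D (S i) Q (φ i) ρ (hφ' i), ?_⟩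
    intro j ρ' hρ'
    apply hindep
    rw [← hθ, hρ']
  let v : ∀ (Q : Type) [CommRing Q] (θ : R →+* Q), 𝒱.mem θ → Q := fun Q _ θ h =>
    Classical.choose (hex Q θ h)
  have hv : ∀ (Q : Type) [CommRing Q] (θ : R →+* Q) (h : 𝒱.mem θ) (i : t) (ρ : S i →+* Q),
      θ = ρ.comp (φ i) → v Q θ h = ρ (r i) + D (S i) Q (φ i) ρ (hφ' i) := by
    intro Q _ θ h i ρ hθ
    exact Classical.choose_spec (hex Q θ h) i ρ hθ
  have hmem : ∀ (Q : Type) [CommRing Q] (θ : R →+* Q), 𝒱.mem θ → 𝒰.mem θ := by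
    rintro Q _ θ ⟨i, ρ, rfl⟩
    exact 𝒰.comp_mem _ _ (hφ' i)
  have hvcomp : ∀ (Q Q' : Type) [CommRing Q] [CommRing Q'] (θ : R →+* Q) (ζ : Q →+* Q')
      (h : 𝒱.mem θ) (h' : 𝒱.mem (ζ.comp θ)),
      v Q' (ζ.comp θ) h' = ζ (v Q θ h) + D Q Q' θ ζ (hmem Q θ h) := by
    intro Q Q' _ _ θ ζ h h'
    obtain ⟨i, ρ, hθ⟩ := id h
    subst hθ
    rw [hv Q _ h i ρ rfl, hv Q' _ h' i (ζ.comp ρ) (RingHom.comp_assoc _ _ _).symm, map_add,
      hD (S i) Q Q' (φ i) ρ ζ (hφ' i) (𝒰.comp_mem _ _ (hφ' i)), RingHom.comp_apply]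
    ring
  -- gluing
  have hglue : ∀ (T : Type) [CommRing T] (ψ : R →+* T) (h : 𝒰.mem ψ), ∃ x : T,
      ∀ (Q : Type) [CommRing Q] (χ : T →+* Q) (hχ : 𝒱.mem (χ.comp ψ)),
        χ x = v Q (χ.comp ψ) hχ - D T Q ψ χ h := by
    intro T _ ψ h
    obtain ⟨x, hx, _⟩ := (h𝒱.pull ψ).glue
      (fun Q _ χ hχ => v Q (χ.comp ψ) hχ - D T Q ψ χ h) (by
        intro Q Q' _ _ χ ζ hχ hζ
        have hζ' : 𝒱.mem (ζ.comp (χ.comp ψ)) := 𝒱.comp_mem _ _ hχ
        have h1 := hvcomp Q Q' (χ.comp ψ) ζ hχ hζ'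
        have h2 : v Q' ((ζ.comp χ).comp ψ) hζ = v Q' (ζ.comp (χ.comp ψ)) hζ' := rfl
        have h3 := hD T Q Q' ψ χ ζ h (𝒰.comp_mem _ _ h)
        rw [h2, h1, h3, map_sub]
        ring)
    exact ⟨x, hx⟩
  refine ⟨fun T _ ψ h => Classical.choose (hglue T ψ h), ?_⟩
  intro S₁ T _ _ φ₁ ψ h h'
  have hS := Classical.choose_spec (hglue S₁ φ₁ h)
  have hT := Classical.choose_spec (hglue T (ψ.comp φ₁) h')
  refine (h𝒱.pull (ψ.comp φ₁)).ext fun Q _ χ hχ => ?_
  have h1 := hT Q χ hχ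
  have h2 := hS Q (χ.comp ψ) hχ
  have h3 := hD S₁ T Q φ₁ ψ χ h h'
  rw [map_sub, h1]
  have h4 : χ (ψ (Classical.choose (hglue S₁ φ₁ h))) =
      (χ.comp ψ) (Classical.choose (hglue S₁ φ₁ h)) := rfl
  rw [h4, h2, h3]
  have h5 : v Q ((χ.comp ψ).comp φ₁) hχ = v Q (χ.comp (ψ.comp φ₁)) hχ := rfl
  rw [h5]
  ring

end Pool.Agent.TH165.Tan
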