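import Mathlib
import Pool.Agent.TH165.Tan.Etale

/-!
# Job 910 (MP_5575af-2): gluing and vanishing of `H^1` modulo `π`
-/

set_option autoImplicit false

open TensorProduct

namespace Pool.Agent.TH165.Tan

namespace Helper480

variable {R : Type} [CommRing R] (π : R)

/-- the quotient by `φ π` -/
abbrev Qt {S : Type} [CommRing S] (φ : R →+* S) : Type := S ⧸ Ideal.span {φ π}

/-- the quotient map -/
abbrev mkq {S : Type} [CommRing S] (φ : R →+* S) : S →+* Qt π φ := Ideal.Quotient.mk _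

lemma mkq_pi {S : Type} [CommRing S] (φ : R →+* S) : mkq π φ (φ π) = 0 :=
  Ideal.Quotient.eq_zero_iff_mem.2 (Ideal.mem_span_singleton_self _)

lemma exists_of_mkq_eq {S : Type} [CommRing S] (φ : R →+* S) {x y : S}
    (h : mkq π φ x = mkq π φ y) : ∃ e : S, x = y + φ π * e := by
  have h1 : x - y ∈ Ideal.span {φ π} := Ideal.Quotient.eq.1 h
  obtain ⟨e, he⟩ := Ideal.mem_span_singleton.1 h1
  exact ⟨e, by rw [← he]; ring⟩

/-- the induced map on quotients -/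
def bar {S T : Type} [CommRing S] [CommRing T] (φ : R →+* S) (ψ : S →+* T) :
    Qt π φ →+* Qt π (ψ.comp φ) :=
  Ideal.Quotient.lift _ ((mkq π (ψ.comp φ)).comp ψ) (by
    intro x hx
    obtain ⟨e, rfl⟩ := Ideal.mem_span_singleton.1 hx
    rw [map_mul]
    have h1 : ((mkq π (ψ.comp φ)).comp ψ) (φ π) = 0 := mkq_pi π (ψ.comp φ)
    rw [h1, zero_mul])

lemma bar_mk {S T : Type} [CommRing S] [CommRing T] (φ : R →+* S) (ψ : S →+* T) (x : S) :
    bar π φ ψ (mkq π φ x) = mkq π (ψ.comp φ) (ψ x) := rfl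

lemma bar_comp {S T : Type} [CommRing S] [CommRing T] (φ : R →+* S) (ψ : S →+* T) :
    (bar π φ ψ).comp (mkq π φ) = (mkq π (ψ.comp φ)).comp ψ := RingHom.ext fun _ => rfl

/-- the quotient of the base -/
abbrev Q0 (π : R) : Type := R ⧸ Ideal.span {π}

/-- the quotient map of the base -/
abbrev mk0 : R →+* Q0 π := Ideal.Quotient.mk _

lemma mk0_pi : mk0 π π = 0 :=
  Ideal.Quotient.eq_zero_iff_mem.2 (Ideal.mem_span_singleton_self _)

/-- the induced map from the quotient of the base -/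
def bar0 {S : Type} [CommRing S] (φ : R →+* S) : Q0 π →+* Qt π φ :=
  Ideal.Quotient.lift _ ((mkq π φ).comp φ) (by
    intro x hx
    obtain ⟨e, rfl⟩ := Ideal.mem_span_singleton.1 hx
    rw [map_mul]
    have h1 : ((mkq π φ).comp φ) π = 0 := mkq_pi π φ
    rw [h1, zero_mul])

lemma bar0_comp {S : Type} [CommRing S] (φ : R →+* S) :
    (bar0 π φ).comp (mk0 π) = (mkq π φ).comp φ := RingHom.ext fun _ => rfl

lemma bar_bar0 {S T : Type} [CommRing S] [CommRing T] (φ : R →+* S) (ψ : S →+* T) :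
    (bar π φ ψ).comp (bar0 π φ) = bar0 π (ψ.comp φ) := by
  apply RingHom.ext
  intro x
  obtain ⟨y, rfl⟩ := Ideal.Quotient.mk_surjective x
  rfl

end Helper480

open Helper480

variable {R : Type} [CommRing R]

/-- Compatible families modulo `π` can be glued modulo `π`. -/
theorem Sv.Covers.h0mod {𝒰 : Sv R} (h𝒰 : 𝒰.Covers) (π : R)
    (a : ∀ (S : Type) [CommRing S] (φ : R →+* S), 𝒰.mem φ → S)
    (ha : ∀ (S T : Type) [CommRing S] [CommRing T] (φ : R →+* S) (ψ : S →+* T) (h : 𝒰.mem φ)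
      (h' : 𝒰.mem (ψ.comp φ)), ∃ e : T, a T (ψ.comp φ) h' = ψ (a S φ h) + ψ (φ π) * e) :
    ∃ r : R, ∀ (S : Type) [CommRing S] (φ : R →+* S) (h : 𝒰.mem φ),
      ∃ e : S, a S φ h = φ r + φ π * e := by
  have congr_a : ∀ (T : Type) [CommRing T] (ψ ψ' : R →+* T) (h : 𝒰.mem ψ) (h' : 𝒰.mem ψ'),
      ψ = ψ' → a T ψ h = a T ψ' h' := by
    rintro T _ ψ ψ' h h' rfl
    rfl
  obtain ⟨r1, hr1, _⟩ := (h𝒰.pull (mk0 π)).glue
    (fun S _ χ h => a S (χ.comp (mk0 π)) h) (by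
      intro S T _ _ χ ψ h h'
      have h0 : 𝒰.mem (χ.comp (mk0 π)) := h
      obtain ⟨e, he⟩ := ha S T (χ.comp (mk0 π)) ψ h0 (𝒰.comp_mem _ _ h0)
      have h1 : ψ ((χ.comp (mk0 π)) π) = 0 := by
        rw [RingHom.comp_apply, mk0_pi, map_zero, map_zero]
      rw [h1, zero_mul, add_zero] at he
      rw [← he]
      exact congr_a _ _ _ _ _ (RingHom.comp_assoc _ _ _).symm)
  obtain ⟨r, rfl⟩ := Ideal.Quotient.mk_surjective r1
  refine ⟨r, ?_⟩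
  intro S _ φ h
  have hm : 𝒰.mem ((bar0 π φ).comp (mk0 π)) := by
    rw [bar0_comp]
    exact 𝒰.comp_mem _ _ h
  have h1 := hr1 (Qt π φ) (bar0 π φ) hm
  have h2 : bar0 π φ (mk0 π r) = mkq π φ (φ r) := rfl
  have h3 : a (Qt π φ) ((bar0 π φ).comp (mk0 π)) hm = a (Qt π φ) ((mkq π φ).comp φ)
      (𝒰.comp_mem _ _ h) := congr_a _ _ _ _ _ (bar0_comp π φ)
  obtain ⟨e, he⟩ := ha S (Qt π φ) φ (mkq π φ) h (𝒰.comp_mem _ _ h)
  rw [mkq_pi, zero_mul, add_zero] at he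
  apply exists_of_mkq_eq
  rw [← he, ← h3, ← h2]
  exact h1.symm

/-- A 1-cocycle modulo `π` on a covering sieve is a coboundary modulo `π`. -/
theorem Sv.Covers.h1mod_of
    (h1 : ∀ (R : Type) [CommRing R] (𝒰 : Sv R), 𝒰.Covers →
      ∀ (D : ∀ (S T : Type) [CommRing S] [CommRing T] (φ : R →+* S) (_ : S →+* T), 𝒰.mem φ → T)
      (_ : ∀ (S T U : Type) [CommRing S] [CommRing T] [CommRing U] (φ : R →+* S) (ψ : S →+* T)
        (χ : T →+* U) (h : 𝒰.mem φ) (h' : 𝒰.mem (ψ.comp φ)),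
        D S U φ (χ.comp ψ) h = χ (D S T φ ψ h) + D T U (ψ.comp φ) χ h'),
      ∃ r : ∀ (S : Type) [CommRing S] (φ : R →+* S), 𝒰.mem φ → S,
        ∀ (S T : Type) [CommRing S] [CommRing T] (φ : R →+* S) (ψ : S →+* T) (h : 𝒰.mem φ)
          (h' : 𝒰.mem (ψ.comp φ)), D S T φ ψ h = r T (ψ.comp φ) h' - ψ (r S φ h))
    {𝒰 : Sv R} (h𝒰 : 𝒰.Covers) (π : R)
    (D : ∀ (S T : Type) [CommRing S] [CommRing T] (φ : R →+* S) (_ : S →+* T), 𝒰.mem φ → T)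
    (hD : ∀ (S T U : Type) [CommRing S] [CommRing T] [CommRing U] (φ : R →+* S) (ψ : S →+* T)
      (χ : T →+* U) (h : 𝒰.mem φ) (h' : 𝒰.mem (ψ.comp φ)),
      ∃ e : U, D S U φ (χ.comp ψ) h = χ (D S T φ ψ h) + D T U (ψ.comp φ) χ h' +
        χ (ψ (φ π)) * e) :
    ∃ r : ∀ (S : Type) [CommRing S] (φ : R →+* S), 𝒰.mem φ → S,
      ∀ (S T : Type) [CommRing S] [CommRing T] (φ : R →+* S) (ψ : S →+* T) (h : 𝒰.mem φ)
        (h' : 𝒰.mem (ψ.comp φ)), ∃ e : T,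
          D S T φ ψ h = r T (ψ.comp φ) h' - ψ (r S φ h) + ψ (φ π) * e := by
  have congr_D1 : ∀ (S T : Type) [CommRing S] [CommRing T] (φ φ' : R →+* S) (ψ : S →+* T)
      (h : 𝒰.mem φ) (h' : 𝒰.mem φ'), φ = φ' → D S T φ ψ h = D S T φ' ψ h' := by
    rintro S T _ _ φ φ' ψ h h' rfl
    rfl
  have congr_D2 : ∀ (S T : Type) [CommRing S] [CommRing T] (φ : R →+* S) (ψ ψ' : S →+* T)
      (h : 𝒰.mem φ), ψ = ψ' → D S T φ ψ h = D S T φ ψ' h := by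
    rintro S T _ _ φ ψ ψ' h rfl
    rfl
  obtain ⟨r1, hr1⟩ := h1 (Q0 π) (𝒰.pull (mk0 π)) (h𝒰.pull (mk0 π))
    (fun S T _ _ χ ψ h => D S T (χ.comp (mk0 π)) ψ h) (by
      intro S T U _ _ _ χ ψ χ' h h'
      have h0 : 𝒰.mem (χ.comp (mk0 π)) := h
      obtain ⟨e, he⟩ := hD S T U (χ.comp (mk0 π)) ψ χ' h0 (𝒰.comp_mem _ _ h0)
      have h2 : χ' (ψ ((χ.comp (mk0 π)) π)) = 0 := by
        rw [RingHom.comp_apply, mk0_pi, map_zero, map_zero, map_zero]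
      rw [h2, zero_mul, add_zero] at he
      rw [he]
      congr 1)
  have congr_r1 : ∀ (T : Type) [CommRing T] (ψ ψ' : Q0 π →+* T)
      (h : (𝒰.pull (mk0 π)).mem ψ) (h' : (𝒰.pull (mk0 π)).mem ψ'),
      ψ = ψ' → r1 T ψ h = r1 T ψ' h' := by
    rintro T _ ψ ψ' h h' rfl
    rfl
  have hbm : ∀ (S : Type) [CommRing S] (φ : R →+* S), 𝒰.mem φ →
      (𝒰.pull (mk0 π)).mem (bar0 π φ) := by
    intro S _ φ h
    show 𝒰.mem ((bar0 π φ).comp (mk0 π))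
    rw [bar0_comp]
    exact 𝒰.comp_mem _ _ h
  have hlift : ∀ (S : Type) [CommRing S] (φ : R →+* S) (h : 𝒰.mem φ), ∃ d : S,
      mkq π φ d = r1 (Qt π φ) (bar0 π φ) (hbm S φ h) - D S (Qt π φ) φ (mkq π φ) h := by
    intro S _ φ h
    exact Ideal.Quotient.mk_surjective _
  refine ⟨fun S _ φ h => Classical.choose (hlift S φ h), ?_⟩
  intro S T _ _ φ ψ h h'
  have hS := Classical.choose_spec (hlift S φ h)
  have hT := Classical.choose_spec (hlift T (ψ.comp φ) h')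
  set dS := Classical.choose (hlift S φ h)
  set dT := Classical.choose (hlift T (ψ.comp φ) h')
  have hgoal : mkq π (ψ.comp φ) (D S T φ ψ h) = mkq π (ψ.comp φ) (dT - ψ dS) := by
    obtain ⟨e1, he1⟩ := hD S (Qt π φ) (Qt π (ψ.comp φ)) φ (mkq π φ) (bar π φ ψ) h
      (𝒰.comp_mem _ _ h)
    obtain ⟨e2, he2⟩ := hD S T (Qt π (ψ.comp φ)) φ ψ (mkq π (ψ.comp φ)) h h'
    have h2 : bar π φ ψ (mkq π φ (φ π)) = 0 := by rw [mkq_pi, map_zero]
    have h3 : mkq π (ψ.comp φ) (ψ (φ π)) = 0 := mkq_pi π (ψ.comp φ)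
    rw [h2, zero_mul, add_zero] at he1
    rw [h3, zero_mul, add_zero] at he2
    rw [congr_D2 _ _ _ _ _ h (bar_comp π φ ψ)] at he1
    have h4 := hr1 (Qt π φ) (Qt π (ψ.comp φ)) (bar0 π φ) (bar π φ ψ) (hbm S φ h)
      ((𝒰.pull (mk0 π)).comp_mem _ _ (hbm S φ h))
    have h5 : D (Qt π φ) (Qt π (ψ.comp φ)) ((mkq π φ).comp φ) (bar π φ ψ)
        (𝒰.comp_mem _ _ h) = D (Qt π φ) (Qt π (ψ.comp φ)) ((bar0 π φ).comp (mk0 π))
          (bar π φ ψ) (hbm S φ h) := congr_D1 _ _ _ _ _ _ _ (bar0_comp π φ).symm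
    have h6 : r1 (Qt π (ψ.comp φ)) ((bar π φ ψ).comp (bar0 π φ))
        ((𝒰.pull (mk0 π)).comp_mem _ _ (hbm S φ h)) =
        r1 (Qt π (ψ.comp φ)) (bar0 π (ψ.comp φ)) (hbm T (ψ.comp φ) h') :=
      congr_r1 _ _ _ _ _ (bar_bar0 π φ ψ)
    have h7 : mkq π (ψ.comp φ) (ψ dS) = bar π φ ψ (mkq π φ dS) := (bar_mk π φ ψ dS).symm
    rw [map_sub, h7, hS, hT, map_sub]
    have h8 : mkq π (ψ.comp φ) (D S T φ ψ h) =
        D S (Qt π (ψ.comp φ)) φ ((mkq π (ψ.comp φ)).comp ψ) h -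
          D T (Qt π (ψ.comp φ)) (ψ.comp φ) (mkq π (ψ.comp φ)) h' := by
      rw [he2]
      ring
    rw [h8, he1, h5, h4, h6]
    ring
  obtain ⟨e, he⟩ := exists_of_mkq_eq π (ψ.comp φ) hgoal
  exact ⟨e, he⟩

end Pool.Agent.TH165.Tan
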