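import Pool.Agent.TH480.Tan165H1
import Pool.Agent.TH480.Tan165Mod

/-!
# Job 910 (MP_5575af-2), the unconditional form
-/

set_option autoImplicit false

namespace Pool.Agent.TH165.Tan

variable {R : Type} [CommRing R]

/-- A 1-cocycle modulo `π` on a covering sieve is a coboundary modulo `π`. -/
theorem Sv.Covers.h1mod {𝒰 : Sv R} (h𝒰 : 𝒰.Covers) (π : R)
    (D : ∀ (S T : Type) [CommRing S] [CommRing T] (φ : R →+* S) (_ : S →+* T), 𝒰.mem φ → T)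
    (hD : ∀ (S T U : Type) [CommRing S] [CommRing T] [CommRing U] (φ : R →+* S) (ψ : S →+* T)
      (χ : T →+* U) (h : 𝒰.mem φ) (h' : 𝒰.mem (ψ.comp φ)),
      ∃ e : U, D S U φ (χ.comp ψ) h = χ (D S T φ ψ h) + D T U (ψ.comp φ) χ h' +
        χ (ψ (φ π)) * e) :
    ∃ r : ∀ (S : Type) [CommRing S] (φ : R →+* S), 𝒰.mem φ → S,
      ∀ (S T : Type) [CommRing S] [CommRing T] (φ : R →+* S) (ψ : S →+* T) (h : 𝒰.mem φ)
        (h' : 𝒰.mem (ψ.comp φ)), ∃ e : T,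
          D S T φ ψ h = r T (ψ.comp φ) h' - ψ (r S φ h) + ψ (φ π) * e :=
  Sv.Covers.h1mod_of (fun _ _ _ h𝒱 D' hD' => h𝒱.h1 D' hD') h𝒰 π D hD

end Pool.Agent.TH165.Tan
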